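import Pool.Agent.Run7.h50.T8.FaceL
import Pool.Agent.Run7.h50.T8.Lattice

/-!
# T8: the lower bound

In any strictly convex drawing of the wheel on `n` vertices at least `(n - 3) / 3` consecutive
rim vertices are on the boundary of one face, hence in convex position, and `ℓ` integer points
in convex position need a square of side `c ℓ^(3/2)`.
-/

set_option autoImplicit false

namespace Pool.Agent.Run7.h215

open Set Run7.h50.T8

theorem exists_cube_root {L : ℕ} (hL : 1 ≤ L) : ∃ M, 1 ≤ M ∧ M ^ 3 ≤ L ∧ L < (M + 1) ^ 3 := by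
  classical
  have hex : ∃ m, L < (m + 1) ^ 3 := by
    refine ⟨L, ?_⟩
    have : (L + 1) ^ 3 = L ^ 3 + 3 * L ^ 2 + 3 * L + 1 := by ring
    rw [this]
    omega
  refine ⟨Nat.find hex, ?_, ?_, Nat.find_spec hex⟩
  · by_contra hh
    have h0 : Nat.find hex = 0 := by omega
    have := Nat.find_spec hex
    rw [h0] at this
    simp at this
    omega
  · by_cases h0 : Nat.find hex = 0
    · rw [h0]; simp
    · have := Nat.find_min hex (show Nat.find hex - 1 < Nat.find hex by omega)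
      rw [show Nat.find hex - 1 + 1 = Nat.find hex by omega] at this
      omega

/-- positions indexed by natural numbers -/
noncomputable def PP (n : ℕ) (p : Fin n → ℝ × ℝ) (k : ℕ) : ℝ × ℝ :=
  if h : k < n then p ⟨k, h⟩ else 0

theorem PP_eq {n : ℕ} {p : Fin n → ℝ × ℝ} {k : ℕ} (h : k < n) : PP n p k = p ⟨k, h⟩ := by
  simp [PP, h]

theorem pl_of_plane {n : ℕ} {p : Fin n → ℝ × ℝ} (h : IsPlaneDrawing (wheel n) p) :
    Pl n (PP n p) := by
  refine ⟨?_, ?_⟩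
  · intro i j k hi hj hk hw hq
    rw [PP_eq hi, PP_eq hj, PP_eq hk] at hq
    rcases h.vertex_off ⟨i, hi⟩ ⟨j, hj⟩ ⟨k, hk⟩ hw hq with h | h
    · exact Or.inl (congrArg Fin.val h)
    · exact Or.inr (congrArg Fin.val h)
  · intro i j i' j' hi hj hi' hj' hw hw' h1 h2 h3 h4 q hq hq'
    rw [PP_eq hi, PP_eq hj] at hq
    rw [PP_eq hi', PP_eq hj'] at hq'
    obtain ⟨w, hw1, hw2, _⟩ := h.edges_meet ⟨i, hi⟩ ⟨j, hj⟩ ⟨i', hi'⟩ ⟨j', hj'⟩ hw hw' (by
      intro he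
      rw [Sym2.eq_iff] at he
      rcases he with ⟨e1, _⟩ | ⟨e1, _⟩
      · exact h1 (congrArg Fin.val e1)
      · exact h2 (congrArg Fin.val e1)) q hq hq'
    rcases hw1 with rfl | rfl <;> rcases hw2 with e | e <;>
      · have := congrArg Fin.val e
        simp at this
        omega

theorem drw_eq {n : ℕ} {p : Fin n → ℝ × ℝ} : drw n (PP n p) = drawn (wheel n) p := by
  ext q
  constructor
  · rintro ⟨k, l, hk, hl, hw, hq⟩
    rw [PP_eq hk, PP_eq hl] at hq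
    exact ⟨⟨k, hk⟩, ⟨l, hl⟩, hw, hq⟩
  · rintro ⟨u, v, hw, hq⟩
    refine ⟨u.1, v.1, u.2, v.2, hw, ?_⟩
    rw [PP_eq u.2, PP_eq v.2]
    exact hq

/-- many rim vertices in convex position -/
theorem convex_run {n : ℕ} (hn : 4 ≤ n) {p : Fin n → ℝ × ℝ} (h : IsPlaneDrawing (wheel n) p)
    (hs : IsStrictlyConvex (wheel n) p) {ℓ : ℕ} (hℓ : 3 * ℓ + 3 ≤ n) (hℓ2 : 2 ≤ ℓ) :
    ∃ a, a + ℓ < n ∧ ∃ X : Set (ℝ × ℝ), Convex ℝ X ∧
      ∀ v : Fin n, a ≤ v.1 → v.1 ≤ a + ℓ - 1 → p v ∈ X.extremePoints ℝ := by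
  have hP := pl_of_plane h
  obtain ⟨a, ha, han, hg⟩ := hP.run hn hℓ (by omega)
  obtain ⟨z, hz, hcl⟩ := hP.face (b := a + ℓ - 1) ha (by omega) (by omega) hg
  rw [drw_eq] at hz hcl
  refine ⟨a, han, ?_⟩
  set A := connectedComponentIn (drawn (wheel n) p)ᶜ z with hA
  have hface : IsFace (wheel n) p A := ⟨z, hz, rfl⟩
  have hcl' : ∀ v : Fin n, a ≤ v.1 → v.1 ≤ a + ℓ - 1 → p v ∈ closure A := by
    intro v h1 h2
    have := hcl v.1 h1 h2
    rwa [PP_eq v.2] at this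
  by_cases hb : Bornology.IsBounded A
  · obtain ⟨h1, h2⟩ := hs.bounded A hface hb
    exact ⟨closure A, h1.closure, fun v v1 v2 => h2 v (hcl' v v1 v2)⟩
  · obtain ⟨h1, h2⟩ := hs.unbounded A hface hb
    exact ⟨Aᶜ, h1, fun v v1 v2 => h2 v (hcl' v v1 v2)⟩

theorem run_bound {n L : ℕ} (hn : 4 ≤ n) (h : HasGridDrawing (wheel n) L) {M : ℕ} (hM : 1 ≤ M)
    (hLM : L < (M + 1) ^ 3) {ℓ : ℕ} (hℓ : 3 * ℓ + 3 ≤ n) (hℓ2 : 2 ≤ ℓ) : ℓ ≤ 60 * M ^ 2 := by
  classical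
  obtain ⟨x, y, hxy, hpl, hsc⟩ := h
  obtain ⟨a, han, X, hX, hext⟩ := convex_run hn hpl hsc hℓ hℓ2
  let f : Fin n → ℤ × ℤ := fun v => ((x v : ℤ), (y v : ℤ))
  have hfr : ∀ v, rp (f v) = ((x v : ℝ), (y v : ℝ)) := by
    intro v; simp [rp, f]
  have hfinj : Function.Injective f := by
    intro u v huv
    apply hpl.inj
    show ((x u : ℝ), (y u : ℝ)) = ((x v : ℝ), (y v : ℝ))
    rw [← hfr, ← hfr, huv]
  let g : ℕ → Fin n := fun j => ⟨min (a + j) (n - 1), by omega⟩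
  let W : Finset (ℤ × ℤ) := (Finset.range ℓ).image (fun j => f (g j))
  have hgv : ∀ j, j < ℓ → (g j).1 = a + j := by
    intro j hj
    show min (a + j) (n - 1) = a + j
    omega
  have hWcard : W.card = ℓ := by
    rw [Finset.card_image_of_injOn, Finset.card_range]
    intro i hi j hj hij
    have h1 := congrArg Fin.val (hfinj hij)
    rw [hgv i (by simpa using hi), hgv j (by simpa using hj)] at h1
    omega
  have hWX : ∀ P ∈ W, ∃ v : Fin n, P = f v ∧ rp P ∈ X.extremePoints ℝ := by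
    intro P hP
    simp only [W, Finset.mem_image, Finset.mem_range] at hP
    obtain ⟨j, hj, rfl⟩ := hP
    refine ⟨g j, rfl, ?_⟩
    rw [hfr]
    exact hext (g j) (by rw [hgv j hj]; omega) (by rw [hgv j hj]; omega)
  have hconv : ConvPos W := by
    intro P hP hmem
    obtain ⟨v, rfl, hv⟩ := hWX P hP
    have hdiff := (hX.mem_extremePoints_iff_convex_sdiff.1 hv).2
    have hsub : rp '' (W.erase (f v) : Finset (ℤ × ℤ)) ⊆ X \ {rp (f v)} := by
      rintro _ ⟨Q, hQ, rfl⟩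
      have hQ' := Finset.mem_erase.1 (Finset.mem_coe.1 hQ)
      obtain ⟨u, rfl, hu⟩ := hWX Q hQ'.2
      refine ⟨hu.1, ?_⟩
      intro he
      have he' : rp (f u) = rp (f v) := he
      apply hQ'.1
      rw [hfr, hfr] at he'
      have := hpl.inj he'
      rw [this]
    have := convexHull_min hsub hdiff hmem
    exact this.2 rfl
  have hbox : ∀ A ∈ W, ∀ B ∈ W, A.1 - B.1 ≤ L ∧ A.2 - B.2 ≤ L := by
    intro A hA B hB
    obtain ⟨u, rfl, _⟩ := hWX A hA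
    obtain ⟨v, rfl, _⟩ := hWX B hB
    have h1 := hxy u
    have h2 := hxy v
    constructor
    · show (x u : ℤ) - (x v : ℤ) ≤ L
      omega
    · show (y u : ℤ) - (y v : ℤ) ≤ L
      omega
  have := lattice_card hconv hM hLM (fun A hA B hB => (hbox A hA B hB).1)
    (fun A hA B hB => (hbox A hA B hB).2)
  rwa [hWcard] at this

theorem t8 : T8 := by
  refine ⟨1 / 2600, by norm_num, ?_⟩
  intro n hn L hU
  have hG := hU (wheel n) (wheel_three hn) ⟨_, wheel_plane hn⟩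
  have hL : 1 ≤ L := by
    by_contra hh
    have h0 : L = 0 := by omega
    obtain ⟨x, y, hxy, hpl, _⟩ := hG
    have : (⟨0, by omega⟩ : Fin n) = ⟨1, by omega⟩ := by
      apply hpl.inj
      have e1 := hxy ⟨0, by omega⟩
      have e2 := hxy ⟨1, by omega⟩
      rw [h0] at e1 e2
      show ((x ⟨0, _⟩ : ℝ), (y ⟨0, _⟩ : ℝ)) = ((x ⟨1, _⟩ : ℝ), (y ⟨1, _⟩ : ℝ))
      rw [Nat.le_zero.1 e1.1, Nat.le_zero.1 e1.2, Nat.le_zero.1 e2.1, Nat.le_zero.1 e2.2]
    have := congrArg Fin.val this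
    simp at this
  obtain ⟨M, hM, hML, hLM⟩ := exists_cube_root hL
  have hM2 : 1 ≤ M ^ 2 := Nat.one_le_pow _ _ hM
  have hnM : n ≤ 185 * M ^ 2 := by
    by_cases h2 : 2 ≤ (n - 3) / 3
    · have := run_bound hn hG hM hLM (ℓ := (n - 3) / 3) (by omega) h2
      omega
    · omega
  have hr : (n : ℝ) ≤ 185 * (M : ℝ) ^ 2 := by exact_mod_cast hnM
  have hM0 : (0 : ℝ) ≤ M := Nat.cast_nonneg M
  have h1 : (n : ℝ) ^ (3 / 2 : ℝ) ≤ (185 * (M : ℝ) ^ 2) ^ (3 / 2 : ℝ) :=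
    Real.rpow_le_rpow (Nat.cast_nonneg n) hr (by norm_num)
  have h2 : (185 * (M : ℝ) ^ 2) ^ (3 / 2 : ℝ) = (185 : ℝ) ^ (3 / 2 : ℝ) * (M : ℝ) ^ 3 := by
    rw [Real.mul_rpow (by norm_num) (by positivity), ← Real.rpow_natCast (M : ℝ) 2,
      ← Real.rpow_mul hM0, ← Real.rpow_natCast (M : ℝ) 3]
    norm_num
  have h3 : (185 : ℝ) ^ (3 / 2 : ℝ) ≤ 2600 := by
    have h4 : (185 : ℝ) ^ (3 / 2 : ℝ) = 185 * Real.sqrt 185 := by
      rw [Real.sqrt_eq_rpow, show (3 / 2 : ℝ) = 1 + 1 / 2 by norm_num,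
        Real.rpow_add (by norm_num), Real.rpow_one]
    rw [h4]
    have h5 : Real.sqrt 185 ≤ 14 := by
      rw [Real.sqrt_le_left (by norm_num)]; norm_num
    linarith
  have h6 : (M : ℝ) ^ 3 ≤ L := by exact_mod_cast hML
  calc 1 / 2600 * (n : ℝ) ^ (3 / 2 : ℝ) ≤ 1 / 2600 * ((185 : ℝ) ^ (3 / 2 : ℝ) * (M : ℝ) ^ 3) := by
        rw [← h2]; gcongr
    _ ≤ 1 / 2600 * (2600 * (M : ℝ) ^ 3) := by gcongr
    _ = (M : ℝ) ^ 3 := by ring
    _ ≤ L := h6

end Pool.Agent.Run7.h215
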