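import Mathlib

/-!
# Combinatorial building sequences (canonical orderings) and the interface predicates

A *contour* is a list of entries `(z, τ)`, `τ` being the type of the contour edge entering `z`
from its predecessor on the contour (the type of the first entry is irrelevant).
-/

set_option autoImplicit false

namespace Pool.Agent.Run7.h215

/-- Types of contour edges: `D` (the edge by which a new path arrives at its right end),
`U` (the edge by which a new path leaves its left end), `H` (an edge inside a new path). -/
inductive Ty | D | U | H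
deriving DecidableEq

/-- The part of the contour between two consecutive attachments `w'` and `w` of a new path:
`w', l₁, …, l_a, r₁, …, r_b, w`, where all edges among `w', l₁, …, l_a` are of type `D`, the edge
from `l_a` to `r₁` (to `w` if `r` is empty) is of type `x` (arbitrary), and the edges among
`r₁, …, r_b, w` are of type `U`. -/
structure Seg (V : Type*) where
  l : List V
  x : Ty
  r : List V
  w : V

/-- entries of the right part -/
def rent {V : Type*} (x : Ty) : List V → V → List (V × Ty)
  | [], w => [(w, x)]
  | v :: vs, w => (v, x) :: rent Ty.U vs w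

/-- The contour entries of a segment (without its left end `w'`). -/
def Seg.entries {V : Type*} (s : Seg V) : List (V × Ty) :=
  s.l.map (fun v => (v, Ty.D)) ++ rent s.x s.r s.w

/-- A bounded face of the building sequence: its boundary is, counterclockwise,
`wl, l…, r…, wr` (from left to right along the bottom) and then `top` from right to left.
The *left part* is `wl :: l` (label 0), the *right part* is `r ++ [wr]` (label 1), the *top part*
is `top` (label 2). `first` (`last`): it is the leftmost (rightmost) of the faces added together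
with the new path `top`. -/
structure Face (V : Type*) where
  wl : V
  l : List V
  r : List V
  wr : V
  top : List V
  first : Bool
  last : Bool

/-- The faces created when the new path `P` is attached to the contour at `w0` and at the right
ends of the segments `segs`. -/
def newFaces {V : Type*} (P : List V) : Bool → V → List (Seg V) → List (Face V)
  | _, _, [] => []
  | b, w, s :: ss => ⟨w, s.l, s.r, s.w, P, b, ss.isEmpty⟩ :: newFaces P false s.w ss

/-- The right end of the last segment. -/
def lastW {V : Type*} : V → List (Seg V) → V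
  | w, [] => w
  | _, s :: ss => lastW s.w ss

/-- Contour entries of the new path. -/
def pEnt {V : Type*} : List V → List (V × Ty)
  | [] => []
  | v :: vs => (v, Ty.U) :: vs.map (fun v => (v, Ty.H))

/-- The building sequences: `CB a1 a2 F Z`: the graph with the bounded faces `F` (newest first)
and with upper contour `Z` (from `a1` to `a2`) has been built from the base edge `a1 a2`. -/
inductive CB {V : Type*} (a1 a2 : V) : List (Face V) → List (V × Ty) → Prop
  | base : a1 ≠ a2 → CB a1 a2 [] [(a1, Ty.H), (a2, Ty.H)]
  | step (F : List (Face V)) (A : List (V × Ty)) (w0 : V) (t0 : Ty) (segs : List (Seg V))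
      (C : List (V × Ty)) (P : List V) :
      CB a1 a2 F (A ++ (w0, t0) :: (segs.flatMap Seg.entries ++ C)) →
      segs ≠ [] → P ≠ [] → (P.length = 1 ∨ segs.length = 1) → P.Nodup →
      (∀ v ∈ P, v ≠ a1 ∧ v ≠ a2 ∧ ∀ f ∈ F, v ∉ f.top) →
      CB a1 a2 (newFaces P true w0 segs ++ F)
        (A ++ (w0, t0) :: (pEnt P ++ (lastW w0 segs, Ty.D) :: C))

/-- The final contour is `a1, a3, y_2, …, a2` with at most five vertices, the edge `a1 a3` being
of type `U` and all others of type `D`. -/
def FinalZ {V : Type*} (Z : List (V × Ty)) : Prop :=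
  ∃ (e0 : V × Ty) (a3 : V) (T : List (V × Ty)), Z = e0 :: (a3, Ty.U) :: T ∧
    (∀ e ∈ T, e.2 = Ty.D) ∧ 1 ≤ T.length ∧ T.length ≤ 3

/-- The vertices of the graph built. -/
def BVert {V : Type*} (a1 a2 : V) (F : List (Face V)) (v : V) : Prop :=
  v = a1 ∨ v = a2 ∨ ∃ f ∈ F, v ∈ f.top

/-- The (oriented) edges of the graph built: the base edge and, for every face, the edges of the
path `wl, top, wr`. -/
def BEdge {V : Type*} (a1 a2 : V) (F : List (Face V)) (u v : V) : Prop :=
  (u = a1 ∧ v = a2) ∨ ∃ f ∈ F, [u, v] <:+: f.wl :: (f.top ++ [f.wr])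

/-! ## Base coordinates -/

/-- The conditions on the base coordinates `x v 0, x v 1, x v 2` (with constant sum) at a face. -/
structure FaceX {V : Type*} (x : V → Fin 3 → ℤ) (f : Face V) : Prop where
  /-- `x · 0` is constant on the left part -/
  left_const : ∀ v ∈ f.wl :: f.l, x v 0 = x f.wl 0
  /-- and smaller elsewhere -/
  left_max : ∀ v ∈ f.r ++ f.wr :: f.top, x v 0 < x f.wl 0
  right_const : ∀ v ∈ f.r ++ [f.wr], x v 1 = x f.wr 1
  right_max : ∀ v ∈ f.wl :: f.l ++ f.top, x v 1 < x f.wr 1
  top_const : ∀ v ∈ f.top, ∀ w ∈ f.top, x v 2 = x w 2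
  top_max : ∀ v ∈ f.top, ∀ w ∈ f.wl :: f.l ++ (f.r ++ [f.wr]), x w 2 < x v 2
  /-- from left to right: `x · 1` increases strictly along the left part -/
  left_mono : (f.wl :: f.l).IsChain (fun a b => x a 1 < x b 1)
  /-- `x · 0` decreases strictly along the right part -/
  right_mono : (f.r ++ [f.wr]).IsChain (fun a b => x b 0 < x a 0)
  /-- `x · 0` decreases strictly along the top part (and so `x · 1` increases) -/
  top_mono : f.top.IsChain (fun a b => x b 0 < x a 0)
  /-- the edge `wl – head of top` -/
  first_edge : f.first = true → ∀ y ∈ f.top.head?, x f.wl 1 ≤ x y 1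
  mid_left : f.first = false → ∀ y ∈ f.top, x y 1 < x f.wl 1
  /-- the edge `last of top – wr` -/
  last_edge : f.last = true → ∀ y ∈ f.top.getLast?, x f.wr 0 ≤ x y 0
  mid_right : f.last = false → ∀ y ∈ f.top, x y 0 < x f.wr 0

/-- `max |x b i - x a i|`, as the sum-norm bound used for robustness -/
def nrm {V : Type*} (x : V → Fin 3 → ℤ) (a b : V) : ℤ :=
  max (max |x b 0 - x a 0| |x b 1 - x a 1|) |x b 2 - x a 2|

/-- the orientation form of the vectors `b - a`, `c - b` (positive: left turn) -/
def om {V : Type*} (x : V → Fin 3 → ℤ) (a b c : V) : ℤ :=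
  (x b 0 - x a 0) * (x c 1 - x b 1) - (x b 1 - x a 1) * (x c 0 - x b 0)

/-- Robust right turns along the final contour (a list of vertices from `a1` to `a2`), and the
contour is robustly monotone. -/
def OuterX {V : Type*} (x : V → Fin 3 → ℤ) (Z : List V) : Prop :=
  ∀ a b c, [a, b, c] <:+: Z → nrm x a b * nrm x b c ≤ - (4 * om x a b c)

/-- the coordinate along the lines `x · m = const` -/
def uu {V : Type*} (x : V → Fin 3 → ℤ) (m : Fin 3) (v : V) : ℤ := x v (m + 1) - x v (m + 2)

/-- the corner `a, v, b` is nearly straight in the direction of the line `x · m = const` -/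
def NS {V : Type*} (x : V → Fin 3 → ℤ) (m : Fin 3) (a v b : V) : Prop :=
  0 < uu x m v - uu x m a ∧ 0 < uu x m b - uu x m v ∧
  10 * (x v m - x a m) ≤ uu x m v - uu x m a ∧ 10 * (x v m - x b m) ≤ uu x m b - uu x m v

/-- The boundary of a face counterclockwise with labels: left part 0, right part 1, top part 2. -/
def lpoly {V : Type*} (f : Face V) : List (V × Fin 3) :=
  (f.wl :: f.l).map (fun v => (v, 0)) ++ (f.r ++ [f.wr]).map (fun v => (v, 1)) ++
    f.top.reverse.map (fun v => (v, 2))

/-- `a, v, b` are consecutive on the boundary of the face `f` (counterclockwise, cyclically), and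
`v` has label `m`. -/
def Corner {V : Type*} (f : Face V) (m : Fin 3) (a v b : V) : Prop :=
  ∃ (i j : Fin 3) (h : V × Fin 3), h ∈ (lpoly f).getLast? ∧
    [(a, i), (v, m), (b, j)] <:+: h :: (lpoly f ++ [(f.wl, 0)])

/-! ## Geometric conditions -/

/-- cross product of `b - a` and `c - b` (positive: left turn) -/
def cr {V : Type*} (p : V → ℝ × ℝ) (a b c : V) : ℝ :=
  ((p b).1 - (p a).1) * ((p c).2 - (p b).2) - ((p b).2 - (p a).2) * ((p c).1 - (p b).1)

/-- all turns along the list are strict left turns -/
def LTurns {V : Type*} (p : V → ℝ × ℝ) (L : List V) : Prop :=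
  ∀ a b c, [a, b, c] <:+: L → 0 < cr p a b c

/-- all turns along the list are strict right turns -/
def RTurns {V : Type*} (p : V → ℝ × ℝ) (L : List V) : Prop :=
  ∀ a b c, [a, b, c] <:+: L → cr p a b c < 0

/-- abscissas strictly increase along the list -/
def XInc {V : Type*} (p : V → ℝ × ℝ) (L : List V) : Prop :=
  L.IsChain (fun a b => (p a).1 < (p b).1)

/-- The bottom path of a face, from left to right. -/
def Face.bot {V : Type*} (f : Face V) : List V := f.wl :: (f.l ++ (f.r ++ [f.wr]))

/-- The geometric conditions at a face of a building sequence. -/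
structure FaceG {V : Type*} (p : V → ℝ × ℝ) (f : Face V) : Prop where
  bot : LTurns p f.bot
  xfirst : f.first = true → ∀ y ∈ f.top.head?, (p f.wl).1 < (p y).1
  xtop : XInc p f.top
  xlast : f.last = true → ∀ y ∈ f.top.getLast?, (p y).1 < (p f.wr).1
  rt : f.first = true → f.last = true → RTurns p (f.wl :: (f.top ++ [f.wr]))
  fanmid : ¬ (f.first = true ∧ f.last = true) → ∀ y ∈ f.top, (p f.wl).1 < (p y).1 →
    (p y).1 < (p f.wr).1 → RTurns p [f.wl, y, f.wr]
  fanR : f.last = false → ∀ y ∈ f.top, (p f.wr).1 ≤ (p y).1 → LTurns p (f.bot ++ [y])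
  fanL : f.first = false → ∀ y ∈ f.top, (p y).1 ≤ (p f.wl).1 → LTurns p (y :: f.bot)
  yR : f.last = false → ∀ y ∈ f.top, (p f.wr).2 < (p y).2
  yL : f.first = false → ∀ y ∈ f.top, (p f.wl).2 < (p y).2

/-- Geometric building sequences: every step adds one face below which the contour path
`zp, M, zq` is convex and above which the new path `zp, P, zq` is concave (one of `M`, `P` may be
empty). `E` is the list of edges. -/
inductive GB {V : Type*} (p : V → ℝ × ℝ) (a1 a2 : V) : List (V × V) → List V → Prop
  | base : (p a1).1 < (p a2).1 → GB p a1 a2 [(a1, a2)] [a1, a2]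
  | step (E : List (V × V)) (A : List V) (zp : V) (M : List V) (zq : V) (C : List V)
      (P : List V) (E' : List (V × V)) :
      GB p a1 a2 E (A ++ zp :: (M ++ zq :: C)) →
      (M ≠ [] ∨ P ≠ []) →
      (∀ v ∈ P, ∀ e ∈ E, v ≠ e.1 ∧ v ≠ e.2) →
      XInc p (zp :: (P ++ [zq])) →
      LTurns p (zp :: (M ++ [zq])) →
      RTurns p (zp :: (P ++ [zq])) →
      (∀ e, e ∈ E' ↔ e ∈ E ∨ [e.1, e.2] <:+: zp :: (P ++ [zq])) →
      GB p a1 a2 E' (A ++ zp :: (P ++ zq :: C))

/-! ## Cycles mod 2 and the planarity system -/

section Sys

variable {V : Type*} [Fintype V]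

/-- `c` is the indicator of an even subgraph of `G`. -/
structure IsCyc (G : SimpleGraph V) (c : V → V → ZMod 2) : Prop where
  symm : ∀ u v, c u v = c v u
  supp : ∀ u v, ¬ G.Adj u v → c u v = 0
  even : ∀ v, ∑ w, c v w = 0

/-- The planarity system of a plane drawing: for an even subgraph `c`, `s c u v` is the parity of
the number of edges of `c` met by a ray starting just to the left of the dart `(u, v)`. -/
structure Sys (G : SimpleGraph V) (s : (V → V → ZMod 2) → V → V → ZMod 2) : Prop where
  add : ∀ c c', IsCyc G c → IsCyc G c' → ∀ u v, G.Adj u v →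
    s (fun a b => c a b + c' a b) u v = s c u v + s c' u v
  flip : ∀ c, IsCyc G c → ∀ u v, G.Adj u v → s c u v + s c v u = c u v
  rot : ∀ v, ∃ pos : V → ℕ, Function.Injective pos ∧ ∀ c, IsCyc G c → ∃ b : ZMod 2,
    ∀ w, G.Adj v w → s c v w = b + ∑ w' with pos w' ≤ pos w, c v w'

end Sys

end Pool.Agent.Run7.h215
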