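import Pool.Agent.Run7.h215.Iface

/-!
# Basic facts on building sequences
-/

set_option autoImplicit false

namespace Pool.Agent.Run7.h215

section
variable {V : Type*}

@[simp] theorem newFaces_nil (P : List V) (b : Bool) (w : V) : newFaces P b w [] = [] := rfl

@[simp] theorem newFaces_cons (P : List V) (b : Bool) (w : V) (s : Seg V) (ss : List (Seg V)) :
    newFaces P b w (s :: ss) =
      ⟨w, s.l, s.r, s.w, P, b, ss.isEmpty⟩ :: newFaces P false s.w ss := rfl

@[simp] theorem lastW_nil (w : V) : lastW w [] = w := rfl

@[simp] theorem lastW_cons (w : V) (s : Seg V) (ss : List (Seg V)) :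
    lastW w (s :: ss) = lastW s.w ss := rfl

@[simp] theorem pEnt_map_fst (P : List V) : (pEnt P).map Prod.fst = P := by
  cases P with
  | nil => rfl
  | cons v vs => simp [pEnt, Function.comp_def]

@[simp] theorem rent_map_fst (x : Ty) (r : List V) (w : V) :
    (rent x r w).map Prod.fst = r ++ [w] := by
  induction r generalizing x with
  | nil => rfl
  | cons v vs ih => simp [rent, ih]

@[simp] theorem Seg.entries_map_fst (s : Seg V) :
    s.entries.map Prod.fst = s.l ++ (s.r ++ [s.w]) := by
  simp [Seg.entries, Function.comp_def]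

theorem flatMap_entries_map_fst (segs : List (Seg V)) :
    (segs.flatMap Seg.entries).map Prod.fst = segs.flatMap (fun s => s.l ++ (s.r ++ [s.w])) := by
  induction segs with
  | nil => rfl
  | cons s ss ih => simp [ih]

@[simp] theorem length_newFaces (P : List V) (b : Bool) (w : V) (segs : List (Seg V)) :
    (newFaces P b w segs).length = segs.length := by
  induction segs generalizing b w with
  | nil => rfl
  | cons s ss ih => simp [ih]

theorem top_of_mem_newFaces {P : List V} {b : Bool} {w : V} {segs : List (Seg V)} {f : Face V}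
    (hf : f ∈ newFaces P b w segs) : f.top = P := by
  induction segs generalizing b w with
  | nil => simp at hf
  | cons s ss ih =>
    rw [newFaces_cons, List.mem_cons] at hf
    rcases hf with rfl | hf
    · rfl
    · exact ih hf

theorem newFaces_ne_nil {P : List V} {b : Bool} {w : V} {segs : List (Seg V)}
    (h : segs ≠ []) : newFaces P b w segs ≠ [] := by
  cases segs with
  | nil => exact absurd rfl h
  | cons s ss => simp

theorem lastW_mem {w : V} {segs : List (Seg V)} (h : segs ≠ []) :
    lastW w segs ∈ (segs.flatMap Seg.entries).map Prod.fst := by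
  induction segs generalizing w with
  | nil => exact absurd rfl h
  | cons s ss ih =>
    cases ss with
    | nil => simp
    | cons s' ss' =>
      rw [lastW_cons, List.flatMap_cons, List.map_append, List.mem_append]
      exact Or.inr (ih (by simp))

/-- the open stretch ends with the last attachment -/
theorem flatMap_entries_eq {w : V} {segs : List (Seg V)} (h : segs ≠ []) :
    ∃ L, (segs.flatMap Seg.entries).map Prod.fst = L ++ [lastW w segs] := by
  induction segs generalizing w with
  | nil => exact absurd rfl h
  | cons s ss ih =>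
    cases ss with
    | nil => exact ⟨s.l ++ s.r, by simp⟩
    | cons s' ss' =>
      obtain ⟨L, hL⟩ := ih (w := s.w) (by simp)
      refine ⟨s.entries.map Prod.fst ++ L, ?_⟩
      rw [List.flatMap_cons, List.map_append, hL, List.append_assoc]
      rfl

theorem length_le_flatMap (segs : List (Seg V)) :
    segs.length ≤ (segs.flatMap Seg.entries).length := by
  induction segs with
  | nil => simp
  | cons s ss ih =>
    have h1 : 1 ≤ s.entries.length := by
      have := congrArg List.length (Seg.entries_map_fst s)
      rw [List.length_map] at this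
      simp only [List.length_append, List.length_cons] at this
      omega
    rw [List.flatMap_cons, List.length_append, List.length_cons]
    omega

theorem bvert_step {a1 a2 : V} {F : List (Face V)} {P : List V} {w : V} {segs : List (Seg V)}
    (h : segs ≠ []) (v : V) :
    BVert a1 a2 (newFaces P true w segs ++ F) v ↔ BVert a1 a2 F v ∨ v ∈ P := by
  unfold BVert
  constructor
  · rintro (h1 | h1 | ⟨f, hf, hv⟩)
    · exact Or.inl (Or.inl h1)
    · exact Or.inl (Or.inr (Or.inl h1))
    · rw [List.mem_append] at hf
      rcases hf with hf | hf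
      · rw [top_of_mem_newFaces hf] at hv
        exact Or.inr hv
      · exact Or.inl (Or.inr (Or.inr ⟨f, hf, hv⟩))
  · rintro ((h1 | h1 | ⟨f, hf, hv⟩) | hv)
    · exact Or.inl h1
    · exact Or.inr (Or.inl h1)
    · exact Or.inr (Or.inr ⟨f, List.mem_append.2 (Or.inr hf), hv⟩)
    · cases segs with
      | nil => exact absurd rfl h
      | cons s ss =>
        exact Or.inr (Or.inr ⟨_, List.mem_append.2 (Or.inl List.mem_cons_self), hv⟩)

theorem CB.ne {a1 a2 : V} {F : List (Face V)} {Z : List (V × Ty)} (h : CB a1 a2 F Z) :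
    a1 ≠ a2 := by
  induction h with
  | base h => exact h
  | step F A w0 t0 segs C P h1 h2 h3 h4 h5 h6 ih => exact ih

/-- Contour vertices are built vertices. -/
theorem CB.bvert {a1 a2 : V} {F : List (Face V)} {Z : List (V × Ty)} (h : CB a1 a2 F Z) :
    ∀ v ∈ Z.map Prod.fst, BVert a1 a2 F v := by
  induction h with
  | base h =>
    intro v hv
    simp only [List.map_cons, List.map_nil, List.mem_cons, List.not_mem_nil, or_false] at hv
    rcases hv with rfl | rfl
    · exact Or.inl rfl
    · exact Or.inr (Or.inl rfl)
  | step F A w0 t0 segs C P h1 h2 h3 h4 h5 h6 ih =>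
    intro v hv
    rw [bvert_step h2]
    simp only [List.map_append, List.map_cons, pEnt_map_fst, List.mem_append,
      List.mem_cons] at hv ih
    rcases hv with hv | rfl | hv | rfl | hv
    · exact Or.inl (ih v (Or.inl hv))
    · exact Or.inl (ih _ (Or.inr (Or.inl rfl)))
    · exact Or.inr hv
    · exact Or.inl (ih _ (Or.inr (Or.inr (Or.inl (lastW_mem h2)))))
    · exact Or.inl (ih v (Or.inr (Or.inr (Or.inr hv))))

theorem not_bvert {a1 a2 : V} {F : List (Face V)} {v : V}
    (h : v ≠ a1 ∧ v ≠ a2 ∧ ∀ f ∈ F, v ∉ f.top) : ¬ BVert a1 a2 F v := by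
  rintro (h1 | h1 | ⟨f, hf, hv⟩)
  · exact h.1 h1
  · exact h.2.1 h1
  · exact h.2.2 f hf hv

/-- The contour has no repeated vertices. -/
theorem CB.nodup {a1 a2 : V} {F : List (Face V)} {Z : List (V × Ty)} (h : CB a1 a2 F Z) :
    (Z.map Prod.fst).Nodup := by
  induction h with
  | base h => simpa using h
  | step F A w0 t0 segs C P h1 h2 h3 h4 h5 h6 ih =>
    have hb := h1.bvert
    obtain ⟨L, hL⟩ := flatMap_entries_eq (w := w0) h2
    simp only [List.map_append, List.map_cons, pEnt_map_fst] at ih hb ⊢
    rw [hL] at ih hb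
    have hP : ∀ v ∈ P, v ∉ A.map Prod.fst ++ w0 :: ((L ++ [lastW w0 segs]) ++ C.map Prod.fst) :=
      fun v hv hv' => not_bvert (h6 v hv) (hb v hv')
    simp only [List.nodup_append, List.nodup_cons, List.mem_append, List.mem_cons,
      List.not_mem_nil, or_false, List.nodup_nil, not_or] at ih hP ⊢
    obtain ⟨i1, ⟨⟨i2, i3⟩, ⟨i4, -, i5⟩, i6, i7⟩, i8⟩ := ih
    refine ⟨i1, ⟨⟨fun h => (hP _ h).2.1 rfl, i2.2, i3⟩, h5, ⟨fun h => i7 _ (Or.inr rfl) _ h rfl, i6⟩,
      ?_⟩, ?_⟩
    · rintro v hv w (rfl | hw) rfl
      · exact (hP _ hv).2.2.1.2 rfl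
      · exact (hP _ hv).2.2.2 hw
    · rintro v hv w (rfl | hw | rfl | hw) rfl
      · exact i8 _ hv _ (Or.inl rfl) rfl
      · exact (hP _ hw).1 hv
      · exact i8 _ hv _ (Or.inr (Or.inl (Or.inr rfl))) rfl
      · exact i8 _ hv _ (Or.inr (Or.inr hw)) rfl

/-- The contour starts with `a1`. -/
theorem CB.head {a1 a2 : V} {F : List (Face V)} {Z : List (V × Ty)} (h : CB a1 a2 F Z) :
    ∃ T, Z.map Prod.fst = a1 :: T ∧ T ≠ [] := by
  induction h with
  | base h => exact ⟨[a2], rfl, by simp⟩
  | step F A w0 t0 segs C P h1 h2 h3 h4 h5 h6 ih =>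
    obtain ⟨T, hT, -⟩ := ih
    cases A with
    | nil =>
      simp only [List.nil_append, List.map_cons, List.cons.injEq] at hT
      refine ⟨P ++ (lastW w0 segs :: C.map Prod.fst), ?_, by simp⟩
      rw [← hT.1]
      simp
    | cons e A =>
      simp only [List.cons_append, List.map_cons, List.cons.injEq] at hT
      refine ⟨(A ++ (w0, t0) :: (pEnt P ++ (lastW w0 segs, Ty.D) :: C)).map Prod.fst, ?_, by simp⟩
      rw [← hT.1]
      simp

/-- The contour ends with `a2`. -/
theorem CB.getLast {a1 a2 : V} {F : List (Face V)} {Z : List (V × Ty)} (h : CB a1 a2 F Z) :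
    ∃ T, Z.map Prod.fst = T ++ [a2] ∧ T ≠ [] := by
  induction h with
  | base h => exact ⟨[a1], rfl, by simp⟩
  | step F A w0 t0 segs C P h1 h2 h3 h4 h5 h6 ih =>
    obtain ⟨T, hT, -⟩ := ih
    obtain ⟨L, hL⟩ := flatMap_entries_eq (w := w0) h2
    rcases List.eq_nil_or_concat (C.map Prod.fst) with hC | ⟨C', c, hC⟩
    · rw [List.map_append, List.map_cons, List.map_append, hL, hC, List.append_nil] at hT
      have : A.map Prod.fst ++ w0 :: L ++ [lastW w0 segs] = T ++ [a2] := by
        rw [← hT]; simp
      have h7 := (List.append_inj' this rfl).2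
      refine ⟨A.map Prod.fst ++ w0 :: P, ?_, by simp⟩
      simp only [List.map_append, List.map_cons, pEnt_map_fst, hC]
      simp only [List.cons.injEq, and_true] at h7
      rw [h7]
      simp
    · rw [List.concat_eq_append] at hC
      rw [List.map_append, List.map_cons, List.map_append, hL, hC] at hT
      have : A.map Prod.fst ++ w0 :: (L ++ [lastW w0 segs] ++ C') ++ [c] = T ++ [a2] := by
        rw [← hT]; simp
      have h7 := (List.append_inj' this rfl).2
      simp only [List.cons.injEq, and_true] at h7
      refine ⟨A.map Prod.fst ++ w0 :: (P ++ lastW w0 segs :: C'), ?_, by simp⟩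
      simp only [List.map_append, List.map_cons, pEnt_map_fst, hC, h7]
      simp

end

open Classical in
/-- T9b -/
theorem CB.count {V : Type} {a1 a2 : V} {F : List (Face V)} {Z : List (V × Ty)}
    (h : CB a1 a2 F Z) : ∃ B : Finset V, (∀ v, v ∈ B ↔ BVert a1 a2 F v) ∧
      F.length + Z.length ≤ 2 * B.card := by
  induction h with
  | base h =>
    refine ⟨{a1, a2}, fun v => ?_, ?_⟩
    · simp [BVert]
    · rw [Finset.card_pair h]; simp
  | step F A w0 t0 segs C P h1 h2 h3 h4 h5 h6 ih =>
    obtain ⟨B, hB, hc⟩ := ih
    have hdisj : Disjoint B P.toFinset := by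
      rw [Finset.disjoint_left]
      intro v hv hv'
      rw [List.mem_toFinset] at hv'
      exact not_bvert (h6 v hv') ((hB v).1 hv)
    refine ⟨B ∪ P.toFinset, fun v => ?_, ?_⟩
    · rw [bvert_step h2, Finset.mem_union, hB, List.mem_toFinset]
    · rw [Finset.card_union_of_disjoint hdisj, List.toFinset_card_of_nodup h5]
      have hP : 0 < P.length := List.length_pos_iff.2 h3
      have hs := length_le_flatMap segs
      have hpe : (pEnt P).length = P.length := by
        have := congrArg List.length (pEnt_map_fst P)
        rwa [List.length_map] at this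
      simp only [List.length_append, List.length_cons, length_newFaces, hpe] at hc ⊢
      omega

theorem t9b : T9b := by
  intro V _ a1 a2 F Z h
  classical
  obtain ⟨B, -, hc⟩ := h.count
  have := Finset.card_le_univ B
  omega

end Pool.Agent.Run7.h215
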