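import Pool.Agent.Run7.h215.CBBasic

/-!
# The corners of a face in positional form
-/

set_option autoImplicit false

namespace Pool.Agent.Run7.h215

section
variable {V : Type*}

theorem split_app {α : Type*} {L R p t : List α} {e e' : α} (h : p ++ e :: e' :: t = L ++ R) :
    (∃ q, L = p ++ e :: q ∧ q ++ R = e' :: t) ∨ (∃ c, p = L ++ c ∧ R = c ++ e :: e' :: t) := by
  rw [List.append_eq_append_iff] at h
  rcases h with ⟨a', h1, h2⟩ | ⟨c', h1, h2⟩
  · cases a' with
    | nil =>
      right
      refine ⟨[], by simpa using h1.symm, by simpa using h2.symm⟩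
    | cons x q =>
      left
      rw [List.cons_append, List.cons.injEq] at h2
      exact ⟨q, by rw [h1, h2.1], h2.2.symm⟩
  · exact Or.inr ⟨c', h1, h2⟩

/-- Positional description of the corners: label 0. -/
def Corner0 (f : Face V) (a v b : V) : Prop :=
  ∃ p q, f.wl :: f.l = p ++ v :: q ∧ (∃ y ∈ f.top.head?, (y :: p).getLast? = some a) ∧
    (q ++ (f.r ++ [f.wr])).head? = some b

/-- label 1 -/
def Corner1 (f : Face V) (a v b : V) : Prop :=
  ∃ p q, f.r ++ [f.wr] = p ++ v :: q ∧ ((f.wl :: f.l) ++ p).getLast? = some a ∧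
    ∃ y ∈ f.top.getLast?, (q ++ [y]).head? = some b

/-- label 2 -/
def Corner2 (f : Face V) (a v b : V) : Prop :=
  ∃ p q, f.top = p ++ v :: q ∧ (f.wl :: p).getLast? = some b ∧ (q ++ [f.wr]).head? = some a

theorem head?_append_left {α : Type*} {A B : List α} (h : A ≠ []) :
    (A ++ B).head? = A.head? := by
  cases A with
  | nil => exact absurd rfl h
  | cons a A => rfl

theorem lpoly_getLast? (f : Face V) (ht : f.top ≠ []) :
    (lpoly f).getLast? = f.top.head?.map (fun v => (v, 2)) := by
  unfold lpoly
  rw [List.getLast?_append, List.getLast?_map, List.getLast?_reverse]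
  cases h : f.top with
  | nil => exact absurd h ht
  | cons y t => simp

theorem getLast?_map_fst {L : List (V × Fin 3)} {a : V} {i : Fin 3}
    (h : L.getLast? = some (a, i)) : (L.map Prod.fst).getLast? = some a := by
  rw [List.getLast?_map, h]; rfl

theorem head?_map_fst {L : List (V × Fin 3)} {a : V} {i : Fin 3}
    (h : L.head? = some (a, i)) : (L.map Prod.fst).head? = some a := by
  rw [List.head?_map, h]; rfl

theorem corner_cases {f : Face V} (ht : f.top ≠ []) {m : Fin 3} {a v b : V}
    (h : Corner f m a v b) :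
    (m = 0 ∧ Corner0 f a v b) ∨ (m = 1 ∧ Corner1 f a v b) ∨ (m = 2 ∧ Corner2 f a v b) := by
  obtain ⟨i, j, hh, hlast, s, t, hst⟩ := h
  rw [lpoly_getLast? f ht, Option.mem_map] at hlast
  obtain ⟨y, hy, rfl⟩ := hlast
  -- the prefix
  obtain ⟨p, hp, hpe⟩ : ∃ p, s ++ [(a, i)] = (y, 2) :: p ∧
      p ++ (v, m) :: (b, j) :: t = lpoly f ++ [(f.wl, 0)] := by
    have h1 : (s ++ [(a, i)]) ++ (v, m) :: (b, j) :: t = (y, 2) :: (lpoly f ++ [(f.wl, 0)]) := by
      rw [← hst]; simp
    cases hs : s ++ [(a, i)] with
    | nil => simp at hs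
    | cons e p =>
      rw [hs, List.cons_append, List.cons.injEq] at h1
      exact ⟨p, by rw [h1.1], h1.2⟩
  have hlastp : ((y, (2 : Fin 3)) :: p).getLast? = some (a, i) := by
    rw [← hp]; simp
  set L0 : List (V × Fin 3) := (f.wl :: f.l).map (fun v => (v, (0 : Fin 3))) with hL0
  set L1 : List (V × Fin 3) := (f.r ++ [f.wr]).map (fun v => (v, (1 : Fin 3))) with hL1
  set L2 : List (V × Fin 3) := f.top.reverse.map (fun v => (v, (2 : Fin 3))) with hL2
  have e0 : L0.map Prod.fst = f.wl :: f.l := by rw [hL0, List.map_map]; simp [Function.comp_def]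
  have e1 : L1.map Prod.fst = f.r ++ [f.wr] := by rw [hL1, List.map_map]; simp [Function.comp_def]
  have e2 : L2.map Prod.fst = f.top.reverse := by
    rw [hL2, List.map_map]; simp [Function.comp_def]
  have m0 : ∀ e ∈ L0, e.2 = 0 := fun e he => by
    rw [hL0, List.mem_map] at he; obtain ⟨v, -, rfl⟩ := he; rfl
  have m1 : ∀ e ∈ L1, e.2 = 1 := fun e he => by
    rw [hL1, List.mem_map] at he; obtain ⟨v, -, rfl⟩ := he; rfl
  have m2 : ∀ e ∈ L2, e.2 = 2 := fun e he => by
    rw [hL2, List.mem_map] at he; obtain ⟨v, -, rfl⟩ := he; rfl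
  have hpe' : p ++ (v, m) :: (b, j) :: t = L0 ++ (L1 ++ (L2 ++ [(f.wl, 0)])) := by
    rw [hpe]; simp only [lpoly, ← hL0, ← hL1, ← hL2, List.append_assoc]
  rcases split_app hpe' with ⟨q, h1, h2⟩ | ⟨c, h1, h2⟩
  · -- label 0
    left
    have hm : m = 0 := m0 (v, m) (by rw [h1]; simp)
    refine ⟨hm, p.map Prod.fst, q.map Prod.fst, ?_, ⟨y, hy, ?_⟩, ?_⟩
    · rw [← e0, h1]; simp
    · have := getLast?_map_fst hlastp
      simpa using this
    · have h3 : (q ++ (L1 ++ (L2 ++ [(f.wl, 0)]))).head? = some (b, j) := by rw [h2]; rfl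
      have h4 := head?_map_fst h3
      rw [List.map_append, List.map_append, e1, ← List.append_assoc,
        head?_append_left (by simp)] at h4
      exact h4
  · rcases split_app h2.symm with ⟨q, h3, h4⟩ | ⟨c', h3, h4⟩
    · -- label 1
      right; left
      have hm : m = 1 := m1 (v, m) (by rw [h3]; simp)
      obtain ⟨z, hz⟩ : ∃ z, f.top.getLast? = some z := by
        cases hh : f.top.getLast? with
        | none => exact absurd (List.getLast?_eq_none_iff.1 hh) ht
        | some z => exact ⟨z, rfl⟩
      refine ⟨hm, c.map Prod.fst, q.map Prod.fst, ?_, ?_, z, hz, ?_⟩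
      · rw [← e1, h3]; simp
      · have := getLast?_map_fst hlastp
        rw [h1, List.map_cons, List.map_append, e0, List.cons_append] at this
        rw [List.getLast?_cons_cons] at this
        exact this
      · have h5 : (q ++ (L2 ++ [(f.wl, 0)])).head? = some (b, j) := by rw [h4]; rfl
        have h6 := head?_map_fst h5
        rw [List.map_append, List.map_append, e2] at h6
        cases q with
        | nil =>
          simp only [List.map_nil, List.nil_append] at h6 ⊢
          rw [head?_append_left (by simpa using ht), List.head?_reverse, hz] at h6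
          simpa using h6
        | cons x q => simpa using h6
    · rcases split_app h4.symm with ⟨q, h5, h6⟩ | ⟨c'', h5, h6⟩
      · -- label 2
        right; right
        have hm : m = 2 := m2 (v, m) (by rw [h5]; simp)
        have e3 : f.top = (q.map Prod.fst).reverse ++ v :: (c'.map Prod.fst).reverse := by
          have := congrArg List.reverse (e2.symm.trans (congrArg (List.map Prod.fst) h5))
          rw [List.reverse_reverse] at this
          rw [this]; simp
        refine ⟨hm, (q.map Prod.fst).reverse, (c'.map Prod.fst).reverse, e3, ?_, ?_⟩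
        · have h7 : (q ++ [(f.wl, 0)]).head? = some (b, j) := by rw [h6]; rfl
          have h8 := head?_map_fst h7
          rw [← List.reverse_reverse (f.wl :: _), List.getLast?_reverse]
          simpa using h8
        · have h7 := getLast?_map_fst hlastp
          rw [h1, h3, List.map_cons, List.map_append, List.map_append, e0, e1] at h7
          rw [← List.reverse_reverse (_ ++ [f.wr]), List.head?_reverse]
          rw [List.reverse_append, List.reverse_reverse]
          have : (y :: (f.wl :: f.l ++ (f.r ++ [f.wr] ++ List.map Prod.fst c'))) =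
              (y :: (f.wl :: f.l ++ f.r)) ++ (f.wr :: List.map Prod.fst c') := by simp
          simp only at h7
          rw [this, List.getLast?_append] at h7
          cases hh : (f.wr :: List.map Prod.fst c').getLast? with
          | none => simp at hh
          | some z =>
            rw [hh] at h7
            simpa [hh] using h7
      · exfalso
        have := congrArg List.length h6
        simp only [List.length_cons, List.length_append, List.length_nil] at this
        omega

theorem corner_of0 {f : Face V} {a v b : V} (h : Corner0 f a v b) : Corner f 0 a v b := by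
  obtain ⟨p, q, h1, ⟨y, hy, h2⟩, h3⟩ := h
  have ht : f.top ≠ [] := by rintro h; rw [h] at hy; simp at hy
  obtain ⟨p', hp'⟩ : ∃ p', y :: p = p' ++ [a] := by
    rcases List.eq_nil_or_concat (y :: p) with h | ⟨L, z, h⟩
    · simp at h
    · rw [List.concat_eq_append] at h
      rw [h, List.getLast?_append] at h2
      simp at h2
      exact ⟨L, by rw [h, h2]⟩
  obtain ⟨q', hq'⟩ : ∃ q', q ++ (f.r ++ [f.wr]) = b :: q' := by
    cases hh : q ++ (f.r ++ [f.wr]) with
    | nil => simp at hh
    | cons z L => rw [hh] at h3; simp at h3; exact ⟨L, by rw [h3]⟩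
  -- labels
  have key : ∃ (s t : List (V × Fin 3)) (i j : Fin 3), (y, (2 : Fin 3)) :: (lpoly f ++ [(f.wl, 0)]) =
      s ++ [(a, i), (v, 0), (b, j)] ++ t := by
    have k1 : ∃ s i, (y, (2 : Fin 3)) :: p.map (fun v => (v, (0 : Fin 3))) = s ++ [(a, i)] := by
      cases p' with
      | nil =>
        simp only [List.nil_append, List.cons.injEq] at hp'
        exact ⟨[], 2, by rw [hp'.1, hp'.2]; rfl⟩
      | cons z p' =>
        simp only [List.cons_append, List.cons.injEq] at hp'
        exact ⟨(y, 2) :: p'.map (fun v => (v, 0)), 0, by rw [hp'.2]; simp⟩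
    have k2 : ∃ t j, q.map (fun v => (v, (0 : Fin 3))) ++ (f.r ++ [f.wr]).map
        (fun v => (v, (1 : Fin 3))) = (b, j) :: t := by
      cases q with
      | nil =>
        rw [List.nil_append] at hq'
        rw [hq']
        exact ⟨_, 1, rfl⟩
      | cons z q =>
        simp only [List.cons_append, List.cons.injEq] at hq'
        rw [hq'.1]
        exact ⟨_, 0, rfl⟩
    obtain ⟨s, i, hs⟩ := k1
    obtain ⟨t, j, ht⟩ := k2
    refine ⟨s, t ++ (f.top.reverse.map (fun v => (v, 2)) ++ [(f.wl, 0)]), i, j, ?_⟩
    unfold lpoly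
    rw [h1]
    have : (y, (2 : Fin 3)) :: (((p ++ v :: q).map (fun v => (v, (0 : Fin 3))) ++
        (f.r ++ [f.wr]).map (fun v => (v, (1 : Fin 3))) ++
        f.top.reverse.map (fun v => (v, (2 : Fin 3)))) ++ [(f.wl, (0 : Fin 3))]) =
        ((y, (2 : Fin 3)) :: p.map (fun v => (v, (0 : Fin 3)))) ++ (v, 0) ::
          ((q.map (fun v => (v, (0 : Fin 3))) ++ (f.r ++ [f.wr]).map
            (fun v => (v, (1 : Fin 3)))) ++ (f.top.reverse.map (fun v => (v, (2 : Fin 3))) ++
              [(f.wl, (0 : Fin 3))])) := by simp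
    rw [this, hs, ht]
    simp
  obtain ⟨s, t, i, j, hk⟩ := key
  refine ⟨i, j, (y, 2), ?_, s, t, hk.symm⟩
  rw [lpoly_getLast? f ht, Option.mem_map]
  exact ⟨y, hy, rfl⟩

theorem corner_of1 {f : Face V} {a v b : V} (h : Corner1 f a v b) : Corner f 1 a v b := by
  obtain ⟨p, q, h1, h2, y, hy, h3⟩ := h
  have ht : f.top ≠ [] := by rintro h; rw [h] at hy; simp at hy
  obtain ⟨y0, hy0⟩ : ∃ y0, f.top.head? = some y0 := by
    cases hh : f.top with
    | nil => exact absurd hh ht
    | cons z L => exact ⟨z, rfl⟩
  obtain ⟨p', hp'⟩ : ∃ p', (f.wl :: f.l) ++ p = p' ++ [a] := by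
    rcases List.eq_nil_or_concat ((f.wl :: f.l) ++ p) with h | ⟨L, z, h⟩
    · simp at h
    · rw [List.concat_eq_append] at h
      rw [h, List.getLast?_append] at h2
      simp at h2
      exact ⟨L, by rw [h, h2]⟩
  have k1 : ∃ s i, (f.wl :: f.l).map (fun v => (v, (0 : Fin 3))) ++
      p.map (fun v => (v, (1 : Fin 3))) = s ++ [(a, i)] := by
    rcases List.eq_nil_or_concat p with h | ⟨L, z, h⟩
    · subst h
      rw [List.append_nil] at hp'
      refine ⟨p'.map (fun v => (v, 0)), 0, ?_⟩
      rw [hp']; simp
    · rw [List.concat_eq_append] at h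
      subst h
      rw [← List.append_assoc] at hp'
      have h5 := List.append_inj' hp' rfl
      simp only [List.cons.injEq, and_true] at h5
      refine ⟨(f.wl :: f.l).map (fun v => (v, (0 : Fin 3))) ++ L.map (fun v => (v, 1)), 1, ?_⟩
      rw [h5.2]; simp
  have k2 : ∃ t j, q.map (fun v => (v, (1 : Fin 3))) ++ f.top.reverse.map
      (fun v => (v, (2 : Fin 3))) = (b, j) :: t := by
    cases q with
    | nil =>
      simp only [List.nil_append, List.head?_cons, Option.some.injEq] at h3
      subst h3
      have : f.top.reverse.head? = some y := by rw [List.head?_reverse]; exact hy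
      cases hh : f.top.reverse with
      | nil => rw [hh] at this; simp at this
      | cons z L =>
        rw [hh] at this; simp at this
        exact ⟨_, 2, by rw [this]; rfl⟩
    | cons z q =>
      simp only [List.cons_append, List.head?_cons, Option.some.injEq] at h3
      rw [h3]
      exact ⟨_, 1, rfl⟩
  obtain ⟨s, i, hs⟩ := k1
  obtain ⟨t, j, ht'⟩ := k2
  refine ⟨i, j, (y0, 2), ?_, (y0, 2) :: s, t ++ [(f.wl, 0)], ?_⟩
  · rw [lpoly_getLast? f ht, Option.mem_map]
    exact ⟨y0, hy0, rfl⟩
  · unfold lpoly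
    rw [h1]
    have : (f.wl :: f.l).map (fun v => (v, (0 : Fin 3))) ++
        (p ++ v :: q).map (fun v => (v, (1 : Fin 3))) ++
        f.top.reverse.map (fun v => (v, (2 : Fin 3))) =
        ((f.wl :: f.l).map (fun v => (v, (0 : Fin 3))) ++ p.map (fun v => (v, (1 : Fin 3)))) ++
        (v, 1) :: (q.map (fun v => (v, (1 : Fin 3))) ++ f.top.reverse.map
          (fun v => (v, (2 : Fin 3)))) := by simp
    rw [this, hs, ht']
    simp

theorem corner_of2 {f : Face V} {a v b : V} (h : Corner2 f a v b) : Corner f 2 a v b := by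
  obtain ⟨p, q, h1, h2, h3⟩ := h
  have ht : f.top ≠ [] := by rw [h1]; simp
  obtain ⟨y0, hy0⟩ : ∃ y0, f.top.head? = some y0 := by
    cases hh : f.top with
    | nil => exact absurd hh ht
    | cons z L => exact ⟨z, rfl⟩
  have k1 : ∃ s i, (f.r ++ [f.wr]).map (fun v => (v, (1 : Fin 3))) ++
      q.reverse.map (fun v => (v, (2 : Fin 3))) = s ++ [(a, i)] := by
    cases q with
    | nil =>
      simp only [List.nil_append, List.head?_cons, Option.some.injEq] at h3
      subst h3
      exact ⟨f.r.map (fun v => (v, 1)), 1, by simp⟩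
    | cons z q =>
      simp only [List.cons_append, List.head?_cons, Option.some.injEq] at h3
      subst h3
      exact ⟨(f.r ++ [f.wr]).map (fun v => (v, 1)) ++ q.reverse.map (fun v => (v, 2)), 2, by simp⟩
  have k2 : ∃ t j, p.reverse.map (fun v => (v, (2 : Fin 3))) ++ [(f.wl, (0 : Fin 3))] =
      (b, j) :: t := by
    rcases List.eq_nil_or_concat p with h | ⟨L, z, h⟩
    · subst h
      simp only [List.getLast?_singleton, Option.some.injEq] at h2
      subst h2
      exact ⟨[], 0, rfl⟩
    · rw [List.concat_eq_append] at h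
      subst h
      have : z = b := by
        have h5 : f.wl :: (L ++ [z]) = (f.wl :: L) ++ [z] := by simp
        rw [h5, List.getLast?_append] at h2
        simpa using h2
      subst this
      exact ⟨L.reverse.map (fun v => (v, 2)) ++ [(f.wl, 0)], 2, by simp⟩
  obtain ⟨s, i, hs⟩ := k1
  obtain ⟨t, j, ht'⟩ := k2
  refine ⟨i, j, (y0, 2), ?_, (y0, 2) :: ((f.wl :: f.l).map (fun v => (v, 0)) ++ s), t, ?_⟩
  · rw [lpoly_getLast? f ht, Option.mem_map]
    exact ⟨y0, hy0, rfl⟩
  · unfold lpoly
    have e : f.top.reverse = q.reverse ++ v :: p.reverse := by rw [h1]; simp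
    rw [e]
    have : (f.wl :: f.l).map (fun v => (v, (0 : Fin 3))) ++
        (f.r ++ [f.wr]).map (fun v => (v, (1 : Fin 3))) ++
        (q.reverse ++ v :: p.reverse).map (fun v => (v, (2 : Fin 3))) ++ [(f.wl, 0)] =
        (f.wl :: f.l).map (fun v => (v, (0 : Fin 3))) ++
        (((f.r ++ [f.wr]).map (fun v => (v, (1 : Fin 3))) ++
          q.reverse.map (fun v => (v, (2 : Fin 3)))) ++
        (v, 2) :: (p.reverse.map (fun v => (v, (2 : Fin 3))) ++ [(f.wl, (0 : Fin 3))])) := by simp
    rw [this, hs, ht']
    simp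

end

end Pool.Agent.Run7.h215
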