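import Mathlib

/-!
# Strictly convex grid drawings of 3-connected planar graphs: definitions (MP_8ffccf_co)
-/

set_option autoImplicit false

namespace Pool.Agent.Run7.h215

open Set

/-- `p` is a plane straight-line drawing of `G`: the vertices are distinct points, the closed
segment of an edge contains no other vertex, and two different edges meet at most in a common
end. -/
structure IsPlaneDrawing {V : Type*} (G : SimpleGraph V) (p : V → ℝ × ℝ) : Prop where
  inj : Function.Injective p
  vertex_off : ∀ u v w : V, G.Adj u v → p w ∈ segment ℝ (p u) (p v) → w = u ∨ w = v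
  edges_meet : ∀ u v u' v' : V, G.Adj u v → G.Adj u' v' → s(u, v) ≠ s(u', v') →
    ∀ q, q ∈ segment ℝ (p u) (p v) → q ∈ segment ℝ (p u') (p v') →
      ∃ w, (w = u ∨ w = v) ∧ (w = u' ∨ w = v') ∧ q = p w

/-- The union of the segments of the edges. -/
def drawn {V : Type*} (G : SimpleGraph V) (p : V → ℝ × ℝ) : Set (ℝ × ℝ) :=
  {q | ∃ u v, G.Adj u v ∧ q ∈ segment ℝ (p u) (p v)}

/-- The faces of the drawing: the connected components of the complement of the drawn set. -/
def IsFace {V : Type*} (G : SimpleGraph V) (p : V → ℝ × ℝ) (A : Set (ℝ × ℝ)) : Prop :=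
  ∃ z, z ∉ drawn G p ∧ A = connectedComponentIn (drawn G p)ᶜ z

/-- The drawing is strictly convex: every bounded face is convex, the complement of every
unbounded face is convex, and the vertices on the boundary of a face are corners (extreme points)
of the closed convex set concerned. -/
structure IsStrictlyConvex {V : Type*} (G : SimpleGraph V) (p : V → ℝ × ℝ) : Prop where
  bounded : ∀ A, IsFace G p A → Bornology.IsBounded A →
    Convex ℝ A ∧ ∀ v, p v ∈ closure A → p v ∈ (closure A).extremePoints ℝ
  unbounded : ∀ A, IsFace G p A → ¬ Bornology.IsBounded A →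
    Convex ℝ Aᶜ ∧ ∀ v, p v ∈ closure A → p v ∈ Aᶜ.extremePoints ℝ

/-- `G` is 3-connected: at least four vertices, and removing at most two vertices leaves a
connected graph. -/
def ThreeConnected {V : Type*} [Fintype V] (G : SimpleGraph V) : Prop :=
  4 ≤ Fintype.card V ∧ ∀ S : Finset V, S.card ≤ 2 → (G.induce {v | v ∉ S}).Connected

/-- `G` has a strictly convex plane drawing on the `L × L` grid. -/
def HasGridDrawing {V : Type*} (G : SimpleGraph V) (L : ℕ) : Prop :=
  ∃ a b : V → ℕ, (∀ v, a v ≤ L ∧ b v ≤ L) ∧
    IsPlaneDrawing G (fun v => ((a v : ℝ), (b v : ℝ))) ∧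
    IsStrictlyConvex G (fun v => ((a v : ℝ), (b v : ℝ)))

/-- Every 3-connected planar graph on `n` vertices has a strictly convex drawing on the
`L × L` grid. -/
def Universal (n L : ℕ) : Prop :=
  ∀ G : SimpleGraph (Fin n), ThreeConnected G → (∃ p, IsPlaneDrawing G p) → HasGridDrawing G L

/-- The least `L` such that every 3-connected planar graph on `n` vertices has a strictly convex
drawing on the `L × L` grid. -/
noncomputable def gridSize (n : ℕ) : ℕ := sInf {L | Universal n L}

end Pool.Agent.Run7.h215
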