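import Pool.Agent.Run7.h215.Defs
import Pool.Agent.Run7.h215.CB

/-!
# Interface: the pieces T1 – T9 of the proof that `gridSize n = Θ(n^(3/2))` (MP_8ffccf_co)

Every piece is a `Prop` below; prove `theorem t1 : T1` etc. in your own file
`Pool/Agent/Run7/h215/T1.lean` (namespace `Pool.Agent.Run7.h215`), importing this file.
-/

set_option autoImplicit false

namespace Pool.Agent.Run7.h215

open Set

/-! ## T1. The lattice chain

`N = R²`, `S = C R`, `κ = c S / N`, `S ≤ Sh ≤ 2 S`.  Integer points `(α u, β u)`, `|u| ≤ N`, with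
strictly decreasing slopes, following `(Sh u, -(κ/2) u²)` up to `ε S`, all slopes being within
`√(cε)/R` of `-κ (u + 1/2) / Sh`.

Proof.  `Q = ⌊ε S / 4⌋`, `M = ⌊√(ε/(4c)) R⌋` (`≥ 2R`, and `≥ ½ √(ε/(4c)) R`).  Blocks of `M`
consecutive steps `u₀, …, u₀ + M - 1`; slope interval of the block `(lo, hi]`, `hi = -κ u₀/Sh`,
`lo = -κ (u₀+M)/Sh`, of length `len = κ M / Sh ∈ [cM/(2N), cM/N]`.  COUNTING LEMMA: every interval
`(x, x + 16/Q]` contains at least `Q/16` distinct fractions with denominators `≤ Q` (count pairs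
`(p, q)`, `q ∈ (Q/2, Q]`, minus repetitions).  Hence for `C` large each quarter of the slope
interval contains at least `M` distinct fractions `p/q`, `q ≤ Q`.  In the block use `M` of them in
decreasing order, taken from the LOWEST quarter if the current error `β + (κ/2)u²` is positive
and from the HIGHEST quarter otherwise.  A step with slope `p/q` is `(t q, t p)` with
`t = ⌊Sh/q⌋` if the current error `α u - Sh u` is positive and `t = ⌈Sh/q⌉` otherwise: so
`|α u - Sh u| ≤ Q` always.  The change of the error of `β` over a block with slopes in the lowest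
quarter is at most `-κM²/4 + O(√(cε) Q)` (Abel summation for `Σ r_u (a_u - Sh)`) which is `< 0`,
and at least `-κM²/2 - …`, and `κ M² ≤ ε S/4`; so the error stays `≤ ε S`. -/
def T1 : Prop :=
  ∀ ε c : ℝ, 0 < ε → ε ≤ 1 / 100 → 0 < c → 16 * c ≤ ε →
  ∃ C₀ : ℕ, ∀ C : ℕ, C₀ ≤ C → ∀ R : ℕ, 1 ≤ R → ∀ Sh : ℝ, (C * R : ℝ) ≤ Sh → Sh ≤ 2 * (C * R) →
  ∃ α β : ℤ → ℤ,
    (∀ u : ℤ, -(R : ℤ) ^ 2 ≤ u → u < (R : ℤ) ^ 2 → α u < α (u + 1)) ∧
    (∀ u : ℤ, -(R : ℤ) ^ 2 < u → u < (R : ℤ) ^ 2 →
      (β (u + 1) - β u) * (α u - α (u - 1)) < (β u - β (u - 1)) * (α (u + 1) - α u)) ∧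
    (∀ u : ℤ, -(R : ℤ) ^ 2 ≤ u → u ≤ (R : ℤ) ^ 2 →
      |(α u : ℝ) - Sh * u| ≤ ε * (C * R) ∧
      |(β u : ℝ) + c * (C * R) / R ^ 2 / 2 * (u : ℝ) ^ 2| ≤ ε * (C * R)) ∧
    (∀ u : ℤ, -(R : ℤ) ^ 2 ≤ u → u < (R : ℤ) ^ 2 →
      |((β (u + 1) : ℝ) - β u) +
          c * (C * R) / R ^ 2 * ((u : ℝ) + 1 / 2) / Sh * ((α (u + 1) : ℝ) - α u)|
        ≤ Real.sqrt (c * ε) / R * ((α (u + 1) : ℝ) - α u))

/-- The counting lemma for T1. -/
def T1count : Prop :=
  ∀ Q : ℕ, 1 ≤ Q → ∀ x : ℝ, ∃ A : Finset ℚ, (Q : ℝ) / 16 ≤ A.card ∧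
    ∀ r ∈ A, x < (r : ℝ) ∧ (r : ℝ) ≤ x + 16 / Q ∧ r.den ≤ Q

/-! ## T2. Geometric building sequences give strictly convex plane drawings

Invariants for `GB p a1 a2 E Z`: `Z` is strictly increasing in abscissa and contains `a1`, `a2` as
first and last elements; consecutive elements of `Z` are in `E`.  Let `poly Z : ℝ → ℝ` be the
piecewise linear function through the points of `Z` and `base` the linear function through `a1`,
`a2`; `base ≤ poly Z` on `[X a1, X a2]`.  With `D Z = {q | X a1 ≤ q.1 ≤ X a2, base q.1 ≤ q.2 ≤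
poly Z q.1}` and, for each step, `R = {q | X zp < q.1 < X zq, poly (zp M zq) q.1 < q.2 < poly (zp P
zq) q.1}` (open, convex, nonempty, the new vertices and zp, zq, M are on its closure and are
extreme points of its closure, and no other vertex is on its closure):
`D Z = drawn ∪ ⋃ R`, a disjoint union; the plane drawing conditions hold for `E`.
At the end: the components of the complement of the drawn set are the regions `R` (each is
connected, open, and the complement of the drawn set is the disjoint union of these open sets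
and of the outer region) and the outer region `(D Z)ᶜ`, which is connected (union of open
half-planes) and unbounded, `D Z` is convex by `RTurns p Z`. -/
def T2 : Prop :=
  ∀ (V : Type) (G : SimpleGraph V) (p : V → ℝ × ℝ) (a1 a2 : V) (E : List (V × V)) (Z : List V),
    GB p a1 a2 E Z → 3 ≤ Z.length → RTurns p Z →
    (∀ u v, G.Adj u v ↔ (u, v) ∈ E ∨ (v, u) ∈ E) →
    (∀ v, ∃ e ∈ E, v = e.1 ∨ v = e.2) →
    IsPlaneDrawing G p ∧ IsStrictlyConvex G p

/-- the sheared position -/
def shear {V : Type*} (δ : ℝ) (p : V → ℝ × ℝ) (v : V) : ℝ × ℝ := ((p v).1 + δ * (p v).2, (p v).2)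

/-! ## T2b. From building sequences with good positions to geometric building sequences

`cr` is invariant under shears.  Choose `δ > 0` so small that all strict inequalities between
abscissas of vertices on the faces of `F` are preserved; an equality `(p w).1 = (p y).1` with
`(p w).2 < (p y).2` becomes `<`.  A step of `CB` with one segment is one `GB` step.  A step with
several segments (a fan, `P = [y]`) is replaced by `GB` steps: first the face whose `wl`, `wr`
have sheared abscissas on the two sides of `y` (`M = l ++ r`, `P = [y]`), then the faces to the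
right of it from left to right (`zp = y`, `M = wl :: l ++ r`, `zq = wr`, `P = []`, turns by
`fanL`), then the faces to the left of it from right to left (`zp = wl`, `M = l ++ r ++ [wr]`,
`zq = y`, turns by `fanR`). -/
def T2b : Prop :=
  ∀ (V : Type) (p : V → ℝ × ℝ) (a1 a2 : V) (F : List (Face V)) (Z : List (V × Ty)),
    CB a1 a2 F Z → F ≠ [] → (∀ f ∈ F, FaceG p f) →
    ∃ (δ : ℝ) (E : List (V × V)), GB (shear δ p) a1 a2 E (Z.map Prod.fst) ∧
      ∀ u v, ((u, v) ∈ E ∨ (v, u) ∈ E) ↔ (BEdge a1 a2 F u v ∨ BEdge a1 a2 F v u)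

/-! ## T3. The planarity system of a straight-line drawing

T3a: rotate so that abscissas are distinct; for a dart `(u, v)` take a point just to the left of
the segment and count mod 2 the edges of `c` vertically above it (the technique of
`Pool/Agent/H239R2/Cover/PlanarP2.lean` : `U`, `U_const`, `right`, `left`, `al`, which can be
adapted to `ZMod 2`; the position `pos` around `v` lists first the edges to the right of `v` by
increasing slope and then the edges to the left of `v` by increasing slope (counterclockwise from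
straight down)).
T3b: the set `Φ` of the functionals `c ↦ s c u v` of the darts has at least `e - v + 2` elements
(even subgraphs form a `ZMod 2`-space of dimension `≥ e - v + 1`, it injects into `Φ → ZMod 2` by
`flip`, and the constant function 1 is not in the image), so if every functional belonged to at
least six darts then `2e ≥ 6 (e - v + 2)`, contradicting `2e ≥ 3v`. -/
def T3a : Prop :=
  ∀ (V : Type) [Fintype V] (G : SimpleGraph V) (p : V → ℝ × ℝ), IsPlaneDrawing G p →
    ∃ s, Sys G s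

open Classical in
def T3b : Prop :=
  ∀ (V : Type) [Fintype V] [Nonempty V] (G : SimpleGraph V)
    (s : (V → V → ZMod 2) → V → V → ZMod 2), Sys G s → (∀ v, 3 ≤ G.degree v) →
    ∃ u v, G.Adj u v ∧ (Finset.univ.filter (fun d : V × V => G.Adj d.1 d.2 ∧
      ∀ c, IsCyc G c → s c d.1 d.2 = s c u v)).card ≤ 5

/-! ## T4. The ear lemma

`S` is the set built, `a3` the vertex reserved for the end.  Proof: among the connected sets
`Q ⊆ V ∖ (S ∪ {a3})` with at least two neighbours in `S` choose one for which the component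
`A(Q)` of `a3` in `G - S - Q` is largest, and among these one of least size.  (Existence: the
component of `G - S - a3` of any vertex.)  Minimality: `Q` is a single vertex, or an induced path
`v_1 … v_k` whose ends have exactly one `S`-neighbour each (distinct), the others none.  Claim:
`G - S - Q = A(Q)`.  If `B` is another component: `B` has at most one `S`-neighbour (else `B` is a
better choice).  If `k = 1` then `N(B)` has at most two elements: contradiction to
3-connectedness.  Let `k ≥ 2`; `B` has at least two neighbours on the path, `i` the first index,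
`j` the last.  (1) No `v_m` with `i < m < j` has a neighbour in `A` (else `B ∪ {v_1..v_i} ∪
{v_j..v_k}` is a better choice).  (2) If `B` has the `S`-neighbour `s_B`, and `s_B ≠ s(v_1)`, then
no `v_m`, `m > i`, has a neighbour in `A` (else `{v_1..v_i} ∪ B` is better), and if `s_B ≠ s(v_k)`
then no `v_m`, `m < j`, has a neighbour in `A`; so `s_B ∈ {s(v_1), s(v_k)}`.  (3) Let `v_f` be the
first path vertex with a neighbour in `A`.  The set `{v_m : m < f} ∪ {B : B has a neighbour v_m,
m < f}` has only the neighbours `v_f`, `s(v_1)`; so it is empty, `f = 1`; symmetrically `v_k` has a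
neighbour in `A`.  By (2) no `B` has an `S`-neighbour.  (4) For a `B` as above let `i'` be the last
index `≤ i`, `j'` the first index `≥ j` with a neighbour in `A`: the set `B ∪ {v_m : i' < m < j'}
∪ {B' : B' has a neighbour v_m, i' < m < j'}` has only the neighbours `v_{i'}`, `v_{j'}`:
contradiction. -/
def T4 : Prop :=
  ∀ (V : Type) [Fintype V] [DecidableEq V] (G : SimpleGraph V), ThreeConnected G →
    ∀ (S : Finset V) (a3 : V), a3 ∉ S → 2 ≤ S.card → (G.induce {v | v ∉ S}).Connected →
    (∃ u, u ∉ S ∧ u ≠ a3) →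
    ∃ P : List V, P ≠ [] ∧ P.Nodup ∧ (∀ v ∈ P, v ∉ S ∧ v ≠ a3) ∧
      (G.induce {v | v ∉ S ∧ v ∉ P}).Connected ∧ P.IsChain G.Adj ∧
      ((∃ y, P = [y] ∧ ∃ s ∈ S, ∃ s' ∈ S, s ≠ s' ∧ G.Adj y s ∧ G.Adj y s') ∨
       (∃ (y y' : V) (M : List V) (s s' : V), P = y :: (M ++ [y']) ∧ s ∈ S ∧ s' ∈ S ∧ s ≠ s' ∧
          (∀ t ∈ S, G.Adj y t ↔ t = s) ∧ (∀ t ∈ S, G.Adj y' t ↔ t = s') ∧
          (∀ v ∈ M, ∀ t ∈ S, ¬ G.Adj v t) ∧
          (∀ u ∈ P, ∀ v ∈ P, G.Adj u v → [u, v] <:+: P ∨ [v, u] <:+: P)))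

/-! ## T5. Canonical orderings: every 3-connected planar graph has a building sequence

See the file `T5plan.lean` for the full proof. -/
open Classical in
def T5 : Prop :=
  ∀ (V : Type) [Fintype V] [DecidableEq V] (G : SimpleGraph V), ThreeConnected G →
    ∀ (s : (V → V → ZMod 2) → V → V → ZMod 2), Sys G s →
    ∀ u v, G.Adj u v → (Finset.univ.filter (fun d : V × V => G.Adj d.1 d.2 ∧
      ∀ c, IsCyc G c → s c d.1 d.2 = s c u v)).card ≤ 5 →
    ∃ (a1 a2 : V) (F : List (Face V)) (Z : List (V × Ty)), CB a1 a2 F Z ∧ FinalZ Z ∧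
      (∀ v, BVert a1 a2 F v) ∧ ∀ u v, G.Adj u v ↔ BEdge a1 a2 F u v ∨ BEdge a1 a2 F v u

/-! ## T6. Base coordinates

See the file `T6plan.lean` for the full proof. -/
def T6 : Prop :=
  ∀ (V : Type) [DecidableEq V] (a1 a2 : V) (F : List (Face V)) (Z : List (V × Ty)),
    CB a1 a2 F Z → FinalZ Z →
    ∃ (R : ℕ) (x : V → Fin 3 → ℤ), 1 ≤ R ∧ R ^ 2 ≤ 16 * (F.length + 1) ∧
      (∀ v m, 0 ≤ x v m) ∧ (∀ v, x v 0 + x v 1 + x v 2 = (R : ℤ) ^ 2) ∧
      (∀ f ∈ F, FaceX x f) ∧ OuterX x (Z.map Prod.fst)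

/-! ## T7. Final positions -/

/-- T7a: every vertex is nearly straight in at most one direction: see `T7plan.lean`. -/
def T7a : Prop :=
  ∀ (V : Type) [DecidableEq V] (a1 a2 : V) (F : List (Face V)) (Z : List (V × Ty))
    (x : V → Fin 3 → ℤ) (N : ℤ), CB a1 a2 F Z → (∀ v, x v 0 + x v 1 + x v 2 = N) →
    (∀ f ∈ F, FaceX x f) →
    ∃ typ : V → Option (Fin 3), ∀ f ∈ F, ∀ m a v b, Corner f m a v b → NS x m a v b →
      typ v = some m

/-- T7b: the purely analytic part: positions `q` from base coordinates `x` and types `typ`.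
See `T7plan.lean`. -/
def T7b : Prop :=
  ∃ K : ℕ, ∀ (V : Type) (x : V → Fin 3 → ℤ) (R : ℕ) (typ : V → Option (Fin 3)), 1 ≤ R →
    (∀ v m, 0 ≤ x v m) → (∀ v, x v 0 + x v 1 + x v 2 = (R : ℤ) ^ 2) →
    ∃ (S : ℕ) (W : ℤ) (q : V → Fin 3 → ℤ), 1 ≤ S ∧ (∀ v m, |q v m| ≤ K * (R : ℤ) ^ 3) ∧
      (∀ v, q v 0 + q v 1 + q v 2 = W) ∧
      (∀ a b, 0 < nrm x a b → ∀ m,
        1000 * |(q b m - q a m) - 2 * S * (x b m - x a m)| ≤ 2 * S * nrm x a b) ∧
      (∀ m a v b, typ v = some m → x a m ≤ x v m → x b m ≤ x v m → NS x m a v b →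
        0 < om q a v b)

/-- the plane positions of barycentric integer positions -/
def bpos {V : Type*} (q : V → Fin 3 → ℤ) (v : V) : ℝ × ℝ :=
  (((q v 1 - q v 0 : ℤ) : ℝ), ((q v 2 : ℤ) : ℝ))

/-- T7c: positions which are robustly close to the base coordinates and turn correctly at nearly
straight corners satisfy the geometric conditions.  (`cr (bpos q) a b c = 2 * om q a b c` when the
sums are constant.) See `T7plan.lean`. -/
def T7c : Prop :=
  ∀ (V : Type) (a1 a2 : V) (F : List (Face V)) (Z : List (V × Ty))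
    (x q : V → Fin 3 → ℤ) (N W : ℤ) (S : ℕ), CB a1 a2 F Z →
    (∀ v, x v 0 + x v 1 + x v 2 = N) → (∀ f ∈ F, FaceX x f) → OuterX x (Z.map Prod.fst) →
    1 ≤ S → (∀ v, q v 0 + q v 1 + q v 2 = W) →
    (∀ a b, 0 < nrm x a b → ∀ m,
        1000 * |(q b m - q a m) - 2 * S * (x b m - x a m)| ≤ 2 * S * nrm x a b) →
    (∀ f ∈ F, ∀ m a v b, Corner f m a v b → NS x m a v b → 0 < om q a v b) →
    (∀ f ∈ F, FaceG (bpos q) f) ∧ RTurns (bpos q) (Z.map Prod.fst)

/-! ## T8. The lower bound (known, but wanted for the final theorem) -/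
def T8 : Prop :=
  ∃ c : ℝ, 0 < c ∧ ∀ n : ℕ, 4 ≤ n → ∀ L : ℕ, Universal n L → c * (n : ℝ) ^ (3 / 2 : ℝ) ≤ L

/-! ## T9. Assembly -/

/-- T9a: the notions are invariant under invertible affine maps. -/
def T9a : Prop :=
  ∀ (V : Type) (G : SimpleGraph V) (p : V → ℝ × ℝ) (A : (ℝ × ℝ) ≃ᵃ[ℝ] (ℝ × ℝ)),
    IsPlaneDrawing G p → IsStrictlyConvex G p →
    IsPlaneDrawing G (fun v => A (p v)) ∧ IsStrictlyConvex G (fun v => A (p v))

/-- T9b: the number of faces is at most twice the number of vertices: by induction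
`F.length + Z.length ≤ 2 * (number of vertices)`. -/
def T9b : Prop :=
  ∀ (V : Type) [Fintype V] (a1 a2 : V) (F : List (Face V)) (Z : List (V × Ty)),
    CB a1 a2 F Z → F.length + Z.length ≤ 2 * Fintype.card V

/-- The upper bound. -/
def Upper : Prop := ∃ C : ℝ, 0 < C ∧ ∀ n : ℕ, 4 ≤ n → ∃ L : ℕ, Universal n L ∧
  (L : ℝ) ≤ C * (n : ℝ) ^ (3 / 2 : ℝ)

end Pool.Agent.Run7.h215
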