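import Pool.Agent.Run7.h215.T2_inv

/-!
# T2: geometric building sequences give strictly convex plane drawings
-/

set_option autoImplicit false
set_option linter.unusedSectionVars false

namespace Pool.Agent.Run7.h215

section fin

variable {V : Type} {p : V → ℝ × ℝ}

theorem convex_above (a b : V) : Convex ℝ {q : ℝ × ℝ | ln p a b q.1 < q.2} := by
  intro q hq r hr α β hα hβ hαβ
  have e1 : (α • q + β • r).1 = α * q.1 + β * r.1 := rfl
  have e2 : (α • q + β • r).2 = α * q.2 + β * r.2 := rfl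
  show ln p a b (α • q + β • r).1 < (α • q + β • r).2
  rw [e1, e2, ln_comb _ _ _ _ _ _ hαβ]
  have hq' : ln p a b q.1 < q.2 := hq
  have hr' : ln p a b r.1 < r.2 := hr
  have := comb_pos hα hβ hαβ (sub_pos.2 hq') (sub_pos.2 hr')
  linarith

theorem convex_below (a b : V) : Convex ℝ {q : ℝ × ℝ | q.2 < ln p a b q.1} := by
  intro q hq r hr α β hα hβ hαβ
  have e1 : (α • q + β • r).1 = α * q.1 + β * r.1 := rfl
  have e2 : (α • q + β • r).2 = α * q.2 + β * r.2 := rfl
  show (α • q + β • r).2 < ln p a b (α • q + β • r).1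
  rw [e1, e2, ln_comb _ _ _ _ _ _ hαβ]
  have hq' : q.2 < ln p a b q.1 := hq
  have hr' : r.2 < ln p a b r.1 := hr
  have := comb_pos hα hβ hαβ (sub_pos.2 hq') (sub_pos.2 hr')
  linarith

theorem convex_left (x : ℝ) : Convex ℝ {q : ℝ × ℝ | q.1 < x} := by
  intro q hq r hr α β hα hβ hαβ
  have e1 : (α • q + β • r).1 = α * q.1 + β * r.1 := rfl
  show (α • q + β • r).1 < x
  rw [e1]
  have hq' : q.1 < x := hq
  have hr' : r.1 < x := hr
  have := comb_pos hα hβ hαβ (sub_pos.2 hq') (sub_pos.2 hr')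
  have e3 : α * (x - q.1) + β * (x - r.1) = (α + β) * x - (α * q.1 + β * r.1) := by ring
  rw [hαβ] at e3
  linarith

theorem convex_right (x : ℝ) : Convex ℝ {q : ℝ × ℝ | x < q.1} := by
  intro q hq r hr α β hα hβ hαβ
  have e1 : (α • q + β • r).1 = α * q.1 + β * r.1 := rfl
  show x < (α • q + β • r).1
  rw [e1]
  have hq' : x < q.1 := hq
  have hr' : x < r.1 := hr
  have := comb_pos hα hβ hαβ (sub_pos.2 hq') (sub_pos.2 hr')
  have e3 : α * (q.1 - x) + β * (r.1 - x) = (α * q.1 + β * r.1) - (α + β) * x := by ring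
  rw [hαβ] at e3
  linarith

theorem convex_KReg (zp zq : V) (L L' : List V) : Convex ℝ (KReg p zp zq L L') := by
  rintro q ⟨h1, h2, h3, h4⟩ r ⟨h1', h2', h3', h4'⟩ α β hα hβ hαβ
  have e1 : (α • q + β • r).1 = α * q.1 + β * r.1 := rfl
  have e2 : (α • q + β • r).2 = α * q.2 + β * r.2 := rfl
  have key : ∀ u v w z : ℝ, u ≤ v → w ≤ z → α * u + β * w ≤ α * v + β * z := fun u v w z a b =>
    add_le_add (mul_le_mul_of_nonneg_left a hα) (mul_le_mul_of_nonneg_left b hβ)
  have one : ∀ u : ℝ, α * u + β * u = u := fun u => by rw [← add_mul, hαβ, one_mul]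
  refine ⟨?_, ?_, fun e he => ?_, fun e he => ?_⟩
  · rw [e1, ← one (p zp).1]; exact key _ _ _ _ h1 h1'
  · rw [e1, ← one (p zq).1]; exact key _ _ _ _ h2 h2'
  · rw [e1, e2, ln_comb _ _ _ _ _ _ hαβ]; exact key _ _ _ _ (h3 e he) (h3' e he)
  · rw [e1, e2, ln_comb _ _ _ _ _ _ hαβ]; exact key _ _ _ _ (h4 e he) (h4' e he)

theorem exists_big (l : List (V × V)) (x : ℝ) : ∃ y : ℝ, ∀ e ∈ l, ln p e.1 e.2 x < y := by
  induction l with
  | nil => exact ⟨0, by simp⟩
  | cons e l ih =>
    obtain ⟨y, hy⟩ := ih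
    refine ⟨max y (ln p e.1 e.2 x + 1), fun f hf => ?_⟩
    rcases List.mem_cons.1 hf with rfl | hf
    · exact lt_of_lt_of_le (lt_add_one _) (le_max_right _ _)
    · exact lt_of_lt_of_le (hy f hf) (le_max_left _ _)

/-- the final region as an intersection of half-planes -/
theorem DD_eq {a1 a2 : V} {T : List V} (h12 : (p a1).1 < (p a2).1)
    (hx : XInc p (a1 :: (T ++ [a2]))) (hr : RTurns p (a1 :: (T ++ [a2]))) :
    DD p a1 a2 (a1 :: (T ++ [a2])) = KReg p a1 a2 (a1 :: ([] ++ [a2])) (a1 :: (T ++ [a2])) := by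
  ext q
  constructor
  · rintro ⟨h1, h2, h3, h4⟩
    refine ⟨h1, h2, ?_, below_le' hx hr h1 h2 h4⟩
    intro e he
    simp only [List.nil_append, List.tail_cons, List.zip_cons_cons, List.zip_nil_right,
      List.mem_singleton] at he
    rw [he]; exact h3
  · rintro ⟨h1, h2, h3, h4⟩
    exact ⟨h1, h2, h3 (a1, a2) (by simp), below_le hx h1 h2 h4⟩

/-- the complement is connected -/
theorem compl_conn (a1 a2 : V) (l : List (V × V)) (K : Set (ℝ × ℝ))
    (hK : ∀ q, q ∈ K ↔ (p a1).1 ≤ q.1 ∧ q.1 ≤ (p a2).1 ∧ ln p a1 a2 q.1 ≤ q.2 ∧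
      ∀ e ∈ l, q.2 ≤ ln p e.1 e.2 q.1) : IsPreconnected Kᶜ := by
  obtain ⟨y, hy⟩ := exists_big (p := p) l ((p a1).1 - 1)
  set q0 : ℝ × ℝ := ((p a1).1 - 1, y) with hq0
  set L : Set (ℝ × ℝ) := {q | q.1 < (p a1).1} with hL
  set R : Set (ℝ × ℝ) := {q | (p a2).1 < q.1} with hR
  set B : Set (ℝ × ℝ) := {q | q.2 < ln p a1 a2 q.1} with hB
  have hLK : L ⊆ Kᶜ := fun q hq hqK => absurd ((hK q).1 hqK).1 (not_le.2 hq)
  have hRK : R ⊆ Kᶜ := fun q hq hqK => absurd ((hK q).1 hqK).2.1 (not_le.2 hq)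
  have hBK : B ⊆ Kᶜ := fun q hq hqK => absurd ((hK q).1 hqK).2.2.1 (not_le.2 hq)
  have hq0L : q0 ∈ L := by show (p a1).1 - 1 < (p a1).1; linarith
  have hLc : IsPreconnected L := (convex_left _).isPreconnected
  have hRc : IsPreconnected R := (convex_right _).isPreconnected
  have hBc : IsPreconnected B := (convex_below _ _).isPreconnected
  have hLB : IsPreconnected (L ∪ B) := by
    refine hLc.union' ?_ hBc
    exact ⟨((p a1).1 - 1, ln p a1 a2 ((p a1).1 - 1) - 1),
      (by show (p a1).1 - 1 < (p a1).1; linarith),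
      (by show ln p a1 a2 ((p a1).1 - 1) - 1 < ln p a1 a2 ((p a1).1 - 1); linarith)⟩
  have hLBR : IsPreconnected ((L ∪ B) ∪ R) := by
    refine hLB.union' ?_ hRc
    exact ⟨((p a2).1 + 1, ln p a1 a2 ((p a2).1 + 1) - 1),
      Or.inr (by show ln p a1 a2 ((p a2).1 + 1) - 1 < ln p a1 a2 ((p a2).1 + 1); linarith),
      (by show (p a2).1 < (p a2).1 + 1; linarith)⟩
  refine isPreconnected_of_forall q0 fun q hq => ?_
  by_cases h1 : q.1 < (p a1).1
  · exact ⟨L, hLK, hq0L, h1, hLc⟩
  by_cases h2 : (p a2).1 < q.1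
  · exact ⟨(L ∪ B) ∪ R, Set.union_subset (Set.union_subset hLK hBK) hRK,
      Or.inl (Or.inl hq0L), Or.inr h2, hLBR⟩
  by_cases h3 : q.2 < ln p a1 a2 q.1
  · exact ⟨L ∪ B, Set.union_subset hLK hBK, Or.inl hq0L, Or.inr h3, hLB⟩
  have h4 : ∃ e ∈ l, ln p e.1 e.2 q.1 < q.2 := by
    by_contra hcon
    push Not at hcon
    exact hq ((hK q).2 ⟨not_lt.1 h1, not_lt.1 h2, not_lt.1 h3, hcon⟩)
  obtain ⟨e, he, h5⟩ := h4
  refine ⟨{r | ln p e.1 e.2 r.1 < r.2}, ?_, hy e he, h5, (convex_above _ _).isPreconnected⟩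
  intro r hr hrK
  exact absurd (((hK r).1 hrK).2.2.2 e he) (not_le.2 hr)

theorem ln_abs (a b : V) (x B : ℝ) (hx : |x| ≤ B) :
    |ln p a b x| ≤ |(p a).2| + (B + |(p a).1|) * |slp p a b| := by
  unfold ln
  refine (abs_add_le _ _).trans (add_le_add le_rfl ?_)
  rw [abs_mul]
  refine mul_le_mul_of_nonneg_right ?_ (abs_nonneg _)
  exact (abs_sub _ _).trans (add_le_add hx le_rfl)

theorem t2 : T2 := by
  intro V G p a1 a2 E Z hGB hlen hRT hAdj hcov
  obtain ⟨𝓡, I⟩ := hGB.inv
  have all : ∀ v, BE E v := hcov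
  obtain ⟨T, hT⟩ := I.hz
  have hdrawn : drawn G p = dE p E := by
    ext q
    constructor
    · rintro ⟨u, v, huv, hq⟩
      rcases (hAdj u v).1 huv with h | h
      · exact ⟨(u, v), h, hq⟩
      · exact ⟨(v, u), h, by rw [segment_symm]; exact hq⟩
    · rintro ⟨e, he, hq⟩
      exact ⟨e.1, e.2, (hAdj _ _).2 (Or.inl he), hq⟩
  have orient : ∀ u v, G.Adj u v → ∃ e ∈ E, (e = (u, v) ∨ e = (v, u)) ∧
      segment ℝ (p e.1) (p e.2) = segment ℝ (p u) (p v) ∧
      (∀ w, (w = e.1 ∨ w = e.2) ↔ (w = u ∨ w = v)) ∧ s(u, v) = s(e.1, e.2) := by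
    intro u v huv
    rcases (hAdj u v).1 huv with h | h
    · exact ⟨(u, v), h, Or.inl rfl, rfl, fun w => Iff.rfl, rfl⟩
    · exact ⟨(v, u), h, Or.inr rfl, segment_symm _ _ _, fun w => or_comm, Sym2.eq_swap⟩
  refine ⟨⟨?_, ?_, ?_⟩, ?_⟩
  · intro u v huv
    exact I.inj u v (all u) (all v) huv
  · intro u v w huv hw
    obtain ⟨e, he, -, hs, hiff, -⟩ := orient u v huv
    rw [← hs] at hw
    exact (hiff w).1 (I.voff e he w (all w) hw)
  · intro u v u' v' huv hu'v' hne q hq hq'
    obtain ⟨e, he, -, hs, hiff, hs2⟩ := orient u v huv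
    obtain ⟨f, hf, -, hs', hiff', hs2'⟩ := orient u' v' hu'v'
    rw [← hs] at hq
    rw [← hs'] at hq'
    obtain ⟨w, h1, h2, h3⟩ := I.meet e he f hf (by
      rintro rfl
      exact hne (hs2.trans hs2'.symm)) q hq hq'
    exact ⟨w, (hiff w).1 h1, (hiff' w).1 h2, h3⟩
  -- the faces
  have hx := I.hx
  rw [hT] at hx hRT
  have h12 : (p a1).1 < (p a2).1 := by
    have := xinc_pw hx
    rw [List.pairwise_cons] at this
    exact this.1 a2 (by simp)
  have hD : DD p a1 a2 Z = KReg p a1 a2 (a1 :: ([] ++ [a2])) (a1 :: (T ++ [a2])) := by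
    rw [hT]; exact DD_eq h12 hx hRT
  have hDclosed : IsClosed (DD p a1 a2 Z) := by rw [hD]; exact isClosed_KReg _ _ _ _
  have hDconv : Convex ℝ (DD p a1 a2 Z) := by rw [hD]; exact convex_KReg _ _ _ _
  have hDconn : IsPreconnected (DD p a1 a2 Z)ᶜ := by
    refine compl_conn (p := p) a1 a2 ((a1 :: (T ++ [a2])).zip (a1 :: (T ++ [a2])).tail) _ fun q => ?_
    rw [hD]
    constructor
    · rintro ⟨h1, h2, h3, h4⟩
      exact ⟨h1, h2, h3 (a1, a2) (by simp), h4⟩
    · rintro ⟨h1, h2, h3, h4⟩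
      refine ⟨h1, h2, ?_, h4⟩
      intro e he
      simp only [List.nil_append, List.tail_cons, List.zip_cons_cons, List.zip_nil_right,
        List.mem_singleton] at he
      rw [he]; exact h3
  have hl2 : LTurns p (a1 :: ([] ++ [a2])) := by
    intro a b c h
    have := h.length_le
    simp at this
  have hx2 : XInc p (a1 :: ([] ++ [a2])) := List.isChain_pair.2 h12
  have hDbdd : Bornology.IsBounded (DD p a1 a2 Z) := by
    rw [isBounded_iff_forall_norm_le]
    obtain ⟨c, T', hcT⟩ : ∃ c T', T ++ [a2] = c :: T' := by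
      cases T with
      | nil => exact ⟨a2, [], rfl⟩
      | cons c T => exact ⟨c, T ++ [a2], rfl⟩
    set B1 := |(p a1).1| + |(p a2).1| with hB1
    set C1 := |(p a1).2| + (B1 + |(p a1).1|) * |slp p a1 a2| with hC1
    set C2 := |(p a1).2| + (B1 + |(p a1).1|) * |slp p a1 c| with hC2
    refine ⟨B1 + C1 + C2, fun q hq => ?_⟩
    rw [hD] at hq
    obtain ⟨h1, h2, h3, h4⟩ := hq
    have h5 := h3 (a1, a2) (by simp)
    have h6 := h4 (a1, c) (by rw [hcT]; simp)
    simp only at h5 h6
    have hB0 : 0 ≤ B1 := by positivity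
    have hC10 : 0 ≤ C1 := by positivity
    have hC20 : 0 ≤ C2 := by positivity
    have hx1 : |q.1| ≤ B1 := by
      rw [abs_le]
      constructor
      · have := neg_abs_le (p a1).1
        have := abs_nonneg (p a2).1
        linarith
      · have := le_abs_self (p a2).1
        have := abs_nonneg (p a1).1
        linarith
    have k1 := ln_abs (p := p) a1 a2 q.1 B1 hx1
    have k2 := ln_abs (p := p) a1 c q.1 B1 hx1
    rw [← hC1] at k1
    rw [← hC2] at k2
    rw [Prod.norm_def, Real.norm_eq_abs, Real.norm_eq_abs, max_le_iff]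
    constructor
    · linarith
    · rw [abs_le] at k1 k2 ⊢
      constructor
      · linarith [k1.1]
      · linarith [k2.2]
  have hDunb : ¬ Bornology.IsBounded (DD p a1 a2 Z)ᶜ := by
    intro h
    have h1 := hDbdd.union h
    rw [Set.union_compl_self] at h1
    exact NormedSpace.unbounded_univ ℝ (ℝ × ℝ) h1
  have hdEc : (drawn G p)ᶜ = (DD p a1 a2 Z)ᶜ ∪ ⋃₀ 𝓡 := by
    rw [hdrawn]
    ext q
    constructor
    · intro hq
      by_cases hqD : q ∈ DD p a1 a2 Z
      · right
        rcases I.cover q hqD with h | ⟨R, hR, h⟩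
        · exact absurd h hq
        · exact ⟨R, hR, h⟩
      · left; exact hqD
    · rintro (hq | ⟨R, hR, hq⟩)
      · exact fun h => hq (I.seg q h)
      · exact I.rd R hR q hq
  have hRsub : ∀ R ∈ 𝓡, R ⊆ DD p a1 a2 Z := fun R hR => subset_closure.trans (I.rcl R hR)
  have faces : ∀ A, IsFace G p A → A ∈ 𝓡 ∨ A = (DD p a1 a2 Z)ᶜ := by
    rintro A ⟨z, hz, rfl⟩
    have hzc : z ∈ (drawn G p)ᶜ := hz
    have hpre : IsPreconnected (connectedComponentIn (drawn G p)ᶜ z) :=
      isPreconnected_connectedComponentIn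
    have hsubc : connectedComponentIn (drawn G p)ᶜ z ⊆ (drawn G p)ᶜ :=
      connectedComponentIn_subset _ _
    have hzmem : z ∈ connectedComponentIn (drawn G p)ᶜ z := mem_connectedComponentIn hzc
    have hzc' := hzc
    rw [hdEc] at hzc'
    rcases hzc' with hzD | ⟨R, hR, hzR⟩
    · right
      apply Set.Subset.antisymm
      · refine hpre.subset_left_of_subset_union (v := ⋃₀ 𝓡) hDclosed.isOpen_compl
          (isOpen_sUnion I.rO) ?_ ?_ ⟨z, hzmem, hzD⟩
        · rw [Set.disjoint_left]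
          rintro q hq ⟨R, hR, hqR⟩
          exact hq (hRsub R hR hqR)
        · rw [← hdEc]; exact hsubc
      · refine hDconn.subset_connectedComponentIn hzD ?_
        rw [hdEc]; exact Set.subset_union_left
    · left
      have hRc : R ⊆ (drawn G p)ᶜ := by
        rw [hdEc]
        exact fun q hq => Or.inr ⟨R, hR, hq⟩
      have heq : connectedComponentIn (drawn G p)ᶜ z = R := by
        apply Set.Subset.antisymm
        · refine hpre.subset_left_of_subset_union
            (v := (DD p a1 a2 Z)ᶜ ∪ ⋃₀ {R' | R' ∈ 𝓡 ∧ R' ≠ R}) (I.rO R hR)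
            (hDclosed.isOpen_compl.union (isOpen_sUnion fun R' hR' => I.rO R' hR'.1)) ?_ ?_
            ⟨z, hzmem, hzR⟩
          · rw [Set.disjoint_left]
            rintro q hq (hq' | ⟨R', ⟨hR', hne⟩, hq'⟩)
            · exact hq' (hRsub R hR hq)
            · rcases I.rdis R hR R' hR' with h | h
              · exact hne h.symm
              · exact Set.disjoint_left.1 h hq hq'
          · intro q hq
            have := hsubc hq
            rw [hdEc] at this
            rcases this with h | ⟨R', hR', h⟩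
            · exact Or.inr (Or.inl h)
            · by_cases hRR : R' = R
              · left; rw [← hRR]; exact h
              · exact Or.inr (Or.inr ⟨R', ⟨hR', hRR⟩, h⟩)
        · exact (I.rC R hR).isPreconnected.subset_connectedComponentIn hzR hRc
      rw [heq]; exact hR
  refine ⟨?_, ?_⟩
  · intro A hA hbd
    rcases faces A hA with h | h
    · exact ⟨I.rC A h, fun v hv => I.rv A h v (all v) hv⟩
    · rw [h] at hbd
      exact absurd hbd hDunb
  · intro A hA hbd
    rcases faces A hA with h | h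
    · exact absurd (hDbdd.subset (hRsub A h)) hbd
    · subst h
      rw [compl_compl]
      refine ⟨hDconv, fun v hv => ?_⟩
      have hvZ : v ∈ Z := by
        by_contra hvZ
        have hint : p v ∈ Reg p a1 a2 (a1 :: ([] ++ [a2])) (a1 :: (T ++ [a2])) := by
          have hv1 : v ≠ a1 := fun h => hvZ (by rw [h, hT]; simp)
          have hv2 : v ≠ a2 := fun h => hvZ (by rw [h, hT]; simp)
          rcases I.vb v (all v) with h | h | ⟨h1, h2, h3⟩
          · exact absurd h hv1
          · exact absurd h hv2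
          · refine ⟨h1, h2, ?_, ?_⟩
            · intro e he
              simp only [List.nil_append, List.tail_cons, List.zip_cons_cons, List.zip_nil_right,
                List.mem_singleton] at he
              rw [he]; exact h3
            · rcases I.vert v (all v) with h | h
              · exact absurd h hvZ
              · rw [hT] at h
                exact (below_lt hx hRT h1.le h2.le).2 h
        have hsub : Reg p a1 a2 (a1 :: ([] ++ [a2])) (a1 :: (T ++ [a2])) ⊆ DD p a1 a2 Z := by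
          rw [hD]
          exact subset_closure.trans (closure_Reg _ _ _ _)
        rw [mem_closure_iff] at hv
        obtain ⟨q, hq1, hq2⟩ := hv _ (isOpen_Reg _ _ _ _) hint
        exact hq2 (hsub hq1)
      rw [hD]
      refine ext_KReg hx2 hx hl2 hRT ?_ ?_
      · rw [hT, List.mem_cons, List.mem_append, List.mem_singleton] at hvZ
        rcases hvZ with h | h | h
        · left; simp [h]
        · right; exact h
        · left; simp [h]
      · rw [← hD]; exact I.seg _ (I.BE_D (all v))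

end fin

end Pool.Agent.Run7.h215
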