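import Pool.Agent.Run7.h215.CBBasic

/-!
# T2b: from building sequences with good positions to geometric building sequences
-/

set_option autoImplicit false
set_option linter.unusedSectionVars false

namespace Pool.Agent.Run7.h215

open Filter Topology

section T2b

variable {V : Type}

theorem cr_shear (δ : ℝ) (p : V → ℝ × ℝ) (a b c : V) : cr (shear δ p) a b c = cr p a b c := by
  unfold cr shear
  ring

theorem lturns_shear {δ : ℝ} {p : V → ℝ × ℝ} {L : List V} (h : LTurns p L) :
    LTurns (shear δ p) L := fun a b c habc => by rw [cr_shear]; exact h a b c habc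

theorem rturns_shear {δ : ℝ} {p : V → ℝ × ℝ} {L : List V} (h : RTurns p L) :
    RTurns (shear δ p) L := fun a b c habc => by rw [cr_shear]; exact h a b c habc

theorem GB.xinc {q : V → ℝ × ℝ} {a1 a2 : V} {E : List (V × V)} {Z : List V}
    (h : GB q a1 a2 E Z) : XInc q Z := by
  induction h with
  | base h => exact List.isChain_pair.2 h
  | step E A zp M zq C P E' h0 hne hnew hx hl hr hE ih =>
    unfold XInc at ih hx ⊢
    have h1 : (A ++ [zp]).IsChain (fun a b => (q a).1 < (q b).1) := by
      have : A ++ zp :: (M ++ zq :: C) = (A ++ [zp]) ++ (M ++ zq :: C) := by simp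
      rw [this] at ih
      exact (List.isChain_append.1 ih).1
    have h2 : (zq :: C).IsChain (fun a b => (q a).1 < (q b).1) := by
      have : A ++ zp :: (M ++ zq :: C) = (A ++ zp :: M) ++ (zq :: C) := by simp
      rw [this] at ih
      exact (List.isChain_append.1 ih).2.1
    have h3 : (A ++ [zp] ++ (P ++ [zq])).IsChain (fun a b => (q a).1 < (q b).1) := by
      apply List.IsChain.append_overlap h1 _ (by simp)
      simpa using hx
    have h4 : ((A ++ zp :: P) ++ [zq] ++ C).IsChain (fun a b => (q a).1 < (q b).1) := by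
      apply List.IsChain.append_overlap _ _ (by simp)
      · simpa using h3
      · simpa using h2
    simpa using h4

theorem GB.lt_of_split {q : V → ℝ × ℝ} {a1 a2 : V} {E : List (V × V)} {A B C : List V} {u v : V}
    (h : GB q a1 a2 E (A ++ u :: (B ++ v :: C))) : (q u).1 < (q v).1 := by
  have h1 := h.xinc
  unfold XInc at h1
  have h2 : (A ++ u :: (B ++ v :: C)).Pairwise (fun a b => (q a).1 < (q b).1) := by
    have : IsTrans V (fun a b => (q a).1 < (q b).1) := ⟨fun a b c h h' => lt_trans h h'⟩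
    exact List.isChain_iff_pairwise.1 h1
  rw [List.pairwise_append, List.pairwise_cons] at h2
  exact h2.2.1.1 v (by simp)

theorem rturns_two (q : V → ℝ × ℝ) (u v : V) : RTurns q [u, v] := by
  intro a b c h
  have := h.length_le
  simp at this

theorem infix_two {u v a b : V} : [a, b] <:+: [u, v] ↔ a = u ∧ b = v := by
  constructor
  · intro h
    have := h.sublist.eq_of_length (by simp)
    simpa using this
  · rintro ⟨rfl, rfl⟩; exact List.infix_rfl

theorem infix_pairs {L : List V} {e : V × V} : e ∈ L.zip L.tail ↔ [e.1, e.2] <:+: L := by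
  induction L with
  | nil => simp
  | cons a T ih =>
    cases T with
    | nil =>
      simp only [List.tail_cons, List.zip_nil_right, List.not_mem_nil, false_iff]
      intro h
      have := h.length_le
      simp at this
    | cons b T =>
      rw [List.infix_cons_iff, ← ih]
      simp only [List.tail_cons, List.zip_cons_cons, List.mem_cons]
      constructor
      · rintro (rfl | h)
        · left; exact ⟨T, rfl⟩
        · right; exact h
      · rintro (h | h)
        · left
          obtain ⟨T', hT'⟩ := h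
          simp only [List.cons_append, List.cons.injEq] at hT'
          exact Prod.ext hT'.1 hT'.2.1
        · right; exact h

/-- the vertices of segments -/
def vts (ss : List (Seg V)) : List V := ss.flatMap (fun s => s.l ++ (s.r ++ [s.w]))

theorem vts_cons (s : Seg V) (ss : List (Seg V)) :
    vts (s :: ss) = (s.l ++ (s.r ++ [s.w])) ++ vts ss := rfl

theorem vts_append (ss ss' : List (Seg V)) : vts (ss ++ ss') = vts ss ++ vts ss' := by
  unfold vts; rw [List.flatMap_append]

theorem entries_map (ss : List (Seg V)) : (ss.flatMap Seg.entries).map Prod.fst = vts ss :=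
  flatMap_entries_map_fst ss

/-- the left ends of the segments -/
def starts : V → List (Seg V) → List V
  | _, [] => []
  | w, s :: ss => w :: starts s.w ss

theorem starts_or (w : V) (ss : List (Seg V)) (u : V) :
    (u ∈ starts w ss ∨ u = lastW w ss) ↔ (u = w ∨ ∃ s ∈ ss, u = s.w) := by
  induction ss generalizing w with
  | nil => simp [starts]
  | cons s ss ih =>
    have := ih s.w
    simp only [starts, List.mem_cons, lastW_cons, exists_eq_or_imp]
    rw [or_assoc, this]

theorem vts_lastW (w : V) (ss : List (Seg V)) : ∃ L, w :: vts ss = L ++ [lastW w ss] := by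
  induction ss generalizing w with
  | nil => exact ⟨[], rfl⟩
  | cons s ss ih =>
    obtain ⟨L, hL⟩ := ih s.w
    refine ⟨w :: (s.l ++ s.r) ++ L, ?_⟩
    rw [lastW_cons, List.append_assoc, ← hL, vts_cons]
    simp

theorem lastW_append (w : V) (ss : List (Seg V)) (s : Seg V) (ss' : List (Seg V)) :
    lastW w (ss ++ s :: ss') = lastW s.w ss' := by
  induction ss generalizing w with
  | nil => rfl
  | cons s' ss ih => rw [List.cons_append, lastW_cons, ih]

theorem mem_newFaces_mid (P : List V) (b : Bool) (w : V) (ss : List (Seg V)) (s : Seg V)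
    (ss' : List (Seg V)) : ∃ b', (b' = true → ss = [] ∧ b = true) ∧
      ((ss = [] ∧ b = true) → b' = true) ∧
      (⟨lastW w ss, s.l, s.r, s.w, P, b', ss'.isEmpty⟩ : Face V) ∈
        newFaces P b w (ss ++ s :: ss') := by
  induction ss generalizing w b with
  | nil => exact ⟨b, by simp, by simp, by simp⟩
  | cons s' ss ih =>
    obtain ⟨b', h1, -, h2⟩ := ih false s'.w
    refine ⟨b', fun h => ?_, fun h => by simp at h, ?_⟩
    · have := h1 h
      simp at this
    · rw [List.cons_append, newFaces_cons, lastW_cons]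
      exact List.mem_cons_of_mem _ h2

theorem bedge_newFaces {y : V} (b : Bool) (w : V) (segs : List (Seg V)) (u v : V) :
    (∃ f ∈ newFaces [y] b w segs, [u, v] <:+: f.wl :: (f.top ++ [f.wr])) ↔
      (v = y ∧ u ∈ starts w segs) ∨ (u = y ∧ ∃ s ∈ segs, v = s.w) := by
  induction segs generalizing b w with
  | nil => simp [starts]
  | cons s ss ih =>
    have h1 : ∀ x : V, [u, v] <:+: w :: ([y] ++ [x]) ↔ (u = w ∧ v = y) ∨ (u = y ∧ v = x) := by
      intro x
      rw [List.infix_cons_iff]
      refine or_congr ?_ infix_two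
      simp
    rw [newFaces_cons]
    simp only [List.mem_cons, exists_eq_or_imp, starts]
    rw [h1, ih false s.w]
    tauto

theorem logic1 {Euv Evu U Vy pu pv qu qv wu wv Ru Rv Su Sv Tu Tv : Prop}
    (k1 : Su ∨ pu ↔ wu ∨ Tu) (k2 : Sv ∨ pv ↔ wv ∨ Tv) :
    (((((pu ∧ Vy) ∨ (U ∧ qv) ∨ Euv) ∨ (U ∧ Rv)) ∨ (Vy ∧ Su)) ∨
      ((((pv ∧ U) ∨ (Vy ∧ qu) ∨ Evu) ∨ (Vy ∧ Ru)) ∨ (U ∧ Sv))) ↔
    (Euv ∨ Evu) ∨ ((U ∧ (wv ∨ (Tv ∨ qv ∨ Rv))) ∨ (Vy ∧ (wu ∨ (Tu ∨ qu ∨ Ru)))) := by
  constructor
  · rintro ((((⟨a, b⟩ | ⟨a, b⟩ | a) | ⟨a, b⟩) | ⟨a, b⟩) |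
      (((⟨a, b⟩ | ⟨a, b⟩ | a) | ⟨a, b⟩) | ⟨a, b⟩))
    · rcases k1.1 (Or.inr a) with c | c
      · exact Or.inr (Or.inr ⟨b, Or.inl c⟩)
      · exact Or.inr (Or.inr ⟨b, Or.inr (Or.inl c)⟩)
    · exact Or.inr (Or.inl ⟨a, Or.inr (Or.inr (Or.inl b))⟩)
    · exact Or.inl (Or.inl a)
    · exact Or.inr (Or.inl ⟨a, Or.inr (Or.inr (Or.inr b))⟩)
    · rcases k1.1 (Or.inl b) with c | c
      · exact Or.inr (Or.inr ⟨a, Or.inl c⟩)
      · exact Or.inr (Or.inr ⟨a, Or.inr (Or.inl c)⟩)
    · rcases k2.1 (Or.inr a) with c | c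
      · exact Or.inr (Or.inl ⟨b, Or.inl c⟩)
      · exact Or.inr (Or.inl ⟨b, Or.inr (Or.inl c)⟩)
    · exact Or.inr (Or.inr ⟨a, Or.inr (Or.inr (Or.inl b))⟩)
    · exact Or.inl (Or.inr a)
    · exact Or.inr (Or.inr ⟨a, Or.inr (Or.inr (Or.inr b))⟩)
    · rcases k2.1 (Or.inl b) with c | c
      · exact Or.inr (Or.inl ⟨a, Or.inl c⟩)
      · exact Or.inr (Or.inl ⟨a, Or.inr (Or.inl c)⟩)
  · have g1 : (wu ∨ Tu) → Vy → (((((pu ∧ Vy) ∨ (U ∧ qv) ∨ Euv) ∨ (U ∧ Rv)) ∨ (Vy ∧ Su)) ∨
        ((((pv ∧ U) ∨ (Vy ∧ qu) ∨ Evu) ∨ (Vy ∧ Ru)) ∨ (U ∧ Sv))) := by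
      intro h hv
      rcases k1.2 h with c | c
      · exact Or.inl (Or.inr ⟨hv, c⟩)
      · exact Or.inl (Or.inl (Or.inl (Or.inl ⟨c, hv⟩)))
    have g2 : (wv ∨ Tv) → U → (((((pu ∧ Vy) ∨ (U ∧ qv) ∨ Euv) ∨ (U ∧ Rv)) ∨ (Vy ∧ Su)) ∨
        ((((pv ∧ U) ∨ (Vy ∧ qu) ∨ Evu) ∨ (Vy ∧ Ru)) ∨ (U ∧ Sv))) := by
      intro h hv
      rcases k2.2 h with c | c
      · exact Or.inr (Or.inr ⟨hv, c⟩)
      · exact Or.inr (Or.inl (Or.inl (Or.inl ⟨c, hv⟩)))
    rintro ((a | a) | (⟨a, b | b | b | b⟩ | ⟨a, b | b | b | b⟩))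
    · exact Or.inl (Or.inl (Or.inl (Or.inr (Or.inr a))))
    · exact Or.inr (Or.inl (Or.inl (Or.inr (Or.inr a))))
    · exact g2 (Or.inl b) a
    · exact g2 (Or.inr b) a
    · exact Or.inl (Or.inl (Or.inl (Or.inr (Or.inl ⟨a, b⟩))))
    · exact Or.inl (Or.inl (Or.inr ⟨a, b⟩))
    · exact g1 (Or.inl b) a
    · exact g1 (Or.inr b) a
    · exact Or.inr (Or.inl (Or.inl (Or.inr (Or.inl ⟨a, b⟩))))
    · exact Or.inr (Or.inl (Or.inr ⟨a, b⟩))

theorem logic2 {B1 B2 U Vy Au Av Su Sv Tu Tv : Prop} (k5 : Su ∨ Tu ↔ Au) (k6 : Sv ∨ Tv ↔ Av) :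
    ((B1 ∨ B2) ∨ ((U ∧ Av) ∨ (Vy ∧ Au))) ↔
      (B1 ∨ ((Vy ∧ Su) ∨ (U ∧ Tv))) ∨ (B2 ∨ ((U ∧ Sv) ∨ (Vy ∧ Tu))) := by
  rw [← k5, ← k6]
  tauto

theorem logic3 {Euv Evu B1 B2 I1 I2 : Prop} (h : (Euv ∨ Evu) ↔ (B1 ∨ B2)) :
    ((I1 ∨ Euv) ∨ (I2 ∨ Evu)) ↔ (B1 ∨ I1) ∨ (B2 ∨ I2) := by
  have h' : (B1 ∨ I1) ∨ (B2 ∨ I2) ↔ (B1 ∨ B2) ∨ (I1 ∨ I2) := by tauto
  rw [h', ← h]
  tauto

section main

variable {p : V → ℝ × ℝ} {δ : ℝ} {a1 a2 y : V}

/-- the general position hypothesis on `δ` for vertices in `W` -/
def Gen (p : V → ℝ × ℝ) (δ : ℝ) (W : List V) : Prop :=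
  0 < δ ∧ ∀ u ∈ W, ∀ v ∈ W, (p u).1 < (p v).1 → (shear δ p u).1 < (shear δ p v).1

theorem Gen.le {W : List V} (h : Gen p δ W) {u v : V} (hu : u ∈ W) (hv : v ∈ W)
    (huv : (shear δ p u).1 < (shear δ p v).1) : (p u).1 ≤ (p v).1 := by
  by_contra hcon
  have := h.2 v hv u hu (not_le.1 hcon)
  linarith

theorem Gen.eq {W : List V} (h : Gen p δ W) {u v : V}
    (h1 : (p u).1 = (p v).1) (h2 : (p u).2 < (p v).2) :
    (shear δ p u).1 < (shear δ p v).1 := by
  unfold shear
  simp only
  have := mul_lt_mul_of_pos_left h2 h.1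
  linarith

theorem right_part {W : List V} (hW : Gen p δ W) (hy : y ∈ W) (C : List V) :
    ∀ (ss : List (Seg V)) (w : V) (E : List (V × V)) (A : List V),
      w ∈ W → (∀ s ∈ ss, s.w ∈ W) →
      GB (shear δ p) a1 a2 E (A ++ y :: w :: (vts ss ++ C)) →
      (∀ f ∈ newFaces [y] false w ss, FaceG p f) →
      ∃ E', GB (shear δ p) a1 a2 E' (A ++ y :: lastW w ss :: C) ∧
        ∀ e, e ∈ E' ↔ e ∈ E ∨ ∃ s ∈ ss, e = (y, s.w) := by
  intro ss
  induction ss with
  | nil =>
    intro w E A _ _ h _
    exact ⟨E, by simpa [vts] using h, by simp⟩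
  | cons s ss ih =>
    intro w E A hw hs h hf
    have hwy : (shear δ p y).1 < (shear δ p w).1 :=
      GB.lt_of_split (A := A) (B := []) (u := y) (v := w) h
    have hle : (p y).1 ≤ (p w).1 := hW.le hy hw hwy
    have h' : GB (shear δ p) a1 a2 E
        (A ++ y :: ((w :: (s.l ++ s.r)) ++ s.w :: (vts ss ++ C))) := by
      have : A ++ y :: ((w :: (s.l ++ s.r)) ++ s.w :: (vts ss ++ C)) =
          A ++ y :: w :: (vts (s :: ss) ++ C) := by
        rw [vts_cons]; simp
      rw [this]; exact h
    have hf0 : FaceG p ⟨w, s.l, s.r, s.w, [y], false, ss.isEmpty⟩ := hf _ (by simp)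
    have hstep := GB.step E A y (w :: (s.l ++ s.r)) s.w (vts ss ++ C) [] ((y, s.w) :: E) h'
      (Or.inl (by simp)) (by simp) (List.isChain_pair.2 (GB.lt_of_split h'))
      (by
        have h1 := lturns_shear (δ := δ) (hf0.fanL rfl y (by simp) hle)
        have : y :: (w :: (s.l ++ s.r) ++ [s.w]) =
            y :: Face.bot ⟨w, s.l, s.r, s.w, [y], false, ss.isEmpty⟩ := by
          simp [Face.bot]
        rw [this]; exact h1)
      (rturns_two _ _ _)
      (by
        intro e
        rw [List.nil_append, infix_two, List.mem_cons]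
        constructor
        · rintro (rfl | h)
          · right; exact ⟨rfl, rfl⟩
          · left; exact h
        · rintro (h | ⟨h1, h2⟩)
          · right; exact h
          · left; exact Prod.ext h1 h2)
    obtain ⟨E', h2, h3⟩ := ih s.w _ A (hs s (by simp)) (fun s' hs' => hs s' (by simp [hs']))
      hstep (fun f hf' => hf f (by rw [newFaces_cons]; exact List.mem_cons_of_mem _ hf'))
    refine ⟨E', h2, fun e => ?_⟩
    rw [h3]
    simp only [List.mem_cons, exists_eq_or_imp]
    tauto

theorem left_part {W : List V} (hW : Gen p δ W) (hy : y ∈ W) (C : List V)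
    (rest : List (Seg V)) (hrest : rest ≠ []) :
    ∀ (ss : List (Seg V)) (w : V) (b : Bool) (E : List (V × V)) (A : List V),
      (shear δ p w).1 < (shear δ p y).1 → w ∈ W →
      (∀ s ∈ ss, s.w ∈ W ∧ (shear δ p s.w).1 < (shear δ p y).1) →
      GB (shear δ p) a1 a2 E (A ++ w :: (vts ss ++ y :: C)) →
      (∀ f ∈ newFaces [y] b w (ss ++ rest), FaceG p f) →
      ∃ E', GB (shear δ p) a1 a2 E' (A ++ w :: y :: C) ∧
        ∀ e, e ∈ E' ↔ e ∈ E ∨ ∃ u ∈ starts w ss, e = (u, y) := by
  intro ss
  induction ss with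
  | nil =>
    intro w b E A _ _ _ h _
    exact ⟨E, by simpa [vts] using h, by simp [starts]⟩
  | cons s ss ih =>
    intro w b E A hwy hw hs h hf
    have h' : GB (shear δ p) a1 a2 E
        ((A ++ w :: (s.l ++ s.r)) ++ s.w :: (vts ss ++ y :: C)) := by
      have : (A ++ w :: (s.l ++ s.r)) ++ s.w :: (vts ss ++ y :: C) =
          A ++ w :: (vts (s :: ss) ++ y :: C) := by
        rw [vts_cons]; simp
      rw [this]; exact h
    obtain ⟨E1, h2, h3⟩ := ih s.w false E (A ++ w :: (s.l ++ s.r)) (hs s (by simp)).2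
      (hs s (by simp)).1 (fun s' hs' => hs s' (by simp [hs'])) h'
      (fun f hf' => hf f (by
        rw [List.cons_append, newFaces_cons]; exact List.mem_cons_of_mem _ hf'))
    have h2' : GB (shear δ p) a1 a2 E1 (A ++ w :: (((s.l ++ s.r) ++ [s.w]) ++ y :: C)) := by
      have : A ++ w :: (((s.l ++ s.r) ++ [s.w]) ++ y :: C) =
          (A ++ w :: (s.l ++ s.r)) ++ s.w :: y :: C := by simp
      rw [this]; exact h2
    have hemp : (ss ++ rest).isEmpty = false := by
      cases ss with
      | nil =>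
        cases rest with
        | nil => exact absurd rfl hrest
        | cons _ _ => rfl
      | cons _ _ => rfl
    have hf0 : FaceG p ⟨w, s.l, s.r, s.w, [y], b, false⟩ := hf _ (by
      rw [List.cons_append, newFaces_cons, hemp]; simp)
    have hle : (p s.w).1 ≤ (p y).1 := hW.le (hs s (by simp)).1 hy (hs s (by simp)).2
    have hstep := GB.step E1 A w ((s.l ++ s.r) ++ [s.w]) y C [] ((w, y) :: E1) h2'
      (Or.inl (by simp)) (by simp) (List.isChain_pair.2 hwy)
      (by
        have h1 := lturns_shear (δ := δ) (hf0.fanR rfl y (by simp) hle)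
        have : w :: (s.l ++ s.r ++ [s.w] ++ [y]) =
            Face.bot ⟨w, s.l, s.r, s.w, [y], b, false⟩ ++ [y] := by
          simp [Face.bot]
        rw [this]; exact h1)
      (rturns_two _ _ _)
      (by
        intro e
        rw [List.nil_append, infix_two, List.mem_cons]
        constructor
        · rintro (rfl | h)
          · right; exact ⟨rfl, rfl⟩
          · left; exact h
        · rintro (h | ⟨h1, h2⟩)
          · right; exact h
          · left; exact Prod.ext h1 h2)
    refine ⟨_, hstep, fun e => ?_⟩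
    rw [List.mem_cons, h3]
    simp only [starts, List.mem_cons, exists_eq_or_imp]
    tauto

theorem split_segs (Q : V → Prop) (segs : List (Seg V)) (w : V) (hne : segs ≠ [])
    (hQ : Q (lastW w segs)) : ∃ ss1 s ss2, segs = ss1 ++ s :: ss2 ∧ Q s.w ∧
      ∀ s' ∈ ss1, ¬ Q s'.w := by
  induction segs generalizing w with
  | nil => exact absurd rfl hne
  | cons s ss ih =>
    by_cases h : Q s.w
    · exact ⟨[], s, ss, rfl, h, by simp⟩
    · cases ss with
      | nil => exact absurd hQ h
      | cons s' ss' =>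
        obtain ⟨ss1, t, ss2, h1, h2, h3⟩ := ih s.w (by simp) hQ
        refine ⟨s :: ss1, t, ss2, by rw [h1]; rfl, h2, ?_⟩
        intro t' ht'
        rw [List.mem_cons] at ht'
        rcases ht' with rfl | ht'
        · exact h
        · exact h3 t' ht'

/-- the fan step -/
theorem fan_step {W : List V} (hW : Gen p δ W) (hy : y ∈ W) (E : List (V × V)) (A : List V)
    (w0 : V) (segs : List (Seg V)) (C : List V) (hne : segs ≠ []) (hw0 : w0 ∈ W)
    (hsW : ∀ s ∈ segs, s.w ∈ W)
    (h : GB (shear δ p) a1 a2 E (A ++ w0 :: (vts segs ++ C)))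
    (hf : ∀ f ∈ newFaces [y] true w0 segs, FaceG p f)
    (hfresh : ∀ e ∈ E, y ≠ e.1 ∧ y ≠ e.2) :
    ∃ E', GB (shear δ p) a1 a2 E' (A ++ w0 :: y :: lastW w0 segs :: C) ∧
      ∀ u v, ((u, v) ∈ E' ∨ (v, u) ∈ E') ↔ ((u, v) ∈ E ∨ (v, u) ∈ E) ∨
        ((u = y ∧ (v = w0 ∨ ∃ s ∈ segs, v = s.w)) ∨ (v = y ∧ (u = w0 ∨ ∃ s ∈ segs, u = s.w))) := by
  -- the last attachment is to the right of `y`
  have hfirst : (shear δ p w0).1 < (shear δ p y).1 := by
    cases segs with
    | nil => exact absurd rfl hne
    | cons s ss =>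
      have := (hf _ (by rw [newFaces_cons]; exact List.mem_cons_self)).xfirst rfl y (by simp)
      exact hW.2 _ hw0 _ hy this
  have hlast : (shear δ p y).1 < (shear δ p (lastW w0 segs)).1 := by
    rcases List.eq_nil_or_concat segs with h0 | ⟨ss, s, h0⟩
    · exact absurd h0 hne
    · rw [List.concat_eq_append] at h0
      subst h0
      obtain ⟨b', -, -, hm⟩ := mem_newFaces_mid [y] true w0 ss s []
      have := (hf _ hm).xlast rfl y (by simp)
      rw [lastW_append]
      exact hW.2 _ hy _ (hsW s (by simp)) this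
  obtain ⟨ss1, s, ss2, rfl, hQ, hnQ⟩ := split_segs (fun w => (shear δ p y).1 < (shear δ p w).1)
    segs w0 hne hlast
  have hnQ' : ∀ s' ∈ ss1, s'.w ∈ W ∧ (shear δ p s'.w).1 < (shear δ p y).1 := by
    intro s' hs'
    have hsw : s'.w ∈ W := hsW s' (by simp [hs'])
    refine ⟨hsw, ?_⟩
    obtain ⟨t1, t2, ht⟩ := List.append_of_mem hs'
    obtain ⟨b', -, -, hm⟩ := mem_newFaces_mid [y] true w0 t1 s' (t2 ++ s :: ss2)
    have hm' : (⟨lastW w0 t1, s'.l, s'.r, s'.w, [y], b', (t2 ++ s :: ss2).isEmpty⟩ : Face V) ∈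
        newFaces [y] true w0 (ss1 ++ s :: ss2) := by
      rw [ht]; simpa using hm
    have hem : (t2 ++ s :: ss2).isEmpty = false := by cases t2 <;> rfl
    rw [hem] at hm'
    have hlt := (hf _ hm').yR rfl y (by simp)
    simp only at hlt
    rcases lt_trichotomy (p s'.w).1 (p y).1 with h1 | h1 | h1
    · exact hW.2 _ hsw _ hy h1
    · exact hW.eq h1 hlt
    · exact absurd (hW.2 _ hy _ hsw h1) (hnQ s' hs')
  obtain ⟨L, hL⟩ := vts_lastW w0 ss1
  have hwp : lastW w0 ss1 ∈ W ∧ (shear δ p (lastW w0 ss1)).1 < (shear δ p y).1 := by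
    have := (starts_or w0 ss1 (lastW w0 ss1)).1 (Or.inr rfl)
    rcases this with h1 | ⟨s', hs', h1⟩
    · rw [h1]; exact ⟨hw0, hfirst⟩
    · rw [h1]; exact hnQ' s' hs'
  have hswW : s.w ∈ W := hsW s (by simp)
  -- the face around `y`
  have h' : GB (shear δ p) a1 a2 E
      ((A ++ L) ++ lastW w0 ss1 :: ((s.l ++ s.r) ++ s.w :: (vts ss2 ++ C))) := by
    have : (A ++ L) ++ lastW w0 ss1 :: ((s.l ++ s.r) ++ s.w :: (vts ss2 ++ C)) =
        A ++ w0 :: (vts (ss1 ++ s :: ss2) ++ C) := by
      have h1 : (A ++ L) ++ lastW w0 ss1 :: ((s.l ++ s.r) ++ s.w :: (vts ss2 ++ C)) =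
          A ++ (L ++ [lastW w0 ss1]) ++ ((s.l ++ s.r) ++ s.w :: (vts ss2 ++ C)) := by simp
      rw [h1, ← hL, vts_append, vts_cons]
      simp
    rw [this]; exact h
  obtain ⟨b', hb1, hb2, hm⟩ := mem_newFaces_mid [y] true w0 ss1 s ss2
  have hf0 := hf _ hm
  have hRT : RTurns p [lastW w0 ss1, y, s.w] := by
    by_cases hfl : b' = true ∧ ss2.isEmpty = true
    · exact hf0.rt hfl.1 hfl.2
    · have g1 : (p (lastW w0 ss1)).1 ≤ (p y).1 := hW.le hwp.1 hy hwp.2
      have g2 : (p y).1 ≤ (p s.w).1 := hW.le hy hswW hQ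
      have g3 : (p y).1 < (p s.w).1 := by
        rcases g2.lt_or_eq with g | g
        · exact g
        · by_cases hl : ss2.isEmpty = true
          · exact hf0.xlast hl y (by simp)
          · have := hf0.yR (by simpa using hl) y (by simp)
            have h5 := hW.eq (u := s.w) (v := y) g.symm this
            linarith
      rcases g1.lt_or_eq with g | g
      · exact hf0.fanmid hfl y (by simp) g g3
      · by_cases hb : b' = true
        · have := hf0.xfirst hb y (by simp)
          simp only at this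
          linarith
        · have h6 := hf0.yL (by simpa using hb) y (by simp)
          simp only at h6
          intro a b c habc
          have := habc.sublist.eq_of_length (by simp)
          simp only [List.cons.injEq, and_true] at this
          obtain ⟨rfl, rfl, rfl⟩ := this
          unfold cr
          rw [g]
          have : 0 < ((p b).2 - (p (lastW w0 ss1)).2) * ((p s.w).1 - (p b).1) :=
            mul_pos (by linarith) (by linarith)
          linarith
  have hstep := GB.step E (A ++ L) (lastW w0 ss1) (s.l ++ s.r) s.w (vts ss2 ++ C) [y]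
    ((lastW w0 ss1, y) :: (y, s.w) :: E) h' (Or.inr (by simp))
    (by
      intro v hv e he
      rw [List.mem_singleton] at hv
      subst hv
      exact hfresh e he)
    (by
      simp only [XInc, List.cons_append, List.nil_append, List.isChain_cons_cons,
        List.isChain_singleton, and_true]
      exact ⟨hwp.2, hQ⟩)
    (by
      have h1 := lturns_shear (δ := δ) hf0.bot
      have : lastW w0 ss1 :: (s.l ++ s.r ++ [s.w]) =
          Face.bot ⟨lastW w0 ss1, s.l, s.r, s.w, [y], b', ss2.isEmpty⟩ := by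
        simp [Face.bot]
      rw [this]; exact h1)
    (rturns_shear hRT)
    (by
      intro e
      rw [List.infix_cons_iff]
      have h1 : [e.1, e.2] <:+: [y] ++ [s.w] ↔ e.1 = y ∧ e.2 = s.w := infix_two
      have h2 : [e.1, e.2] <+: lastW w0 ss1 :: ([y] ++ [s.w]) ↔
          e.1 = lastW w0 ss1 ∧ e.2 = y := by simp
      rw [h1, h2]
      simp only [List.mem_cons, Prod.ext_iff]
      tauto)
  have hstep' : GB (shear δ p) a1 a2 ((lastW w0 ss1, y) :: (y, s.w) :: E)
      ((A ++ L ++ [lastW w0 ss1]) ++ y :: s.w :: (vts ss2 ++ C)) := by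
    have : (A ++ L ++ [lastW w0 ss1]) ++ y :: s.w :: (vts ss2 ++ C) =
        (A ++ L) ++ lastW w0 ss1 :: ([y] ++ s.w :: (vts ss2 ++ C)) := by simp
    rw [this]; exact hstep
  -- the faces to the right
  have hfr : ∀ f ∈ newFaces [y] false s.w ss2, FaceG p f := by
    intro f hf'
    apply hf
    have : ∀ (ss1 : List (Seg V)) (b : Bool) (w : V), f ∈ newFaces [y] b w (ss1 ++ s :: ss2) := by
      intro ss1
      induction ss1 with
      | nil => intro b w; rw [List.nil_append, newFaces_cons]; exact List.mem_cons_of_mem _ hf'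
      | cons t ts ih =>
        intro b w
        rw [List.cons_append, newFaces_cons]
        exact List.mem_cons_of_mem _ (ih _ _)
    exact this _ _ _
  obtain ⟨E2, h2, h3⟩ := right_part hW hy C ss2 s.w _ (A ++ L ++ [lastW w0 ss1]) hswW
    (fun s' hs' => hsW s' (by simp [hs'])) hstep' hfr
  have h2' : GB (shear δ p) a1 a2 E2 (A ++ w0 :: (vts ss1 ++ y :: (lastW s.w ss2 :: C))) := by
    have : A ++ w0 :: (vts ss1 ++ y :: (lastW s.w ss2 :: C)) =
        A ++ L ++ [lastW w0 ss1] ++ y :: lastW s.w ss2 :: C := by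
      have h1 : A ++ w0 :: (vts ss1 ++ y :: (lastW s.w ss2 :: C)) =
          A ++ (w0 :: vts ss1) ++ y :: (lastW s.w ss2 :: C) := by simp
      rw [h1, hL]; simp
    rw [this]; exact h2
  obtain ⟨E3, h4, h5⟩ := left_part hW hy (lastW s.w ss2 :: C) (s :: ss2) (by simp) ss1 w0 true E2 A
    hfirst hw0 hnQ' h2' hf
  refine ⟨E3, ?_, fun u v => ?_⟩
  · rw [lastW_append]; exact h4
  · rw [h5, h5, h3, h3]
    simp only [List.mem_cons, List.mem_append, Prod.mk.injEq]
    have k1 := starts_or w0 ss1 u
    have k2 := starts_or w0 ss1 v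
    have e0 : ∀ a : V, (∃ s' , (s' ∈ ss1 ∨ s' = s ∨ s' ∈ ss2) ∧ a = s'.w) ↔
        (∃ s' ∈ ss1, a = s'.w) ∨ a = s.w ∨ ∃ s' ∈ ss2, a = s'.w := by
      intro a
      constructor
      · rintro ⟨s', hh | hh | hh, hh'⟩
        · exact Or.inl ⟨s', hh, hh'⟩
        · subst hh; exact Or.inr (Or.inl hh')
        · exact Or.inr (Or.inr ⟨s', hh, hh'⟩)
      · rintro (⟨s', hh, hh'⟩ | hh | ⟨s', hh, hh'⟩)
        · exact ⟨s', Or.inl hh, hh'⟩
        · exact ⟨s, Or.inr (Or.inl rfl), hh⟩
        · exact ⟨s', Or.inr (Or.inr hh), hh'⟩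
    rw [e0, e0]
    have e3 : ∀ a b : V, (∃ s' ∈ ss2, a = y ∧ b = s'.w) ↔ (a = y ∧ ∃ s' ∈ ss2, b = s'.w) := by
      intro a b
      constructor
      · rintro ⟨s', h, h1, h2⟩; exact ⟨h1, s', h, h2⟩
      · rintro ⟨h1, s', h, h2⟩; exact ⟨s', h, h1, h2⟩
    have e4 : ∀ a b : V, (∃ u' ∈ starts w0 ss1, a = u' ∧ b = y) ↔
        (b = y ∧ a ∈ starts w0 ss1) := by
      intro a b
      constructor
      · rintro ⟨u', h, rfl, h2⟩; exact ⟨h2, h⟩
      · rintro ⟨h1, h⟩; exact ⟨a, h, rfl, h1⟩
    rw [e3, e3, e4, e4]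
    exact logic1 k1 k2

end main

theorem CB.wl_wr {a1 a2 : V} {F : List (Face V)} {Z : List (V × Ty)} (h : CB a1 a2 F Z) :
    ∀ f ∈ F, BVert a1 a2 F f.wl ∧ BVert a1 a2 F f.wr := by
  induction h with
  | base h => simp
  | step F A w0 t0 segs C P h1 h2 h3 h4 h5 h6 ih =>
    have hb := h1.bvert
    simp only [List.map_append, List.map_cons, entries_map, List.mem_append,
      List.mem_cons] at hb
    have key : ∀ (ss : List (Seg V)) (b : Bool) (w : V), BVert a1 a2 F w →
        (∀ s ∈ ss, BVert a1 a2 F s.w) → ∀ f ∈ newFaces P b w ss,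
        BVert a1 a2 F f.wl ∧ BVert a1 a2 F f.wr := by
      intro ss
      induction ss with
      | nil => intro b w _ _ f hf; simp at hf
      | cons s ss ih =>
        intro b w hw hs f hf
        rw [newFaces_cons, List.mem_cons] at hf
        rcases hf with rfl | hf
        · exact ⟨hw, hs s (by simp)⟩
        · exact ih false s.w (hs s (by simp)) (fun s' hs' => hs s' (by simp [hs'])) f hf
    intro f hf
    rw [bvert_step h2, bvert_step h2]
    rw [List.mem_append] at hf
    rcases hf with hf | hf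
    · have := key segs true w0 (hb _ (Or.inr (Or.inl rfl))) (fun s hs => hb _ (Or.inr (Or.inr
        (Or.inl (by
          unfold vts
          rw [List.mem_flatMap]
          exact ⟨s, hs, by simp⟩))))) f hf
      exact ⟨Or.inl this.1, Or.inl this.2⟩
    · exact ⟨Or.inl (ih f hf).1, Or.inl (ih f hf).2⟩

theorem CB.bedge_bvert {a1 a2 : V} {F : List (Face V)} {Z : List (V × Ty)} (h : CB a1 a2 F Z)
    {u v : V} (huv : BEdge a1 a2 F u v) : BVert a1 a2 F u ∧ BVert a1 a2 F v := by
  rcases huv with ⟨rfl, rfl⟩ | ⟨f, hf, huv⟩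
  · exact ⟨Or.inl rfl, Or.inr (Or.inl rfl)⟩
  · have key : ∀ x ∈ f.wl :: (f.top ++ [f.wr]), BVert a1 a2 F x := by
      intro x hx
      simp only [List.mem_cons, List.mem_append, List.not_mem_nil, or_false] at hx
      rcases hx with rfl | hx | rfl
      · exact (h.wl_wr f hf).1
      · exact Or.inr (Or.inr ⟨f, hf, hx⟩)
      · exact (h.wl_wr f hf).2
    exact ⟨key u (huv.subset (by simp)), key v (huv.subset (by simp))⟩

theorem CB.nil_eq {a1 a2 : V} {F : List (Face V)} {Z : List (V × Ty)} (h : CB a1 a2 F Z)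
    (hF : F = []) : Z = [(a1, Ty.H), (a2, Ty.H)] := by
  cases h with
  | base h => rfl
  | step F A w0 t0 segs C P h1 h2 h3 h4 h5 h6 =>
    rw [List.append_eq_nil_iff] at hF
    exact absurd hF.1 (newFaces_ne_nil h2)

theorem CB.x_lt {p : V → ℝ × ℝ} {a1 a2 : V} {F : List (Face V)} {Z : List (V × Ty)}
    (h : CB a1 a2 F Z) (hF : F ≠ []) (hf : ∀ f ∈ F, FaceG p f) : (p a1).1 < (p a2).1 := by
  induction h with
  | base h => exact absurd rfl hF
  | step F A w0 t0 segs C P h1 h2 h3 h4 h5 h6 ih =>
    by_cases hF' : F = []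
    · have hZ := h1.nil_eq hF'
      have hZ' := congrArg (List.map Prod.fst) hZ
      simp only [List.map_append, List.map_cons, entries_map, List.map_nil] at hZ'
      cases A with
      | cons a A =>
        exfalso
        have := congrArg List.length hZ'
        cases segs with
        | nil => exact h2 rfl
        | cons s ss =>
          rw [vts_cons] at this
          simp only [List.map_cons, List.length_append, List.length_cons, List.length_nil] at this
          omega
      | nil =>
        simp only [List.map_nil, List.nil_append, List.cons.injEq] at hZ'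
        obtain ⟨rfl, hZ'⟩ := hZ'
        cases segs with
        | nil => exact absurd rfl h2
        | cons s ss =>
          rw [vts_cons] at hZ'
          have hlen := congrArg List.length hZ'
          simp only [List.length_append, List.length_cons, List.length_nil] at hlen
          have hl : s.l = [] := List.length_eq_zero_iff.1 (by omega)
          have hr : s.r = [] := List.length_eq_zero_iff.1 (by omega)
          have hss : ss = [] := by
            cases ss with
            | nil => rfl
            | cons s' ss' =>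
              rw [vts_cons] at hlen
              simp only [List.length_append, List.length_cons, List.length_nil] at hlen
              omega
          subst hss
          rw [hl, hr] at hZ'
          simp only [List.nil_append, List.cons_append, List.cons.injEq] at hZ'
          have hg := hf ⟨w0, s.l, s.r, s.w, P, true, true⟩ (by simp)
          have hsw : s.w = a2 := hZ'.1
          -- along the path
          cases P with
          | nil => exact absurd rfl h3
          | cons v vs =>
            have g1 := hg.xfirst rfl v (by simp)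
            have g2 := hg.xtop
            have g3 := hg.xlast rfl ((v :: vs).getLast (by simp)) (by
              simp only
              rw [List.getLast?_eq_some_getLast (by simp)]
              simp)
            have g4 : (p v).1 ≤ (p ((v :: vs).getLast (by simp))).1 := by
              unfold XInc at g2
              have : IsTrans V (fun a b => (p a).1 < (p b).1) :=
                ⟨fun a b c h h' => lt_trans h h'⟩
              have g5 := List.isChain_iff_pairwise.1 g2
              rw [List.pairwise_cons] at g5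
              rcases List.mem_cons.1 (List.getLast_mem (l := v :: vs) (by simp)) with h | h
              · rw [h]
              · exact (g5.1 _ h).le
            simp only at g1 g3
            rw [← hsw]
            linarith
    · exact ih hF' (fun f hf' => hf f (List.mem_append.2 (Or.inr hf')))

theorem exists_gen (p : V → ℝ × ℝ) (W : List V) : ∃ δ, Gen p δ W := by
  have h1 : ∀ u ∈ {v | v ∈ W}, ∀ᶠ δ : ℝ in 𝓝[>] (0:ℝ), ∀ v ∈ {v | v ∈ W},
      (p u).1 < (p v).1 → (shear δ p u).1 < (shear δ p v).1 := by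
    intro u _
    rw [Filter.eventually_all_finite (List.finite_toSet W)]
    intro v _
    by_cases h : (p u).1 < (p v).1
    · have h2 : Tendsto (fun δ : ℝ => (shear δ p v).1 - (shear δ p u).1) (𝓝[>] 0)
          (𝓝 (((p v).1 + 0 * (p v).2) - ((p u).1 + 0 * (p u).2))) := by
        refine Tendsto.mono_left ?_ nhdsWithin_le_nhds
        unfold shear
        exact Continuous.tendsto (by fun_prop) 0
      have h3 : 0 < (((p v).1 + 0 * (p v).2) - ((p u).1 + 0 * (p u).2)) := by
        simp only [zero_mul, add_zero]; linarith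
      filter_upwards [h2.eventually (lt_mem_nhds h3)] with δ hδ _
      linarith
    · exact Filter.Eventually.of_forall fun _ h' => absurd h' h
  have h2 := (Filter.eventually_all_finite (List.finite_toSet W)).2 h1
  obtain ⟨δ, h3, h4⟩ := (h2.and eventually_mem_nhdsWithin).exists
  exact ⟨δ, h4, fun u hu v hv => h3 u hu v hv⟩

theorem t2b_aux {p : V → ℝ × ℝ} {δ : ℝ} {a1 a2 : V} {W : List V} (hW : Gen p δ W)
    (ha : (shear δ p a1).1 < (shear δ p a2).1) {F : List (Face V)} {Z : List (V × Ty)}
    (h : CB a1 a2 F Z) : (∀ f ∈ F, FaceG p f) →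
    (∀ f ∈ F, f.wl ∈ W ∧ f.wr ∈ W ∧ ∀ y ∈ f.top, y ∈ W) →
    ∃ E : List (V × V), GB (shear δ p) a1 a2 E (Z.map Prod.fst) ∧
      ∀ u v, ((u, v) ∈ E ∨ (v, u) ∈ E) ↔ (BEdge a1 a2 F u v ∨ BEdge a1 a2 F v u) := by
  induction h with
  | base h =>
    intro _ _
    refine ⟨[(a1, a2)], GB.base ha, fun u v => ?_⟩
    simp [BEdge]
  | step F A w0 t0 segs C P h1 h2 h3 h4 h5 h6 ih =>
    intro hf hfW
    obtain ⟨E, hE1, hE2⟩ := ih (fun f hf' => hf f (List.mem_append.2 (Or.inr hf')))
      (fun f hf' => hfW f (List.mem_append.2 (Or.inr hf')))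
    have hfresh : ∀ v ∈ P, ∀ e ∈ E, v ≠ e.1 ∧ v ≠ e.2 := by
      intro v hv e he
      have hnb := not_bvert (h6 v hv)
      have : BVert a1 a2 F e.1 ∧ BVert a1 a2 F e.2 := by
        rcases (hE2 e.1 e.2).1 (Or.inl he) with h | h
        · exact h1.bedge_bvert h
        · exact (h1.bedge_bvert h).symm
      exact ⟨fun h => hnb (h ▸ this.1), fun h => hnb (h ▸ this.2)⟩
    simp only [List.map_append, List.map_cons, entries_map, pEnt_map_fst] at hE1 ⊢
    have hnf : ∀ f ∈ newFaces P true w0 segs, FaceG p f := fun f hf' =>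
      hf f (List.mem_append.2 (Or.inl hf'))
    have hBE : ∀ u v, BEdge a1 a2 (newFaces P true w0 segs ++ F) u v ↔
        BEdge a1 a2 F u v ∨ ∃ f ∈ newFaces P true w0 segs,
          [u, v] <:+: f.wl :: (f.top ++ [f.wr]) := by
      intro u v
      unfold BEdge
      constructor
      · rintro (h | ⟨f, hf', h⟩)
        · exact Or.inl (Or.inl h)
        · rcases List.mem_append.1 hf' with hf' | hf'
          · exact Or.inr ⟨f, hf', h⟩
          · exact Or.inl (Or.inr ⟨f, hf', h⟩)
      · rintro ((h | ⟨f, hf', h⟩) | ⟨f, hf', h⟩)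
        · exact Or.inl h
        · exact Or.inr ⟨f, List.mem_append.2 (Or.inr hf'), h⟩
        · exact Or.inr ⟨f, List.mem_append.2 (Or.inl hf'), h⟩
    by_cases hlen : segs.length = 1
    · obtain ⟨s, rfl⟩ := List.length_eq_one_iff.1 hlen
      have hg : FaceG p ⟨w0, s.l, s.r, s.w, P, true, true⟩ := hnf _ (by simp)
      have hgW := hfW ⟨w0, s.l, s.r, s.w, P, true, true⟩ (by simp)
      have hE1' : GB (shear δ p) a1 a2 E
          (A.map Prod.fst ++ w0 :: ((s.l ++ s.r) ++ s.w :: C.map Prod.fst)) := by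
        have : A.map Prod.fst ++ w0 :: ((s.l ++ s.r) ++ s.w :: C.map Prod.fst) =
            A.map Prod.fst ++ w0 :: (vts [s] ++ C.map Prod.fst) := by
          simp [vts]
        rw [this]; exact hE1
      have hx : XInc (shear δ p) (w0 :: (P ++ [s.w])) := by
        unfold XInc
        have hP : P.IsChain (fun a b => (shear δ p a).1 < (shear δ p b).1) := by
          have h7 := hg.xtop
          unfold XInc at h7
          simp only at h7
          have hsub : ∀ y ∈ P, y ∈ W := hgW.2.2
          clear hfresh hnf hBE hf hfW hg hgW h3 h4 h5 h6 hE1' hE1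
          induction P with
          | nil => exact List.isChain_nil
          | cons a T ihT =>
            cases T with
            | nil => exact List.isChain_singleton _
            | cons b T =>
              rw [List.isChain_cons_cons] at h7 ⊢
              exact ⟨hW.2 _ (hsub a (by simp)) _ (hsub b (by simp)) h7.1,
                ihT h7.2 (fun y hy => hsub y (by simp [hy]))⟩
        rw [List.isChain_cons, List.isChain_append]
        refine ⟨?_, hP, List.isChain_singleton _, ?_⟩
        · intro y hy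
          cases P with
          | nil => exact absurd rfl h3
          | cons a T =>
            simp only [List.cons_append, List.head?_cons, Option.mem_def, Option.some.injEq] at hy
            subst hy
            exact hW.2 _ hgW.1 _ (hgW.2.2 _ (by simp)) (hg.xfirst rfl _ (by simp))
        · intro y hy z hz
          simp only [List.head?_cons, Option.mem_def, Option.some.injEq] at hz
          subst hz
          have hyP : y ∈ P := List.mem_of_getLast? hy
          exact hW.2 _ (hgW.2.2 _ hyP) _ hgW.2.1 (hg.xlast rfl y hy)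
      have hstep := GB.step E (A.map Prod.fst) w0 (s.l ++ s.r) s.w (C.map Prod.fst) P
        (((w0 :: (P ++ [s.w])).zip (w0 :: (P ++ [s.w])).tail) ++ E) hE1' (Or.inr h3) hfresh hx
        (by
          have h7 := lturns_shear (δ := δ) hg.bot
          have : w0 :: (s.l ++ s.r ++ [s.w]) =
              Face.bot ⟨w0, s.l, s.r, s.w, P, true, true⟩ := by
            simp [Face.bot]
          rw [this]; exact h7)
        (rturns_shear (hg.rt rfl rfl))
        (by
          intro e
          rw [List.mem_append, infix_pairs]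
          exact or_comm)
      refine ⟨_, hstep, fun u v => ?_⟩
      rw [List.mem_append, List.mem_append, infix_pairs, infix_pairs, hBE, hBE]
      have h8 : ∀ u v, (∃ f ∈ newFaces P true w0 [s], [u, v] <:+: f.wl :: (f.top ++ [f.wr])) ↔
          [u, v] <:+: w0 :: (P ++ [s.w]) := by
        intro u v
        simp
      rw [h8, h8]
      exact logic3 (hE2 u v)
    · obtain ⟨y, rfl⟩ : ∃ y, P = [y] := by
        rcases h4 with h4 | h4
        · exact List.length_eq_one_iff.1 h4
        · exact absurd h4 hlen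
      have hyW : y ∈ W := by
        cases segs with
        | nil => exact absurd rfl h2
        | cons s ss =>
          exact (hfW _ (List.mem_append.2 (Or.inl (by
            rw [newFaces_cons]; exact List.mem_cons_self)))).2.2 y (by simp)
      have hsW : ∀ s ∈ segs, s.w ∈ W := by
        intro s hs
        obtain ⟨t1, t2, rfl⟩ := List.append_of_mem hs
        obtain ⟨b', -, -, hm⟩ := mem_newFaces_mid [y] true w0 t1 s t2
        exact (hfW _ (List.mem_append.2 (Or.inl hm))).2.1
      have hw0 : w0 ∈ W := by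
        cases segs with
        | nil => exact absurd rfl h2
        | cons s ss =>
          exact (hfW _ (List.mem_append.2 (Or.inl (by
            rw [newFaces_cons]; exact List.mem_cons_self)))).1
      obtain ⟨E', h7, h8⟩ := fan_step hW hyW E (A.map Prod.fst) w0 segs (C.map Prod.fst) h2 hw0 hsW
        hE1 hnf (fun e he => hfresh y (by simp) e he)
      refine ⟨E', h7, fun u v => ?_⟩
      rw [h8, hBE, hBE, hE2, bedge_newFaces, bedge_newFaces]
      have k1 : ∀ a, a ∈ starts w0 segs ∨ (∃ s ∈ segs, a = s.w) ↔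
          (a = w0 ∨ ∃ s ∈ segs, a = s.w) := by
        intro a
        have k2 := starts_or w0 segs a
        have k3 : a = lastW w0 segs → ∃ s ∈ segs, a = s.w := by
          rintro rfl
          rcases List.eq_nil_or_concat segs with h0 | ⟨ss, s, h0⟩
          · exact absurd h0 h2
          · rw [List.concat_eq_append] at h0
            rw [h0, lastW_append]
            exact ⟨s, by simp, rfl⟩
        have k4 : a = w0 → a ∈ starts w0 segs := by
          rintro rfl
          cases segs with
          | nil => exact absurd rfl h2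
          | cons s ss => simp [starts]
        tauto
      exact logic2 (k1 u) (k1 v)

theorem t2b : T2b := by
  intro V p a1 a2 F Z hCB hF hf
  obtain ⟨δ, hδ⟩ := exists_gen p (a1 :: a2 :: F.flatMap (fun f => f.wl :: f.wr :: f.top))
  have ha := hδ.2 a1 (by simp) a2 (by simp) (hCB.x_lt hF hf)
  obtain ⟨E, h1, h2⟩ := t2b_aux hδ ha hCB hf (by
    intro f hf'
    have key : ∀ x ∈ f.wl :: f.wr :: f.top, x ∈ a1 :: a2 :: F.flatMap
        (fun f => f.wl :: f.wr :: f.top) := by
      intro x hx
      refine List.mem_cons_of_mem _ (List.mem_cons_of_mem _ ?_)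
      rw [List.mem_flatMap]
      exact ⟨f, hf', hx⟩
    exact ⟨key _ (by simp), key _ (by simp), fun y hy => key _ (by simp [hy])⟩)
  exact ⟨δ, E, h1, h2⟩

end T2b

end Pool.Agent.Run7.h215
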