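import Pool.Agent.Run7.h215.Iface
import Pool.Agent.H239R2.Cover.PlanarP2

/-!
# T3a: the planarity system of a straight-line drawing (MP_8ffccf_co)

The technique (and the general position lemmas) of `Pool.Agent.H239R2.Cover.PlanarP2`, mod 2.
-/

set_option autoImplicit false
set_option linter.unusedSectionVars false

namespace Pool.Agent.Run7.h215

namespace T3aAux

open Filter Topology
open Pool.Agent.H239R2.Planar.P2 (sl Ht Good Ht_tl Ht_hd Ht_cont sign_const exists_delta gen_add
  gen_sub len lt_add_iff sub_lt_iff add_lt_iff lt_sub_iff)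

noncomputable section

open Classical

theorem ite_cg' {P Q : Prop} {i1 : Decidable P} {i2 : Decidable Q} (h : P ↔ Q) :
    (@ite ℕ P i1 1 0) = @ite ℕ Q i2 1 0 := by
  by_cases hP : P
  · rw [if_pos hP, if_pos (h.1 hP)]
  · rw [if_neg hP, if_neg (fun hQ => hP (h.2 hQ))]

theorem ite_inst {P : Prop} {i1 i2 : Decidable P} {a b : ZMod 2} :
    @ite _ P i1 a b = @ite _ P i2 a b := by
  congr

section abs

variable {V E : Type} [Fintype V] [Fintype E]

/-- the sum of `z` over the edges with property `P` -/
def Ph (z : E → ZMod 2) (P : E → Prop) : ZMod 2 := ∑ e, if P e then z e else 0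

theorem Ph_comb (z : E → ZMod 2) (P Q R T : E → Prop)
    (h : ∀ e, (if P e then (1 : ℕ) else 0) + (if Q e then 1 else 0) =
      (if R e then 1 else 0) + (if T e then 1 else 0)) :
    Ph z P + Ph z Q = Ph z R + Ph z T := by
  unfold Ph
  rw [← Finset.sum_add_distrib, ← Finset.sum_add_distrib]
  refine Finset.sum_congr rfl fun e _ => ?_
  have h1 : ∀ (p : Prop), (if p then z e else 0) =
      ((if p then (1 : ℕ) else 0 : ℕ) : ZMod 2) * z e := by
    intro p
    split_ifs <;> simp
  rw [h1, h1, h1, h1, ← add_mul, ← add_mul, ← Nat.cast_add, ← Nat.cast_add, h e]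

theorem Ph_false (z : E → ZMod 2) (P : E → Prop) (h : ∀ e, ¬ P e) : Ph z P = 0 := by
  unfold Ph
  simp [h]

theorem Ph_congr (z : E → ZMod 2) (P Q : E → Prop) (h : ∀ e, P e ↔ Q e) : Ph z P = Ph z Q := by
  have : P = Q := funext fun e => propext (h e)
  rw [this]

/-- the parity condition at the vertices -/
def Ev (z : E → ZMod 2) (tl hd : E → V) : Prop :=
  ∀ v, (∑ e, if hd e = v then z e else 0) = ∑ e, if tl e = v then z e else 0

variable {z : E → ZMod 2} {tl hd : E → V}

theorem cons' (hz : Ev z tl hd) (S : V → Prop) :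
    Ph z (fun e => S (hd e)) = Ph z (fun e => S (tl e)) := by
  unfold Ph
  have h : ∀ g : E → V, (∑ e, if S (g e) then z e else 0) =
      ∑ v, if S v then (∑ e, if g e = v then z e else 0) else 0 := by
    intro g
    have h1 : ∀ v, (if S v then (∑ e, if g e = v then z e else 0) else 0) =
        ∑ e, if g e = v then (if S (g e) then z e else 0) else 0 := by
      intro v
      split_ifs with hv
      · refine Finset.sum_congr rfl fun e _ => ?_
        split_ifs with h2 h3
        · rfl
        · rw [h2] at h3; exact absurd hv h3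
        · rfl
      · symm
        refine Finset.sum_eq_zero fun e _ => ?_
        split_ifs with h2 h3
        · rw [h2] at h3; exact absurd h3 hv
        · rfl
        · rfl
    simp only [h1]
    rw [Finset.sum_comm]
    refine Finset.sum_congr rfl fun e _ => ?_
    rw [Finset.sum_ite_eq]
    simp
  rw [h, h]
  refine Finset.sum_congr rfl fun v _ => ?_
  rw [hz v]

variable (z tl hd) (X Y : V → ℝ)

/-- the sum over the edges above `e` at abscissa `x` -/
def U (e : E) (x : ℝ) : ZMod 2 :=
  Ph z (fun f => X (tl f) < x ∧ x < X (hd f) ∧ Ht tl hd X Y e x < Ht tl hd X Y f x)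

/-- the sum over the edges just above the vertex `v` -/
def al (v : V) : ZMod 2 :=
  Ph z (fun f => X (tl f) < X v ∧ X v < X (hd f) ∧ Y v < Ht tl hd X Y f (X v))

variable {z tl hd X Y}

theorem U_const' (hz : Ev z tl hd) (h : Good tl hd X Y) (e : E) {x0 x1 : ℝ} (h01 : x0 < x1)
    (g0 : ∀ w, X w ≠ x0) (g1 : ∀ w, X w ≠ x1) (h0 : X (tl e) < x0) (h1 : x1 < X (hd e)) :
    U z tl hd X Y e x0 = U z tl hd X Y e x1 := by
  set S : V → Prop := fun w => x0 < X w ∧ X w < x1 ∧ Ht tl hd X Y e (X w) < Y w with hS
  have hc := cons' hz S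
  have hmain : U z tl hd X Y e x0 + Ph z (fun f => S (tl f)) =
      U z tl hd X Y e x1 + Ph z (fun f => S (hd f)) := by
    refine Ph_comb z _ _ _ _ fun f => ?_
    rcases eq_or_ne e f with hef | hef
    · subst hef
      have a1 : ¬ (X (tl e) < x0 ∧ x0 < X (hd e) ∧ Ht tl hd X Y e x0 < Ht tl hd X Y e x0) := by
        simp
      have a2 : ¬ (X (tl e) < x1 ∧ x1 < X (hd e) ∧ Ht tl hd X Y e x1 < Ht tl hd X Y e x1) := by
        simp
      have a3 : ¬ S (tl e) := fun hs => by linarith [hs.1]
      have a4 : ¬ S (hd e) := fun hs => by linarith [hs.2.1]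
      rw [if_neg a1, if_neg a2, if_neg a3, if_neg a4]
    · have hab := h.lt f
      set a := X (tl f) with ha
      set b := X (hd f) with hb
      by_cases hov : a < x1 ∧ x0 < b
      · obtain ⟨o1, o2⟩ := hov
        set σ : Prop := Ht tl hd X Y e (max a x0) < Ht tl hd X Y f (max a x0) with hσ
        have hst : ∀ x, x0 ≤ x → x ≤ x1 → a ≤ x → x ≤ b →
            (Ht tl hd X Y e x < Ht tl hd X Y f x ↔ σ) := by
          intro x p1 p2 p3 p4
          refine (sign_const h hef (by linarith) (by linarith) p3 p4 ?_ ?_ ?_ ?_).1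
          · exact lt_of_lt_of_le h0 (le_max_right _ _)
          · exact (max_lt o1 h01).trans h1
          · exact le_max_left _ _
          · exact max_le hab.le o2.le
        have e1 : (a < x0 ∧ x0 < b ∧ Ht tl hd X Y e x0 < Ht tl hd X Y f x0) ↔ (a < x0 ∧ σ) := by
          constructor
          · rintro ⟨p, q, r⟩
            exact ⟨p, (hst x0 le_rfl h01.le p.le q.le).1 r⟩
          · rintro ⟨p, r⟩
            exact ⟨p, o2, (hst x0 le_rfl h01.le p.le o2.le).2 r⟩
        have e2 : (a < x1 ∧ x1 < b ∧ Ht tl hd X Y e x1 < Ht tl hd X Y f x1) ↔ (x1 < b ∧ σ) := by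
          constructor
          · rintro ⟨p, q, r⟩
            exact ⟨q, (hst x1 h01.le le_rfl p.le q.le).1 r⟩
          · rintro ⟨q, r⟩
            exact ⟨o1, q, (hst x1 h01.le le_rfl o1.le q.le).2 r⟩
        have e3 : S (tl f) ↔ (x0 < a ∧ σ) := by
          have : Y (tl f) = Ht tl hd X Y f a := (Ht_tl f).symm
          simp only [hS, this, ← ha]
          constructor
          · rintro ⟨p, q, r⟩
            exact ⟨p, (hst a p.le q.le le_rfl hab.le).1 r⟩
          · rintro ⟨p, r⟩
            exact ⟨p, o1, (hst a p.le o1.le le_rfl hab.le).2 r⟩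
        have e4 : S (hd f) ↔ (b < x1 ∧ σ) := by
          have : Y (hd f) = Ht tl hd X Y f b := (Ht_hd h f).symm
          simp only [hS, this, ← hb]
          constructor
          · rintro ⟨p, q, r⟩
            exact ⟨q, (hst b p.le q.le hab.le le_rfl).1 r⟩
          · rintro ⟨q, r⟩
            exact ⟨o2, q, (hst b o2.le q.le hab.le le_rfl).2 r⟩
        simp only [e1, e2, e3, e4]
        by_cases hs : σ
        · simp only [hs, and_true]
          rcases lt_or_gt_of_ne (g0 (tl f)) with q1 | q1 <;>
            rcases lt_or_gt_of_ne (g1 (hd f)) with q2 | q2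
          · rw [if_pos q1, if_neg (not_lt.2 q1.le), if_neg (not_lt.2 q2.le), if_pos q2]
          · rw [if_pos q1, if_neg (not_lt.2 q1.le), if_pos q2, if_neg (not_lt.2 q2.le)]
          · rw [if_neg (not_lt.2 q1.le), if_pos q1, if_neg (not_lt.2 q2.le), if_pos q2]
          · rw [if_neg (not_lt.2 q1.le), if_pos q1, if_pos q2, if_neg (not_lt.2 q2.le)]
        · simp [hs]
      · have a1 : ¬ (a < x0 ∧ x0 < b ∧ Ht tl hd X Y e x0 < Ht tl hd X Y f x0) := by
          rintro ⟨p, q, r⟩
          exact hov ⟨p.trans h01, q⟩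
        have a2 : ¬ (a < x1 ∧ x1 < b ∧ Ht tl hd X Y e x1 < Ht tl hd X Y f x1) := by
          rintro ⟨p, q, r⟩
          exact hov ⟨p, h01.trans q⟩
        have a3 : ¬ S (tl f) := by
          rintro ⟨p, q, r⟩
          exact hov ⟨q, p.trans hab⟩
        have a4 : ¬ S (hd f) := by
          rintro ⟨p, q, r⟩
          exact hov ⟨hab.trans q, p⟩
        rw [if_neg a1, if_neg a2, if_neg a3, if_neg a4]
  rw [hc] at hmain
  exact add_right_cancel hmain

theorem U_const (hz : Ev z tl hd) (h : Good tl hd X Y) (e : E) {x0 x1 : ℝ}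
    (g0 : ∀ w, X w ≠ x0) (g1 : ∀ w, X w ≠ x1) (h0 : X (tl e) < x0) (h0' : x0 < X (hd e))
    (h1 : X (tl e) < x1) (h1' : x1 < X (hd e)) :
    U z tl hd X Y e x0 = U z tl hd X Y e x1 := by
  rcases lt_trichotomy x0 x1 with g | g | g
  · exact U_const' hz h e g g0 g1 h0 h1'
  · rw [g]
  · exact (U_const' hz h e g g1 g0 h1 h0').symm

section vertex

variable (h : Good tl hd X Y) {δ : ℝ} (hδ : 0 < δ) (hd' : ∀ u v, u ≠ v → δ < |X u - X v|)
include h hδ hd'

theorem right (v : V) (e : E) (he : tl e = v) : U z tl hd X Y e (X v + δ) =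
    al z tl hd X Y v + Ph z (fun f => tl f = v ∧ sl tl hd X Y e < sl tl hd X Y f) := by
  have hc : U z tl hd X Y e (X v + δ) + Ph z (fun _ => False) =
      al z tl hd X Y v + Ph z (fun f => tl f = v ∧ sl tl hd X Y e < sl tl hd X Y f) := by
    refine Ph_comb z _ _ _ _ fun f => ?_
    rw [if_neg (show ¬ False from id), add_zero]
    have hHe : Ht tl hd X Y e (X v + δ) = Y v + δ * sl tl hd X Y e := by
      unfold Ht; rw [he]; ring
    rcases eq_or_ne (tl f) v with hf | hf
    · have hHf : Ht tl hd X Y f (X v + δ) = Y v + δ * sl tl hd X Y f := by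
        unfold Ht; rw [hf]; ring
      have hlen := len h hδ hd' f
      rw [hf] at hlen
      have n1 : ¬ (X (tl f) < X v ∧ X v < X (hd f) ∧ Y v < Ht tl hd X Y f (X v)) := by
        rw [hf]; rintro ⟨a, _⟩; exact lt_irrefl _ a
      rw [if_neg n1, zero_add, hHe, hHf]
      have i1 : (X (tl f) < X v + δ ∧ X v + δ < X (hd f) ∧
          Y v + δ * sl tl hd X Y e < Y v + δ * sl tl hd X Y f) ↔
          (tl f = v ∧ sl tl hd X Y e < sl tl hd X Y f) := by
        constructor
        · rintro ⟨_, _, a⟩
          exact ⟨hf, lt_of_mul_lt_mul_left (by linarith) hδ.le⟩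
        · rintro ⟨_, a⟩
          refine ⟨by rw [hf]; linarith, hlen, ?_⟩
          have := mul_lt_mul_of_pos_left a hδ
          linarith
      exact ite_cg' i1
    · have n1 : ¬ (tl f = v ∧ sl tl hd X Y e < sl tl hd X Y f) := fun a => hf a.1
      rw [if_neg n1, add_zero]
      have hfe : f ≠ e := fun a => hf (by rw [a, he])
      have hlen := len h hδ hd' e
      rw [he] at hlen
      have i1 : (X (tl f) < X v + δ ∧ X v + δ < X (hd f) ∧
          Ht tl hd X Y e (X v + δ) < Ht tl hd X Y f (X v + δ)) ↔
          (X (tl f) < X v ∧ X v < X (hd f) ∧ Y v < Ht tl hd X Y f (X v)) := by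
        rw [lt_add_iff h hδ hd' v (tl f) hf, add_lt_iff h hδ hd' v (hd f)]
        refine and_congr_right fun a1 => and_congr_right fun a2 => ?_
        have a3 := (add_lt_iff h hδ hd' v (hd f)).2 a2
        have hs := (sign_const h hfe (x := X v + δ) (x' := X v) (by linarith) a3
          (by rw [he]; linarith) hlen.le a1 a2 (by rw [he]) (by linarith)).2
        rw [hs]
        have : Ht tl hd X Y e (X v) = Y v := by rw [← he]; exact Ht_tl e
        rw [this]
      exact ite_cg' i1
  rw [Ph_false z (fun _ => False) (fun _ => id), add_zero] at hc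
  exact hc

theorem left (v : V) (e : E) (he : hd e = v) : U z tl hd X Y e (X v - δ) =
    al z tl hd X Y v + Ph z (fun f => hd f = v ∧ sl tl hd X Y f < sl tl hd X Y e) := by
  have hc : U z tl hd X Y e (X v - δ) + Ph z (fun _ => False) =
      al z tl hd X Y v + Ph z (fun f => hd f = v ∧ sl tl hd X Y f < sl tl hd X Y e) := by
    refine Ph_comb z _ _ _ _ fun f => ?_
    rw [if_neg (show ¬ False from id), add_zero]
    have hHg : ∀ g : E, hd g = v → Ht tl hd X Y g (X v - δ) = Y v - δ * sl tl hd X Y g := by
      intro g hg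
      have h1 := Ht_hd h g
      rw [hg] at h1
      unfold Ht at h1 ⊢
      linarith
    rcases eq_or_ne (hd f) v with hf | hf
    · have hlen := len h hδ hd' f
      rw [hf] at hlen
      have n1 : ¬ (X (tl f) < X v ∧ X v < X (hd f) ∧ Y v < Ht tl hd X Y f (X v)) := by
        rw [hf]; rintro ⟨_, a, _⟩; exact lt_irrefl _ a
      rw [if_neg n1, zero_add, hHg e he, hHg f hf]
      have i1 : (X (tl f) < X v - δ ∧ X v - δ < X (hd f) ∧
          Y v - δ * sl tl hd X Y e < Y v - δ * sl tl hd X Y f) ↔
          (hd f = v ∧ sl tl hd X Y f < sl tl hd X Y e) := by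
        constructor
        · rintro ⟨_, _, a⟩
          exact ⟨hf, lt_of_mul_lt_mul_left (by linarith) hδ.le⟩
        · rintro ⟨_, a⟩
          refine ⟨by linarith, by rw [hf]; linarith, ?_⟩
          have := mul_lt_mul_of_pos_left a hδ
          linarith
      exact ite_cg' i1
    · have n1 : ¬ (hd f = v ∧ sl tl hd X Y f < sl tl hd X Y e) := fun a => hf a.1
      rw [if_neg n1, add_zero]
      have hfe : f ≠ e := fun a => hf (by rw [a, he])
      have hlen := len h hδ hd' e
      rw [he] at hlen
      have i1 : (X (tl f) < X v - δ ∧ X v - δ < X (hd f) ∧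
          Ht tl hd X Y e (X v - δ) < Ht tl hd X Y f (X v - δ)) ↔
          (X (tl f) < X v ∧ X v < X (hd f) ∧ Y v < Ht tl hd X Y f (X v)) := by
        rw [lt_sub_iff h hδ hd' v (tl f), sub_lt_iff h hδ hd' v (hd f) hf]
        refine and_congr_right fun a1 => and_congr_right fun a2 => ?_
        have a3 := (lt_sub_iff h hδ hd' v (tl f)).2 a1
        have hs := (sign_const h hfe (x := X v - δ) (x' := X v) a3 (by linarith)
          (by linarith) (by rw [he]; linarith) a1 a2 (by linarith) (by rw [he])).2
        rw [hs]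
        have : Ht tl hd X Y e (X v) = Y v := by rw [← he]; exact Ht_hd h e
        rw [this]
      exact ite_cg' i1
  rw [Ph_false z (fun _ => False) (fun _ => id), add_zero] at hc
  exact hc

end vertex

end abs

/-! ### positions compatible with a key -/

theorem exists_pos {V : Type} [Fintype V] {α : Type} [LinearOrder α] (κ : V → α) :
    ∃ pos : V → ℕ, Function.Injective pos ∧ ∀ a b, κ a < κ b → pos a < pos b := by
  let κ' : V → α ×ₗ Fin (Fintype.card V) := fun v => toLex (κ v, Fintype.equivFin V v)
  have hinj : Function.Injective κ' := by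
    intro a b hab
    have h1 : (κ a, Fintype.equivFin V a) = (κ b, Fintype.equivFin V b) := toLex.injective hab
    exact (Fintype.equivFin V).injective (Prod.ext_iff.1 h1).2
  have hlt : ∀ a b, κ' a < κ' b → (Finset.univ.filter (fun c => κ' c < κ' a)).card <
      (Finset.univ.filter (fun c => κ' c < κ' b)).card := by
    intro a b hab
    apply Finset.card_lt_card
    rw [Finset.ssubset_iff_of_subset]
    · exact ⟨a, by simp [hab], by simp⟩
    · intro c hc
      simp only [Finset.mem_filter, Finset.mem_univ, true_and] at hc ⊢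
      exact hc.trans hab
  refine ⟨fun a => (Finset.univ.filter (fun c => κ' c < κ' a)).card, ?_, ?_⟩
  · intro a b hab
    simp only at hab
    apply hinj
    rcases lt_trichotomy (κ' a) (κ' b) with h | h | h
    · exact absurd hab (hlt a b h).ne
    · exact h
    · exact absurd hab (hlt b a h).ne'
  · intro a b hab
    apply hlt
    exact (Prod.Lex.toLex_lt_toLex).2 (Or.inl hab)

section asm

variable {V : Type} [Fintype V] (G : SimpleGraph V) (X Y : V → ℝ)

/-- the edges oriented from left to right -/
abbrev Ed : Type := {e : V × V // G.Adj e.1 e.2 ∧ X e.1 < X e.2}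

/-- left end -/
def tl (e : Ed G X) : V := e.1.1
/-- right end -/
def hd (e : Ed G X) : V := e.1.2

/-- the weights of the edges -/
def zz (c : V → V → ZMod 2) (e : Ed G X) : ZMod 2 := c e.1.1 e.1.2

theorem sum_Ed (g : V × V → ZMod 2) (hg : ∀ a b, ¬ G.Adj a b → g (a, b) = 0) :
    ∑ e : Ed G X, g e.1 = ∑ a, ∑ b, if X a < X b then g (a, b) else 0 := by
  rw [← Finset.sum_subtype (Finset.univ.filter (fun e : V × V => G.Adj e.1 e.2 ∧ X e.1 < X e.2))
    (by simp) g, Finset.sum_filter, Fintype.sum_prod_type]
  refine Finset.sum_congr rfl fun a _ => Finset.sum_congr rfl fun b _ => ?_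
  by_cases h : G.Adj a b
  · simp [h]
  · simp [h, hg a b h]

theorem Ph_tl {c : V → V → ZMod 2} (hc : IsCyc G c) (v : V) (F : V → Prop) :
    Ph (zz G X c) (fun f => tl G X f = v ∧ F (hd G X f)) =
      ∑ w, if X v < X w ∧ F w then c v w else 0 := by
  unfold Ph zz tl hd
  refine (Finset.sum_congr rfl (fun e _ => ite_inst)).trans
    ((sum_Ed G X (fun e => if e.1 = v ∧ F e.2 then c e.1 e.2 else 0)
    (fun a b hab => by simp [hc.supp a b hab])).trans ?_)
  rw [Finset.sum_eq_single v]
  · refine Finset.sum_congr rfl fun b _ => ?_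
    by_cases h1 : X v < X b <;> by_cases h2 : F b <;> simp [h1, h2]
  · intro a _ hav
    refine Finset.sum_eq_zero fun b _ => ?_
    simp [hav]
  · simp

theorem Ph_hd {c : V → V → ZMod 2} (hc : IsCyc G c) (v : V) (F : V → Prop) :
    Ph (zz G X c) (fun f => hd G X f = v ∧ F (tl G X f)) =
      ∑ w, if X w < X v ∧ F w then c v w else 0 := by
  unfold Ph zz tl hd
  refine (Finset.sum_congr rfl (fun e _ => ite_inst)).trans
    ((sum_Ed G X (fun e => if e.2 = v ∧ F e.1 then c e.1 e.2 else 0)
    (fun a b hab => by simp [hc.supp a b hab])).trans ?_)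
  refine Finset.sum_congr rfl fun a _ => ?_
  rw [Finset.sum_eq_single v]
  · by_cases h1 : X a < X v <;> by_cases h2 : F a <;> simp [h1, h2, hc.symm a v]
  · intro b _ hbv
    simp [hbv]
  · simp

theorem ev {c : V → V → ZMod 2} (hX : Function.Injective X) (hc : IsCyc G c) :
    Ev (zz G X c) (tl G X) (hd G X) := by
  intro v
  have h1 := Ph_tl G X hc v (fun _ => True)
  have h2 := Ph_hd G X hc v (fun _ => True)
  unfold Ph at h1 h2
  simp only [and_true] at h1 h2
  rw [h1, h2]
  have h3 := hc.even v
  have h4 : ∑ w, c v w = (∑ w, if X w < X v then c v w else 0) +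
      ∑ w, if X v < X w then c v w else 0 := by
    rw [← Finset.sum_add_distrib]
    refine Finset.sum_congr rfl fun w _ => ?_
    rcases lt_trichotomy (X w) (X v) with h | h | h
    · simp [h, h.le]
    · have hwv : w = v := hX h
      subst hwv
      simp [hc.supp w w (G.loopless.irrefl w)]
    · simp [h, h.le]
  rw [h4] at h3
  have h5 : ∀ a b : ZMod 2, a + b = 0 → a = b := by decide
  exact h5 _ _ h3

/-- the system -/
def sys (δ : ℝ) (c : V → V → ZMod 2) (u v : V) : ZMod 2 :=
  if X u < X v then
    Ph (zz G X c) (fun e => X e.1.1 < X u + δ ∧ X u + δ < X e.1.2 ∧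
      Y u + (X u + δ - X u) * ((Y v - Y u) / (X v - X u)) <
        Ht (tl G X) (hd G X) X Y e (X u + δ))
  else
    Ph (zz G X c) (fun e => X e.1.1 < X v + δ ∧ X v + δ < X e.1.2 ∧
      Y v + (X v + δ - X v) * ((Y u - Y v) / (X u - X v)) <
        Ht (tl G X) (hd G X) X Y e (X v + δ)) + c u v

theorem sys_right (δ : ℝ) (c : V → V → ZMod 2) {u v : V} (h : G.Adj u v) (hX : X u < X v) :
    sys G X Y δ c u v =
      U (zz G X c) (tl G X) (hd G X) X Y ⟨(u, v), h, hX⟩ (X u + δ) := by
  unfold sys
  rw [if_pos hX]
  rfl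

theorem sys_left (δ : ℝ) (c : V → V → ZMod 2) {u v : V} (h : G.Adj u v) (hX : X v < X u) :
    sys G X Y δ c u v =
      U (zz G X c) (tl G X) (hd G X) X Y ⟨(v, u), h.symm, hX⟩ (X v + δ) + c u v := by
  unfold sys
  rw [if_neg (not_lt.2 hX.le)]
  rfl

variable {G X Y}

theorem sys_sys (hgood : Good (tl G X) (hd G X) X Y) {δ : ℝ} (hδ : 0 < δ)
    (hd' : ∀ u v, u ≠ v → δ < |X u - X v|) : Sys G (sys G X Y δ) := by
  have h2 : ∀ a : ZMod 2, a + a = 0 := by decide
  refine ⟨?_, ?_, ?_⟩
  · intro c c' _ _ u v _
    unfold sys Ph zz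
    split
    · rw [← Finset.sum_add_distrib]
      refine Finset.sum_congr rfl fun e _ => ?_
      split <;> simp
    · rw [add_add_add_comm, ← Finset.sum_add_distrib]
      congr 1
      refine Finset.sum_congr rfl fun e _ => ?_
      split <;> simp
  · intro c hc u v huv
    have hne : X u ≠ X v := fun h => huv.ne (hgood.inj h)
    rcases lt_or_gt_of_ne hne with h | h
    · rw [sys_right G X Y δ c huv h, sys_left G X Y δ c huv.symm h, ← add_assoc, h2, zero_add,
        hc.symm]
    · rw [sys_left G X Y δ c huv h, sys_right G X Y δ c huv.symm h, add_right_comm, h2, zero_add]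
  · intro v
    set m : V → ℝ := fun w => (Y w - Y v) / (X w - X v) with hm
    set κ : V → ℕ ×ₗ ℝ := fun w => toLex ((if X v < X w then 0 else 1 : ℕ), m w) with hκ
    obtain ⟨pos, hpinj, hpos⟩ := exists_pos κ
    -- slopes of edges at `v`
    have slR : ∀ w (h : G.Adj v w) (hx : X v < X w),
        sl (tl G X) (hd G X) X Y ⟨(v, w), h, hx⟩ = m w := fun w h hx => rfl
    have slL : ∀ w (h : G.Adj w v) (hx : X w < X v),
        sl (tl G X) (hd G X) X Y ⟨(w, v), h, hx⟩ = m w := by
      intro w h hx
      simp only [sl, tl, hd, hm]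
      rw [← neg_div_neg_eq, neg_sub, neg_sub]
    -- the key is injective on the neighbours
    have hkinj : ∀ w w', G.Adj v w → G.Adj v w' → κ w = κ w' → w = w' := by
      intro w w' hw hw' hk
      have hk' : ((if X v < X w then 0 else 1 : ℕ), m w) =
          ((if X v < X w' then 0 else 1 : ℕ), m w') := toLex.injective hk
      rw [Prod.mk.injEq] at hk'
      obtain ⟨hk1, hk2⟩ := hk'
      have n1 : X v ≠ X w := fun h => hw.ne (hgood.inj h)
      have n2 : X v ≠ X w' := fun h => hw'.ne (hgood.inj h)
      by_cases h1 : X v < X w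
      · have h1' : X v < X w' := by
          by_contra h
          rw [if_pos h1, if_neg h] at hk1
          exact absurd hk1 (by decide)
        have := Pool.Agent.H239R2.Planar.P2.inj_right hgood hδ hd' v
          (x₁ := ⟨(v, w), hw, h1⟩) (x₂ := ⟨(v, w'), hw', h1'⟩)
          (Finset.mem_coe.2 (Finset.mem_filter.2 ⟨Finset.mem_univ _, rfl⟩))
          (Finset.mem_coe.2 (Finset.mem_filter.2 ⟨Finset.mem_univ _, rfl⟩))
          (by rw [slR w hw h1, slR w' hw' h1']; exact hk2)
        exact (Prod.ext_iff.1 (congrArg Subtype.val this)).2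
      · have h1' : ¬ X v < X w' := by
          intro h
          rw [if_neg h1, if_pos h] at hk1
          exact absurd hk1 (by decide)
        have g1 : X w < X v := lt_of_le_of_ne (not_lt.1 h1) n1.symm
        have g2 : X w' < X v := lt_of_le_of_ne (not_lt.1 h1') n2.symm
        have := Pool.Agent.H239R2.Planar.P2.inj_left hgood hδ hd' v
          (x₁ := ⟨(w, v), hw.symm, g1⟩) (x₂ := ⟨(w', v), hw'.symm, g2⟩)
          (Finset.mem_coe.2 (Finset.mem_filter.2 ⟨Finset.mem_univ _, rfl⟩))
          (Finset.mem_coe.2 (Finset.mem_filter.2 ⟨Finset.mem_univ _, rfl⟩))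
          (by simp only [slL w hw.symm g1, slL w' hw'.symm g2, hk2])
        exact (Prod.ext_iff.1 (congrArg Subtype.val this)).1
    have hiff : ∀ w w', G.Adj v w → G.Adj v w' → (pos w' ≤ pos w ↔ κ w' ≤ κ w) := by
      intro w w' hw hw'
      constructor
      · intro h
        by_contra h'
        exact absurd (hpos _ _ (not_le.1 h')) (not_lt.2 h)
      · intro h
        rcases h.lt_or_eq with h | h
        · exact (hpos _ _ h).le
        · rw [hkinj w' w hw' hw h]
    refine ⟨pos, hpinj, fun c hc => ?_⟩
    refine ⟨al (zz G X c) (tl G X) (hd G X) X Y v +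
      Ph (zz G X c) (fun f => tl G X f = v), fun w hw => ?_⟩
    have hsum : ∑ w' with pos w' ≤ pos w, c v w' = ∑ w', if κ w' ≤ κ w then c v w' else 0 := by
      rw [Finset.sum_filter]
      refine Finset.sum_congr rfl fun w' _ => ?_
      by_cases hw' : G.Adj v w'
      · have := hiff w w' hw hw'
        by_cases h : κ w' ≤ κ w
        · rw [if_pos h, if_pos (this.2 h)]
        · rw [if_neg h, if_neg (fun h' => h (this.1 h'))]
      · rw [hc.supp v w' hw']; simp
    rw [hsum]
    have hne : X v ≠ X w := fun h => hw.ne (hgood.inj h)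
    have hR : Ph (zz G X c) (fun f => tl G X f = v) = ∑ w', if X v < X w' then c v w' else 0 := by
      have := Ph_tl G X hc v (fun _ => True)
      simpa using this
    have hfin : ∀ a b d : ZMod 2, a + d = a + (b + d) + b := by decide
    rcases lt_or_gt_of_ne hne with h | h
    · rw [sys_right G X Y δ c hw h, right hgood hδ hd' v ⟨(v, w), hw, h⟩ rfl, slR w hw h]
      have e1 : Ph (zz G X c) (fun f => tl G X f = v ∧ m w < sl (tl G X) (hd G X) X Y f) =
          ∑ w', if X v < X w' ∧ m w < m w' then c v w' else 0 := by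
        rw [← Ph_tl G X hc v (fun w' => m w < m w')]
        refine Ph_congr _ _ _ fun f => ?_
        constructor
        · rintro ⟨rfl, h1⟩; exact ⟨rfl, h1⟩
        · rintro ⟨rfl, h1⟩; exact ⟨rfl, h1⟩
      have e2 : (∑ w', if κ w' ≤ κ w then c v w' else 0) =
          ∑ w', if X v < X w' ∧ m w' ≤ m w then c v w' else 0 := by
        refine Finset.sum_congr rfl fun w' _ => ?_
        refine if_congr ?_ rfl rfl
        rw [hκ]
        simp only [Prod.Lex.toLex_le_toLex, if_pos h]
        by_cases h1 : X v < X w'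
        · simp [h1]
        · simp [h1]
      rw [e1, e2, hR]
      have e3 : (∑ w', if X v < X w' then c v w' else 0) =
          (∑ w', if X v < X w' ∧ m w' ≤ m w then c v w' else 0) +
          ∑ w', if X v < X w' ∧ m w < m w' then c v w' else 0 := by
        rw [← Finset.sum_add_distrib]
        refine Finset.sum_congr rfl fun w' _ => ?_
        by_cases h1 : X v < X w' <;> by_cases h3 : m w' ≤ m w
        · simp [h1, h3, not_lt.2 h3]
        · simp [h1, h3, not_le.1 h3]
        · simp [h1]
        · simp [h1]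
      rw [e3]
      exact hfin _ _ _
    · rw [sys_left G X Y δ c hw h]
      have hlen := len hgood hδ hd' ⟨(w, v), hw.symm, h⟩
      have hlen' : X w + δ < X v := hlen
      rw [U_const (ev G X hgood.inj hc) hgood ⟨(w, v), hw.symm, h⟩
        (gen_add hgood hδ hd' w) (gen_sub hgood hδ hd' v)
        (show X w < X w + δ by linarith) hlen'
        (show X w < X v - δ by linarith) (show X v - δ < X v by linarith),
        left hgood hδ hd' v ⟨(w, v), hw.symm, h⟩ rfl, slL w hw.symm h]
      have e1 : Ph (zz G X c) (fun f => hd G X f = v ∧ sl (tl G X) (hd G X) X Y f < m w) =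
          ∑ w', if X w' < X v ∧ m w' < m w then c v w' else 0 := by
        rw [← Ph_hd G X hc v (fun w' => m w' < m w)]
        refine Ph_congr _ _ _ fun f => ?_
        constructor
        · rintro ⟨rfl, h1⟩
          refine ⟨rfl, ?_⟩
          have h3 := slL (tl G X f) f.2.1 f.2.2
          rw [← h3]; exact h1
        · rintro ⟨rfl, h1⟩
          refine ⟨rfl, ?_⟩
          have h3 := slL (tl G X f) f.2.1 f.2.2
          rw [← h3] at h1; exact h1
      have e2 : (∑ w', if κ w' ≤ κ w then c v w' else 0) =
          (∑ w', if X v < X w' then c v w' else 0) +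
          ((∑ w', if X w' < X v ∧ m w' < m w then c v w' else 0) + c v w) := by
        have e4 : c v w = ∑ w', if w' = w then c v w' else 0 := by
          rw [Finset.sum_ite_eq']; simp
        rw [e4, ← Finset.sum_add_distrib, ← Finset.sum_add_distrib]
        refine Finset.sum_congr rfl fun w' _ => ?_
        by_cases hadj : G.Adj v w'
        · have n1 : X v ≠ X w' := fun h => hadj.ne (hgood.inj h)
          have hle : κ w' ≤ κ w ↔ X v < X w' ∨ (X w' < X v ∧ m w' ≤ m w) := by
            rw [hκ]
            simp only [Prod.Lex.toLex_le_toLex, if_neg (not_lt.2 h.le)]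
            rcases lt_or_gt_of_ne n1 with g | g
            · simp [g]
            · simp [g, not_lt.2 g.le]
          rcases lt_or_gt_of_ne n1 with g | g
          · have hw' : w' ≠ w := fun h' => by rw [h'] at g; linarith
            rw [if_pos (hle.2 (Or.inl g)), if_pos g, if_neg (fun h' => by linarith [h'.1]),
              if_neg hw']
            simp
          · rw [if_neg (not_lt.2 g.le) (c := X v < X w')]
            by_cases hww : w' = w
            · rw [if_pos (hle.2 (Or.inr ⟨g, by rw [hww]⟩)), if_pos hww,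
                if_neg (fun h' => by have := h'.2; rw [hww] at this; exact lt_irrefl _ this)]
              simp
            · have hneq : m w' ≠ m w := by
                intro h'
                apply hww
                apply hkinj w' w hadj hw
                rw [hκ]
                simp only [if_neg (not_lt.2 g.le), if_neg (not_lt.2 h.le), h']
              rw [if_neg hww]
              by_cases h5 : m w' < m w
              · rw [if_pos (hle.2 (Or.inr ⟨g, h5.le⟩)), if_pos ⟨g, h5⟩]
                simp
              · rw [if_neg (fun h' => by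
                  rcases hle.1 h' with h6 | h6
                  · linarith
                  · exact h5 (lt_of_le_of_ne h6.2 hneq)), if_neg (fun h' => h5 h'.2)]
                simp
        · rw [hc.supp v w' hadj]; simp
      rw [e1, e2, hR]
      have hfin' : ∀ a b d e : ZMod 2, a + d + e = a + b + (b + (d + e)) := by decide
      exact hfin' _ _ _ _

end asm

end

end T3aAux

open Filter Topology in
open T3aAux in
open Pool.Agent.H239R2.Planar.P2 (Good exists_delta) in
theorem t3a : T3a := by
  classical
  intro V _ G p hp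
  -- a linear change of coordinates making the abscissas distinct
  obtain ⟨ε, hε⟩ : ∃ ε : ℝ, Function.Injective (fun v => (p v).1 + ε * (p v).2) := by
    have h1 : ∀ q : V × V, ∀ᶠ ε : ℝ in 𝓝[>] (0:ℝ), q.1 ≠ q.2 →
        (p q.1).1 + ε * (p q.1).2 ≠ (p q.2).1 + ε * (p q.2).2 := by
      intro q
      by_cases hq : q.1 = q.2
      · exact Filter.Eventually.of_forall fun _ h => absurd hq h
      by_cases h2 : (p q.1).1 = (p q.2).1
      · have h3 : (p q.1).2 ≠ (p q.2).2 := fun h3 => hq (hp.inj (Prod.ext h2 h3))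
        filter_upwards [eventually_mem_nhdsWithin] with ε hε _ h4
        have hε' : (0:ℝ) < ε := hε
        rw [h2] at h4
        exact h3 (mul_left_cancel₀ hε'.ne' (add_left_cancel h4))
      · have h3 : Tendsto (fun ε : ℝ => ((p q.1).1 + ε * (p q.1).2) - ((p q.2).1 + ε * (p q.2).2))
            (𝓝[>] 0) (𝓝 (((p q.1).1 + 0 * (p q.1).2) - ((p q.2).1 + 0 * (p q.2).2))) := by
          refine Tendsto.mono_left ?_ nhdsWithin_le_nhds
          exact Continuous.tendsto (by fun_prop) 0
        have h4 : (((p q.1).1 + 0 * (p q.1).2) - ((p q.2).1 + 0 * (p q.2).2)) ≠ 0 := by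
          simpa [sub_eq_zero] using h2
        filter_upwards [h3.eventually (isOpen_ne.mem_nhds h4)] with ε hε _ h5
        exact hε (sub_eq_zero.2 h5)
    obtain ⟨ε, h2⟩ := (Filter.eventually_all.2 h1).exists
    refine ⟨ε, fun u v huv => ?_⟩
    by_contra hne
    exact h2 (u, v) hne huv
  set X : V → ℝ := fun v => (p v).1 + ε * (p v).2 with hX
  set Y : V → ℝ := fun v => (p v).2 with hY
  have hgood : Good (tl G X) (hd G X) X Y := by
    refine ⟨hε, fun e => e.2.2, ?_⟩
    rintro ⟨⟨u, v⟩, adj1, h1⟩ ⟨⟨u', v'⟩, adj2, h2⟩ hef x a1 a2 a3 a4 heq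
    simp only [tl, hd] at a1 a2 a3 a4 h1 h2 adj1 adj2
    have hpt : ∀ a b : V, X a < X b → X a ≤ x → x ≤ X b →
        ∃ q ∈ segment ℝ (p a) (p b), q.2 = Y a + (x - X a) * ((Y b - Y a) / (X b - X a)) ∧
          q.1 + ε * q.2 = x := by
      intro a b hab ha hb
      have hab' : X b - X a ≠ 0 := by linarith
      set t := (x - X a) / (X b - X a) with ht
      have ht' : t * (X b - X a) = x - X a := by rw [ht]; field_simp
      refine ⟨(1 - t) • p a + t • p b, ⟨1 - t, t, ?_, ?_, by ring, rfl⟩, ?_, ?_⟩
      · rw [sub_nonneg, ht, div_le_one (by linarith)]; linarith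
      · rw [ht]; apply div_nonneg <;> linarith
      · simp only [Prod.snd_add, Prod.smul_snd, smul_eq_mul, hY]
        rw [ht]
        ring
      · simp only [Prod.snd_add, Prod.smul_snd, smul_eq_mul, Prod.fst_add, Prod.smul_fst]
        have : (1 - t) * (p a).1 + t * (p b).1 + ε * ((1 - t) * (p a).2 + t * (p b).2) =
            X a + t * (X b - X a) := by simp only [hX]; ring
        rw [this, ht']
        ring
    obtain ⟨q, q1, q2, q3⟩ := hpt u v h1 a1.le a2.le
    obtain ⟨q', q1', q2', q3'⟩ := hpt u' v' h2 a3 a4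
    have hq2 : q.2 = q'.2 := by
      rw [q2, q2']
      exact heq
    have hq : q = q' := by
      refine Prod.ext ?_ hq2
      rw [hq2] at q3
      linarith
    rw [← hq] at q1'
    have hss : s(u, v) ≠ s(u', v') := by
      intro hs
      rw [Sym2.eq_iff] at hs
      rcases hs with ⟨r1, r2⟩ | ⟨r1, r2⟩
      · subst r1; subst r2; exact hef rfl
      · subst r1; subst r2; linarith
    obtain ⟨w, hw1, -, hw3⟩ := hp.edges_meet u v u' v' adj1 adj2 hss q q1 q1'
    have hXw : X w = x := by
      rw [← q3, hw3]
    rcases hw1 with hw | hw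
    · rw [hw] at hXw; linarith
    · rw [hw] at hXw; linarith
  obtain ⟨δ, hδ, hd'⟩ := exists_delta hgood.inj
  exact ⟨sys G X Y δ, sys_sys hgood hδ hd'⟩

end Pool.Agent.Run7.h215
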