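import Pool.Agent.Run7.h215.Iface

/-!
# T3b: some functional of a planarity system belongs to at most five darts (MP_8ffccf_co)
-/

set_option autoImplicit false
set_option linter.unusedSectionVars false

namespace Pool.Agent.Run7.h215

namespace T3bAux

open Classical

noncomputable section

variable {V : Type} [Fintype V] (G : SimpleGraph V)

/-- extension of edge weights to symmetric functions -/
def L (z : G.edgeSet → ZMod 2) (u v : V) : ZMod 2 :=
  if h : G.Adj u v then z ⟨s(u, v), h⟩ else 0

theorem L_add (z z' : G.edgeSet → ZMod 2) :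
    L G (z + z') = fun a b => L G z a b + L G z' a b := by
  funext a b
  unfold L
  by_cases h : G.Adj a b
  · simp [h]
  · simp [h]

/-- the boundary map -/
def D : (G.edgeSet → ZMod 2) →ₗ[ZMod 2] (V → ZMod 2) :=
  AddMonoidHom.toZModLinearMap 2
    { toFun := fun z v => ∑ w, L G z v w
      map_zero' := by
        funext v
        simp [L]
      map_add' := by
        intro z z'
        funext v
        simp only [L_add, Pi.add_apply, Finset.sum_add_distrib] }

theorem D_apply (z : G.edgeSet → ZMod 2) (v : V) : D G z v = ∑ w, L G z v w := rfl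

theorem L_symm (z : G.edgeSet → ZMod 2) (u v : V) : L G z u v = L G z v u := by
  unfold L
  by_cases h : G.Adj u v
  · rw [dif_pos h, dif_pos h.symm]
    congr 1
    exact Subtype.ext Sym2.eq_swap
  · rw [dif_neg h, dif_neg (fun h' => h h'.symm)]

theorem L_cyc (z : G.edgeSet → ZMod 2) (hz : z ∈ (D G).ker) : IsCyc G (L G z) := by
  refine ⟨L_symm G z, ?_, ?_⟩
  · intro u v h
    unfold L
    rw [dif_neg h]
  · intro v
    rw [LinearMap.mem_ker] at hz
    exact congrFun hz v

/-- the sum functional -/
def σ : (V → ZMod 2) →ₗ[ZMod 2] ZMod 2 := ∑ v, LinearMap.proj v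

theorem sum_symm_zero (f : V → V → ZMod 2) (hs : ∀ a b, f a b = f b a) (h0 : ∀ a, f a a = 0) :
    ∑ a, ∑ b, f a b = 0 := by
  rw [← Fintype.sum_prod_type (f := fun p : V × V => f p.1 p.2)]
  refine Finset.sum_involution (fun p _ => (p.2, p.1)) ?_ ?_ ?_ ?_
  · intro p _
    simp only [hs p.2 p.1]
    have h2 : ∀ a : ZMod 2, a + a = 0 := by decide
    exact h2 _
  · intro p _ hp h
    apply hp
    have : p.1 = p.2 := (Prod.ext_iff.1 h).2
    rw [this]; exact h0 _
  · intro p _; exact Finset.mem_univ _
  · intro p _; rfl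

theorem range_D_le : (D G).range ≤ (σ (V := V)).ker := by
  rintro _ ⟨z, rfl⟩
  rw [LinearMap.mem_ker]
  unfold σ
  simp only [LinearMap.sum_apply, LinearMap.proj_apply, D_apply]
  refine sum_symm_zero _ (L_symm G z) (fun a => ?_)
  unfold L
  rw [dif_neg (G.loopless.irrefl a)]

theorem finrank_ker_σ [Nonempty V] :
    Module.finrank (ZMod 2) (σ (V := V)).ker + 1 = Fintype.card V := by
  have h := (σ (V := V)).finrank_range_add_finrank_ker
  rw [Module.finrank_fintype_fun_eq_card] at h
  have h1 : (σ (V := V)).range = ⊤ := by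
    rw [LinearMap.range_eq_top]
    intro a
    obtain ⟨v⟩ := (inferInstance : Nonempty V)
    refine ⟨Pi.single v a, ?_⟩
    unfold σ
    simp [LinearMap.sum_apply]
  rw [h1, finrank_top, Module.finrank_self] at h
  omega

theorem finrank_K [Nonempty V] :
    G.edgeFinset.card + 1 ≤ Module.finrank (ZMod 2) (D G).ker + Fintype.card V := by
  have h := (D G).finrank_range_add_finrank_ker
  rw [Module.finrank_fintype_fun_eq_card] at h
  have h1 : Module.finrank (ZMod 2) (D G).range ≤ Module.finrank (ZMod 2) (σ (V := V)).ker :=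
    Submodule.finrank_mono (range_D_le G)
  have h2 := finrank_ker_σ (V := V)
  have h3 : Fintype.card G.edgeSet = G.edgeFinset.card := by
    rw [SimpleGraph.edgeFinset, Set.toFinset_card]
  omega

variable (s : (V → V → ZMod 2) → V → V → ZMod 2)

/-- the functional of a dart -/
def F (d : V × V) (k : (D G).ker) : ZMod 2 := s (L G k.1) d.1 d.2

/-- the darts -/
def Dd : Finset (V × V) := Finset.univ.filter (fun d : V × V => G.Adj d.1 d.2)

/-- the set of functionals -/
def Φ : Finset ((D G).ker → ZMod 2) := (Dd G).image (F G s)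

variable {s}

theorem F_add (hs : Sys G s) {d : V × V} (hd : G.Adj d.1 d.2) (k k' : (D G).ker) :
    F G s d (k + k') = F G s d k + F G s d k' := by
  unfold F
  have : L G (k + k' : (D G).ker).1 = fun a b => L G k.1 a b + L G k'.1 a b := L_add G k.1 k'.1
  rw [this]
  exact hs.add _ _ (L_cyc G _ k.2) (L_cyc G _ k'.2) _ _ hd

/-- evaluation -/
def Ψ (hs : Sys G s) : (D G).ker →ₗ[ZMod 2] (Φ G s → ZMod 2) :=
  AddMonoidHom.toZModLinearMap 2
    (AddMonoidHom.mk' (fun k φ => φ.1 k) (by
      intro k k'
      funext φ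
      obtain ⟨φ, hφ⟩ := φ
      obtain ⟨d, hd, rfl⟩ := Finset.mem_image.1 hφ
      exact F_add G hs (Finset.mem_filter.1 hd).2 k k'))

theorem Ψ_apply (hs : Sys G s) (k : (D G).ker) (φ : Φ G s) : Ψ G hs k φ = φ.1 k := rfl

theorem mem_Φ {u v : V} (h : G.Adj u v) : F G s (u, v) ∈ Φ G s :=
  Finset.mem_image_of_mem _ (Finset.mem_filter.2 ⟨Finset.mem_univ _, h⟩)

/-- if the functional of every dart takes the same value at `k`, then `k = 0` -/
theorem k_zero (hs : Sys G s) (k : (D G).ker) (a : ZMod 2) (h : ∀ φ : Φ G s, φ.1 k = a) :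
    k = 0 := by
  apply Subtype.ext
  funext e
  obtain ⟨e, he⟩ := e
  induction e using Sym2.ind with
  | _ u v =>
    have huv : G.Adj u v := he
    have h1 := h ⟨_, mem_Φ G huv⟩
    have h2 := h ⟨_, mem_Φ G huv.symm⟩
    have h3 := hs.flip _ (L_cyc G _ k.2) u v huv
    unfold F at h1 h2
    simp only at h1 h2
    rw [h1, h2] at h3
    have h4 : ∀ a : ZMod 2, a + a = 0 := by decide
    rw [h4] at h3
    unfold L at h3
    rw [dif_pos huv] at h3
    exact h3.symm

theorem card_Φ (hs : Sys G s) (hne : (Φ G s).Nonempty) :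
    Module.finrank (ZMod 2) (D G).ker + 1 ≤ (Φ G s).card := by
  have hinj : Function.Injective (Ψ G hs) := by
    rw [← LinearMap.ker_eq_bot, LinearMap.ker_eq_bot']
    intro k hk
    exact k_zero G hs k 0 (fun φ => by
      have := congrFun hk φ
      exact this)
  have h1 := LinearMap.finrank_range_of_inj hinj
  have hne' : (Ψ G hs).range ≠ ⊤ := by
    intro htop
    rw [LinearMap.range_eq_top] at htop
    obtain ⟨k, hk⟩ := htop (fun _ => 1)
    have hk0 : k = 0 := k_zero G hs k 1 (fun φ => congrFun hk φ)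
    rw [hk0, map_zero] at hk
    obtain ⟨φ, hφ⟩ := hne
    have := congrFun hk ⟨φ, hφ⟩
    exact absurd this (by simp)
  have h2 := Submodule.finrank_lt hne'
  rw [Module.finrank_fintype_fun_eq_card, Fintype.card_coe] at h2
  omega

theorem card_Dd : (Dd G).card = 2 * G.edgeFinset.card := by
  rw [← G.sum_degrees_eq_twice_card_edges]
  unfold Dd
  rw [Finset.card_filter, Fintype.sum_prod_type]
  refine Finset.sum_congr rfl fun u _ => ?_
  rw [← Finset.card_filter, ← SimpleGraph.card_neighborFinset_eq_degree]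
  congr 1
  ext w
  simp

end

end T3bAux

open T3bAux in
theorem t3b : T3b := by
  classical
  intro V _ _ G s hs hdeg
  by_contra hno
  push Not at hno
  have h1 : 6 * (Φ G s).card ≤ (Dd G).card := by
    have := Finset.card_eq_sum_card_image (F G s) (Dd G)
    rw [this, mul_comm, ← smul_eq_mul, ← Finset.sum_const]
    refine Finset.sum_le_sum fun φ hφ => ?_
    obtain ⟨d, hd, rfl⟩ := Finset.mem_image.1 hφ
    have hadj : G.Adj d.1 d.2 := (Finset.mem_filter.1 hd).2
    refine le_trans (show 6 ≤ _ from hno d.1 d.2 hadj) (Finset.card_le_card ?_)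
    intro d' hd'
    rw [Finset.mem_filter] at hd'
    refine Finset.mem_filter.2 ⟨Finset.mem_filter.2 ⟨Finset.mem_univ _, hd'.2.1⟩, ?_⟩
    funext k
    exact hd'.2.2 _ (L_cyc G _ k.2)
  have hne : (Φ G s).Nonempty := by
    obtain ⟨v⟩ := (inferInstance : Nonempty V)
    have := hdeg v
    rw [← SimpleGraph.card_neighborFinset_eq_degree] at this
    obtain ⟨w, hw⟩ := Finset.card_pos.1 (by omega : 0 < (G.neighborFinset v).card)
    exact ⟨_, mem_Φ G ((SimpleGraph.mem_neighborFinset _ _ _).1 hw)⟩
  have h2 := card_Φ G hs hne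
  have h3 := finrank_K G
  have h4 := card_Dd G
  have h5 : 3 * Fintype.card V ≤ 2 * G.edgeFinset.card := by
    rw [← G.sum_degrees_eq_twice_card_edges, mul_comm, ← smul_eq_mul, ← Finset.card_univ,
      ← Finset.sum_const]
    refine Finset.sum_le_sum fun v _ => ?_
    convert hdeg v
  omega

end Pool.Agent.Run7.h215
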