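import Pool.Agent.Run7.h215.Iface

/-!
# T4: the ear lemma in 3-connected graphs (MP_8ffccf_co)
-/

set_option autoImplicit false

namespace Pool.Agent.Run7.h215

namespace EarAux

open Relation

variable {V : Type} (G : SimpleGraph V)

/-- reachability inside the set `X` -/
def Rch (X : Set V) : V → V → Prop := ReflTransGen (fun a b => a ∈ X ∧ b ∈ X ∧ G.Adj a b)

variable {G}

lemma Rch.symm {X : Set V} {a b : V} (h : Rch G X a b) : Rch G X b a := by
  induction h with
  | refl => exact ReflTransGen.refl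
  | tail _ h2 ih => exact ReflTransGen.head ⟨h2.2.1, h2.1, h2.2.2.symm⟩ ih

lemma Rch.trans {X : Set V} {a b c : V} (h : Rch G X a b) (h' : Rch G X b c) : Rch G X a c :=
  ReflTransGen.trans h h'

lemma Rch.mono {X Y : Set V} (hXY : X ⊆ Y) {a b : V} (h : Rch G X a b) : Rch G Y a b :=
  ReflTransGen.mono (fun _ _ h => ⟨hXY h.1, hXY h.2.1, h.2.2⟩) _ _ h

lemma Rch.mem {X : Set V} {a b : V} (h : Rch G X a b) (ha : a ∈ X) : b ∈ X := by
  induction h with
  | refl => exact ha
  | tail _ h2 _ => exact h2.2.1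

lemma Rch.step {X : Set V} {a b c : V} (h : Rch G X a b) (ha : a ∈ X) (hc : c ∈ X)
    (hbc : G.Adj b c) : Rch G X a c :=
  ReflTransGen.tail h ⟨h.mem ha, hc, hbc⟩

/-- reachability inside a set restricted to a part closed under steps -/
lemma Rch.restrict {X Y : Set V} {a b : V} (h : Rch G X a b) (haY : a ∈ Y)
    (hY : ∀ x ∈ X, x ∈ Y → ∀ y ∈ X, G.Adj x y → y ∈ Y) : Rch G (X ∩ Y) a b ∧ b ∈ Y := by
  induction h with
  | refl => exact ⟨ReflTransGen.refl, haY⟩
  | tail h1 h2 ih =>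
    have hy := hY _ h2.1 ih.2 _ h2.2.1 h2.2.2
    exact ⟨ReflTransGen.tail ih.1 ⟨⟨h2.1, ih.2⟩, ⟨h2.2.1, hy⟩, h2.2.2⟩, hy⟩

lemma connected_iff (X : Set V) :
    (G.induce X).Connected ↔ X.Nonempty ∧ ∀ a ∈ X, ∀ b ∈ X, Rch G X a b := by
  constructor
  · intro h
    obtain ⟨⟨x, hx⟩⟩ := h.nonempty
    refine ⟨⟨x, hx⟩, fun a ha b hb => ?_⟩
    have h1 := h.preconnected ⟨a, ha⟩ ⟨b, hb⟩
    rw [SimpleGraph.reachable_iff_reflTransGen] at h1
    have h2 := ReflTransGen.lift (r := (G.induce X).Adj)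
      (p := fun a b => a ∈ X ∧ b ∈ X ∧ G.Adj a b) (fun z : X => (z : V))
      (fun z w hzw => ⟨z.2, w.2, hzw⟩) _ _ h1
    exact h2
  · rintro ⟨⟨x, hx⟩, h⟩
    have key : ∀ a b, Rch G X a b → ∀ ha : a ∈ X, ∃ hb : b ∈ X,
        (G.induce X).Reachable ⟨a, ha⟩ ⟨b, hb⟩ := by
      intro a b hab ha
      induction hab with
      | refl => exact ⟨ha, SimpleGraph.Reachable.refl _⟩
      | tail _ h2 ih =>
        obtain ⟨hb, hr⟩ := ih
        refine ⟨h2.2.1, hr.trans (SimpleGraph.Adj.reachable ?_)⟩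
        exact h2.2.2
    have : Nonempty X := ⟨⟨x, hx⟩⟩
    refine SimpleGraph.Connected.mk (fun a b => ?_)
    obtain ⟨_, hr⟩ := key a b (h a a.2 b b.2) a.2
    exact hr

section Sep

variable [Fintype V]

lemma sep (h3 : ThreeConnected G) (X : Set V) (T : Finset V) (hT : T.card ≤ 2) (x y : V)
    (hx : x ∈ X) (hxT : x ∉ T) (hy : y ∉ X) (hyT : y ∉ T)
    (hX : ∀ a ∈ X, ∀ b, G.Adj a b → b ∈ X ∨ b ∈ T) : False := by
  have h := ((connected_iff _).1 (h3.2 T hT)).2 x hxT y hyT
  have h2 := h.restrict (Y := X) hx (fun a _ haX b hb hab => by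
    rcases hX a haX b hab with h | h
    · exact h
    · exact absurd h hb)
  exact hy h2.2

end Sep

/-- a path in `X` from reachability -/
lemma path_of_rch {X : Set V} {x y : V} (h : Rch G X x y) (hx : x ∈ X) :
    ∃ (k : ℕ) (v : ℕ → V), 1 ≤ k ∧ v 0 = x ∧ v (k - 1) = y ∧ (∀ i < k, v i ∈ X) ∧
      ∀ i, i + 1 < k → G.Adj (v i) (v (i + 1)) := by
  induction h with
  | refl => exact ⟨1, fun _ => x, le_refl _, rfl, rfl, fun _ _ => hx, fun i hi => by omega⟩
  | @tail b c _ h2 ih =>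
    obtain ⟨k, v, hk, h0, h1, hX, hadj⟩ := ih
    refine ⟨k + 1, fun n => if n < k then v n else c, by omega, ?_, ?_, ?_, ?_⟩
    · try simp only
      rw [if_pos (by omega)]; exact h0
    · try simp only
      rw [if_neg (by omega)]
    · intro i _
      try simp only
      split
      · rename_i hik; exact hX i hik
      · exact h2.2.1
    · intro i hi
      try simp only
      rw [if_pos (by omega)]
      by_cases hi' : i + 1 < k
      · rw [if_pos hi']; exact hadj i hi'
      · rw [if_neg hi']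
        have : i = k - 1 := by omega
        rw [this, h1]; exact h2.2.2

set_option linter.unusedSectionVars false

variable [Fintype V] [DecidableEq V]

/-- an admissible path (not necessarily shortest) -/
structure Good (G : SimpleGraph V) (S : Finset V) (a3 : V) (k : ℕ) (v : ℕ → V) (s s' : V) :
    Prop where
  pos : 1 ≤ k
  out : ∀ i < k, v i ∉ S ∧ v i ≠ a3
  adj : ∀ i, i + 1 < k → G.Adj (v i) (v (i + 1))
  hs : s ∈ S
  hs' : s' ∈ S
  ne : s ≠ s'
  a0 : G.Adj (v 0) s
  a1 : G.Adj (v (k - 1)) s'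

/-- vertices of the path -/
def Q (k : ℕ) (v : ℕ → V) : Set V := {x | ∃ i < k, v i = x}

/-- vertices outside `S` and the path -/
def Fr (S : Finset V) (k : ℕ) (v : ℕ → V) : Set V := {x | x ∉ S ∧ x ∉ Q k v}

/-- the component of `a3` -/
def A (G : SimpleGraph V) (S : Finset V) (a3 : V) (k : ℕ) (v : ℕ → V) : Set V :=
  {x | Rch G (Fr S k v) a3 x}

lemma good_of_rch {S : Finset V} {a3 : V} {X : Set V} (hX : ∀ x ∈ X, x ∉ S ∧ x ≠ a3) {x y : V}
    (hx : x ∈ X) (hr : Rch G X x y) {t t' : V} (ht : t ∈ S) (ht' : t' ∈ S) (hne : t ≠ t')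
    (hxt : G.Adj x t) (hyt : G.Adj y t') :
    ∃ k v, Good G S a3 k v t t' ∧ ∀ i < k, v i ∈ X := by
  obtain ⟨k, v, hk, h0, h1, hX', hadj⟩ := path_of_rch hr hx
  exact ⟨k, v, ⟨hk, fun i hi => hX _ (hX' i hi), hadj, ht, ht', hne, by rw [h0]; exact hxt,
    by rw [h1]; exact hyt⟩, hX'⟩

lemma exists_good (h3 : ThreeConnected G) {S : Finset V} {a3 : V} (ha3 : a3 ∉ S)
    (hS : 2 ≤ S.card) {u : V} (hu : u ∉ S) (hu3 : u ≠ a3) :
    ∃ k v s s', Good G S a3 k v s s' := by
  set U : Set V := {x | x ∉ S ∧ x ≠ a3} with hU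
  have huU : u ∈ U := ⟨hu, hu3⟩
  set K : Set V := {x | Rch G U u x} with hK
  have hKU : ∀ x ∈ K, x ∈ U := fun x hx => Rch.mem hx huU
  by_contra hno
  have huniq : ∀ x ∈ K, ∀ y ∈ K, ∀ s ∈ S, ∀ s' ∈ S, G.Adj x s → G.Adj y s' → s = s' := by
    intro x hx y hy s hs s' hs' hxs hys
    by_contra hne
    obtain ⟨k, v, hg, _⟩ := good_of_rch (S := S) (a3 := a3) (X := U) (fun x hx => hx)
      (hKU x hx) ((Rch.symm hx).trans hy) hs hs' hne hxs hys
    exact hno ⟨k, v, s, s', hg⟩
  obtain ⟨s0, hs0, hs0'⟩ : ∃ s0 ∈ S, ∀ x ∈ K, ∀ s ∈ S, G.Adj x s → s = s0 := by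
    by_cases h : ∃ x ∈ K, ∃ s ∈ S, G.Adj x s
    · obtain ⟨x, hx, s, hs, hxs⟩ := h
      exact ⟨s, hs, fun y hy s' hs' hys => huniq y hy x hx s' hs' s hs hys hxs⟩
    · obtain ⟨s, hs⟩ : S.Nonempty := Finset.card_pos.1 (by omega)
      exact ⟨s, hs, fun y hy s' hs' hys => absurd ⟨y, hy, s', hs', hys⟩ h⟩
  obtain ⟨z, hz, hzne⟩ := Finset.exists_mem_ne (by omega : 1 < S.card) s0
  refine sep h3 K {a3, s0} (Finset.card_le_two) u z ReflTransGen.refl ?_ ?_ ?_ ?_
  · simp only [Finset.mem_insert, Finset.mem_singleton, not_or]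
    exact ⟨hu3, fun h => hu (h ▸ hs0)⟩
  · intro hzK; exact (hKU z hzK).1 hz
  · simp only [Finset.mem_insert, Finset.mem_singleton, not_or]
    exact ⟨fun h => ha3 (h ▸ hz), hzne⟩
  · intro a ha b hab
    by_cases hbS : b ∈ S
    · right
      rw [hs0' a ha b hbS hab]
      simp
    · by_cases hb3 : b = a3
      · right; simp [hb3]
      · left
        exact Rch.step ha huU ⟨hbS, hb3⟩ hab

open Classical in
/-- the extremal choice -/
lemma exists_ext (h3 : ThreeConnected G) {S : Finset V} {a3 : V} (ha3 : a3 ∉ S)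
    (hS : 2 ≤ S.card) {u : V} (hu : u ∉ S) (hu3 : u ≠ a3) :
    ∃ k v s s', Good G S a3 k v s s' ∧
      (∀ k' v' t t', Good G S a3 k' v' t t' → (A G S a3 k' v').ncard ≤ (A G S a3 k v).ncard) ∧
      (∀ k' v' t t', Good G S a3 k' v' t t' → (A G S a3 k' v').ncard = (A G S a3 k v).ncard →
        k ≤ k') := by
  set P : ℕ → Prop := fun n => ∃ k v s s', Good G S a3 k v s s' ∧ (A G S a3 k v).ncard = n with hP
  have hbd : ∀ n, P n → n ≤ Fintype.card V := by
    rintro n ⟨k, v, s, s', _, rfl⟩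
    calc (A G S a3 k v).ncard ≤ (Set.univ : Set V).ncard :=
          Set.ncard_le_ncard (Set.subset_univ _) (Set.toFinite _)
      _ = Fintype.card V := by rw [Set.ncard_univ, Nat.card_eq_fintype_card]
  obtain ⟨k0, v0, s0, s0', hg0⟩ := exists_good h3 ha3 hS hu hu3
  have hP0 : P (A G S a3 k0 v0).ncard := ⟨k0, v0, s0, s0', hg0, rfl⟩
  set n0 := Nat.findGreatest P (Fintype.card V) with hn0
  have hPn0 : P n0 := Nat.findGreatest_spec (hbd _ hP0) hP0
  have hmax : ∀ n, P n → n ≤ n0 := fun n hn => Nat.le_findGreatest (hbd n hn) hn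
  have hex : ∃ k, ∃ v s s', Good G S a3 k v s s' ∧ (A G S a3 k v).ncard = n0 := by
    obtain ⟨k, v, s, s', h⟩ := hPn0
    exact ⟨k, v, s, s', h⟩
  obtain ⟨v, s, s', hg, hn⟩ := Nat.find_spec hex
  refine ⟨Nat.find hex, v, s, s', hg, ?_, ?_⟩
  · intro k' v' t t' hg'
    rw [hn]
    exact hmax _ ⟨k', v', t, t', hg', rfl⟩
  · intro k' v' t t' hg' he
    exact Nat.find_min' hex ⟨v', t, t', hg', he.trans hn⟩

/-! ### The configuration -/

/-- an extremal path -/
structure Cfg (G : SimpleGraph V) (S : Finset V) (a3 : V) (k : ℕ) (v : ℕ → V) (s s' : V) :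
    Prop where
  good : Good G S a3 k v s s'
  ha3 : a3 ∉ S
  hmax : ∀ k' v' t t', Good G S a3 k' v' t t' →
    (A G S a3 k' v').ncard ≤ (A G S a3 k v).ncard
  hmin : ∀ k' v' t t', Good G S a3 k' v' t t' →
    (A G S a3 k' v').ncard = (A G S a3 k v).ncard → k ≤ k'

lemma a3_mem_Fr {S : Finset V} {a3 : V} (ha3 : a3 ∉ S) {k : ℕ} {v : ℕ → V} {s s' : V}
    (hg : Good G S a3 k v s s') : a3 ∈ Fr S k v :=
  ⟨ha3, fun ⟨i, hi, h⟩ => (hg.out i hi).2 h⟩

lemma A_sub_Fr {S : Finset V} {a3 : V} {k : ℕ} {v : ℕ → V} (h3 : a3 ∈ Fr S k v) :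
    ∀ x ∈ A G S a3 k v, x ∈ Fr S k v := fun _ hx => Rch.mem hx h3

lemma A_step {S : Finset V} {a3 : V} {k : ℕ} {v : ℕ → V} (h3 : a3 ∈ Fr S k v) {a z : V}
    (ha : a ∈ A G S a3 k v) (haz : G.Adj a z) (hz : z ∈ Fr S k v) : z ∈ A G S a3 k v :=
  Rch.step ha h3 hz haz

/-- the component only grows when the path shrinks away from it -/
lemma A_mono {S : Finset V} {a3 : V} {k k' : ℕ} {v v' : ℕ → V} (h3 : a3 ∈ Fr S k v)
    (hdis : ∀ x ∈ A G S a3 k v, x ∉ Q k' v') : A G S a3 k v ⊆ A G S a3 k' v' := by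
  intro x hx
  have h := Rch.restrict (Y := A G S a3 k v) hx ReflTransGen.refl
    (fun a _ haA b hb hab => A_step h3 haA hab hb)
  exact Rch.mono (X := Fr S k v ∩ A G S a3 k v) (Y := Fr S k' v')
    (fun y hy => ⟨hy.1.1, hdis y hy.2⟩) h.1

section CfgLemmas

variable {S : Finset V} {a3 : V} {k : ℕ} {v : ℕ → V} {s s' : V}

lemma Cfg.h3 (c : Cfg G S a3 k v s s') : a3 ∈ Fr S k v := a3_mem_Fr c.ha3 c.good

lemma Cfg.shorter (c : Cfg G S a3 k v s s') {k' : ℕ} {v' : ℕ → V} {t t' : V}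
    (hg : Good G S a3 k' v' t t') (hsub : ∀ i < k', v' i ∈ Q k v) : k ≤ k' := by
  have hsub' : A G S a3 k v ⊆ A G S a3 k' v' := A_mono c.h3 (by
    rintro x hx ⟨i, hi, rfl⟩
    exact (A_sub_Fr c.h3 _ hx).2 (hsub i hi))
  exact c.hmin _ _ _ _ hg (le_antisymm (c.hmax _ _ _ _ hg)
    (Set.ncard_le_ncard hsub' (Set.toFinite _)))

lemma Cfg.no_better (c : Cfg G S a3 k v s s') (X : Set V) (hX : ∀ x ∈ X, x ∉ S ∧ x ≠ a3)
    (hXA : ∀ x ∈ X, x ∉ A G S a3 k v) {x y : V} (hx : x ∈ X) (hr : Rch G X x y) {t t' : V}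
    (ht : t ∈ S) (ht' : t' ∈ S) (hne : t ≠ t') (hxt : G.Adj x t) (hyt : G.Adj y t')
    {z : V} (hzX : z ∉ X) (hzS : z ∉ S) (hzA : z ∉ A G S a3 k v) {a : V}
    (ha : a ∈ A G S a3 k v) : ¬ G.Adj a z := by
  intro haz
  obtain ⟨k', v', hg, hsub⟩ := good_of_rch hX hx hr ht ht' hne hxt hyt
  have h3' : a3 ∈ Fr S k' v' := a3_mem_Fr c.ha3 hg
  have hsub' : A G S a3 k v ⊆ A G S a3 k' v' := A_mono c.h3 (by
    rintro x hx ⟨i, hi, rfl⟩
    exact hXA _ (hsub i hi) hx)
  have hz : z ∈ A G S a3 k' v' := A_step h3' (hsub' ha) haz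
    ⟨hzS, fun ⟨i, hi, h⟩ => hzX (h ▸ hsub i hi)⟩
  have h1 : insert z (A G S a3 k v) ⊆ A G S a3 k' v' := Set.insert_subset hz hsub'
  have h2 := Set.ncard_le_ncard h1 (Set.toFinite _)
  rw [Set.ncard_insert_of_notMem hzA (Set.toFinite _)] at h2
  have h4 := c.hmax _ _ _ _ hg
  omega

lemma Cfg.v_not_A (c : Cfg G S a3 k v s s') {m : ℕ} (hm : m < k) : v m ∉ A G S a3 k v :=
  fun h => (A_sub_Fr c.h3 _ h).2 ⟨m, hm, rfl⟩

lemma Cfg.inj (c : Cfg G S a3 k v s s') : ∀ i j, i < j → j < k → v i ≠ v j := by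
  intro i j hij hj he
  have hg : Good G S a3 (k - (j - i)) (fun n => if n < i then v n else v (n + (j - i))) s s' := by
    refine ⟨by omega, ?_, ?_, c.good.hs, c.good.hs', c.good.ne, ?_, ?_⟩
    · intro n hn
      try simp only
      split
      · exact c.good.out _ (by omega)
      · exact c.good.out _ (by omega)
    · intro n hn
      try simp only
      by_cases h1 : n + 1 < i
      · rw [if_pos (by omega), if_pos h1]; exact c.good.adj n (by omega)
      · by_cases h2 : n < i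
        · rw [if_pos h2, if_neg h1]
          have h3 : n + 1 = i := by omega
          have h4 : n + 1 + (j - i) = j := by omega
          rw [h4, ← he, ← h3]
          exact c.good.adj n (by omega)
        · rw [if_neg h2, if_neg h1]
          have h4 : n + 1 + (j - i) = (n + (j - i)) + 1 := by omega
          rw [h4]
          exact c.good.adj _ (by omega)
    · try simp only
      split
      · exact c.good.a0
      · have h4 : 0 + (j - i) = j := by omega
        have h5 : i = 0 := by omega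
        rw [h4, ← he, h5]; exact c.good.a0
    · try simp only
      rw [if_neg (by omega)]
      have h4 : k - (j - i) - 1 + (j - i) = k - 1 := by omega
      rw [h4]; exact c.good.a1
  have := c.shorter hg (by
    intro n hn
    try simp only
    split
    · exact ⟨n, by omega, rfl⟩
    · exact ⟨n + (j - i), by omega, rfl⟩)
  omega

lemma Cfg.inj' (c : Cfg G S a3 k v s s') {i j : ℕ} (hi : i < k) (hj : j < k) (h : v i = v j) :
    i = j := by
  rcases lt_trichotomy i j with h1 | h1 | h1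
  · exact absurd h (c.inj i j h1 hj)
  · exact h1
  · exact absurd h.symm (c.inj j i h1 hi)

lemma Cfg.induced (c : Cfg G S a3 k v s s') : ∀ i j, i + 1 < j → j < k → ¬ G.Adj (v i) (v j) := by
  intro i j hij hj he
  have hg : Good G S a3 (k - (j - i - 1))
      (fun n => if n ≤ i then v n else v (n + (j - i - 1))) s s' := by
    refine ⟨by omega, ?_, ?_, c.good.hs, c.good.hs', c.good.ne, ?_, ?_⟩
    · intro n hn
      try simp only
      split
      · exact c.good.out _ (by omega)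
      · exact c.good.out _ (by omega)
    · intro n hn
      try simp only
      by_cases h1 : n + 1 ≤ i
      · rw [if_pos (by omega), if_pos h1]; exact c.good.adj n (by omega)
      · by_cases h2 : n ≤ i
        · rw [if_pos h2, if_neg h1]
          have h3 : n = i := by omega
          have h4 : n + 1 + (j - i - 1) = j := by omega
          rw [h4, h3]
          exact he
        · rw [if_neg h2, if_neg h1]
          have h4 : n + 1 + (j - i - 1) = (n + (j - i - 1)) + 1 := by omega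
          rw [h4]
          exact c.good.adj _ (by omega)
    · try simp only
      rw [if_pos (by omega)]
      exact c.good.a0
    · try simp only
      rw [if_neg (by omega)]
      have h4 : k - (j - i - 1) - 1 + (j - i - 1) = k - 1 := by omega
      rw [h4]; exact c.good.a1
  have := c.shorter hg (by
    intro n hn
    try simp only
    split
    · exact ⟨n, by omega, rfl⟩
    · exact ⟨n + (j - i - 1), by omega, rfl⟩)
  omega

/-- neighbours on the path are consecutive -/
lemma Cfg.nbr (c : Cfg G S a3 k v s s') {i j : ℕ} (hi : i < k) (hj : j < k)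
    (h : G.Adj (v i) (v j)) : i = j + 1 ∨ j = i + 1 := by
  rcases lt_trichotomy i j with h1 | h1 | h1
  · by_contra h2
    exact c.induced i j (by omega) hj h
  · subst h1; exact absurd h (G.loopless.irrefl _)
  · by_contra h2
    exact c.induced j i (by omega) hi h.symm

/-- an `S`-neighbour of `v i` different from `s` occurs only for the last vertex -/
lemma Cfg.snbr0 (c : Cfg G S a3 k v s s') {i : ℕ} (hi : i < k) {t : V} (ht : t ∈ S)
    (h : G.Adj (v i) t) (hts : t ≠ s) : i = k - 1 := by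
  have hg : Good G S a3 (i + 1) v s t := by
    refine ⟨by omega, fun n hn => c.good.out n (by omega), fun n hn => c.good.adj n (by omega),
      c.good.hs, ht, fun h => hts h.symm, c.good.a0, ?_⟩
    simpa using h
  have := c.shorter hg (fun n hn => ⟨n, by omega, rfl⟩)
  omega

/-- an `S`-neighbour of `v i` different from `s'` occurs only for the first vertex -/
lemma Cfg.snbr1 (c : Cfg G S a3 k v s s') {i : ℕ} (hi : i < k) {t : V} (ht : t ∈ S)
    (h : G.Adj (v i) t) (hts : t ≠ s') : i = 0 := by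
  have hg : Good G S a3 (k - i) (fun n => v (i + n)) t s' := by
    refine ⟨by omega, fun n hn => c.good.out _ (by omega), fun n hn => ?_,
      ht, c.good.hs', hts, ?_, ?_⟩
    · exact c.good.adj (i + n) (by omega)
    · simpa using h
    · have h4 : i + (k - i - 1) = k - 1 := by omega
      simp only [h4]; exact c.good.a1
  have := c.shorter hg (fun n hn => ⟨i + n, by omega, rfl⟩)
  omega

/-- reversal -/
lemma Q_rev (k : ℕ) (v : ℕ → V) : Q k (fun n => v (k - 1 - n)) = Q k v := by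
  ext x
  constructor
  · rintro ⟨i, hi, rfl⟩
    exact ⟨k - 1 - i, by omega, rfl⟩
  · rintro ⟨i, hi, rfl⟩
    refine ⟨k - 1 - i, by omega, ?_⟩
    have : k - 1 - (k - 1 - i) = i := by omega
    simp only [this]

lemma Fr_rev (S : Finset V) (k : ℕ) (v : ℕ → V) :
    Fr S k (fun n => v (k - 1 - n)) = Fr S k v := by
  unfold Fr; rw [Q_rev]

lemma A_rev (S : Finset V) (a3 : V) (k : ℕ) (v : ℕ → V) :
    A G S a3 k (fun n => v (k - 1 - n)) = A G S a3 k v := by
  unfold A; rw [Fr_rev]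

lemma Cfg.rev (c : Cfg G S a3 k v s s') : Cfg G S a3 k (fun n => v (k - 1 - n)) s' s := by
  refine ⟨⟨c.good.pos, fun i hi => c.good.out _ (by have := c.good.pos; omega), fun i hi => ?_,
    c.good.hs', c.good.hs, c.good.ne.symm, ?_, ?_⟩, c.ha3, ?_, ?_⟩
  · have h4 : k - 1 - i = (k - 1 - (i + 1)) + 1 := by omega
    simp only [h4]
    exact (c.good.adj (k - 1 - (i + 1)) (by omega)).symm
  · simpa using c.good.a1
  · have h4 : k - 1 - (k - 1) = 0 := by omega
    simp only [h4]; exact c.good.a0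
  · intro k' v' t t' hg
    rw [A_rev]; exact c.hmax _ _ _ _ hg
  · intro k' v' t t' hg
    rw [A_rev]; exact c.hmin _ _ _ _ hg

/-- the component of `x` has the neighbour `v m` -/
def HB (G : SimpleGraph V) (S : Finset V) (k : ℕ) (v : ℕ → V) (x : V) (m : ℕ) : Prop :=
  ∃ y, Rch G (Fr S k v) x y ∧ G.Adj y (v m)

/-- `v m` has a neighbour in the component of `a3` -/
def HA (G : SimpleGraph V) (S : Finset V) (a3 : V) (k : ℕ) (v : ℕ → V) (m : ℕ) : Prop :=
  ∃ a ∈ A G S a3 k v, G.Adj a (v m)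

lemma HB_rev {x : V} {m : ℕ} :
    HB G S k (fun n => v (k - 1 - n)) x m ↔ HB G S k v x (k - 1 - m) := by
  unfold HB; rw [Fr_rev]

lemma HA_rev {m : ℕ} :
    HA G S a3 k (fun n => v (k - 1 - n)) m ↔ HA G S a3 k v (k - 1 - m) := by
  unfold HA; rw [A_rev]

/-- the component of `x` -/
def Co (G : SimpleGraph V) (S : Finset V) (k : ℕ) (v : ℕ → V) (x : V) : Set V :=
  {y | Rch G (Fr S k v) x y}

lemma Co_Fr {x y : V} (hx : x ∈ Fr S k v) (hy : y ∈ Co G S k v x) : y ∈ Fr S k v :=
  Rch.mem hy hx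

lemma Co_notA {x y : V} (hxA : x ∉ A G S a3 k v) (hy : y ∈ Co G S k v x) :
    y ∉ A G S a3 k v := fun h => hxA (Rch.trans h (Rch.symm hy))

lemma Co_conn {x y z : V} (hx : x ∈ Fr S k v) (hy : y ∈ Co G S k v x) (hz : z ∈ Co G S k v x) :
    Rch G (Co G S k v x) y z := by
  have h : Rch G (Fr S k v) y z := Rch.trans (Rch.symm hy) hz
  have h2 := Rch.restrict (Y := Co G S k v x) h hy
    (fun a _ haY b hb hab => Rch.step haY hx hb hab)
  exact Rch.mono (X := Fr S k v ∩ Co G S k v x) (Y := Co G S k v x) (fun _ h => h.2) h2.1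

lemma Co_X (_c : Cfg G S a3 k v s s') {x : V} (hx : x ∈ Fr S k v) (hxA : x ∉ A G S a3 k v)
    {y : V} (hy : y ∈ Co G S k v x) : (y ∉ S ∧ y ≠ a3) ∧ y ∉ A G S a3 k v :=
  ⟨⟨(Co_Fr hx hy).1, fun h => Co_notA hxA hy (h ▸ ReflTransGen.refl)⟩, Co_notA hxA hy⟩

lemma Cfg.exHA (c : Cfg G S a3 k v s s') (hU : (G.induce {v | v ∉ S}).Connected) :
    ∃ m < k, HA G S a3 k v m := by
  by_contra hno
  have h0 := c.good.pos
  have h := ((connected_iff _).1 hU).2 a3 c.ha3 (v 0) (c.good.out 0 (by omega)).1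
  have h2 := Rch.restrict (Y := A G S a3 k v) h ReflTransGen.refl (fun a _ haA b hb hab => by
    by_cases hbQ : b ∈ Q k v
    · obtain ⟨m, hm, rfl⟩ := hbQ
      exact absurd ⟨m, hm, a, haA, hab⟩ hno
    · exact A_step c.h3 haA hab ⟨hb, hbQ⟩)
  exact c.v_not_A (by omega) h2.2

lemma Cfg.uniqS (c : Cfg G S a3 k v s s') (hA : ∃ m < k, HA G S a3 k v m) {x : V}
    (hx : x ∈ Fr S k v) (hxA : x ∉ A G S a3 k v) {y y' t t' : V} (hy : y ∈ Co G S k v x)
    (hy' : y' ∈ Co G S k v x) (ht : t ∈ S) (ht' : t' ∈ S) (hyt : G.Adj y t)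
    (hyt' : G.Adj y' t') : t = t' := by
  by_contra hne
  obtain ⟨m, hm, a, ha, ham⟩ := hA
  refine c.no_better (Co G S k v x) (fun z hz => (Co_X c hx hxA hz).1)
    (fun z hz => (Co_X c hx hxA hz).2) hy (Co_conn hx hy hy') ht ht' hne hyt hyt' (z := v m) ?_
    (c.good.out m hm).1 (c.v_not_A hm) ha ham
  intro h
  exact (Co_Fr hx h).2 ⟨m, hm, rfl⟩

lemma Cfg.walk (c : Cfg G S a3 k v s s') (X : Set V) {a b : ℕ} (hab : a ≤ b) (hb : b < k)
    (hX : ∀ n, a ≤ n → n ≤ b → v n ∈ X) : Rch G X (v a) (v b) := by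
  induction b, hab using Nat.le_induction with
  | base => exact ReflTransGen.refl
  | succ n hn ih =>
    exact Rch.step (ih (by omega) (fun m h1 h2 => hX m h1 (by omega))) (hX a le_rfl (by omega))
      (hX (n + 1) (by omega) le_rfl) (c.good.adj n hb)

/-- (1) -/
lemma Cfg.mid (c : Cfg G S a3 k v s s') {x : V} (hx : x ∈ Fr S k v) (hxA : x ∉ A G S a3 k v)
    {i j m : ℕ} (hi : HB G S k v x i) (hj : HB G S k v x j) (him : i < m) (hmj : m < j)
    (hjk : j < k) : ¬ HA G S a3 k v m := by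
  rintro ⟨a, ha, ham⟩
  obtain ⟨yi, hyi, hyi'⟩ := hi
  obtain ⟨yj, hyj, hyj'⟩ := hj
  set X : Set V := {z | z ∈ Co G S k v x ∨ ∃ n < k, (n ≤ i ∨ j ≤ n) ∧ v n = z} with hXdef
  have hCX : Co G S k v x ⊆ X := fun z hz => Or.inl hz
  have hvX : ∀ n, n < k → (n ≤ i ∨ j ≤ n) → v n ∈ X := fun n h1 h2 => Or.inr ⟨n, h1, h2, rfl⟩
  have h1 : Rch G X (v 0) (v i) := c.walk X (Nat.zero_le _) (by omega)
    (fun n _ hn => hvX n (by omega) (Or.inl hn))
  have h2 : Rch G X (v i) yi := Rch.step ReflTransGen.refl (hvX i (by omega) (Or.inl le_rfl))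
    (hCX hyi) hyi'.symm
  have h3 : Rch G X yi yj := Rch.mono hCX (Co_conn hx hyi hyj)
  have h4 : Rch G X yj (v j) := Rch.step ReflTransGen.refl (hCX hyj)
    (hvX j hjk (Or.inr le_rfl)) hyj'
  have h5 : Rch G X (v j) (v (k - 1)) := c.walk X (by omega) (by omega)
    (fun n hn hn' => hvX n (by omega) (Or.inr hn))
  refine c.no_better X ?_ ?_ (hvX 0 (by omega) (Or.inl (Nat.zero_le _)))
    ((((h1.trans h2).trans h3).trans h4).trans h5) c.good.hs c.good.hs' c.good.ne c.good.a0
    c.good.a1 (z := v m) ?_ (c.good.out m (by omega)).1 (c.v_not_A (by omega)) ha ham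
  · rintro z (hz | ⟨n, hn, _, rfl⟩)
    · exact (Co_X c hx hxA hz).1
    · exact c.good.out n hn
  · rintro z (hz | ⟨n, hn, _, rfl⟩)
    · exact (Co_X c hx hxA hz).2
    · exact c.v_not_A hn
  · rintro (hz | ⟨n, hn, hn', he⟩)
    · exact (Co_Fr hx hz).2 ⟨m, by omega, rfl⟩
    · have := c.inj' hn (by omega : m < k) he
      omega

/-- (2) -/
lemma Cfg.sideL (c : Cfg G S a3 k v s s') {x : V} (hx : x ∈ Fr S k v)
    (hxA : x ∉ A G S a3 k v) {y t : V} (hy : y ∈ Co G S k v x) (ht : t ∈ S) (hyt : G.Adj y t)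
    (hts : t ≠ s) {i m : ℕ} (hi : HB G S k v x i) (him : i < m) (hmk : m < k) :
    ¬ HA G S a3 k v m := by
  rintro ⟨a, ha, ham⟩
  obtain ⟨yi, hyi, hyi'⟩ := hi
  set X : Set V := {z | z ∈ Co G S k v x ∨ ∃ n < k, n ≤ i ∧ v n = z} with hXdef
  have hCX : Co G S k v x ⊆ X := fun z hz => Or.inl hz
  have hvX : ∀ n, n < k → n ≤ i → v n ∈ X := fun n h1 h2 => Or.inr ⟨n, h1, h2, rfl⟩
  have h1 : Rch G X (v 0) (v i) := c.walk X (Nat.zero_le _) (by omega)
    (fun n _ hn => hvX n (by omega) hn)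
  have h2 : Rch G X (v i) yi := Rch.step ReflTransGen.refl (hvX i (by omega) le_rfl)
    (hCX hyi) hyi'.symm
  have h3 : Rch G X yi y := Rch.mono hCX (Co_conn hx hyi hy)
  refine c.no_better X ?_ ?_ (hvX 0 (by omega) (Nat.zero_le _))
    ((h1.trans h2).trans h3) c.good.hs ht hts.symm c.good.a0
    hyt (z := v m) ?_ (c.good.out m (by omega)).1 (c.v_not_A (by omega)) ha ham
  · rintro z (hz | ⟨n, hn, _, rfl⟩)
    · exact (Co_X c hx hxA hz).1
    · exact c.good.out n hn
  · rintro z (hz | ⟨n, hn, _, rfl⟩)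
    · exact (Co_X c hx hxA hz).2
    · exact c.v_not_A hn
  · rintro (hz | ⟨n, hn, hn', he⟩)
    · exact (Co_Fr hx hz).2 ⟨m, by omega, rfl⟩
    · have := c.inj' hn (by omega : m < k) he
      omega

lemma Cfg.sideR (c : Cfg G S a3 k v s s') {x : V} (hx : x ∈ Fr S k v)
    (hxA : x ∉ A G S a3 k v) {y t : V} (hy : y ∈ Co G S k v x) (ht : t ∈ S) (hyt : G.Adj y t)
    (hts : t ≠ s') {j m : ℕ} (hj : HB G S k v x j) (hmj : m < j) (hjk : j < k) :
    ¬ HA G S a3 k v m := by
  have h := c.rev.sideL (x := x) (y := y) (t := t) (i := k - 1 - j) (m := k - 1 - m)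
    (by rw [Fr_rev]; exact hx) (by rw [A_rev]; exact hxA)
    (by unfold Co; rw [Fr_rev]; exact hy) ht hyt hts
    (by rw [HB_rev]; have h4 : k - 1 - (k - 1 - j) = j := by omega
        rw [h4]; exact hj) (by omega) (by omega)
  rw [HA_rev] at h
  have h4 : k - 1 - (k - 1 - m) = m := by omega
  rwa [h4] at h

lemma Cfg.two (c : Cfg G S a3 k v s s') (h3 : ThreeConnected G)
    (hA : ∃ m < k, HA G S a3 k v m) {x : V} (hx : x ∈ Fr S k v) (hxA : x ∉ A G S a3 k v) :
    ∃ i j, i < j ∧ j < k ∧ HB G S k v x i ∧ HB G S k v x j := by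
  by_contra hno
  have hk := c.good.pos
  obtain ⟨i0, hi0, hi0'⟩ : ∃ i0 < k, ∀ i < k, HB G S k v x i → i = i0 := by
    by_cases h : ∃ i < k, HB G S k v x i
    · obtain ⟨i, hi, hi'⟩ := h
      refine ⟨i, hi, fun j hj hj' => ?_⟩
      rcases lt_trichotomy j i with h1 | h1 | h1
      · exact absurd ⟨j, i, h1, hi, hj', hi'⟩ hno
      · exact h1
      · exact absurd ⟨i, j, h1, hj, hi', hj'⟩ hno
    · exact ⟨0, by omega, fun j hj hj' => absurd ⟨j, hj, hj'⟩ h⟩
  obtain ⟨t0, ht0, ht0'⟩ : ∃ t0 ∈ S, ∀ y ∈ Co G S k v x, ∀ t ∈ S, G.Adj y t → t = t0 := by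
    by_cases h : ∃ y ∈ Co G S k v x, ∃ t ∈ S, G.Adj y t
    · obtain ⟨y, hy, t, ht, hyt⟩ := h
      exact ⟨t, ht, fun y' hy' t' ht' hyt' => c.uniqS hA hx hxA hy' hy ht' ht hyt' hyt⟩
    · exact ⟨s, c.good.hs, fun y hy t ht hyt => absurd ⟨y, hy, t, ht, hyt⟩ h⟩
  refine sep h3 (Co G S k v x) {v i0, t0} Finset.card_le_two x a3 ReflTransGen.refl ?_ ?_ ?_ ?_
  · simp only [Finset.mem_insert, Finset.mem_singleton, not_or]
    exact ⟨fun h => hx.2 ⟨i0, hi0, h.symm⟩, fun h => hx.1 (h ▸ ht0)⟩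
  · intro h
    exact Co_notA hxA h ReflTransGen.refl
  · simp only [Finset.mem_insert, Finset.mem_singleton, not_or]
    exact ⟨fun h => (c.good.out i0 hi0).2 h.symm, fun h => c.ha3 (h ▸ ht0)⟩
  · intro a ha b hab
    by_cases hbS : b ∈ S
    · right; rw [ht0' a ha b hbS hab]; simp
    · by_cases hbQ : b ∈ Q k v
      · obtain ⟨m, hm, rfl⟩ := hbQ
        right; rw [hi0' m hm ⟨a, ha, hab⟩]; simp
      · left; exact Rch.step ha hx ⟨hbS, hbQ⟩ hab

lemma Cfg.hA0 (c : Cfg G S a3 k v s s') (h3 : ThreeConnected G)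
    (hA : ∃ m < k, HA G S a3 k v m) (hk : 2 ≤ k) : HA G S a3 k v 0 := by
  classical
  obtain ⟨f, ⟨hfk, hf⟩, hfmin⟩ : ∃ f, (f < k ∧ HA G S a3 k v f) ∧
      ∀ m, m < f → ¬ (m < k ∧ HA G S a3 k v m) :=
    ⟨Nat.find hA, Nat.find_spec hA, fun m hm => Nat.find_min hA hm⟩
  rcases Nat.eq_zero_or_pos f with h0 | h0
  · rwa [h0] at hf
  exfalso
  set X : Set V := {z | (∃ m < f, v m = z) ∨
    (z ∈ Fr S k v ∧ z ∉ A G S a3 k v ∧ ∃ m < f, HB G S k v z m)} with hXdef
  refine sep h3 X {v f, s} Finset.card_le_two (v 0) a3 (Or.inl ⟨0, h0, rfl⟩) ?_ ?_ ?_ ?_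
  · simp only [Finset.mem_insert, Finset.mem_singleton, not_or]
    exact ⟨c.inj 0 f h0 hfk, fun h => (c.good.out 0 (by omega)).1 (h ▸ c.good.hs)⟩
  · rintro (⟨m, hm, h⟩ | ⟨_, h, _⟩)
    · exact (c.good.out m (by omega)).2 h
    · exact h ReflTransGen.refl
  · simp only [Finset.mem_insert, Finset.mem_singleton, not_or]
    exact ⟨fun h => (c.good.out f hfk).2 h.symm, fun h => c.ha3 (h ▸ c.good.hs)⟩
  · rintro a (⟨m, hm, rfl⟩ | ⟨haF, haA, m, hm, hB⟩) b hab
    · by_cases hbS : b ∈ S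
      · right
        by_cases hbs : b = s
        · simp [hbs]
        · have := c.snbr0 (by omega : m < k) hbS hab hbs
          omega
      · by_cases hbQ : b ∈ Q k v
        · obtain ⟨l, hl, rfl⟩ := hbQ
          rcases c.nbr (by omega : m < k) hl hab with h | h
          · left; exact Or.inl ⟨l, by omega, rfl⟩
          · by_cases hlf : l = f
            · right; simp [hlf]
            · left; exact Or.inl ⟨l, by omega, rfl⟩
        · by_cases hbA : b ∈ A G S a3 k v
          · exact absurd ⟨by omega, b, hbA, hab.symm⟩ (hfmin m hm)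
          · left
            exact Or.inr ⟨⟨hbS, hbQ⟩, hbA, m, hm, b, ReflTransGen.refl, hab.symm⟩
    · by_cases hbS : b ∈ S
      · right
        by_cases hbs : b = s
        · simp [hbs]
        · exact absurd hf (c.sideL haF haA (y := a) ReflTransGen.refl hbS hab hbs hB hm hfk)
      · by_cases hbQ : b ∈ Q k v
        · obtain ⟨l, hl, rfl⟩ := hbQ
          rcases lt_trichotomy l f with h | h | h
          · left; exact Or.inl ⟨l, h, rfl⟩
          · right; simp [h]
          · exact absurd hf (c.mid haF haA hB ⟨a, ReflTransGen.refl, hab⟩ hm h hl)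
        · left
          have hbF : b ∈ Fr S k v := ⟨hbS, hbQ⟩
          have hab' : Rch G (Fr S k v) a b := Rch.step ReflTransGen.refl haF hbF hab
          refine Or.inr ⟨hbF, Co_notA haA hab', m, hm, ?_⟩
          obtain ⟨y, hy, hy'⟩ := hB
          exact ⟨y, Rch.trans (Rch.symm hab') hy, hy'⟩

lemma Cfg.all (c : Cfg G S a3 k v s s') (h3 : ThreeConnected G)
    (hU : (G.induce {v | v ∉ S}).Connected) : ∀ x ∈ Fr S k v, x ∈ A G S a3 k v := by
  classical
  by_contra hno
  push Not at hno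
  obtain ⟨b, hbF, hbA⟩ := hno
  have hA := c.exHA hU
  obtain ⟨i, j, hij, hjk, hBi, hBj⟩ := c.two h3 hA hbF hbA
  have hA0 : HA G S a3 k v 0 := c.hA0 h3 hA (by omega)
  have hAk : HA G S a3 k v (k - 1) := by
    have hA' : ∃ m < k, HA G S a3 k (fun n => v (k - 1 - n)) m := by
      obtain ⟨m, hm, h⟩ := hA
      refine ⟨k - 1 - m, by omega, ?_⟩
      rw [HA_rev]
      have h4 : k - 1 - (k - 1 - m) = m := by omega
      rwa [h4]
    have h := c.rev.hA0 h3 hA' (by omega)
    rw [HA_rev] at h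
    simpa using h
  -- no component has an `S`-neighbour
  have hnoS : ∀ x ∈ Fr S k v, x ∉ A G S a3 k v → ∀ t ∈ S, ¬ G.Adj x t := by
    intro x hx hxA t ht hxt
    obtain ⟨i, j, hij, hjk, hBi, hBj⟩ := c.two h3 hA hx hxA
    have h1 : t = s := by
      by_contra hts
      exact c.sideL hx hxA (y := x) ReflTransGen.refl ht hxt hts hBi (m := k - 1) (by omega)
        (by omega) hAk
    have h2 : t = s' := by
      by_contra hts
      exact c.sideR hx hxA (y := x) ReflTransGen.refl ht hxt hts hBj (m := 0) (by omega)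
        hjk hA0
    exact c.good.ne (h1 ▸ h2)
  -- the last index `≤ i` and the first index `≥ j`
  obtain ⟨i', hi', hAi', hmax⟩ : ∃ i', i' ≤ i ∧ HA G S a3 k v i' ∧
      ∀ m, i' < m → m ≤ i → ¬ HA G S a3 k v m := by
    refine ⟨Nat.findGreatest (HA G S a3 k v) i, Nat.findGreatest_le _,
      Nat.findGreatest_spec (Nat.zero_le _) hA0, fun m h1 h2 => ?_⟩
    exact Nat.findGreatest_is_greatest h1 h2
  obtain ⟨j', hj', hj'k, hAj', hmin⟩ : ∃ j', j ≤ j' ∧ j' < k ∧ HA G S a3 k v j' ∧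
      ∀ m, j ≤ m → m < j' → ¬ HA G S a3 k v m := by
    have hex : ∃ m, j ≤ m ∧ HA G S a3 k v m := ⟨k - 1, by omega, hAk⟩
    refine ⟨Nat.find hex, (Nat.find_spec hex).1, ?_, (Nat.find_spec hex).2, fun m h1 h2 h => ?_⟩
    · have := Nat.find_min' hex ⟨(by omega : j ≤ k - 1), hAk⟩
      omega
    · exact Nat.find_min hex h2 ⟨h1, h⟩
  have hnoA : ∀ m, i' < m → m < j' → ¬ HA G S a3 k v m := by
    intro m h1 h2 h
    by_cases h5 : m ≤ i
    · exact hmax m h1 h5 h
    · by_cases h6 : j ≤ m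
      · exact hmin m h6 h2 h
      · exact c.mid hbF hbA hBi hBj (by omega) (by omega) hjk h
  set X : Set V := {z | z ∈ Co G S k v b ∨ (∃ m, i' < m ∧ m < j' ∧ v m = z) ∨
    (z ∈ Fr S k v ∧ z ∉ A G S a3 k v ∧ ∃ m, i' < m ∧ m < j' ∧ HB G S k v z m)} with hXdef
  refine sep h3 X {v i', v j'} Finset.card_le_two b a3 (Or.inl ReflTransGen.refl) ?_ ?_ ?_ ?_
  · simp only [Finset.mem_insert, Finset.mem_singleton, not_or]
    exact ⟨fun h => hbF.2 ⟨i', by omega, h.symm⟩, fun h => hbF.2 ⟨j', by omega, h.symm⟩⟩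
  · rintro (h | ⟨m, _, hm, h⟩ | ⟨_, h, _⟩)
    · exact Co_notA hbA h ReflTransGen.refl
    · exact (c.good.out m (by omega)).2 h
    · exact h ReflTransGen.refl
  · simp only [Finset.mem_insert, Finset.mem_singleton, not_or]
    exact ⟨fun h => (c.good.out i' (by omega)).2 h.symm,
      fun h => (c.good.out j' (by omega)).2 h.symm⟩
  · have hin : ∀ l, i' ≤ l → l ≤ j' → v l ∈ X ∨ v l ∈ ({v i', v j'} : Finset V) := by
      intro l h1 h2
      rcases Nat.eq_or_lt_of_le h1 with h | h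
      · right; simp [h]
      · rcases Nat.eq_or_lt_of_le h2 with h' | h'
        · right; simp [h']
        · left; exact Or.inr (Or.inl ⟨l, h, h', rfl⟩)
    rintro a (ha | ⟨m, hm, hm', rfl⟩ | ⟨haF, haA, m, hm, hm', hB⟩) d had
    · by_cases hdS : d ∈ S
      · exact absurd had (hnoS a (Co_Fr hbF ha) (Co_notA hbA ha) d hdS)
      · by_cases hdQ : d ∈ Q k v
        · obtain ⟨l, hl, rfl⟩ := hdQ
          have hBl : HB G S k v b l := ⟨a, ha, had⟩
          apply hin
          · by_contra h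
            exact c.mid hbF hbA hBl hBj (m := i') (by omega) (by omega) hjk hAi'
          · by_contra h
            exact c.mid hbF hbA hBi hBl (m := j') (by omega) (by omega) hl hAj'
        · left; exact Or.inl (Rch.step ha hbF ⟨hdS, hdQ⟩ had)
    · by_cases hdS : d ∈ S
      · exfalso
        have hm1 : m < k := by omega
        by_cases hds : d = s
        · have := c.snbr1 hm1 hdS had (by rw [hds]; exact c.good.ne)
          omega
        · have := c.snbr0 hm1 hdS had hds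
          omega
      · by_cases hdQ : d ∈ Q k v
        · obtain ⟨l, hl, rfl⟩ := hdQ
          rcases c.nbr (by omega : m < k) hl had with h | h
          · exact hin l (by omega) (by omega)
          · exact hin l (by omega) (by omega)
        · by_cases hdA : d ∈ A G S a3 k v
          · exact absurd ⟨d, hdA, had.symm⟩ (hnoA m hm hm')
          · left
            exact Or.inr (Or.inr ⟨⟨hdS, hdQ⟩, hdA, m, hm, hm', d, ReflTransGen.refl, had.symm⟩)
    · by_cases hdS : d ∈ S
      · exact absurd had (hnoS a haF haA d hdS)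
      · by_cases hdQ : d ∈ Q k v
        · obtain ⟨l, hl, rfl⟩ := hdQ
          have hBl : HB G S k v a l := ⟨a, ReflTransGen.refl, had⟩
          apply hin
          · by_contra h
            exact c.mid haF haA hBl hB (m := i') (by omega) (by omega) (by omega) hAi'
          · by_contra h
            exact c.mid haF haA hB hBl (m := j') (by omega) (by omega) hl hAj'
        · left
          have hdF : d ∈ Fr S k v := ⟨hdS, hdQ⟩
          have had' : Rch G (Fr S k v) a d := Rch.step ReflTransGen.refl haF hdF had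
          refine Or.inr (Or.inr ⟨hdF, Co_notA haA had', m, hm, hm', ?_⟩)
          obtain ⟨y, hy, hy'⟩ := hB
          exact ⟨y, Rch.trans (Rch.symm had') hy, hy'⟩

end CfgLemmas

end EarAux

open EarAux in
theorem t4 : T4 := by
  classical
  intro V _ _ G h3 S a3 ha3 hS hU ⟨u, hu, hu3⟩
  obtain ⟨k, v, s, s', hg, hmax, hmin⟩ := exists_ext h3 ha3 hS hu hu3
  have c : Cfg G S a3 k v s s' := ⟨hg, ha3, hmax, hmin⟩
  have hall := c.all h3 hU
  have hpos := c.good.pos
  set P : List V := (List.range k).map v with hP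
  have hmem : ∀ x, x ∈ P ↔ x ∈ Q k v := by
    intro x
    simp only [hP, List.mem_map, List.mem_range]
    rfl
  have hlen : P.length = k := by simp [hP]
  have hget : ∀ n (hn : n < P.length), P[n] = v n := by
    intro n hn
    simp [hP]
  refine ⟨P, ?_, ?_, ?_, ?_, ?_, ?_⟩
  · intro h
    rw [h] at hlen
    simp at hlen
    omega
  · rw [hP]
    refine List.Nodup.map_on ?_ (List.nodup_range)
    intro x hx y hy hxy
    exact c.inj' (List.mem_range.1 hx) (List.mem_range.1 hy) hxy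
  · intro x hx
    obtain ⟨i, hi, rfl⟩ := (hmem x).1 hx
    exact c.good.out i hi
  · rw [connected_iff]
    have hset : {w | w ∉ S ∧ w ∉ P} = Fr S k v := by
      ext w
      simp only [Set.mem_ofPred_eq, hmem]
      rfl
    rw [hset]
    exact ⟨⟨a3, c.h3⟩, fun a ha b hb => (Rch.symm (hall a ha)).trans (hall b hb)⟩
  · rw [List.isChain_iff_getElem]
    intro i hi
    rw [hget, hget]
    exact c.good.adj i (by omega)
  · by_cases hk : k = 1
    · left
      subst hk
      refine ⟨v 0, ?_, s, c.good.hs, s', c.good.hs', c.good.ne, c.good.a0, c.good.a1⟩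
      simp [hP]
    · right
      obtain ⟨n, rfl⟩ : ∃ n, k = n + 2 := ⟨k - 2, by omega⟩
      refine ⟨v 0, v (n + 1), (List.range n).map (fun i => v (i + 1)), s, s', ?_, c.good.hs,
        c.good.hs', c.good.ne, ?_, ?_, ?_, ?_⟩
      · rw [hP, List.range_succ_eq_map, List.map_cons, List.map_map, List.range_succ,
          List.map_append]
        rfl
      · intro t ht
        constructor
        · intro h
          by_contra hts
          have := c.snbr0 (by omega : 0 < n + 2) ht h hts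
          omega
        · rintro rfl; exact c.good.a0
      · intro t ht
        constructor
        · intro h
          by_contra hts
          have := c.snbr1 (by omega : n + 1 < n + 2) ht h hts
          omega
        · rintro rfl; exact c.good.a1
      · intro x hx t ht hxt
        simp only [List.mem_map, List.mem_range] at hx
        obtain ⟨i, hi, rfl⟩ := hx
        by_cases hts : t = s
        · have := c.snbr1 (by omega : i + 1 < n + 2) ht hxt (by rw [hts]; exact c.good.ne)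
          omega
        · have := c.snbr0 (by omega : i + 1 < n + 2) ht hxt hts
          omega
      · have hinfix : ∀ i, i + 1 < n + 2 → [v i, v (i + 1)] <:+: P := by
          intro i hi
          refine ⟨P.take i, P.drop (i + 2), ?_⟩
          have h1 : P.drop i = v i :: v (i + 1) :: P.drop (i + 2) := by
            rw [List.drop_eq_getElem_cons (by omega : i < P.length), hget,
              List.drop_eq_getElem_cons (by omega : i + 1 < P.length), hget]
          have h2 : [v i, v (i + 1)] ++ P.drop (i + 2) = P.drop i := by rw [h1]; rfl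
          rw [List.append_assoc, h2, List.take_append_drop]
        intro x hx y hy hxy
        obtain ⟨i, hi, rfl⟩ := (hmem x).1 hx
        obtain ⟨j, hj, rfl⟩ := (hmem y).1 hy
        rcases c.nbr hi hj hxy with h | h
        · right; subst h; exact hinfix j (by omega)
        · left; subst h; exact hinfix i (by omega)

end Pool.Agent.Run7.h215
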