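import Pool.Agent.Run7.h215.T5h

/-!
T5: canonical orderings of 3-connected planar graphs.
-/

set_option autoImplicit false

namespace Pool.Agent.Run7.h215

open List

open Classical in
theorem t5 (t4 : T4) : T5 := by
  intro V _ _ G h3 s hs u v huv hcard
  obtain ⟨z, hz, hzu⟩ := exists_nbr h3 v {u} (by simp)
  rw [Finset.mem_singleton] at hzu
  obtain ⟨a3, ha, ha3u, hφ⟩ := exists_consec hs huv.symm hz hzu
  obtain ⟨s', hs'def⟩ : ∃ s' : (V → V → ZMod 2) → V → V → ZMod 2,
    s' = fun c x y => s c x y + s c u v := ⟨_, rfl⟩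
  have hs' : Sys G s' := by
    rw [hs'def]
    refine ⟨?_, ?_, ?_⟩
    · intro c c' hc hc' x y hxy
      show s (fun a b => c a b + c' a b) x y + s (fun a b => c a b + c' a b) u v = _
      rw [hs.add c c' hc hc' x y hxy, hs.add c c' hc hc' u v huv]
      ring
    · intro c hc x y hxy
      have h1 := hs.flip c hc x y hxy
      have h2 : s c u v + s c u v = 0 := CharTwo.add_self_eq_zero _
      show s c x y + s c u v + (s c y x + s c u v) = c x y
      linear_combination h1 + h2
    · intro x
      obtain ⟨pos, hinj, hp⟩ := hs.rot x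
      refine ⟨pos, hinj, fun c hc => ?_⟩
      obtain ⟨b, hb⟩ := hp c hc
      refine ⟨b + s c u v, fun w hw => ?_⟩
      show s c x w + s c u v = _
      rw [hb w hw]
      ring
  have H0 : ∀ c, IsCyc G c → s' c u v = 0 := by
    intro c _
    rw [hs'def]
    exact CharTwo.add_self_eq_zero _
  have H0' : ∀ c, IsCyc G c → s' c v a3 = 0 := by
    intro c hc
    rw [hs'def]
    show s c v a3 + s c u v = 0
    rw [hφ c hc]
    exact CharTwo.add_self_eq_zero _
  have hbv0 : ∀ w, BVert v u ([] : List (Face V)) w ↔ w = v ∨ w = u := by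
    intro w
    constructor
    · rintro (h | h | ⟨f, hf, -⟩)
      · exact Or.inl h
      · exact Or.inr h
      · simp at hf
    · rintro (h | h)
      · exact Or.inl h
      · exact Or.inr (Or.inl h)
  have hconn0 : (G.induce {w | ¬ BVert v u ([] : List (Face V)) w}).Connected := by
    have h1 := h3.2 {v, u} Finset.card_le_two
    have h2 : {w | w ∉ ({v, u} : Finset V)} = {w | ¬ BVert v u ([] : List (Face V)) w} := by
      ext w
      simp only [Set.mem_ofPred_eq, hbv0, Finset.mem_insert, Finset.mem_singleton]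
    rw [h2] at h1
    exact h1
  have ha3b : ¬ BVert v u ([] : List (Face V)) a3 := by
    rw [hbv0, not_or]
    exact ⟨ha.ne', ha3u⟩
  obtain ⟨F, t0, wq, C, inv, hall⟩ := main_ind hs' h3 t4 ha H0 H0' _ _ _ rfl
    (inv_base (a3 := a3) hs' huv.symm) ha3b hconn0
  obtain ⟨T, hT⟩ : ∃ T, T = (wq, Ty.D) :: C := ⟨_, rfl⟩
  have hTne : T ≠ [] := by rw [hT]; simp
  have hZ : (v, t0) :: (pEnt [a3] ++ (wq, Ty.D) :: C) = (v, t0) :: (a3, Ty.U) :: T := by
    rw [hT]; rfl
  rw [hZ] at inv
  have hnd := inv.cb.nodup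
  simp only [List.map_cons, List.nodup_cons, List.mem_cons, not_or] at hnd
  have hD : ∀ e ∈ T, e.2 = Ty.D := by
    refine all_D ?_ ?_
    · intro e e' hee
      have heT : e ∈ T := hee.subset (by simp)
      have heT' : e.1 ∈ T.map Prod.fst := List.mem_map.2 ⟨e, heT, rfl⟩
      have h1 : e.1 ≠ v := fun h => hnd.1.2 (h ▸ heT')
      have h2 : e.1 ≠ a3 := fun h => hnd.2.1 (h ▸ heT')
      rcases inv.J e e' (hee.trans ⟨[(v, t0), (a3, Ty.U)], [], by simp⟩) h1 with
        h | h | h | ⟨w, hw, -⟩
      · exact Or.inl h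
      · exact Or.inr h
      · exact absurd h h2
      · exact absurd (hall w) hw
    · intro e he
      refine inv.lastD ?_ e ?_
      · have := List.length_pos_iff.2 hTne
        simp only [List.length_cons]
        omega
      · obtain ⟨b, T0, hb⟩ : ∃ b T0, T = b :: T0 := ⟨_, _, hT⟩
        rw [hb] at he ⊢
        rw [List.getLast?_cons_cons, List.getLast?_cons_cons]
        exact he
  -- the length
  have hlen : T.length ≤ 3 := by
    obtain ⟨zs, hzs⟩ : ∃ zs, zs = ((v, t0) :: (a3, Ty.U) :: T).map Prod.fst := ⟨_, rfl⟩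
    have hzl : zs.length = T.length + 2 := by rw [hzs]; simp
    have hch := final_darts hs' inv hall H0 H0' (L := T.map Prod.fst) rfl (by simpa using hTne)
    rw [← hzs] at hch
    have hadjch : (u :: zs).IsChain G.Adj := by
      have h1 := inv.chain
      rw [hzs]
      rw [List.map_cons] at h1 ⊢
      exact List.isChain_cons_cons.2 ⟨huv, h1⟩
    have hzip : ((u :: zs).zip zs).Nodup := by
      have h1 : (((u :: zs).zip zs).map Prod.snd).Nodup := by
        rw [List.map_snd_zip (by simp)]
        rw [hzs]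
        exact inv.cb.nodup
      exact List.Nodup.of_map _ h1
    have hsub : ((u :: zs).zip zs).toFinset ⊆ Finset.univ.filter (fun d : V × V =>
        G.Adj d.1 d.2 ∧ ∀ c, IsCyc G c → s c d.1 d.2 = s c u v) := by
      intro p hp
      rw [List.mem_toFinset] at hp
      have h1 := zip_infix zs u p hp
      rw [Finset.mem_filter]
      refine ⟨Finset.mem_univ _, infix_chain hadjch h1, fun c hc => ?_⟩
      have h2 := pairs_of_isChain hch h1 c hc
      rw [hs'def] at h2
      exact CharTwo.add_eq_zero.1 h2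
    have h2 := Finset.card_le_card hsub
    rw [List.toFinset_card_of_nodup hzip, List.length_zip, List.length_cons, hzl] at h2
    omega
  refine ⟨v, u, F, (v, t0) :: (a3, Ty.U) :: T, inv.cb, ⟨(v, t0), a3, T, rfl, hD, ?_, hlen⟩, hall,
    fun x y => inv.bedge x y (hall x) (hall y)⟩
  exact List.length_pos_iff.2 hTne

end Pool.Agent.Run7.h215
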