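import Pool.Agent.Run7.h215.T6d

/-!
# T6: base coordinates
-/

set_option autoImplicit false
set_option linter.unusedSectionVars false
set_option linter.unusedVariables false

namespace Pool.Agent.Run7.h215

namespace T6

section
variable {V : Type*}

/-- number of labels `m` at `v` -/
def cnt (Λ : List (V → Fin 3)) (m : Fin 3) (v : V) : ℤ :=
  (Λ.map (fun ρ => if ρ v = m then (1 : ℤ) else 0)).sum

theorem cnt_nonneg (Λ : List (V → Fin 3)) (m : Fin 3) (v : V) : 0 ≤ cnt Λ m v := by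
  unfold cnt
  induction Λ with
  | nil => simp
  | cons ρ Λ ih => rw [List.map_cons, List.sum_cons]; split_ifs <;> omega

theorem cnt_total (Λ : List (V → Fin 3)) (v : V) :
    cnt Λ 0 v + cnt Λ 1 v + cnt Λ 2 v = Λ.length := by
  unfold cnt
  induction Λ with
  | nil => simp
  | cons ρ Λ ih =>
    simp only [List.map_cons, List.sum_cons, List.length_cons]
    have : (if ρ v = 0 then (1:ℤ) else 0) + (if ρ v = 1 then (1:ℤ) else 0) +
        (if ρ v = 2 then (1:ℤ) else 0) = 1 := by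
      generalize ρ v = i
      revert i; decide
    push_cast
    omega

theorem cnt_mono {Λ : List (V → Fin 3)} {m m' : Fin 3} {a b : V}
    (h : ∀ ρ ∈ Λ, ρ a = m → ρ b = m') : cnt Λ m a ≤ cnt Λ m' b := by
  unfold cnt
  induction Λ with
  | nil => simp
  | cons ρ Λ ih =>
    have h1 := ih fun ρ hρ => h ρ (List.mem_cons_of_mem _ hρ)
    have h2 := h ρ List.mem_cons_self
    simp only [List.map_cons, List.sum_cons]
    split_ifs with i1 i2 i2
    · omega
    · exact absurd (h2 i1) i2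
    · omega
    · omega

theorem cnt_strict {Λ : List (V → Fin 3)} {m m' : Fin 3} {a b : V}
    (h : ∀ ρ ∈ Λ, ρ a = m → ρ b = m') (h' : ∃ ρ ∈ Λ, ρ b = m' ∧ ρ a ≠ m) :
    cnt Λ m a + 1 ≤ cnt Λ m' b := by
  induction Λ with
  | nil => simp at h'
  | cons ρ Λ ih =>
    have g1 : ∀ ρ ∈ Λ, ρ a = m → ρ b = m' := fun ρ hρ => h ρ (List.mem_cons_of_mem _ hρ)
    have h1 := cnt_mono g1
    have h2 := h ρ List.mem_cons_self
    obtain ⟨ρ', hρ', h3, h4⟩ := h'
    have e1 : ∀ (m : Fin 3) (a : V), cnt (ρ :: Λ) m a = (if ρ a = m then (1 : ℤ) else 0) +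
        cnt Λ m a := fun m a => by simp [cnt]
    rw [e1, e1]
    rw [List.mem_cons] at hρ'
    rcases hρ' with rfl | hρ'
    · rw [if_neg h4, if_pos h3]; omega
    · have h5 := ih g1 ⟨ρ', hρ', h3, h4⟩
      split_ifs with i1 i2 i2
      · omega
      · exact absurd (h2 i1) i2
      · omega
      · omega

/-- weights above the first three contour edges -/
def vx (s : St V) (W : Fin 3 → ℤ) (m : Fin 3) (v : V) : ℤ :=
  if m = 0 then ∑ j : Fin 3, (if s.ps v ≤ (j : ℕ) then W j else 0)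
  else if m = 1 then ∑ j : Fin 3, (if (j : ℕ) < s.ps v then W j else 0) else 0

def xx (s : St V) (W : Fin 3 → ℤ) (v : V) (m : Fin 3) : ℤ := cnt s.Λ m v + vx s W m v

variable {s : St V} {W : Fin 3 → ℤ}

theorem xx_zero (v : V) : xx s W v 0 = cnt s.Λ 0 v + ∑ j : Fin 3, (if s.ps v ≤ (j : ℕ) then W j else 0) := by
  simp [xx, vx]

theorem xx_one (v : V) : xx s W v 1 = cnt s.Λ 1 v + ∑ j : Fin 3, (if (j : ℕ) < s.ps v then W j else 0) := by
  simp [xx, vx]

theorem xx_two (v : V) : xx s W v 2 = cnt s.Λ 2 v := by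
  simp [xx, vx]

theorem xx_nonneg (hW : ∀ j, 0 ≤ W j) (v : V) (m : Fin 3) : 0 ≤ xx s W v m := by
  unfold xx vx
  have := cnt_nonneg s.Λ m v
  have h1 : 0 ≤ ∑ j : Fin 3, (if s.ps v ≤ (j : ℕ) then W j else 0) :=
    Finset.sum_nonneg fun j _ => by split_ifs <;> [exact hW j; exact le_rfl]
  have h2 : 0 ≤ ∑ j : Fin 3, (if (j : ℕ) < s.ps v then W j else 0) :=
    Finset.sum_nonneg fun j _ => by split_ifs <;> [exact hW j; exact le_rfl]
  split_ifs <;> omega

theorem xx_sum (v : V) : xx s W v 0 + xx s W v 1 + xx s W v 2 = s.Λ.length + (W 0 + W 1 + W 2) := by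
  rw [xx_zero, xx_one, xx_two]
  have h1 := cnt_total s.Λ v
  have h2 : ∑ j : Fin 3, (if s.ps v ≤ (j : ℕ) then W j else 0) +
      ∑ j : Fin 3, (if (j : ℕ) < s.ps v then W j else 0) = W 0 + W 1 + W 2 := by
    rw [← Finset.sum_add_distrib, Fin.sum_univ_three]
    have : ∀ j : Fin 3, (if s.ps v ≤ (j : ℕ) then W j else 0) +
        (if (j : ℕ) < s.ps v then W j else 0) = W j := fun j => by
      by_cases h : s.ps v ≤ (j : ℕ)
      · rw [if_pos h, if_neg (by omega)]; ring
      · rw [if_neg h, if_pos (by omega)]; ring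
    rw [this, this, this]
  omega

theorem xx_le0 (hW : ∀ j, 0 ≤ W j) {a b : V} (h : le0 s a b) : xx s W b 0 ≤ xx s W a 0 := by
  rw [xx_zero, xx_zero]
  refine add_le_add (cnt_mono h.2) (Finset.sum_le_sum fun j _ => ?_)
  have := h.1
  have := hW j
  split_ifs <;> omega

theorem xx_lt0 (hW : ∀ j, 0 ≤ W j) {a b : V} (h : le0 s a b) (h' : st s 0 a b) :
    xx s W b 0 < xx s W a 0 := by
  rw [xx_zero, xx_zero]
  have h1 := cnt_strict h.2 h'
  have h2 : ∑ j : Fin 3, (if s.ps b ≤ (j : ℕ) then W j else 0) ≤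
      ∑ j : Fin 3, (if s.ps a ≤ (j : ℕ) then W j else 0) := by
    refine Finset.sum_le_sum fun j _ => ?_
    have := h.1
    have := hW j
    split_ifs <;> omega
  omega

theorem xx_le1 (hW : ∀ j, 0 ≤ W j) {a b : V} (h : le1 s a b) : xx s W a 1 ≤ xx s W b 1 := by
  rw [xx_one, xx_one]
  refine add_le_add (cnt_mono h.2) (Finset.sum_le_sum fun j _ => ?_)
  have := h.1
  have := hW j
  split_ifs <;> omega

theorem xx_lt1 (hW : ∀ j, 0 ≤ W j) {a b : V} (h : le1 s a b) (h' : st s 1 b a) :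
    xx s W a 1 < xx s W b 1 := by
  rw [xx_one, xx_one]
  have h1 := cnt_strict h.2 h'
  have h2 : ∑ j : Fin 3, (if (j : ℕ) < s.ps a then W j else 0) ≤
      ∑ j : Fin 3, (if (j : ℕ) < s.ps b then W j else 0) := by
    refine Finset.sum_le_sum fun j _ => ?_
    have := h.1
    have := hW j
    split_ifs <;> omega
  omega

theorem xx_le2 {a b : V} (h : le2 s a b) : xx s W a 2 ≤ xx s W b 2 := by
  rw [xx_two, xx_two]
  exact cnt_mono h

theorem xx_lt2 {a b : V} (h : le2 s a b) (h' : st s 2 b a) : xx s W a 2 < xx s W b 2 := by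
  rw [xx_two, xx_two]
  have := cnt_strict h h'
  omega

theorem FL.faceX (hW : ∀ j, 0 ≤ W j) {pend : V → V → Prop} (hp : ∀ a b, ¬ pend a b) {f : Face V}
    (h : FL s pend f) : FaceX (xx s W) f where
  left_const v hv := le_antisymm (xx_le0 hW (h.left_const v hv).2) (xx_le0 hW (h.left_const v hv).1)
  left_max v hv := xx_lt0 hW (h.left_max v hv).1 (h.left_max v hv).2
  right_const v hv := le_antisymm (xx_le1 hW (h.right_const v hv).1)
    (xx_le1 hW (h.right_const v hv).2)
  right_max v hv := xx_lt1 hW (h.right_max v hv).1 (h.right_max v hv).2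
  top_const v hv w hw := le_antisymm (xx_le2 (h.top_const v hv w hw))
    (xx_le2 (h.top_const w hw v hv))
  top_max v hv w hw := xx_lt2 (h.top_max v hv w hw).1 (h.top_max v hv w hw).2
  left_mono := h.left_mono.imp fun a b hab => xx_lt1 hW hab.1 hab.2
  right_mono := h.right_mono.imp fun a b hab => xx_lt0 hW hab.1 hab.2
  top_mono := h.top_mono.imp fun a b hab => xx_lt0 hW hab.1 (by
    rcases hab.2 with h1 | h1
    · exact h1
    · exact absurd h1 (hp a b))
  first_edge hf y hy := xx_le1 hW (h.first_edge hf y hy)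
  mid_left hf y hy := xx_lt1 hW (h.mid_left hf y hy).1 (h.mid_left hf y hy).2
  last_edge hf y hy := xx_le0 hW (h.last_edge hf y hy)
  mid_right hf y hy := xx_lt0 hW (h.mid_right hf y hy).1 (h.mid_right hf y hy).2

/-! ## contour edge vectors -/

theorem cnt_D {a b : V} (h : Q s .D a b) : cnt s.Λ 0 b = cnt s.Λ 0 a ∧
    cnt s.Λ 2 b + 1 ≤ cnt s.Λ 2 a := by
  constructor
  · apply le_antisymm
    · exact cnt_mono fun ρ hρ h0 => (h.1 ρ hρ).zero h0
    · exact cnt_mono fun ρ hρ h0 => (h.1 ρ hρ).dzero h0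
  · refine cnt_strict (fun ρ hρ h0 => ?_) ?_
    · have := h.1 ρ hρ
      simp only [KR] at this
      rcases this with g | g
      · rw [g]; exact h0
      · exact g.1
    · obtain ⟨ρ, hρ, g1, g2⟩ := h.2.1 rfl
      exact ⟨ρ, hρ, g1, by rw [g2]; decide⟩

theorem cnt_U {a b : V} (h : Q s .U a b) : cnt s.Λ 1 b = cnt s.Λ 1 a ∧
    cnt s.Λ 2 a + 1 ≤ cnt s.Λ 2 b := by
  constructor
  · apply le_antisymm
    · exact cnt_mono fun ρ hρ h0 => (h.1 ρ hρ).uone h0
    · exact cnt_mono fun ρ hρ h0 => (h.1 ρ hρ).one h0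
  · refine cnt_strict (fun ρ hρ h0 => ?_) ?_
    · have := h.1 ρ hρ
      simp only [KR] at this
      rcases this with g | g
      · rw [← g]; exact h0
      · exact g.2
    · obtain ⟨ρ, hρ, g1, g2⟩ := h.2.2 rfl
      exact ⟨ρ, hρ, g2, by rw [g1]; decide⟩

/-- the vector of the contour edge `a b` is `(d0, d1, d2)` -/
def Vec (x : V → Fin 3 → ℤ) (a b : V) (d0 d1 d2 : ℤ) : Prop :=
  x b 0 - x a 0 = d0 ∧ x b 1 - x a 1 = d1 ∧ x b 2 - x a 2 = d2

theorem nrm_of_vec {x : V → Fin 3 → ℤ} {a b : V} {d0 d1 d2 n : ℤ} (h : Vec x a b d0 d1 d2)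
    (h0 : |d0| ≤ n) (h1 : |d1| ≤ n) (h2 : |d2| ≤ n) : nrm x a b ≤ n := by
  unfold nrm
  rw [h.1, h.2.1, h.2.2]
  exact max_le (max_le h0 h1) h2

theorem nrm_nonneg (x : V → Fin 3 → ℤ) (a b : V) : 0 ≤ nrm x a b :=
  le_max_of_le_right (abs_nonneg _)

theorem om_of_vec {x : V → Fin 3 → ℤ} {a b c : V} {d0 d1 d2 e0 e1 e2 : ℤ}
    (h : Vec x a b d0 d1 d2) (h' : Vec x b c e0 e1 e2) : om x a b c = d0 * e1 - d1 * e0 := by
  unfold om
  rw [h.1, h.2.1, h'.1, h'.2.1]

theorem pos_cases {Zl : List V} {ps : V → ℕ} {z0 z1 z2 : V} {T : List V}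
    (h : PosL ps 0 (z0 :: z1 :: z2 :: T)) : ps z0 = 0 ∧ ps z1 = 1 ∧ ps z2 = 2 := by
  obtain ⟨h0, h1, h2, -⟩ := h
  exact ⟨h0, by simpa using h1, by simpa using h2⟩

end

end T6

open T6 in
theorem t6 : T6 := by
  intro V _ a1 a2 F Z hCB hZ
  obtain ⟨s, hI⟩ := exists_inv hCB
  obtain ⟨⟨z0, t0⟩, a3, T, rfl, hT, hT1, hT3⟩ := hZ
  have hnp : ∀ a b, ¬ pend s ((z0, t0) :: (a3, Ty.U) :: T) a b := by
    rintro a b ⟨h1, -, h3⟩
    rw [List.mem_cons, List.mem_cons] at h1
    rcases h1 with h1 | h1 | h1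
    · have := hI.pos.1
      rw [Prod.mk.injEq] at h1
      simp only at this
      rw [h1.1] at h3
      omega
    · rw [Prod.mk.injEq] at h1
      exact absurd h1.2 (by decide)
    · exact absurd (hT _ h1) (by simp)
  have hK := hI.K
  have hpos := hI.pos
  have hlen := hI.len
  have hcnt : ∀ v, 0 ≤ cnt s.Λ 0 v ∧ 0 ≤ cnt s.Λ 1 v ∧ 0 ≤ cnt s.Λ 2 v ∧
      cnt s.Λ 0 v + cnt s.Λ 1 v + cnt s.Λ 2 v = F.length := fun v => by
    have h := cnt_total s.Λ v
    rw [hlen] at h
    exact ⟨cnt_nonneg _ _ _, cnt_nonneg _ _ _, cnt_nonneg _ _ _, h⟩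
  -- it suffices to find the weights
  suffices h : ∃ W1 W2 : ℤ, 0 ≤ W1 ∧ 0 ≤ W2 ∧ W1 + W2 ≤ 3 * F.length ∧
      ∀ W0 : ℤ, 0 ≤ W0 → OuterX (xx s ![W0, W1, W2])
        (((z0, t0) :: (a3, Ty.U) :: T).map Prod.fst) by
    obtain ⟨W1, W2, h1, h2, h3, h4⟩ := h
    set N1 : ℕ := (F.length + W1 + W2).toNat with hN1
    have hN1' : (N1 : ℤ) = F.length + W1 + W2 := Int.toNat_of_nonneg (by omega)
    set q := Nat.sqrt N1 with hq
    have q1 : q * q ≤ N1 := Nat.sqrt_le N1
    have q2 : N1 < (q + 1) * (q + 1) := Nat.lt_succ_sqrt N1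
    have q2' : (N1 : ℤ) < (q + 1) * (q + 1) := by exact_mod_cast q2
    set W0 : ℤ := ((q : ℤ) + 1) ^ 2 - N1 with hW0
    have hW0' : 0 ≤ W0 := by rw [hW0]; nlinarith
    have hW : ∀ j, 0 ≤ (![W0, W1, W2] : Fin 3 → ℤ) j := by
      intro j; fin_cases j <;> simp <;> omega
    refine ⟨q + 1, xx s ![W0, W1, W2], by omega, ?_, fun v m => xx_nonneg hW v m, fun v => ?_,
      fun f hf => (hI.fl f hf).faceX hW hnp, h4 W0 hW0'⟩
    · have hN : N1 ≤ 4 * F.length := by omega
      nlinarith [sq_nonneg ((q : ℤ) - 1)]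
    · rw [xx_sum, hlen]
      simp only [Matrix.cons_val_zero, Matrix.cons_val_one, Matrix.cons_val]
      push_cast
      rw [hW0, hN1']
      ring
  -- now the cases
  rw [List.isChain_cons_cons] at hK
  obtain ⟨K0, K⟩ := hK
  simp only at K0
  have u0 := cnt_U K0
  obtain ⟨p0, p1, pT⟩ := hpos
  simp only [Nat.zero_add] at p0 p1
  match T, hT, hT1, hT3, K, pT with
  | [(b, tb)], hT, _, _, K, pT =>
    obtain rfl : tb = Ty.D := hT (b, tb) (by simp)
    rw [List.isChain_cons_cons] at K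
    have d1 := cnt_D K.1
    simp only at d1
    have p2 : s.ps b = 2 := by simpa using pT.1
    refine ⟨0, 0, le_rfl, le_rfl, by simp, fun W0 hW0 => ?_⟩
    have v0 : Vec (xx s ![W0, 0, 0]) z0 a3 (-(cnt s.Λ 2 a3 - cnt s.Λ 2 z0) - W0) W0
        (cnt s.Λ 2 a3 - cnt s.Λ 2 z0) := by
      have g1 := hcnt z0
      have g2 := hcnt a3
      refine ⟨?_, ?_, ?_⟩
      · rw [xx_zero, xx_zero, p0, p1]; simp [Fin.sum_univ_three]; omega
      · rw [xx_one, xx_one, p0, p1]; simp [Fin.sum_univ_three]; omega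
      · rw [xx_two, xx_two]
    have v1 : Vec (xx s ![W0, 0, 0]) a3 b 0 (cnt s.Λ 2 a3 - cnt s.Λ 2 b)
        (-(cnt s.Λ 2 a3 - cnt s.Λ 2 b)) := by
      have g1 := hcnt a3
      have g2 := hcnt b
      refine ⟨?_, ?_, ?_⟩
      · rw [xx_zero, xx_zero, p1, p2]; simp [Fin.sum_univ_three]; omega
      · rw [xx_one, xx_one, p1, p2]; simp [Fin.sum_univ_three]; omega
      · rw [xx_two, xx_two]; ring
    set g := cnt s.Λ 2 a3 - cnt s.Λ 2 z0 with hg
    set g' := cnt s.Λ 2 a3 - cnt s.Λ 2 b with hg'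
    have hg0 : 1 ≤ g := by omega
    have hg'0 : 1 ≤ g' := by omega
    intro x y z hxyz
    simp only [List.map_cons, List.map_nil] at hxyz
    have hx : x = z0 ∧ y = a3 ∧ z = b := by
      have := hxyz.eq_of_length (by simp)
      simp at this
      tauto
    obtain ⟨rfl, rfl, rfl⟩ := hx
    rw [om_of_vec v0 v1]
    have n0 := nrm_of_vec (n := g + W0) v0 (by rw [abs_le]; constructor <;> omega)
      (by rw [abs_le]; constructor <;> omega) (by rw [abs_le]; constructor <;> omega)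
    have n1 := nrm_of_vec (n := g') v1 (by rw [abs_le]; constructor <;> omega)
      (by rw [abs_le]; constructor <;> omega) (by rw [abs_le]; constructor <;> omega)
    have := mul_le_mul n0 n1 (nrm_nonneg _ _ _) (by omega)
    nlinarith [mul_pos (show (0:ℤ) < g by omega) (show (0:ℤ) < g' by omega),
      mul_nonneg hW0 (show (0:ℤ) ≤ g' by omega)]
  | [(b, tb), (c, tc)], hT, _, _, K, pT =>
    obtain rfl : tb = Ty.D := hT (b, tb) (by simp)
    obtain rfl : tc = Ty.D := hT (c, tc) (by simp)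
    rw [List.isChain_cons_cons, List.isChain_cons_cons] at K
    have d1 := cnt_D K.1
    have d2 := cnt_D K.2.1
    simp only at d1 d2
    have p2 : s.ps b = 2 := by simpa using pT.1
    have p3 : s.ps c = 3 := by simpa using pT.2.1
    have g0' := hcnt z0
    have g1' := hcnt a3
    have g2' := hcnt b
    have g3' := hcnt c
    set g := cnt s.Λ 2 a3 - cnt s.Λ 2 z0 with hg
    set g1 := cnt s.Λ 2 a3 - cnt s.Λ 2 b with hg1
    set g2 := cnt s.Λ 2 b - cnt s.Λ 2 c with hg2
    have h0 : 1 ≤ g := by omega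
    have h1 : 1 ≤ g1 := by omega
    have h2 : 1 ≤ g2 := by omega
    refine ⟨g1, 0, by omega, le_rfl, by omega, fun W0 hW0 => ?_⟩
    have v0 : Vec (xx s ![W0, g1, 0]) z0 a3 (-g - W0) W0 g := by
      refine ⟨?_, ?_, ?_⟩
      · rw [xx_zero, xx_zero, p0, p1]; simp [Fin.sum_univ_three]; omega
      · rw [xx_one, xx_one, p0, p1]; simp [Fin.sum_univ_three]; omega
      · rw [xx_two, xx_two]
    have v1 : Vec (xx s ![W0, g1, 0]) a3 b (-g1) (2 * g1) (-g1) := by
      refine ⟨?_, ?_, ?_⟩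
      · rw [xx_zero, xx_zero, p1, p2]; simp [Fin.sum_univ_three]; omega
      · rw [xx_one, xx_one, p1, p2]; simp [Fin.sum_univ_three]; omega
      · rw [xx_two, xx_two]; omega
    have v2 : Vec (xx s ![W0, g1, 0]) b c 0 g2 (-g2) := by
      refine ⟨?_, ?_, ?_⟩
      · rw [xx_zero, xx_zero, p2, p3]; simp [Fin.sum_univ_three]; omega
      · rw [xx_one, xx_one, p2, p3]; simp [Fin.sum_univ_three]; omega
      · rw [xx_two, xx_two]; omega
    have n0 := nrm_of_vec (n := g + W0) v0 (by rw [abs_le]; constructor <;> omega)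
      (by rw [abs_le]; constructor <;> omega) (by rw [abs_le]; constructor <;> omega)
    have n1 := nrm_of_vec (n := 2 * g1) v1 (by rw [abs_le]; constructor <;> omega)
      (by rw [abs_le]; constructor <;> omega) (by rw [abs_le]; constructor <;> omega)
    have n2 := nrm_of_vec (n := g2) v2 (by rw [abs_le]; constructor <;> omega)
      (by rw [abs_le]; constructor <;> omega) (by rw [abs_le]; constructor <;> omega)
    intro x y z hxyz
    simp only [List.map_cons, List.map_nil] at hxyz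
    have hx : (x = z0 ∧ y = a3 ∧ z = b) ∨ (x = a3 ∧ y = b ∧ z = c) := by
      rw [List.infix_cons_iff] at hxyz
      rcases hxyz with h | h
      · left
        have := List.prefix_iff_eq_take.1 h
        simp at this
        tauto
      · right
        have := h.eq_of_length (by simp)
        simp at this
        tauto
    rcases hx with ⟨rfl, rfl, rfl⟩ | ⟨rfl, rfl, rfl⟩
    · rw [om_of_vec v0 v1]
      have := mul_le_mul n0 n1 (nrm_nonneg _ _ _) (by omega)
      nlinarith [mul_pos (show (0:ℤ) < g by omega) (show (0:ℤ) < g1 by omega),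
        mul_nonneg hW0 (show (0:ℤ) ≤ g1 by omega)]
    · rw [om_of_vec v1 v2]
      have := mul_le_mul n1 n2 (nrm_nonneg _ _ _) (by omega)
      nlinarith [mul_pos (show (0:ℤ) < g2 by omega) (show (0:ℤ) < g1 by omega)]
  | [(b, tb), (c, tc), (d, td)], hT, _, _, K, pT =>
    obtain rfl : tb = Ty.D := hT (b, tb) (by simp)
    obtain rfl : tc = Ty.D := hT (c, tc) (by simp)
    obtain rfl : td = Ty.D := hT (d, td) (by simp)
    rw [List.isChain_cons_cons, List.isChain_cons_cons, List.isChain_cons_cons] at K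
    have d1 := cnt_D K.1
    have d2 := cnt_D K.2.1
    have d3 := cnt_D K.2.2.1
    simp only at d1 d2 d3
    have p2 : s.ps b = 2 := by simpa using pT.1
    have p3 : s.ps c = 3 := by simpa using pT.2.1
    have p4 : s.ps d = 4 := by simpa using pT.2.2.1
    have g0' := hcnt z0
    have g1' := hcnt a3
    have g2' := hcnt b
    have g3' := hcnt c
    have g4' := hcnt d
    set g := cnt s.Λ 2 a3 - cnt s.Λ 2 z0 with hg
    set g1 := cnt s.Λ 2 a3 - cnt s.Λ 2 b with hg1
    set g2 := cnt s.Λ 2 b - cnt s.Λ 2 c with hg2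
    set g3 := cnt s.Λ 2 c - cnt s.Λ 2 d with hg3
    have h0 : 1 ≤ g := by omega
    have h1 : 1 ≤ g1 := by omega
    have h2 : 1 ≤ g2 := by omega
    have h3 : 1 ≤ g3 := by omega
    refine ⟨3 * g1, g2, by omega, by omega, by omega, fun W0 hW0 => ?_⟩
    have v0 : Vec (xx s ![W0, 3 * g1, g2]) z0 a3 (-g - W0) W0 g := by
      refine ⟨?_, ?_, ?_⟩
      · rw [xx_zero, xx_zero, p0, p1]; simp [Fin.sum_univ_three]; omega
      · rw [xx_one, xx_one, p0, p1]; simp [Fin.sum_univ_three]; omega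
      · rw [xx_two, xx_two]
    have v1 : Vec (xx s ![W0, 3 * g1, g2]) a3 b (-(3 * g1)) (4 * g1) (-g1) := by
      refine ⟨?_, ?_, ?_⟩
      · rw [xx_zero, xx_zero, p1, p2]; simp [Fin.sum_univ_three]; omega
      · rw [xx_one, xx_one, p1, p2]; simp [Fin.sum_univ_three]; omega
      · rw [xx_two, xx_two]; omega
    have v2 : Vec (xx s ![W0, 3 * g1, g2]) b c (-g2) (2 * g2) (-g2) := by
      refine ⟨?_, ?_, ?_⟩
      · rw [xx_zero, xx_zero, p2, p3]; simp [Fin.sum_univ_three]; omega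
      · rw [xx_one, xx_one, p2, p3]; simp [Fin.sum_univ_three]; omega
      · rw [xx_two, xx_two]; omega
    have v3 : Vec (xx s ![W0, 3 * g1, g2]) c d 0 g3 (-g3) := by
      refine ⟨?_, ?_, ?_⟩
      · rw [xx_zero, xx_zero, p3, p4]; simp [Fin.sum_univ_three]; omega
      · rw [xx_one, xx_one, p3, p4]; simp [Fin.sum_univ_three]; omega
      · rw [xx_two, xx_two]; omega
    have n0 := nrm_of_vec (n := g + W0) v0 (by rw [abs_le]; constructor <;> omega)
      (by rw [abs_le]; constructor <;> omega) (by rw [abs_le]; constructor <;> omega)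
    have n1 := nrm_of_vec (n := 4 * g1) v1 (by rw [abs_le]; constructor <;> omega)
      (by rw [abs_le]; constructor <;> omega) (by rw [abs_le]; constructor <;> omega)
    have n2 := nrm_of_vec (n := 2 * g2) v2 (by rw [abs_le]; constructor <;> omega)
      (by rw [abs_le]; constructor <;> omega) (by rw [abs_le]; constructor <;> omega)
    have n3 := nrm_of_vec (n := g3) v3 (by rw [abs_le]; constructor <;> omega)
      (by rw [abs_le]; constructor <;> omega) (by rw [abs_le]; constructor <;> omega)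
    intro x y z hxyz
    simp only [List.map_cons, List.map_nil] at hxyz
    have hx : (x = z0 ∧ y = a3 ∧ z = b) ∨ (x = a3 ∧ y = b ∧ z = c) ∨ (x = b ∧ y = c ∧ z = d) := by
      rw [List.infix_cons_iff] at hxyz
      rcases hxyz with h | h
      · left
        have := List.prefix_iff_eq_take.1 h
        simp at this
        tauto
      · right
        rw [List.infix_cons_iff] at h
        rcases h with h | h
        · left
          have := List.prefix_iff_eq_take.1 h
          simp at this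
          tauto
        · right
          have := h.eq_of_length (by simp)
          simp at this
          tauto
    rcases hx with ⟨rfl, rfl, rfl⟩ | ⟨rfl, rfl, rfl⟩ | ⟨rfl, rfl, rfl⟩
    · rw [om_of_vec v0 v1]
      have := mul_le_mul n0 n1 (nrm_nonneg _ _ _) (by omega)
      nlinarith [mul_pos (show (0:ℤ) < g by omega) (show (0:ℤ) < g1 by omega),
        mul_nonneg hW0 (show (0:ℤ) ≤ g1 by omega)]
    · rw [om_of_vec v1 v2]
      have := mul_le_mul n1 n2 (nrm_nonneg _ _ _) (by omega)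
      nlinarith [mul_pos (show (0:ℤ) < g2 by omega) (show (0:ℤ) < g1 by omega)]
    · rw [om_of_vec v2 v3]
      have := mul_le_mul n2 n3 (nrm_nonneg _ _ _) (by omega)
      nlinarith [mul_pos (show (0:ℤ) < g2 by omega) (show (0:ℤ) < g3 by omega)]

end Pool.Agent.Run7.h215
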