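import Pool.Agent.Run7.h215.T6c

/-!
# T6, part d: the invariant holds
-/

set_option autoImplicit false
set_option linter.unusedSectionVars false
set_option linter.unusedVariables false

namespace Pool.Agent.Run7.h215

namespace T6

section
variable {V : Type*}

theorem exists_last_entry (w : V) (t : Ty) (segs : List (Seg V)) :
    ∃ (L : List (V × Ty)) (τ : Ty), (w, t) :: segs.flatMap Seg.entries = L ++ [(lastW w segs, τ)] ∧
      L.length = segLen segs := by
  induction segs generalizing w t with
  | nil => exact ⟨[], t, rfl, rfl⟩
  | cons s ss ih =>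
    have hr : ∀ (x : Ty) (r : List V) (w' : V), ∃ (L' : List (V × Ty)) (τ' : Ty),
        rent x r w' = L' ++ [(w', τ')] := by
      intro x r w'
      induction r generalizing x with
      | nil => exact ⟨[], x, rfl⟩
      | cons v r ih =>
        obtain ⟨L', τ', h⟩ := ih .U
        exact ⟨(v, x) :: L', τ', by rw [rent, h]; rfl⟩
    obtain ⟨L', τ', hL'⟩ := hr s.x s.r s.w
    obtain ⟨L, τ, hL, hlen⟩ := ih s.w τ'
    refine ⟨(w, t) :: (s.l.map (fun v => (v, Ty.D)) ++ L') ++ L, τ, ?_, ?_⟩
    · rw [List.flatMap_cons, lastW_cons, Seg.entries, hL']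
      have h0 : (w, t) :: (s.l.map (fun v => (v, Ty.D)) ++ L') ++ L ++ [(lastW s.w ss, τ)] =
          (w, t) :: (s.l.map (fun v => (v, Ty.D)) ++ L') ++ (L ++ [(lastW s.w ss, τ)]) := by simp
      rw [h0, ← hL]; simp
    · have h1 := congrArg List.length hL'
      have h2 := length_entries s
      rw [Seg.entries, hL'] at h2
      simp only [List.length_append, List.length_cons, List.length_map, segLen_cons,
        List.length_nil] at h1 h2 ⊢
      omega

theorem rent_U_mem {r : List V} {w : V} {b : V} {t : Ty} (h : (b, t) ∈ rent .U r w) : t = .U := by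
  induction r with
  | nil => simp only [rent, List.mem_singleton, Prod.mk.injEq] at h; exact h.2
  | cons v r ih =>
    rw [rent, List.mem_cons, Prod.mk.injEq] at h
    rcases h with h | h
    · exact h.2
    · exact ih h

theorem rent_H_mem {x : Ty} {r : List V} {w : V} {b : V} (h : (b, Ty.H) ∈ rent x r w) :
    ∃ R', r ++ [w] = b :: R' := by
  cases r with
  | nil =>
    simp only [rent, List.mem_singleton, Prod.mk.injEq] at h
    exact ⟨[], by rw [h.1]; rfl⟩
  | cons v r =>
    rw [rent, List.mem_cons, Prod.mk.injEq] at h
    rcases h with h | h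
    · exact ⟨r ++ [w], by rw [h.1]; rfl⟩
    · exact absurd (rent_U_mem h) (by decide)

theorem mem_flatMap_split {segs : List (Seg V)} {e : V × Ty} (h : e ∈ segs.flatMap Seg.entries) :
    ∃ pre sg post, segs = pre ++ sg :: post ∧ e ∈ sg.entries := by
  rw [List.mem_flatMap] at h
  obtain ⟨sg, h1, h2⟩ := h
  obtain ⟨pre, post, h3⟩ := List.append_of_mem h1
  exact ⟨pre, sg, post, h3, h2⟩

theorem lastW_append (w : V) (pre : List (Seg V)) (sg : Seg V) (post : List (Seg V)) :
    lastW w (pre ++ sg :: post) = lastW sg.w post := by
  induction pre generalizing w with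
  | nil => rfl
  | cons s pre ih => rw [List.cons_append, lastW_cons, ih]

theorem chain_head_congr {R : Ty → V → V → Prop} {w : V} {t t' : Ty} {C : List (V × Ty)}
    (h : ((w, t) :: C).IsChain (fun e e' => R e'.2 e.1 e'.1)) :
    ((w, t') :: C).IsChain (fun e e' => R e'.2 e.1 e'.1) := by
  cases C with
  | nil => simp
  | cons c C =>
    rw [List.isChain_cons_cons] at h ⊢
    exact ⟨h.1, h.2⟩

theorem chain_pEnt {R : Ty → V → V → Prop} {p : V} {t : Ty} {L : List V} {w : V}
    {C : List (V × Ty)} (h1 : ∀ a ∈ p :: L, ∀ b ∈ p :: L, R .H a b) (h2 : ∀ a ∈ p :: L, R .D a w)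
    (h3 : ((w, Ty.D) :: C).IsChain (fun e e' => R e'.2 e.1 e'.1)) :
    ((p, t) :: (L.map (fun v => (v, Ty.H)) ++ (w, Ty.D) :: C)).IsChain
      (fun e e' => R e'.2 e.1 e'.1) := by
  induction L generalizing p t with
  | nil =>
    rw [List.map_nil, List.nil_append, List.isChain_cons_cons]
    exact ⟨h2 p List.mem_cons_self, h3⟩
  | cons v L ih =>
    rw [List.map_cons, List.cons_append, List.isChain_cons_cons]
    refine ⟨h1 p List.mem_cons_self v (by simp), ih ?_ ?_⟩
    · intro a ha b hb
      exact h1 a (List.mem_cons_of_mem _ ha) b (List.mem_cons_of_mem _ hb)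
    · intro a ha
      exact h2 a (List.mem_cons_of_mem _ ha)

end

section
variable {V : Type*} [DecidableEq V]

theorem inv_base {a1 a2 : V} (h : a1 ≠ a2) :
    Inv [] [(a1, Ty.H), (a2, Ty.H)] ⟨fun v => if v = a1 then 0 else 1, []⟩ := by
  refine ⟨rfl, ?_, ?_, ?_⟩
  · simp [PosL, h.symm]
  · simp [Q]
  · intro f hf; simp at hf

theorem inv_step {a1 a2 : V} {F : List (Face V)} {A : List (V × Ty)} {w0 : V} {t0 : Ty}
    {segs : List (Seg V)} {C : List (V × Ty)} {P : List V}
    (h1 : CB a1 a2 F (A ++ (w0, t0) :: (segs.flatMap Seg.entries ++ C)))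
    (h2 : segs ≠ []) (h3 : P ≠ []) (h4 : P.length = 1 ∨ segs.length = 1) (h5 : P.Nodup)
    (h6 : ∀ v ∈ P, v ≠ a1 ∧ v ≠ a2 ∧ ∀ f ∈ F, v ∉ f.top) {s : St V}
    (hI : Inv F (A ++ (w0, t0) :: (segs.flatMap Seg.entries ++ C)) s) :
    Inv (newFaces P true w0 segs ++ F)
      (A ++ (w0, t0) :: (pEnt P ++ (lastW w0 segs, Ty.D) :: C)) (nst s A.length P w0 segs) := by
  set k := A.length with hk
  set ws := lastW w0 segs with hws
  set Z := A ++ (w0, t0) :: (segs.flatMap Seg.entries ++ C) with hZ
  set Z' := A ++ (w0, t0) :: (pEnt P ++ (ws, Ty.D) :: C) with hZ'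
  have hb := h1.bvert
  have notP : ∀ v ∈ Z.map Prod.fst, v ∉ P := fun v hv hvP => not_bvert (h6 v hvP) (hb v hv)
  have notP' : ∀ v, BVert a1 a2 F v → v ∉ P := fun v hv hvP => not_bvert (h6 v hvP) hv
  -- membership
  have mA : ∀ e ∈ A, e.1 ∈ Z.map Prod.fst := fun e he =>
    List.mem_map.2 ⟨e, by rw [hZ]; simp [he], rfl⟩
  have mw0 : w0 ∈ Z.map Prod.fst := List.mem_map.2 ⟨(w0, t0), by rw [hZ]; simp, rfl⟩
  have mE : ∀ e ∈ segs.flatMap Seg.entries, e.1 ∈ Z.map Prod.fst := fun e he =>
    List.mem_map.2 ⟨e, by
      rw [hZ, List.mem_append, List.mem_cons, List.mem_append]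
      exact Or.inr (Or.inr (Or.inl he)), rfl⟩
  have mC : ∀ e ∈ C, e.1 ∈ Z.map Prod.fst := fun e he =>
    List.mem_map.2 ⟨e, by
      rw [hZ, List.mem_append, List.mem_cons, List.mem_append]
      exact Or.inr (Or.inr (Or.inr he)), rfl⟩
  have mws : ws ∈ Z.map Prod.fst := by
    obtain ⟨e, he, he'⟩ := List.mem_map.1 (lastW_mem (w := w0) h2)
    rw [hws, ← he']; exact mE e he
  -- positions
  have hpos := hI.pos
  rw [hZ, List.map_append, posL_append, List.length_map, Nat.zero_add, List.map_cons,
    List.map_append] at hpos
  obtain ⟨pA, pw0, pEC⟩ := hpos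
  rw [posL_append, List.length_map] at pEC
  obtain ⟨pE, pC⟩ := pEC
  simp only at pw0
  rw [← hk] at pw0
  have hlenE : (segs.flatMap Seg.entries).length = segLen segs := rfl
  rw [hlenE, ← hk] at pC
  rw [← hk] at pE
  have pws : s.ps ws = k + segLen segs := by
    obtain ⟨L, hL⟩ := flatMap_entries_eq (w := w0) h2
    have hl := congrArg List.length hL
    rw [List.length_map, hlenE, List.length_append, List.length_singleton] at hl
    rw [hL, posL_append] at pE
    have := pE.2.1
    rw [hws, this]; omega
  have hA : ∀ e ∈ A, s.ps e.1 < k := fun e he => by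
    have := pA.bounds (List.mem_map.2 ⟨e, he, rfl⟩)
    rw [List.length_map] at this; omega
  have hE : ∀ e ∈ segs.flatMap Seg.entries, k < s.ps e.1 ∧ s.ps e.1 ≤ k + segLen segs :=
    fun e he => by
      have := pE.bounds (List.mem_map.2 ⟨e, he, rfl⟩)
      rw [List.length_map, hlenE] at this; omega
  have hC : ∀ e ∈ C, k + segLen segs < s.ps e.1 := fun e he => by
    have := pC.bounds (List.mem_map.2 ⟨e, he, rfl⟩)
    omega
  have hsb : ∀ sp ∈ splits k segs, k ≤ sp ∧ sp < k + segLen segs := fun sp h => splits_bounds h
  obtain ⟨sp1, hsp1⟩ : ∃ sp, sp ∈ splits k segs := by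
    cases segs with
    | nil => exact absurd rfl h2
    | cons s ss => exact ⟨_, List.mem_cons_self⟩
  have hpat : ∀ a ∈ Z.map Prod.fst, ∀ b ∈ Z.map Prod.fst, s.ps a ≤ s.ps b → ∀ ρ ∈ s.Λ,
      (ρ b = 0 → ρ a = 0) ∧ (ρ a = 1 → ρ b = 1) := fun a ha b hb hab ρ hρ =>
    hI.pattern ha hb hab hρ
  refine ⟨?_, ?_, ?_, ?_⟩
  · -- len
    simp only [nst, List.length_append, List.length_map, length_splits, length_newFaces, hI.len]
  · -- pos
    rw [hZ', List.map_append, posL_append, List.length_map, Nat.zero_add, List.map_cons,
      List.map_append, pEnt_map_fst, List.map_cons, ← hk]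
    refine ⟨pA.shift fun v hv j hj => ?_, ?_, ?_⟩
    · obtain ⟨e, he, rfl⟩ := List.mem_map.1 hv
      rw [nst_ps_not s (notP _ (mA e he)), ne_le (by have := hA e he; omega)]
      exact hj
    · rw [nst_ps_not s (notP _ mw0), ne_le (by omega)]
      exact pw0
    · rw [posL_append]
      refine ⟨(posL_idxOf (c := k + 1) h5).shift fun v hv j hj => ?_, ?_, pC.shift fun v hv j hj => ?_⟩
      · rw [nst_ps_mem s hv]; exact hj
      · rw [nst_ps_not s (notP _ mws), ne_end h2 (j := 0) (by rw [pws]; omega)]
        omega
      · obtain ⟨e, he, rfl⟩ := List.mem_map.1 hv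
        rw [nst_ps_not s (notP _ (mC e he)), ne_end h2 (j := 1 + j) (by rw [hj]; omega)]
        omega
  · -- K
    have hK := hI.K
    rw [hZ, List.isChain_split] at hK
    obtain ⟨K1, K2⟩ := hK
    rw [hZ', List.isChain_split]
    refine ⟨K1.imp_of_mem_imp fun e e' he he' hQ => ?_, ?_⟩
    · have g : ∀ e ∈ A ++ [(w0, t0)], e.1 ∉ P ∧ s.ps e.1 ≤ k := by
        intro e he
        rw [List.mem_append, List.mem_singleton] at he
        rcases he with he | rfl
        · exact ⟨notP _ (mA e he), (hA e he).le⟩
        · exact ⟨notP _ mw0, pw0.le⟩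
      refine Q_step (g e he).1 (g e' he').1 hQ fun sp hsp => Or.inl ?_
      have := hsb sp hsp
      have := (g e he).2
      have := (g e' he').2
      omega
    · obtain ⟨L, τ, hL, -⟩ := exists_last_entry w0 t0 segs
      have K3 : ((ws, τ) :: C).IsChain (fun e e' => Q s e'.2 e.1 e'.1) := by
        have : (w0, t0) :: (segs.flatMap Seg.entries ++ C) = L ++ (ws, τ) :: C := by
          rw [← List.cons_append, hL, List.append_assoc]; rfl
        rw [this, List.isChain_split] at K2
        exact K2.2
      have K4 : ((ws, Ty.D) :: C).IsChain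
          (fun e e' => Q (nst s k P w0 segs) e'.2 e.1 e'.1) := by
        refine chain_head_congr (R := fun τ a b => Q (nst s k P w0 segs) τ a b)
          (K3.imp_of_mem_imp fun e e' he he' hQ => ?_)
        have g : ∀ e ∈ (ws, τ) :: C, e.1 ∉ P ∧ k + segLen segs ≤ s.ps e.1 := by
          intro e he
          rw [List.mem_cons] at he
          rcases he with rfl | he
          · exact ⟨notP _ mws, pws.ge⟩
          · exact ⟨notP _ (mC e he), (hC e he).le⟩
        refine Q_step (g e he).1 (g e' he').1 hQ fun sp hsp => Or.inr ?_
        have := hsb sp hsp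
        have := (g e he).2
        have := (g e' he').2
        omega
      have q1 : ∀ p ∈ P, Q (nst s k P w0 segs) .U w0 p := by
        intro p hp
        refine ⟨nst_forall (fun sp hsp => ?_) (fun ρ hρ => ?_), fun h => absurd h (by decide),
          fun _ => ⟨_, nst_mem_new hsp1, nlab_le s (notP _ mw0) ?_, nlab_mem s hp⟩⟩
        · rw [nlab_mem s hp, nlab_le s (notP _ mw0) (by have := hsb sp hsp; omega)]
          exact Or.inr ⟨rfl, rfl⟩
        · rw [olab_mem hp, olab_not (notP _ mw0)]
          have hp := (hpat w0 mw0 ws mws (by omega) ρ hρ).1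
          unfold oval
          split_ifs with i1 i2
          · exact Or.inl (hp i1)
          · exact Or.inl i2
          · have : ρ w0 = 0 ∨ ρ w0 = 2 := by
              generalize ρ w0 = i at i2
              revert i; decide
            rcases this with h | h
            · exact Or.inr ⟨h, rfl⟩
            · exact Or.inl h
        · have := hsb sp1 hsp1; omega
      have q2 : ∀ a ∈ P, ∀ b ∈ P, Q (nst s k P w0 segs) .H a b := by
        intro a ha b hb
        refine ⟨nst_forall (fun sp hsp => ?_) (fun ρ hρ => ?_), fun h => absurd h (by decide),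
          fun h => absurd h (by decide)⟩
        · rw [nlab_mem s ha, nlab_mem s hb]; exact KR.refl _ _
        · rw [olab_mem ha, olab_mem hb]; exact KR.refl _ _
      have q3 : ∀ a ∈ P, Q (nst s k P w0 segs) .D a ws := by
        intro a ha
        refine ⟨nst_forall (fun sp hsp => ?_) (fun ρ hρ => ?_), fun _ => ⟨_, nst_mem_new hsp1,
          nlab_mem s ha, nlab_gt s (notP _ mws) ?_⟩, fun h => absurd h (by decide)⟩
        · rw [nlab_mem s ha, nlab_gt s (notP _ mws) (by have := hsb sp hsp; omega)]
          exact Or.inr ⟨rfl, rfl⟩
        · rw [olab_mem ha, olab_not (notP _ mws)]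
          have hp := (hpat w0 mw0 ws mws (by omega) ρ hρ).2
          unfold oval
          rw [← hws]
          split_ifs with i1 i2
          · exact Or.inl i1.symm
          · exact Or.inl (hp i2).symm
          · have : ρ ws = 1 ∨ ρ ws = 2 := by
              generalize ρ ws = i at i1
              revert i; decide
            rcases this with h | h
            · exact Or.inr ⟨rfl, h⟩
            · exact Or.inl h.symm
        · have := hsb sp1 hsp1; omega
      cases hP : P with
      | nil => exact absurd hP h3
      | cons p L' =>
        rw [hP] at q1 q2 q3 K4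
        rw [pEnt, List.cons_append, List.isChain_cons_cons]
        exact ⟨q1 p List.mem_cons_self, chain_pEnt
          (R := fun τ a b => Q (nst s k (p :: L') w0 segs) τ a b) q2 q3 K4⟩
  · -- fl
    intro f hf
    rw [List.mem_append] at hf
    rcases hf with hf | hf
    · obtain ⟨pre, sg, post, hdec, rfl⟩ := mem_newFaces hf
      have hnf : NF s k P w0 pre sg post (lastW w0 pre) (Z.map Prod.fst) := by
        obtain ⟨L, τ, hL, hLlen⟩ := exists_last_entry w0 t0 pre
        have hZ2 : Z = A ++ (L ++ (lastW w0 pre, τ) :: (sg.entries ++
            (post.flatMap Seg.entries ++ C))) := by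
          rw [hZ, hdec]
          have : (w0, t0) :: (List.flatMap Seg.entries (pre ++ sg :: post) ++ C) =
              ((w0, t0) :: pre.flatMap Seg.entries) ++
                (sg.entries ++ (post.flatMap Seg.entries ++ C)) := by simp
          rw [this, hL]; simp
        have hpos2 := hI.pos
        rw [hZ2, List.map_append, posL_append, List.map_append, posL_append] at hpos2
        have hp3 := hpos2.2.2
        rw [List.length_map, List.length_map, Nat.zero_add, hLlen, ← hk, List.map_cons,
          List.map_append, Seg.entries_map_fst] at hp3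
        have hp4 : PosL s.ps (k + segLen pre) (lastW w0 pre :: sg.l ++ (sg.r ++ [sg.w])) := by
          refine (posL_append (B := (post.flatMap Seg.entries ++ C).map Prod.fst)).1 ?_ |>.1
          simpa using hp3
        have hK := hI.K
        rw [hZ2] at hK
        have hK2 := (List.isChain_append.1 hK).2.1
        have hK3 := (List.isChain_append.1 hK2).2.1
        rw [Seg.entries] at hK3
        have hK4 : ((lastW w0 pre, τ) :: sg.l.map (fun v => (v, Ty.D))).IsChain
            (fun e e' => Q s e'.2 e.1 e'.1) := by
          have : (lastW w0 pre, τ) :: (sg.l.map (fun v => (v, Ty.D)) ++ rent sg.x sg.r sg.w ++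
              (post.flatMap Seg.entries ++ C)) =
              ((lastW w0 pre, τ) :: sg.l.map (fun v => (v, Ty.D))) ++ (rent sg.x sg.r sg.w ++
              (post.flatMap Seg.entries ++ C)) := by simp
          rw [this] at hK3
          exact hK3.left_of_append
        have hK5 : (rent sg.x sg.r sg.w).IsChain (fun e e' => Q s e'.2 e.1 e'.1) := by
          have : (lastW w0 pre, τ) :: (sg.l.map (fun v => (v, Ty.D)) ++ rent sg.x sg.r sg.w ++
              (post.flatMap Seg.entries ++ C)) =
              ((lastW w0 pre, τ) :: sg.l.map (fun v => (v, Ty.D))) ++ (rent sg.x sg.r sg.w ++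
              (post.flatMap Seg.entries ++ C)) := by simp
          rw [this] at hK3
          exact (List.isChain_append.1 (List.isChain_append.1 hK3).2.1).1
        refine ⟨h5, h3, ?_, hp4, notP, ?_, mw0, pw0, ?_, ?_, hpat, chain_entries hK4,
          chain_rent hK5, ?_, ?_⟩
        · rcases h4 with h4 | h4
          · exact Or.inl h4
          · right
            rw [hdec] at h4
            simp only [List.length_append, List.length_cons] at h4
            exact ⟨List.length_eq_zero_iff.1 (by omega), List.length_eq_zero_iff.1 (by omega)⟩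
        · intro v hv
          rw [hZ2]
          simp only [List.map_append, List.map_cons, Seg.entries_map_fst, List.mem_append,
            List.mem_cons, List.cons_append] at hv ⊢
          tauto
        · rw [← hdec]; exact mws
        · rw [← hdec]; exact pws
        · rintro rfl; rfl
        · rintro rfl; rw [lastW_append]; rfl
      have := hnf.fl (Z' := Z') (fun a b ha hb hab => ?_)
      · rw [← hdec] at this
        simpa using this
      · refine ⟨?_, ?_, hab⟩
        · rw [hZ']
          cases P with
          | nil => simp at hb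
          | cons p L' =>
            simp only [List.tail_cons] at hb
            simp [pEnt, hb]
        · rw [hZ']
          simp [ha]
    · refine (hI.fl f hf).mono ?_ ?_ ?_ ?_ ?_
      · intro a ha b hb
        exact le0_step h2 (notP' a (face_bvert h1 f hf a ha)) (notP' b (face_bvert h1 f hf b hb))
      · intro a ha b hb
        exact le1_step h2 (notP' a (face_bvert h1 f hf a ha)) (notP' b (face_bvert h1 f hf b hb))
      · intro a ha b hb
        exact le2_step (notP' a (face_bvert h1 f hf a ha)) (notP' b (face_bvert h1 f hf b hb))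
      · intro m a ha b hb
        exact st_step (notP' a (face_bvert h1 f hf a ha)) (notP' b (face_bvert h1 f hf b hb))
      · rintro a ha b hb ⟨g1, g2, g3⟩
        have haP := notP' a (face_bvert h1 f hf a ha)
        have hbP := notP' b (face_bvert h1 f hf b hb)
        obtain ⟨⟨a', ta⟩, ga, rfl⟩ := List.mem_map.1 g2
        simp only at ha g3 haP g2 ⊢
        rw [hZ, List.mem_append, List.mem_cons, List.mem_append] at g1 ga
        have memC' : ∀ e ∈ C, e ∈ Z' := fun e he => by rw [hZ']; simp [he]
        have memA' : ∀ e ∈ A, e ∈ Z' := fun e he => by rw [hZ']; simp [he]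
        rcases g1 with g1 | g1 | g1 | g1
        · right
          have i1 := hA _ g1
          simp only at i1
          refine ⟨memA' _ g1, ?_, ?_⟩
          · rcases ga with ga | ga | ga | ga
            · exact List.mem_map.2 ⟨_, memA' _ ga, rfl⟩
            · rw [Prod.mk.injEq] at ga; rw [ga.1, hZ']; simp
            · have := hE _ ga; simp only at this; omega
            · have := hC _ ga; simp only at this; omega
          · rw [nst_ps_not s haP, nst_ps_not s hbP, ne_le (by omega), ne_le (by omega)]
            exact g3
        · right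
          rw [Prod.mk.injEq] at g1
          refine ⟨?_, ?_, ?_⟩
          · rw [hZ', g1.1, g1.2]; simp
          · rcases ga with ga | ga | ga | ga
            · exact List.mem_map.2 ⟨_, memA' _ ga, rfl⟩
            · rw [Prod.mk.injEq] at ga; rw [ga.1, hZ']; simp
            · have := hE _ ga; simp only at this; rw [g1.1] at g3; omega
            · have := hC _ ga; simp only at this; rw [g1.1] at g3; omega
          · rw [g1.1] at g3 hbP
            rw [nst_ps_not s haP, g1.1, nst_ps_not s hbP, ne_le (by omega), ne_le (by omega)]
            exact g3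
        · left
          obtain ⟨pre, sg, post, hdec, hm⟩ := mem_flatMap_split g1
          rw [Seg.entries, List.mem_append] at hm
          have hm2 : (b, Ty.H) ∈ rent sg.x sg.r sg.w := by
            rcases hm with hm | hm
            · simp at hm
            · exact hm
          obtain ⟨R', hR'⟩ := rent_H_mem hm2
          have hps : s.ps b = k + segLen pre + sg.l.length + 1 := by
            have hpE := pE
            rw [hdec, List.flatMap_append, List.flatMap_cons, List.map_append, List.map_append,
              Seg.entries_map_fst, hR', posL_append, posL_append, posL_append] at hpE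
            have := hpE.2.1.2.1
            rw [List.length_map] at this
            have h' : (pre.flatMap Seg.entries).length = segLen pre := rfl
            rw [h'] at this
            omega
          have hsp : k + segLen pre + sg.l.length ∈ splits k segs := by
            rw [hdec]; exact mem_splits
          refine ⟨_, nst_mem_new hsp, nlab_le s haP (by omega), ?_⟩
          rw [nlab_gt s hbP (by omega)]; decide
        · right
          have i1 := hC _ g1
          simp only at i1
          refine ⟨memC' _ g1, ?_, ?_⟩
          · rcases ga with ga | ga | ga | ga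
            · have := hA _ ga; simp only at this; omega
            · rw [Prod.mk.injEq] at ga
              have h0 : 1 ≤ segLen segs := by have := hsb sp1 hsp1; omega
              rw [ga.1] at g3; omega
            · -- a is the last vertex of the stretch
              have h7 := hE _ ga
              simp only at h7
              have h8 : s.ps a' = s.ps ws := by omega
              obtain ⟨L, hL⟩ := flatMap_entries_eq (w := w0) h2
              have h9 : a' ∈ L ++ [ws] := by
                rw [hws, ← hL]; exact List.mem_map.2 ⟨_, ga, rfl⟩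
              rw [List.mem_append, List.mem_singleton] at h9
              rcases h9 with h9 | h9
              · exfalso
                have hl := congrArg List.length hL
                rw [List.length_map, hlenE, List.length_append, List.length_singleton] at hl
                have hpE := pE
                rw [hL, posL_append] at hpE
                have := hpE.1.bounds h9
                omega
              · rw [h9, hZ']; simp
            · exact List.mem_map.2 ⟨_, memC' _ ga, rfl⟩
          · rw [nst_ps_not s haP, nst_ps_not s hbP]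
            rw [ne_end h2 (i := s.ps a') (j := s.ps a' - (k + segLen segs)) (by omega),
              ne_end h2 (i := s.ps b) (j := s.ps b - (k + segLen segs)) (by omega)]
            omega

theorem exists_inv {a1 a2 : V} {F : List (Face V)} {Z : List (V × Ty)} (h : CB a1 a2 F Z) :
    ∃ s : St V, Inv F Z s := by
  induction h with
  | base h => exact ⟨_, inv_base h⟩
  | step F A w0 t0 segs C P h1 h2 h3 h4 h5 h6 ih =>
    obtain ⟨s, hs⟩ := ih
    exact ⟨_, inv_step h1 h2 h3 h4 h5 h6 hs⟩

end

end T6

end Pool.Agent.Run7.h215
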