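import Pool.Agent.Run7.h215.CornerBasic
import Pool.Agent.Run7.h215.T6d

/-!
# T7a: every vertex is nearly straight in at most one direction
-/

set_option autoImplicit false
set_option linter.unusedSectionVars false
set_option linter.unusedVariables false

namespace Pool.Agent.Run7.h215

namespace T7a

open T6

section
variable {V : Type*}

/-- sign conditions at a contour edge -/
def SG (x : V → Fin 3 → ℤ) : Ty → V → V → Prop
  | .U, a, b => x b 0 < x a 0 ∧ x a 1 ≤ x b 1 ∧ x a 2 < x b 2
  | .D, a, b => x b 0 ≤ x a 0 ∧ x a 1 < x b 1 ∧ x b 2 < x a 2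
  | .H, a, b => x b 0 < x a 0 ∧ x a 1 < x b 1 ∧ x b 2 = x a 2

def E1 (x : V → Fin 3 → ℤ) (a b : V) : Prop := 10 * (x a 2 - x b 2) ≤ uu x 2 a - uu x 2 b
def E2 (x : V → Fin 3 → ℤ) (a b : V) : Prop := 10 * (x b 2 - x a 2) ≤ uu x 2 a - uu x 2 b

def R7 (x : V → Fin 3 → ℤ) (a1 a2 : V) (typ : V → Option (Fin 3)) (τ : Ty) (a b : V) : Prop :=
  (SG x τ a b ∨ (a = a1 ∧ b = a2)) ∧ (typ a = some 2 → τ ≠ .U → E1 x a b) ∧
    (typ b = some 2 → τ ≠ .D → E2 x a b)

structure Inv7 (x : V → Fin 3 → ℤ) (a1 a2 : V) (F : List (Face V)) (Z : List (V × Ty))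
    (typ : V → Option (Fin 3)) : Prop where
  ty : ∀ v ∈ Z.map Prod.fst, typ v = none ∨ typ v = some 2
  ch : Z.IsChain (fun e e' => R7 x a1 a2 typ e'.2 e.1 e'.1)
  co : ∀ f ∈ F, ∀ m a v b, Corner f m a v b → NS x m a v b → typ v = some m

/-- using a chain at two consecutive contour vertices -/
theorem chain_use {R : Ty → V → V → Prop} {Z : List (V × Ty)}
    (hc : Z.IsChain (fun e e' => R e'.2 e.1 e'.1)) (hn : (Z.map Prod.fst).Nodup)
    {X Y : List V} {a b : V} (h : Z.map Prod.fst = X ++ a :: b :: Y) {τ : Ty} (hb : (b, τ) ∈ Z) :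
    R τ a b := by
  rw [List.map_eq_append_iff] at h
  obtain ⟨X', Y', rfl, rfl, h⟩ := h
  rw [List.map_eq_cons_iff] at h
  obtain ⟨⟨a', ta⟩, Y'', rfl, rfl, h⟩ := h
  rw [List.map_eq_cons_iff] at h
  obtain ⟨⟨b', tb⟩, Y3, rfl, rfl, rfl⟩ := h
  have h1 := (List.isChain_append.1 hc).2.1
  rw [List.isChain_cons_cons] at h1
  have h2 := h1.1
  simp only at h2 hb ⊢
  have : tb = τ := by
    by_contra hne
    have hmem : (b', τ) ∈ X' ++ (a', ta) :: Y3 := by
      simp only [List.mem_append, List.mem_cons, Prod.mk.injEq] at hb ⊢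
      rcases hb with h | h | h | h
      · exact Or.inl h
      · exact Or.inr (Or.inl h)
      · exact absurd h.2.symm hne
      · exact Or.inr (Or.inr h)
    have hmem' : b' ∈ (X' ++ (a', ta) :: Y3).map Prod.fst := List.mem_map.2 ⟨_, hmem, rfl⟩
    rw [List.map_append, List.map_cons] at hmem' hn
    rw [List.map_cons] at hn
    simp only [List.nodup_append, List.nodup_cons, List.mem_append, List.mem_cons] at hn hmem'
    rcases hmem' with h | h | h
    · exact hn.2.2 _ h b' (Or.inr (Or.inl rfl)) rfl
    · exact hn.2.1.1 (Or.inl h.symm)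
    · exact hn.2.1.2.1 h
  rw [← this]; exact h2

/-- the corner with label 0 is not nearly straight if the next edge has type U -/
theorem not_NS0_U {x : V → Fin 3 → ℤ} {N : ℤ} (hs : ∀ v, x v 0 + x v 1 + x v 2 = N) {a v b : V}
    (h : SG x .U v b) : ¬ NS x 0 a v b := by
  rintro ⟨-, -, -, h4⟩
  obtain ⟨g1, g2, g3⟩ := h
  simp only [uu] at h4
  have e1 : (0 : Fin 3) + 1 = 1 := rfl
  have e2 : (0 : Fin 3) + 2 = 2 := rfl
  rw [e1, e2] at h4
  have := hs v
  have := hs b
  omega

theorem not_NS1_D {x : V → Fin 3 → ℤ} {N : ℤ} (hs : ∀ v, x v 0 + x v 1 + x v 2 = N) {a v b : V}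
    (h : SG x .D a v) : ¬ NS x 1 a v b := by
  rintro ⟨-, -, h3, -⟩
  obtain ⟨g1, g2, g3⟩ := h
  simp only [uu] at h3
  have e1 : (1 : Fin 3) + 1 = 2 := rfl
  have e2 : (1 : Fin 3) + 2 = 0 := rfl
  rw [e1, e2] at h3
  have := hs v
  have := hs a
  omega

theorem excl0 {x : V → Fin 3 → ℤ} {N : ℤ} (hs : ∀ v, x v 0 + x v 1 + x v 2 = N) {a v b : V}
    {τ : Ty} (h : SG x τ v b) (hτ : τ ≠ .U) (hE : E1 x v b) : ¬ NS x 0 a v b := by
  rintro ⟨-, -, -, h4⟩
  simp only [uu, E1] at h4 hE
  have e1 : (0 : Fin 3) + 1 = 1 := rfl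
  have e2 : (0 : Fin 3) + 2 = 2 := rfl
  have e3 : (2 : Fin 3) + 1 = 0 := rfl
  have e4 : (2 : Fin 3) + 2 = 1 := rfl
  rw [e1, e2] at h4
  rw [e3, e4] at hE
  have := hs v
  have := hs b
  cases τ with
  | U => exact hτ rfl
  | D => simp only [SG] at h; omega
  | H => simp only [SG] at h; omega

theorem excl1 {x : V → Fin 3 → ℤ} {N : ℤ} (hs : ∀ v, x v 0 + x v 1 + x v 2 = N) {a v b : V}
    {τ : Ty} (h : SG x τ a v) (hτ : τ ≠ .D) (hE : E2 x a v) : ¬ NS x 1 a v b := by
  rintro ⟨-, -, h3, -⟩
  simp only [uu, E2] at h3 hE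
  have e1 : (1 : Fin 3) + 1 = 2 := rfl
  have e2 : (1 : Fin 3) + 2 = 0 := rfl
  have e3 : (2 : Fin 3) + 1 = 0 := rfl
  have e4 : (2 : Fin 3) + 2 = 1 := rfl
  rw [e1, e2] at h3
  rw [e3, e4] at hE
  have := hs v
  have := hs a
  cases τ with
  | D => exact hτ rfl
  | U => simp only [SG] at h; omega
  | H => simp only [SG] at h; omega

/-- label 0 at the left end of the first face -/
theorem not_NS_first {x : V → Fin 3 → ℤ} {N : ℤ} (hs : ∀ v, x v 0 + x v 1 + x v 2 = N) {y v b : V}
    (h1 : x v 1 ≤ x y 1) (h2 : x v 2 < x y 2) : ¬ NS x 0 y v b := by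
  rintro ⟨-, -, h3, -⟩
  simp only [uu] at h3
  have e1 : (0 : Fin 3) + 1 = 1 := rfl
  have e2 : (0 : Fin 3) + 2 = 2 := rfl
  rw [e1, e2] at h3
  have := hs v
  have := hs y
  omega

theorem not_NS_last {x : V → Fin 3 → ℤ} {N : ℤ} (hs : ∀ v, x v 0 + x v 1 + x v 2 = N) {a v y : V}
    (h1 : x v 0 ≤ x y 0) (h2 : x v 2 < x y 2) : ¬ NS x 1 a v y := by
  rintro ⟨-, -, -, h4⟩
  simp only [uu] at h4
  have e1 : (1 : Fin 3) + 1 = 2 := rfl
  have e2 : (1 : Fin 3) + 2 = 0 := rfl
  rw [e1, e2] at h4
  have := hs v
  have := hs y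
  omega

/-- label 2 at `y` with a middle neighbour -/
theorem not_NS_fanR {x : V → Fin 3 → ℤ} {N : ℤ} (hs : ∀ v, x v 0 + x v 1 + x v 2 = N) {w y b : V}
    (h1 : x y 0 < x w 0) (h2 : x y 1 < x w 1) : ¬ NS x 2 w y b := by
  rintro ⟨-, -, h3, -⟩
  simp only [uu] at h3
  have e1 : (2 : Fin 3) + 1 = 0 := rfl
  have e2 : (2 : Fin 3) + 2 = 1 := rfl
  rw [e1, e2] at h3
  have := hs w
  have := hs y
  omega

theorem not_NS_fanL {x : V → Fin 3 → ℤ} {N : ℤ} (hs : ∀ v, x v 0 + x v 1 + x v 2 = N) {w y a : V}
    (h1 : x y 0 < x w 0) (h2 : x y 1 < x w 1) : ¬ NS x 2 a y w := by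
  rintro ⟨-, -, -, h4⟩
  simp only [uu] at h4
  have e1 : (2 : Fin 3) + 1 = 0 := rfl
  have e2 : (2 : Fin 3) + 2 = 1 := rfl
  rw [e1, e2] at h4
  have := hs w
  have := hs y
  omega

/-- both sides at a middle attachment -/
theorem not_both {x : V → Fin 3 → ℤ} {N : ℤ} (hs : ∀ v, x v 0 + x v 1 + x v 2 = N)
    {w y b a : V} (h1 : x y 0 < x w 0) (h2 : x y 1 < x w 1) (h3 : NS x 0 y w b)
    (h4 : NS x 1 a w y) : False := by
  obtain ⟨-, -, h3, -⟩ := h3
  obtain ⟨-, -, -, h4⟩ := h4
  simp only [uu] at h3 h4
  have e1 : (0 : Fin 3) + 1 = 1 := rfl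
  have e2 : (0 : Fin 3) + 2 = 2 := rfl
  have e3 : (1 : Fin 3) + 1 = 2 := rfl
  have e4 : (1 : Fin 3) + 2 = 0 := rfl
  rw [e1, e2] at h3
  rw [e3, e4] at h4
  have := hs w
  have := hs y
  omega

end

section
variable {V : Type*}

theorem next_unique {L X Y X' Y' : List V} {v b b' : V} (hn : L.Nodup) (h : L = X ++ v :: b :: Y)
    (h' : L = X' ++ v :: b' :: Y') : b = b' := by
  subst h
  induction X generalizing X' with
  | nil =>
    cases X' with
    | nil =>
      simp only [List.nil_append, List.cons.injEq] at h'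
      exact h'.2.1
    | cons z X' =>
      simp only [List.nil_append, List.cons_append, List.cons.injEq] at h'
      rw [List.nil_append, List.nodup_cons] at hn
      exact absurd (by rw [h'.2]; simp) hn.1
  | cons z X ih =>
    cases X' with
    | nil =>
      simp only [List.nil_append, List.cons_append, List.cons.injEq] at h'
      rw [List.cons_append, List.nodup_cons] at hn
      exact absurd (by rw [h'.1]; simp) hn.1
    | cons z' X' =>
      simp only [List.cons_append, List.cons.injEq] at h'
      rw [List.cons_append, List.nodup_cons] at hn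
      exact ih hn.2 h'.2

theorem nil_of_head {p q : List V} {v : V} {L : List V} (hn : (v :: L).Nodup)
    (h : v :: L = p ++ v :: q) : p = [] := by
  cases p with
  | nil => rfl
  | cons z p =>
    simp only [List.cons_append, List.cons.injEq] at h
    rw [List.nodup_cons] at hn
    exact absurd (by rw [h.2]; simp) hn.1

theorem entry_unique {Z : List (V × Ty)} (hn : (Z.map Prod.fst).Nodup) {v : V} {τ τ' : Ty}
    (h : (v, τ) ∈ Z) (h' : (v, τ') ∈ Z) : τ = τ' := by
  induction Z with
  | nil => simp at h
  | cons e Z ih =>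
    rw [List.map_cons, List.nodup_cons] at hn
    rw [List.mem_cons] at h h'
    rcases h with rfl | h <;> rcases h' with h' | h'
    · exact (Prod.mk.inj h').2.symm
    · exact absurd (List.mem_map.2 ⟨_, h', rfl⟩) hn.1
    · subst h'; exact absurd (List.mem_map.2 ⟨_, h, rfl⟩) hn.1
    · exact ih hn.2 h h'

theorem rent_U_of_mem {r : List V} {w b : V} (h : b ∈ r ++ [w]) : (b, Ty.U) ∈ rent .U r w := by
  induction r with
  | nil => simp at h; subst h; simp [rent]
  | cons v r ih =>
    rw [rent]
    rw [List.cons_append, List.mem_cons] at h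
    rcases h with rfl | h
    · exact List.mem_cons_self
    · exact List.mem_cons_of_mem _ (ih h)

theorem rent_tail_U {x : Ty} {r : List V} {w v b : V} {p q : List V}
    (h : r ++ [w] = p ++ v :: b :: q) : (b, Ty.U) ∈ rent x r w := by
  cases r with
  | nil =>
    have := congrArg List.length h
    simp only [List.length_append, List.length_cons, List.length_nil] at this
    omega
  | cons c r =>
    rw [rent]
    apply List.mem_cons_of_mem
    apply rent_U_of_mem
    cases p with
    | nil =>
      simp only [List.cons_append, List.nil_append, List.cons.injEq] at h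
      rw [h.2]; simp
    | cons z p =>
      simp only [List.cons_append, List.cons.injEq] at h
      rw [h.2]; simp

theorem chain_pEnt' {R : Ty → V → V → Prop} {p : V} {t : Ty} {L : List V} {w : V}
    {C : List (V × Ty)} (h1 : (p :: L).IsChain (R .H))
    (h2 : ∀ a ∈ (p :: L).getLast?, R .D a w)
    (h3 : ((w, Ty.D) :: C).IsChain (fun e e' => R e'.2 e.1 e'.1)) :
    ((p, t) :: (L.map (fun v => (v, Ty.H)) ++ (w, Ty.D) :: C)).IsChain
      (fun e e' => R e'.2 e.1 e'.1) := by
  induction L generalizing p t with
  | nil =>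
    rw [List.map_nil, List.nil_append, List.isChain_cons_cons]
    exact ⟨h2 p rfl, h3⟩
  | cons v L ih =>
    rw [List.map_cons, List.cons_append, List.isChain_cons_cons]
    rw [List.isChain_cons_cons] at h1
    refine ⟨h1.1, ih h1.2 ?_⟩
    intro a ha
    exact h2 a (by rw [List.getLast?_cons_cons]; exact ha)

/-- What a nearly straight corner of a new face looks like. -/
structure NC (x : V → Fin 3 → ℤ) (a1 a2 : V) (Z : List (V × Ty)) (E : List V) (P : List V)
    (w0 ws : V) (m : Fin 3) (a v b : V) : Prop where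
  /-- label 0 -/
  c0 : m = 0 → v ∈ E ∧ v ≠ ws ∧ (∃ X Y, Z.map Prod.fst = X ++ v :: b :: Y) ∧
    ((v, Ty.D) ∈ Z ∨ ∃ y, P = [y] ∧ a = y ∧ x y 0 < x v 0 ∧ x y 1 < x v 1)
  /-- label 1 -/
  c1 : m = 1 → v ∈ E ∧ v ≠ ws ∧ (∃ X Y, Z.map Prod.fst = X ++ a :: v :: Y) ∧
    ((∃ X Y b', Z.map Prod.fst = X ++ v :: b' :: Y ∧ (b', Ty.U) ∈ Z) ∨
      ∃ y, P = [y] ∧ b = y ∧ x y 0 < x v 0 ∧ x y 1 < x v 1)
  c2 : m = 2 → ∃ p q, P = p ++ v :: q ∧ (w0 :: p).getLast? = some b ∧
    (q ++ [ws]).head? = some a

theorem exists_eq_append_last {L : List V} {a : V} (h : L.getLast? = some a) :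
    ∃ L', L = L' ++ [a] := by
  rcases List.eq_nil_or_concat L with h' | ⟨L', z, h'⟩
  · subst h'; simp at h
  · rw [List.concat_eq_append] at h'
    subst h'
    rw [List.getLast?_append] at h
    simp at h
    exact ⟨L', by rw [h]⟩

theorem exists_eq_cons {L : List V} {a : V} (h : L.head? = some a) : ∃ L', L = a :: L' := by
  cases L with
  | nil => simp at h
  | cons z L => simp at h; exact ⟨L, by rw [h]⟩

theorem nc_of {x : V → Fin 3 → ℤ} {a1 a2 : V} {N : ℤ} (hs : ∀ v, x v 0 + x v 1 + x v 2 = N)
    {A C : List (V × Ty)} {w0 : V} {t0 : Ty} {segs : List (Seg V)} {P : List V}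
    (hn : ((A ++ (w0, t0) :: (segs.flatMap Seg.entries ++ C)).map Prod.fst).Nodup)
    (h3 : P ≠ []) (h4 : P.length = 1 ∨ segs.length = 1) {f : Face V}
    (hf : f ∈ newFaces P true w0 segs) (hX : FaceX x f) {m : Fin 3} {a v b : V}
    (hc : Corner f m a v b) (hNS : NS x m a v b) :
    NC x a1 a2 (A ++ (w0, t0) :: (segs.flatMap Seg.entries ++ C))
      ((segs.flatMap Seg.entries).map Prod.fst) P w0 (lastW w0 segs) m a v b := by
  obtain ⟨pre, sg, post, hdec, rfl⟩ := mem_newFaces hf
  simp only [Bool.true_and] at hX hc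
  obtain ⟨L, τ, hL, -⟩ := exists_last_entry w0 t0 pre
  set wl := lastW w0 pre with hwl
  have hE : (segs.flatMap Seg.entries).map Prod.fst =
      (pre.flatMap Seg.entries).map Prod.fst ++ ((sg.l ++ (sg.r ++ [sg.w])) ++
        (post.flatMap Seg.entries).map Prod.fst) := by
    rw [hdec]; simp
  have hZv : (A ++ (w0, t0) :: (segs.flatMap Seg.entries ++ C)).map Prod.fst =
      (A.map Prod.fst ++ L.map Prod.fst) ++ ((wl :: sg.l) ++ ((sg.r ++ [sg.w]) ++
        ((post.flatMap Seg.entries).map Prod.fst ++ C.map Prod.fst))) := by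
    have : A ++ (w0, t0) :: (segs.flatMap Seg.entries ++ C) =
        A ++ (((w0, t0) :: pre.flatMap Seg.entries) ++
          (sg.entries ++ (post.flatMap Seg.entries ++ C))) := by
      rw [hdec]; simp
    rw [this, hL]; simp
  have hEn : ((segs.flatMap Seg.entries).map Prod.fst).Nodup := by
    rw [List.map_append, List.map_cons, List.map_append] at hn
    have := (List.nodup_append.1 hn).2.1
    rw [List.nodup_cons] at this
    exact (List.nodup_append.1 this.2).1
  -- not the last attachment
  have hnws : ∀ X Y : List V, (segs.flatMap Seg.entries).map Prod.fst = X ++ Y → Y ≠ [] →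
      ∀ u ∈ X, u ≠ lastW w0 segs := by
    intro X Y hXY hY u hu
    have hne : segs ≠ [] := by rw [hdec]; simp
    obtain ⟨L', hL'⟩ := flatMap_entries_eq (w := w0) hne
    have h5 : Y.getLast? = some (lastW w0 segs) := by
      have : (X ++ Y).getLast? = some (lastW w0 segs) := by rw [← hXY, hL']; simp
      rw [List.getLast?_append] at this
      cases hh : Y.getLast? with
      | none => exact absurd (List.getLast?_eq_none_iff.1 hh) hY
      | some z => rw [hh] at this; simpa using this
    have h6 := List.mem_of_getLast? h5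
    rw [hXY] at hEn
    exact fun he => (List.nodup_append.1 hEn).2.2 u hu _ h6 he
  have one' : pre ≠ [] ∨ post ≠ [] → P.length = 1 := fun hh => by
    rcases h4 with h1 | h1
    · exact h1
    · rw [hdec] at h1
      simp only [List.length_append, List.length_cons] at h1
      rcases hh with h3 | h3
      · exact absurd (List.length_eq_zero_iff.1 (by omega)) h3
      · exact absurd (List.length_eq_zero_iff.1 (by omega)) h3
  rcases corner_cases (f := _) h3 hc with ⟨rfl, hc'⟩ | ⟨rfl, hc'⟩ | ⟨rfl, hc'⟩
  · refine ⟨fun _ => ?_, fun h => absurd h (by decide), fun h => absurd h (by decide)⟩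
    obtain ⟨p, q, h1, ⟨y, hy, h2⟩, h5⟩ := hc'
    simp only at h1 hy h2 h5
    obtain ⟨q', hq'⟩ := exists_eq_cons h5
    have hcons : ∃ X Y, (A ++ (w0, t0) :: (segs.flatMap Seg.entries ++ C)).map Prod.fst =
        X ++ v :: b :: Y := by
      refine ⟨(A.map Prod.fst ++ L.map Prod.fst) ++ p, q' ++
        ((post.flatMap Seg.entries).map Prod.fst ++ C.map Prod.fst), ?_⟩
      rw [hZv, h1]
      have : p ++ v :: q ++ (sg.r ++ [sg.w] ++ (List.map Prod.fst (List.flatMap Seg.entries post) ++
          List.map Prod.fst C)) = p ++ v :: ((q ++ (sg.r ++ [sg.w])) ++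
          (List.map Prod.fst (List.flatMap Seg.entries post) ++ List.map Prod.fst C)) := by simp
      rw [this, hq']; simp
    cases p with
    | nil =>
      simp only [List.nil_append, List.cons.injEq] at h1
      simp only [List.getLast?_singleton, Option.some.injEq] at h2
      subst h2
      have hyP := List.mem_of_mem_head? hy
      have hvy2 : x v 2 < x y 2 := by
        rw [← h1.1]; exact hX.top_max y hyP wl (by simp)
      by_cases hpre : pre = []
      · exfalso
        refine not_NS_first hs ?_ hvy2 hNS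
        rw [← h1.1]
        exact hX.first_edge (by simp [hpre]) y hy
      · have hl := one' (Or.inl hpre)
        have hPy : P = [y] := by
          obtain ⟨z, hz⟩ := List.length_eq_one_iff.1 hl
          rw [hz] at hyP ⊢
          simp at hyP; rw [hyP]
        have hvpre : v ∈ (pre.flatMap Seg.entries).map Prod.fst := by
          rw [← h1.1]; exact lastW_mem hpre
        refine ⟨?_, hnws _ _ hE (by simp) v hvpre, hcons, Or.inr ⟨y, hPy, rfl, ?_, ?_⟩⟩
        · rw [hE]; exact List.mem_append.2 (Or.inl hvpre)
        · rw [← h1.1]; exact hX.left_max y (by simp [hyP])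
        · rw [← h1.1]
          exact hX.mid_left (by
            cases pre with
            | nil => exact absurd rfl hpre
            | cons _ _ => rfl) y hyP
    | cons z p =>
      simp only [List.cons_append, List.cons.injEq] at h1
      have hvl : v ∈ sg.l := by rw [h1.2]; simp
      refine ⟨?_, hnws ((pre.flatMap Seg.entries).map Prod.fst ++ sg.l) ((sg.r ++ [sg.w]) ++
        (post.flatMap Seg.entries).map Prod.fst) (by rw [hE]; simp) (by simp) v (by simp [hvl]),
        hcons, Or.inl ?_⟩
      · rw [hE]; simp [hvl]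
      · rw [List.mem_append, List.mem_cons, List.mem_append, List.mem_flatMap]
        refine Or.inr (Or.inr (Or.inl ⟨sg, by rw [hdec]; simp, ?_⟩))
        rw [Seg.entries, List.mem_append, List.mem_map]
        exact Or.inl ⟨v, hvl, rfl⟩
  · refine ⟨fun h => absurd h (by decide), fun _ => ?_, fun h => absurd h (by decide)⟩
    obtain ⟨p, q, h1, h2, ⟨y, hy, h5⟩⟩ := hc'
    simp only at h1 hy h2 h5
    obtain ⟨p', hp'⟩ := exists_eq_append_last h2
    have hcons : ∃ X Y, (A ++ (w0, t0) :: (segs.flatMap Seg.entries ++ C)).map Prod.fst =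
        X ++ a :: v :: Y := by
      refine ⟨(A.map Prod.fst ++ L.map Prod.fst) ++ p', q ++
        ((post.flatMap Seg.entries).map Prod.fst ++ C.map Prod.fst), ?_⟩
      rw [hZv, h1]
      have : (wl :: sg.l) ++ (p ++ v :: q ++ (List.map Prod.fst (List.flatMap Seg.entries post) ++
          List.map Prod.fst C)) = (wl :: sg.l ++ p) ++ (v :: q ++
          (List.map Prod.fst (List.flatMap Seg.entries post) ++ List.map Prod.fst C)) := by simp
      rw [this, hp']; simp
    cases q with
    | nil =>
      have hvw : v = sg.w := by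
        have := (List.append_inj' h1 rfl).2
        simp at this; exact this.symm
      simp only [List.nil_append, List.head?_cons, Option.some.injEq] at h5
      subst h5
      have hyP := List.mem_of_getLast? hy
      have hvy2 : x v 2 < x y 2 := by
        rw [hvw]; exact hX.top_max y hyP sg.w (by simp)
      by_cases hpost : post = []
      · exfalso
        refine not_NS_last hs ?_ hvy2 hNS
        rw [hvw]
        exact hX.last_edge (by simp [hpost]) y hy
      · have hl := one' (Or.inr hpost)
        have hPy : P = [y] := by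
          obtain ⟨z, hz⟩ := List.length_eq_one_iff.1 hl
          rw [hz] at hyP ⊢
          simp at hyP; rw [hyP]
        have hpne : (post.flatMap Seg.entries).map Prod.fst ≠ [] := by
          obtain ⟨L', hL'⟩ := flatMap_entries_eq (w := w0) hpost
          rw [hL']; simp
        refine ⟨?_, hnws ((pre.flatMap Seg.entries).map Prod.fst ++ (sg.l ++ (sg.r ++ [sg.w]))) _
          (by rw [hE]; simp) hpne v (by simp [hvw]), hcons, Or.inr ⟨y, hPy, rfl, ?_, ?_⟩⟩
        · rw [hE]; simp [hvw]
        · rw [hvw]
          exact hX.mid_right (by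
            cases post with
            | nil => exact absurd rfl hpost
            | cons _ _ => rfl) y hyP
        · rw [hvw]; exact hX.right_max y (by simp [hyP])
    | cons z q =>
      have hvr : v ∈ sg.r := by
        have h7 : sg.r ++ [sg.w] = (p ++ v :: (z :: q).dropLast) ++ [(z :: q).getLast (by simp)] := by
          rw [h1, List.append_assoc, List.cons_append, List.dropLast_append_getLast]
        have := (List.append_inj' h7 rfl).1
        rw [this]; simp
      refine ⟨?_, hnws ((pre.flatMap Seg.entries).map Prod.fst ++ (sg.l ++ sg.r)) ([sg.w] ++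
        (post.flatMap Seg.entries).map Prod.fst) (by rw [hE]; simp) (by simp) v (by simp [hvr]),
        hcons, Or.inl ⟨(A.map Prod.fst ++ L.map Prod.fst) ++ ((wl :: sg.l) ++ p), q ++
        ((post.flatMap Seg.entries).map Prod.fst ++ C.map Prod.fst), z, ?_, ?_⟩⟩
      · rw [hE]; simp [hvr]
      · rw [hZv, h1]; simp
      · rw [List.mem_append, List.mem_cons, List.mem_append, List.mem_flatMap]
        refine Or.inr (Or.inr (Or.inl ⟨sg, by rw [hdec]; simp, ?_⟩))
        rw [Seg.entries, List.mem_append]
        exact Or.inr (rent_tail_U h1)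
  · refine ⟨fun h => absurd h (by decide), fun h => absurd h (by decide), fun _ => ?_⟩
    obtain ⟨p, q, h1, h2, h5⟩ := hc'
    simp only at h1 h2 h5
    by_cases hh : pre ≠ [] ∨ post ≠ []
    · exfalso
      have hl := one' hh
      have hpq : p = [] ∧ q = [] := by
        rw [h1] at hl
        simp only [List.length_append, List.length_cons] at hl
        exact ⟨List.length_eq_zero_iff.1 (by omega), List.length_eq_zero_iff.1 (by omega)⟩
      obtain ⟨rfl, rfl⟩ := hpq
      simp only [List.getLast?_singleton, List.nil_append, List.head?_cons,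
        Option.some.injEq] at h1 h2 h5
      have hvP : v ∈ P := by rw [h1]; simp
      rcases hh with hh | hh
      · subst h2
        exact not_NS_fanL hs (hX.left_max v (by simp [hvP])) (hX.mid_left (by
            cases pre with
            | nil => exact absurd rfl hh
            | cons _ _ => rfl) v hvP) hNS
      · subst h5
        exact not_NS_fanR hs (hX.mid_right (by
            cases post with
            | nil => exact absurd rfl hh
            | cons _ _ => rfl) v hvP) (hX.right_max v (by simp [hvP])) hNS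
    · push Not at hh
      obtain ⟨rfl, rfl⟩ := hh
      refine ⟨p, q, h1, h2, ?_⟩
      rw [hdec]
      simpa using h5

end

section
variable {V : Type*}

theorem fin3 (m : Fin 3) : m = 0 ∨ m = 1 ∨ m = 2 := by
  revert m; decide

theorem pred_unique {L X Y X' Y' : List V} {v a a' : V} (hn : L.Nodup) (h : L = X ++ a :: v :: Y)
    (h' : L = X' ++ a' :: v :: Y') : a = a' := by
  have hn' := List.nodup_reverse.2 hn
  refine next_unique (X := Y.reverse) (Y := X.reverse) (X' := Y'.reverse) (Y' := X'.reverse)
    (v := v) hn' ?_ ?_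
  · rw [h]; simp
  · rw [h']; simp

theorem step7 {x : V → Fin 3 → ℤ} {a1 a2 : V} {N : ℤ} (hs : ∀ v, x v 0 + x v 1 + x v 2 = N)
    {F : List (Face V)} {A C : List (V × Ty)} {w0 : V} {t0 : Ty} {segs : List (Seg V)}
    {P : List V}
    (h1 : CB a1 a2 F (A ++ (w0, t0) :: (segs.flatMap Seg.entries ++ C)))
    (h2 : segs ≠ []) (h3 : P ≠ []) (h4 : P.length = 1 ∨ segs.length = 1) (h5 : P.Nodup)
    (h6 : ∀ v ∈ P, v ≠ a1 ∧ v ≠ a2 ∧ ∀ f ∈ F, v ∉ f.top)
    (hX : ∀ f ∈ newFaces P true w0 segs ++ F, FaceX x f) {typ : V → Option (Fin 3)}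
    (hI : Inv7 x a1 a2 F (A ++ (w0, t0) :: (segs.flatMap Seg.entries ++ C)) typ) :
    ∃ typ', Inv7 x a1 a2 (newFaces P true w0 segs ++ F)
      (A ++ (w0, t0) :: (pEnt P ++ (lastW w0 segs, Ty.D) :: C)) typ' := by
  classical
  have hn := h1.nodup
  have hn' := (CB.step F A w0 t0 segs C P h1 h2 h3 h4 h5 h6).nodup
  set ws := lastW w0 segs with hws
  set Z := A ++ (w0, t0) :: (segs.flatMap Seg.entries ++ C) with hZ
  set Z' := A ++ (w0, t0) :: (pEnt P ++ (ws, Ty.D) :: C) with hZ'
  set E := (segs.flatMap Seg.entries).map Prod.fst with hE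
  have hb := h1.bvert
  have notP : ∀ v ∈ Z.map Prod.fst, v ∉ P := fun v hv hvP => not_bvert (h6 v hvP) (hb v hv)
  have hXn : ∀ f ∈ newFaces P true w0 segs, FaceX x f := fun f hf =>
    hX f (List.mem_append.2 (Or.inl hf))
  have hnc : ∀ f ∈ newFaces P true w0 segs, ∀ m a v b, Corner f m a v b → NS x m a v b →
      NC x a1 a2 Z E P w0 ws m a v b := fun f hf m a v b hc hNS =>
    nc_of hs hn h3 h4 hf (hXn f hf) hc hNS
  have hZv : Z.map Prod.fst = A.map Prod.fst ++ w0 :: (E ++ C.map Prod.fst) := by
    rw [hZ]; simp [hE]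
  have hZv' : Z'.map Prod.fst = A.map Prod.fst ++ w0 :: (P ++ ws :: C.map Prod.fst) := by
    rw [hZ']; simp
  have hEZ : ∀ v ∈ E, v ∈ Z.map Prod.fst := fun v hv => by rw [hZv]; simp [hv]
  have hwsE : ws ∈ E := lastW_mem h2
  -- vertices strictly inside the stretch are not on the new contour
  have hcov : ∀ v ∈ E, v ≠ ws → v ∉ Z'.map Prod.fst := by
    intro v hv hne hv'
    rw [hZv'] at hv'
    rw [hZv] at hn
    rw [List.nodup_append, List.nodup_cons, List.nodup_append] at hn
    simp only [List.mem_append, List.mem_cons] at hv' hn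
    rcases hv' with h | rfl | h | rfl | h
    · exact hn.2.2 v h v (Or.inr (Or.inl hv)) rfl
    · exact hn.2.1.1 (Or.inl hv)
    · exact notP v (hEZ v hv) h
    · exact hne rfl
    · exact hn.2.1.2.2.2 v hv v h rfl
  -- not a1, not a2
  have hEa1 : ∀ v ∈ E, v ≠ a1 := by
    rintro v hv rfl
    obtain ⟨T, hT, -⟩ := h1.head
    rw [hZv] at hT hn
    cases hA : A.map Prod.fst with
    | nil =>
      rw [hA, List.nil_append, List.cons.injEq] at hT
      rw [hA, List.nil_append, List.nodup_cons] at hn
      exact hn.1 (by rw [hT.1]; simp [hv])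
    | cons z A' =>
      rw [hA, List.cons_append, List.cons.injEq] at hT
      rw [hA, List.cons_append, List.nodup_cons] at hn
      exact hn.1 (by rw [hT.1]; simp [hv])
  have hEa2 : ∀ v ∈ E, v ≠ ws → v ≠ a2 := by
    rintro v hv hne rfl
    obtain ⟨T, hT, -⟩ := (CB.step F A w0 t0 segs C P h1 h2 h3 h4 h5 h6).getLast
    exact hcov v hv hne (by rw [← hws, ← hZ'] at hT; rw [hT]; simp)
  -- facts about nearly straight new corners
  have hne0 : ∀ a v b, NC x a1 a2 Z E P w0 ws 0 a v b → NS x 0 a v b → ∃ τ, (b, τ) ∈ Z ∧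
      SG x τ v b ∧ τ ≠ .U ∧ typ v = none := by
    intro a v b hN hNS
    obtain ⟨g1, g2, ⟨X, Y, g3⟩, -⟩ := hN.c0 rfl
    have hbm : b ∈ Z.map Prod.fst := by rw [g3]; simp
    obtain ⟨⟨b', τ⟩, hbZ, hb'⟩ := List.mem_map.1 hbm
    simp only at hb'
    subst hb'
    obtain ⟨k1, k2, k3⟩ := chain_use (R := R7 x a1 a2 typ) hI.ch hn g3 hbZ
    have k1' : SG x τ v b' := by
      rcases k1 with k1 | k1
      · exact k1
      · exact absurd k1.1 (hEa1 v g1)
    have hτ : τ ≠ .U := by
      rintro rfl
      exact not_NS0_U hs k1' hNS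
    refine ⟨τ, hbZ, k1', hτ, ?_⟩
    rcases hI.ty v (hEZ v g1) with h | h
    · exact h
    · exact absurd hNS (excl0 hs k1' hτ (k2 h hτ))
  have hne1 : ∀ a v b, NC x a1 a2 Z E P w0 ws 1 a v b → NS x 1 a v b → ∃ τ, (v, τ) ∈ Z ∧
      SG x τ a v ∧ τ ≠ .D ∧ typ v = none := by
    intro a v b hN hNS
    obtain ⟨g1, g2, ⟨X, Y, g3⟩, -⟩ := hN.c1 rfl
    obtain ⟨⟨v', τ⟩, hbZ, hb'⟩ := List.mem_map.1 (hEZ v g1)
    simp only at hb'
    subst hb'
    obtain ⟨k1, k2, k3⟩ := chain_use (R := R7 x a1 a2 typ) hI.ch hn g3 hbZ
    have k1' : SG x τ a v' := by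
      rcases k1 with k1 | k1
      · exact k1
      · exact absurd k1.2 (hEa2 v' g1 g2)
    have hτ : τ ≠ .D := by
      rintro rfl
      exact not_NS1_D hs k1' hNS
    refine ⟨τ, hbZ, k1', hτ, ?_⟩
    rcases hI.ty v' (hEZ v' g1) with h | h
    · exact h
    · exact absurd hNS (excl1 hs k1' hτ (k3 h hτ))
  have hno01 : ∀ v a b a' b', NC x a1 a2 Z E P w0 ws 0 a v b → NS x 0 a v b →
      NC x a1 a2 Z E P w0 ws 1 a' v b' → NS x 1 a' v b' → False := by
    intro v a b a' b' hN hNS hN' hNS'
    obtain ⟨g1, g2, ⟨X, Y, g3⟩, g4⟩ := hN.c0 rfl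
    obtain ⟨g1', g2', -, g4'⟩ := hN'.c1 rfl
    obtain ⟨τ, k1, k2, k3, -⟩ := hne0 a v b hN hNS
    obtain ⟨τ', k1', k2', k3', -⟩ := hne1 a' v b' hN' hNS'
    rcases g4 with g4 | ⟨y, hy, rfl, hy0, hy1⟩
    · exact k3' (entry_unique hn k1' g4)
    rcases g4' with ⟨X', Y', b'', g5, g6⟩ | ⟨y', hy', rfl, hy0', hy1'⟩
    · have : b = b'' := next_unique hn g3 g5
      subst this
      exact k3 (entry_unique hn k1 g6)
    · have : a = b' := by
        rw [hy] at hy'; simpa using hy'
      subst this
      exact not_both hs hy0 hy1 hNS hNS'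
  have hmP : ∀ a v b, NC x a1 a2 Z E P w0 ws 2 a v b → v ∈ P := by
    intro a v b hN
    obtain ⟨p, q, h, -⟩ := hN.c2 rfl
    rw [h]; simp
  have huniq : ∀ v m a b m' a' b', NC x a1 a2 Z E P w0 ws m a v b → NS x m a v b →
      NC x a1 a2 Z E P w0 ws m' a' v b' → NS x m' a' v b' → m = m' := by
    intro v m a b m' a' b' hN hNS hN' hNS'
    have hm : m = 0 ∨ m = 1 ∨ m = 2 := fin3 m
    have hm' : m' = 0 ∨ m' = 1 ∨ m' = 2 := fin3 m'
    rcases hm with rfl | rfl | rfl <;> rcases hm' with rfl | rfl | rfl
    · rfl
    · exact absurd (hno01 v a b a' b' hN hNS hN' hNS') id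
    · exact absurd (hmP _ _ _ hN') (notP v (hEZ v (hN.c0 rfl).1))
    · exact absurd (hno01 v a' b' a b hN' hNS' hN hNS) id
    · rfl
    · exact absurd (hmP _ _ _ hN') (notP v (hEZ v (hN.c1 rfl).1))
    · exact absurd (hmP _ _ _ hN) (notP v (hEZ v (hN'.c0 rfl).1))
    · exact absurd (hmP _ _ _ hN) (notP v (hEZ v (hN'.c1 rfl).1))
    · rfl
  -- the new types
  let W : V → Fin 3 → Prop := fun v m => ∃ a b, NC x a1 a2 Z E P w0 ws m a v b ∧ NS x m a v b
  let typ' : V → Option (Fin 3) := fun v =>
    if h : ∃ m, W v m then some h.choose else if v ∈ P then none else typ v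
  have htW : ∀ v m, W v m → typ' v = some m := by
    intro v m hW
    have h : ∃ m, W v m := ⟨m, hW⟩
    have h7 : typ' v = some h.choose := by simp only [typ', dif_pos h]
    rw [h7]
    obtain ⟨a, b, g1, g2⟩ := h.choose_spec
    obtain ⟨a', b', g1', g2'⟩ := hW
    rw [huniq v _ a b _ a' b' g1 g2 g1' g2']
  have htn : ∀ v, (¬ ∃ m, W v m) → v ∉ P → typ' v = typ v := by
    intro v h hv
    simp only [typ', dif_neg h, if_neg hv]
  have htP : ∀ v, (¬ ∃ m, W v m) → v ∈ P → typ' v = none := by
    intro v h hv
    simp only [typ', dif_neg h, if_pos hv]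
  -- on the new contour only label 2
  have hW2 : ∀ v ∈ Z'.map Prod.fst, ∀ m, W v m → m = 2 := by
    intro v hv m ⟨a, b, g1, g2⟩
    have hm : m = 0 ∨ m = 1 ∨ m = 2 := fin3 m
    rcases hm with rfl | rfl | rfl
    · obtain ⟨k1, k2, -⟩ := g1.c0 rfl
      exact absurd hv (hcov v k1 k2)
    · obtain ⟨k1, k2, -⟩ := g1.c1 rfl
      exact absurd hv (hcov v k1 k2)
    · rfl
  have hold : ∀ v ∈ Z'.map Prod.fst, v ∉ P → typ' v = typ v := by
    intro v hv hvP
    refine htn v ?_ hvP
    rintro ⟨m, hW⟩
    obtain rfl := hW2 v hv m hW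
    obtain ⟨a, b, g1, g2⟩ := hW
    exact hvP (hmP _ _ _ g1)
  have hP2 : ∀ v ∈ P, typ' v = some 2 → ∃ a b, NC x a1 a2 Z E P w0 ws 2 a v b ∧ NS x 2 a v b := by
    intro v hv ht
    by_cases h : ∃ m, W v m
    · obtain ⟨m, hW⟩ := h
      have := hW2 v (by rw [hZv']; simp [hv]) m hW
      subst this
      exact hW
    · rw [htP v h hv] at ht; simp at ht
  have mA : ∀ e ∈ A, e.1 ∉ P := fun e he => notP _ (by
    rw [hZv]; simp only [List.mem_append]; exact Or.inl (List.mem_map.2 ⟨e, he, rfl⟩))
  have mw0 : w0 ∉ P := notP _ (by rw [hZv]; simp)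
  have mws : ws ∉ P := notP _ (hEZ _ hwsE)
  have mC : ∀ e ∈ C, e.1 ∉ P := fun e he => notP _ (by
    rw [hZv]; simp only [List.mem_append, List.mem_cons]
    exact Or.inr (Or.inr (Or.inr (List.mem_map.2 ⟨e, he, rfl⟩))))
  refine ⟨typ', ?_, ?_, ?_⟩
  · -- ty
    intro v hv
    by_cases h : ∃ m, W v m
    · obtain ⟨m, hW⟩ := h
      have := hW2 v hv m hW
      subst this
      exact Or.inr (htW v 2 hW)
    · by_cases hvP : v ∈ P
      · exact Or.inl (htP v h hvP)
      · rw [htn v h hvP]
        apply hI.ty
        rw [hZv'] at hv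
        rw [hZv]
        simp only [List.mem_append, List.mem_cons] at hv ⊢
        rcases hv with hv | hv | hv | rfl | hv
        · exact Or.inl hv
        · exact Or.inr (Or.inl hv)
        · exact absurd hv hvP
        · exact Or.inr (Or.inr (Or.inl hwsE))
        · exact Or.inr (Or.inr (Or.inr hv))
  · -- ch
    have hK := hI.ch
    rw [hZ, List.isChain_split] at hK
    obtain ⟨K1, K2⟩ := hK
    rw [hZ', List.isChain_split]
    have hR : ∀ τ a b, typ' a = typ a → typ' b = typ b → R7 x a1 a2 typ τ a b →
        R7 x a1 a2 typ' τ a b := by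
      rintro τ a b ha hb ⟨k1, k2, k3⟩
      exact ⟨k1, by rw [ha]; exact k2, by rw [hb]; exact k3⟩
    refine ⟨K1.imp_of_mem_imp fun e e' he he' hQ => ?_, ?_⟩
    · have g : ∀ e ∈ A ++ [(w0, t0)], typ' e.1 = typ e.1 := by
        intro e he
        rw [List.mem_append, List.mem_singleton] at he
        rcases he with he | rfl
        · exact hold _ (by
            rw [hZv']; simp only [List.mem_append]
            exact Or.inl (List.mem_map.2 ⟨e, he, rfl⟩)) (mA e he)
        · exact hold _ (by rw [hZv']; simp) mw0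
      exact hR _ _ _ (g e he) (g e' he') hQ
    · obtain ⟨L, τ, hL, -⟩ := exists_last_entry w0 t0 segs
      have K3 : ((ws, τ) :: C).IsChain (fun e e' => R7 x a1 a2 typ e'.2 e.1 e'.1) := by
        have : (w0, t0) :: (segs.flatMap Seg.entries ++ C) = L ++ (ws, τ) :: C := by
          rw [← List.cons_append, hL, List.append_assoc]; rfl
        rw [this, List.isChain_split] at K2
        exact K2.2
      have K4 : ((ws, Ty.D) :: C).IsChain (fun e e' => R7 x a1 a2 typ' e'.2 e.1 e'.1) := by
        refine chain_head_congr (R := fun τ a b => R7 x a1 a2 typ' τ a b)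
          (K3.imp_of_mem_imp fun e e' he he' hQ => ?_)
        have g : ∀ e ∈ (ws, τ) :: C, typ' e.1 = typ e.1 := by
          intro e he
          rw [List.mem_cons] at he
          rcases he with rfl | he
          · exact hold _ (by rw [hZv']; simp) mws
          · exact hold _ (by
              rw [hZv']; simp only [List.mem_append, List.mem_cons]
              exact Or.inr (Or.inr (Or.inr (Or.inr (List.mem_map.2 ⟨e, he, rfl⟩))))) (mC e he)
        exact hR _ _ _ (g e he) (g e' he') hQ
      -- the first and last faces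
      obtain ⟨f1, hf1, hf1a, hf1b, hf1c⟩ : ∃ f ∈ newFaces P true w0 segs, f.wl = w0 ∧
          f.first = true ∧ f.top = P := by
        cases segs with
        | nil => exact absurd rfl h2
        | cons s ss => exact ⟨_, List.mem_cons_self, rfl, rfl, rfl⟩
      obtain ⟨f2, hf2, hf2a, hf2b, hf2c⟩ : ∃ f ∈ newFaces P true w0 segs, f.wr = ws ∧
          f.last = true ∧ f.top = P := by
        have : ∀ (b : Bool) (w : V) (ss : List (Seg V)), ss ≠ [] → ∃ f ∈ newFaces P b w ss,
            f.wr = lastW w ss ∧ f.last = true ∧ f.top = P := by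
          intro b w ss
          induction ss generalizing b w with
          | nil => intro h; exact absurd rfl h
          | cons s ss ih =>
            intro _
            by_cases hss : ss = []
            · subst hss
              exact ⟨_, List.mem_cons_self, rfl, rfl, rfl⟩
            · obtain ⟨f, hf, h⟩ := ih false s.w hss
              exact ⟨f, List.mem_cons_of_mem _ hf, h⟩
        exact this true w0 segs h2
      have X1 := hXn f1 hf1
      have X2 := hXn f2 hf2
      cases hP : P with
      | nil => exact absurd hP h3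
      | cons p P' =>
        rw [hP] at hf1c hf2c
        have hlastP : ∀ a ∈ (p :: P').getLast?, R7 x a1 a2 typ' .D a ws := by
          intro a ha
          have haP : a ∈ P := by rw [hP]; exact List.mem_of_getLast? ha
          have haP' : a ∈ f2.top := by rw [hf2c, ← hP]; exact haP
          refine ⟨Or.inl ⟨?_, ?_, ?_⟩, fun ht _ => ?_, fun _ h => absurd rfl h⟩
          · rw [← hf2a]; exact X2.last_edge hf2b a (by rw [hf2c]; exact ha)
          · rw [← hf2a]; exact X2.right_max a (by simp [haP'])
          · rw [← hf2a]; exact X2.top_max a haP' f2.wr (by simp)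
          · obtain ⟨a', b', hN, hNS⟩ := hP2 a haP ht
            obtain ⟨p', q', k1, k2, k3⟩ := hN.c2 rfl
            have hq : q' = [] := by
              obtain ⟨L', hL'⟩ := exists_eq_append_last ha
              rw [← hP] at hL'
              by_contra hne
              rw [k1] at h5
              have h8 : a ∈ q' := by
                have e1 : P.getLast? = some a := by rw [hL']; simp
                rw [k1, List.getLast?_append, List.getLast?_cons] at e1
                cases hh : q'.getLast? with
                | none => exact absurd (List.getLast?_eq_none_iff.1 hh) hne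
                | some z =>
                  rw [hh] at e1
                  simp at e1
                  rw [← e1]
                  exact List.mem_of_getLast? hh
              have := (List.nodup_append.1 h5).2.1
              rw [List.nodup_cons] at this
              exact this.1 h8
            subst hq
            simp only [List.nil_append, List.head?_cons, Option.some.injEq] at k3
            subst k3
            exact hNS.2.2.1
        have hchP : (p :: P').IsChain (R7 x a1 a2 typ' .H) := by
          have g1 := X1.top_mono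
          rw [hf1c] at g1
          rw [List.isChain_iff_getElem] at g1 ⊢
          intro i hi
          have hi' : i + 1 < P.length := by rw [hP]; exact hi
          have e1 : ∀ (j : ℕ) (h : j < (p :: P').length), (p :: P')[j] = P[j]'(by rw [hP]; exact h) :=
            fun j h => by simp only [hP]
          have m1 : (p :: P')[i] ∈ P := by rw [hP]; exact List.getElem_mem _
          have m2 : (p :: P')[i + 1] ∈ P := by rw [hP]; exact List.getElem_mem _
          have m1' : (p :: P')[i] ∈ f1.top := by rw [hf1c]; exact List.getElem_mem _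
          have m2' : (p :: P')[i + 1] ∈ f1.top := by rw [hf1c]; exact List.getElem_mem _
          have c1 := g1 i hi
          have c2 := X1.top_const _ m1' _ m2'
          have s1 := hs (p :: P')[i]
          have s2 := hs (p :: P')[i + 1]
          have hdec : P = P.take i ++ (p :: P')[i] :: (p :: P')[i + 1] :: P.drop (i + 2) := by
            conv_lhs => rw [← List.take_append_drop i P]
            rw [List.drop_eq_getElem_cons (by omega), List.drop_eq_getElem_cons hi']
            simp only [e1]
          refine ⟨Or.inl ⟨c1, by omega, c2.symm⟩, fun ht _ => ?_, fun ht _ => ?_⟩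
          · obtain ⟨a', b', hN, hNS⟩ := hP2 _ m1 ht
            obtain ⟨p', q', k1, k2, k3⟩ := hN.c2 rfl
            obtain ⟨q'', k4⟩ := exists_eq_cons k3
            have : (p :: P')[i + 1] = a' := by
              cases q' with
              | nil =>
                exfalso
                have e3 : P.getLast? = some ((p :: P')[i]) := by rw [k1]; simp
                have e2 := h5
                rw [hdec, List.getLast?_append, List.getLast?_cons_cons] at e3
                rw [hdec] at e2
                have e4 := (List.nodup_append.1 e2).2.1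
                rw [List.nodup_cons] at e4
                apply e4.1
                cases hh : ((p :: P')[i + 1] :: P.drop (i + 2)).getLast? with
                | none => simp at hh
                | some z =>
                  rw [hh] at e3
                  simp at e3
                  rw [← e3]
                  exact List.mem_of_getLast? hh
              | cons z q' =>
                simp only [List.cons_append, List.cons.injEq] at k4
                rw [k4.1] at k1
                exact next_unique h5 hdec k1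
            rw [this]
            exact hNS.2.2.1
          · obtain ⟨a', b', hN, hNS⟩ := hP2 _ m2 ht
            obtain ⟨p', q', k1, k2, k3⟩ := hN.c2 rfl
            have : (p :: P')[i] = b' := by
              rcases List.eq_nil_or_concat p' with h | ⟨L', z, h⟩
              · exfalso
                subst h
                rw [List.nil_append] at k1
                have e2 := h5
                rw [hdec] at e2
                have e3 : P.head? = some ((p :: P')[i + 1]) := by rw [k1]; rfl
                rw [hdec] at e3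
                cases hh : P.take i with
                | nil =>
                  rw [hh] at e3 e2
                  simp only [List.nil_append, List.head?_cons, Option.some.injEq] at e3
                  rw [List.nil_append, List.nodup_cons] at e2
                  exact e2.1 (by rw [e3]; simp)
                | cons z L'' =>
                  rw [hh] at e3 e2
                  simp only [List.cons_append, List.head?_cons, Option.some.injEq] at e3
                  rw [List.cons_append, List.nodup_cons] at e2
                  exact e2.1 (by rw [e3]; simp)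
              · rw [List.concat_eq_append] at h
                subst h
                have e3 : z = b' := by
                  have : w0 :: (L' ++ [z]) = (w0 :: L') ++ [z] := by simp
                  rw [this, List.getLast?_append] at k2
                  simpa using k2
                subst e3
                rw [List.append_assoc] at k1
                exact pred_unique h5 hdec k1
            rw [this]
            exact hNS.2.2.2
        rw [pEnt, List.cons_append, List.isChain_cons_cons]
        refine ⟨⟨Or.inl ⟨?_, ?_, ?_⟩, fun _ h => absurd rfl h, fun ht _ => ?_⟩, chain_pEnt'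
          (R := fun τ a b => R7 x a1 a2 typ' τ a b) hchP hlastP K4⟩
        · rw [← hf1a]; exact X1.left_max p (by simp [hf1c])
        · rw [← hf1a]; exact X1.first_edge hf1b p (by rw [hf1c]; rfl)
        · rw [← hf1a]; exact X1.top_max p (by rw [hf1c]; simp) f1.wl (by simp)
        · obtain ⟨a', b', hN, hNS⟩ := hP2 p (by rw [hP]; simp) ht
          obtain ⟨p', q', k1, k2, k3⟩ := hN.c2 rfl
          rw [hP] at k1 h5
          have := nil_of_head h5 k1
          subst this
          simp only [List.getLast?_singleton, Option.some.injEq] at k2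
          subst k2
          exact hNS.2.2.2
  · -- co
    intro f hf m a v b hc hNS
    rw [List.mem_append] at hf
    rcases hf with hf | hf
    · exact htW v m ⟨a, b, hnc f hf m a v b hc hNS, hNS⟩
    · have ht := hI.co f hf m a v b hc hNS
      have hvb : BVert a1 a2 F v := by
        refine face_bvert h1 f hf v ?_
        have ht' : f.top ≠ [] := by
          have : ∀ {F : List (Face V)} {Z : List (V × Ty)}, CB a1 a2 F Z → ∀ f ∈ F, f.top ≠ [] := by
            intro F Z h
            induction h with
            | base h => intro f hf; simp at hf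
            | step F A w0 t0 segs C P h1 h2 h3 h4 h5 h6 ih =>
              intro f hf
              rw [List.mem_append] at hf
              rcases hf with hf | hf
              · rw [top_of_mem_newFaces hf]; exact h3
              · exact ih f hf
          exact this h1 f hf
        rcases corner_cases ht' hc with ⟨-, p, q, h, -⟩ | ⟨-, p, q, h, -⟩ | ⟨-, p, q, h, -⟩
        · unfold fv; rw [h]; simp
        · unfold fv; rw [h]; simp
        · unfold fv; rw [h]; simp
      have hvP : v ∉ P := fun h => not_bvert (h6 v h) hvb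
      rw [← ht]
      refine htn v ?_ hvP
      rintro ⟨m', a', b', hN', hNS'⟩
      have hm : m' = 0 ∨ m' = 1 ∨ m' = 2 := fin3 m'
      rcases hm with rfl | rfl | rfl
      · obtain ⟨-, -, -, -, h⟩ := hne0 a' v b' hN' hNS'
        rw [ht] at h; simp at h
      · obtain ⟨-, -, -, -, h⟩ := hne1 a' v b' hN' hNS'
        rw [ht] at h; simp at h
      · exact hvP (hmP _ _ _ hN')

end

theorem exists_inv7 {V : Type} {a1 a2 : V} {F : List (Face V)} {Z : List (V × Ty)}
    {x : V → Fin 3 → ℤ} {N : ℤ} (h : CB a1 a2 F Z) (hs : ∀ v, x v 0 + x v 1 + x v 2 = N)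
    (hX : ∀ f ∈ F, FaceX x f) : ∃ typ, Inv7 x a1 a2 F Z typ := by
  induction h with
  | base h =>
    refine ⟨fun _ => none, ?_, ?_, ?_⟩
    · intro v _; exact Or.inl rfl
    · simp [R7]
    · intro f hf; simp at hf
  | step F A w0 t0 segs C P h1 h2 h3 h4 h5 h6 ih =>
    obtain ⟨typ, hI⟩ := ih fun f hf => hX f (List.mem_append.2 (Or.inr hf))
    exact step7 hs h1 h2 h3 h4 h5 h6 hX hI

end T7a

open T7a in
theorem t7a : T7a := by
  intro V _ a1 a2 F Z x N h hs hX
  obtain ⟨typ, hI⟩ := exists_inv7 h hs hX
  exact ⟨typ, hI.co⟩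

end Pool.Agent.Run7.h215
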