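import Pool.Agent.Run7.h215.T7b4

/-!
# T7b
-/

set_option autoImplicit false
set_option linter.unusedVariables false

namespace Pool.Agent.Run7.h215

namespace T7b

theorem abs_coord_le_nrm {V : Type*} (x : V → Fin 3 → ℤ) (a b : V) (m : Fin 3) :
    |x b m - x a m| ≤ nrm x a b := by
  unfold nrm
  fin_cases m
  · exact (le_max_left _ _).trans (le_max_left _ _)
  · exact (le_max_right _ _).trans (le_max_left _ _)
  · exact le_max_right _ _

theorem FF_diff {V : Type*} {x : V → Fin 3 → ℤ} {n : ℤ} {s κ : ℝ} (hκ : 0 ≤ κ)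
    (hx0 : ∀ v m, 0 ≤ x v m) (hx : ∀ v, x v 0 + x v 1 + x v 2 = n) (a b : V) (m : Fin 3) :
    |(FF s κ (x b) m - FF s κ (x a) m) - s * (x b m - x a m)| ≤ 8 * (κ * n) * nrm x a b := by
  have hn0 : ∀ v m, x v m ≤ n := by
    intro v m
    have := hx v
    have h0 := hx0 v 0
    have h1 := hx0 v 1
    have h2 := hx0 v 2
    fin_cases m
    · show x v 0 ≤ n; omega
    · show x v 1 ≤ n; omega
    · show x v 2 ≤ n; omega
  have hnn : (0 : ℝ) ≤ n := by
    have h1 := hn0 a 0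
    have h2 := hx0 a 0
    have : (0 : ℤ) ≤ n := by omega
    exact_mod_cast this
  have key : ∀ i : Fin 3, |((x b i : ℝ) + x a i) * ((x b i : ℝ) - x a i)| ≤
      ((x b i : ℝ) + x a i) * nrm x a b := by
    intro i
    have h1 : (0 : ℝ) ≤ (x b i : ℝ) + x a i := by
      have := hx0 b i; have := hx0 a i
      have h : 0 ≤ x b i + x a i := by omega
      exact_mod_cast h
    rw [abs_mul, abs_of_nonneg h1]
    apply mul_le_mul_of_nonneg_left _ h1
    have := abs_coord_le_nrm x a b i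
    exact_mod_cast this
  have hnr : (0 : ℝ) ≤ nrm x a b := by
    have h1 := abs_coord_le_nrm x a b 0
    have h2 := abs_nonneg (x b 0 - x a 0)
    have : 0 ≤ nrm x a b := h2.trans h1
    exact_mod_cast this
  have e : (FF s κ (x b) m - FF s κ (x a) m) - s * (x b m - x a m) =
      κ * (3 * (((x b m : ℝ) + x a m) * ((x b m : ℝ) - x a m)) -
        ((((x b 0 : ℝ) + x a 0) * ((x b 0 : ℝ) - x a 0)) +
        (((x b 1 : ℝ) + x a 1) * ((x b 1 : ℝ) - x a 1)) +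
        (((x b 2 : ℝ) + x a 2) * ((x b 2 : ℝ) - x a 2)))) := by
    unfold FF; ring
  rw [e, abs_mul, abs_of_nonneg hκ]
  have k0 := abs_le.1 (key 0)
  have k1 := abs_le.1 (key 1)
  have k2 := abs_le.1 (key 2)
  have km := abs_le.1 (key m)
  have hsb : (x b 0 : ℝ) + x b 1 + x b 2 = n := by exact_mod_cast hx b
  have hsa : (x a 0 : ℝ) + x a 1 + x a 2 = n := by exact_mod_cast hx a
  have hm : ((x b m : ℝ) + x a m) * nrm x a b ≤ 2 * n * nrm x a b := by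
    apply mul_le_mul_of_nonneg_right _ hnr
    have h1 : (x b m : ℝ) ≤ n := by exact_mod_cast hn0 b m
    have h2 : (x a m : ℝ) ≤ n := by exact_mod_cast hn0 a m
    linarith
  have hs3 : ((x b 0 : ℝ) + x a 0) * nrm x a b + ((x b 1 : ℝ) + x a 1) * nrm x a b +
      ((x b 2 : ℝ) + x a 2) * nrm x a b = 2 * n * nrm x a b := by
    rw [← add_mul, ← add_mul]
    congr 1
    linarith
  have hb : |3 * (((x b m : ℝ) + x a m) * ((x b m : ℝ) - x a m)) -
        ((((x b 0 : ℝ) + x a 0) * ((x b 0 : ℝ) - x a 0)) +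
        (((x b 1 : ℝ) + x a 1) * ((x b 1 : ℝ) - x a 1)) +
        (((x b 2 : ℝ) + x a 2) * ((x b 2 : ℝ) - x a 2)))| ≤ 8 * n * nrm x a b := by
    rw [abs_le]; constructor <;> linarith
  calc κ * _ ≤ κ * (8 * n * nrm x a b) := mul_le_mul_of_nonneg_left hb hκ
    _ = 8 * (κ * n) * nrm x a b := by ring

theorem t7b_of (h1 : T1) : T7b := by
  obtain ⟨C₀, hC₀⟩ := h1 (1 / 10 ^ 6) (1 / 10 ^ 8) (by norm_num) (by norm_num) (by norm_num)
    (by norm_num)
  refine ⟨4 * (4000 * (C₀ + 1000)), ?_⟩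
  intro V x R typ hR hx0 hxs
  have hRr : (1 : ℝ) ≤ R := by exact_mod_cast hR
  obtain ⟨C, hC⟩ : ∃ C : ℕ, C = 4000 * (C₀ + 1000) := ⟨_, rfl⟩
  obtain ⟨s, hs⟩ : ∃ s : ℝ, s = (C : ℝ) * R := ⟨_, rfl⟩
  obtain ⟨κ, hκ⟩ : ∃ κ : ℝ, κ = 1 / 10 ^ 8 * s / (R : ℝ) ^ 2 := ⟨_, rfl⟩
  obtain ⟨n, hn⟩ : ∃ n : ℤ, n = (R : ℤ) ^ 2 := ⟨_, rfl⟩
  have hnR : (n : ℝ) = (R : ℝ) ^ 2 := by rw [hn]; push_cast; ring
  have hCr : (4 * 10 ^ 6 : ℝ) ≤ C := by
    have : 4 * 10 ^ 6 ≤ C := by omega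
    exact_mod_cast this
  have hs6 : (4 * 10 ^ 6 : ℝ) ≤ s := by rw [hs]; nlinarith
  have hs6' : (10 ^ 6 : ℝ) ≤ s := by linarith
  have hs0 : 0 < s := by linarith
  have hκ0 : 0 < κ := by rw [hκ]; positivity
  have hκR : κ * (R : ℝ) ^ 2 = 1 / 10 ^ 8 * s := by rw [hκ]; field_simp
  have hn0 : (0 : ℝ) ≤ (n : ℝ) := by rw [hnR]; positivity
  -- chains
  have hchain : ∀ h : ℤ, ∃ α β : ℤ → ℤ, 0 ≤ h → h ≤ n →
      ChainOK s R κ (s + 3 * κ * ((n : ℝ) - h)) n α β := by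
    intro h
    by_cases hh : 0 ≤ h ∧ h ≤ n
    · have hhR : (0 : ℝ) ≤ (h : ℝ) := by exact_mod_cast hh.1
      have hhn : (h : ℝ) ≤ n := by exact_mod_cast hh.2
      have k1 : 0 ≤ κ * ((n : ℝ) - h) := mul_nonneg hκ0.le (by linarith)
      have k2 : κ * ((n : ℝ) - h) ≤ κ * (R : ℝ) ^ 2 := by
        apply mul_le_mul_of_nonneg_left _ hκ0.le; rw [← hnR]; linarith
      obtain ⟨α, β, g1, g2, g3, g4⟩ := hC₀ C (by omega) R hR (s + 3 * κ * ((n : ℝ) - h))
        (by rw [← hs]; linarith) (by rw [← hs]; linarith)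
      refine ⟨α, β, fun _ _ => ⟨?_, ?_, ?_, ?_, ?_⟩⟩
      · rw [hn]; exact g1
      · rw [hn]; exact g2
      · intro u hu1 hu2
        rw [hn] at hu1 hu2
        have := (g3 u hu1 hu2).1
        rw [← hs] at this
        exact this
      · intro u hu1 hu2
        rw [hn] at hu1 hu2
        have := (g3 u hu1 hu2).2
        rw [← hs, ← hκ] at this
        exact this
      · intro u hu1 hu2
        rw [hn] at hu1 hu2
        have := g4 u hu1 hu2
        rw [← hs, ← hκ] at this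
        have e : Real.sqrt (1 / 10 ^ 8 * (1 / 10 ^ 6)) = 1 / 10 ^ 7 := by
          rw [show (1 / 10 ^ 8 * (1 / 10 ^ 6) : ℝ) = (1 / 10 ^ 7) ^ 2 by norm_num]
          exact Real.sqrt_sq (by norm_num)
        rw [e] at this
        exact this
    · exact ⟨fun _ => 0, fun _ => 0, fun h0 hn => absurd ⟨h0, hn⟩ hh⟩
  choose α β hch using hchain
  obtain ⟨rC, hrCdef⟩ : ∃ rC : ℤ → ℤ, rC = fun h : ℤ => round (s * (h : ℝ) + 2 * κ * (h : ℝ) ^ 2 -
    κ / 2 * ((n : ℝ) - h) ^ 2) := ⟨_, rfl⟩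
  have hrC : ∀ h : ℤ, |(rC h : ℝ) - (s * h + 2 * κ * (h : ℝ) ^ 2 -
      κ / 2 * ((n : ℝ) - h) ^ 2)| ≤ 1 / 2 := by
    intro h
    rw [hrCdef, abs_sub_comm]
    exact abs_sub_round _
  have hxn : ∀ v, x v 0 + x v 1 + x v 2 = n := fun v => by rw [hn]; exact hxs v
  have hTr : (((C₀ + 1000) * R : ℕ) : ℤ) = (((C₀ + 1000) * R : ℕ) : ℤ) := rfl
  have hTrR : ((((C₀ + 1000) * R : ℕ) : ℤ) : ℝ) = 1 / 4000 * s := by
    rw [hs, hC]; push_cast; ring
  have hsS : s = ((C * R : ℕ) : ℝ) := by rw [hs]; push_cast; ring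
  have hq : ∀ v, ∃ q : Fin 3 → ℤ, VQ s κ (2 * (C * R : ℕ) * n) (((C₀ + 1000) * R : ℕ) : ℤ) α β rC
      (x v) (typ v) q := fun v =>
    exists_vq (R := R) hsS hs6' hTrR α β rC hrC hch (x v) (hx0 v) (hxn v) (typ v)
  choose q hq using hq
  refine ⟨C * R, 2 * (C * R : ℕ) * n, q, ?_, ?_, fun v => (hq v).sum, ?_, ?_⟩
  · have : 1 ≤ C := by omega
    exact Nat.mul_pos this hR
  · -- size
    intro v m
    have hv := (hq v).abs hs0 m
    have hF : |FF s κ (x v) m| ≤ s * (R : ℝ) ^ 2 + 4 / 10 ^ 8 * s * (R : ℝ) ^ 2 := by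
      have hxv : ∀ i, (0 : ℝ) ≤ x v i ∧ (x v i : ℝ) ≤ (R : ℝ) ^ 2 := by
        intro i
        have h0 := hx0 v 0
        have h1 := hx0 v 1
        have h2 := hx0 v 2
        have h3 := hx0 v i
        have hsum := hxn v
        rw [← hnR]
        refine ⟨by exact_mod_cast h3, ?_⟩
        have : x v i ≤ n := by
          fin_cases i
          · show x v 0 ≤ n; omega
          · show x v 1 ≤ n; omega
          · show x v 2 ≤ n; omega
        exact_mod_cast this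
      have hsq : ∀ i, 0 ≤ (x v i : ℝ) ^ 2 ∧ (x v i : ℝ) ^ 2 ≤ (R : ℝ) ^ 2 * x v i := by
        intro i
        obtain ⟨h1, h2⟩ := hxv i
        exact ⟨by positivity, by rw [sq]; exact mul_le_mul_of_nonneg_right h2 h1⟩
      have hsumR : (x v 0 : ℝ) + x v 1 + x v 2 = (R : ℝ) ^ 2 := by
        rw [← hnR]; exact_mod_cast hxn v
      have hm := hxv m
      have hsm := hsq m
      have hs0' := hsq 0
      have hs1' := hsq 1
      have hs2' := hsq 2
      have hR2 : (0 : ℝ) < (R : ℝ) ^ 2 := by positivity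
      have t1 : (3 * (x v m : ℝ) ^ 2 - ((x v 0 : ℝ) ^ 2 + (x v 1 : ℝ) ^ 2 + (x v 2 : ℝ) ^ 2)) ≤
          4 * ((R : ℝ) ^ 2 * (R : ℝ) ^ 2) := by
        have : (R : ℝ) ^ 2 * x v m ≤ (R : ℝ) ^ 2 * (R : ℝ) ^ 2 :=
          mul_le_mul_of_nonneg_left hm.2 hR2.le
        have h4 : (0 : ℝ) ≤ (R : ℝ) ^ 2 * (R : ℝ) ^ 2 := by positivity
        linarith
      have t2 : -(4 * ((R : ℝ) ^ 2 * (R : ℝ) ^ 2)) ≤
          (3 * (x v m : ℝ) ^ 2 - ((x v 0 : ℝ) ^ 2 + (x v 1 : ℝ) ^ 2 + (x v 2 : ℝ) ^ 2)) := by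
        have h5 : (R : ℝ) ^ 2 * x v 0 + (R : ℝ) ^ 2 * x v 1 + (R : ℝ) ^ 2 * x v 2 =
          (R : ℝ) ^ 2 * (R : ℝ) ^ 2 := by rw [← mul_add, ← mul_add, hsumR]
        have h4 : (0 : ℝ) ≤ (R : ℝ) ^ 2 * (R : ℝ) ^ 2 := by positivity
        linarith
      have t3 := mul_le_mul_of_nonneg_left t1 hκ0.le
      have t4 := mul_le_mul_of_nonneg_left t2 hκ0.le
      have t5 : κ * (4 * ((R : ℝ) ^ 2 * (R : ℝ) ^ 2)) = 4 / 10 ^ 8 * s * (R : ℝ) ^ 2 := by
        linear_combination (4 * (R : ℝ) ^ 2) * hκR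
      have t6 : κ * -(4 * ((R : ℝ) ^ 2 * (R : ℝ) ^ 2)) = -(4 / 10 ^ 8 * s * (R : ℝ) ^ 2) := by
        linear_combination -(4 * (R : ℝ) ^ 2) * hκR
      rw [t5] at t3
      rw [t6] at t4
      have t7 : 0 ≤ s * x v m := mul_nonneg hs0.le hm.1
      have t8 : s * x v m ≤ s * (R : ℝ) ^ 2 := mul_le_mul_of_nonneg_left hm.2 hs0.le
      unfold FF
      rw [abs_le]
      constructor
      · have : 0 ≤ s * (R : ℝ) ^ 2 := by positivity
        linarith
      · linarith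
    have hR2 : (1 : ℝ) ≤ (R : ℝ) ^ 2 := by nlinarith
    have hsR : s ≤ s * (R : ℝ) ^ 2 := by nlinarith
    have h3 : |(q v m : ℝ)| ≤ 4 * (s * (R : ℝ) ^ 2) := by
      have h4 := abs_sub_abs_le_abs_sub (q v m : ℝ) (2 * FF s κ (x v) m)
      rw [abs_mul, abs_two] at h4
      nlinarith
    have h5 : 4 * (s * (R : ℝ) ^ 2) = ((4 * (4000 * (C₀ + 1000)) : ℕ) : ℝ) * (R : ℝ) ^ 3 := by
      rw [hs, hC]; push_cast; ring
    rw [h5] at h3
    exact_mod_cast h3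
  · -- robustness
    intro a b hab m
    have d1 := FF_diff (s := s) hκ0.le hx0 hxn a b m
    have d2 := (hq a).abs hs0 m
    have d3 := (hq b).abs hs0 m
    rw [hnR, hκR] at d1
    have hnr : (1 : ℝ) ≤ nrm x a b := by
      have : (1 : ℤ) ≤ nrm x a b := hab
      exact_mod_cast this
    have hsn : s ≤ s * nrm x a b := by nlinarith
    have key : 1000 * |((q b m : ℝ) - q a m) - 2 * s * (x b m - x a m)| ≤ 2 * s * nrm x a b := by
      have e : ((q b m : ℝ) - q a m) - 2 * s * (x b m - x a m) =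
        (q b m - 2 * FF s κ (x b) m) - (q a m - 2 * FF s κ (x a) m) +
          2 * ((FF s κ (x b) m - FF s κ (x a) m) - s * (x b m - x a m)) := by ring
      rw [e]
      have t1 := abs_add_le ((q b m - 2 * FF s κ (x b) m) - (q a m - 2 * FF s κ (x a) m))
        (2 * ((FF s κ (x b) m - FF s κ (x a) m) - s * (x b m - x a m)))
      have t2 := abs_sub ((q b m : ℝ) - 2 * FF s κ (x b) m) (q a m - 2 * FF s κ (x a) m)
      rw [abs_mul 2, abs_two] at t1
      linarith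
    rw [hsS] at key
    exact_mod_cast key
  · -- nearly straight corners
    intro m a v b htv hja hjb hns
    obtain ⟨h1, h2, h3, h4⟩ := hns
    have := ns_pos (R := R) hs6' hRr hnR hκ α β rC hch (x a) (x v) (x b) (hx0 a) (hx0 v) (hx0 b)
      (hxn a) (hxn v) (hxn b) (typ a) (typ v) (typ b) (q a) (q v) (q b) (hq a) (hq v) (hq b) m htv
      hja hjb h1 h2 h3 h4
    have h2om := two_om (W := 2 * (C * R : ℕ) * n) (q := q) (fun v => (hq v).sum) m a v b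
    rw [← h2om] at this
    omega

end T7b

theorem t7b_of (h1 : T1) : T7b := T7b.t7b_of h1

end Pool.Agent.Run7.h215
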