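import Pool.Agent.Run7.h215.T7a
import Pool.Agent.Run7.h215.T6

/-!
# T7c: robust positions satisfy the geometric conditions
-/

set_option autoImplicit false
set_option linter.unusedSectionVars false
set_option linter.unusedVariables false

namespace Pool.Agent.Run7.h215

namespace T7c

open T6 T7a

section
variable {V : Type*}

/-- Robust closeness. -/
def Rob (x q : V → Fin 3 → ℤ) (S : ℕ) : Prop :=
  ∀ a b, 0 < nrm x a b → ∀ m,
    1000 * |(q b m - q a m) - 2 * S * (x b m - x a m)| ≤ 2 * S * nrm x a b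

theorem abs_le_nrm (x : V → Fin 3 → ℤ) (a b : V) (m : Fin 3) : |x b m - x a m| ≤ nrm x a b := by
  unfold nrm
  have hm := fin3 m
  rcases hm with rfl | rfl | rfl
  · exact le_max_of_le_left (le_max_left _ _)
  · exact le_max_of_le_left (le_max_right _ _)
  · exact le_max_right _ _

theorem nrm_pos {x : V → Fin 3 → ℤ} {a b : V} {m : Fin 3} (h : x a m ≠ x b m) :
    0 < nrm x a b := by
  have h1 := abs_le_nrm x a b m
  have h2 : 0 < |x b m - x a m| := abs_pos.2 (sub_ne_zero.2 h.symm)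
  omega

theorem nrm_symm (x : V → Fin 3 → ℤ) (a b : V) : nrm x a b = nrm x b a := by
  unfold nrm
  rw [abs_sub_comm (x b 0), abs_sub_comm (x b 1), abs_sub_comm (x b 2)]

theorem om_rev (x : V → Fin 3 → ℤ) (a b c : V) : om x c b a = - om x a b c := by
  unfold om; ring

theorem mul_abs_le {X Y A B : ℝ} (h1 : |X| ≤ A) (h2 : |Y| ≤ B) : |X * Y| ≤ A * B := by
  rw [abs_mul]
  exact mul_le_mul h1 h2 (abs_nonneg _) ((abs_nonneg _).trans h1)

theorem real_robust {S n1 n2 a0 a1 b0 b1 A0 A1 B0 B1 : ℝ} (hS : 0 ≤ S)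
    (h1 : 0 ≤ n1) (h2 : 0 ≤ n2)
    (ha0 : |a0| ≤ n1) (ha1 : |a1| ≤ n1) (hb0 : |b0| ≤ n2) (hb1 : |b1| ≤ n2)
    (hA0 : |A0 - 2 * S * a0| ≤ 2 * S * n1 / 1000) (hA1 : |A1 - 2 * S * a1| ≤ 2 * S * n1 / 1000)
    (hB0 : |B0 - 2 * S * b0| ≤ 2 * S * n2 / 1000) (hB1 : |B1 - 2 * S * b1| ≤ 2 * S * n2 / 1000) :
    4 * S ^ 2 * (a0 * b1 - a1 * b0) - 4 * S ^ 2 * (n1 * n2) / 200 ≤ A0 * B1 - A1 * B0 := by
  have hB1' : |B1| ≤ 2 * S * n2 * (1001 / 1000) := by
    have h3 : |2 * S * b1| ≤ 2 * S * n2 := by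
      rw [abs_mul, abs_of_nonneg (by positivity)]
      exact mul_le_mul_of_nonneg_left hb1 (by positivity)
    have h4 : |B1| ≤ |B1 - 2 * S * b1| + |2 * S * b1| := by
      have := abs_add_le (B1 - 2 * S * b1) (2 * S * b1)
      rwa [sub_add_cancel] at this
    linarith
  have hB0' : |B0| ≤ 2 * S * n2 * (1001 / 1000) := by
    have h3 : |2 * S * b0| ≤ 2 * S * n2 := by
      rw [abs_mul, abs_of_nonneg (by positivity)]
      exact mul_le_mul_of_nonneg_left hb0 (by positivity)
    have h4 : |B0| ≤ |B0 - 2 * S * b0| + |2 * S * b0| := by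
      have := abs_add_le (B0 - 2 * S * b0) (2 * S * b0)
      rwa [sub_add_cancel] at this
    linarith
  have t1 := mul_abs_le hA0 hB1'
  have t2 := mul_abs_le ha0 hB1
  have t3 := mul_abs_le hA1 hB0'
  have t4 := mul_abs_le ha1 hB0
  have e : A0 * B1 - A1 * B0 - 4 * S ^ 2 * (a0 * b1 - a1 * b0) =
      (A0 - 2 * S * a0) * B1 + 2 * S * (a0 * (B1 - 2 * S * b1)) - (A1 - 2 * S * a1) * B0 -
        2 * S * (a1 * (B0 - 2 * S * b0)) := by ring
  have s2 : |2 * S * (a0 * (B1 - 2 * S * b1))| ≤ 2 * S * (n1 * (2 * S * n2 / 1000)) := by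
    rw [abs_mul, abs_of_nonneg (by positivity : (0:ℝ) ≤ 2 * S)]
    exact mul_le_mul_of_nonneg_left t2 (by positivity)
  have s4 : |2 * S * (a1 * (B0 - 2 * S * b0))| ≤ 2 * S * (n1 * (2 * S * n2 / 1000)) := by
    rw [abs_mul, abs_of_nonneg (by positivity : (0:ℝ) ≤ 2 * S)]
    exact mul_le_mul_of_nonneg_left t4 (by positivity)
  have u1 := (abs_le.1 t1).1
  have u2 := (abs_le.1 s2).1
  have u3 := (abs_le.1 t3).2
  have u4 := (abs_le.1 s4).2
  have hnn : 0 ≤ S ^ 2 * (n1 * n2) := by positivity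
  nlinarith

variable {x q : V → Fin 3 → ℤ} {S : ℕ}

theorem Rob.real (h : Rob x q S) {a b : V} (hp : 0 < nrm x a b) (m : Fin 3) :
    |((q b m : ℝ) - q a m) - 2 * S * ((x b m : ℝ) - x a m)| ≤ 2 * S * (nrm x a b : ℝ) / 1000 := by
  have h1 := h a b hp m
  have h2 : (1000 : ℝ) * |((q b m : ℝ) - q a m) - 2 * S * ((x b m : ℝ) - x a m)| ≤
      2 * S * (nrm x a b : ℝ) := by exact_mod_cast h1
  linarith

/-- The robust lemma. -/
theorem robust (hR : Rob x q S) (hS : 1 ≤ S) {a v b : V} (h1 : 0 < nrm x a v)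
    (h2 : 0 < nrm x v b) (h : nrm x a v * nrm x v b ≤ 50 * om x a v b) : 0 < om q a v b := by
  have c : ∀ (a b : V) (m : Fin 3), |((x b m : ℝ) - x a m)| ≤ (nrm x a b : ℝ) := fun a b m => by
    exact_mod_cast abs_le_nrm x a b m
  have key := real_robust (S := S) (n1 := nrm x a v) (n2 := nrm x v b)
    (a0 := (x v 0 : ℝ) - x a 0) (a1 := (x v 1 : ℝ) - x a 1)
    (b0 := (x b 0 : ℝ) - x v 0) (b1 := (x b 1 : ℝ) - x v 1)
    (A0 := (q v 0 : ℝ) - q a 0) (A1 := (q v 1 : ℝ) - q a 1)
    (B0 := (q b 0 : ℝ) - q v 0) (B1 := (q b 1 : ℝ) - q v 1)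
    (by positivity) (by exact_mod_cast h1.le) (by exact_mod_cast h2.le)
    (c a v 0) (c a v 1) (c v b 0) (c v b 1) (hR.real h1 0) (hR.real h1 1) (hR.real h2 0)
    (hR.real h2 1)
  have e1 : ((om q a v b : ℤ) : ℝ) = ((q v 0 : ℝ) - q a 0) * ((q b 1 : ℝ) - q v 1) -
      ((q v 1 : ℝ) - q a 1) * ((q b 0 : ℝ) - q v 0) := by unfold om; push_cast; ring
  have e2 : ((om x a v b : ℤ) : ℝ) = ((x v 0 : ℝ) - x a 0) * ((x b 1 : ℝ) - x v 1) -
      ((x v 1 : ℝ) - x a 1) * ((x b 0 : ℝ) - x v 0) := by unfold om; push_cast; ring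
  rw [← e1, ← e2] at key
  have h' : (nrm x a v : ℝ) * nrm x v b ≤ 50 * (om x a v b : ℝ) := by exact_mod_cast h
  have hn : (0:ℝ) < (nrm x a v : ℝ) * nrm x v b := by
    have := mul_pos h1 h2
    exact_mod_cast this
  have hS' : (1:ℝ) ≤ S := by exact_mod_cast hS
  have hS2 : (1:ℝ) ≤ (S:ℝ) ^ 2 := by nlinarith
  have : (0:ℝ) < (om q a v b : ℤ) := by
    refine lt_of_lt_of_le ?_ key
    have : (0:ℝ) < 4 * (S:ℝ) ^ 2 * ((om x a v b : ℝ) - ((nrm x a v : ℝ) * nrm x v b) / 200) := by
      apply mul_pos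
      · positivity
      · linarith
    linarith
  exact_mod_cast this

/-- robustness with explicit vectors -/
theorem robustV (hR : Rob x q S) (hS : 1 ≤ S) {a v b : V} {d0 d1 d2 e0 e1 e2 n1 n2 : ℤ}
    (h1 : Vec x a v d0 d1 d2) (h2 : Vec x v b e0 e1 e2)
    (hp1 : d0 ≠ 0 ∨ d1 ≠ 0) (hp2 : e0 ≠ 0 ∨ e1 ≠ 0)
    (i0 : |d0| ≤ n1) (i1 : |d1| ≤ n1) (i2 : |d2| ≤ n1)
    (j0 : |e0| ≤ n2) (j1 : |e1| ≤ n2) (j2 : |e2| ≤ n2)
    (h : n1 * n2 ≤ 50 * (d0 * e1 - d1 * e0)) : 0 < om q a v b := by
  refine robust hR hS ?_ ?_ ?_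
  · rcases hp1 with hp | hp
    · exact nrm_pos (m := 0) (fun h => hp (by rw [← h1.1, h]; ring))
    · exact nrm_pos (m := 1) (fun h => hp (by rw [← h1.2.1, h]; ring))
  · rcases hp2 with hp | hp
    · exact nrm_pos (m := 0) (fun h => hp (by rw [← h2.1, h]; ring))
    · exact nrm_pos (m := 1) (fun h => hp (by rw [← h2.2.1, h]; ring))
  · rw [om_of_vec h1 h2]
    refine (mul_le_mul (nrm_of_vec h1 i0 i1 i2) (nrm_of_vec h2 j0 j1 j2) (nrm_nonneg _ _ _)
      ((abs_nonneg _).trans i0)).trans h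

/-- difference of abscissas -/
def dX (x : V → Fin 3 → ℤ) (a b : V) : ℤ := (x b 1 - x b 0) - (x a 1 - x a 0)

theorem dX_close (hR : Rob x q S) {a b : V} (h : 0 < nrm x a b) :
    |(dX q a b : ℝ) - 2 * S * (dX x a b : ℝ)| ≤ 4 * S * (nrm x a b : ℝ) / 1000 := by
  have h0 := hR.real h 0
  have h1 := hR.real h 1
  unfold dX
  push_cast
  rw [abs_le] at h0 h1 ⊢
  constructor <;> linarith [h0.1, h0.2, h1.1, h1.2]

theorem dX_pos (hR : Rob x q S) (hS : 1 ≤ S) {a b : V} (h : 0 < nrm x a b)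
    (h1 : nrm x a b ≤ 4 * dX x a b) : 0 < dX q a b := by
  have h2 := (abs_le.1 (dX_close hR h)).1
  have h3 : (nrm x a b : ℝ) ≤ 4 * (dX x a b : ℝ) := by exact_mod_cast h1
  have h4 : (0:ℝ) < nrm x a b := by exact_mod_cast h
  have hS' : (1:ℝ) ≤ S := by exact_mod_cast hS
  have : (0:ℝ) < dX q a b := by nlinarith
  exact_mod_cast this

theorem dX_ge (hR : Rob x q S) (hS : 1 ≤ S) {a b : V} (h : 0 < nrm x a b)
    (h1 : 0 ≤ dX q a b) : - nrm x a b ≤ 500 * dX x a b := by
  have h2 := (abs_le.1 (dX_close hR h)).2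
  have h3 : (0 : ℝ) ≤ (dX q a b : ℝ) := by exact_mod_cast h1
  have hS' : (1:ℝ) ≤ S := by exact_mod_cast hS
  have h5 : 0 ≤ (S:ℝ) * (2 * (dX x a b : ℝ) + 4 * (nrm x a b : ℝ) / 1000) := by linarith
  have h6 : 0 ≤ 2 * (dX x a b : ℝ) + 4 * (nrm x a b : ℝ) / 1000 := by
    by_contra hc
    push Not at hc
    have : (S:ℝ) * (2 * (dX x a b : ℝ) + 4 * (nrm x a b : ℝ) / 1000) < 0 :=
      mul_neg_of_pos_of_neg (by linarith) hc
    linarith
  have : (-(nrm x a b) : ℝ) ≤ 500 * (dX x a b : ℝ) := by linarith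
  exact_mod_cast this

theorem dY_pos (hR : Rob x q S) (hS : 1 ≤ S) {a b : V} (h : 0 < nrm x a b)
    (h1 : nrm x a b ≤ 4 * (x b 2 - x a 2)) : q a 2 < q b 2 := by
  have h2 := (abs_le.1 (hR.real h 2)).1
  have h3 : (nrm x a b : ℝ) ≤ 4 * ((x b 2 : ℝ) - x a 2) := by exact_mod_cast h1
  have h4 : (0:ℝ) < nrm x a b := by exact_mod_cast h
  have hS' : (1:ℝ) ≤ S := by exact_mod_cast hS
  have : (q a 2 : ℝ) < q b 2 := by nlinarith
  exact_mod_cast this

theorem nrm_eq {x : V → Fin 3 → ℤ} {a b : V} {d0 d1 d2 n : ℤ} (h : Vec x a b d0 d1 d2)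
    (h0 : |d0| ≤ n) (h1 : |d1| ≤ n) (h2 : |d2| ≤ n) (hn : |d0| = n ∨ |d1| = n ∨ |d2| = n) :
    nrm x a b = n := by
  apply le_antisymm (nrm_of_vec h h0 h1 h2)
  have g0 := abs_le_nrm x a b 0
  have g1 := abs_le_nrm x a b 1
  have g2 := abs_le_nrm x a b 2
  rw [h.1] at g0
  rw [h.2.1] at g1
  rw [h.2.2] at g2
  rcases hn with hn | hn | hn <;> omega

theorem cr_bpos {q : V → Fin 3 → ℤ} {W : ℤ} (hq : ∀ v, q v 0 + q v 1 + q v 2 = W) (a b c : V) :
    cr (bpos q) a b c = 2 * (om q a b c : ℤ) := by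
  have h1 : ∀ v, (q v 2 : ℝ) = W - q v 0 - q v 1 := fun v => by
    have := hq v
    have h : (q v 0 : ℝ) + q v 1 + q v 2 = W := by exact_mod_cast this
    linarith
  unfold cr bpos om
  simp only [h1]
  push_cast
  ring

theorem vec_of (x : V → Fin 3 → ℤ) {N : ℤ} (hs : ∀ v, x v 0 + x v 1 + x v 2 = N) (a b : V)
    {d0 d1 : ℤ} (h0 : x b 0 - x a 0 = d0) (h1 : x b 1 - x a 1 = d1) :
    Vec x a b d0 d1 (-d0 - d1) := by
  refine ⟨h0, h1, ?_⟩
  have := hs a
  have := hs b
  omega

theorem uu0 (x : V → Fin 3 → ℤ) (v : V) : uu x 0 v = x v 1 - x v 2 := rfl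
theorem uu1 (x : V → Fin 3 → ℤ) (v : V) : uu x 1 v = x v 2 - x v 0 := rfl
theorem uu2 (x : V → Fin 3 → ℤ) (v : V) : uu x 2 v = x v 0 - x v 1 := rfl

/-- label 0, previous vertex in the same part -/
theorem c0str {N : ℤ} (hs : ∀ v, x v 0 + x v 1 + x v 2 = N) (hR : Rob x q S) (hS : 1 ≤ S)
    {a v b : V} (h1 : x a 0 = x v 0) (h2 : x a 1 < x v 1) (h3 : x b 0 ≤ x v 0)
    (h4 : x v 1 < x b 1) (hNS : NS x 0 a v b → 0 < om q a v b) : 0 < om q a v b := by
  by_cases h : NS x 0 a v b
  · exact hNS h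
  · obtain ⟨t, ht⟩ : ∃ t, t = x v 1 - x a 1 := ⟨_, rfl⟩
    obtain ⟨j, hj⟩ : ∃ j, j = x v 0 - x b 0 := ⟨_, rfl⟩
    obtain ⟨p, hp⟩ : ∃ p, p = x b 1 - x v 1 := ⟨_, rfl⟩
    have g1 := hs a
    have g2 := hs v
    have g3 := hs b
    have hjp : 2 * p < 11 * j := by
      by_contra hc
      apply h
      refine ⟨?_, ?_, ?_, ?_⟩ <;> simp only [uu0] <;> omega
    refine robustV hR hS (vec_of x hs a v (d0 := 0) (d1 := t) (by omega) (by omega))
      (vec_of x hs v b (d0 := -j) (d1 := p) (by omega) (by omega)) (Or.inr (by omega))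
      (Or.inr (by omega)) (n1 := t) (n2 := j + p) ?_ ?_ ?_ ?_ ?_ ?_ ?_
    any_goals (rw [abs_le]; constructor <;> omega)
    nlinarith [mul_nonneg (show (0:ℤ) ≤ t by omega) (show (0:ℤ) ≤ 11 * j - 2 * p by omega),
      mul_nonneg (show (0:ℤ) ≤ t by omega) (show (0:ℤ) ≤ j by omega)]

/-- label 1, next vertex in the same part -/
theorem c1str {N : ℤ} (hs : ∀ v, x v 0 + x v 1 + x v 2 = N) (hR : Rob x q S) (hS : 1 ≤ S)
    {a v b : V} (h1 : x b 1 = x v 1) (h2 : x b 0 < x v 0) (h3 : x a 1 ≤ x v 1)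
    (h4 : x v 0 < x a 0) (hNS : NS x 1 a v b → 0 < om q a v b) : 0 < om q a v b := by
  by_cases h : NS x 1 a v b
  · exact hNS h
  · obtain ⟨t, ht⟩ : ∃ t, t = x v 0 - x b 0 := ⟨_, rfl⟩
    obtain ⟨j, hj⟩ : ∃ j, j = x v 1 - x a 1 := ⟨_, rfl⟩
    obtain ⟨p, hp⟩ : ∃ p, p = x a 0 - x v 0 := ⟨_, rfl⟩
    have g1 := hs a
    have g2 := hs v
    have g3 := hs b
    have hjp : 2 * p < 11 * j := by
      by_contra hc
      apply h
      refine ⟨?_, ?_, ?_, ?_⟩ <;> simp only [uu1] <;> omega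
    refine robustV hR hS (vec_of x hs a v (d0 := -p) (d1 := j) (by omega) (by omega))
      (vec_of x hs v b (d0 := -t) (d1 := 0) (by omega) (by omega)) (Or.inl (by omega))
      (Or.inl (by omega)) (n1 := j + p) (n2 := t) ?_ ?_ ?_ ?_ ?_ ?_ ?_
    any_goals (rw [abs_le]; constructor <;> omega)
    nlinarith [mul_nonneg (show (0:ℤ) ≤ t by omega) (show (0:ℤ) ≤ 11 * j - 2 * p by omega),
      mul_nonneg (show (0:ℤ) ≤ t by omega) (show (0:ℤ) ≤ j by omega)]

/-- label 2: `a` is the right neighbour, `b` the left one -/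
theorem c2 {N : ℤ} (hs : ∀ v, x v 0 + x v 1 + x v 2 = N) (hR : Rob x q S) (hS : 1 ≤ S)
    {a v b : V} (h1 : x a 0 ≤ x v 0) (h2 : x a 2 ≤ x v 2) (h3 : x v 1 < x a 1)
    (h4 : x v 0 < x b 0) (h5 : x b 1 ≤ x v 1) (h6 : x b 2 ≤ x v 2)
    (hNS : NS x 2 a v b → 0 < om q a v b) : 0 < om q a v b := by
  by_cases h : NS x 2 a v b
  · exact hNS h
  · obtain ⟨e, he⟩ : ∃ e, e = x v 0 - x a 0 := ⟨_, rfl⟩
    obtain ⟨g, hg⟩ : ∃ g, g = x v 2 - x a 2 := ⟨_, rfl⟩
    obtain ⟨g', hg'⟩ : ∃ g', g' = x v 2 - x b 2 := ⟨_, rfl⟩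
    obtain ⟨q', hq'⟩ : ∃ q', q' = x v 1 - x b 1 := ⟨_, rfl⟩
    have g1 := hs a
    have g2 := hs v
    have g3 := hs b
    have hjp : 2 * e < 9 * g ∨ 2 * q' < 9 * g' := by
      by_contra hc
      push Not at hc
      apply h
      refine ⟨?_, ?_, ?_, ?_⟩ <;> simp only [uu2] <;> omega
    refine robustV hR hS (vec_of x hs a v (d0 := e) (d1 := -(e + g)) (by omega) (by omega))
      (vec_of x hs v b (d0 := g' + q') (d1 := -q') (by omega) (by omega)) (Or.inr (by omega))
      (Or.inl (by omega)) (n1 := e + g) (n2 := g' + q') ?_ ?_ ?_ ?_ ?_ ?_ ?_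
    any_goals (rw [abs_le]; constructor <;> omega)
    have k1 := mul_nonneg (show (0:ℤ) ≤ e by omega) (show (0:ℤ) ≤ g' by omega)
    have k2 := mul_nonneg (show (0:ℤ) ≤ g by omega) (show (0:ℤ) ≤ g' by omega)
    have k3 := mul_nonneg (show (0:ℤ) ≤ g by omega) (show (0:ℤ) ≤ q' by omega)
    rcases hjp with hjp | hjp
    · nlinarith [mul_nonneg (show (0:ℤ) ≤ q' by omega) (show (0:ℤ) ≤ 9 * g - 2 * e by omega)]
    · nlinarith [mul_nonneg (show (0:ℤ) ≤ e by omega) (show (0:ℤ) ≤ 9 * g' - 2 * q' by omega)]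

/-- fan corner at the right end `w` of a face, `y` to the right of `w` -/
theorem cfR {N : ℤ} (hs : ∀ v, x v 0 + x v 1 + x v 2 = N) (hR : Rob x q S) (hS : 1 ≤ S)
    {a w y : V} (h1 : x y 0 < x w 0) (h2 : x y 1 < x w 1) (h3 : x a 1 ≤ x w 1)
    (h4 : x w 0 < x a 0) (h5 : 0 ≤ dX q w y)
    (hNS : NS x 1 a w y → 0 < om q a w y) : 0 < om q a w y := by
  by_cases h : NS x 1 a w y
  · exact hNS h
  · obtain ⟨A, hA⟩ : ∃ A, A = x w 0 - x y 0 := ⟨_, rfl⟩
    obtain ⟨B, hB⟩ : ∃ B, B = x w 1 - x y 1 := ⟨_, rfl⟩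
    obtain ⟨j, hj⟩ : ∃ j, j = x w 1 - x a 1 := ⟨_, rfl⟩
    obtain ⟨p, hp⟩ : ∃ p, p = x a 0 - x w 0 := ⟨_, rfl⟩
    have g1 := hs a
    have g2 := hs w
    have g3 := hs y
    have hv2 := vec_of x hs w y (d0 := -A) (d1 := -B) (by omega) (by omega)
    have hn : nrm x w y = A + B := nrm_eq hv2 (by rw [abs_le]; constructor <;> omega)
      (by rw [abs_le]; constructor <;> omega) (by rw [abs_le]; constructor <;> omega)
      (Or.inr (Or.inr (by rw [abs_of_pos (by omega)]; omega)))
    have hd := dX_ge hR hS (a := w) (b := y) (by omega) h5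
    have hdx : dX x w y = A - B := by unfold dX; omega
    rw [hn, hdx] at hd
    have hjp : 2 * p < 11 * j ∨ 2 * A < 9 * B := by
      by_contra hc
      push Not at hc
      apply h
      refine ⟨?_, ?_, ?_, ?_⟩ <;> simp only [uu1] <;> omega
    refine robustV hR hS (vec_of x hs a w (d0 := -p) (d1 := j) (by omega) (by omega))
      hv2 (Or.inl (by omega))
      (Or.inl (by omega)) (n1 := j + p) (n2 := A + B) ?_ ?_ ?_ ?_ ?_ ?_ ?_
    any_goals (rw [abs_le]; constructor <;> omega)
    have k1 := mul_nonneg (show (0:ℤ) ≤ j by omega) (show (0:ℤ) ≤ 501 * A - 499 * B by omega)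
    have k2 := mul_nonneg (show (0:ℤ) ≤ p by omega) (show (0:ℤ) ≤ B by omega)
    have k3 := mul_nonneg (show (0:ℤ) ≤ j by omega) (show (0:ℤ) ≤ A by omega)
    have k4 := mul_nonneg (show (0:ℤ) ≤ j by omega) (show (0:ℤ) ≤ B by omega)
    rcases hjp with hjp | hjp
    · nlinarith [mul_nonneg (show (0:ℤ) ≤ A by omega) (show (0:ℤ) ≤ 11 * j - 2 * p by omega),
        mul_nonneg (show (0:ℤ) ≤ B by omega) (show (0:ℤ) ≤ 11 * j - 2 * p by omega)]
    · nlinarith [mul_nonneg (show (0:ℤ) ≤ j by omega) (show (0:ℤ) ≤ 9 * B - 2 * A by omega),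
        mul_nonneg (show (0:ℤ) ≤ p by omega) (show (0:ℤ) ≤ 9 * B - 2 * A by omega)]

/-- fan corner at the left end `w` of a face, `y` to the left of `w` -/
theorem cfL {N : ℤ} (hs : ∀ v, x v 0 + x v 1 + x v 2 = N) (hR : Rob x q S) (hS : 1 ≤ S)
    {b w y : V} (h1 : x y 0 < x w 0) (h2 : x y 1 < x w 1) (h3 : x b 0 ≤ x w 0)
    (h4 : x w 1 < x b 1) (h5 : 0 ≤ dX q y w)
    (hNS : NS x 0 y w b → 0 < om q y w b) : 0 < om q y w b := by
  by_cases h : NS x 0 y w b
  · exact hNS h
  · obtain ⟨A, hA⟩ : ∃ A, A = x w 0 - x y 0 := ⟨_, rfl⟩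
    obtain ⟨B, hB⟩ : ∃ B, B = x w 1 - x y 1 := ⟨_, rfl⟩
    obtain ⟨j, hj⟩ : ∃ j, j = x w 0 - x b 0 := ⟨_, rfl⟩
    obtain ⟨p, hp⟩ : ∃ p, p = x b 1 - x w 1 := ⟨_, rfl⟩
    have g1 := hs b
    have g2 := hs w
    have g3 := hs y
    have hv2 := vec_of x hs y w (d0 := A) (d1 := B) (by omega) (by omega)
    have hn : nrm x y w = A + B := nrm_eq hv2 (by rw [abs_le]; constructor <;> omega)
      (by rw [abs_le]; constructor <;> omega) (by rw [abs_le]; constructor <;> omega)
      (Or.inr (Or.inr (by rw [abs_of_neg (by omega)]; omega)))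
    have hd := dX_ge hR hS (a := y) (b := w) (by omega) h5
    have hdx : dX x y w = B - A := by unfold dX; omega
    rw [hn, hdx] at hd
    have hjp : 2 * p < 11 * j ∨ 2 * B < 9 * A := by
      by_contra hc
      push Not at hc
      apply h
      refine ⟨?_, ?_, ?_, ?_⟩ <;> simp only [uu0] <;> omega
    refine robustV hR hS hv2 (vec_of x hs w b (d0 := -j) (d1 := p) (by omega) (by omega))
      (Or.inl (by omega))
      (Or.inr (by omega)) (n1 := A + B) (n2 := j + p) ?_ ?_ ?_ ?_ ?_ ?_ ?_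
    any_goals (rw [abs_le]; constructor <;> omega)
    have k1 := mul_nonneg (show (0:ℤ) ≤ j by omega) (show (0:ℤ) ≤ 501 * B - 499 * A by omega)
    have k2 := mul_nonneg (show (0:ℤ) ≤ p by omega) (show (0:ℤ) ≤ A by omega)
    have k3 := mul_nonneg (show (0:ℤ) ≤ j by omega) (show (0:ℤ) ≤ A by omega)
    have k4 := mul_nonneg (show (0:ℤ) ≤ j by omega) (show (0:ℤ) ≤ B by omega)
    rcases hjp with hjp | hjp
    · nlinarith [mul_nonneg (show (0:ℤ) ≤ A by omega) (show (0:ℤ) ≤ 11 * j - 2 * p by omega),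
        mul_nonneg (show (0:ℤ) ≤ B by omega) (show (0:ℤ) ≤ 11 * j - 2 * p by omega)]
    · nlinarith [mul_nonneg (show (0:ℤ) ≤ j by omega) (show (0:ℤ) ≤ 9 * A - 2 * B by omega),
        mul_nonneg (show (0:ℤ) ≤ p by omega) (show (0:ℤ) ≤ 9 * A - 2 * B by omega)]

/-- the top corner of a straddling first face of a fan -/
theorem cmF {N : ℤ} (hs : ∀ v, x v 0 + x v 1 + x v 2 = N) (hR : Rob x q S) (hS : 1 ≤ S)
    {wl y wr : V} (h1 : x y 0 < x wr 0) (h2 : x y 1 < x wr 1) (h3 : x y 0 < x wl 0)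
    (h4 : x wl 1 ≤ x y 1) (h6 : x wl 2 < x y 2) (h5 : 0 ≤ dX q y wr) : 0 < om q wr y wl := by
  obtain ⟨A, hA⟩ : ∃ A, A = x wr 0 - x y 0 := ⟨_, rfl⟩
  obtain ⟨B, hB⟩ : ∃ B, B = x wr 1 - x y 1 := ⟨_, rfl⟩
  obtain ⟨g, hg⟩ : ∃ g, g = x y 2 - x wl 2 := ⟨_, rfl⟩
  obtain ⟨q', hq'⟩ : ∃ q', q' = x y 1 - x wl 1 := ⟨_, rfl⟩
  have g1 := hs wl
  have g2 := hs y
  have g3 := hs wr
  have hv := vec_of x hs y wr (d0 := A) (d1 := B) (by omega) (by omega)
  have hn : nrm x y wr = A + B := nrm_eq hv (by rw [abs_le]; constructor <;> omega)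
    (by rw [abs_le]; constructor <;> omega) (by rw [abs_le]; constructor <;> omega)
    (Or.inr (Or.inr (by rw [abs_of_neg (by omega)]; omega)))
  have hd := dX_ge hR hS (a := y) (b := wr) (by omega) h5
  have hdx : dX x y wr = B - A := by unfold dX; omega
  rw [hn, hdx] at hd
  refine robustV hR hS (vec_of x hs wr y (d0 := -A) (d1 := -B) (by omega) (by omega))
    (vec_of x hs y wl (d0 := g + q') (d1 := -q') (by omega) (by omega)) (Or.inl (by omega))
    (Or.inl (by omega)) (n1 := A + B) (n2 := g + q') ?_ ?_ ?_ ?_ ?_ ?_ ?_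
  any_goals (rw [abs_le]; constructor <;> omega)
  nlinarith [mul_nonneg (show (0:ℤ) ≤ g + q' by omega) (show (0:ℤ) ≤ 501 * B - 499 * A by omega),
    mul_nonneg (show (0:ℤ) ≤ g + q' by omega) (show (0:ℤ) ≤ B by omega),
    mul_nonneg (show (0:ℤ) ≤ q' by omega) (show (0:ℤ) ≤ A by omega)]

/-- the top corner of a straddling last face of a fan -/
theorem cmL {N : ℤ} (hs : ∀ v, x v 0 + x v 1 + x v 2 = N) (hR : Rob x q S) (hS : 1 ≤ S)
    {wl y wr : V} (h1 : x y 0 < x wl 0) (h2 : x y 1 < x wl 1) (h3 : x wr 0 ≤ x y 0)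
    (h4 : x y 1 < x wr 1) (h6 : x wr 2 < x y 2) (h5 : 0 ≤ dX q wl y) : 0 < om q wr y wl := by
  obtain ⟨A, hA⟩ : ∃ A, A = x wl 0 - x y 0 := ⟨_, rfl⟩
  obtain ⟨B, hB⟩ : ∃ B, B = x wl 1 - x y 1 := ⟨_, rfl⟩
  obtain ⟨g, hg⟩ : ∃ g, g = x y 2 - x wr 2 := ⟨_, rfl⟩
  obtain ⟨e, he⟩ : ∃ e, e = x y 0 - x wr 0 := ⟨_, rfl⟩
  have g1 := hs wl
  have g2 := hs y
  have g3 := hs wr
  have hv := vec_of x hs wl y (d0 := -A) (d1 := -B) (by omega) (by omega)
  have hn : nrm x wl y = A + B := nrm_eq hv (by rw [abs_le]; constructor <;> omega)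
    (by rw [abs_le]; constructor <;> omega) (by rw [abs_le]; constructor <;> omega)
    (Or.inr (Or.inr (by rw [abs_of_pos (by omega)]; omega)))
  have hd := dX_ge hR hS (a := wl) (b := y) (by omega) h5
  have hdx : dX x wl y = A - B := by unfold dX; omega
  rw [hn, hdx] at hd
  refine robustV hR hS (vec_of x hs wr y (d0 := e) (d1 := -(e + g)) (by omega) (by omega))
    (vec_of x hs y wl (d0 := A) (d1 := B) (by omega) (by omega)) (Or.inr (by omega))
    (Or.inl (by omega)) (n1 := e + g) (n2 := A + B) ?_ ?_ ?_ ?_ ?_ ?_ ?_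
  any_goals (rw [abs_le]; constructor <;> omega)
  nlinarith [mul_nonneg (show (0:ℤ) ≤ e + g by omega) (show (0:ℤ) ≤ 501 * A - 499 * B by omega),
    mul_nonneg (show (0:ℤ) ≤ e + g by omega) (show (0:ℤ) ≤ A by omega),
    mul_nonneg (show (0:ℤ) ≤ e by omega) (show (0:ℤ) ≤ B by omega)]

end

section
variable {V : Type}

theorem chain_rel {R : V → V → Prop} {L X Y : List V} {a b : V} (h : L.IsChain R)
    (hL : L = X ++ a :: b :: Y) : R a b := by
  subst hL
  have := (List.isChain_append.1 h).2.1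
  rw [List.isChain_cons_cons] at this
  exact this.1

theorem face_top {a1 a2 : V} {F : List (Face V)} {Z : List (V × Ty)} (h : CB a1 a2 F Z) :
    ∀ f ∈ F, f.top ≠ [] ∧ (f.first = false ∨ f.last = false → f.top.length = 1) := by
  induction h with
  | base h => intro f hf; simp at hf
  | step F A w0 t0 segs C P h1 h2 h3 h4 h5 h6 ih =>
    intro f hf
    rw [List.mem_append] at hf
    rcases hf with hf | hf
    · obtain ⟨pre, sg, post, hdec, rfl⟩ := mem_newFaces hf
      refine ⟨h3, fun hh => ?_⟩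
      rcases h4 with h4 | h4
      · exact h4
      · exfalso
        rw [hdec] at h4
        simp only [List.length_append, List.length_cons] at h4
        have e1 : pre = [] := List.length_eq_zero_iff.1 (by omega)
        have e2 : post = [] := List.length_eq_zero_iff.1 (by omega)
        subst e1; subst e2
        simp at hh
    · exact ih f hf

variable {x q : V → Fin 3 → ℤ} {S : ℕ}

/-- turns along the bottom -/
theorem bot_turns {N : ℤ} (hs : ∀ v, x v 0 + x v 1 + x v 2 = N) (hR : Rob x q S) (hS : 1 ≤ S)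
    {f : Face V} (ht : f.top ≠ []) (hX : FaceX x f)
    (hNS : ∀ m a v b, Corner f m a v b → NS x m a v b → 0 < om q a v b) :
    ∀ a v b, [a, v, b] <:+: f.bot → 0 < om q a v b := by
  rintro a v b ⟨s, t, hst⟩
  obtain ⟨y0, hy0⟩ : ∃ y0, f.top.head? = some y0 := by
    cases hh : f.top with
    | nil => exact absurd hh ht
    | cons z L => exact ⟨z, rfl⟩
  obtain ⟨y1, hy1⟩ : ∃ y1, f.top.getLast? = some y1 := by
    cases hh : f.top.getLast? with
    | none => exact absurd (List.getLast?_eq_none_iff.1 hh) ht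
    | some z => exact ⟨z, rfl⟩
  have h : (s ++ [a]) ++ v :: b :: t = (f.wl :: f.l) ++ (f.r ++ [f.wr]) := by
    have : f.bot = (f.wl :: f.l) ++ (f.r ++ [f.wr]) := by simp [Face.bot]
    rw [← this, ← hst]; simp
  rcases split_app h with ⟨p, h1, h2⟩ | ⟨c, h1, h2⟩
  · have ma : a ∈ f.wl :: f.l := by rw [h1]; simp
    have mv : v ∈ f.wl :: f.l := by rw [h1]; simp
    have e1 := hX.left_const a ma
    have e2 := hX.left_const v mv
    have e3 := chain_rel hX.left_mono (X := s) (Y := p) (a := a) (b := v) (by rw [h1]; simp)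
    have hc : Corner f 0 a v b := corner_of0 ⟨s ++ [a], p, h1, ⟨y0, hy0, by
      rw [List.getLast?_cons, List.getLast?_append]; simp⟩, by rw [h2]; rfl⟩
    cases p with
    | nil =>
      have mb : b ∈ f.r ++ [f.wr] := by
        rw [List.nil_append] at h2; rw [h2]; simp
      have e4 := hX.left_max b (by
        simp only [List.mem_append, List.mem_cons, List.not_mem_nil, or_false] at mb ⊢; tauto)
      have e5 := hX.right_max v (by rw [List.mem_append]; exact Or.inl mv)
      have e6 := hX.right_const b mb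
      exact c0str hs hR hS (by omega) e3 (by omega) (by omega) (hNS 0 a v b hc)
    | cons z p =>
      simp only [List.cons_append, List.cons.injEq] at h2
      obtain ⟨rfl, -⟩ := h2
      have mb : z ∈ f.wl :: f.l := by rw [h1]; simp
      have e4 := hX.left_const z mb
      have e5 := chain_rel hX.left_mono (X := s ++ [a]) (Y := p) (a := v) (b := z) h1
      exact c0str hs hR hS (by omega) e3 (by omega) e5 (hNS 0 a v z hc)
  · have mv : v ∈ f.r ++ [f.wr] := by rw [h2]; simp
    have mb : b ∈ f.r ++ [f.wr] := by rw [h2]; simp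
    have e1 := hX.right_const v mv
    have e2 := hX.right_const b mb
    have e3 := chain_rel hX.right_mono (X := c) (Y := t) (a := v) (b := b) h2
    have hc : Corner f 1 a v b := corner_of1 ⟨c, b :: t, h2, by rw [← h1]; simp, y1, hy1, rfl⟩
    rcases List.eq_nil_or_concat c with hcn | ⟨c', z, hcn⟩
    · subst hcn
      have ma : a ∈ f.wl :: f.l := by
        rw [List.append_nil] at h1; rw [← h1]; simp
      have e4 := hX.left_const a ma
      have e5 := hX.right_max a (by rw [List.mem_append]; exact Or.inl ma)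
      have e6 := hX.left_max v (by
        simp only [List.mem_append, List.mem_cons, List.not_mem_nil, or_false] at mv ⊢; tauto)
      exact c1str hs hR hS (by omega) e3 (by omega) (by omega) (hNS 1 a v b hc)
    · rw [List.concat_eq_append] at hcn
      subst hcn
      rw [← List.append_assoc] at h1
      have h3 := (List.append_inj' h1 rfl).2
      simp only [List.cons.injEq, and_true] at h3
      subst h3
      have ma : a ∈ f.r ++ [f.wr] := by rw [h2]; simp
      have e4 := hX.right_const a ma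
      have e5 := chain_rel hX.right_mono (X := c') (Y := b :: t) (a := a) (b := v) (by
        rw [h2]; simp)
      exact c1str hs hR hS (by omega) e3 (by omega) e5 (hNS 1 a v b hc)

theorem faceG {N W : ℤ} (hs : ∀ v, x v 0 + x v 1 + x v 2 = N)
    (hq : ∀ v, q v 0 + q v 1 + q v 2 = W) (hR : Rob x q S) (hS : 1 ≤ S)
    {f : Face V} (ht : f.top ≠ []) (hone : f.first = false ∨ f.last = false → f.top.length = 1)
    (hX : FaceX x f) (hNS : ∀ m a v b, Corner f m a v b → NS x m a v b → 0 < om q a v b) :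
    FaceG (bpos q) f := by
  have hbot := bot_turns hs hR hS ht hX hNS
  have hcr := cr_bpos hq
  have hlt : ∀ a b c, 0 < om q a b c → 0 < cr (bpos q) a b c := fun a b c h => by
    rw [hcr]; exact_mod_cast (by omega : 0 < 2 * om q a b c)
  have hrt : ∀ a b c, 0 < om q c b a → cr (bpos q) a b c < 0 := fun a b c h => by
    rw [hcr, om_rev]; 
    have : 2 * -om q c b a < 0 := by omega
    exact_mod_cast this
  have hX1 : ∀ a b, 0 < dX q a b → (bpos q a).1 < (bpos q b).1 := fun a b h => by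
    unfold dX at h
    show (((q a 1 - q a 0 : ℤ) : ℝ)) < ((q b 1 - q b 0 : ℤ) : ℝ)
    exact_mod_cast (by omega : q a 1 - q a 0 < q b 1 - q b 0)
  have hX2 : ∀ a b, (bpos q a).1 ≤ (bpos q b).1 → 0 ≤ dX q a b := fun a b h => by
    have h' : ((q a 1 - q a 0 : ℤ) : ℝ) ≤ ((q b 1 - q b 0 : ℤ) : ℝ) := h
    have : q a 1 - q a 0 ≤ q b 1 - q b 0 := by exact_mod_cast h'
    unfold dX; omega
  have hY1 : ∀ a b, q a 2 < q b 2 → (bpos q a).2 < (bpos q b).2 := fun a b h => by
    show ((q a 2 : ℤ) : ℝ) < ((q b 2 : ℤ) : ℝ)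
    exact_mod_cast h
  -- single top vertex in a fan
  have hsing : ∀ y ∈ f.top, (f.first = false ∨ f.last = false) → f.top = [y] := by
    intro y hy h
    obtain ⟨z, hz⟩ := List.length_eq_one_iff.1 (hone h)
    rw [hz] at hy ⊢
    simp at hy; rw [hy]
  have mwl : f.wl ∈ f.wl :: f.l := List.mem_cons_self
  have mwr : f.wr ∈ f.r ++ [f.wr] := by simp
  have tmaxl : ∀ y ∈ f.top, x f.wl 2 < x y 2 := fun y hy =>
    hX.top_max y hy f.wl (by simp)
  have tmaxr : ∀ y ∈ f.top, x f.wr 2 < x y 2 := fun y hy =>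
    hX.top_max y hy f.wr (by simp)
  have lmax : ∀ y ∈ f.top, x y 0 < x f.wl 0 := fun y hy => hX.left_max y (by simp [hy])
  have rmax : ∀ y ∈ f.top, x y 1 < x f.wr 1 := fun y hy => hX.right_max y (by simp [hy])
  have hyR : f.last = false → ∀ y ∈ f.top, (bpos q f.wr).2 < (bpos q y).2 := by
    intro hl y hy
    apply hY1
    have g1 := hs f.wr
    have g2 := hs y
    have g3 := rmax y hy
    have g4 := hX.mid_right hl y hy
    have hv := vec_of x hs f.wr y rfl rfl
    have hn := nrm_of_vec (n := x y 2 - x f.wr 2) hv (by rw [abs_le]; constructor <;> omega)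
      (by rw [abs_le]; constructor <;> omega) (by rw [abs_le]; constructor <;> omega)
    exact dY_pos hR hS (nrm_pos (m := 0) (by omega)) (by omega)
  have hyL : f.first = false → ∀ y ∈ f.top, (bpos q f.wl).2 < (bpos q y).2 := by
    intro hl y hy
    apply hY1
    have g1 := hs f.wl
    have g2 := hs y
    have g3 := lmax y hy
    have g4 := hX.mid_left hl y hy
    have hv := vec_of x hs f.wl y rfl rfl
    have hn := nrm_of_vec (n := x y 2 - x f.wl 2) hv (by rw [abs_le]; constructor <;> omega)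
      (by rw [abs_le]; constructor <;> omega) (by rw [abs_le]; constructor <;> omega)
    exact dY_pos hR hS (nrm_pos (m := 0) (by omega)) (by omega)
  refine ⟨?_, ?_, ?_, ?_, ?_, ?_, ?_, ?_, hyR, hyL⟩
  · -- bot
    intro a v b h
    exact hlt _ _ _ (hbot a v b h)
  · -- xfirst
    intro hf y hy
    have hym := List.mem_of_mem_head? hy
    apply hX1
    have g1 := hs f.wl
    have g2 := hs y
    have g3 := lmax y hym
    have g4 := hX.first_edge hf y hy
    have g5 := tmaxl y hym
    have hv := vec_of x hs f.wl y rfl rfl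
    have hn := nrm_of_vec (n := x f.wl 0 - x y 0) hv (by rw [abs_le]; constructor <;> omega)
      (by rw [abs_le]; constructor <;> omega) (by rw [abs_le]; constructor <;> omega)
    exact dX_pos hR hS (nrm_pos (m := 0) (by omega)) (by unfold dX; omega)
  · -- xtop
    unfold XInc
    refine hX.top_mono.imp_of_mem_imp fun a b ha hb hab => ?_
    apply hX1
    have g1 := hs a
    have g2 := hs b
    have g3 := hX.top_const a ha b hb
    have hv := vec_of x hs a b rfl rfl
    have hn := nrm_of_vec (n := x a 0 - x b 0) hv (by rw [abs_le]; constructor <;> omega)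
      (by rw [abs_le]; constructor <;> omega) (by rw [abs_le]; constructor <;> omega)
    exact dX_pos hR hS (nrm_pos (m := 0) (by omega)) (by unfold dX; omega)
  · -- xlast
    intro hf y hy
    have hym := List.mem_of_getLast? hy
    apply hX1
    have g1 := hs f.wr
    have g2 := hs y
    have g3 := rmax y hym
    have g4 := hX.last_edge hf y hy
    have g5 := tmaxr y hym
    have hv := vec_of x hs y f.wr rfl rfl
    have hn := nrm_of_vec (n := x f.wr 1 - x y 1) hv (by rw [abs_le]; constructor <;> omega)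
      (by rw [abs_le]; constructor <;> omega) (by rw [abs_le]; constructor <;> omega)
    exact dX_pos hR hS (nrm_pos (m := 1) (by omega)) (by unfold dX; omega)
  · -- rt
    rintro hf hl b v a ⟨s, t, hst⟩
    apply hrt
    obtain ⟨p, hp1, hp2⟩ : ∃ p, s ++ [b] = f.wl :: p ∧ p ++ v :: a :: t = f.top ++ [f.wr] := by
      have h1 : (s ++ [b]) ++ v :: a :: t = f.wl :: (f.top ++ [f.wr]) := by rw [← hst]; simp
      cases hs' : s ++ [b] with
      | nil => simp at hs'
      | cons e p =>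
        rw [hs', List.cons_append, List.cons.injEq] at h1
        exact ⟨p, by rw [h1.1], h1.2⟩
    rcases split_app hp2 with ⟨r', h1, h2⟩ | ⟨c, h1, h2⟩
    · have hc : Corner f 2 a v b := corner_of2 ⟨p, r', h1, by rw [← hp1]; simp, by rw [h2]; rfl⟩
      have mv : v ∈ f.top := by rw [h1]; simp
      have sv := hs v
      -- right neighbour
      have kr : x a 0 ≤ x v 0 ∧ x a 2 ≤ x v 2 ∧ x v 1 < x a 1 := by
        cases r' with
        | nil =>
          simp only [List.nil_append, List.cons.injEq] at h2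
          rw [← h2.1]
          refine ⟨hX.last_edge hl v (by rw [h1]; simp), (tmaxr v mv).le, rmax v mv⟩
        | cons z r' =>
          simp only [List.cons_append, List.cons.injEq] at h2
          obtain ⟨rfl, -⟩ := h2
          have ma : z ∈ f.top := by rw [h1]; simp
          have k1 := chain_rel hX.top_mono (X := p) (Y := r') (a := v) (b := z) h1
          have k2 := hX.top_const v mv z ma
          have sa := hs z
          refine ⟨k1.le, by omega, by omega⟩
      have kl : x v 0 < x b 0 ∧ x b 1 ≤ x v 1 ∧ x b 2 ≤ x v 2 := by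
        rcases List.eq_nil_or_concat p with hpn | ⟨p', z, hpn⟩
        · subst hpn
          have : b = f.wl := by
            have h3 : s ++ [b] = [] ++ [f.wl] := by rw [hp1]; rfl
            have := (List.append_inj' h3 rfl).2
            simpa using this
          subst this
          refine ⟨lmax v mv, hX.first_edge hf v (by rw [h1]; rfl), (tmaxl v mv).le⟩
        · rw [List.concat_eq_append] at hpn
          subst hpn
          have : b = z := by
            have h3 : s ++ [b] = (f.wl :: p') ++ [z] := by rw [hp1]; rfl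
            have := (List.append_inj' h3 rfl).2
            simpa using this
          subst this
          have mb : b ∈ f.top := by rw [h1]; simp
          have k1 := chain_rel hX.top_mono (X := p') (Y := r') (a := b) (b := v) (by
            rw [h1]; simp)
          have k2 := hX.top_const v mv b mb
          have sb := hs b
          refine ⟨k1, by omega, by omega⟩
      exact c2 hs hR hS kr.1 kr.2.1 kr.2.2 kl.1 kl.2.1 kl.2.2 (hNS 2 a v b hc)
    · exfalso
      have := congrArg List.length h2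
      simp only [List.length_cons, List.length_append, List.length_nil] at this
      omega
  · -- fanmid
    rintro hfl y hy hxl hxr a v b ⟨s, t, hst⟩
    have : a = f.wl ∧ v = y ∧ b = f.wr := by
      have hl := congrArg List.length hst
      simp only [List.length_append, List.length_cons, List.length_nil] at hl
      have e1 : s = [] := List.length_eq_zero_iff.1 (by omega)
      have e2 : t = [] := List.length_eq_zero_iff.1 (by omega)
      subst e1; subst e2
      simpa using hst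
    obtain ⟨rfl, rfl, rfl⟩ := this
    by_cases h1 : f.first = true
    · have h2 : f.last = false := by
        cases h : f.last with
        | false => rfl
        | true => exact absurd ⟨h1, h⟩ hfl
      have hs1 := hsing v hy (Or.inr h2)
      apply hrt
      exact cmF hs hR hS (hX.mid_right h2 v hy) (rmax v hy) (lmax v hy)
        (hX.first_edge h1 v (by rw [hs1]; rfl)) (tmaxl v hy) (hX2 _ _ hxr.le)
    · have h1' : f.first = false := by simpa using h1
      by_cases h2 : f.last = true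
      · have hs1 := hsing v hy (Or.inl h1')
        apply hrt
        exact cmL hs hR hS (lmax v hy) (hX.mid_left h1' v hy)
          (hX.last_edge h2 v (by rw [hs1]; rfl)) (rmax v hy) (tmaxr v hy) (hX2 _ _ hxl.le)
      · have h2' : f.last = false := by simpa using h2
        have k1 := hyR h2' v hy
        have k2 := hyL h1' v hy
        unfold cr
        have e1 : 0 < (bpos q v).1 - (bpos q f.wl).1 := by linarith
        have e2 : 0 < (bpos q f.wr).1 - (bpos q v).1 := by linarith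
        have e3 : (bpos q f.wr).2 - (bpos q v).2 < 0 := by linarith
        have e4 : 0 < (bpos q v).2 - (bpos q f.wl).2 := by linarith
        nlinarith [mul_pos_of_neg_of_neg e3 (neg_lt_zero.2 e1), mul_pos e4 e2]
  · -- fanR
    rintro hl y hy hxy a v b ⟨s, t, hst⟩
    have hs1 := hsing y hy (Or.inr hl)
    apply hlt
    rcases List.eq_nil_or_concat t with htn | ⟨t', z, htn⟩
    · subst htn
      have h1 : (s ++ [a, v]) ++ [b] = f.bot ++ [y] := by rw [← hst]; simp
      obtain ⟨h2, h3⟩ := List.append_inj' h1 rfl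
      simp only [List.cons.injEq, and_true] at h3
      subst h3
      have h4 : (s ++ [a]) ++ [v] = (f.wl :: f.l ++ f.r) ++ [f.wr] := by
        have : f.bot = (f.wl :: f.l ++ f.r) ++ [f.wr] := by simp [Face.bot]
        rw [← this, ← h2]; simp
      obtain ⟨h5, h6⟩ := List.append_inj' h4 rfl
      simp only [List.cons.injEq, and_true] at h6
      subst h6
      have hc : Corner f 1 a f.wr b := corner_of1 ⟨f.r, [], rfl, by rw [← h5]; simp, b,
        by rw [hs1]; rfl, rfl⟩
      have kl : x a 1 ≤ x f.wr 1 ∧ x f.wr 0 < x a 0 := by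
        rcases List.eq_nil_or_concat f.r with hrn | ⟨r', z, hrn⟩
        · have ma : a ∈ f.wl :: f.l := by
            rw [hrn, List.append_nil] at h5; rw [← h5]; simp
          have k1 := hX.left_const a ma
          have k2 := hX.right_max a (by rw [List.mem_append]; exact Or.inl ma)
          have k3 := hX.left_max f.wr (by simp)
          exact ⟨k2.le, by omega⟩
        · rw [List.concat_eq_append] at hrn
          have : a = z := by
            rw [hrn, ← List.append_assoc] at h5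
            have := (List.append_inj' h5 rfl).2
            simpa using this
          subst this
          have k1 := hX.right_const a (by rw [hrn]; simp)
          have k2 := chain_rel hX.right_mono (X := r') (Y := []) (a := a) (b := f.wr) (by
            rw [hrn]; simp)
          exact ⟨k1.le, k2⟩
      exact cfR hs hR hS (hX.mid_right hl b hy) (rmax b hy) kl.1 kl.2 (hX2 _ _ hxy)
        (hNS 1 a f.wr b hc)
    · rw [List.concat_eq_append] at htn
      subst htn
      have h1 : (s ++ [a, v, b] ++ t') ++ [z] = f.bot ++ [y] := by rw [← hst]; simp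
      exact hbot a v b ⟨s, t', (List.append_inj' h1 rfl).1⟩
  · -- fanL
    rintro hl y hy hxy a v b ⟨s, t, hst⟩
    have hs1 := hsing y hy (Or.inl hl)
    apply hlt
    cases s with
    | nil =>
      simp only [List.nil_append, List.cons_append, Face.bot, List.cons.injEq] at hst
      obtain ⟨rfl, rfl, h3⟩ := hst
      have hc : Corner f 0 a f.wl b := corner_of0 ⟨[], f.l, rfl, ⟨a, by rw [hs1]; rfl, rfl⟩,
        by rw [← h3]; rfl⟩
      have kl : x b 0 ≤ x f.wl 0 ∧ x f.wl 1 < x b 1 := by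
        cases hln : f.l with
        | nil =>
          rw [hln, List.nil_append] at h3
          have mb : b ∈ f.r ++ [f.wr] := by rw [← h3]; simp
          have k1 := hX.right_const b mb
          have k2 := hX.right_max f.wl (by simp)
          have k3 := hX.left_max b (by
            simp only [List.mem_append, List.mem_cons, List.not_mem_nil, or_false] at mb ⊢
            tauto)
          exact ⟨k3.le, by omega⟩
        | cons z l' =>
          rw [hln, List.cons_append, List.cons.injEq] at h3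
          obtain ⟨rfl, -⟩ := h3
          have k1 := hX.left_const b (by rw [hln]; simp)
          have k2 := chain_rel hX.left_mono (X := []) (Y := l') (a := f.wl) (b := b) (by
            rw [hln]; rfl)
          exact ⟨k1.le, k2⟩
      exact cfL hs hR hS (lmax a hy) (hX.mid_left hl a hy) kl.1 kl.2 (hX2 _ _ hxy)
        (hNS 0 a f.wl b hc)
    | cons z s =>
      rw [List.cons_append, List.cons_append, List.cons.injEq] at hst
      exact hbot a v b ⟨s, t, hst.2⟩

theorem outer_turns {a1 a2 : V} {F : List (Face V)} {Z : List (V × Ty)} {N W : ℤ}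
    (hCB : CB a1 a2 F Z) (hs : ∀ v, x v 0 + x v 1 + x v 2 = N) (hX : ∀ f ∈ F, FaceX x f)
    (hO : OuterX x (Z.map Prod.fst)) (hq : ∀ v, q v 0 + q v 1 + q v 2 = W) (hR : Rob x q S)
    (hS : 1 ≤ S) : RTurns (bpos q) (Z.map Prod.fst) := by
  obtain ⟨typ, hI⟩ := exists_inv7 hCB hs hX
  have hch : (Z.map Prod.fst).IsChain (fun a b => (x a 1 ≠ x b 1 ∨ x a 0 ≠ x b 0) ∨
      (a = a1 ∧ b = a2)) := by
    rw [List.isChain_map]
    refine hI.ch.imp fun e e' h => ?_
    rcases h.1 with h1 | h1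
    · left
      cases h2 : e'.2 with
      | U => rw [h2] at h1; right; have := h1.1; omega
      | D => rw [h2] at h1; left; have := h1.2.1; omega
      | H => rw [h2] at h1; right; have := h1.1; omega
    · exact Or.inr h1
  rintro a b c ⟨s, t, hst⟩
  have hn := hCB.nodup
  have h0 := hO a b c ⟨s, t, hst⟩
  have h1 : 0 < nrm x a b := by
    rcases chain_rel hch (X := s) (Y := c :: t) (a := a) (b := b) (by rw [← hst]; simp) with
      (h | h) | h
    · exact nrm_pos h
    · exact nrm_pos h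
    · exfalso
      obtain ⟨T, hT, -⟩ := hCB.getLast
      rw [← hst, h.2] at hn
      have h5 : (s ++ [a, a2, c] ++ t).getLast? = some a2 := by rw [← h.2, hst, hT, h.2]; simp
      have h6 : (s ++ [a, a2]) ++ (c :: t) = s ++ [a, a2, c] ++ t := by simp
      rw [← h6] at h5 hn
      rw [List.getLast?_append] at h5
      cases hh : (c :: t).getLast? with
      | none => simp at hh
      | some z =>
        rw [hh] at h5
        simp only [Option.some_or, Option.some.injEq] at h5
        subst h5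
        exact (List.nodup_append.1 hn).2.2 z (by simp) z (List.mem_of_getLast? hh) rfl
  have h2 : 0 < nrm x b c := by
    rcases chain_rel hch (X := s ++ [a]) (Y := t) (a := b) (b := c) (by rw [← hst]; simp) with
      (h | h) | h
    · exact nrm_pos h
    · exact nrm_pos h
    · exfalso
      obtain ⟨T, hT, -⟩ := hCB.head
      rw [← hst, h.1] at hn
      have h5 : (s ++ [a, a1, c] ++ t).head? = some a1 := by rw [← h.1, hst, hT, h.1]; rfl
      have h6 : (s ++ [a]) ++ (a1 :: c :: t) = s ++ [a, a1, c] ++ t := by simp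
      rw [← h6] at h5 hn
      have h7 : (s ++ [a]).head? = some a1 := by
        rwa [head?_append_left (by simp)] at h5
      exact (List.nodup_append.1 hn).2.2 a1 (List.mem_of_mem_head? h7) a1 (by simp) rfl
  rw [cr_bpos hq]
  have h3 : 0 < om q c b a := by
    refine robust hR hS (by rw [nrm_symm]; exact h2) (by rw [nrm_symm]; exact h1) ?_
    rw [nrm_symm x c b, nrm_symm x b a, om_rev, mul_comm]
    have := mul_pos h1 h2
    nlinarith
  rw [om_rev] at h3
  have : 2 * om q a b c < 0 := by omega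
  exact_mod_cast this

end

end T7c

open T7c in
theorem t7c : T7c := by
  intro V a1 a2 F Z x q N W S hCB hs hX hO hS hq hR hNS
  have hR' : Rob x q S := hR
  refine ⟨fun f hf => ?_, outer_turns hCB hs hX hO hq hR' hS⟩
  obtain ⟨h1, h2⟩ := face_top hCB f hf
  exact faceG hs hq hR' hS h1 h2 (hX f hf) (hNS f hf)

end Pool.Agent.Run7.h215
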