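import Pool.Agent.Run7.h215.Iface
import Pool.Agent.Run7.h215.CornerBasic
import Pool.Agent.Run7.h215.T7c

/-!
# T9: assembly of the upper bound
-/

set_option autoImplicit false

namespace Pool.Agent.Run7.h215

open Set

theorem ThreeConnected.three_le_degree {V : Type} [Fintype V] (G : SimpleGraph V)
    (h : ThreeConnected G) (v : V) [Fintype (G.neighborSet v)] : 3 ≤ G.degree v := by
  classical
  by_contra hd
  push Not at hd
  have hS : (G.neighborFinset v).card ≤ 2 := by
    rw [SimpleGraph.card_neighborFinset_eq_degree]; omega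
  have hc := h.2 (G.neighborFinset v) hS
  -- another vertex outside
  have hv : v ∉ G.neighborFinset v := by simp
  obtain ⟨w, hw⟩ : ∃ w, w ∉ insert v (G.neighborFinset v) := by
    by_contra hcon
    push Not at hcon
    have : (Finset.univ : Finset V) ⊆ insert v (G.neighborFinset v) := fun w _ => hcon w
    have h1 := Finset.card_le_card this
    have h2 := Finset.card_insert_le v (G.neighborFinset v)
    have h3 := h.1
    rw [Finset.card_univ] at h1
    omega
  rw [Finset.mem_insert, not_or] at hw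
  have hr := hc.preconnected ⟨v, hv⟩ ⟨w, hw.2⟩
  obtain ⟨p⟩ := hr
  cases p with
  | nil => exact hw.1 rfl
  | cons hadj p =>
    rename_i u
    have h1 : G.Adj v u.1 := hadj
    exact u.2 ((G.mem_neighborFinset v u.1).2 h1)

theorem cr_shear9 {V : Type*} (δ : ℝ) (p : V → ℝ × ℝ) (a b c : V) :
    cr (shear δ p) a b c = cr p a b c := by
  unfold cr shear
  ring

/-- The affine equivalence undoing the shear and the change of coordinates. -/
noncomputable def backL (δ : ℝ) : (ℝ × ℝ) ≃ₗ[ℝ] (ℝ × ℝ) where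
  toFun z := ((- z.2 - z.1 + δ * z.2) / 2, (- z.2 + z.1 - δ * z.2) / 2)
  map_add' a b := by ext <;> simp <;> ring
  map_smul' r a := by ext <;> simp <;> ring
  invFun z := (z.2 - z.1 + δ * (- z.1 - z.2), - z.1 - z.2)
  left_inv z := by ext <;> simp <;> ring
  right_inv z := by ext <;> simp <;> ring

theorem FinalZ.three_le {V : Type*} {Z : List (V × Ty)} (h : FinalZ Z) : 3 ≤ Z.length := by
  obtain ⟨e0, a3, T, rfl, -, h1, -⟩ := h
  simp only [List.length_cons]
  omega

theorem CB.length_of_nil {V : Type*} {a1 a2 : V} {F : List (Face V)} {Z : List (V × Ty)}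
    (h : CB a1 a2 F Z) (hF : F = []) : Z.length = 2 := by
  cases h with
  | base h => rfl
  | step F A w0 t0 segs C P h1 h2 h3 h4 h5 h6 =>
    cases segs with
    | nil => exact absurd rfl h2
    | cons s ss => simp [newFaces] at hF

theorem hasGridDrawing_mono {V : Type*} {G : SimpleGraph V} {L L' : ℕ} (h : HasGridDrawing G L)
    (hL : L ≤ L') : HasGridDrawing G L' := by
  obtain ⟨a, b, h1, h2⟩ := h
  exact ⟨a, b, fun v => ⟨(h1 v).1.trans hL, (h1 v).2.trans hL⟩, h2⟩

theorem corner_le {V : Type*} {x : V → Fin 3 → ℤ} {f : Face V} (ht : f.top ≠ []) (hX : FaceX x f)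
    {m : Fin 3} {a v b : V} (h : Corner f m a v b) : x a m ≤ x v m ∧ x b m ≤ x v m := by
  rcases corner_cases ht h with ⟨rfl, p, q, h1, ⟨y, hy, h2⟩, h3⟩ | ⟨rfl, p, q, h1, h2, y, hy, h3⟩ |
    ⟨rfl, p, q, h1, h2, h3⟩
  · have hall : ∀ w, w ∈ (f.wl :: f.l) ∨ w ∈ f.r ++ [f.wr] ∨ w ∈ f.top → x w 0 ≤ x f.wl 0 := by
      rintro w (hw | hw | hw)
      · exact (hX.left_const w hw).le
      · refine (hX.left_max w ?_).le
        simp only [List.mem_append, List.mem_singleton, List.mem_cons] at hw ⊢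
        tauto
      · refine (hX.left_max w ?_).le
        simp only [List.mem_append, List.mem_cons]
        tauto
    rw [hX.left_const v (by rw [h1]; simp)]
    refine ⟨hall a ?_, hall b ?_⟩
    · have h4 := List.mem_of_getLast? h2
      rw [List.mem_cons] at h4
      rcases h4 with rfl | h4
      · exact Or.inr (Or.inr (List.mem_of_mem_head? hy))
      · left; rw [h1]; simp [h4]
    · have h4 := List.mem_of_mem_head? h3
      rw [List.mem_append] at h4
      rcases h4 with h4 | h4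
      · left; rw [h1]; simp [h4]
      · exact Or.inr (Or.inl h4)
  · have hall : ∀ w, w ∈ (f.wl :: f.l) ∨ w ∈ f.r ++ [f.wr] ∨ w ∈ f.top → x w 1 ≤ x f.wr 1 := by
      rintro w (hw | hw | hw)
      · exact (hX.right_max w (List.mem_append_left _ hw)).le
      · exact (hX.right_const w hw).le
      · exact (hX.right_max w (List.mem_append_right _ hw)).le
    rw [hX.right_const v (by rw [h1]; simp)]
    refine ⟨hall a ?_, hall b ?_⟩
    · have h4 := List.mem_of_getLast? h2
      rw [List.mem_append] at h4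
      rcases h4 with h4 | h4
      · exact Or.inl h4
      · right; left; rw [h1]; simp [h4]
    · have h4 := List.mem_of_mem_head? h3
      rw [List.mem_append, List.mem_singleton] at h4
      rcases h4 with h4 | rfl
      · right; left; rw [h1]; simp [h4]
      · exact Or.inr (Or.inr (List.mem_of_getLast? hy))
  · have hv : v ∈ f.top := by rw [h1]; simp
    have hall : ∀ w, w ∈ (f.wl :: f.l) ∨ w ∈ f.r ++ [f.wr] ∨ w ∈ f.top → x w 2 ≤ x v 2 := by
      rintro w (hw | hw | hw)
      · exact (hX.top_max v hv w (List.mem_append_left _ hw)).le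
      · exact (hX.top_max v hv w (List.mem_append_right _ hw)).le
      · exact (hX.top_const w hw v hv).le
    refine ⟨hall a ?_, hall b ?_⟩
    · have h4 := List.mem_of_mem_head? h3
      rw [List.mem_append, List.mem_singleton] at h4
      rcases h4 with h4 | rfl
      · right; right; rw [h1]; simp [h4]
      · right; left; simp
    · have h4 := List.mem_of_getLast? h2
      rw [List.mem_cons] at h4
      rcases h4 with rfl | h4
      · left; simp
      · right; right; rw [h1]; simp [h4]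

theorem core (h2 : T2) (h2b : T2b) (h3a : T3a) (h3b : T3b) (h5 : T5) (h6 : T6) (h7a : T7a)
    (h7b : T7b) (h7c : T7c) (h9a : T9a) (h9b : T9b) :
    ∃ K : ℕ, ∀ n : ℕ, 4 ≤ n → ∀ G : SimpleGraph (Fin n), ThreeConnected G →
      (∃ p, IsPlaneDrawing G p) → ∃ R : ℕ, R ^ 2 ≤ 48 * n ∧ HasGridDrawing G (2 * K * R ^ 3) := by
  classical
  obtain ⟨K, hK⟩ := h7b
  refine ⟨K, fun n hn G hG ⟨p, hp⟩ => ?_⟩
  have : Nonempty (Fin n) := ⟨⟨0, by omega⟩⟩
  obtain ⟨s, hs⟩ := h3a (Fin n) G p hp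
  obtain ⟨u, v, huv, hcard⟩ := h3b (Fin n) G s hs (fun v => @ThreeConnected.three_le_degree _ _ G hG v _)
  obtain ⟨a1, a2, F, Z, hCB, hZ, hV, hE⟩ :=
    @h5 (Fin n) _ (fun a b => Classical.propDecidable (a = b)) G hG s hs u v huv hcard
  obtain ⟨R, x, hR, hRF, hx0, hxs, hxF, hxO⟩ := h6 (Fin n) a1 a2 F Z hCB hZ
  obtain ⟨typ, htyp⟩ := h7a (Fin n) a1 a2 F Z x _ hCB hxs hxF
  obtain ⟨S, W, q, hS, hqb, hqs, hqr, hqn⟩ := hK (Fin n) x R typ hR hx0 hxs
  obtain ⟨hFG, hRT⟩ := h7c (Fin n) a1 a2 F Z x q _ W S hCB hxs hxF hxO hS hqs hqr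
    (fun f hf m a v b hc hn => hqn m a v b (htyp f hf m a v b hc hn)
      (corner_le (T7c.face_top hCB f hf).1 (hxF f hf) hc).1
      (corner_le (T7c.face_top hCB f hf).1 (hxF f hf) hc).2 hn)
  have hF : F ≠ [] := by
    rintro rfl
    have h3 := hZ.three_le
    have h4 := hCB.length_of_nil rfl
    omega
  obtain ⟨δ, E, hGB, hEE⟩ := h2b (Fin n) (bpos q) a1 a2 F Z hCB hF hFG
  have hadj : ∀ u v, G.Adj u v ↔ (u, v) ∈ E ∨ (v, u) ∈ E := fun u v => by
    rw [hE u v, ← hEE u v]
  have hmain := h2 (Fin n) G (shear δ (bpos q)) a1 a2 E (Z.map Prod.fst) hGB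
    (by rw [List.length_map]; exact hZ.three_le)
    (fun a b c habc => by rw [cr_shear9]; exact hRT a b c habc) hadj
    (fun v => by
      have h3 := hG.three_le_degree G v
      have h4 : 0 < G.degree v := by omega
      rw [← SimpleGraph.card_neighborFinset_eq_degree, Finset.card_pos] at h4
      obtain ⟨w, hw⟩ := h4
      rw [SimpleGraph.mem_neighborFinset, hadj] at hw
      rcases hw with hw | hw
      · exact ⟨_, hw, Or.inl rfl⟩
      · exact ⟨_, hw, Or.inr rfl⟩)
  have hlen : F.length ≤ 2 * n := by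
    have := h9b (Fin n) a1 a2 F Z hCB
    rw [Fintype.card_fin] at this
    omega
  refine ⟨R, by omega, ?_⟩
  set off : ℤ := K * (R : ℤ) ^ 3 with hoff
  have hnn : ∀ v m, 0 ≤ q v m + off := fun v m => by
    have := (abs_le.1 (hqb v m)).1
    omega
  have hle : ∀ v m, q v m + off ≤ 2 * K * (R : ℤ) ^ 3 := fun v m => by
    have := (abs_le.1 (hqb v m)).2
    rw [hoff]
    linarith
  refine ⟨fun v => (q v 0 + off).toNat, fun v => (q v 1 + off).toNat, fun v => ⟨?_, ?_⟩, ?_⟩
  · have h1 := hle v 0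
    have h2 := hnn v 0
    zify
    rw [Int.toNat_of_nonneg h2]
    exact h1
  · have h1 := hle v 1
    have h2 := hnn v 1
    zify
    rw [Int.toNat_of_nonneg h2]
    exact h1
  · have hfun : (fun v : Fin n => ((((q v 0 + off).toNat : ℕ) : ℝ), (((q v 1 + off).toNat : ℕ) : ℝ)))
        = fun v => ((backL δ).toAffineEquiv.trans
          (AffineEquiv.constVAdd ℝ (ℝ × ℝ) ((W : ℝ) / 2 + off, (W : ℝ) / 2 + off)))
            (shear δ (bpos q) v) := by
      funext v
      have e0 : (((q v 0 + off).toNat : ℕ) : ℝ) = (q v 0 : ℝ) + off := by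
        have : (((q v 0 + off).toNat : ℕ) : ℤ) = q v 0 + off := Int.toNat_of_nonneg (hnn v 0)
        exact_mod_cast this
      have e1 : (((q v 1 + off).toNat : ℕ) : ℝ) = (q v 1 : ℝ) + off := by
        have : (((q v 1 + off).toNat : ℕ) : ℤ) = q v 1 + off := Int.toNat_of_nonneg (hnn v 1)
        exact_mod_cast this
      have hW : (q v 0 : ℝ) + q v 1 + q v 2 = W := by exact_mod_cast hqs v
      rw [e0, e1]
      simp only [AffineEquiv.trans_apply, LinearEquiv.coe_toAffineEquiv,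
        AffineEquiv.constVAdd_apply, vadd_eq_add, backL, shear, bpos, LinearEquiv.coe_mk,
        Prod.mk_add_mk, LinearMap.coe_mk, AddHom.coe_mk]
      rw [← hW]
      push_cast
      ext <;> simp <;> ring
    rw [hfun]
    exact h9a (Fin n) G _ _ hmain.1 hmain.2

theorem upper_of_core (h : ∃ K : ℕ, ∀ n : ℕ, 4 ≤ n → ∀ G : SimpleGraph (Fin n), ThreeConnected G →
      (∃ p, IsPlaneDrawing G p) → ∃ R : ℕ, R ^ 2 ≤ 48 * n ∧
        HasGridDrawing G (2 * K * R ^ 3)) : Upper := by
  obtain ⟨K, hK⟩ := h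
  refine ⟨2 * K * (48 : ℝ) ^ (3 / 2 : ℝ) + 1, by positivity, fun n hn => ?_⟩
  have hn0 : (0:ℝ) < n := by exact_mod_cast (by omega : 0 < n)
  refine ⟨⌊2 * K * (48 * n : ℝ) ^ (3 / 2 : ℝ)⌋₊, fun G hG hp => ?_, ?_⟩
  · obtain ⟨R, hR, hd⟩ := hK n hn G hG hp
    refine hasGridDrawing_mono hd ?_
    rw [Nat.le_floor_iff (by positivity)]
    push_cast
    have h1 : (R : ℝ) ^ 3 ≤ (48 * n : ℝ) ^ (3 / 2 : ℝ) := by
      have h2 : ((R : ℝ) ^ 2) ^ (3 / 2 : ℝ) ≤ (48 * n : ℝ) ^ (3 / 2 : ℝ) :=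
        Real.rpow_le_rpow (by positivity) (by exact_mod_cast hR) (by norm_num)
      have h3 : ((R : ℝ) ^ 2) ^ (3 / 2 : ℝ) = (R : ℝ) ^ 3 := by
        rw [← Real.rpow_natCast (R : ℝ) 2, ← Real.rpow_mul (by positivity)]
        norm_num
      rw [h3] at h2
      exact h2
    exact mul_le_mul_of_nonneg_left h1 (by positivity)
  · refine (Nat.floor_le (by positivity)).trans ?_
    rw [Real.mul_rpow (by norm_num) hn0.le]
    have : (0:ℝ) ≤ (n : ℝ) ^ (3 / 2 : ℝ) := by positivity
    nlinarith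

theorem final_of (hU : Upper) (h8 : T8) :
    ∃ c C : ℝ, 0 < c ∧ 0 < C ∧ ∀ n : ℕ, 4 ≤ n →
      c * (n : ℝ) ^ (3 / 2 : ℝ) ≤ gridSize n ∧ (gridSize n : ℝ) ≤ C * (n : ℝ) ^ (3 / 2 : ℝ) := by
  obtain ⟨C, hC, hU⟩ := hU
  obtain ⟨c, hc, h8⟩ := h8
  refine ⟨c, C, hc, hC, fun n hn => ?_⟩
  obtain ⟨L, hL, hLC⟩ := hU n hn
  have hne : {L | Universal n L}.Nonempty := ⟨L, hL⟩
  refine ⟨h8 n hn _ (Nat.sInf_mem hne), ?_⟩
  have h1 : gridSize n ≤ L := Nat.sInf_le hL
  exact (Nat.cast_le.2 h1).trans hLC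

end Pool.Agent.Run7.h215
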