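import Pool.Agent.Run7.h215.Iface

/-!
# T9a: plane and strictly convex drawings are invariant under invertible affine maps
-/

set_option autoImplicit false

namespace Pool.Agent.Run7.h215

open Set

/-- An invertible affine map of the plane as a homeomorphism. -/
noncomputable def affHomeo (A : (ℝ × ℝ) ≃ᵃ[ℝ] (ℝ × ℝ)) : (ℝ × ℝ) ≃ₜ (ℝ × ℝ) where
  toEquiv := A.toEquiv
  continuous_toFun := A.toAffineMap.continuous_of_finiteDimensional
  continuous_invFun := A.symm.toAffineMap.continuous_of_finiteDimensional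

theorem affHomeo_apply (A : (ℝ × ℝ) ≃ᵃ[ℝ] (ℝ × ℝ)) (z : ℝ × ℝ) : affHomeo A z = A z := rfl

theorem aff_segment (A : (ℝ × ℝ) ≃ᵃ[ℝ] (ℝ × ℝ)) (a b : ℝ × ℝ) :
    segment ℝ (A a) (A b) = A '' segment ℝ a b :=
  (image_segment ℝ A.toAffineMap a b).symm

theorem aff_openSegment (A : (ℝ × ℝ) ≃ᵃ[ℝ] (ℝ × ℝ)) (a b : ℝ × ℝ) :
    openSegment ℝ (A a) (A b) = A '' openSegment ℝ a b :=
  (image_openSegment ℝ A.toAffineMap a b).symm

theorem aff_drawn {V : Type} (G : SimpleGraph V) (p : V → ℝ × ℝ)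
    (A : (ℝ × ℝ) ≃ᵃ[ℝ] (ℝ × ℝ)) : drawn G (fun v => A (p v)) = A '' drawn G p := by
  ext q
  simp only [drawn, Set.mem_ofPred_eq, mem_image]
  constructor
  · rintro ⟨u, v, h, hq⟩
    rw [aff_segment] at hq
    obtain ⟨r, hr, rfl⟩ := hq
    exact ⟨r, ⟨u, v, h, hr⟩, rfl⟩
  · rintro ⟨r, ⟨u, v, h, hr⟩, rfl⟩
    refine ⟨u, v, h, ?_⟩
    rw [aff_segment]
    exact ⟨r, hr, rfl⟩

theorem aff_face {V : Type} (G : SimpleGraph V) (p : V → ℝ × ℝ)
    (A : (ℝ × ℝ) ≃ᵃ[ℝ] (ℝ × ℝ)) (B : Set (ℝ × ℝ)) (h : IsFace G (fun v => A (p v)) B) :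
    ∃ B', IsFace G p B' ∧ B = affHomeo A '' B' := by
  obtain ⟨z, hz, rfl⟩ := h
  have hc : (drawn G fun v => A (p v))ᶜ = affHomeo A '' (drawn G p)ᶜ := by
    rw [aff_drawn]
    exact (Set.image_compl_eq (affHomeo A).bijective).symm
  obtain ⟨y, rfl⟩ := (affHomeo A).surjective z
  have hy : y ∉ drawn G p := by
    intro hy
    apply hz
    rw [aff_drawn]
    exact ⟨y, hy, rfl⟩
  refine ⟨_, ⟨y, hy, rfl⟩, ?_⟩
  rw [hc, Homeomorph.image_connectedComponentIn]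
  exact hy

theorem aff_bounded (A : (ℝ × ℝ) ≃ᵃ[ℝ] (ℝ × ℝ)) (B : Set (ℝ × ℝ))
    (h : Bornology.IsBounded B) : Bornology.IsBounded (affHomeo A '' B) := by
  have h1 : IsCompact (affHomeo A '' closure B) := h.isCompact_closure.image (affHomeo A).continuous
  exact h1.isBounded.subset (image_mono subset_closure)

theorem aff_bounded_iff (A : (ℝ × ℝ) ≃ᵃ[ℝ] (ℝ × ℝ)) (B : Set (ℝ × ℝ)) :
    Bornology.IsBounded (affHomeo A '' B) ↔ Bornology.IsBounded B := by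
  refine ⟨fun h => ?_, aff_bounded A B⟩
  have h1 := aff_bounded A.symm _ h
  have h2 : affHomeo A.symm '' (affHomeo A '' B) = B := by
    ext z
    simp only [mem_image, affHomeo_apply]
    constructor
    · rintro ⟨_, ⟨w, hw, rfl⟩, rfl⟩
      simpa using hw
    · intro hz
      exact ⟨A z, ⟨z, hz, rfl⟩, by simp⟩
  rwa [h2] at h1

theorem aff_convex (A : (ℝ × ℝ) ≃ᵃ[ℝ] (ℝ × ℝ)) (B : Set (ℝ × ℝ)) (h : Convex ℝ B) :
    Convex ℝ (affHomeo A '' B) := h.affine_image A.toAffineMap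

theorem aff_extreme (A : (ℝ × ℝ) ≃ᵃ[ℝ] (ℝ × ℝ)) (B : Set (ℝ × ℝ)) (z : ℝ × ℝ)
    (h : z ∈ B.extremePoints ℝ) : A z ∈ (affHomeo A '' B).extremePoints ℝ := by
  rw [mem_extremePoints] at h ⊢
  refine ⟨⟨z, h.1, rfl⟩, ?_⟩
  rintro _ ⟨x, hx, rfl⟩ _ ⟨y, hy, rfl⟩ hz
  simp only [affHomeo_apply] at hz ⊢
  rw [aff_openSegment] at hz
  obtain ⟨w, hw, hwz⟩ := hz
  have hwz' := A.injective hwz
  subst hwz'
  have := h.2 x hx y hy hw
  rw [this.1, this.2]
  exact ⟨rfl, rfl⟩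

theorem t9a : T9a := by
  intro V G p A hp hc
  refine ⟨⟨fun a b h => hp.inj (A.injective h), ?_, ?_⟩, ⟨?_, ?_⟩⟩
  · intro u v w h hw
    rw [aff_segment] at hw
    obtain ⟨r, hr, hrw⟩ := hw
    rw [A.injective hrw] at hr
    exact hp.vertex_off u v w h hr
  · intro u v u' v' h h' hne q hq hq'
    simp only [aff_segment] at hq hq'
    obtain ⟨r, hr, rfl⟩ := hq
    obtain ⟨r', hr', hrr⟩ := hq'
    rw [A.injective hrr] at hr'
    obtain ⟨w, h1, h2, h3⟩ := hp.edges_meet u v u' v' h h' hne r hr hr'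
    exact ⟨w, h1, h2, by rw [h3]⟩
  · intro B hB hb
    obtain ⟨B', hB', rfl⟩ := aff_face G p A B hB
    obtain ⟨h1, h2⟩ := hc.bounded B' hB' ((aff_bounded_iff A B').1 hb)
    refine ⟨aff_convex A _ h1, fun v hv => ?_⟩
    rw [← (affHomeo A).image_closure] at hv ⊢
    obtain ⟨z, hz, hzv⟩ := hv
    rw [← A.injective hzv]
    have hzv' : z = p v := A.injective hzv
    rw [hzv'] at hz ⊢
    exact aff_extreme A _ _ (h2 v hz)
  · intro B hB hb
    obtain ⟨B', hB', rfl⟩ := aff_face G p A B hB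
    obtain ⟨h1, h2⟩ := hc.unbounded B' hB' fun h => hb ((aff_bounded_iff A B').2 h)
    rw [← Set.image_compl_eq (affHomeo A).bijective]
    refine ⟨aff_convex A _ h1, fun v hv => ?_⟩
    rw [← (affHomeo A).image_closure] at hv
    obtain ⟨z, hz, hzv⟩ := hv
    have hzv' : z = p v := A.injective hzv
    rw [hzv'] at hz
    exact aff_extreme A _ _ (h2 v hz)

end Pool.Agent.Run7.h215
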