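import Pool.Agent.Run7.h215.T1
import Pool.Agent.Run7.h215.T2
import Pool.Agent.Run7.h215.T2b
import Pool.Agent.Run7.h215.T3a
import Pool.Agent.Run7.h215.T3b
import Pool.Agent.Run7.h215.T4
import Pool.Agent.Run7.h215.T5
import Pool.Agent.Run7.h215.T6
import Pool.Agent.Run7.h215.T7a
import Pool.Agent.Run7.h215.T7b
import Pool.Agent.Run7.h215.T7c
import Pool.Agent.Run7.h215.T9
import Pool.Agent.Run7.h215.T9a

/-!
# The upper bound `O(n^(3/2))` for strictly convex grid drawings
-/

set_option autoImplicit false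

namespace Pool.Agent.Run7.h215

theorem upper : Upper :=
  upper_of_core (core t2 t2b t3a t3b (t5 t4) t6 t7a (t7b_of t1) t7c t9a t9b)

end Pool.Agent.Run7.h215
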