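import Pool.Agent.Run7.h215.Iface

/-!
# Detailed proofs of T5, T6, T7

## T5 (canonical ordering)

Notation: `C(G)` the even subgraphs.  From the dart `(u, v)` with at most 5 darts of the same
functional: `a2 := u`, `a1 := v`, `φ c := s c a2 a1`.  By `rot` at `a1` (`s c a1 w` for the
neighbour `w` preceding `a2` in the order `pos`, cyclically, equals `s c a1 a2 - c a1 a2
= s c a2 a1`) there is a neighbour `a3 ≠ a2` of `a1` with `s c a1 a3 = φ c` for all `c`.
Put `s' c u v := s c u v + φ c`; it satisfies `add`, `flip`, `rot`, and `s' c a2 a1 = 0`,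
`s' c a1 a3 = 0` for all even `c`.

`c_Z` for a contour `Z = [z_0 = a1, …, z_t = a2]`: sum of the indicators of its edges and of the
edge `a1 a2` (`c_Z = 0` for `t = 1`).

Invariant for `CB a1 a2 F Z`, `S` = set of built vertices (`BVert`), `U` = complement:
 (a) `a3 ∉ S`, `G[U]` connected; `G[S]`-edges = `BEdge` edges; `Z` nodup, a path of `G`; if `t ≥ 2`
     the last entry of `Z` has type `D`;
 (b) vertices of `S` not on `Z` have no neighbour in `U`;
 (c) `s' c_Z u w = 0` for every edge with an end in `U`;
 (d) for `z ∈ Z`, `w ∈ S`, `zw` an edge which is not in `c_Z` (and `zw ≠ a1a2`):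
     `s' c_Z z w = 1 = s' c_Z w z`;
 (J) a contour vertex `≠ a1, a2` is *good* if its left contour edge has type `D` or its right
     contour edge has type `U`; every contour vertex `≠ a1, a2` which is not good has a neighbour
     in `U`.

Step.  If `|U| ≥ 2` take `P` from T4, else `U = {a3}`, `P = [a3]`.  Attachments: all `S`-neighbours
of `P`; they are on `Z` by (b).  Order them along `Z`: `w_0 = z_p, …, w_s = z_q`; for a path `P` with
two ends orient it so that its first vertex is attached to the left attachment.
`c_P` := edges of `Z` between `z_p`, `z_q` plus the path `z_p P z_q`, an even subgraph;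
`Z' := … z_p P z_q …`, `c_Z' = c_Z + c_P`.  (First step, `t = 1`: `c_Z = 0`, `c_P = c_Z'` = the
cycle `a1 P a2`; only (1) below is needed, (d) is vacuous since `P` is an induced path whose ends
have one `S`-neighbour each, resp. `P = [y]`.)
 (1) Let `U' = U ∖ P`, connected, containing `a3` (when `P ≠ [a3]`).  `s' c_P` is constant on the
     edges with an end in `U'` (by `rot` it is constant around a vertex not on `c_P`, by `flip`
     the same for both orientations of an edge not in `c_P`), and `s' c_P a1 a3 = 0`: so it is `0`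
     there. Hence (c) for `Z'`.
 (2) (`t ≥ 2`) `s' c_P` vanishes on the base edge (both orientations: `s' c_P a2 a1 = 0` and the
     base edge is not in `c_P`) and, walking from `a1` and from `a2` along `Z`, on all contour
     edges outside `z_p … z_q`, and around all contour vertices outside `[z_p, z_q]`.
 (3) Rotation at `z_p`: `e₋` = left contour edge (base edge if `p = 0`), `e₊` = right contour edge,
     `f = z_p P_1`.  `s' c_Z (f) = 0` by (c), `s' c_P (e₋) = 0` by (2).  Writing `[a ≤ b]` for the
     comparison of `pos`, `s' c_Z w = b_Z + [e₋ ≤ w] + [e₊ ≤ w]`, `s' c_P w = b_P + [e₊ ≤ w] +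
     [f ≤ w]`, so `s' c_Z' (e₊) = [e₋≤f]+[e₊≤f]+[e₊≤e₋]+[f≤e₋]+[e₋≤e₊]+[f≤e₊] = 3 = 1`.
     As `e₊ ∉ c_Z'`, both orientations have `s' c_Z' = 1`.  Then at `z_{p+1}, …, z_{q-1}` (not on
     `c_Z'`) `s' c_Z'` is constant `= 1` on all darts.  Consequences: none of `z_{p+1} … z_{q-1}`
     has a neighbour in `U'` (by (1)/(c) such an edge would have `s' c_Z' = 0`): (b) for `Z'`.
     In particular each vertex strictly between `w_{i-1}` and `w_i` has no neighbour in `U` at all,
     so is good by (J): the types of the contour edges between `w_{i-1}` and `w_i` have the pattern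
     `D … D X U … U`: this gives the segments `Seg` (`l`: the vertices reached by the initial `D`
     edges, `x = X`, …).
 (4) (d) for `Z'`: edges at the new inner vertices `z_{p+1}..z_{q-1}`: by (3).  An old edge `z w`
     with `z` on `Z` outside `[z_p, z_q]`: `s' c_P = 0` by (2), `s' c_Z = 1` by (d).  At `z = z_p`
     (same for `z_q`): `s' c_Z w = 1`, `s' c_Z f = 0`, `s' c_P e₋ = 0` imply `s' c_P w = 0` (finite
     check over the orders of the four positions).  New vertices `P_i`: an edge `P_i w`, `w ∈ S'`,
     not in `c_Z'`: only `y w_i` with `P = [y]`, `0 < i < s`: by (3) at `w_i`.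
 (5) (J) for `Z'`: `w_0` has right edge `U`, `w_s` has left edge `D`: good.  Others not on `P`:
     unchanged, and a neighbour in `U` is in `U'`, since only the `w_i` have neighbours in `P`.
     `P_i`: `|P| ≥ 2`: degree `≥ 3`, induced path, one `S`-neighbour at the ends, none inside: a
     neighbour in `U'`.  `P = [y]`: `G[U]` connected and `U' ≠ ∅`: a neighbour in `U'`.
Last step (`P = [a3]`, `U' = ∅`): as `a1 ~ a3`, `w_0 = a1`.  All contour vertices except
`a1, a2, a3` are good; the edge `a3 w_s` has type `D`; the last edge has type `D`; so all edges after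
`a3` have type `D`: `FinalZ` except for the length.  For the length: by (d) (now for all edges) and
`rot`: around `z_j` all edges `≠ e₋, e₊` have `s' c_Z = 1` on both sides, and the outer sides of
`e₋, e₊` have `s' c_Z = 0`, so `e₋`, `e₊` are consecutive in the rotation on the outer side, and
`s c z_{j-1} z_j = s c z_j z_{j+1}` for ALL even `c` (write both with `rot`: the sum of `c` over the
`w` strictly between `e₊` and `e₋` in the cyclic order is empty, the total sum is 0).
To know which side is the outer one: `s' c_Z z_j z_{j+1} = 0` inductively from `s' c_Z a1 a3 = 0`,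
`s' c_Z a2 a1 = 0`.  So the `t + 1` darts `(a2,a1), (a1,a3), (a3,z_2), …, (z_{t-1},a2)` all have the
functional `φ`: `t + 1 ≤ 5`.  Also `t ≥ 2` (`a1, a3, a2`).

## T6 (base coordinates)

Data kept along `CB a1 a2 F Z`: `ex : V → V` (exit: a contour vertex for every built vertex;
`ex z = z` on the contour) and a list `Λ` of label functions `ρ : V → Fin 3`, one per face.
Step (`p` = position of `w0` in `Z`; new faces `f_1 … f_s`, `f_k` between `w_{k-1}` and `w_k`):
 * label function of `f_k`: for built `v`: `0` if `ex v` is on the contour at or before the last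
   vertex of the left part of `f_k`, else `1`; `2` on `P` (anything elsewhere);
 * old `ρ` are extended to `P` by the constant: `0` if `ρ w_s = 0`, `1` if `ρ w_0 = 1`, else `2`;
 * new exits: `ex' v = ne (ex v)`, `ne` = identity outside the open stretch, `ne w_0 = w_0`,
   `ne w_s = w_s`, `ne w_i = y` for `0 < i < s` (then `P = [y]`), vertices of the left part of `f_k`
   go where `w_{k-1}` goes, those of the right part of `f_k` where `w_k` goes.  `ne` is weakly
   monotone from `Z` to `Z'`.
Invariants, for all `ρ ∈ Λ`: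
 (K) contour edges `(z, z')`: type `D`: `(ρ z, ρ z') ∈ {00, 22, 21, 11}`; type `U`:
     `∈ {00, 02, 22, 11}`; type `H`: equal.  Hence along the contour `ρ` is `0…0 2…2 1…1`.
 (E) for `f ∈ F`: the exits of `wl :: l` are all equal and before (≤) the exits of the other
     vertices of `f`; the exits of `r ++ [wr]` are equal and after (≥) the others.
 (C) for `f ∈ F`, `v, u` vertices of `f`, `m` the label (part) of `v` in `f`: `ρ u = m → ρ v = m`.
 (F) for every `f ∈ F` there is `ρ ∈ Λ` equal to the label (part) on the vertices of `f`.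
 (M1) consecutive `a, b` in `wl :: l`: `(ρ a, ρ b) ∈ {00,22,21,11}`, and some `ρ ∈ Λ` has `21`;
 (M2) consecutive `a, b` in `r ++ [wr]`: `∈ {00,02,22,11}`, some `ρ` has `02`;
 (M3) consecutive `a, b` in `top`: equal or `01`, and some `ρ` has `01` unless `a, b` is still a
      contour edge of type `H`;
 (M3') every contour edge of type `D` has some `ρ` with `21`, of type `U` some with `02`;
      a contour edge is one of the edges `(wl, head top)`, `top`, `(last top, wr)` of a face;
 (M4) `first = true`: `ρ wl = 1 → ρ (head top) = 1`, and `ex wl ≤ ex (head top)`;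
      `last = true`: `ρ wr = 0 → ρ (last top) = 0`, and `ex (last top) ≤ ex wr`;
 (M5) `first = false`: `ρ y = 0 → ρ wl = 0`, `ρ y = 1 → ρ wl = 1`, `ex wl = ex y`, some `ρ` has
      `(ρ wl, ρ y) = (1, 2)` and some `(0, 2)`; same for `wr` if `last = false`.
(The new labels are monotone in the exits, which gives everything for new `ρ` and old pairs.)
At the end: `Z = [z_0 = a1, z_1 = a3, …, z_t = a2]`, `2 ≤ t ≤ 4`.  `X m v := #{ρ ∈ Λ : ρ v = m}`.
Virtual labels `ρ_j v := 0` if `ex v ∈ {z_0, …, z_j}`, else `1`, with weight `W_j`, `j = 0..t-1`: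
`W_{t-1} = 0`; `g_j := X 2 z_j - X 2 z_{j+1} > 0` for `j ≥ 1` (type `D`); if `t ≥ 3`, `W_{t-2} =
g_{t-2}`; if `t = 4`, `W_1 = 3 g_1`; `W_0` = padding making the total `N = |Λ| + Σ W_j` a square
`R²`, `R = ⌈√(4|F|)⌉` or so (but at least 1).  (For `t ≥ 3` the index `t - 2 ≥ 1`.)
`x v m := X m v + Σ_j W_j [ρ_j v = m]`.  The vectors of the contour edges are: `z_0 z_1`:
`(-g - W_0, W_0, g)` with `g ≥ 1`; `z_j z_{j+1}`: `(-W_j, g_j + W_j, -g_j)`, i.e. `g_j (-K, 1+K, -1)`
with `K = 0` for the last, `1` for the one before, `3` for the one before: `OuterX` is a direct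
computation.

## T7a (types)

Induction on `CB`, keeping `typ` with: `typ z ∈ {none, some 2}` for contour vertices; the required
implication for all faces so far; for a contour vertex `z ≠ a1, a2`: if `typ z = some 2`, then for
its right contour neighbour `b`, if the edge `z b` does not have type `U`:
`10 (x z 2 - x b 2) ≤ uu x 2 z - uu x 2 b`, and for its left neighbour `a`, if the edge `a z` does
not have type `D`: `10 (x z 2 - x a 2) ≤ uu x 2 a - uu x 2 z`.  Contour edges `(z, z')` satisfy:
type `U`: `Δ0 < 0, Δ1 ≥ 0, Δ2 > 0`; type `D`: `Δ0 ≤ 0, Δ1 > 0, Δ2 < 0`; type `H`: `Δ0 < 0`, `Δ2 = 0`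
(`Δ = x z' - x z`).
New faces: corners which are never nearly straight (`NS` false by the signs): label 0 at `wl` if
`first`, label 1 at `wr` if `last`, label 2 at `y` for fans.  Label 2 at the vertices of `P` (one
segment): set `typ = some 2` if `NS`.  Label 0 at `v ∈ l`, or at `v = wl` with `first = false`: let
`b` be the next vertex on the contour; if `NS` then the edge `v b` does not have type `U` (sign
computation) and if moreover `typ v = some 2` then the invariant gives a contradiction
(`Δ(v→b) = (-p, p+g, -g)`, `p, g ≥ 0`: `p ≥ 4.5 g` and `g ≥ 4.5 p`).  So `typ v = none` and we set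
`typ v = some 0`.  Label 1 symmetric, with the left neighbour.  A middle `w_i` cannot have both
(`A ≥ 4.5 B` and `B ≥ 4.5 A` where `Δ(w→y) = (-A, -B, A+B)`).  Vertices covered (all strictly
between `w_0` and `w_s`) never occur again in new faces.

## T7b (positions)

Constants: `ρ = 1/5000`, `ε = ρ/1000`, `c = ε/1000` (say), `C` large, `S = C R`, `N = R²`,
`κ = c S / N`.  `F_m(x) = S x_m + κ (3 x_m² - Σ x_i²)`, so with `h = x_m`, `u = x_{m+1} - x_{m+2}`:
`F_m = C_h - (κ/2) u²`, `C_h = S h + 2 κ h² - κ (N-h)²/2`, `F_{m+1} - F_{m+2} = u S_h`,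
`S_h = S + 3κ(N-h) ∈ [S, 2S]`.  `Σ F_m = S N`.  For every `h ∈ [0,N]` let `(α^h, β^h)` be the chain
of T1 for `Sh = S_h`.  `W = 2 S N`.
 * `typ v = none`: `q v 0 = round (2 F_0)`, `q v 1 = round (2 F_1)`, `q v 2 = W - …`;
 * `typ v = some m`: `q v m = 2 β^h_u + 2 round(C_h) + 2 ⌊ρ S⌋`, `q v (m+1) - q v (m+2) = 2 α^h_u`.
Put `D v := q v - 2 F(x v)`: `|D v i| ≤ 3 ρ S` for all `i`; `D v i ≤ 3 ε S` if `typ v ≠ some i`;
`|D v m - 2 ρ S| ≤ 3 ε S` if `typ v = some m`.
Robust estimate: `|F_m(b) - F_m(a) - S (b-a)_m| ≤ 12 c S nrm`.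
Nearly straight corner `a, v, b`, `typ v = some m`; `h = x v m`, `T := q_{m+1} - q_{m+2}`, `P := q_m`,
`r* := -κ u_v / S_h`.  Claim: slope from `a` to `v`, `(P v - P a)/(T v - T a)`, is
`≥ r* + √(cρ)/R` unless `a` is on the same line (`x a m = h`) and of type `m`, in which case it is at
least the chain slope entering `u_v`.  Similarly to the right.  With `|chain slope - r*| ≤ √(cε)/R +
c/R²` and strict monotonicity of chain slopes, `om q a v b > 0` follows in all four cases.
Proof of the claim: `d = u_v - u_a > 0`, `j = x v m - x a m ∈ [0, d/10]`;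
`F_m(v) - F_m(a) = [C_h - C_{h-j}] - (κ/2)(u_v² - u_a²) ≥ (1/2) S j - κ u_v d + (κ/2) d²`,
`(T v - T a)/2 = S_h d + e`, `|e| ≤ 3 c S j + O(ρ S)`; hence
`[(P v - P a) - r* (T v - T a)]/2 ≥ (κ/2) d² + (1/2) S j + (ρ - O(ε)) S [or -O(ε) S if a has type m,
in which case j ≥ 1] - c (3 c S j + O(ρ S)) ≥ (κ/2) d² + (ρ/2) S`, and `(T v - T a)/2 ≤ 1.01 S d`;
AM-GM: `(κ/2) d² + (ρ/2) S ≥ √(κ ρ S) d = √(cρ) (S/R) d`.

## T7c (geometry from robustness)

Robust lemma: if `nrm x a v, nrm x v b > 0` and `nrm x a v * nrm x v b ≤ 20 * om x a v b` then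
`0 < om q a v b` (and with signs reversed).  For a corner with label `m` put `j_a = x v m - x a m`,
`j_b = x v m - x b m`, `d_a = uu v - uu a`, `d_b = uu b - uu v` (for `uu x m`): `2 om x a v b =
j_a d_b + d_a j_b`.
 * interior vertices of the left/right part, of the top part: one side straight (`j = 0 < d`), other
   side: `NS`, or `d < 10 j` and then robust;
 * last vertex of the left part `≠ wl` (prev in the same part), next = first of the right part: same;
 * top vertex `y` alone, `first ∧ last`: `d_a ≥ j_a > 0`, `d_b ≥ j_b > 0`: `NS` or robust;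
 * `fanR`: corner at `wr` (label 1), `b = y`: `Δ(wr→y) = (-A, -B, A+B)`, `A, B > 0`, and from
   `(q 1 - q 0) wr ≤ (q 1 - q 0) y`: `A ≥ 0.99 B`.  `a` in the right part: as before.  `a` = last of
   the left part: `om = j_a A + A' B` with `A' = x a 0 - x wr 0 > 0`: `NS` or robust;
 * `fanL` symmetric (label 0 at `wl`, `a = y`);
 * `fanmid`: if neither first nor last: from the signs of `X` and `Y` differences; if `first`: robust
   since `B ≥ 0.99 A`;
 * `xfirst`, `xtop`, `xlast`, `yL`, `yR`: robust differences;
 * outer turns: `OuterX`.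
-/
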