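import Pool.Agent.Run7.h215.T1chain

/-!
T1: the lattice chain, choice of the constants.
-/

set_option autoImplicit false

namespace Pool.Agent.Run7.h215

theorem t1 : T1 := by
  intro ε c hε hε1 hc hcε
  obtain ⟨C₀, hC₀⟩ := exists_nat_ge (1000 / (ε * c))
  refine ⟨C₀, fun C hC R hR Sh hSh1 hSh2 => ?_⟩
  have hεc : 0 < ε * c := mul_pos hε hc
  have hCr : 1000 ≤ (C : ℝ) * (ε * c) := by
    have h : 1000 / (ε * c) ≤ C := hC₀.trans (by exact_mod_cast hC)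
    rwa [div_le_iff₀ hεc] at h
  have hR1 : (1 : ℝ) ≤ R := by exact_mod_cast hR
  have hR0 : (0 : ℝ) < R := by linarith
  have hc1 : c ≤ 1 / 1600 := by linarith
  have hC0 : (0 : ℝ) < C := by
    by_contra h
    push Not at h
    have : (C : ℝ) * (ε * c) ≤ 0 := mul_nonpos_of_nonpos_of_nonneg h hεc.le
    linarith
  have hCε : 1600000 ≤ (C : ℝ) * ε := by
    have h1 : (C : ℝ) * (ε * c) ≤ C * ε * (1 / 1600) := by
      rw [← mul_assoc]
      exact mul_le_mul_of_nonneg_left hc1 (by positivity)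
    linarith
  have hCc : 100000 ≤ (C : ℝ) * c := by
    have h1 : (C : ℝ) * (ε * c) ≤ C * c * (1 / 100) := by
      have : (C : ℝ) * (ε * c) = C * c * ε := by ring
      rw [this]
      exact mul_le_mul_of_nonneg_left hε1 (by positivity)
    linarith
  obtain ⟨S, hS⟩ : ∃ S : ℝ, S = C * R := ⟨_, rfl⟩
  rw [← hS] at hSh1 hSh2 ⊢
  have hS0 : 0 < S := by rw [hS]; positivity
  have hSh0 : 0 < Sh := by linarith
  obtain ⟨κ, hκ⟩ : ∃ κ : ℝ, κ = c * S / (R : ℝ) ^ 2 := ⟨_, rfl⟩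
  rw [← hκ]
  have hκ0 : 0 < κ := by rw [hκ]; positivity
  have hκR : κ * (R : ℝ) ^ 2 = c * S := by rw [hκ]; field_simp
  -- M
  obtain ⟨ρ, hρ⟩ : ∃ ρ : ℝ, ρ = Real.sqrt (ε / (4 * c)) := ⟨_, rfl⟩
  have hρ2 : ρ ^ 2 = ε / (4 * c) := by rw [hρ]; exact Real.sq_sqrt (by positivity)
  have hρ0 : 0 ≤ ρ := by rw [hρ]; exact Real.sqrt_nonneg _
  have hρge : 2 ≤ ρ := by
    have h1 : (2 : ℝ) ^ 2 ≤ ρ ^ 2 := by
      rw [hρ2, le_div_iff₀ (by positivity)]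
      linarith
    exact (sq_le_sq₀ (by norm_num) hρ0).1 h1
  obtain ⟨M, hM⟩ : ∃ M : ℕ, M = ⌊ρ * R⌋₊ := ⟨_, rfl⟩
  have hMle : (M : ℝ) ≤ ρ * R := by rw [hM]; exact Nat.floor_le (by positivity)
  have hM2R : 2 * R ≤ M := by
    rw [hM]
    apply Nat.le_floor
    push_cast
    exact mul_le_mul_of_nonneg_right hρge hR0.le
  have hM2Rr : 2 * (R : ℝ) ≤ M := by exact_mod_cast hM2R
  have hM0 : (0 : ℝ) < M := by linarith
  have hM2 : 2 ≤ M := by omega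
  have hκM2 : κ * (M : ℝ) ^ 2 ≤ ε * S / 4 := by
    have h1 : (M : ℝ) ^ 2 ≤ (ρ * R) ^ 2 := by
      apply pow_le_pow_left₀ hM0.le hMle
    have h2 : κ * (M : ℝ) ^ 2 ≤ κ * (ρ * R) ^ 2 := mul_le_mul_of_nonneg_left h1 hκ0.le
    have h3 : κ * (ρ * R) ^ 2 = ε * S / 4 := by
      have : κ * (ρ * R) ^ 2 = ρ ^ 2 * (κ * (R : ℝ) ^ 2) := by ring
      rw [this, hρ2, hκR]
      field_simp
    linarith
  have hκM1 : 1 ≤ κ * (M : ℝ) ^ 2 := by
    have h1 : (2 * (R : ℝ)) ^ 2 ≤ (M : ℝ) ^ 2 := pow_le_pow_left₀ (by positivity) hM2Rr 2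
    have h2 : κ * (2 * (R : ℝ)) ^ 2 ≤ κ * (M : ℝ) ^ 2 := mul_le_mul_of_nonneg_left h1 hκ0.le
    have h3 : κ * (2 * (R : ℝ)) ^ 2 = 4 * (C * c * R) := by
      have : κ * (2 * (R : ℝ)) ^ 2 = 4 * (κ * (R : ℝ) ^ 2) := by ring
      rw [this, hκR, hS]
      ring
    have h4 : (C : ℝ) * c * 1 ≤ C * c * R := mul_le_mul_of_nonneg_left hR1 (by positivity)
    linarith
  -- Q
  have hεS : 8 ≤ ε * S := by
    have : ε * S = (C * ε) * R := by rw [hS]; ring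
    rw [this]
    have h1 : (C : ℝ) * ε * 1 ≤ C * ε * R := mul_le_mul_of_nonneg_left hR1 (by positivity)
    linarith
  obtain ⟨Q, hQ⟩ : ∃ Q : ℕ, Q = ⌊ε * S / 4⌋₊ := ⟨_, rfl⟩
  have hQle : (Q : ℝ) ≤ ε * S / 4 := by rw [hQ]; exact Nat.floor_le (by positivity)
  have hQge : ε * S / 8 ≤ Q := by
    have h1 : ε * S / 4 < Q + 1 := by rw [hQ]; exact Nat.lt_floor_add_one _
    linarith
  have hQ1 : 1 ≤ Q := by
    have : (1 : ℝ) ≤ Q := by linarith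
    exact_mod_cast this
  have hQSh : (Q : ℝ) ≤ ε / 4 * Sh := by
    have h1 : ε / 4 * S ≤ ε / 4 * Sh := mul_le_mul_of_nonneg_left hSh1 (by positivity)
    linarith
  obtain ⟨ℓ, hℓ⟩ : ∃ ℓ : ℝ, ℓ = κ * M / (4 * Sh) := ⟨_, rfl⟩
  have hℓge : c * M / (8 * (R : ℝ) ^ 2) ≤ ℓ := by
    have h1 : κ * M / (8 * S) ≤ ℓ := by
      rw [hℓ]
      apply div_le_div_of_nonneg_left (by positivity) (by positivity)
      linarith
    have h2 : κ * M / (8 * S) = c * M / (8 * (R : ℝ) ^ 2) := by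
      rw [hκ]
      field_simp
    rwa [h2] at h1
  have hℓ0 : 0 < ℓ := lt_of_lt_of_le (by positivity) hℓge
  have h16 : 16 ≤ (Q : ℝ) * ℓ := by
    have h1 : ε * S / 8 * (c * M / (8 * (R : ℝ) ^ 2)) ≤ Q * ℓ :=
      mul_le_mul hQge hℓge (by positivity) (by positivity)
    have h2 : ε * S / 8 * (c * M / (8 * (R : ℝ) ^ 2)) = C * (ε * c) / 64 * (M / R) := by
      rw [hS]
      field_simp
      norm_num
    have h3 : 2 ≤ (M : ℝ) / R := by rw [le_div_iff₀ hR0]; exact hM2Rr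
    have h4 : C * (ε * c) / 64 * 2 ≤ C * (ε * c) / 64 * (M / R) :=
      mul_le_mul_of_nonneg_left h3 (by positivity)
    linarith
  have h32 : 32 * (M : ℝ) ≤ (Q : ℝ) ^ 2 * ℓ := by
    have h0 : (ε * S / 8) ^ 2 ≤ (Q : ℝ) ^ 2 := pow_le_pow_left₀ (by positivity) hQge 2
    have h1 : (ε * S / 8) ^ 2 * (c * M / (8 * (R : ℝ) ^ 2)) ≤ (Q : ℝ) ^ 2 * ℓ :=
      mul_le_mul h0 hℓge (by positivity) (by positivity)
    have h2 : (ε * S / 8) ^ 2 * (c * M / (8 * (R : ℝ) ^ 2)) =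
        (C * ε) * (C * (ε * c)) / 512 * M := by
      rw [hS]
      field_simp
      ring
    have h3 : 32 ≤ (C * ε) * (C * (ε * c)) / 512 := by
      have : (1600000 : ℝ) * 1000 ≤ (C * ε) * (C * (ε * c)) :=
        mul_le_mul hCε hCr (by norm_num) (by positivity)
      linarith
    have h4 : 32 * (M : ℝ) ≤ (C * ε) * (C * (ε * c)) / 512 * M :=
      mul_le_mul_of_nonneg_right h3 hM0.le
    linarith
  obtain ⟨a, b, ha1, ha2, ha3, ha4, ha5⟩ := chain_core (R ^ 2) M Q κ Sh ε ℓ hκ0 hM2 hQ1 hε hε1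
    hQSh hℓ h16 h32 hκM1
  have hidx : ∀ u : ℤ, -(R : ℤ) ^ 2 ≤ u → (u + 1 + (R : ℤ) ^ 2).toNat = (u + (R : ℤ) ^ 2).toNat + 1 := by
    intro u hu
    have : u + 1 + (R : ℤ) ^ 2 = (u + (R : ℤ) ^ 2) + 1 := by ring
    rw [this, Int.toNat_add (by linarith) (by norm_num)]
    rfl
  have hcast : ∀ u : ℤ, -(R : ℤ) ^ 2 ≤ u → (((u + (R : ℤ) ^ 2).toNat : ℕ) : ℝ) -
      ((R ^ 2 : ℕ) : ℝ) = u := by
    intro u hu
    have h1 : (((u + (R : ℤ) ^ 2).toNat : ℕ) : ℤ) = u + (R : ℤ) ^ 2 :=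
      Int.toNat_of_nonneg (by linarith)
    have h2 : (((u + (R : ℤ) ^ 2).toNat : ℕ) : ℝ) = ((u + (R : ℤ) ^ 2 : ℤ) : ℝ) := by
      rw [← h1]
      push_cast
      rfl
    rw [h2]
    push_cast
    ring
  refine ⟨fun u => a (u + (R : ℤ) ^ 2).toNat, fun u => b (u + (R : ℤ) ^ 2).toNat, ?_, ?_, ?_, ?_⟩
  · intro u hu1 _
    show a (u + (R : ℤ) ^ 2).toNat < a (u + 1 + (R : ℤ) ^ 2).toNat
    rw [hidx u hu1]
    have := ha1 (u + (R : ℤ) ^ 2).toNat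
    have h2 : (a (u + (R : ℤ) ^ 2).toNat : ℝ) < a ((u + (R : ℤ) ^ 2).toNat + 1) := by linarith
    exact_mod_cast h2
  · intro u hu1 _
    obtain ⟨v, rfl⟩ : ∃ v, u = v + 1 := ⟨u - 1, by ring⟩
    have hv : -(R : ℤ) ^ 2 ≤ v := by linarith
    show (b (v + 1 + 1 + (R : ℤ) ^ 2).toNat - b (v + 1 + (R : ℤ) ^ 2).toNat) *
      (a (v + 1 + (R : ℤ) ^ 2).toNat - a (v + 1 - 1 + (R : ℤ) ^ 2).toNat) <
      (b (v + 1 + (R : ℤ) ^ 2).toNat - b (v + 1 - 1 + (R : ℤ) ^ 2).toNat) *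
      (a (v + 1 + 1 + (R : ℤ) ^ 2).toNat - a (v + 1 + (R : ℤ) ^ 2).toNat)
    rw [hidx (v + 1) (by linarith), hidx v hv, add_sub_cancel_right]
    have := ha2 (v + (R : ℤ) ^ 2).toNat
    exact_mod_cast this
  · intro u hu1 hu2
    have h3 := ha3 (u + (R : ℤ) ^ 2).toNat
    have h4 := ha4 (u + (R : ℤ) ^ 2).toNat
    rw [hcast u hu1] at h3
    show |(a (u + (R : ℤ) ^ 2).toNat : ℝ) - Sh * u| ≤ ε * S ∧
      |(b (u + (R : ℤ) ^ 2).toNat : ℝ) + κ / 2 * (u : ℝ) ^ 2| ≤ ε * S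
    obtain ⟨A, hA⟩ : ∃ A : ℝ, A = (a (u + (R : ℤ) ^ 2).toNat : ℝ) := ⟨_, rfl⟩
    obtain ⟨B, hB⟩ : ∃ B : ℝ, B = (b (u + (R : ℤ) ^ 2).toNat : ℝ) := ⟨_, rfl⟩
    rw [← hA] at h3 h4 ⊢
    rw [← hB] at h4 ⊢
    refine ⟨h3.trans (by linarith), ?_⟩
    have hu : |(u : ℝ)| ≤ (R : ℝ) ^ 2 := by
      rw [abs_le]
      constructor
      · exact_mod_cast hu1
      · exact_mod_cast hu2
    obtain ⟨E, hE⟩ : ∃ E : ℝ, E = A - Sh * u := ⟨_, rfl⟩
    rw [← hE] at h3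
    have hkey : B + κ / 2 * (u : ℝ) ^ 2 = κ * (B / κ + A ^ 2 / (2 * Sh ^ 2)) -
        κ * E * (2 * Sh * u + E) / (2 * Sh ^ 2) := by
      have hAE : A = Sh * u + E := by rw [hE]; ring
      rw [hAE]
      field_simp
      ring
    have t1 : |κ * (B / κ + A ^ 2 / (2 * Sh ^ 2))| ≤ ε * S / 4 * (1 + ε) := by
      rw [abs_mul, abs_of_pos hκ0]
      calc κ * |B / κ + A ^ 2 / (2 * Sh ^ 2)| ≤ κ * ((M : ℝ) ^ 2 * (1 + ε)) :=
            mul_le_mul_of_nonneg_left h4 hκ0.le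
        _ = κ * (M : ℝ) ^ 2 * (1 + ε) := by ring
        _ ≤ ε * S / 4 * (1 + ε) := mul_le_mul_of_nonneg_right hκM2 (by positivity)
    have t2 : |κ * E * (2 * Sh * u + E) / (2 * Sh ^ 2)| ≤ ε * S / 4 := by
      rw [abs_div, abs_mul, abs_mul, abs_of_pos hκ0, abs_of_pos (by positivity : 0 < 2 * Sh ^ 2),
        div_le_iff₀ (by positivity)]
      have hE1 : |E| ≤ ε / 4 * Sh := h3.trans hQSh
      have hE2 : |2 * Sh * u + E| ≤ 3 * Sh * (R : ℝ) ^ 2 := by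
        refine (abs_add_le _ _).trans ?_
        rw [abs_mul, abs_of_pos (by positivity : 0 < 2 * Sh)]
        have h5 : 2 * Sh * |(u : ℝ)| ≤ 2 * Sh * (R : ℝ) ^ 2 :=
          mul_le_mul_of_nonneg_left hu (by positivity)
        have h6 : ε / 4 * Sh ≤ Sh * (R : ℝ) ^ 2 := by
          have h7 : (1 : ℝ) ≤ (R : ℝ) ^ 2 := one_le_pow₀ hR1
          calc ε / 4 * Sh ≤ 1 * Sh := mul_le_mul_of_nonneg_right (by linarith) hSh0.le
            _ = Sh * 1 := by ring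
            _ ≤ Sh * (R : ℝ) ^ 2 := mul_le_mul_of_nonneg_left h7 hSh0.le
        linarith
      calc κ * |E| * |2 * Sh * u + E| ≤ κ * (ε / 4 * Sh) * (3 * Sh * (R : ℝ) ^ 2) := by
            refine mul_le_mul (mul_le_mul_of_nonneg_left hE1 hκ0.le) hE2 (abs_nonneg _)
              (by positivity)
        _ = 3 / 4 * ε * (κ * (R : ℝ) ^ 2) * Sh ^ 2 := by ring
        _ = 3 / 4 * ε * (c * S) * Sh ^ 2 := by rw [hκR]
        _ ≤ ε * S / 4 * (2 * Sh ^ 2) := by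
            have h8 : 3 / 4 * c ≤ 1 / 2 := by linarith
            have h9 : 0 ≤ ε * S * Sh ^ 2 := by positivity
            have h12 := mul_le_mul_of_nonneg_right h8 h9
            calc 3 / 4 * ε * (c * S) * Sh ^ 2 = 3 / 4 * c * (ε * S * Sh ^ 2) := by ring
              _ ≤ 1 / 2 * (ε * S * Sh ^ 2) := h12
              _ = ε * S / 4 * (2 * Sh ^ 2) := by ring
    rw [hkey]
    refine (abs_sub _ _).trans ?_
    have h10 : ε * S / 4 * (1 + ε) ≤ ε * S / 2 := by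
      have h12 : 0 ≤ ε * S := by positivity
      have h13 := mul_le_mul_of_nonneg_left (by linarith : 1 + ε ≤ 2) (by positivity : 0 ≤ ε * S / 4)
      linarith
    have h11 : 0 ≤ ε * S := by positivity
    linarith
  · intro u hu1 _
    have h5 := ha5 (u + (R : ℤ) ^ 2).toNat
    rw [hcast u hu1] at h5
    show |((b (u + 1 + (R : ℤ) ^ 2).toNat : ℝ) - b (u + (R : ℤ) ^ 2).toNat) +
      κ * ((u : ℝ) + 1 / 2) / Sh * ((a (u + 1 + (R : ℤ) ^ 2).toNat : ℝ) -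
        a (u + (R : ℤ) ^ 2).toNat)| ≤ Real.sqrt (c * ε) / R *
        ((a (u + 1 + (R : ℤ) ^ 2).toNat : ℝ) - a (u + (R : ℤ) ^ 2).toNat)
    rw [hidx u hu1]
    refine h5.trans (mul_le_mul_of_nonneg_right ?_ (ha1 _).le)
    have h6 : κ * M / Sh ≤ κ * M / S :=
      div_le_div_of_nonneg_left (by positivity) hS0 hSh1
    have h7 : κ * M / S ≤ c * ρ / R := by
      have e1 : κ * M / S = c * M / (R : ℝ) ^ 2 := by
        rw [hκ]
        field_simp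
      rw [e1, div_le_div_iff₀ (by positivity) hR0]
      have : c * (M : ℝ) * R ≤ c * (ρ * R) * R := by
        apply mul_le_mul_of_nonneg_right _ hR0.le
        exact mul_le_mul_of_nonneg_left hMle hc.le
      refine this.trans (le_of_eq ?_)
      ring
    have h8 : c * ρ ≤ Real.sqrt (c * ε) := by
      apply Real.le_sqrt_of_sq_le
      rw [mul_pow, hρ2]
      have : c ^ 2 * (ε / (4 * c)) = c * ε / 4 := by field_simp
      rw [this]
      have : 0 < c * ε := by positivity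
      linarith
    refine h6.trans (h7.trans ?_)
    exact div_le_div_of_nonneg_right h8 hR0.le

end Pool.Agent.Run7.h215
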