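import Pool.Agent.Run7.h215.T1count

/-!
T1: the lattice chain.
-/

set_option autoImplicit false

namespace Pool.Agent.Run7.h215

theorem exists_seq {σ : Type*} (s0 : σ) (P : ℕ → σ → σ → Prop) (h : ∀ i s, ∃ s', P i s s') :
    ∃ st : ℕ → σ, st 0 = s0 ∧ ∀ i, P i (st i) (st (i + 1)) := by
  choose F hF using h
  exact ⟨fun n => Nat.rec s0 (fun i s => F i s) n, rfl, fun i => hF i _⟩

/-- `M` decreasing fractions in a short interval -/
theorem slopes_exist (M Q : ℕ) (hQ : 1 ≤ Q) (y ℓ : ℝ) (h1 : 16 ≤ Q * ℓ)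
    (h2 : 32 * (M : ℝ) ≤ (Q : ℝ) ^ 2 * ℓ) :
    ∃ g : ℕ → ℚ, (∀ j, j + 1 < M → g (j + 1) < g j) ∧
      ∀ j, j < M → y < (g j : ℝ) ∧ (g j : ℝ) ≤ y + ℓ ∧ (g j).den ≤ Q := by
  obtain ⟨A, hA, hA2⟩ := count_frac Q hQ y ℓ h1
  have hM : M ≤ A.card := by
    have : (M : ℝ) ≤ A.card := by linarith
    exact_mod_cast this
  obtain ⟨B, hB, hBc⟩ := Finset.exists_subset_card_eq hM
  refine ⟨fun j => if h : j < M then B.orderEmbOfFin hBc ⟨M - 1 - j, by omega⟩ else 0, ?_, ?_⟩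
  · intro j hj
    have hj' : j < M := by omega
    show (if h : j + 1 < M then B.orderEmbOfFin hBc ⟨M - 1 - (j + 1), by omega⟩ else 0) <
      (if h : j < M then B.orderEmbOfFin hBc ⟨M - 1 - j, by omega⟩ else 0)
    rw [dif_pos hj, dif_pos hj', (B.orderEmbOfFin hBc).lt_iff_lt, Fin.mk_lt_mk]
    omega
  · intro j hj
    show y < ((if h : j < M then B.orderEmbOfFin hBc ⟨M - 1 - j, by omega⟩ else 0 : ℚ) : ℝ) ∧ _
    simp only [dif_pos hj]
    exact hA2 _ (hB (Finset.orderEmbOfFin_mem B hBc _))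

/-- the position of the slope interval -/
noncomputable def mb (M : ℝ) (b : Bool) : ℝ := if b = true then M else M / 4

/-- One step of the chain. -/
structure StepR (f : ℕ → Bool → ℕ → ℚ) (M N : ℕ) (Q κ Sh : ℝ) (i : ℕ) (s s' : ℤ × ℤ × Bool) :
    Prop where
  same : i % M ≠ 0 → s'.2.2 = s.2.2
  new : i % M = 0 → (s'.2.2 = true ↔ 0 < (s.2.1 : ℝ) / κ + (s.1 : ℝ) ^ 2 / (2 * Sh ^ 2))
  slope : ((s'.2.1 : ℝ) - s.2.1) = (f (i / M) s'.2.2 (i % M) : ℝ) * ((s'.1 : ℝ) - s.1)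
  pos : (0 : ℝ) < (s'.1 : ℝ) - s.1
  len : |(s'.1 : ℝ) - s.1 - Sh| ≤ Q
  err : |(s.1 : ℝ) - Sh * (i - N)| ≤ Q → |(s'.1 : ℝ) - Sh * ((i + 1 : ℕ) - N)| ≤ Q

theorem step_exists {f : ℕ → Bool → ℕ → ℚ} {M N : ℕ} {Q κ Sh : ℝ} (hM : 0 < M) (hQS : Q < Sh)
    (hf : ∀ k b j, j < M → ((f k b j).den : ℝ) ≤ Q) (i : ℕ) (s : ℤ × ℤ × Bool) :
    ∃ s', StepR f M N Q κ Sh i s s' := by
  classical
  obtain ⟨ch, hch⟩ : ∃ ch : Bool, (i % M ≠ 0 → ch = s.2.2) ∧
      (i % M = 0 → (ch = true ↔ 0 < (s.2.1 : ℝ) / κ + (s.1 : ℝ) ^ 2 / (2 * Sh ^ 2))) := by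
    by_cases h : i % M = 0
    · refine ⟨decide (0 < (s.2.1 : ℝ) / κ + (s.1 : ℝ) ^ 2 / (2 * Sh ^ 2)), fun h1 => absurd h h1,
        fun _ => ?_⟩
      rw [decide_eq_true_eq]
    · exact ⟨s.2.2, fun _ => rfl, fun h1 => absurd h1 h⟩
  obtain ⟨r, hr⟩ : ∃ r, r = f (i / M) ch (i % M) := ⟨_, rfl⟩
  have hden : (r.den : ℝ) ≤ Q := by rw [hr]; exact hf _ _ _ (Nat.mod_lt _ hM)
  have hd0 : (0 : ℝ) < r.den := by exact_mod_cast r.den_pos
  have hr1 : (r : ℝ) = r.num / r.den := by exact_mod_cast (Rat.num_div_den r).symm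
  obtain ⟨t, ht⟩ : ∃ t : ℤ, t = if 0 < (s.1 : ℝ) - Sh * (i - N) then ⌊Sh / r.den⌋ else
    ⌈Sh / r.den⌉ := ⟨_, rfl⟩
  have hdiv : Sh / r.den * r.den = Sh := by field_simp
  have ht1 : (0 < (s.1 : ℝ) - Sh * (i - N) → (t : ℝ) * r.den ≤ Sh ∧ Sh - r.den < t * r.den) ∧
      (¬ 0 < (s.1 : ℝ) - Sh * (i - N) → Sh ≤ (t : ℝ) * r.den ∧ (t : ℝ) * r.den < Sh + r.den) := by
    constructor
    · intro h
      rw [if_pos h] at ht
      have h1 := Int.floor_le (Sh / r.den)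
      have h2 := Int.sub_one_lt_floor (Sh / r.den)
      rw [← ht] at h1 h2
      constructor
      · calc (t : ℝ) * r.den ≤ Sh / r.den * r.den := mul_le_mul_of_nonneg_right h1 hd0.le
          _ = Sh := hdiv
      · have := mul_lt_mul_of_pos_right h2 hd0
        rw [sub_mul, hdiv, one_mul] at this
        exact this
    · intro h
      rw [if_neg h] at ht
      have h1 := Int.le_ceil (Sh / r.den)
      have h2 := Int.ceil_lt_add_one (Sh / r.den)
      rw [← ht] at h1 h2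
      constructor
      · calc Sh = Sh / r.den * r.den := hdiv.symm
          _ ≤ (t : ℝ) * r.den := mul_le_mul_of_nonneg_right h1 hd0.le
      · have := mul_lt_mul_of_pos_right h2 hd0
        rw [add_mul, hdiv, one_mul] at this
        exact this
  refine ⟨(s.1 + t * r.den, s.2.1 + t * r.num, ch), ⟨hch.1, hch.2, ?_, ?_, ?_, ?_⟩⟩
  · rw [← hr, hr1]
    push_cast
    field_simp
    ring
  · push_cast
    by_cases h : 0 < (s.1 : ℝ) - Sh * (i - N)
    · have := ht1.1 h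
      linarith
    · have := ht1.2 h
      linarith
  · push_cast
    rw [abs_le]
    by_cases h : 0 < (s.1 : ℝ) - Sh * (i - N)
    · have := ht1.1 h
      constructor <;> linarith
    · have := ht1.2 h
      constructor <;> linarith
  · intro he
    push_cast
    rw [abs_le] at he ⊢
    have hexp : Sh * ((i : ℝ) + 1 - N) = Sh * (i - N) + Sh := by ring
    rw [hexp]
    by_cases h : 0 < (s.1 : ℝ) - Sh * (i - N)
    · have := ht1.1 h
      constructor <;> linarith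
    · have h' := ht1.2 h
      push Not at h
      constructor <;> linarith

/-- The chain. -/
theorem chain_core (N M Q : ℕ) (κ Sh ε ℓ : ℝ) (hκ : 0 < κ) (hM : 2 ≤ M) (hQ : 1 ≤ Q)
    (hε0 : 0 < ε) (hε : ε ≤ 1 / 100) (hQS : (Q : ℝ) ≤ ε / 4 * Sh)
    (hℓ : ℓ = κ * M / (4 * Sh)) (h16 : 16 ≤ Q * ℓ)
    (h32 : 32 * (M : ℝ) ≤ (Q : ℝ) ^ 2 * ℓ) (hκM : 1 ≤ κ * (M : ℝ) ^ 2) :
    ∃ a b : ℕ → ℤ, (∀ i, (0 : ℝ) < (a (i + 1) : ℝ) - a i) ∧
      (∀ i, ((b (i + 2) : ℝ) - b (i + 1)) * ((a (i + 1) : ℝ) - a i) <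
        ((b (i + 1) : ℝ) - b i) * ((a (i + 2) : ℝ) - a (i + 1))) ∧
      (∀ i : ℕ, |(a i : ℝ) - Sh * (i - N)| ≤ Q) ∧
      (∀ i, |(b i : ℝ) / κ + (a i : ℝ) ^ 2 / (2 * Sh ^ 2)| ≤ (M : ℝ) ^ 2 * (1 + ε)) ∧
      (∀ i : ℕ, |((b (i + 1) : ℝ) - b i) + κ * ((i : ℝ) - N + 1 / 2) / Sh *
        ((a (i + 1) : ℝ) - a i)| ≤ κ * M / Sh * ((a (i + 1) : ℝ) - a i)) := by
  have hQ0 : (0 : ℝ) < Q := by exact_mod_cast hQ
  have hSh : 0 < Sh := by
    by_contra h
    push Not at h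
    nlinarith
  have hQSh : (Q : ℝ) < Sh := by nlinarith
  have hM0 : (0 : ℝ) < M := by exact_mod_cast (by omega : 0 < M)
  have hM2 : (2 : ℝ) ≤ M := by exact_mod_cast hM
  have hκ0 : κ ≠ 0 := hκ.ne'
  have hSh0 : Sh ≠ 0 := hSh.ne'
  have hmb1 : ∀ b, (M : ℝ) / 4 ≤ mb M b ∧ mb M b ≤ M := by
    intro b
    unfold mb
    split_ifs
    · exact ⟨by linarith, le_rfl⟩
    · exact ⟨le_rfl, by linarith⟩
  -- the slopes
  have hfex : ∀ (k : ℕ) (b : Bool), ∃ g : ℕ → ℚ, (∀ j, j + 1 < M → g (j + 1) < g j) ∧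
      ∀ j, j < M → -(κ * ((k : ℝ) * M - N + mb M b) / Sh) < (g j : ℝ) ∧
        (g j : ℝ) ≤ -(κ * ((k : ℝ) * M - N + mb M b) / Sh) + ℓ ∧ (g j).den ≤ Q :=
    fun k b => slopes_exist M Q hQ _ ℓ h16 h32
  choose f hf1 hf2 using hfex
  -- `W`-bounds
  have hW : ∀ (k : ℕ) (b : Bool) (j : ℕ), j < M →
      -(mb M b) - ((k : ℝ) * M - N) < Sh * (f k b j : ℝ) / κ ∧
      Sh * (f k b j : ℝ) / κ ≤ -(mb M b) - ((k : ℝ) * M - N) + M / 4 := by
    intro k b j hj
    obtain ⟨h1, h2, -⟩ := hf2 k b j hj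
    have e1 : Sh * (-(κ * ((k : ℝ) * M - N + mb M b) / Sh)) =
        κ * (-(mb M b) - ((k : ℝ) * M - N)) := by
      field_simp
      ring
    have e2 : Sh * ℓ = κ * (M / 4) := by
      rw [hℓ]
      field_simp
    have h3 := mul_lt_mul_of_pos_left h1 hSh
    have h4 := mul_le_mul_of_nonneg_left h2 hSh.le
    rw [e1] at h3
    rw [mul_add, e1, e2, ← mul_add] at h4
    constructor
    · rw [lt_div_iff₀ hκ]
      linarith
    · rw [div_le_iff₀ hκ]
      linarith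
  have hMn : 0 < M := by omega
  obtain ⟨st, hst0, hst⟩ := exists_seq
    ((round (-(Sh * N)), round (-(κ * (round (-(Sh * N)) : ℝ) ^ 2 / (2 * Sh ^ 2))), false) :
      ℤ × ℤ × Bool)
    (fun i s s' => StepR f M N Q κ Sh i s s')
    (fun i s => step_exists hMn hQSh (fun k b j hj => by exact_mod_cast (hf2 k b j hj).2.2) i s)
  obtain ⟨a, ha⟩ : ∃ a : ℕ → ℤ, ∀ i, a i = (st i).1 := ⟨fun i => (st i).1, fun _ => rfl⟩
  obtain ⟨b, hb⟩ : ∃ b : ℕ → ℤ, ∀ i, b i = (st i).2.1 := ⟨fun i => (st i).2.1, fun _ => rfl⟩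
  obtain ⟨ch, hch⟩ : ∃ ch : ℕ → Bool, ∀ i, ch i = (st (i + 1)).2.2 :=
    ⟨fun i => (st (i + 1)).2.2, fun _ => rfl⟩
  obtain ⟨e, he⟩ : ∃ e : ℕ → ℝ, ∀ i, e i = (b i : ℝ) / κ + (a i : ℝ) ^ 2 / (2 * Sh ^ 2) :=
    ⟨_, fun _ => rfl⟩
  have hpos : ∀ i, (0 : ℝ) < (a (i + 1) : ℝ) - a i := by
    intro i; rw [ha, ha]; exact (hst i).pos
  have hlen : ∀ i, |(a (i + 1) : ℝ) - a i - Sh| ≤ Q := by
    intro i; rw [ha, ha]; exact (hst i).len
  have hslope : ∀ i, (b (i + 1) : ℝ) - b i = (f (i / M) (ch i) (i % M) : ℝ) *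
      ((a (i + 1) : ℝ) - a i) := by
    intro i; rw [ha, ha, hb, hb, hch]; exact (hst i).slope
  have hnew : ∀ k, (ch (k * M) = true ↔ 0 < e (k * M)) := by
    intro k
    have := (hst (k * M)).new (Nat.mul_mod_left k M)
    rw [hch, he, ha, hb]
    exact this
  have hsame : ∀ k j, j < M → ch (k * M + j) = ch (k * M) := by
    intro k j
    induction j with
    | zero => intro _; rfl
    | succ j ih =>
      intro hj
      rw [← ih (by omega)]
      have h1 : (k * M + (j + 1)) % M ≠ 0 := by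
        rw [Nat.mul_add_mod_self_right, Nat.mod_eq_of_lt hj]
        omega
      have h2 := (hst (k * M + (j + 1))).same h1
      rw [hch, hch]
      exact h2
  -- the error of `a`
  have hE : ∀ i : ℕ, |(a i : ℝ) - Sh * (i - N)| ≤ Q := by
    intro i
    induction i with
    | zero =>
      rw [ha, hst0]
      have h1 := abs_sub_round (-(Sh * N))
      rw [abs_sub_comm] at h1
      have h2 : Sh * (((0 : ℕ) : ℝ) - N) = -(Sh * N) := by push_cast; ring
      rw [h2]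
      have : (1 : ℝ) ≤ Q := by exact_mod_cast hQ
      refine h1.trans ?_
      linarith
    | succ i ih =>
      rw [ha] at ih ⊢
      exact (hst i).err ih
  -- decomposition of indices
  have hdiv : ∀ k j, j < M → (k * M + j) / M = k ∧ (k * M + j) % M = j := by
    intro k j hj
    constructor
    · rw [Nat.mul_comm, Nat.mul_add_div hMn, Nat.div_eq_of_lt hj, add_zero]
    · rw [Nat.mul_add_mod_self_right, Nat.mod_eq_of_lt hj]
  -- one step of `e`
  have hstep : ∀ k j, j < M →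
      -(mb M (ch (k * M))) + j + 1 / 2 - ε * M / 2 ≤ e (k * M + j + 1) - e (k * M + j) ∧
      e (k * M + j + 1) - e (k * M + j) ≤ -(mb M (ch (k * M))) + M / 4 + j + 1 / 2 +
        ε * M / 2 := by
    intro k j hj
    obtain ⟨i, hi⟩ : ∃ i, i = k * M + j := ⟨_, rfl⟩
    have hir : (i : ℝ) = (k : ℝ) * M + j := by rw [hi]; push_cast; ring
    rw [← hi]
    have h1 := hslope i
    rw [hi, (hdiv k j hj).1, (hdiv k j hj).2, hsame k j hj, ← hi] at h1
    obtain ⟨w1, w2⟩ := hW k (ch (k * M)) j hj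
    obtain ⟨r, hr⟩ : ∃ r : ℝ, r = (f k (ch (k * M)) j : ℝ) := ⟨_, rfl⟩
    rw [← hr] at h1 w1 w2
    obtain ⟨d, hd⟩ : ∃ d : ℝ, d = (a (i + 1) : ℝ) - a i := ⟨_, rfl⟩
    obtain ⟨E, hEd⟩ : ∃ E : ℝ, E = (a i : ℝ) - Sh * (i - N) := ⟨_, rfl⟩
    obtain ⟨E', hEd'⟩ : ∃ E' : ℝ, E' = (a (i + 1) : ℝ) - Sh * ((i + 1 : ℕ) - N) := ⟨_, rfl⟩
    have hE1 : |E| ≤ Q := by rw [hEd]; exact hE i
    have hE2 : |E'| ≤ Q := by rw [hEd']; exact hE (i + 1)
    have hd1 : |d - Sh| ≤ Q := by rw [hd]; exact hlen i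
    have hd0 : 0 < d := by rw [hd]; exact hpos i
    rw [← hd] at h1
    obtain ⟨W, hWd⟩ : ∃ W : ℝ, W = Sh * r / κ + (i - N) + 1 / 2 := ⟨_, rfl⟩
    have hW1 : -(mb M (ch (k * M))) + j + 1 / 2 ≤ W := by rw [hWd, hir]; linarith
    have hW2 : W ≤ -(mb M (ch (k * M))) + M / 4 + j + 1 / 2 := by rw [hWd, hir]; linarith
    have hmm := hmb1 (ch (k * M))
    have hjM : (j : ℝ) + 1 ≤ M := by exact_mod_cast hj
    have hj0 : (0 : ℝ) ≤ j := Nat.cast_nonneg j
    have hWM : |W| ≤ M := by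
      rw [abs_le]
      constructor <;> linarith [hmm.1, hmm.2]
    have hkey : e (i + 1) - e i = W + (d - Sh) / Sh * W + d * (E + E') / (2 * Sh ^ 2) := by
      rw [he, he]
      have hb' : (b (i + 1) : ℝ) = b i + r * d := by linarith
      have ha' : (a (i + 1) : ℝ) = a i + d := by linarith
      have hEE : E + E' = 2 * a i + d - Sh * (2 * (i - N) + 1) := by
        rw [hEd, hEd', ha']
        push_cast
        ring
      rw [hb', ha', hEE, hWd]
      field_simp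
      ring
    have hS1 : |(d - Sh) / Sh * W| ≤ ε / 4 * M := by
      rw [abs_mul, abs_div, abs_of_pos hSh]
      refine mul_le_mul ?_ hWM (abs_nonneg _) (by positivity)
      rw [div_le_iff₀ hSh]
      linarith
    have hS2 : |d * (E + E') / (2 * Sh ^ 2)| ≤ ε / 2 := by
      have h3 : |E + E'| ≤ 2 * Q := (abs_add_le _ _).trans (by linarith)
      have h4 : d ≤ 2 * Sh := by
        have := (abs_le.1 hd1).2
        linarith
      rw [abs_div, abs_mul, abs_of_pos hd0, abs_of_pos (by positivity : 0 < 2 * Sh ^ 2),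
        div_le_iff₀ (by positivity)]
      calc d * |E + E'| ≤ (2 * Sh) * (2 * (ε / 4 * Sh)) := by
            refine mul_le_mul h4 (by linarith) (abs_nonneg _) (by positivity)
        _ = ε / 2 * (2 * Sh ^ 2) := by ring
    have hS3 : ε / 4 * M + ε / 2 ≤ ε * M / 2 := by nlinarith
    rw [hkey]
    have hS1' := abs_le.1 hS1
    have hS2' := abs_le.1 hS2
    constructor <;> linarith [hS1'.1, hS1'.2, hS2'.1, hS2'.2]
  -- within a block
  have hblock : ∀ k j, j ≤ M →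
      -(mb M (ch (k * M))) * j + (j : ℝ) ^ 2 / 2 - j * (ε * M / 2) ≤
        e (k * M + j) - e (k * M) ∧
      e (k * M + j) - e (k * M) ≤ (-(mb M (ch (k * M))) + M / 4) * j + (j : ℝ) ^ 2 / 2 +
        j * (ε * M / 2) := by
    intro k j
    induction j with
    | zero =>
      intro _
      simp
    | succ j ih =>
      intro hj
      obtain ⟨h1, h2⟩ := ih (by omega)
      obtain ⟨h3, h4⟩ := hstep k j (by omega)
      have h5 : k * M + (j + 1) = k * M + j + 1 := by ring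
      rw [h5]
      push_cast
      constructor
      · nlinarith
      · nlinarith
  obtain ⟨B, hB⟩ : ∃ B : ℝ, B = (M : ℝ) ^ 2 * (1 + ε) / 2 := ⟨_, rfl⟩
  have hbnd : ∀ k j, j ≤ M → -B ≤ e (k * M + j) - e (k * M) ∧ e (k * M + j) - e (k * M) ≤ B := by
    intro k j hj
    obtain ⟨h1, h2⟩ := hblock k j hj
    have hmm := hmb1 (ch (k * M))
    have hjM : (j : ℝ) ≤ M := by exact_mod_cast hj
    have hj0 : (0 : ℝ) ≤ j := Nat.cast_nonneg j
    have h3 : (mb M (ch (k * M))) * j ≤ M * j := mul_le_mul_of_nonneg_right hmm.2 hj0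
    have h4 : (M : ℝ) / 4 * j ≤ mb M (ch (k * M)) * j := mul_le_mul_of_nonneg_right hmm.1 hj0
    have h5 : (j : ℝ) * (ε * M / 2) ≤ M * (ε * M / 2) := by
      apply mul_le_mul_of_nonneg_right hjM
      positivity
    have h6 : (j : ℝ) ^ 2 ≤ (M : ℝ) ^ 2 := by nlinarith
    have h7 : 0 ≤ ((M : ℝ) - j) ^ 2 := sq_nonneg _
    rw [hB]
    constructor
    · nlinarith
    · nlinarith
  have hends : ∀ k, |e (k * M)| ≤ B := by
    intro k
    induction k with
    | zero =>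
      rw [Nat.zero_mul, he, ha, hb, hst0]
      have h1 := abs_sub_round (-(κ * (round (-(Sh * N)) : ℝ) ^ 2 / (2 * Sh ^ 2)))
      have h2 : ((round (-(κ * (round (-(Sh * N)) : ℝ) ^ 2 / (2 * Sh ^ 2))) : ℤ) : ℝ) / κ +
          ((round (-(Sh * N)) : ℤ) : ℝ) ^ 2 / (2 * Sh ^ 2) =
          -((-(κ * (round (-(Sh * N)) : ℝ) ^ 2 / (2 * Sh ^ 2)) -
            round (-(κ * (round (-(Sh * N)) : ℝ) ^ 2 / (2 * Sh ^ 2)))) / κ) := by
        field_simp
        ring
      show |((round (-(κ * (round (-(Sh * N)) : ℝ) ^ 2 / (2 * Sh ^ 2))) : ℤ) : ℝ) / κ +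
          ((round (-(Sh * N)) : ℤ) : ℝ) ^ 2 / (2 * Sh ^ 2)| ≤ B
      rw [h2, abs_neg, abs_div, abs_of_pos hκ, div_le_iff₀ hκ]
      refine h1.trans ?_
      rw [hB]
      nlinarith
    | succ k ih =>
      have h0 : (k + 1) * M = k * M + M := by ring
      obtain ⟨h1, h2⟩ := hbnd k M le_rfl
      obtain ⟨h3, h4⟩ := hblock k M le_rfl
      rw [h0]
      rw [abs_le] at ih ⊢
      by_cases hc : ch (k * M) = true
      · have hpos := (hnew k).1 hc
        have hmbv : mb M (ch (k * M)) = M := by rw [hc]; rfl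
        rw [hmbv] at h4
        have h5 : e (k * M + M) - e (k * M) ≤ 0 := by nlinarith
        constructor <;> linarith [ih.1, ih.2]
      · have hneg : e (k * M) ≤ 0 := by
          by_contra h
          push Not at h
          exact hc ((hnew k).2 h)
        have hmbv : mb M (ch (k * M)) = M / 4 := by
          unfold mb
          rw [if_neg hc]
        rw [hmbv] at h3
        have h5 : 0 ≤ e (k * M + M) - e (k * M) := by nlinarith
        constructor <;> linarith [ih.1, ih.2]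
  have hdecomp : ∀ i, ∃ k j, j < M ∧ i = k * M + j := by
    intro i
    refine ⟨i / M, i % M, Nat.mod_lt _ hMn, ?_⟩
    rw [Nat.mul_comm]
    exact (Nat.div_add_mod i M).symm
  refine ⟨a, b, hpos, ?_, hE, ?_, ?_⟩
  · -- decreasing slopes
    intro i
    obtain ⟨k, j, hj, rfl⟩ := hdecomp i
    have h1 := hslope (k * M + j)
    rw [(hdiv k j hj).1, (hdiv k j hj).2, hsame k j hj] at h1
    have h2 := hslope (k * M + j + 1)
    have p1 := hpos (k * M + j)
    have p2 := hpos (k * M + j + 1)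
    have h3 : k * M + j + 1 + 1 = k * M + j + 2 := rfl
    rw [h3] at h2 p2
    rw [h1, h2]
    have hlt : (f ((k * M + j + 1) / M) (ch (k * M + j + 1)) ((k * M + j + 1) % M) : ℝ) <
        (f k (ch (k * M)) j : ℝ) := by
      by_cases hjM : j + 1 < M
      · have h4 : k * M + j + 1 = k * M + (j + 1) := by ring
        rw [h4, (hdiv k (j + 1) hjM).1, (hdiv k (j + 1) hjM).2, hsame k (j + 1) hjM]
        exact_mod_cast hf1 k (ch (k * M)) j hjM
      · have hjM' : j + 1 = M := by omega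
        have h4 : k * M + j + 1 = (k + 1) * M + 0 := by rw [add_assoc, hjM']; ring
        rw [h4, (hdiv (k + 1) 0 hMn).1, (hdiv (k + 1) 0 hMn).2]
        have h5 := (hf2 (k + 1) (ch ((k + 1) * M + 0)) 0 hMn).2.1
        have h6 := (hf2 k (ch (k * M)) j hj).1
        have m1 := (hmb1 (ch ((k + 1) * M + 0))).1
        have m2 := (hmb1 (ch (k * M))).2
        have h7 : -(κ * (((k + 1 : ℕ) : ℝ) * M - N + mb M (ch ((k + 1) * M + 0))) / Sh) + ℓ ≤
            -(κ * ((k : ℝ) * M - N + mb M (ch (k * M))) / Sh) := by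
          have e1 : ℓ = κ * (M / 4) / Sh := by rw [hℓ]; field_simp
          rw [e1, ← neg_div, ← neg_div, ← add_div, div_le_div_iff_of_pos_right hSh]
          push_cast
          nlinarith
        linarith
    have h8 : (f ((k * M + j + 1) / M) (ch (k * M + j + 1)) ((k * M + j + 1) % M) : ℝ) *
        ((a (k * M + j + 2) : ℝ) - a (k * M + j + 1)) * ((a (k * M + j + 1) : ℝ) - a (k * M + j)) =
        (f ((k * M + j + 1) / M) (ch (k * M + j + 1)) ((k * M + j + 1) % M) : ℝ) *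
        (((a (k * M + j + 2) : ℝ) - a (k * M + j + 1)) *
          ((a (k * M + j + 1) : ℝ) - a (k * M + j))) := by ring
    have h9 : (f k (ch (k * M)) j : ℝ) * ((a (k * M + j + 1) : ℝ) - a (k * M + j)) *
        ((a (k * M + j + 2) : ℝ) - a (k * M + j + 1)) =
        (f k (ch (k * M)) j : ℝ) * (((a (k * M + j + 2) : ℝ) - a (k * M + j + 1)) *
          ((a (k * M + j + 1) : ℝ) - a (k * M + j))) := by ring
    rw [h8, h9]
    exact mul_lt_mul_of_pos_right hlt (mul_pos p2 p1)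
  · -- error of b
    intro i
    obtain ⟨k, j, hj, rfl⟩ := hdecomp i
    rw [← he]
    obtain ⟨h1, h2⟩ := hbnd k j hj.le
    have h3 := hends k
    rw [abs_le] at h3 ⊢
    rw [hB] at h1 h2 h3
    constructor <;> linarith [h3.1, h3.2]
  · -- slopes
    intro i
    obtain ⟨k, j, hj, rfl⟩ := hdecomp i
    have h1 := hslope (k * M + j)
    rw [(hdiv k j hj).1, (hdiv k j hj).2, hsame k j hj] at h1
    rw [h1]
    have p1 := hpos (k * M + j)
    obtain ⟨w1, w2⟩ := hW k (ch (k * M)) j hj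
    obtain ⟨r, hr⟩ : ∃ r : ℝ, r = (f k (ch (k * M)) j : ℝ) := ⟨_, rfl⟩
    rw [← hr] at w1 w2 ⊢
    have hmm := hmb1 (ch (k * M))
    have hjM : (j : ℝ) + 1 ≤ M := by exact_mod_cast hj
    have hj0 : (0 : ℝ) ≤ j := Nat.cast_nonneg j
    have hWM : |Sh * r / κ + (((k * M + j : ℕ) : ℝ) - N) + 1 / 2| ≤ M := by
      push_cast
      rw [abs_le]
      constructor <;> linarith [hmm.1, hmm.2]
    have h2 : r * ((a (k * M + j + 1) : ℝ) - a (k * M + j)) +
        κ * (((k * M + j : ℕ) : ℝ) - N + 1 / 2) / Sh *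
          ((a (k * M + j + 1) : ℝ) - a (k * M + j)) =
        κ / Sh * (Sh * r / κ + (((k * M + j : ℕ) : ℝ) - N) + 1 / 2) *
          ((a (k * M + j + 1) : ℝ) - a (k * M + j)) := by
      field_simp
      ring
    rw [h2, abs_mul, abs_mul, abs_of_pos p1, abs_of_pos (by positivity : 0 < κ / Sh)]
    refine mul_le_mul_of_nonneg_right ?_ p1.le
    have h3 : κ * M / Sh = κ / Sh * M := by ring
    rw [h3]
    exact mul_le_mul_of_nonneg_left hWM (by positivity)

end Pool.Agent.Run7.h215
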