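import Pool.Agent.Run7.h215.Iface

/-!
T1count: fractions with bounded denominators in short intervals.
-/

set_option autoImplicit false

namespace Pool.Agent.Run7.h215

theorem rat_gap {a m : ℚ} (h : a < m) : (1 : ℝ) / (a.den * m.den) ≤ (m : ℝ) - a := by
  have ha : (0 : ℝ) < a.den := by exact_mod_cast a.den_pos
  have hm : (0 : ℝ) < m.den := by exact_mod_cast m.den_pos
  have h1 : (a : ℝ) = a.num / a.den := by exact_mod_cast (Rat.num_div_den a).symm
  have h2 : (m : ℝ) = m.num / m.den := by exact_mod_cast (Rat.num_div_den m).symm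
  have h3 : (m : ℝ) - a = ((m.num * a.den - a.num * m.den : ℤ) : ℝ) / (a.den * m.den) := by
    rw [h1, h2]
    push_cast
    field_simp
  have h4 : (0 : ℝ) < (m : ℝ) - a := by
    have : (a : ℝ) < m := by exact_mod_cast h
    linarith
  rw [h3] at h4 ⊢
  have h5 : (0 : ℝ) < a.den * m.den := mul_pos ha hm
  have h6 : (0 : ℝ) < ((m.num * a.den - a.num * m.den : ℤ) : ℝ) := by
    by_contra h
    push Not at h
    have := div_nonpos_of_nonpos_of_nonneg h h5.le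
    linarith
  have h7 : (0 : ℤ) < m.num * a.den - a.num * m.den := by exact_mod_cast h6
  have h8 : (1 : ℝ) ≤ ((m.num * a.den - a.num * m.den : ℤ) : ℝ) := by exact_mod_cast h7
  exact div_le_div_of_nonneg_right h8 h5.le

theorem sum_inv_den {M : ℝ} (hM : 0 < M) {x : ℝ} (S : Finset ℚ) :
    (∀ r ∈ S, x < (r : ℝ) ∧ (r.den : ℝ) ≤ M) → ∀ m : ℚ, x ≤ m → (m.den : ℝ) ≤ M →
    (∀ r ∈ S, r < m) → ∑ r ∈ S, (1 : ℝ) / r.den ≤ M * (m - x) := by
  induction S using Finset.induction_on_max with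
  | empty =>
    intro _ m hxm _ _
    simp only [Finset.sum_empty]
    exact mul_nonneg hM.le (by linarith)
  | insert a s has ih =>
    intro h m _ hm hlt
    have hn : a ∉ s := fun h1 => lt_irrefl a (has a h1)
    rw [Finset.sum_insert hn]
    have ha := h a (Finset.mem_insert_self a s)
    have h1 := ih (fun r hr => h r (Finset.mem_insert_of_mem hr)) a ha.1.le ha.2 has
    have h2 := rat_gap (hlt a (Finset.mem_insert_self a s))
    have hda : (0 : ℝ) < a.den := by exact_mod_cast a.den_pos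
    have hdm : (0 : ℝ) < m.den := by exact_mod_cast m.den_pos
    have h3 : (1 : ℝ) / a.den ≤ M * (m - a) := by
      have h4 : (1 : ℝ) / a.den = m.den * (1 / (a.den * m.den)) := by field_simp
      rw [h4]
      have h5 : (0 : ℝ) < 1 / (a.den * m.den) := by positivity
      calc (m.den : ℝ) * (1 / (a.den * m.den)) ≤ M * (1 / (a.den * m.den)) :=
            mul_le_mul_of_nonneg_right hm h5.le
        _ ≤ M * (m - a) := mul_le_mul_of_nonneg_left h2 hM.le
    have h6 : M * (m - x) = M * (a - x) + M * (m - a) := by ring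
    rw [h6]
    linarith

theorem card_fiber (Q : ℕ) (x ℓ : ℝ) (r : ℚ) :
    (((Finset.Icc 1 Q).sigma (fun q : ℕ => Finset.Ioc ⌊(q : ℝ) * x⌋ ⌊(q : ℝ) * (x + ℓ)⌋)).filter
      (fun y : (_ : ℕ) × ℤ => (y.2 : ℚ) / y.1 = r)).card ≤ Q / r.den := by
  have hd : 0 < r.den := r.den_pos
  have key : ∀ y : (_ : ℕ) × ℤ, 1 ≤ y.1 → (y.2 : ℚ) / y.1 = r → r.den ∣ y.1 := by
    intro y hy h
    have h1 := Rat.den_dvd y.2 (y.1 : ℤ)
    rw [Rat.divInt_eq_div, Int.cast_natCast, h] at h1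
    exact_mod_cast h1
  have hcard : (Finset.Icc 1 (Q / r.den)).card = Q / r.den := by simp
  rw [← hcard]
  refine Finset.card_le_card_of_injOn (fun y => y.1 / r.den) ?_ ?_
  · intro y hy
    rw [Finset.mem_coe, Finset.mem_filter, Finset.mem_sigma, Finset.mem_Icc] at hy
    obtain ⟨⟨⟨h1, h2⟩, -⟩, h3⟩ := hy
    rw [Finset.mem_coe, Finset.mem_Icc]
    have h4 := key y h1 h3
    exact ⟨Nat.div_pos (Nat.le_of_dvd h1 h4) hd, Nat.div_le_div_right h2⟩
  · intro y hy z hz hyz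
    rw [Finset.mem_coe, Finset.mem_filter, Finset.mem_sigma, Finset.mem_Icc] at hy hz
    obtain ⟨⟨⟨h1, h2⟩, -⟩, h3⟩ := hy
    obtain ⟨⟨⟨k1, k2⟩, -⟩, k3⟩ := hz
    have h4 := key y h1 h3
    have k4 := key z k1 k3
    have h5 : y.1 = z.1 := by
      have e1 := Nat.div_mul_cancel h4
      have e2 := Nat.div_mul_cancel k4
      have e3 : y.1 / r.den = z.1 / r.den := hyz
      rw [← e1, ← e2, e3]
    have h6 : y.2 = z.2 := by
      have e1 : (y.1 : ℚ) ≠ 0 := by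
        have : y.1 ≠ 0 := by omega
        exact_mod_cast this
      have e2 : (z.1 : ℚ) ≠ 0 := by rw [← h5]; exact e1
      rw [div_eq_iff e1] at h3
      rw [div_eq_iff e2] at k3
      have : (y.2 : ℚ) = z.2 := by rw [h3, k3, h5]
      exact_mod_cast this
    obtain ⟨y1, y2⟩ := y
    obtain ⟨z1, z2⟩ := z
    simp only at h5 h6
    subst h5
    subst h6
    rfl

theorem count_frac (Q : ℕ) (hQ : 1 ≤ Q) (x ℓ : ℝ) (hl : 16 ≤ Q * ℓ) :
    ∃ A : Finset ℚ, (Q : ℝ) ^ 2 * ℓ / 32 ≤ A.card ∧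
      ∀ r ∈ A, x < (r : ℝ) ∧ (r : ℝ) ≤ x + ℓ ∧ r.den ≤ Q := by
  have hQ0 : (0 : ℝ) < Q := by exact_mod_cast hQ
  have hl0 : 0 < ℓ := by
    by_contra h
    push Not at h
    have := mul_nonpos_of_nonneg_of_nonpos hQ0.le h
    linarith
  obtain ⟨P, hP⟩ : ∃ P : Finset ((_ : ℕ) × ℤ), P = (Finset.Icc 1 Q).sigma
    (fun q : ℕ => Finset.Ioc ⌊(q : ℝ) * x⌋ ⌊(q : ℝ) * (x + ℓ)⌋) := ⟨_, rfl⟩
  obtain ⟨A, hA⟩ : ∃ A : Finset ℚ, A = P.image (fun y : (_ : ℕ) × ℤ => (y.2 : ℚ) / y.1) := ⟨_, rfl⟩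
  have hmem : ∀ r ∈ A, x < (r : ℝ) ∧ (r : ℝ) ≤ x + ℓ ∧ r.den ≤ Q := by
    intro r hr
    rw [hA, Finset.mem_image] at hr
    obtain ⟨y, hy, rfl⟩ := hr
    rw [hP, Finset.mem_sigma, Finset.mem_Icc, Finset.mem_Ioc] at hy
    obtain ⟨⟨h1, h2⟩, h3, h4⟩ := hy
    have hy0 : (0 : ℝ) < y.1 := by exact_mod_cast h1
    rw [Int.floor_lt] at h3
    rw [Int.le_floor] at h4
    refine ⟨?_, ?_, ?_⟩
    · push_cast
      rw [lt_div_iff₀ hy0]
      linarith
    · push_cast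
      rw [div_le_iff₀ hy0]
      linarith
    · have h5 := Rat.den_dvd y.2 (y.1 : ℤ)
      rw [Rat.divInt_eq_div, Int.cast_natCast] at h5
      have h6 : ((y.2 : ℚ) / y.1).den ∣ y.1 := by exact_mod_cast h5
      exact (Nat.le_of_dvd h1 h6).trans h2
  refine ⟨A, ?_, hmem⟩
  -- lower bound for the number of pairs
  have hPcard : ℓ * Q * (Q + 1) / 2 - Q ≤ (P.card : ℝ) := by
    rw [hP, Finset.card_sigma]
    push_cast
    have h1 : ∀ q ∈ Finset.Icc 1 Q, (q : ℝ) * ℓ - 1 ≤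
        ((Finset.Ioc ⌊(q : ℝ) * x⌋ ⌊(q : ℝ) * (x + ℓ)⌋).card : ℝ) := by
      intro q _
      rw [Int.card_Ioc]
      have h2 : (q : ℝ) * (x + ℓ) - 1 < ⌊(q : ℝ) * (x + ℓ)⌋ := Int.sub_one_lt_floor _
      have h3 : (⌊(q : ℝ) * x⌋ : ℝ) ≤ (q : ℝ) * x := Int.floor_le _
      have h4 : ((⌊(q : ℝ) * (x + ℓ)⌋ - ⌊(q : ℝ) * x⌋ : ℤ) : ℝ) ≤
          (((⌊(q : ℝ) * (x + ℓ)⌋ - ⌊(q : ℝ) * x⌋).toNat : ℤ) : ℝ) := by
        exact_mod_cast Int.self_le_toNat _
      push_cast at h4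
      have h5 : (((⌊(q : ℝ) * (x + ℓ)⌋ - ⌊(q : ℝ) * x⌋).toNat : ℕ) : ℝ) =
        (((⌊(q : ℝ) * (x + ℓ)⌋ - ⌊(q : ℝ) * x⌋).toNat : ℤ) : ℝ) := by push_cast; rfl
      rw [h5]
      push_cast
      nlinarith
    refine le_trans ?_ (Finset.sum_le_sum h1)
    rw [Finset.sum_sub_distrib, ← Finset.sum_mul, Finset.sum_const, Nat.card_Icc]
    have h6 : ∑ i ∈ Finset.Icc 1 Q, (i : ℝ) = Q * (Q + 1) / 2 := by
      have := Finset.sum_range_id_mul_two (Q + 1)
      have h7 : ∑ i ∈ Finset.Icc 1 Q, i = ∑ i ∈ Finset.range (Q + 1), i := by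
        rw [Finset.range_eq_Ico, Finset.sum_eq_sum_Ico_succ_bot (by omega)]
        simp only [zero_add]
        rfl
      rw [Nat.add_sub_cancel] at this
      have h8 : ((∑ i ∈ Finset.Icc 1 Q, i : ℕ) : ℝ) * 2 = (Q + 1) * Q := by
        rw [h7]; exact_mod_cast this
      push_cast at h8
      linarith
    rw [h6]
    simp only [Nat.add_sub_cancel, nsmul_eq_mul, mul_one]
    linarith
  -- upper bound
  have hPcard2 : (P.card : ℝ) ≤ ∑ r ∈ A, (Q : ℝ) * (1 / r.den) := by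
    have h1 : P.card = ∑ r ∈ A, (P.filter (fun y : (_ : ℕ) × ℤ => (y.2 : ℚ) / y.1 = r)).card := by
      rw [hA]
      exact Finset.card_eq_sum_card_image _ _
    rw [h1]
    push_cast
    refine Finset.sum_le_sum fun r _ => ?_
    have h2 := card_fiber Q x ℓ r
    rw [← hP] at h2
    have h3 : ((P.filter (fun y : (_ : ℕ) × ℤ => (y.2 : ℚ) / y.1 = r)).card : ℝ) ≤
      ((Q / r.den : ℕ) : ℝ) := by exact_mod_cast h2
    refine h3.trans (Nat.cast_div_le.trans ?_)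
    rw [mul_one_div]
  rw [← Finset.mul_sum] at hPcard2
  have hsum : ℓ * (Q + 1) / 2 - 1 ≤ ∑ r ∈ A, (1 : ℝ) / r.den := by
    have h1 : (Q : ℝ) * (ℓ * (Q + 1) / 2 - 1) ≤ Q * ∑ r ∈ A, (1 : ℝ) / r.den := by
      refine le_trans ?_ hPcard2
      refine le_trans ?_ hPcard
      linarith
    exact le_of_mul_le_mul_left h1 hQ0
  rw [← Finset.sum_filter_add_sum_filter_not A (fun r => (r.den : ℝ) ≤ Q / 4)] at hsum
  have hA1 : ∑ r ∈ A.filter (fun r => (r.den : ℝ) ≤ Q / 4), (1 : ℝ) / r.den ≤ Q / 4 * ℓ + 1 := by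
    obtain ⟨B, hB⟩ : ∃ B, B = A.filter (fun r => (r.den : ℝ) ≤ Q / 4) := ⟨_, rfl⟩
    rw [← hB]
    rcases B.eq_empty_or_nonempty with h | h
    · rw [h, Finset.sum_empty]
      positivity
    · obtain ⟨m, hm⟩ : ∃ m, m = B.max' h := ⟨_, rfl⟩
      have hmB : m ∈ B := by rw [hm]; exact Finset.max'_mem B h
      rw [← Finset.add_sum_erase B _ hmB]
      have hBm : ∀ r ∈ B, x < (r : ℝ) ∧ (r : ℝ) ≤ x + ℓ ∧ (r.den : ℝ) ≤ Q / 4 := by
        intro r hr
        rw [hB, Finset.mem_filter] at hr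
        have := hmem r hr.1
        exact ⟨this.1, this.2.1, hr.2⟩
      have h1 := sum_inv_den (M := Q / 4) (by positivity) (x := x) (B.erase m)
        (fun r hr => by
          have := hBm r (Finset.mem_of_mem_erase hr)
          exact ⟨this.1, this.2.2⟩) m (hBm m hmB).1.le (hBm m hmB).2.2
        (fun r hr => by
          rw [Finset.mem_erase] at hr
          have := Finset.le_max' B r hr.2
          rw [← hm] at this
          exact lt_of_le_of_ne this hr.1)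
      have h2 : (1 : ℝ) / m.den ≤ 1 := by
        have : (1 : ℝ) ≤ m.den := by exact_mod_cast m.den_pos
        rw [div_le_one (by linarith)]
        exact this
      have h3 : (Q : ℝ) / 4 * (m - x) ≤ Q / 4 * ℓ := by
        refine mul_le_mul_of_nonneg_left ?_ (by positivity)
        have := (hBm m hmB).2.1
        linarith
      linarith
  have hA2 : ∑ r ∈ A.filter (fun r => ¬ (r.den : ℝ) ≤ Q / 4), (1 : ℝ) / r.den ≤
      A.card * (4 / Q) := by
    have h1 : ∑ r ∈ A.filter (fun r => ¬ (r.den : ℝ) ≤ Q / 4), (1 : ℝ) / r.den ≤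
        ∑ r ∈ A.filter (fun r => ¬ (r.den : ℝ) ≤ Q / 4), (4 / Q : ℝ) := by
      refine Finset.sum_le_sum fun r hr => ?_
      rw [Finset.mem_filter, not_le] at hr
      have h2 : (0 : ℝ) < r.den := by exact_mod_cast r.den_pos
      rw [div_le_div_iff₀ h2 hQ0]
      linarith [hr.2]
    refine h1.trans ?_
    rw [Finset.sum_const, nsmul_eq_mul]
    refine mul_le_mul_of_nonneg_right ?_ (by positivity)
    exact_mod_cast Finset.card_filter_le _ _
  have hfin : (Q : ℝ) * ℓ / 8 ≤ A.card * (4 / Q) := by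
    have h1 : ℓ * (Q + 1) / 2 - 1 ≤ Q / 4 * ℓ + 1 + A.card * (4 / Q) := by linarith
    nlinarith
  have h2 : (Q : ℝ) * ℓ / 8 * (Q / 4) ≤ A.card * (4 / Q) * (Q / 4) :=
    mul_le_mul_of_nonneg_right hfin (by positivity)
  have h3 : (A.card : ℝ) * (4 / Q) * (Q / 4) = A.card := by field_simp
  rw [h3] at h2
  refine le_trans (le_of_eq ?_) h2
  ring

theorem t1count : T1count := by
  intro Q hQ x
  have hQ0 : (0 : ℝ) < Q := by exact_mod_cast hQ
  obtain ⟨A, h1, h2⟩ := count_frac Q hQ x (16 / Q) (by field_simp; norm_num)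
  refine ⟨A, le_trans ?_ h1, h2⟩
  have : (Q : ℝ) ^ 2 * (16 / Q) / 32 = Q / 2 := by field_simp; norm_num
  rw [this]
  linarith

end Pool.Agent.Run7.h215
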