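import Pool.Agent.Run7.h215.T2_poly

/-!
# T2, second part: segments, regions, extreme points
-/

set_option autoImplicit false
set_option linter.unusedSectionVars false

namespace Pool.Agent.Run7.h215

section geo

variable {V : Type} {p : V → ℝ × ℝ}

theorem seg_ln {a b : V} (h : (p a).1 < (p b).1) (q : ℝ × ℝ) :
    q ∈ segment ℝ (p a) (p b) ↔ (p a).1 ≤ q.1 ∧ q.1 ≤ (p b).1 ∧ q.2 = ln p a b q.1 := by
  have hne : (p b).1 - (p a).1 ≠ 0 := by linarith
  constructor
  · rintro ⟨α, β, hα, hβ, hαβ, rfl⟩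
    have hα' : α = 1 - β := by linarith
    subst hα'
    simp only [Prod.fst_add, Prod.smul_fst, smul_eq_mul, Prod.snd_add, Prod.smul_snd]
    refine ⟨?_, ?_, ?_⟩
    · nlinarith
    · nlinarith
    · unfold ln slp
      field_simp
      ring
  · rintro ⟨h1, h2, h3⟩
    refine ⟨1 - (q.1 - (p a).1) / ((p b).1 - (p a).1), (q.1 - (p a).1) / ((p b).1 - (p a).1),
      ?_, ?_, by ring, ?_⟩
    · rw [sub_nonneg, div_le_one (by linarith)]; linarith
    · apply div_nonneg <;> linarith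
    · refine Prod.ext ?_ ?_
      · simp only [Prod.fst_add, Prod.smul_fst, smul_eq_mul]
        field_simp
        ring
      · simp only [Prod.snd_add, Prod.smul_snd, smul_eq_mul]
        rw [h3]
        unfold ln slp
        field_simp
        ring

theorem mem_pair {a b : V} {T : List V} {w : V} (hw : w ∈ a :: (T ++ [b])) :
    ∃ c d, [c, d] <:+: a :: (T ++ [b]) ∧ (w = c ∨ w = d) := by
  induction T generalizing a with
  | nil =>
    refine ⟨a, b, List.infix_rfl, ?_⟩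
    simpa using hw
  | cons c T ih =>
    rcases List.mem_cons.1 hw with rfl | hw
    · exact ⟨w, c, ⟨[], T ++ [b], rfl⟩, Or.inl rfl⟩
    · obtain ⟨c', d', h1, h2⟩ := ih (a := c) hw
      exact ⟨c', d', h1.trans (List.suffix_cons a _).isInfix, h2⟩

theorem pair_append2 {a b z : V} {L L' : List V} (h : [a, b] <:+: L ++ z :: L') :
    [a, b] <:+: L ++ [z] ∨ [a, b] <:+: z :: L' := by
  induction L with
  | nil => right; exact h
  | cons c T ih =>
    rw [List.cons_append] at h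
    rcases List.infix_cons_iff.1 h with h | h
    · left
      obtain ⟨t, ht⟩ := h
      cases T with
      | nil =>
        simp only [List.cons_append, List.nil_append, List.cons.injEq] at ht
        obtain ⟨rfl, rfl, -⟩ := ht
        exact List.infix_rfl
      | cons d T =>
        simp only [List.cons_append, List.nil_append, List.cons.injEq] at ht
        obtain ⟨rfl, rfl, -⟩ := ht
        exact ⟨[], T ++ [z], rfl⟩
    · rcases ih h with h | h
      · left; exact h.trans (List.suffix_cons c _).isInfix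
      · right; exact h

/-! ### regions -/

/-- strictly between the paths `L` (below) and `L'` (above) -/
def Reg (p : V → ℝ × ℝ) (zp zq : V) (L L' : List V) : Set (ℝ × ℝ) :=
  {q | (p zp).1 < q.1 ∧ q.1 < (p zq).1 ∧ (∀ e ∈ L.zip L.tail, ln p e.1 e.2 q.1 < q.2) ∧
    ∀ e ∈ L'.zip L'.tail, q.2 < ln p e.1 e.2 q.1}

/-- the closed version -/
def KReg (p : V → ℝ × ℝ) (zp zq : V) (L L' : List V) : Set (ℝ × ℝ) :=
  {q | (p zp).1 ≤ q.1 ∧ q.1 ≤ (p zq).1 ∧ (∀ e ∈ L.zip L.tail, ln p e.1 e.2 q.1 ≤ q.2) ∧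
    ∀ e ∈ L'.zip L'.tail, q.2 ≤ ln p e.1 e.2 q.1}

theorem ln_cont (a b : V) : Continuous (fun q : ℝ × ℝ => ln p a b q.1) := by
  unfold ln; fun_prop

theorem isOpen_forall_list {α β : Type} [TopologicalSpace β] (l : List α) (P : α → β → Prop)
    (h : ∀ a ∈ l, IsOpen {x | P a x}) : IsOpen {x | ∀ a ∈ l, P a x} := by
  induction l with
  | nil => simp
  | cons a l ih =>
    have h1 : {x | ∀ b ∈ a :: l, P b x} = {x | P a x} ∩ {x | ∀ b ∈ l, P b x} := by
      ext x
      constructor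
      · intro hx
        exact ⟨hx a (by simp), fun b hb => hx b (by simp [hb])⟩
      · rintro ⟨hx, hx'⟩ b hb
        rcases List.mem_cons.1 hb with rfl | hb
        · exact hx
        · exact hx' b hb
    rw [h1]
    exact (h a (by simp)).inter (ih fun b hb => h b (by simp [hb]))

theorem isOpen_Reg (zp zq : V) (L L' : List V) : IsOpen (Reg p zp zq L L') := by
  unfold Reg
  have h1 : IsOpen {q : ℝ × ℝ | (p zp).1 < q.1} := isOpen_lt continuous_const continuous_fst
  have h2 : IsOpen {q : ℝ × ℝ | q.1 < (p zq).1} := isOpen_lt continuous_fst continuous_const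
  have h3 : IsOpen {q : ℝ × ℝ | ∀ e ∈ L.zip L.tail, ln p e.1 e.2 q.1 < q.2} :=
    isOpen_forall_list _ (fun (e : V × V) (q : ℝ × ℝ) => ln p e.1 e.2 q.1 < q.2)
      (fun e _ => isOpen_lt (ln_cont _ _) continuous_snd)
  have h4 : IsOpen {q : ℝ × ℝ | ∀ e ∈ L'.zip L'.tail, q.2 < ln p e.1 e.2 q.1} :=
    isOpen_forall_list _ (fun (e : V × V) (q : ℝ × ℝ) => q.2 < ln p e.1 e.2 q.1)
      (fun e _ => isOpen_lt continuous_snd (ln_cont _ _))
  exact h1.inter (h2.inter (h3.inter h4))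

theorem isClosed_KReg (zp zq : V) (L L' : List V) : IsClosed (KReg p zp zq L L') := by
  unfold KReg
  have h1 : IsClosed {q : ℝ × ℝ | (p zp).1 ≤ q.1} := isClosed_le continuous_const continuous_fst
  have h2 : IsClosed {q : ℝ × ℝ | q.1 ≤ (p zq).1} := isClosed_le continuous_fst continuous_const
  have h3 : IsClosed {q : ℝ × ℝ | ∀ e ∈ L.zip L.tail, ln p e.1 e.2 q.1 ≤ q.2} := by
    simp only [Set.ofPred_forall]
    exact isClosed_iInter fun e => isClosed_iInter fun _ =>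
      isClosed_le (ln_cont _ _) continuous_snd
  have h4 : IsClosed {q : ℝ × ℝ | ∀ e ∈ L'.zip L'.tail, q.2 ≤ ln p e.1 e.2 q.1} := by
    simp only [Set.ofPred_forall]
    exact isClosed_iInter fun e => isClosed_iInter fun _ =>
      isClosed_le continuous_snd (ln_cont _ _)
  exact h1.inter (h2.inter (h3.inter h4))

theorem closure_Reg (zp zq : V) (L L' : List V) :
    closure (Reg p zp zq L L') ⊆ KReg p zp zq L L' := by
  apply closure_minimal _ (isClosed_KReg zp zq L L')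
  rintro q ⟨h1, h2, h3, h4⟩
  exact ⟨h1.le, h2.le, fun e he => (h3 e he).le, fun e he => (h4 e he).le⟩

theorem ln_comb (a b : V) (x y α β : ℝ) (h : α + β = 1) :
    ln p a b (α * x + β * y) = α * ln p a b x + β * ln p a b y := by
  have : α = 1 - β := by linarith
  subst this
  unfold ln
  ring

theorem comb_pos {α β u v : ℝ} (hα : 0 ≤ α) (hβ : 0 ≤ β) (h : α + β = 1) (hu : 0 < u)
    (hv : 0 < v) : 0 < α * u + β * v := by
  rcases hα.lt_or_eq with h1 | h1
  · have := mul_pos h1 hu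
    have := mul_nonneg hβ hv.le
    linarith
  · have h2 : β = 1 := by linarith
    rw [← h1, h2]; linarith

theorem convex_Reg (zp zq : V) (L L' : List V) : Convex ℝ (Reg p zp zq L L') := by
  rintro q ⟨h1, h2, h3, h4⟩ r ⟨h1', h2', h3', h4'⟩ α β hα hβ hαβ
  have e1 : (α • q + β • r).1 = α * q.1 + β * r.1 := rfl
  have e2 : (α • q + β • r).2 = α * q.2 + β * r.2 := rfl
  refine ⟨?_, ?_, fun e he => ?_, fun e he => ?_⟩
  · rw [e1]
    have := comb_pos hα hβ hαβ (sub_pos.2 h1) (sub_pos.2 h1')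
    have e3 : α * (q.1 - (p zp).1) + β * (r.1 - (p zp).1) =
        α * q.1 + β * r.1 - (α + β) * (p zp).1 := by ring
    rw [hαβ] at e3
    linarith
  · rw [e1]
    have := comb_pos hα hβ hαβ (sub_pos.2 h2) (sub_pos.2 h2')
    have e3 : α * ((p zq).1 - q.1) + β * ((p zq).1 - r.1) =
        (α + β) * (p zq).1 - (α * q.1 + β * r.1) := by ring
    rw [hαβ] at e3
    linarith
  · rw [e1, e2, ln_comb _ _ _ _ _ _ hαβ]
    have := comb_pos hα hβ hαβ (sub_pos.2 (h3 e he)) (sub_pos.2 (h3' e he))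
    linarith
  · rw [e1, e2, ln_comb _ _ _ _ _ _ hαβ]
    have := comb_pos hα hβ hαβ (sub_pos.2 (h4 e he)) (sub_pos.2 (h4' e he))
    linarith

/-- criterion for extreme points -/
theorem ext_of_two {K : Set (ℝ × ℝ)} {v : ℝ × ℝ} (hv : v ∈ K) (f1 f2 f0 g1 g2 g0 : ℝ)
    (hf : ∀ q ∈ K, 0 ≤ f1 * q.1 + f2 * q.2 + f0) (hg : ∀ q ∈ K, 0 ≤ g1 * q.1 + g2 * q.2 + g0)
    (hfv : f1 * v.1 + f2 * v.2 + f0 = 0) (hgv : g1 * v.1 + g2 * v.2 + g0 = 0)
    (hdet : f1 * g2 - f2 * g1 ≠ 0) : v ∈ K.extremePoints ℝ := by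
  have key : ∀ x ∈ K, f1 * x.1 + f2 * x.2 + f0 = 0 → g1 * x.1 + g2 * x.2 + g0 = 0 → x = v := by
    intro x _ h1 h2
    have e1 : f1 * (x.1 - v.1) + f2 * (x.2 - v.2) = 0 := by linarith
    have e2 : g1 * (x.1 - v.1) + g2 * (x.2 - v.2) = 0 := by linarith
    have e3 : (f1 * g2 - f2 * g1) * (x.1 - v.1) = 0 := by linear_combination g2 * e1 - f2 * e2
    have e4 : (f1 * g2 - f2 * g1) * (x.2 - v.2) = 0 := by linear_combination f1 * e2 - g1 * e1
    refine Prod.ext ?_ ?_
    · rcases mul_eq_zero.1 e3 with h | h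
      · exact absurd h hdet
      · linarith
    · rcases mul_eq_zero.1 e4 with h | h
      · exact absurd h hdet
      · linarith
  have key2 : ∀ x ∈ K, ∀ y ∈ K, v ∈ openSegment ℝ x y → x = v := by
    rintro x hx y hy ⟨α, β, hα, hβ, hαβ, he⟩
    have e1 : v.1 = α * x.1 + β * y.1 := by rw [← he]; rfl
    have e2 : v.2 = α * x.2 + β * y.2 := by rw [← he]; rfl
    have k1 : α * (f1 * x.1 + f2 * x.2 + f0) + β * (f1 * y.1 + f2 * y.2 + f0) = 0 := by
      have : α * (f1 * x.1 + f2 * x.2 + f0) + β * (f1 * y.1 + f2 * y.2 + f0) =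
          f1 * (α * x.1 + β * y.1) + f2 * (α * x.2 + β * y.2) + (α + β) * f0 := by ring
      rw [this, ← e1, ← e2, hαβ, one_mul, hfv]
    have k2 : α * (g1 * x.1 + g2 * x.2 + g0) + β * (g1 * y.1 + g2 * y.2 + g0) = 0 := by
      have : α * (g1 * x.1 + g2 * x.2 + g0) + β * (g1 * y.1 + g2 * y.2 + g0) =
          g1 * (α * x.1 + β * y.1) + g2 * (α * x.2 + β * y.2) + (α + β) * g0 := by ring
      rw [this, ← e1, ← e2, hαβ, one_mul, hgv]
    have l1 := mul_nonneg hβ.le (hf y hy)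
    have l2 := mul_nonneg hβ.le (hg y hy)
    have l3 := mul_nonneg hα.le (hf x hx)
    have l4 := mul_nonneg hα.le (hg x hx)
    have m1 : α * (f1 * x.1 + f2 * x.2 + f0) = 0 := by linarith
    have m2 : α * (g1 * x.1 + g2 * x.2 + g0) = 0 := by linarith
    refine key x hx ?_ ?_
    · rcases mul_eq_zero.1 m1 with h | h
      · exact absurd h hα.ne'
      · exact h
    · rcases mul_eq_zero.1 m2 with h | h
      · exact absurd h hα.ne'
      · exact h
  rw [mem_extremePoints]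
  refine ⟨hv, fun x hx y hy hxy => ⟨key2 x hx y hy hxy, key2 y hy x hx ?_⟩⟩
  rw [openSegment_symm]; exact hxy

theorem ln_lin (a b : V) (x : ℝ) :
    ln p a b x = slp p a b * x + ((p a).2 - (p a).1 * slp p a b) := by
  unfold ln; ring

/-- the half-plane above the line `ab` -/
theorem ext_lines_above {K : Set (ℝ × ℝ)} {u v w : V} (hv : p v ∈ K) (h1 : (p u).1 < (p v).1)
    (h2 : (p v).1 < (p w).1) (hcr : 0 < cr p u v w) (hK1 : ∀ q ∈ K, ln p u v q.1 ≤ q.2)
    (hK2 : ∀ q ∈ K, ln p v w q.1 ≤ q.2) : p v ∈ K.extremePoints ℝ := by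
  refine ext_of_two hv (-slp p u v) 1 (-((p u).2 - (p u).1 * slp p u v)) (-slp p v w) 1
    (-((p v).2 - (p v).1 * slp p v w)) ?_ ?_ ?_ ?_ ?_
  · intro q hq
    have := hK1 q hq
    rw [ln_lin] at this
    linarith
  · intro q hq
    have := hK2 q hq
    rw [ln_lin] at this
    linarith
  · have := ln_right h1
    rw [ln_lin] at this
    linarith
  · have := ln_left (p := p) v w
    rw [ln_lin] at this
    linarith
  · have := slp_lt h1 h2 hcr
    intro h
    linarith

theorem ext_lines_below {K : Set (ℝ × ℝ)} {u v w : V} (hv : p v ∈ K) (h1 : (p u).1 < (p v).1)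
    (h2 : (p v).1 < (p w).1) (hcr : cr p u v w < 0) (hK1 : ∀ q ∈ K, q.2 ≤ ln p u v q.1)
    (hK2 : ∀ q ∈ K, q.2 ≤ ln p v w q.1) : p v ∈ K.extremePoints ℝ := by
  have hs : slp p v w < slp p u v := by
    unfold slp
    rw [div_lt_div_iff₀ (by linarith) (by linarith)]
    unfold cr at hcr
    linarith
  refine ext_of_two hv (slp p u v) (-1) (((p u).2 - (p u).1 * slp p u v)) (slp p v w) (-1)
    (((p v).2 - (p v).1 * slp p v w)) ?_ ?_ ?_ ?_ ?_
  · intro q hq
    have := hK1 q hq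
    rw [ln_lin] at this
    linarith
  · intro q hq
    have := hK2 q hq
    rw [ln_lin] at this
    linarith
  · have := ln_right h1
    rw [ln_lin] at this
    linarith
  · have := ln_left (p := p) v w
    rw [ln_lin] at this
    linarith
  · intro h
    linarith

theorem ext_left {K : Set (ℝ × ℝ)} {v w : V} (hv : p v ∈ K)
    (hK1 : ∀ q ∈ K, (p v).1 ≤ q.1) (hK2 : ∀ q ∈ K, ln p v w q.1 ≤ q.2) :
    p v ∈ K.extremePoints ℝ := by
  refine ext_of_two hv 1 0 (-(p v).1) (-slp p v w) 1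
    (-((p v).2 - (p v).1 * slp p v w)) ?_ ?_ ?_ ?_ ?_
  · intro q hq
    have := hK1 q hq
    linarith
  · intro q hq
    have := hK2 q hq
    rw [ln_lin] at this
    linarith
  · ring
  · have := ln_left (p := p) v w
    rw [ln_lin] at this
    linarith
  · norm_num

theorem ext_right {K : Set (ℝ × ℝ)} {u v : V} (hv : p v ∈ K) (h1 : (p u).1 < (p v).1)
    (hK1 : ∀ q ∈ K, q.1 ≤ (p v).1) (hK2 : ∀ q ∈ K, ln p u v q.1 ≤ q.2) :
    p v ∈ K.extremePoints ℝ := by
  refine ext_of_two hv (-1) 0 ((p v).1) (-slp p u v) 1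
    (-((p u).2 - (p u).1 * slp p u v)) ?_ ?_ ?_ ?_ ?_
  · intro q hq
    have := hK1 q hq
    linarith
  · intro q hq
    have := hK2 q hq
    rw [ln_lin] at this
    linarith
  · ring
  · have := ln_right h1
    rw [ln_lin] at this
    linarith
  · norm_num

/-! ### comparison with the polygonal functions -/

theorem above_lt {M : List V} {zp zq : V} (h : XInc p (zp :: (M ++ [zq])))
    (hl : LTurns p (zp :: (M ++ [zq]))) {x y : ℝ} (h1 : (p zp).1 ≤ x) (h2 : x ≤ (p zq).1) :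
    (∀ e ∈ (zp :: (M ++ [zq])).zip (zp :: (M ++ [zq])).tail, ln p e.1 e.2 x < y) ↔
      poly p (zp :: (M ++ [zq])) x < y := by
  constructor
  · intro hh
    obtain ⟨a, b, hab, h3, h4⟩ := xinc_cover (p := p) (T := M) h1 h2
    rw [poly_edge h hab h3 h4]
    exact hh (a, b) (infix_pairs.2 hab)
  · intro hh e he
    exact lt_of_le_of_lt (conv_gt h hl (infix_pairs.1 he) h1 h2).1 hh

theorem above_le {M : List V} {zp zq : V} (h : XInc p (zp :: (M ++ [zq]))) {x y : ℝ}
    (h1 : (p zp).1 ≤ x) (h2 : x ≤ (p zq).1)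
    (hh : ∀ e ∈ (zp :: (M ++ [zq])).zip (zp :: (M ++ [zq])).tail, ln p e.1 e.2 x ≤ y) :
    poly p (zp :: (M ++ [zq])) x ≤ y := by
  obtain ⟨a, b, hab, h3, h4⟩ := xinc_cover (p := p) (T := M) h1 h2
  rw [poly_edge h hab h3 h4]
  exact hh (a, b) (infix_pairs.2 hab)

theorem below_lt {M : List V} {zp zq : V} (h : XInc p (zp :: (M ++ [zq])))
    (hl : RTurns p (zp :: (M ++ [zq]))) {x y : ℝ} (h1 : (p zp).1 ≤ x) (h2 : x ≤ (p zq).1) :
    (∀ e ∈ (zp :: (M ++ [zq])).zip (zp :: (M ++ [zq])).tail, y < ln p e.1 e.2 x) ↔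
      y < poly p (zp :: (M ++ [zq])) x := by
  constructor
  · intro hh
    obtain ⟨a, b, hab, h3, h4⟩ := xinc_cover (p := p) (T := M) h1 h2
    rw [poly_edge h hab h3 h4]
    exact hh (a, b) (infix_pairs.2 hab)
  · intro hh e he
    exact lt_of_lt_of_le hh (conc_lt h hl (infix_pairs.1 he) h1 h2)

theorem below_le {M : List V} {zp zq : V} (h : XInc p (zp :: (M ++ [zq]))) {x y : ℝ}
    (h1 : (p zp).1 ≤ x) (h2 : x ≤ (p zq).1)
    (hh : ∀ e ∈ (zp :: (M ++ [zq])).zip (zp :: (M ++ [zq])).tail, y ≤ ln p e.1 e.2 x) :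
    y ≤ poly p (zp :: (M ++ [zq])) x := by
  obtain ⟨a, b, hab, h3, h4⟩ := xinc_cover (p := p) (T := M) h1 h2
  rw [poly_edge h hab h3 h4]
  exact hh (a, b) (infix_pairs.2 hab)

theorem below_le' {M : List V} {zp zq : V} (h : XInc p (zp :: (M ++ [zq])))
    (hl : RTurns p (zp :: (M ++ [zq]))) {x y : ℝ} (h1 : (p zp).1 ≤ x) (h2 : x ≤ (p zq).1)
    (hh : y ≤ poly p (zp :: (M ++ [zq])) x) :
    ∀ e ∈ (zp :: (M ++ [zq])).zip (zp :: (M ++ [zq])).tail, y ≤ ln p e.1 e.2 x := fun _ he =>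
  hh.trans (conc_lt h hl (infix_pairs.1 he) h1 h2)

/-- an interior element of a list has two neighbours -/
theorem mem_triple {M : List V} {zp zq v : V} (hv : v ∈ M) :
    ∃ u w, [u, v, w] <:+: zp :: (M ++ [zq]) := by
  obtain ⟨s, t, rfl⟩ := List.append_of_mem hv
  have h1 : ∃ s' u, zp :: s = s' ++ [u] := by
    rcases List.eq_nil_or_concat s with h | ⟨s', u, h⟩
    · exact ⟨[], zp, by rw [h]; rfl⟩
    · exact ⟨zp :: s', u, by rw [h, List.concat_eq_append]; rfl⟩
  have h2 : ∃ w t', t ++ [zq] = w :: t' := by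
    cases t with
    | nil => exact ⟨zq, [], rfl⟩
    | cons w t => exact ⟨w, t ++ [zq], rfl⟩
  obtain ⟨s', u, h1⟩ := h1
  obtain ⟨w, t', h2⟩ := h2
  refine ⟨u, w, s', t', ?_⟩
  have : zp :: (s ++ v :: t ++ [zq]) = (zp :: s) ++ v :: (t ++ [zq]) := by simp
  rw [this, h1, h2]
  simp

theorem triple_pairs {L : List V} {u v w : V} (h : [u, v, w] <:+: L) :
    [u, v] <:+: L ∧ [v, w] <:+: L :=
  ⟨List.IsInfix.trans ⟨[], [w], rfl⟩ h, List.IsInfix.trans ⟨[u], [], rfl⟩ h⟩

/-- the vertices of the two paths are extreme points of the closed region -/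
theorem ext_KReg {M P : List V} {zp zq : V} (hM : XInc p (zp :: (M ++ [zq])))
    (hP : XInc p (zp :: (P ++ [zq]))) (hl : LTurns p (zp :: (M ++ [zq])))
    (hr : RTurns p (zp :: (P ++ [zq]))) {v : V}
    (hv : v ∈ zp :: (M ++ [zq]) ∨ v ∈ P)
    (hvK : p v ∈ KReg p zp zq (zp :: (M ++ [zq])) (zp :: (P ++ [zq]))) :
    p v ∈ (KReg p zp zq (zp :: (M ++ [zq])) (zp :: (P ++ [zq]))).extremePoints ℝ := by
  have hlow : ∀ a b, [a, b] <:+: zp :: (M ++ [zq]) →
      ∀ q ∈ KReg p zp zq (zp :: (M ++ [zq])) (zp :: (P ++ [zq])), ln p a b q.1 ≤ q.2 :=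
    fun a b hab q hq => hq.2.2.1 (a, b) (infix_pairs.2 hab)
  have hup : ∀ a b, [a, b] <:+: zp :: (P ++ [zq]) →
      ∀ q ∈ KReg p zp zq (zp :: (M ++ [zq])) (zp :: (P ++ [zq])), q.2 ≤ ln p a b q.1 :=
    fun a b hab q hq => hq.2.2.2 (a, b) (infix_pairs.2 hab)
  rcases hv with hv | hv
  · rw [List.mem_cons, List.mem_append, List.mem_singleton] at hv
    rcases hv with rfl | hv | rfl
    · obtain ⟨m, T, hT⟩ : ∃ m T, M ++ [zq] = m :: T := by
        cases M with
        | nil => exact ⟨zq, [], rfl⟩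
        | cons m M => exact ⟨m, M ++ [zq], rfl⟩
      exact ext_left hvK (fun q hq => hq.1) (hlow v m (by rw [hT]; exact ⟨[], T, rfl⟩))
    · obtain ⟨u, w, huw⟩ := mem_triple (zp := zp) (zq := zq) hv
      obtain ⟨t1, t2⟩ := triple_pairs huw
      exact ext_lines_above hvK (xinc_edge hM t1) (xinc_edge hM t2) (hl _ _ _ huw)
        (hlow _ _ t1) (hlow _ _ t2)
    · obtain ⟨m, T, hT⟩ : ∃ m T, zp :: M = T ++ [m] := by
        rcases List.eq_nil_or_concat M with h | ⟨s', u, h⟩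
        · exact ⟨zp, [], by rw [h]; rfl⟩
        · exact ⟨u, zp :: s', by rw [h, List.concat_eq_append]; rfl⟩
      have hm : [m, v] <:+: zp :: (M ++ [v]) := by
        have : zp :: (M ++ [v]) = T ++ [m, v] := by
          rw [← List.cons_append, hT]; simp
        rw [this]
        exact ⟨T, [], by simp⟩
      exact ext_right hvK (xinc_edge hM hm) (fun q hq => hq.2.1) (hlow _ _ hm)
  · obtain ⟨u, w, huw⟩ := mem_triple (zp := zp) (zq := zq) hv
    obtain ⟨t1, t2⟩ := triple_pairs huw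
    exact ext_lines_below hvK (xinc_edge hP t1) (xinc_edge hP t2) (hr _ _ _ huw)
      (hup _ _ t1) (hup _ _ t2)

end geo

end Pool.Agent.Run7.h215
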