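import Pool.Agent.Run7.h215.T2_geo

/-!
# T2, third part: the invariants of geometric building sequences
-/

set_option autoImplicit false
set_option linter.unusedSectionVars false

namespace Pool.Agent.Run7.h215

section inv

variable {V : Type}

/-- the region between the base line and the contour -/
def DD (p : V → ℝ × ℝ) (a1 a2 : V) (Z : List V) : Set (ℝ × ℝ) :=
  {q | (p a1).1 ≤ q.1 ∧ q.1 ≤ (p a2).1 ∧ ln p a1 a2 q.1 ≤ q.2 ∧ q.2 ≤ poly p Z q.1}

/-- the union of the segments -/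
def dE (p : V → ℝ × ℝ) (E : List (V × V)) : Set (ℝ × ℝ) :=
  {q | ∃ e ∈ E, q ∈ segment ℝ (p e.1) (p e.2)}

/-- built vertices -/
def BE (E : List (V × V)) (v : V) : Prop := ∃ e ∈ E, v = e.1 ∨ v = e.2

/-- the invariants -/
structure Inv2 (p : V → ℝ × ℝ) (a1 a2 : V) (E : List (V × V)) (Z : List V)
    (𝓡 : Set (Set (ℝ × ℝ))) : Prop where
  hx : XInc p Z
  hz : ∃ T, Z = a1 :: (T ++ [a2])
  hbase : ∀ x, (p a1).1 ≤ x → x ≤ (p a2).1 → ln p a1 a2 x ≤ poly p Z x
  cont : ∀ a b, [a, b] <:+: Z → (a, b) ∈ E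
  eX : ∀ e ∈ E, (p e.1).1 < (p e.2).1
  seg : ∀ q ∈ dE p E, q ∈ DD p a1 a2 Z
  vert : ∀ w, BE E w → w ∈ Z ∨ (p w).2 < poly p Z (p w).1
  vb : ∀ w, BE E w → w = a1 ∨ w = a2 ∨
    ((p a1).1 < (p w).1 ∧ (p w).1 < (p a2).1 ∧ ln p a1 a2 (p w).1 < (p w).2)
  inj : ∀ u v, BE E u → BE E v → p u = p v → u = v
  voff : ∀ e ∈ E, ∀ w, BE E w → p w ∈ segment ℝ (p e.1) (p e.2) → w = e.1 ∨ w = e.2
  meet : ∀ e ∈ E, ∀ f ∈ E, e ≠ f → ∀ q, q ∈ segment ℝ (p e.1) (p e.2) →
    q ∈ segment ℝ (p f.1) (p f.2) → ∃ w, (w = e.1 ∨ w = e.2) ∧ (w = f.1 ∨ w = f.2) ∧ q = p w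
  rO : ∀ R ∈ 𝓡, IsOpen R
  rC : ∀ R ∈ 𝓡, Convex ℝ R
  rcl : ∀ R ∈ 𝓡, closure R ⊆ DD p a1 a2 Z
  rd : ∀ R ∈ 𝓡, ∀ q ∈ R, q ∉ dE p E
  rv : ∀ R ∈ 𝓡, ∀ v, BE E v → p v ∈ closure R → p v ∈ (closure R).extremePoints ℝ
  rdis : ∀ R ∈ 𝓡, ∀ R' ∈ 𝓡, R = R' ∨ Disjoint R R'
  cover : ∀ q ∈ DD p a1 a2 Z, q ∈ dE p E ∨ ∃ R ∈ 𝓡, q ∈ R

variable {p : V → ℝ × ℝ} {a1 a2 : V}

theorem Inv2.base (h : (p a1).1 < (p a2).1) : Inv2 p a1 a2 [(a1, a2)] [a1, a2] ∅ := by
  have hpoly : ∀ x, x ≤ (p a2).1 → poly p [a1, a2] x = ln p a1 a2 x := by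
    intro x hx
    rw [poly, if_pos hx]
  have hBE : ∀ w, BE [(a1, a2)] w ↔ w = a1 ∨ w = a2 := by
    intro w; simp [BE]
  have hseg : ∀ w, BE [(a1, a2)] w → p w ∈ segment ℝ (p a1) (p a2) → w = a1 ∨ w = a2 :=
    fun w hw _ => (hBE w).1 hw
  refine ⟨List.isChain_pair.2 h, ⟨[], rfl⟩, ?_, ?_, ?_, ?_, ?_, ?_, ?_, ?_, ?_, by simp, by simp,
    by simp, by simp, by simp, by simp, ?_⟩
  · intro x _ hx
    rw [hpoly x hx]
  · intro a b hab
    obtain ⟨rfl, rfl⟩ := infix_two.1 hab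
    simp
  · intro e he
    rw [List.mem_singleton] at he
    subst he
    exact h
  · rintro q ⟨e, he, hq⟩
    rw [List.mem_singleton] at he
    subst he
    obtain ⟨h1, h2, h3⟩ := (seg_ln h q).1 hq
    exact ⟨h1, h2, h3.ge, by rw [hpoly _ h2]; exact h3.le⟩
  · intro w hw
    left
    rcases (hBE w).1 hw with rfl | rfl <;> simp
  · intro w hw
    rcases (hBE w).1 hw with rfl | rfl
    · left; rfl
    · right; left; rfl
  · intro u v hu hv huv
    rcases (hBE u).1 hu with rfl | rfl <;> rcases (hBE v).1 hv with rfl | rfl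
    · rfl
    · rw [huv] at h; exact absurd h (lt_irrefl _)
    · rw [huv] at h; exact absurd h (lt_irrefl _)
    · rfl
  · intro e he w hw _
    rw [List.mem_singleton] at he
    subst he
    exact (hBE w).1 hw
  · intro e he f hf hef
    rw [List.mem_singleton] at he hf
    rw [he, hf] at hef
    exact absurd rfl hef
  · rintro q ⟨h1, h2, h3, h4⟩
    left
    rw [hpoly _ h2] at h4
    exact ⟨(a1, a2), by simp, (seg_ln h q).2 ⟨h1, h2, le_antisymm h4 h3⟩⟩

theorem Inv2.BE_Z {E : List (V × V)} {Z : List V} {𝓡 : Set (Set (ℝ × ℝ))}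
    (I : Inv2 p a1 a2 E Z 𝓡) {w : V} (hw : w ∈ Z) : BE E w := by
  obtain ⟨T, hT⟩ := I.hz
  rw [hT] at hw
  obtain ⟨c, d, h1, h2⟩ := mem_pair hw
  rw [← hT] at h1
  exact ⟨(c, d), I.cont c d h1, h2⟩

theorem Inv2.BE_D {E : List (V × V)} {Z : List V} {𝓡 : Set (Set (ℝ × ℝ))}
    (I : Inv2 p a1 a2 E Z 𝓡) {w : V} (hw : BE E w) : p w ∈ dE p E := by
  obtain ⟨e, he, h⟩ := hw
  refine ⟨e, he, ?_⟩
  rcases h with rfl | rfl
  · exact left_mem_segment ℝ _ _
  · exact right_mem_segment ℝ _ _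

theorem Inv2.step {E : List (V × V)} {A M C P : List V} {zp zq : V} {E' : List (V × V)}
    {𝓡 : Set (Set (ℝ × ℝ))} (I : Inv2 p a1 a2 E (A ++ zp :: (M ++ zq :: C)) 𝓡)
    (hne : M ≠ [] ∨ P ≠ []) (hPx : XInc p (zp :: (P ++ [zq])))
    (hl : LTurns p (zp :: (M ++ [zq]))) (hr : RTurns p (zp :: (P ++ [zq])))
    (hE : ∀ e, e ∈ E' ↔ e ∈ E ∨ [e.1, e.2] <:+: zp :: (P ++ [zq]))
    (hZ' : XInc p (A ++ zp :: (P ++ zq :: C))) :
    Inv2 p a1 a2 E' (A ++ zp :: (P ++ zq :: C))
      (insert (Reg p zp zq (zp :: (M ++ [zq])) (zp :: (P ++ [zq]))) 𝓡) := by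
  set Z := A ++ zp :: (M ++ zq :: C) with hZdef
  set Z' := A ++ zp :: (P ++ zq :: C) with hZ'def
  set M' := zp :: (M ++ [zq]) with hM'
  set P' := zp :: (P ++ [zq]) with hP'
  have hMZ : M' <:+: Z := ⟨A, C, by simp [hM', hZdef]⟩
  have hPZ : P' <:+: Z' := ⟨A, C, by simp [hP', hZ'def]⟩
  have hMx : XInc p M' := xinc_infix I.hx hMZ
  have hAZ : A ++ [zp] <:+: Z := ⟨[], M ++ zq :: C, by simp [hZdef]⟩
  have hAZ' : A ++ [zp] <:+: Z' := ⟨[], P ++ zq :: C, by simp [hZ'def]⟩
  have hCZ : zq :: C <:+: Z := ⟨A ++ zp :: M, [], by simp [hZdef]⟩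
  have hCZ' : zq :: C <:+: Z' := ⟨A ++ zp :: P, [], by simp [hZ'def]⟩
  obtain ⟨T, hT⟩ := I.hz
  have hA : (A = [] ∧ zp = a1) ∨ ∃ A', A = a1 :: A' := by
    cases A with
    | nil =>
      left
      rw [hZdef, List.nil_append] at hT
      exact ⟨rfl, (List.cons.inj hT).1⟩
    | cons a A' =>
      right
      rw [hZdef, List.cons_append] at hT
      exact ⟨A', by rw [(List.cons.inj hT).1]⟩
  have hC : (C = [] ∧ zq = a2) ∨ ∃ C', C = C' ++ [a2] := by
    rcases List.eq_nil_or_concat C with h | ⟨C', c, h⟩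
    · left
      refine ⟨h, ?_⟩
      rw [hZdef, h] at hT
      have : A ++ zp :: M ++ [zq] = a1 :: T ++ [a2] := by
        rw [List.cons_append, ← hT]; simp
      have := (List.append_inj' this rfl).2
      exact (List.cons.inj this).1
    · right
      rw [List.concat_eq_append] at h
      rw [hZdef, h] at hT
      have : A ++ zp :: (M ++ zq :: C') ++ [c] = a1 :: T ++ [a2] := by
        rw [List.cons_append, ← hT]; simp
      have := (List.append_inj' this rfl).2
      exact ⟨C', by rw [h, (List.cons.inj this).1]⟩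
  have hzp : zp ∈ Z := hMZ.subset (by simp [hM'])
  have hzq : zq ∈ Z := hMZ.subset (by simp [hM'])
  have hZx := I.hx
  have ha1p : (p a1).1 ≤ (p zp).1 := by
    rw [hT] at hZx hzp
    exact xinc_head hZx hzp
  have ha2q : (p zq).1 ≤ (p a2).1 := by
    rw [hT, ← List.cons_append] at hZx hzq
    exact xinc_last hZx hzq
  have hpq : (p zp).1 < (p zq).1 := by
    have := xinc_pw hPx
    rw [hP', List.pairwise_cons] at this
    exact this.1 zq (by simp)
  -- comparison of the polygonal functions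
  have polyM : ∀ x, (p zp).1 ≤ x → x ≤ (p zq).1 → poly p Z x = poly p M' x := by
    intro x h1 h2
    obtain ⟨c, d, hcd, h3, h4⟩ := xinc_cover (p := p) (T := M) h1 h2
    rw [poly_edge I.hx (hcd.trans hMZ) h3 h4, poly_edge hMx hcd h3 h4]
  have polyP : ∀ x, (p zp).1 ≤ x → x ≤ (p zq).1 → poly p Z' x = poly p P' x := by
    intro x h1 h2
    obtain ⟨c, d, hcd, h3, h4⟩ := xinc_cover (p := p) (T := P) h1 h2
    rw [poly_edge hZ' (hcd.trans hPZ) h3 h4, poly_edge hPx hcd h3 h4]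
  have polyOut : ∀ x, (p a1).1 ≤ x → x ≤ (p a2).1 → (x ≤ (p zp).1 ∨ (p zq).1 ≤ x) →
      poly p Z x = poly p Z' x := by
    rintro x h1 h2 (h3 | h3)
    · rcases hA with ⟨hA0, hzp1⟩ | ⟨A', hA'⟩
      · have hx : x = (p zp).1 := le_antisymm h3 (by rw [hzp1]; exact h1)
        rw [hx, poly_vertex I.hx hzp, poly_vertex hZ' (hPZ.subset (by simp [hP']))]
      · obtain ⟨c, d, hcd, h4, h5⟩ := xinc_cover (p := p) (T := A') h1 h3
        rw [← List.cons_append, ← hA'] at hcd
        rw [poly_edge I.hx (hcd.trans hAZ) h4 h5, poly_edge hZ' (hcd.trans hAZ') h4 h5]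
    · rcases hC with ⟨hC0, hzq1⟩ | ⟨C', hC'⟩
      · have hx : x = (p zq).1 := le_antisymm (by rw [hzq1]; exact h2) h3
        rw [hx, poly_vertex I.hx hzq, poly_vertex hZ' (hPZ.subset (by simp [hP']))]
      · obtain ⟨c, d, hcd, h4, h5⟩ := xinc_cover (p := p) (T := C') h3 h2
        rw [← hC'] at hcd
        rw [poly_edge I.hx (hcd.trans hCZ) h4 h5, poly_edge hZ' (hcd.trans hCZ') h4 h5]
  have polyLt : ∀ x, (p zp).1 < x → x < (p zq).1 → poly p Z x < poly p Z' x := by
    intro x h1 h2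
    rw [polyM x h1.le h2.le, polyP x h1.le h2.le]
    exact paths_lt hMx hPx hl hr hne h1 h2
  have polyLe : ∀ x, (p a1).1 ≤ x → x ≤ (p a2).1 → poly p Z x ≤ poly p Z' x := by
    intro x h1 h2
    by_cases h3 : x ≤ (p zp).1
    · exact (polyOut x h1 h2 (Or.inl h3)).le
    · by_cases h4 : (p zq).1 ≤ x
      · exact (polyOut x h1 h2 (Or.inr h4)).le
      · exact (polyLt x (not_le.1 h3) (not_le.1 h4)).le
  have hDD : DD p a1 a2 Z ⊆ DD p a1 a2 Z' := by
    rintro q ⟨h1, h2, h3, h4⟩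
    exact ⟨h1, h2, h3, h4.trans (polyLe _ h1 h2)⟩
  -- points of new edges
  have newpt : ∀ a b, [a, b] <:+: P' → ∀ q, q ∈ segment ℝ (p a) (p b) →
      (p zp).1 ≤ q.1 ∧ q.1 ≤ (p zq).1 ∧ (p a).1 ≤ q.1 ∧ q.1 ≤ (p b).1 ∧ q.2 = poly p P' q.1 := by
    intro a b hab q hq
    obtain ⟨h1, h2, h3⟩ := (seg_ln (xinc_edge hPx hab) q).1 hq
    have h4 : (p zp).1 ≤ (p a).1 := xinc_head hPx (hab.subset (by simp))
    have h5 : (p b).1 ≤ (p zq).1 := by
      have hb : b ∈ P' := hab.subset (by simp)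
      have hPx' := hPx
      rw [hP', ← List.cons_append] at hPx' hb
      exact xinc_last hPx' hb
    exact ⟨h4.trans h1, h2.trans h5, h1, h2, by rw [poly_edge hPx hab h1 h2]; exact h3⟩
  have newD : ∀ a b, [a, b] <:+: P' → ∀ q, q ∈ segment ℝ (p a) (p b) → q ∈ DD p a1 a2 Z →
      q = p zp ∨ q = p zq := by
    intro a b hab q hq hqD
    obtain ⟨h1, h2, h3, h4, h5⟩ := newpt a b hab q hq
    rcases h1.lt_or_eq with h6 | h6
    · rcases h2.lt_or_eq with h7 | h7
      · have h8 := polyLt q.1 h6 h7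
        rw [polyP q.1 h1 h2, ← h5] at h8
        exact absurd hqD.2.2.2 (not_le.2 h8)
      · right
        refine Prod.ext h7 ?_
        rw [h5, h7, poly_vertex hPx (by simp [hP'])]
    · left
      refine Prod.ext h6.symm ?_
      rw [h5, ← h6, poly_vertex hPx (by simp [hP'])]
  have newV : ∀ v ∈ P, (p zp).1 < (p v).1 ∧ (p v).1 < (p zq).1 ∧
      poly p Z (p v).1 < (p v).2 := by
    intro v hv
    have hpw := xinc_pw hPx
    rw [hP', List.pairwise_cons, List.pairwise_append] at hpw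
    have h1 : (p zp).1 < (p v).1 := hpw.1 v (by simp [hv])
    have h2 : (p v).1 < (p zq).1 := hpw.2.2.2 v hv zq (by simp)
    refine ⟨h1, h2, ?_⟩
    have h3 := polyLt _ h1 h2
    rwa [polyP _ h1.le h2.le, poly_vertex hPx (by simp [hP', hv])] at h3
  have newVD : ∀ v ∈ P, p v ∉ DD p a1 a2 Z := fun v hv hD =>
    absurd hD.2.2.2 (not_le.2 (newV v hv).2.2)
  -- built vertices
  have hBE : ∀ w, BE E' w ↔ BE E w ∨ w ∈ P := by
    intro w
    constructor
    · rintro ⟨e, he, hw⟩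
      rcases (hE e).1 he with he | he
      · exact Or.inl ⟨e, he, hw⟩
      · have hw' : w ∈ P' := by
          rcases hw with rfl | rfl
          · exact he.subset (by simp)
          · exact he.subset (by simp)
        rw [hP', List.mem_cons, List.mem_append, List.mem_singleton] at hw'
        rcases hw' with rfl | hw' | rfl
        · exact Or.inl (I.BE_Z hzp)
        · exact Or.inr hw'
        · exact Or.inl (I.BE_Z hzq)
    · rintro (⟨e, he, hw⟩ | hw)
      · exact ⟨e, (hE e).2 (Or.inl he), hw⟩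
      · obtain ⟨c, d, h1, h2⟩ := mem_pair (a := zp) (b := zq) (T := P) (w := w) (by simp [hw])
        exact ⟨(c, d), (hE (c, d)).2 (Or.inr h1), h2⟩
  have hBED : ∀ w, BE E w → p w ∈ DD p a1 a2 Z := fun w hw => I.seg _ (I.BE_D hw)
  have hBEP : ∀ w, BE E w → w ∉ P := fun w hw hwP => newVD w hwP (hBED w hw)
  -- vertices on new edges
  have newoff : ∀ a b, [a, b] <:+: P' → ∀ w, BE E' w → p w ∈ segment ℝ (p a) (p b) →
      w = a ∨ w = b := by
    intro a b hab w hw hwab
    have hwP' : w ∈ P' := by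
      rcases (hBE w).1 hw with hw' | hw'
      · rcases newD a b hab _ hwab (hBED w hw') with h | h
        · rw [I.inj w zp hw' (I.BE_Z hzp) h]; simp [hP']
        · rw [I.inj w zq hw' (I.BE_Z hzq) h]; simp [hP']
      · simp [hP', hw']
    obtain ⟨h1, h2, h3, h4, h5⟩ := newpt a b hab _ hwab
    rcases xinc_between hPx hab hwP' with h6 | h6
    · left; exact xinc_inj hPx hwP' (hab.subset (by simp)) (le_antisymm h6 h3)
    · right; exact xinc_inj hPx hwP' (hab.subset (by simp)) (le_antisymm h4 h6)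
  have hzp' : BE E' zp := (hBE zp).2 (Or.inl (I.BE_Z hzp))
  have hzq' : BE E' zq := (hBE zq).2 (Or.inl (I.BE_Z hzq))
  have oldnew : ∀ e ∈ E, ∀ f : V × V, [f.1, f.2] <:+: P' → ∀ q,
      q ∈ segment ℝ (p e.1) (p e.2) → q ∈ segment ℝ (p f.1) (p f.2) →
      ∃ w, (w = e.1 ∨ w = e.2) ∧ (w = f.1 ∨ w = f.2) ∧ q = p w := by
    intro e he f hf q hqe hqf
    rcases newD f.1 f.2 hf q hqf (I.seg q ⟨e, he, hqe⟩) with h | h
    · refine ⟨zp, I.voff e he zp (I.BE_Z hzp) (h ▸ hqe), newoff _ _ hf zp hzp' (h ▸ hqf), h⟩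
    · refine ⟨zq, I.voff e he zq (I.BE_Z hzq) (h ▸ hqe), newoff _ _ hf zq hzq' (h ▸ hqf), h⟩
  -- the new region
  have regD : ∀ q ∈ Reg p zp zq M' P', q ∉ DD p a1 a2 Z := by
    rintro q ⟨h1, h2, h3, h4⟩ hD
    have h5 := (above_lt hMx hl h1.le h2.le).1 h3
    rw [← hM', ← polyM q.1 h1.le h2.le] at h5
    exact absurd hD.2.2.2 (not_le.2 h5)
  have KD : KReg p zp zq M' P' ⊆ DD p a1 a2 Z' := by
    rintro q ⟨h1, h2, h3, h4⟩
    have h5 := above_le hMx h1 h2 h3
    have h6 := below_le hPx h1 h2 h4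
    rw [← hM', ← polyM q.1 h1 h2] at h5
    rw [← hP', ← polyP q.1 h1 h2] at h6
    exact ⟨ha1p.trans h1, h2.trans ha2q, (I.hbase _ (ha1p.trans h1) (h2.trans ha2q)).trans h5, h6⟩
  refine ⟨hZ', ?_, ?_, ?_, ?_, ?_, ?_, ?_, ?_, ?_, ?_, ?_, ?_, ?_, ?_, ?_, ?_, ?_⟩
  · -- hz
    rcases hA with ⟨hA0, hzp1⟩ | ⟨A', hA'⟩ <;> rcases hC with ⟨hC0, hzq1⟩ | ⟨C', hC'⟩
    · exact ⟨P, by rw [hZ'def, hA0, hC0, hzp1, hzq1]; simp⟩
    · exact ⟨P ++ zq :: C', by rw [hZ'def, hA0, hC', hzp1]; simp⟩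
    · exact ⟨A' ++ zp :: P, by rw [hZ'def, hA', hC0, hzq1]; simp⟩
    · exact ⟨A' ++ zp :: (P ++ zq :: C'), by rw [hZ'def, hA', hC']; simp⟩
  · -- hbase
    intro x h1 h2
    exact (I.hbase x h1 h2).trans (polyLe x h1 h2)
  · -- cont
    intro a b hab
    rw [hE]
    rw [hZ'def] at hab
    rcases pair_append2 hab with h | h
    · exact Or.inl (I.cont a b (h.trans hAZ))
    · rw [← List.cons_append] at h
      rcases pair_append2 h with h | h
      · right; exact h
      · exact Or.inl (I.cont a b (h.trans hCZ))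
  · -- eX
    intro e he
    rcases (hE e).1 he with he | he
    · exact I.eX e he
    · exact xinc_edge hPx he
  · -- seg
    rintro q ⟨e, he, hq⟩
    rcases (hE e).1 he with he | he
    · exact hDD (I.seg q ⟨e, he, hq⟩)
    · obtain ⟨h1, h2, h3, h4, h5⟩ := newpt _ _ he q hq
      rw [← polyP q.1 h1 h2] at h5
      have g1 := ha1p.trans h1
      have g2 := h2.trans ha2q
      exact ⟨g1, g2, by rw [h5]; exact (I.hbase _ g1 g2).trans (polyLe _ g1 g2), h5.le⟩
  · -- vert
    intro w hw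
    rcases (hBE w).1 hw with hw | hw
    · rcases I.vert w hw with h | h
      · rw [hZdef, List.mem_append, List.mem_cons, List.mem_append, List.mem_cons] at h
        rcases h with h | h | h | h | h
        · left; simp [hZ'def, h]
        · left; simp [hZ'def, h]
        · right
          have hpw := xinc_pw hMx
          rw [hM', List.pairwise_cons, List.pairwise_append] at hpw
          have h1 : (p zp).1 < (p w).1 := hpw.1 w (by simp [h])
          have h2 : (p w).1 < (p zq).1 := hpw.2.2.2 w h zq (by simp)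
          have h3 := polyLt _ h1 h2
          rwa [polyM _ h1.le h2.le, poly_vertex hMx (by simp [hM', h])] at h3
        · left; simp [hZ'def, h]
        · left; simp [hZ'def, h]
      · right
        have hD := hBED w hw
        exact lt_of_lt_of_le h (polyLe _ hD.1 hD.2.1)
    · left; simp [hZ'def, hw]
  · -- vb
    intro w hw
    rcases (hBE w).1 hw with hw | hw
    · exact I.vb w hw
    · right; right
      obtain ⟨h1, h2, h3⟩ := newV w hw
      have g1 := lt_of_le_of_lt ha1p h1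
      have g2 := lt_of_lt_of_le h2 ha2q
      exact ⟨g1, g2, lt_of_le_of_lt (I.hbase _ g1.le g2.le) h3⟩
  · -- inj
    intro u v hu hv huv
    rcases (hBE u).1 hu with hu' | hu' <;> rcases (hBE v).1 hv with hv' | hv'
    · exact I.inj u v hu' hv' huv
    · exact absurd (huv ▸ hBED u hu') (newVD v hv')
    · exact absurd (huv.symm ▸ hBED v hv') (newVD u hu')
    · exact xinc_inj hPx (by simp [hP', hu']) (by simp [hP', hv']) (by rw [huv])
  · -- voff
    intro e he w hw hwe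
    rcases (hE e).1 he with he | he
    · rcases (hBE w).1 hw with hw' | hw'
      · exact I.voff e he w hw' hwe
      · exact absurd (I.seg _ ⟨e, he, hwe⟩) (newVD w hw')
    · exact newoff _ _ he w hw hwe
  · -- meet
    intro e he f hf hef q hqe hqf
    rcases (hE e).1 he with he' | he' <;> rcases (hE f).1 hf with hf' | hf'
    · exact I.meet e he' f hf' hef q hqe hqf
    · exact oldnew e he' f hf' q hqe hqf
    · obtain ⟨w, h1, h2, h3⟩ := oldnew f hf' e he' q hqf hqe
      exact ⟨w, h2, h1, h3⟩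
    · have hne' : ¬ (e.1 = f.1 ∧ e.2 = f.2) := fun h => hef (Prod.ext h.1 h.2)
      obtain ⟨_, _, g1, g2, g3⟩ := newpt _ _ he' q hqe
      obtain ⟨_, _, g1', g2', g3'⟩ := newpt _ _ hf' q hqf
      rcases xinc_edges hPx he' hf' hne' with h | h
      · have hx : (p e.2).1 = (p f.1).1 := le_antisymm h (g1'.trans g2)
        have hw : e.2 = f.1 := xinc_inj hPx (he'.subset (by simp)) (hf'.subset (by simp)) hx
        have hq1 : q.1 = (p e.2).1 := le_antisymm g2 (by rw [hx]; exact g1')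
        refine ⟨e.2, Or.inr rfl, Or.inl hw, Prod.ext hq1 ?_⟩
        rw [g3, hq1, poly_vertex hPx (he'.subset (by simp))]
      · have hx : (p f.2).1 = (p e.1).1 := le_antisymm h (g1.trans g2')
        have hw : f.2 = e.1 := xinc_inj hPx (hf'.subset (by simp)) (he'.subset (by simp)) hx
        have hq1 : q.1 = (p e.1).1 := le_antisymm (by rw [← hx]; exact g2') g1
        refine ⟨e.1, Or.inl rfl, Or.inr hw.symm, Prod.ext hq1 ?_⟩
        rw [g3, hq1, poly_vertex hPx (he'.subset (by simp))]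
  · -- rO
    rintro R (rfl | hR)
    · exact isOpen_Reg _ _ _ _
    · exact I.rO R hR
  · -- rC
    rintro R (rfl | hR)
    · exact convex_Reg _ _ _ _
    · exact I.rC R hR
  · -- rcl
    rintro R (rfl | hR)
    · exact (closure_Reg _ _ _ _).trans KD
    · exact (I.rcl R hR).trans hDD
  · -- rd
    rintro R (rfl | hR) q hq ⟨e, he, hqe⟩
    · rcases (hE e).1 he with he | he
      · exact regD q hq (I.seg q ⟨e, he, hqe⟩)
      · obtain ⟨_, _, _, _, h5⟩ := newpt _ _ he q hqe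
        have h6 := (below_lt hPx hr hq.1.le hq.2.1.le).1 hq.2.2.2
        rw [← hP', ← h5] at h6
        exact lt_irrefl _ h6
    · rcases (hE e).1 he with he | he
      · exact I.rd R hR q hq ⟨e, he, hqe⟩
      · have hqD : q ∈ DD p a1 a2 Z := I.rcl R hR (subset_closure hq)
        rcases newD _ _ he q hqe hqD with h | h
        · exact I.rd R hR q hq (h ▸ I.BE_D (I.BE_Z hzp))
        · exact I.rd R hR q hq (h ▸ I.BE_D (I.BE_Z hzq))
  · -- rv
    rintro R (rfl | hR) v hv hvR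
    · have hvK := closure_Reg _ _ _ _ hvR
      have hmem : v ∈ M' ∨ v ∈ P := by
        rcases (hBE v).1 hv with hv' | hv'
        · left
          obtain ⟨h1, h2, h3, h4⟩ := hvK
          have h5 := above_le hMx h1 h2 h3
          rw [← hM', ← polyM _ h1 h2] at h5
          have hvZ : v ∈ Z := by
            rcases I.vert v hv' with h | h
            · exact h
            · exact absurd h (not_lt.2 h5)
          rw [hZdef, List.mem_append, List.mem_cons, List.mem_append, List.mem_cons] at hvZ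
          have hvZ' := hvZ
          rcases hvZ with h | h | h | h | h
          · have hpw := xinc_pw I.hx
            rw [hZdef, List.pairwise_append] at hpw
            have := hpw.2.2 v h zp (by simp)
            linarith
          · rw [h]; simp [hM']
          · simp [hM', h]
          · rw [h]; simp [hM']
          · have hpw := xinc_pw I.hx
            rw [hZdef, List.pairwise_append, List.pairwise_cons, List.pairwise_append,
              List.pairwise_cons] at hpw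
            have := hpw.2.1.2.2.1.1 v h
            linarith
        · right; exact hv'
      have hext := ext_KReg hMx hPx hl hr hmem hvK
      exact inter_extremePoints_subset_extremePoints_of_subset (closure_Reg _ _ _ _)
        ⟨hvR, hext⟩
    · rcases (hBE v).1 hv with hv' | hv'
      · exact I.rv R hR v hv' hvR
      · exact absurd (I.rcl R hR hvR) (newVD v hv')
  · -- rdis
    rintro R (rfl | hR) R' (rfl | hR')
    · left; rfl
    · right
      rw [Set.disjoint_left]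
      intro q hq hq'
      exact regD q hq (I.rcl R' hR' (subset_closure hq'))
    · right
      rw [Set.disjoint_left]
      intro q hq hq'
      exact regD q hq' (I.rcl R hR (subset_closure hq))
    · exact I.rdis R hR R' hR'
  · -- cover
    rintro q ⟨h1, h2, h3, h4⟩
    by_cases h5 : q.2 ≤ poly p Z q.1
    · rcases I.cover q ⟨h1, h2, h3, h5⟩ with ⟨e, he, hq⟩ | ⟨R, hR, hq⟩
      · exact Or.inl ⟨e, (hE e).2 (Or.inl he), hq⟩
      · exact Or.inr ⟨R, Set.mem_insert_of_mem _ hR, hq⟩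
    · have h6 : (p zp).1 < q.1 := by
        by_contra hcon
        rw [polyOut _ h1 h2 (Or.inl (not_lt.1 hcon))] at h5
        exact h5 h4
      have h7 : q.1 < (p zq).1 := by
        by_contra hcon
        rw [polyOut _ h1 h2 (Or.inr (not_lt.1 hcon))] at h5
        exact h5 h4
      rw [polyM _ h6.le h7.le, not_le] at h5
      rw [polyP _ h6.le h7.le] at h4
      rcases h4.lt_or_eq with h8 | h8
      · right
        exact ⟨_, Set.mem_insert _ _, h6, h7, (above_lt hMx hl h6.le h7.le).2 h5,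
          (below_lt hPx hr h6.le h7.le).2 h8⟩
      · left
        obtain ⟨c, d, hcd, h9, h10⟩ := xinc_cover (p := p) (T := P) h6.le h7.le
        refine ⟨(c, d), (hE (c, d)).2 (Or.inr hcd), (seg_ln (xinc_edge hPx hcd) q).2
          ⟨h9, h10, ?_⟩⟩
        rw [h8, poly_edge hPx hcd h9 h10]

theorem GB.inv {E : List (V × V)} {Z : List V} (h : GB p a1 a2 E Z) :
    ∃ 𝓡, Inv2 p a1 a2 E Z 𝓡 := by
  induction h with
  | base h => exact ⟨∅, Inv2.base h⟩
  | step E A zp M zq C P E' h0 hne hnew hx hl hr hE ih =>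
    obtain ⟨𝓡, I⟩ := ih
    exact ⟨_, I.step hne hx hl hr hE (GB.step E A zp M zq C P E' h0 hne hnew hx hl hr hE).xinc⟩

end inv

end Pool.Agent.Run7.h215
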