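import Pool.Agent.Run7.h215.T2b

/-!
# T2, first part: polygonal paths
-/

set_option autoImplicit false
set_option linter.unusedSectionVars false

namespace Pool.Agent.Run7.h215

section poly

variable {V : Type} {p : V → ℝ × ℝ}

/-- slope -/
noncomputable def slp (p : V → ℝ × ℝ) (a b : V) : ℝ := ((p b).2 - (p a).2) / ((p b).1 - (p a).1)

/-- the affine function through `a`, `b` -/
noncomputable def ln (p : V → ℝ × ℝ) (a b : V) (x : ℝ) : ℝ := (p a).2 + (x - (p a).1) * slp p a b

/-- the polygonal function -/
noncomputable def poly (p : V → ℝ × ℝ) : List V → ℝ → ℝ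
  | [], _ => 0
  | [a], _ => (p a).2
  | a :: b :: T, x => if x ≤ (p b).1 then ln p a b x else poly p (b :: T) x

theorem ln_left (a b : V) : ln p a b (p a).1 = (p a).2 := by simp [ln]

theorem ln_right {a b : V} (h : (p a).1 < (p b).1) : ln p a b (p b).1 = (p b).2 := by
  have h1 : (p b).1 - (p a).1 ≠ 0 := by linarith
  unfold ln slp
  field_simp
  ring

theorem ln_diff (a b : V) (x x' : ℝ) : ln p a b x' = ln p a b x + (x' - x) * slp p a b := by
  unfold ln; ring

theorem slp_lt {a b c : V} (h1 : (p a).1 < (p b).1) (h2 : (p b).1 < (p c).1)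
    (h : 0 < cr p a b c) : slp p a b < slp p b c := by
  unfold slp
  rw [div_lt_div_iff₀ (by linarith) (by linarith)]
  unfold cr at h
  linarith

theorem xinc_cons {a b : V} {T : List V} (h : XInc p (a :: b :: T)) :
    (p a).1 < (p b).1 ∧ XInc p (b :: T) := by
  unfold XInc at h ⊢
  exact List.isChain_cons_cons.1 h

theorem xinc_pw {L : List V} (h : XInc p L) : L.Pairwise (fun a b => (p a).1 < (p b).1) := by
  have : IsTrans V (fun a b => (p a).1 < (p b).1) := ⟨fun a b c h h' => lt_trans h h'⟩
  exact List.isChain_iff_pairwise.1 h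

theorem xinc_infix {L L' : List V} (h : XInc p L) (h' : L' <:+: L) : XInc p L' := by
  unfold XInc at h ⊢
  obtain ⟨s, t, hst⟩ := h'
  rw [← hst] at h
  exact (List.isChain_append.1 (List.isChain_append.1 h).1).2.1

/-- consecutive elements have nothing in between -/
theorem xinc_between {L : List V} (h : XInc p L) {a b c : V} (hab : [a, b] <:+: L) (hc : c ∈ L) :
    (p c).1 ≤ (p a).1 ∨ (p b).1 ≤ (p c).1 := by
  have hp := xinc_pw h
  obtain ⟨s, t, rfl⟩ := hab
  rw [List.append_assoc, List.pairwise_append] at hp
  simp only [List.cons_append, List.nil_append, List.pairwise_cons, List.mem_cons] at hp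
  simp only [List.append_assoc, List.cons_append, List.nil_append, List.mem_append,
    List.mem_cons] at hc
  rcases hc with hc | rfl | rfl | hc
  · left; exact (hp.2.2 c hc a (Or.inl rfl)).le
  · left; exact le_rfl
  · right; exact le_rfl
  · right; exact (hp.2.1.2.1 c hc).le

theorem xinc_inj {L : List V} (h : XInc p L) {a b : V} (ha : a ∈ L) (hb : b ∈ L)
    (hab : (p a).1 = (p b).1) : a = b := by
  have hp := xinc_pw h
  clear h
  induction L with
  | nil => simp at ha
  | cons c T ih =>
    rw [List.pairwise_cons] at hp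
    rcases List.mem_cons.1 ha with rfl | ha'
    · rcases List.mem_cons.1 hb with rfl | hb'
      · rfl
      · exact absurd hab (hp.1 b hb').ne
    · rcases List.mem_cons.1 hb with rfl | hb'
      · exact absurd hab (hp.1 a ha').ne'
      · exact ih ha' hb' hp.2

theorem xinc_edge {L : List V} (h : XInc p L) {a b : V} (hab : [a, b] <:+: L) :
    (p a).1 < (p b).1 := by
  have := xinc_infix h hab
  unfold XInc at this
  exact (List.isChain_pair (R := fun a b => (p a).1 < (p b).1)).1 this

/-- two different consecutive pairs -/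
theorem xinc_edges {L : List V} (h : XInc p L) {a b c d : V} (hab : [a, b] <:+: L)
    (hcd : [c, d] <:+: L) (hne : ¬ (a = c ∧ b = d)) : (p b).1 ≤ (p c).1 ∨ (p d).1 ≤ (p a).1 := by
  have ha : a ∈ L := hab.subset (by simp)
  have hb : b ∈ L := hab.subset (by simp)
  have hc : c ∈ L := hcd.subset (by simp)
  have hd : d ∈ L := hcd.subset (by simp)
  rcases xinc_between h hab hc with h1 | h1
  · rcases xinc_between h hcd ha with h2 | h2
    · have hac : a = c := xinc_inj h ha hc (le_antisymm h2 h1)
      rcases xinc_between h hab hd with h3 | h3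
      · right; exact h3
      · rcases xinc_between h hcd hb with h4 | h4
        · left; exact h4
        · exact absurd ⟨hac, xinc_inj h hb hd (le_antisymm h3 h4)⟩ hne
    · right; exact h2
  · left; exact h1

/-- the head and the last element bound the others -/
theorem xinc_head {a : V} {T : List V} (h : XInc p (a :: T)) {c : V} (hc : c ∈ a :: T) :
    (p a).1 ≤ (p c).1 := by
  have hp := xinc_pw h
  rw [List.pairwise_cons] at hp
  rcases List.mem_cons.1 hc with rfl | hc
  · exact le_rfl
  · exact (hp.1 c hc).le

theorem xinc_last {a : V} {T : List V} (h : XInc p (T ++ [a])) {c : V} (hc : c ∈ T ++ [a]) :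
    (p c).1 ≤ (p a).1 := by
  have hp := xinc_pw h
  rw [List.pairwise_append] at hp
  rcases List.mem_append.1 hc with hc | hc
  · exact (hp.2.2 c hc a (by simp)).le
  · rw [List.mem_singleton.1 hc]

/-- a point between the ends lies over an edge -/
theorem xinc_cover {a : V} {T : List V} {b : V} {x : ℝ} (h1 : (p a).1 ≤ x) (h2 : x ≤ (p b).1) :
    ∃ c d, [c, d] <:+: a :: (T ++ [b]) ∧ (p c).1 ≤ x ∧ x ≤ (p d).1 := by
  induction T generalizing a with
  | nil => exact ⟨a, b, List.infix_rfl, h1, h2⟩
  | cons c T ih =>
    by_cases hx : x ≤ (p c).1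
    · exact ⟨a, c, ⟨[], T ++ [b], rfl⟩, h1, hx⟩
    · obtain ⟨c', d', h3, h4, h5⟩ := ih (a := c) (not_le.1 hx).le
      refine ⟨c', d', ?_, h4, h5⟩
      exact h3.trans ((List.suffix_cons a _).isInfix)

theorem poly_head {a : V} {T : List V} (h : XInc p (a :: T)) :
    poly p (a :: T) (p a).1 = (p a).2 := by
  cases T with
  | nil => rfl
  | cons b T =>
    have := (xinc_cons h).1
    rw [poly, if_pos this.le, ln_left]

theorem poly_vertex {L : List V} (h : XInc p L) {v : V} (hv : v ∈ L) :
    poly p L (p v).1 = (p v).2 := by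
  induction L with
  | nil => simp at hv
  | cons a T ih =>
    rcases List.mem_cons.1 hv with rfl | hv
    · exact poly_head h
    · cases T with
      | nil => simp at hv
      | cons b T =>
        obtain ⟨h1, h2⟩ := xinc_cons h
        rw [poly]
        split
        · rename_i hle
          have := xinc_head h2 hv
          have hvb : v = b := xinc_inj h2 hv (by simp) (le_antisymm hle this)
          rw [hvb, ln_right h1]
        · exact ih h2 hv

theorem poly_edge {L : List V} (h : XInc p L) {a b : V} (hab : [a, b] <:+: L) {x : ℝ}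
    (h1 : (p a).1 ≤ x) (h2 : x ≤ (p b).1) : poly p L x = ln p a b x := by
  induction L with
  | nil => simp at hab
  | cons c T ih =>
    cases T with
    | nil =>
      have := hab.length_le
      simp at this
    | cons d T =>
      obtain ⟨h3, h4⟩ := xinc_cons h
      rcases List.infix_cons_iff.1 hab with hab' | hab'
      · obtain ⟨t, ht⟩ := hab'
        simp only [List.cons_append, List.nil_append, List.cons.injEq] at ht
        obtain ⟨rfl, rfl, -⟩ := ht
        rw [poly, if_pos h2]
      · have h5 := xinc_head h4 (hab'.subset (by simp) : a ∈ d :: T)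
        rw [poly]
        split
        · rename_i hle
          have hx : x = (p d).1 := le_antisymm hle (h5.trans h1)
          have had : a = d := xinc_inj h4 (hab'.subset (by simp)) (by simp)
            (le_antisymm (h1.trans hle) h5)
          rw [hx, ln_right h3, had, ln_left]
        · exact ih h4 hab'

/-- slopes increase along a convex path -/
theorem slp_mono {T : List V} {a b : V} (h : XInc p (a :: b :: T)) (hl : LTurns p (a :: b :: T))
    {c d : V} (hcd : [c, d] <:+: a :: b :: T) : slp p a b ≤ slp p c d := by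
  induction T generalizing a b with
  | nil =>
    obtain ⟨rfl, rfl⟩ := infix_two.1 hcd
    exact le_rfl
  | cons e T ih =>
    obtain ⟨h1, h2⟩ := xinc_cons h
    obtain ⟨h3, h4⟩ := xinc_cons h2
    rcases List.infix_cons_iff.1 hcd with hcd' | hcd'
    · obtain ⟨t, ht⟩ := hcd'
      simp only [List.cons_append, List.nil_append, List.cons.injEq] at ht
      obtain ⟨rfl, rfl, -⟩ := ht
      exact le_rfl
    · have h5 := ih h2 (fun x y z hxyz => hl x y z (hxyz.trans (List.suffix_cons a _).isInfix)) hcd'
      have h6 := slp_lt h1 h3 (hl a b e ⟨[], T, rfl⟩)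
      linarith

theorem lturns_tail {a : V} {L : List V} (hl : LTurns p (a :: L)) : LTurns p L :=
  fun x y z hxyz => hl x y z (hxyz.trans (List.suffix_cons a _).isInfix)

/-- a convex path lies strictly above the lines of its edges, outside these edges -/
theorem conv_gt {T : List V} {a0 z0 : V} (h : XInc p (a0 :: (T ++ [z0])))
    (hl : LTurns p (a0 :: (T ++ [z0])))
    {a b : V} (hab : [a, b] <:+: a0 :: (T ++ [z0])) {x : ℝ} (h1 : (p a0).1 ≤ x)
    (h2 : x ≤ (p z0).1) :
    ln p a b x ≤ poly p (a0 :: (T ++ [z0])) x ∧
      (x < (p a).1 ∨ (p b).1 < x → ln p a b x < poly p (a0 :: (T ++ [z0])) x) := by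
  induction T generalizing a0 a b x with
  | nil =>
    obtain ⟨rfl, rfl⟩ := infix_two.1 hab
    rw [poly_edge h List.infix_rfl h1 h2]
    refine ⟨le_rfl, ?_⟩
    rintro (h3 | h3)
    · linarith
    · linarith
  | cons b0 T ih =>
    rw [List.cons_append] at h hl hab ⊢
    obtain ⟨h3, h4⟩ := xinc_cons h
    have hl' := lturns_tail hl
    -- the first edge of the tail
    obtain ⟨c0, T', hT'⟩ : ∃ c0 T', T ++ [z0] = c0 :: T' := by
      cases T with
      | nil => exact ⟨z0, [], rfl⟩
      | cons c T => exact ⟨c, T ++ [z0], rfl⟩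
    have hbc : [b0, c0] <:+: b0 :: (T ++ [z0]) := by rw [hT']; exact ⟨[], T', rfl⟩
    have h5 : (p b0).1 < (p c0).1 := xinc_edge h4 hbc
    have h6 : slp p a0 b0 < slp p b0 c0 := by
      refine slp_lt h3 h5 (hl a0 b0 c0 ?_)
      rw [hT']; exact ⟨[], T', rfl⟩
    have hpb : ∀ y, (p b0).1 ≤ y → y ≤ (p z0).1 →
        poly p (a0 :: b0 :: (T ++ [z0])) y = poly p (b0 :: (T ++ [z0])) y := by
      intro y hy _
      rw [poly]
      split
      · rename_i hle
        have : y = (p b0).1 := le_antisymm hle hy
        rw [this, ln_right h3, poly_head h4]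
      · rfl
    by_cases hx : x ≤ (p b0).1
    · -- over the first edge
      have hv : poly p (a0 :: b0 :: (T ++ [z0])) x = ln p a0 b0 x := by rw [poly, if_pos hx]
      rw [hv]
      rcases List.infix_cons_iff.1 hab with hab' | hab'
      · obtain ⟨t, ht⟩ := hab'
        simp only [List.cons_append, List.nil_append, List.cons.injEq] at ht
        obtain ⟨rfl, rfl, -⟩ := ht
        refine ⟨le_rfl, ?_⟩
        rintro (h7 | h7)
        · linarith
        · linarith
      · have hz : (p b0).1 ≤ (p z0).1 := xinc_head h4 (by simp)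
        have h7 := (ih h4 hl' hab' (x := (p b0).1) le_rfl hz).1
        rw [poly_head h4] at h7
        have h8 : slp p b0 c0 ≤ slp p a b := by
          rw [hT'] at h4 hl' hab'
          exact slp_mono h4 hl' hab'
        have h9 := ln_diff (p := p) a b (p b0).1 x
        have h10 := ln_diff (p := p) a0 b0 (p b0).1 x
        rw [ln_right h3] at h10
        have ha : (p b0).1 ≤ (p a).1 := xinc_head h4 (hab'.subset (by simp))
        have hab2 := xinc_edge h4 hab'
        constructor
        · nlinarith
        · intro h11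
          have hx' : x < (p b0).1 ∨ x = (p b0).1 := lt_or_eq_of_le hx
          rcases hx' with hx' | hx'
          · nlinarith
          · have h12 := (ih h4 hl' hab' (x := (p b0).1) le_rfl hz).2 (by
              rcases h11 with h11 | h11
              · left; rw [← hx']; exact h11
              · right; linarith)
            rw [poly_head h4] at h12
            rw [hx', ln_right h3]
            exact h12
    · have hx' := not_le.1 hx
      rw [hpb x hx'.le h2]
      rcases List.infix_cons_iff.1 hab with hab' | hab'
      · obtain ⟨t, ht⟩ := hab'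
        simp only [List.cons_append, List.nil_append, List.cons.injEq] at ht
        obtain ⟨rfl, rfl, -⟩ := ht
        have h7 := (ih h4 hl' hbc hx'.le h2).1
        have h8 := ln_diff (p := p) b c0 (p b).1 x
        have h9 := ln_diff (p := p) a b (p b).1 x
        rw [ln_right h3] at h9
        rw [ln_left] at h8
        have : ln p a b x < poly p (b :: (T ++ [z0])) x := by nlinarith
        exact ⟨this.le, fun _ => this⟩
      · exact ih h4 hl' hab' hx'.le h2

/-- a convex path with an interior vertex lies strictly below its chord -/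
theorem chord_lt {M : List V} {zp zq : V} (h : XInc p (zp :: (M ++ [zq])))
    (hl : LTurns p (zp :: (M ++ [zq]))) (hM : M ≠ []) {x : ℝ} (h1 : (p zp).1 < x)
    (h2 : x < (p zq).1) : poly p (zp :: (M ++ [zq])) x < ln p zp zq x := by
  obtain ⟨a, b, hab, h3, h4⟩ := xinc_cover (p := p) (T := M) h1.le h2.le
  rw [poly_edge h hab h3 h4]
  have hpq : (p zp).1 ≤ (p zq).1 := (h1.trans h2).le
  have e1 := conv_gt h hl hab (x := (p zp).1) le_rfl hpq
  have e2 := conv_gt h hl hab (x := (p zq).1) hpq le_rfl
  rw [poly_head h] at e1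
  rw [poly_vertex h (by simp)] at e2
  have d1 := ln_diff (p := p) a b (p zp).1 x
  have d2 := ln_diff (p := p) a b (p zp).1 (p zq).1
  have d3 := ln_diff (p := p) zp zq (p zp).1 x
  have d4 := ln_diff (p := p) zp zq (p zp).1 (p zq).1
  rw [ln_left] at d3 d4
  rw [ln_right (h1.trans h2)] at d4
  have hstrict : ln p a b (p zp).1 < (p zp).2 ∨ ln p a b (p zq).1 < (p zq).2 := by
    by_contra hcon
    push Not at hcon
    have g1 : ¬ (p zp).1 < (p a).1 := fun hh => absurd (e1.2 (Or.inl hh)) (not_lt.2 hcon.1)
    have g2 : ¬ (p b).1 < (p zq).1 := fun hh => absurd (e2.2 (Or.inr hh)) (not_lt.2 hcon.2)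
    cases M with
    | nil => exact hM rfl
    | cons m M =>
      have hm : m ∈ zp :: (m :: M ++ [zq]) := by simp
      have hp := xinc_pw h
      simp only [List.cons_append, List.pairwise_cons, List.mem_cons, List.mem_append,
        List.not_mem_nil, or_false] at hp
      have k1 : (p zp).1 < (p m).1 := hp.1 m (Or.inl rfl)
      have k2 : (p m).1 < (p zq).1 := hp.2.1 zq (Or.inr rfl)
      rcases xinc_between h hab hm with k3 | k3
      · linarith
      · linarith
  -- affine functions
  have hlen : 0 < (p zq).1 - (p zp).1 := by linarith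
  have key : ((p zq).1 - (p zp).1) * (ln p zp zq x - ln p a b x) =
      ((p zq).1 - x) * ((p zp).2 - ln p a b (p zp).1) +
      (x - (p zp).1) * ((p zq).2 - ln p a b (p zq).1) := by
    rw [d1, d2, d3, d4]; ring
  have hpos : 0 < ((p zq).1 - x) * ((p zp).2 - ln p a b (p zp).1) +
      (x - (p zp).1) * ((p zq).2 - ln p a b (p zq).1) := by
    have k1 : 0 < (p zq).1 - x := by linarith
    have k2 : 0 < x - (p zp).1 := by linarith
    have k3 : 0 ≤ (p zp).2 - ln p a b (p zp).1 := by linarith [e1.1]
    have k4 : 0 ≤ (p zq).2 - ln p a b (p zq).1 := by linarith [e2.1]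
    rcases hstrict with hs | hs
    · have := mul_pos k1 (sub_pos.2 hs)
      have := mul_nonneg k2.le k4
      linarith
    · have := mul_pos k2 (sub_pos.2 hs)
      have := mul_nonneg k1.le k3
      linarith
  rw [← key] at hpos
  have := (mul_pos_iff_of_pos_left hlen).1 hpos
  linarith

/-! ### reflection -/

/-- reflection in the horizontal axis -/
def rfl' (p : V → ℝ × ℝ) (v : V) : ℝ × ℝ := ((p v).1, -(p v).2)

theorem rfl_ln (a b : V) (x : ℝ) : ln (rfl' p) a b x = - ln p a b x := by
  unfold ln slp rfl'
  simp only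
  ring

theorem rfl_poly (L : List V) (x : ℝ) : poly (rfl' p) L x = - poly p L x := by
  induction L with
  | nil => simp [poly]
  | cons a T ih =>
    cases T with
    | nil => simp [poly, rfl']
    | cons b T =>
      rw [poly, poly, ih, rfl_ln]
      show (if x ≤ (p b).1 then _ else _) = _
      split <;> rfl

theorem rfl_turns {L : List V} (h : RTurns p L) : LTurns (rfl' p) L := by
  intro a b c habc
  have := h a b c habc
  unfold cr at this ⊢
  unfold rfl'
  simp only
  linarith

theorem rfl_xinc {L : List V} (h : XInc p L) : XInc (rfl' p) L := h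

theorem conc_lt {T : List V} {a0 z0 : V} (h : XInc p (a0 :: (T ++ [z0])))
    (hl : RTurns p (a0 :: (T ++ [z0])))
    {a b : V} (hab : [a, b] <:+: a0 :: (T ++ [z0])) {x : ℝ} (h1 : (p a0).1 ≤ x)
    (h2 : x ≤ (p z0).1) : poly p (a0 :: (T ++ [z0])) x ≤ ln p a b x := by
  have := (conv_gt (p := rfl' p) (rfl_xinc h) (rfl_turns hl) hab (x := x) h1 h2).1
  rw [rfl_ln, rfl_poly] at this
  linarith

theorem chord_gt {M : List V} {zp zq : V} (h : XInc p (zp :: (M ++ [zq])))
    (hl : RTurns p (zp :: (M ++ [zq]))) (hM : M ≠ []) {x : ℝ} (h1 : (p zp).1 < x)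
    (h2 : x < (p zq).1) : ln p zp zq x < poly p (zp :: (M ++ [zq])) x := by
  have := chord_lt (p := rfl' p) (rfl_xinc h) (rfl_turns hl) hM (x := x) h1 h2
  rw [rfl_ln, rfl_poly] at this
  linarith

/-- the new path is strictly above the old one -/
theorem paths_lt {M P : List V} {zp zq : V} (hM : XInc p (zp :: (M ++ [zq])))
    (hP : XInc p (zp :: (P ++ [zq]))) (hl : LTurns p (zp :: (M ++ [zq])))
    (hr : RTurns p (zp :: (P ++ [zq]))) (hne : M ≠ [] ∨ P ≠ []) {x : ℝ} (h1 : (p zp).1 < x)
    (h2 : x < (p zq).1) : poly p (zp :: (M ++ [zq])) x < poly p (zp :: (P ++ [zq])) x := by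
  have e : poly p (zp :: ([] ++ [zq])) x = ln p zp zq x := by
    rw [List.nil_append, poly, if_pos h2.le]
  by_cases hM0 : M = []
  · subst hM0
    rw [e]
    exact chord_gt hP hr (by simpa using hne) h1 h2
  · have k1 := chord_lt hM hl hM0 h1 h2
    by_cases hP0 : P = []
    · subst hP0
      rw [e]; exact k1
    · exact k1.trans (chord_gt hP hr hP0 h1 h2)

end poly

end Pool.Agent.Run7.h215
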