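import Pool.Agent.Run7.h215.Iface

/-!
T5, part a: indicators of paths, propagation and rotation lemmas, segments.
-/

set_option autoImplicit false

namespace Pool.Agent.Run7.h215

open List

section pathind

variable {V : Type}

open Classical in
/-- the indicator of the edge `ab` -/
noncomputable def ind (a b : V) : V → V → ZMod 2 :=
  fun u v => if (u = a ∧ v = b) ∨ (u = b ∧ v = a) then 1 else 0

/-- the mod 2 sum of the edges of a path -/
noncomputable def pth : List V → V → V → ZMod 2
  | [], _, _ => 0
  | [_], _, _ => 0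
  | a :: b :: l, u, v => ind a b u v + pth (b :: l) u v

theorem pth_nil (u v : V) : pth [] u v = 0 := rfl

theorem pth_single (a u v : V) : pth [a] u v = 0 := rfl

theorem pth_cons (a b : V) (l : List V) (u v : V) :
    pth (a :: b :: l) u v = ind a b u v + pth (b :: l) u v := rfl

theorem ind_symm (a b u v : V) : ind a b u v = ind a b v u := by
  unfold ind
  congr 1
  simp only [eq_iff_iff]
  tauto

theorem ind_comm (a b u v : V) : ind a b u v = ind b a u v := by
  unfold ind
  congr 1
  simp only [eq_iff_iff]
  tauto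

theorem pth_symm (l : List V) (u v : V) : pth l u v = pth l v u := by
  match l with
  | [] => rfl
  | [_] => rfl
  | a :: b :: l => rw [pth_cons, pth_cons, pth_symm (b :: l), ind_symm]

theorem pth_ne_zero {l : List V} {u v : V} (h : pth l u v ≠ 0) :
    [u, v] <:+: l ∨ [v, u] <:+: l := by
  match l with
  | [] => exact absurd rfl h
  | [_] => exact absurd rfl h
  | a :: b :: l =>
    rw [pth_cons] at h
    by_cases h1 : ind a b u v = 0
    · rw [h1, zero_add] at h
      rcases pth_ne_zero h with h2 | h2
      · exact Or.inl (h2.trans (List.suffix_cons a (b :: l)).isInfix)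
      · exact Or.inr (h2.trans (List.suffix_cons a (b :: l)).isInfix)
    · unfold ind at h1
      by_cases h2 : (u = a ∧ v = b) ∨ (u = b ∧ v = a)
      · rcases h2 with ⟨rfl, rfl⟩ | ⟨rfl, rfl⟩
        · exact Or.inl ⟨[], l, rfl⟩
        · exact Or.inr ⟨[], l, rfl⟩
      · rw [if_neg h2] at h1
        exact absurd rfl h1

theorem mem_of_infix_pair {l : List V} {u v : V} (h : [u, v] <:+: l) : u ∈ l ∧ v ∈ l :=
  ⟨h.subset (by simp), h.subset (by simp)⟩

theorem pth_zero_left {l : List V} {u : V} (h : u ∉ l) (v : V) : pth l u v = 0 := by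
  by_contra h1
  rcases pth_ne_zero h1 with h2 | h2
  · exact h (mem_of_infix_pair h2).1
  · exact h (mem_of_infix_pair h2).2

theorem pth_zero_right {l : List V} {v : V} (h : v ∉ l) (u : V) : pth l u v = 0 := by
  rw [pth_symm]
  exact pth_zero_left h u

theorem pth_append (A : List V) (z : V) (B : List V) (u v : V) :
    pth (A ++ z :: B) u v = pth (A ++ [z]) u v + pth (z :: B) u v := by
  induction A with
  | nil => simp [pth_single]
  | cons a A ih =>
    match A with
    | [] =>
      show pth (a :: z :: B) u v = pth [a, z] u v + pth (z :: B) u v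
      rw [pth_cons, pth_cons, pth_single, add_zero]
    | a' :: A' =>
      show pth (a :: a' :: (A' ++ z :: B)) u v = pth (a :: a' :: (A' ++ [z])) u v + _
      rw [pth_cons, pth_cons, add_assoc]
      congr 1

theorem chain_sub {α : Type*} {R : α → α → Prop} {l l' : List α} (h : l.IsChain R)
    (h1 : l' <:+: l) : l'.IsChain R := by
  obtain ⟨A, B, rfl⟩ := h1
  exact h.left_of_append.right_of_append

theorem infix_chain {G : SimpleGraph V} {l : List V} (h : l.IsChain G.Adj) {u v : V}
    (h1 : [u, v] <:+: l) : G.Adj u v := by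
  have := chain_sub h h1
  simpa using this

theorem pth_supp {G : SimpleGraph V} {l : List V} (h : l.IsChain G.Adj) {u v : V}
    (h1 : ¬ G.Adj u v) : pth l u v = 0 := by
  by_contra h2
  rcases pth_ne_zero h2 with h3 | h3
  · exact h1 (infix_chain h h3)
  · exact h1 (infix_chain h h3).symm

open Classical in
theorem pth_head {z b : V} {B : List V} (h : z ∉ b :: B) (w : V) :
    pth (z :: b :: B) z w = if w = b then 1 else 0 := by
  rw [pth_cons, pth_zero_left h, add_zero]
  have hzb : z ≠ b := fun h1 => h (by simp [h1])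
  unfold ind
  by_cases hw : w = b
  · rw [if_pos hw, if_pos (Or.inl ⟨rfl, hw⟩)]
  · rw [if_neg hw, if_neg]
    rintro (⟨_, h1⟩ | ⟨h1, _⟩)
    · exact hw h1
    · exact hzb h1

open Classical in
theorem pth_last {z a : V} {A : List V} (h : z ∉ A ++ [a]) (w : V) :
    pth (A ++ [a, z]) z w = if w = a then 1 else 0 := by
  have e : A ++ [a, z] = A ++ a :: [z] := rfl
  rw [e, pth_append, pth_zero_left h, zero_add, pth_cons, pth_single, add_zero]
  have hza : z ≠ a := fun h1 => h (by simp [h1])
  unfold ind
  by_cases hw : w = a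
  · rw [if_pos hw, if_pos (Or.inr ⟨rfl, hw⟩)]
  · rw [if_neg hw, if_neg]
    rintro (⟨h1, _⟩ | ⟨_, h1⟩)
    · exact hza h1
    · exact hw h1

theorem pth_infix {l : List V} (hl : l.Nodup) {u v : V} (h : [u, v] <:+: l) : pth l u v = 1 := by
  obtain ⟨A, B, rfl⟩ := h
  have e : A ++ [u, v] ++ B = A ++ u :: (v :: B) := by simp
  rw [e] at hl ⊢
  have hl2 := (List.nodup_append.1 hl).2.1
  have hu : u ∉ v :: B := (List.nodup_cons.1 hl2).1
  have hv : v ∉ A ++ [u] := by
    intro h1
    rcases List.mem_append.1 h1 with h2 | h2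
    · exact (List.nodup_append.1 hl).2.2 v h2 v (by simp) rfl
    · simp only [List.mem_singleton] at h2
      exact hu (by simp [h2])
  rw [pth_append, pth_zero_right hv, zero_add, pth_cons, pth_zero_left hu, add_zero]
  unfold ind
  rw [if_pos (Or.inl ⟨rfl, rfl⟩)]

open Classical in
theorem ind_sum [Fintype V] {a b : V} (hab : a ≠ b) (v : V) :
    ∑ w, ind a b v w = (if v = a then 1 else 0) + (if v = b then 1 else 0) := by
  have h1 : ∀ w, ind a b v w = (if w = b then (if v = a then 1 else 0) else 0) +
      (if w = a then (if v = b then 1 else 0) else 0) := by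
    intro w
    unfold ind
    by_cases h1 : v = a
    · have h2 : v ≠ b := fun h => hab (h1.symm.trans h)
      by_cases h3 : w = b
      · rw [if_pos (Or.inl ⟨h1, h3⟩), if_pos h3, if_pos h1, if_neg (fun h => hab (h.symm.trans h3)),
          add_zero]
      · rw [if_neg, if_neg h3, if_neg h2, zero_add, ite_self]
        rintro (⟨_, h⟩ | ⟨h, _⟩)
        · exact h3 h
        · exact h2 h
    · by_cases h2 : v = b
      · by_cases h3 : w = a
        · rw [if_pos (Or.inr ⟨h2, h3⟩), if_pos h3, if_pos h2, if_neg h1, ite_self, zero_add]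
        · rw [if_neg, if_neg h3, if_neg h1, ite_self, zero_add]
          rintro (⟨h, _⟩ | ⟨_, h⟩)
          · exact h1 h
          · exact h3 h
      · rw [if_neg, if_neg h1, if_neg h2, ite_self, ite_self, zero_add]
        rintro (⟨h, _⟩ | ⟨h, _⟩)
        · exact h1 h
        · exact h2 h
  rw [Finset.sum_congr rfl fun w _ => h1 w, Finset.sum_add_distrib, Finset.sum_ite_eq',
    Finset.sum_ite_eq', if_pos (Finset.mem_univ _), if_pos (Finset.mem_univ _)]

open Classical in
theorem pth_sum [Fintype V] {G : SimpleGraph V} (l : List V) : ∀ (x : V),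
    (x :: l).IsChain G.Adj → ∀ v, ∑ w, pth (x :: l) v w =
      (if v = x then 1 else 0) + (if v = (x :: l).getLast (by simp) then 1 else 0) := by
  induction l with
  | nil =>
    intro x _ v
    simp only [pth_single, Finset.sum_const_zero, List.getLast_singleton]
    exact (CharTwo.add_self_eq_zero _).symm
  | cons y l ih =>
    intro x h v
    rw [List.isChain_cons_cons] at h
    have h1 := ih y h.2 v
    simp only [pth_cons, Finset.sum_add_distrib]
    rw [h1, ind_sum h.1.ne, List.getLast_cons (by simp : y :: l ≠ [])]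
    have h2 : (if v = y then (1 : ZMod 2) else 0) + (if v = y then 1 else 0) = 0 :=
      CharTwo.add_self_eq_zero _
    linear_combination h2

/-- closed walks are cycles mod 2 -/
theorem isCyc_closed [Fintype V] {G : SimpleGraph V} {x : V} {l : List V}
    (h : (x :: l).IsChain G.Adj) (hx : (x :: l).getLast (by simp) = x) : IsCyc G (pth (x :: l)) where
  symm u v := pth_symm _ u v
  supp u v h1 := pth_supp h h1
  even v := by
    classical
    rw [pth_sum l x h v, hx]
    exact CharTwo.add_self_eq_zero _

/-- two walks with the same ends -/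
theorem isCyc_two [Fintype V] {G : SimpleGraph V} {x : V} {l l' : List V}
    (h : (x :: l).IsChain G.Adj) (h' : (x :: l').IsChain G.Adj)
    (hx : (x :: l).getLast (by simp) = (x :: l').getLast (by simp)) :
    IsCyc G (fun u v => pth (x :: l) u v + pth (x :: l') u v) where
  symm u v := by rw [pth_symm _ u v, pth_symm _ u v]
  supp u v h1 := by rw [pth_supp h h1, pth_supp h' h1, add_zero]
  even v := by
    classical
    rw [Finset.sum_add_distrib, pth_sum l x h v, pth_sum l' x h' v, hx]
    exact CharTwo.add_self_eq_zero _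

end pathind

section sys

variable {V : Type} [Fintype V] {G : SimpleGraph V} {s : (V → V → ZMod 2) → V → V → ZMod 2}
  (hs : Sys G s)

include hs

theorem flip_eq {c : V → V → ZMod 2} (hc : IsCyc G c) {u v : V} (h : G.Adj u v) (h0 : c u v = 0) :
    s c v u = s c u v := by
  have h1 := hs.flip c hc u v h
  rw [h0] at h1
  exact (CharTwo.add_eq_zero.1 h1).symm

theorem rot_const {c : V → V → ZMod 2} (hc : IsCyc G c) {v : V} (h : ∀ w, c v w = 0) {w w' : V}
    (hw : G.Adj v w) (hw' : G.Adj v w') : s c v w = s c v w' := by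
  obtain ⟨pos, -, h1⟩ := hs.rot v
  obtain ⟨b, hb⟩ := h1 c hc
  rw [hb w hw, hb w' hw', Finset.sum_eq_zero fun x _ => h x, Finset.sum_eq_zero fun x _ => h x]

/-- Propagation along a path of untouched vertices. -/
theorem prop_path {c : V → V → ZMod 2} (hc : IsCyc G c) (κ : ZMod 2) (L : List V) : ∀ (x y : V),
    (x :: y :: L).IsChain G.Adj → (∀ v ∈ (y :: L).dropLast, ∀ w, c v w = 0) → s c x y = κ →
    s c y x = κ → (∀ v ∈ (y :: L).dropLast, ∀ w, G.Adj v w → s c v w = κ) ∧
      ∀ u v, [u, v] <:+: x :: y :: L → s c u v = κ ∧ s c v u = κ := by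
  induction L with
  | nil =>
    intro x y _ _ h1 h2
    refine ⟨by simp, fun u v h => ?_⟩
    have h3 : [u, v] = [x, y] := h.eq_of_length (by simp)
    simp only [List.cons.injEq, and_true] at h3
    rw [h3.1, h3.2]
    exact ⟨h1, h2⟩
  | cons z L ih =>
    intro x y hch h0 h1 h2
    rw [List.isChain_cons_cons] at hch
    have hyz : G.Adj y z := (List.isChain_cons_cons.1 hch.2).1
    have hd : (y :: z :: L).dropLast = y :: (z :: L).dropLast := rfl
    rw [hd] at h0
    have hy : ∀ w, c y w = 0 := h0 y (by simp)
    have hyall : ∀ w, G.Adj y w → s c y w = κ := by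
      intro w hw
      rw [rot_const hs hc hy hw hch.1.symm, h2]
    have h3 := hyall z hyz
    have h4 : s c z y = κ := by rw [flip_eq hs hc hyz (hy z), h3]
    obtain ⟨h5, h6⟩ := ih y z hch.2 (fun v hv => h0 v (by simp [hv])) h3 h4
    refine ⟨?_, ?_⟩
    · rw [hd]
      intro v hv w hw
      rcases List.mem_cons.1 hv with rfl | hv
      · exact hyall w hw
      · exact h5 v hv w hw
    · intro u v huv
      rw [List.infix_cons_iff] at huv
      rcases huv with huv | huv
      · rw [List.cons_prefix_cons, List.cons_prefix_cons] at huv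
        rw [huv.1, huv.2.1]
        exact ⟨h1, h2⟩
      · exact h6 u v huv

/-- Propagation over a connected set of untouched vertices. -/
theorem prop_conn {c : V → V → ZMod 2} (hc : IsCyc G c) {U : Set V} (hU : (G.induce U).Preconnected)
    (h0 : ∀ v ∈ U, ∀ w, c v w = 0) {v w : V} (hv : v ∈ U) (hvw : G.Adj v w) (h1 : s c v w = 0) :
    ∀ v' ∈ U, ∀ w', G.Adj v' w' → s c v' w' = 0 := by
  intro v' hv' w' hw'
  have key : ∀ (a b : U), Relation.ReflTransGen (G.induce U).Adj a b →
      (∀ w, G.Adj a.1 w → s c a.1 w = 0) → (∀ w, G.Adj b.1 w → s c b.1 w = 0) := by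
    intro a b hab ha
    induction hab with
    | refl => exact ha
    | @tail b d _ hbd ih =>
      intro w hw
      have hbd' : G.Adj b.1 d.1 := hbd
      have h2 := ih d.1 hbd'
      have h3 : s c d.1 b.1 = 0 := by rw [flip_eq hs hc hbd' (h0 b.1 b.2 _), h2]
      rw [rot_const hs hc (h0 d.1 d.2) hw hbd'.symm, h3]
  have hreach := hU ⟨v, hv⟩ ⟨v', hv'⟩
  rw [SimpleGraph.reachable_iff_reflTransGen] at hreach
  refine key _ _ hreach ?_ w' hw'
  intro w2 hw2
  rw [rot_const hs hc (h0 v hv) hw2 hvw, h1]

end sys

end Pool.Agent.Run7.h215
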