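import Pool.Agent.Run7.h215.T5a
import Pool.Agent.Run7.h215.CBBasic

/-!
T5, part b: rotation lemmas.
-/

set_option autoImplicit false

namespace Pool.Agent.Run7.h215

open List

section rot

variable {V : Type} [Fintype V] {G : SimpleGraph V} {s : (V → V → ZMod 2) → V → V → ZMod 2}
  (hs : Sys G s)

open Classical in
theorem sum_two {v x y : V} {c : V → V → ZMod 2} {pos : V → ℕ} (n : ℕ)
    (h : ∀ w, c v w = (if w = x then 1 else 0) + (if w = y then 1 else 0)) :
    ∑ w' with pos w' ≤ n, c v w' = (if pos x ≤ n then 1 else 0) + (if pos y ≤ n then 1 else 0) := by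
  rw [Finset.sum_filter]
  have h1 : ∀ w, (if pos w ≤ n then c v w else 0) =
      (if w = x then (if pos x ≤ n then 1 else 0) else 0) +
      (if w = y then (if pos y ≤ n then 1 else 0) else 0) := by
    intro w
    rw [h w]
    by_cases hx : w = x
    · subst hx
      by_cases hy : w = y
      · subst hy
        simp only [if_true]
        split_ifs <;> rfl
      · rw [if_neg hy, if_neg hy, if_pos rfl, if_pos rfl, add_zero, add_zero]
    · by_cases hy : w = y
      · subst hy
        rw [if_neg hx, if_neg hx, if_pos rfl, if_pos rfl, zero_add, zero_add]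
      · rw [if_neg hx, if_neg hx, if_neg hy, if_neg hy, add_zero, ite_self]
  rw [Finset.sum_congr rfl fun w _ => h1 w, Finset.sum_add_distrib, Finset.sum_ite_eq',
    Finset.sum_ite_eq', if_pos (Finset.mem_univ _), if_pos (Finset.mem_univ _)]

include hs

open Classical in
/-- The rotation lemma at an end of the new path. -/
theorem rotE {v e g f : V} {c1 c2 : V → V → ZMod 2} (hc1 : IsCyc G c1) (hc2 : IsCyc G c2)
    (he : G.Adj v e) (hg : G.Adj v g) (hf : G.Adj v f) (heg : e ≠ g) (hef : e ≠ f) (hgf : g ≠ f)
    (h1 : ∀ w, c1 v w = (if w = e then 1 else 0) + (if w = g then 1 else 0))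
    (h2 : ∀ w, c2 v w = (if w = g then 1 else 0) + (if w = f then 1 else 0))
    (hs1 : s c1 v f = 0) (hs2 : s c2 v e = 0) :
    s c1 v g + s c2 v g = 1 ∧ ∀ w, G.Adj v w → w ≠ e → w ≠ g → w ≠ f → s c1 v w = 1 →
      s c2 v w = 0 := by
  obtain ⟨pos, hinj, hrot⟩ := hs.rot v
  obtain ⟨b1, hb1⟩ := hrot c1 hc1
  obtain ⟨b2, hb2⟩ := hrot c2 hc2
  have i1 : pos e ≠ pos g := fun h => heg (hinj h)
  have i2 : pos e ≠ pos f := fun h => hef (hinj h)
  have i3 : pos g ≠ pos f := fun h => hgf (hinj h)
  rw [hb1 f hf, sum_two _ h1] at hs1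
  rw [hb2 e he, sum_two _ h2] at hs2
  constructor
  · rw [hb1 g hg, hb2 g hg, sum_two _ h1, sum_two _ h2]
    clear hb1 hb2 hrot h1 h2
    generalize pos e = pe at *
    generalize pos g = pg at *
    generalize pos f = pf at *
    split_ifs at hs1 hs2 ⊢ <;> first | omega | (revert hs1 hs2; revert b1 b2; decide)
  · intro w hw hwe hwg hwf hsw
    have i4 : pos w ≠ pos e := fun h => hwe (hinj h)
    have i5 : pos w ≠ pos g := fun h => hwg (hinj h)
    have i6 : pos w ≠ pos f := fun h => hwf (hinj h)
    rw [hb1 w hw, sum_two _ h1] at hsw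
    rw [hb2 w hw, sum_two _ h2]
    clear hb1 hb2 hrot h1 h2
    generalize pos e = pe at *
    generalize pos g = pg at *
    generalize pos f = pf at *
    generalize pos w = pw at *
    split_ifs at hs1 hs2 hsw ⊢ <;> first | omega | (revert hs1 hs2 hsw; revert b1 b2; decide)

open Classical in
/-- Two consecutive darts of the rotation. -/
theorem rot_consec {v x y : V} {pos : V → ℕ} (hinj : Function.Injective pos)
    (hrot : ∀ c, IsCyc G c → ∃ b : ZMod 2,
      ∀ w, G.Adj v w → s c v w = b + ∑ w' with pos w' ≤ pos w, c v w')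
    (hx : G.Adj v x) (hy : G.Adj v y)
    (hxy : (pos y < pos x ∧ ∀ w, G.Adj v w → ¬ (pos y < pos w ∧ pos w < pos x)) ∨
      (x ≠ y ∧ ∀ w, G.Adj v w → pos x ≤ pos w ∧ pos w ≤ pos y))
    {c : V → V → ZMod 2} (hc : IsCyc G c) : s c v y = s c x v := by
  obtain ⟨b, hb⟩ := hrot c hc
  have hfl := hs.flip c hc v x hx
  have h2 : s c x v = c v x + s c v x := by
    rw [← hfl]
    have : s c v x + s c v x = 0 := CharTwo.add_self_eq_zero _
    linear_combination -this
  rw [h2, hb x hx, hb y hy]
  rcases hxy with ⟨h3, h4⟩ | ⟨h3, h4⟩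
  · have h5 : ∑ w' with pos w' ≤ pos x, c v w' = (∑ w' with pos w' ≤ pos y, c v w') + c v x := by
      rw [Finset.sum_filter, Finset.sum_filter]
      have h6 : ∀ w, (if pos w ≤ pos x then c v w else 0) =
          (if pos w ≤ pos y then c v w else 0) + (if w = x then c v x else 0) := by
        intro w
        by_cases h7 : w = x
        · subst h7
          rw [if_pos le_rfl, if_neg (by omega), if_pos rfl, zero_add]
        · by_cases h8 : G.Adj v w
          · have h9 := h4 w h8
            have h10 : pos w ≠ pos x := fun h => h7 (hinj h)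
            rw [if_neg h7, add_zero]
            by_cases h11 : pos w ≤ pos y
            · rw [if_pos h11, if_pos (by omega)]
            · rw [if_neg h11, if_neg (by omega)]
          · rw [hc.supp v w h8, if_neg h7]
            simp
      rw [Finset.sum_congr rfl fun w _ => h6 w, Finset.sum_add_distrib, Finset.sum_ite_eq',
        if_pos (Finset.mem_univ _)]
    rw [h5]
    have : c v x + c v x = 0 := CharTwo.add_self_eq_zero _
    linear_combination -this
  · have h5 : ∑ w' with pos w' ≤ pos x, c v w' = c v x := by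
      rw [Finset.sum_filter]
      have h6 : ∀ w, (if pos w ≤ pos x then c v w else 0) = (if w = x then c v x else 0) := by
        intro w
        by_cases h7 : w = x
        · subst h7
          rw [if_pos le_rfl, if_pos rfl]
        · rw [if_neg h7]
          by_cases h8 : G.Adj v w
          · have h9 := h4 w h8
            have h10 : pos w ≠ pos x := fun h => h7 (hinj h)
            rw [if_neg (by omega)]
          · rw [hc.supp v w h8, ite_self]
      rw [Finset.sum_congr rfl fun w _ => h6 w, Finset.sum_ite_eq',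
        if_pos (Finset.mem_univ _)]
    have h7 : ∑ w' with pos w' ≤ pos y, c v w' = 0 := by
      rw [← hc.even v, Finset.sum_filter]
      refine Finset.sum_congr rfl fun w _ => ?_
      by_cases h8 : G.Adj v w
      · rw [if_pos (h4 w h8).2]
      · rw [hc.supp v w h8, ite_self]
    rw [h5, h7]
    have : c v x + c v x = 0 := CharTwo.add_self_eq_zero _
    linear_combination -this

open Classical in
/-- The rotation lemma on the final contour. -/
theorem rotF {v x y : V} {c : V → V → ZMod 2} (hc : IsCyc G c)
    (hx : G.Adj v x) (hy : G.Adj v y) (hxy : x ≠ y)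
    (h1 : ∀ w, c v w = (if w = x then 1 else 0) + (if w = y then 1 else 0))
    (hs1 : s c v x = 1) (hs2 : ∀ w, G.Adj v w → w ≠ x → w ≠ y → s c v w = 1)
    {c' : V → V → ZMod 2} (hc' : IsCyc G c') : s c' v y = s c' x v := by
  obtain ⟨pos, hinj, hrot⟩ := hs.rot v
  refine rot_consec hs hinj hrot hx hy ?_ hc'
  obtain ⟨b, hb⟩ := hrot c hc
  have i1 : pos x ≠ pos y := fun h => hxy (hinj h)
  rw [hb x hx, sum_two _ h1] at hs1
  have hw : ∀ w, G.Adj v w → w ≠ x → w ≠ y →
      b + ((if pos x ≤ pos w then 1 else 0) + (if pos y ≤ pos w then 1 else 0)) = 1 := by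
    intro w hw h2 h3
    rw [← sum_two (c := c) (v := v) _ h1, ← hb w hw, hs2 w hw h2 h3]
  rcases lt_or_gt_of_ne i1 with h2 | h2
  · right
    rw [if_pos le_rfl, if_neg (by omega)] at hs1
    refine ⟨hxy, fun w hw1 => ?_⟩
    by_cases h3 : w = x
    · subst h3; omega
    · by_cases h4 : w = y
      · subst h4; omega
      · have h5 := hw w hw1 h3 h4
        by_contra h6
        have : (if pos x ≤ pos w then (1 : ZMod 2) else 0) + (if pos y ≤ pos w then 1 else 0) = 0 := by
          split_ifs
          · rfl
          · omega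
          · omega
          · rfl
        rw [this] at h5
        clear hb hw
        revert h5 hs1
        revert b
        decide
  · left
    rw [if_pos le_rfl, if_pos (by omega)] at hs1
    refine ⟨h2, fun w hw1 h7 => ?_⟩
    have h3 : w ≠ x := by rintro rfl; omega
    have h4 : w ≠ y := by rintro rfl; omega
    have h5 := hw w hw1 h3 h4
    rw [if_neg (by omega), if_pos (by omega)] at h5
    clear hb hw
    revert h5 hs1
    revert b
    decide

open Classical in
/-- The dart preceding a given one in the rotation. -/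
theorem exists_consec {v x z : V} (hx : G.Adj v x) (hz : G.Adj v z) (hzx : z ≠ x) :
    ∃ y, G.Adj v y ∧ y ≠ x ∧ ∀ c, IsCyc G c → s c v y = s c x v := by
  obtain ⟨pos, hinj, hrot⟩ := hs.rot v
  by_cases h : ∃ w, G.Adj v w ∧ pos w < pos x
  · obtain ⟨w, hw, hwx⟩ := h
    have hne : (Finset.univ.filter (fun w => G.Adj v w ∧ pos w < pos x)).Nonempty :=
      ⟨w, by simp [hw, hwx]⟩
    obtain ⟨y, hy, hmax⟩ := Finset.exists_max_image _ pos hne
    simp only [Finset.mem_filter, Finset.mem_univ, true_and] at hy hmax
    refine ⟨y, hy.1, fun h => by rw [h] at hy; omega, fun c hc => ?_⟩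
    refine rot_consec hs hinj hrot hx hy.1 (Or.inl ⟨hy.2, fun w' hw' h3 => ?_⟩) hc
    have := hmax w' ⟨hw', h3.2⟩
    omega
  · push Not at h
    have hne : (Finset.univ.filter (fun w => G.Adj v w)).Nonempty := ⟨x, by simp [hx]⟩
    obtain ⟨y, hy, hmax⟩ := Finset.exists_max_image _ pos hne
    simp only [Finset.mem_filter, Finset.mem_univ, true_and] at hy hmax
    have hyx : y ≠ x := by
      rintro rfl
      have h1 := hmax z hz
      have h2 := h z hz
      exact hzx (hinj (le_antisymm h1 h2))
    refine ⟨y, hy, hyx, fun c hc => ?_⟩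
    exact rot_consec hs hinj hrot hx hy (Or.inr ⟨hyx.symm, fun w hw => ⟨h w hw, hmax w hw⟩⟩) hc

end rot

end Pool.Agent.Run7.h215
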