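import Pool.Agent.Run7.h215.T5b

/-!
T5, part c: lists, segments, local structure of the contour.
-/

set_option autoImplicit false

namespace Pool.Agent.Run7.h215

open List

section lists

variable {α : Type*}

theorem pair_append {a b : α} {X : List α} {y : α} {Y : List α} (h : [a, b] <:+: X ++ y :: Y) :
    [a, b] <:+: X ++ [y] ∨ [a, b] <:+: y :: Y := by
  induction X with
  | nil => exact Or.inr h
  | cons x X ih =>
    rw [List.cons_append, List.infix_cons_iff] at h
    rcases h with h | h
    · left
      rw [List.cons_prefix_cons] at h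
      obtain ⟨rfl, h⟩ := h
      match X, h with
      | [], h =>
        rw [List.nil_append, List.cons_prefix_cons] at h
        rw [h.1]
        exact ⟨[], [], rfl⟩
      | x' :: X', h =>
        rw [List.cons_append, List.cons_prefix_cons] at h
        rw [h.1]
        exact ⟨[], X' ++ [y], rfl⟩
    · rcases ih h with h1 | h1
      · left
        exact h1.trans (List.suffix_cons x _).isInfix
      · exact Or.inr h1

theorem pair_left {a b : α} {l : List α} (h : [a, b] <:+: l) : a ∈ l.dropLast := by
  obtain ⟨A, B, rfl⟩ := h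
  have : A ++ [a, b] ++ B = A ++ a :: (b :: B) := by simp
  rw [this, List.dropLast_append_of_ne_nil (by simp), List.dropLast_cons_of_ne_nil (by simp)]
  simp

theorem pair_infix_append_left {a b : α} {X Y : List α} (h : [a, b] <:+: X) :
    [a, b] <:+: X ++ Y := h.trans (List.prefix_append X Y).isInfix

theorem pair_infix_append_right {a b : α} {X Y : List α} (h : [a, b] <:+: Y) :
    [a, b] <:+: X ++ Y := h.trans (List.suffix_append X Y).isInfix

theorem exists_first {p : α → Prop} {l : List α} (h : ∃ x ∈ l, p x) :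
    ∃ A x B, l = A ++ x :: B ∧ p x ∧ ∀ a ∈ A, ¬ p a := by
  induction l with
  | nil => simp at h
  | cons y l ih =>
    by_cases hy : p y
    · exact ⟨[], y, l, rfl, hy, by simp⟩
    · have : ∃ x ∈ l, p x := by
        obtain ⟨x, hx, hpx⟩ := h
        rcases List.mem_cons.1 hx with rfl | hx
        · exact absurd hpx hy
        · exact ⟨x, hx, hpx⟩
      obtain ⟨A, x, B, rfl, hx, hA⟩ := ih this
      refine ⟨y :: A, x, B, rfl, hx, fun a ha => ?_⟩
      rcases List.mem_cons.1 ha with rfl | ha
      · exact hy
      · exact hA a ha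

theorem exists_last {p : α → Prop} {l : List α} (h : ∃ x ∈ l, p x) :
    ∃ A x B, l = A ++ x :: B ∧ p x ∧ ∀ b ∈ B, ¬ p b := by
  induction l with
  | nil => simp at h
  | cons y l ih =>
    by_cases hl : ∃ x ∈ l, p x
    · obtain ⟨A, x, B, rfl, hx, hA⟩ := ih hl
      exact ⟨y :: A, x, B, rfl, hx, hA⟩
    · refine ⟨[], y, l, rfl, ?_, fun b hb hpb => hl ⟨b, hb, hpb⟩⟩
      obtain ⟨x, hx, hpx⟩ := h
      rcases List.mem_cons.1 hx with rfl | hx
      · exact hpx
      · exact absurd ⟨x, hx, hpx⟩ hl

/-- between the first and the last element with a property -/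
theorem exists_stretch {p : α → Prop} {l : List α} {x y : α} (hx : x ∈ l) (hy : y ∈ l) (hxy : x ≠ y)
    (hpx : p x) (hpy : p y) :
    ∃ A x' R y' C, l = A ++ x' :: (R ++ y' :: C) ∧ p x' ∧ p y' ∧ (∀ a ∈ A, ¬ p a) ∧
      ∀ a ∈ C, ¬ p a := by
  obtain ⟨A, x', B, rfl, hx', hA⟩ := exists_first ⟨x, hx, hpx⟩
  have hB : ∃ z ∈ B, p z := by
    simp only [List.mem_append, List.mem_cons] at hx hy
    rcases hx with hx | rfl | hx
    · exact absurd hpx (hA x hx)
    · rcases hy with hy | rfl | hy
      · exact absurd hpy (hA y hy)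
      · exact absurd rfl hxy
      · exact ⟨y, hy, hpy⟩
    · exact ⟨x, hx, hpx⟩
  obtain ⟨R, y', C, rfl, hy', hC⟩ := exists_last hB
  exact ⟨A, x', R, y', C, rfl, hx', hy', hA, hC⟩

theorem isChain_of_pairs {R : α → α → Prop} {l : List α} (h : ∀ a b, [a, b] <:+: l → R a b) :
    l.IsChain R := by
  induction l with
  | nil => exact List.isChain_nil
  | cons x l ih =>
    have h1 := ih fun a b hab => h a b (hab.trans (List.suffix_cons x l).isInfix)
    match l, h1, h with
    | [], _, _ => exact List.isChain_singleton x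
    | y :: l, h1, h => exact List.isChain_cons_cons.2 ⟨h x y ⟨[], l, rfl⟩, h1⟩

theorem pairs_of_isChain {R : α → α → Prop} {l : List α} (h : l.IsChain R) {a b : α}
    (hab : [a, b] <:+: l) : R a b := by
  have := chain_sub h hab
  simpa using this

/-- forward propagation along a list -/
theorem chain_forward {R : α → α → Prop} {x y : α} {l : List α} (h0 : R x y)
    (h : ∀ a b c, [a, b, c] <:+: x :: y :: l → R a b → R b c) : (x :: y :: l).IsChain R := by
  induction l generalizing x y with
  | nil => exact List.isChain_cons_cons.2 ⟨h0, List.isChain_singleton y⟩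
  | cons z l ih =>
    refine List.isChain_cons_cons.2 ⟨h0, ih (h x y z ⟨[], l, rfl⟩ h0) ?_⟩
    intro a b c habc
    exact h a b c (habc.trans (List.suffix_cons x _).isInfix)

end lists

section segs

variable {V : Type*}

theorem rent_head (x : Ty) (r : List V) (w : V) : ∃ v T, rent x r w = (v, x) :: T := by
  cases r with
  | nil => exact ⟨w, [], rfl⟩
  | cons v vs => exact ⟨v, _, rfl⟩

/-- prolonging a segment to the left -/
theorem seg_prolong (sg : Seg V) (v : V) (t : Ty)
    (h : ∀ e ∈ sg.entries.head?, t = Ty.D ∨ e.2 = Ty.U) :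
    ∃ sg' : Seg V, sg'.entries = (v, t) :: sg.entries ∧ sg'.w = sg.w := by
  by_cases ht : t = Ty.D
  · refine ⟨⟨v :: sg.l, sg.x, sg.r, sg.w⟩, ?_, rfl⟩
    rw [ht]
    rfl
  · obtain ⟨l, x, r, w⟩ := sg
    match l with
    | [] =>
      obtain ⟨v', T, hv'⟩ := rent_head x r w
      have h1 : (v', x) ∈ (Seg.entries ⟨[], x, r, w⟩).head? := by
        show (v', x) ∈ ([] ++ rent x r w).head?
        rw [List.nil_append, hv']
        rfl
      have h2 := (h _ h1).resolve_left ht
      refine ⟨⟨[], t, v :: r, w⟩, ?_, rfl⟩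
      show rent t (v :: r) w = (v, t) :: rent x r w
      have h3 : x = Ty.U := h2
      rw [h3]
      rfl
    | a :: l =>
      have h1 : (a, Ty.D) ∈ (Seg.entries ⟨a :: l, x, r, w⟩).head? := rfl
      have h2 := (h _ h1).resolve_left ht
      cases h2

open Classical in
/-- The stretch is a union of segments. -/
theorem exists_segs (att : V → Prop) (w : V) (τ : Ty) : ∀ R : List (V × Ty),
    (∀ e e', [e, e'] <:+: R ++ [(w, τ)] → ¬ att e.1 → e.2 = Ty.D ∨ e'.2 = Ty.U) →
    ∃ segs : List (Seg V), segs ≠ [] ∧ segs.flatMap Seg.entries = R ++ [(w, τ)] ∧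
      segs.map Seg.w = (R.map Prod.fst).filter (fun v => att v) ++ [w] := by
  intro R
  induction R with
  | nil =>
    intro _
    exact ⟨[⟨[], τ, [], w⟩], by simp, rfl, rfl⟩
  | cons e R ih =>
    intro h
    obtain ⟨segs, h1, h2, h3⟩ := ih fun a b hab => h a b (hab.trans (List.suffix_cons e _).isInfix)
    obtain ⟨v, t⟩ := e
    by_cases hv : att v
    · refine ⟨⟨[], t, [], v⟩ :: segs, by simp, ?_, ?_⟩
      · rw [List.flatMap_cons, h2]
        rfl
      · rw [List.map_cons, h3, List.map_cons, List.filter_cons_of_pos (by simpa using hv)]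
        rfl
    · match segs, h1 with
      | sg :: rest, _ =>
        obtain ⟨sg', h4, h5⟩ := seg_prolong sg v t (by
          intro e he
          have h6 : [(v, t), e] <:+: (v, t) :: R ++ [(w, τ)] := by
            rw [List.cons_append, ← h2, List.flatMap_cons]
            obtain ⟨T, hT⟩ : ∃ T, sg.entries = e :: T := by
              match hh : sg.entries, he with
              | e' :: T, he =>
                simp only [List.head?_cons, Option.mem_def, Option.some.injEq] at he
                exact ⟨T, by rw [he]⟩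
            rw [hT]
            exact ⟨[], T ++ rest.flatMap Seg.entries, by simp⟩
          exact h _ _ h6 hv)
        refine ⟨sg' :: rest, by simp, ?_, ?_⟩
        · rw [List.flatMap_cons, h4, List.cons_append, ← List.flatMap_cons, h2]
          rfl
        · rw [List.map_cons, h5, ← List.map_cons, h3, List.map_cons,
            List.filter_cons_of_neg (by simpa using hv)]

end segs

section loc

variable {V : Type}

theorem pth_reverse (l : List V) (u v : V) : pth l.reverse u v = pth l u v := by
  match l with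
  | [] => rfl
  | [_] => rfl
  | a :: b :: l =>
    have e : (a :: b :: l).reverse = l.reverse ++ b :: [a] := by simp
    have e' : l.reverse ++ [b] = (b :: l).reverse := by simp
    rw [e, pth_append, e', pth_reverse (b :: l), pth_cons, pth_cons, pth_single, add_zero,
      ind_comm b a, add_comm]

theorem cyc_eq {a1 a2 : V} {zs T : List V} (h1 : zs = a1 :: T) (u v : V) :
    pth (a2 :: zs) u v = ind a2 a1 u v + pth zs u v := by
  rw [h1, pth_cons]

theorem cyc_rev {a1 a2 : V} {zs T T' : List V} (h1 : zs = a1 :: T) (h2 : zs = T' ++ [a2])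
    (u v : V) : pth (a1 :: zs.reverse) u v = pth (a2 :: zs) u v := by
  have e : a1 :: zs.reverse = (zs ++ [a1]).reverse := by simp
  rw [e, pth_reverse]
  have e2 : zs ++ [a1] = T' ++ a2 :: [a1] := by rw [h2]; simp
  rw [e2, pth_append, ← h2, pth_cons, pth_single, add_zero, cyc_eq (a2 := a2) h1]
  rw [add_comm]

/-- A contour with a distinguished stretch. -/
structure Str (G : SimpleGraph V) (a1 a2 : V) (A : List V) (w0 : V) (M : List V) (wq : V)
    (C : List V) : Prop where
  nodup : (A ++ w0 :: (M ++ wq :: C)).Nodup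
  chain : (A ++ w0 :: (M ++ wq :: C)).IsChain G.Adj
  head : ∃ T, A ++ w0 :: (M ++ wq :: C) = a1 :: T
  last : ∃ T, A ++ w0 :: (M ++ wq :: C) = T ++ [a2]
  adj : G.Adj a1 a2

variable {G : SimpleGraph V} {a1 a2 : V} {A : List V} {w0 : V} {M : List V} {wq : V}
    {C : List V}

theorem rev_eq (A : List V) (w0 : V) (M : List V) (wq : V) (C : List V) :
    (A ++ w0 :: (M ++ wq :: C)).reverse =
      C.reverse ++ wq :: (M.reverse ++ w0 :: A.reverse) := by
  simp

theorem Str.rev (h : Str G a1 a2 A w0 M wq C) :
    Str G a2 a1 C.reverse wq M.reverse w0 A.reverse where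
  nodup := by rw [← rev_eq]; exact List.nodup_reverse.2 h.nodup
  chain := by
    rw [← rev_eq, List.isChain_reverse]
    exact h.chain.imp fun a b hab => hab.symm
  head := by
    obtain ⟨T, hT⟩ := h.last
    exact ⟨T.reverse, by rw [← rev_eq, hT]; simp⟩
  last := by
    obtain ⟨T, hT⟩ := h.head
    exact ⟨T.reverse, by rw [← rev_eq, hT]; simp⟩
  adj := h.adj.symm

theorem Str.w0_ne (h : Str G a1 a2 A w0 M wq C) : w0 ≠ a2 := by
  obtain ⟨T, hT⟩ := h.last
  rintro rfl
  rcases List.eq_nil_or_concat C with hC | ⟨C', c, hC⟩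
  · have h1 : A ++ w0 :: M ++ [wq] = T ++ [w0] := by rw [← hT, hC]; simp
    have h2 := (List.append_inj' h1 rfl).2
    simp only [List.cons.injEq, and_true] at h2
    have := h.nodup
    rw [← h2] at this
    have h3 := (List.nodup_append.1 this).2.1
    exact (List.nodup_cons.1 h3).1 (by simp)
  · rw [List.concat_eq_append] at hC
    have h1 : A ++ w0 :: (M ++ wq :: C') ++ [c] = T ++ [w0] := by rw [← hT, hC]; simp
    have h2 := (List.append_inj' h1 rfl).2
    simp only [List.cons.injEq, and_true] at h2
    have := h.nodup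
    rw [hC, h2] at this
    have h3 := (List.nodup_append.1 this).2.1
    exact (List.nodup_cons.1 h3).1 (by simp)

theorem Str.wq_ne (h : Str G a1 a2 A w0 M wq C) : wq ≠ a1 := h.rev.w0_ne

theorem Str.a1_mem (h : Str G a1 a2 A w0 M wq C) : a1 ∈ A ++ w0 :: (M ++ wq :: C) := by
  obtain ⟨T, hT⟩ := h.head
  rw [hT]; simp

theorem Str.a2_mem (h : Str G a1 a2 A w0 M wq C) : a2 ∈ A ++ w0 :: (M ++ wq :: C) := by
  obtain ⟨T, hT⟩ := h.last
  rw [hT]; simp

theorem Str.a1_mem_left (h : Str G a1 a2 A w0 M wq C) : a1 ∈ A ++ [w0] := by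
  obtain ⟨T, hT⟩ := h.head
  cases A with
  | nil =>
    simp only [List.nil_append, List.cons.injEq] at hT
    simp [hT.1]
  | cons a A =>
    simp only [List.cons_append, List.cons.injEq] at hT
    simp [hT.1]

theorem Str.a2_mem_right (h : Str G a1 a2 A w0 M wq C) : a2 ∈ wq :: C := by
  have := h.rev.a1_mem_left
  simp only [List.mem_append, List.mem_reverse, List.mem_cons] at this ⊢
  tauto

open Classical in
/-- local structure at `w0` -/
theorem Str.loc0 (h : Str G a1 a2 A w0 M wq C) {X' : List V} {em g : V} {M' : List V}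
    (hel : a2 :: A = X' ++ [em]) (hg : M ++ [wq] = g :: M') (w : V) :
    pth (a2 :: (A ++ w0 :: (M ++ wq :: C))) w0 w =
      (if w = em then 1 else 0) + (if w = g then 1 else 0) := by
  have e1 : a2 :: (A ++ w0 :: (M ++ wq :: C)) = (a2 :: A) ++ w0 :: (M ++ wq :: C) := rfl
  have e2 : M ++ wq :: C = g :: (M' ++ C) := by
    have : M ++ wq :: C = M ++ [wq] ++ C := by simp
    rw [this, hg]
    rfl
  have h1 : w0 ∉ A := fun h1 => (List.nodup_append.1 h.nodup).2.2 w0 h1 w0 (by simp) rfl
  have h2 : w0 ∉ g :: (M' ++ C) := by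
    rw [← e2]
    exact (List.nodup_cons.1 (List.nodup_append.1 h.nodup).2.1).1
  have h3 : w0 ∉ X' ++ [em] := by
    rw [← hel]
    simp only [List.mem_cons, not_or]
    exact ⟨h.w0_ne, h1⟩
  rw [e1, pth_append, e2, pth_head h2, hel]
  have e3 : X' ++ [em] ++ [w0] = X' ++ [em, w0] := by simp
  rw [e3, pth_last h3]

theorem Str.em_ne_g (h : Str G a1 a2 A w0 M wq C) (hlen : A ≠ [] ∨ M ≠ [] ∨ C ≠ []) {X' : List V}
    {em g : V} {M' : List V} (hel : a2 :: A = X' ++ [em]) (hg : M ++ [wq] = g :: M') : em ≠ g := by
  rintro rfl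
  have hem : em ∈ M ++ [wq] := by rw [hg]; simp
  have hem2 : em ∈ w0 :: (M ++ wq :: C) := by
    simp only [List.mem_append, List.mem_cons] at hem ⊢
    tauto
  rcases List.eq_nil_or_concat A with hA | ⟨A', a, hA⟩
  · rw [hA] at hel
    have h1 : [] ++ [a2] = X' ++ [em] := hel
    have h2 := (List.append_inj' h1 rfl).2
    simp only [List.cons.injEq, and_true] at h2
    subst h2
    have h3 : a2 ∈ wq :: C := h.a2_mem_right
    have h4 := h.nodup
    rw [hA, List.nil_append, List.nodup_cons] at h4
    rcases List.mem_append.1 hem with h5 | h5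
    · exact (List.nodup_append.1 h4.2).2.2 a2 h5 a2 h3 rfl
    · simp only [List.mem_singleton] at h5
      have hM : M = [] := by
        cases M with
        | nil => rfl
        | cons m M =>
          simp only [List.cons_append, List.cons.injEq] at hg
          exfalso
          have h6 := (List.nodup_append.1 h4.2).2.2 m (by simp) a2 h3
          exact h6 hg.1
      have hC : C = [] := by
        obtain ⟨T, hT⟩ := h.last
        rcases List.eq_nil_or_concat C with hC | ⟨C', c, hC⟩
        · exact hC
        · exfalso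
          rw [List.concat_eq_append] at hC
          have h1 : A ++ w0 :: (M ++ wq :: C') ++ [c] = T ++ [a2] := by rw [← hT, hC]; simp
          have h2 := (List.append_inj' h1 rfl).2
          simp only [List.cons.injEq, and_true] at h2
          have h7 := (List.nodup_cons.1 (List.nodup_append.1 h4.2).2.1).1
          rw [hC] at h7
          apply h7
          rw [← h5, h2]
          simp
      rcases hlen with h6 | h6 | h6
      · exact h6 hA
      · exact h6 hM
      · exact h6 hC
  · rw [List.concat_eq_append] at hA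
    have h1 : a2 :: A' ++ [a] = X' ++ [em] := by rw [← hel, hA]; rfl
    have h2 := (List.append_inj' h1 rfl).2
    simp only [List.cons.injEq, and_true] at h2
    subst h2
    exact (List.nodup_append.1 h.nodup).2.2 a (by rw [hA]; simp) a hem2 rfl

end loc

end Pool.Agent.Run7.h215
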