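import Pool.Agent.Run7.h215.T5c

/-!
T5, part d: the parity argument at one end of the stretch.
-/

set_option autoImplicit false

namespace Pool.Agent.Run7.h215

open List

section strc

variable {V : Type} {G : SimpleGraph V} {a1 a2 : V} {A : List V} {w0 : V} {M : List V} {wq : V}
    {C : List V} {P : List V}

theorem Str.chain_mid (h : Str G a1 a2 A w0 M wq C) : (w0 :: (M ++ [wq])).IsChain G.Adj := by
  have h1 : (w0 :: (M ++ [wq])) <:+: A ++ w0 :: (M ++ wq :: C) := ⟨A, C, by simp⟩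
  exact chain_sub h.chain h1

theorem Str.cyc [Fintype V] (h : Str G a1 a2 A w0 M wq C) :
    IsCyc G (pth (a2 :: (A ++ w0 :: (M ++ wq :: C)))) := by
  refine isCyc_closed ?_ ?_
  · obtain ⟨T, hT⟩ := h.head
    have := h.chain
    rw [hT] at this ⊢
    exact List.isChain_cons_cons.2 ⟨h.adj.symm, this⟩
  · obtain ⟨T, hT⟩ := h.last
    simp only [hT, List.getLast_cons (List.append_ne_nil_of_right_ne_nil T
      (List.cons_ne_nil a2 [])), List.getLast_append_singleton]

theorem Str.cyc_diff [Fintype V] (h : Str G a1 a2 A w0 M wq C) (h' : Str G a1 a2 A w0 P wq C) :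
    IsCyc G (fun u v => pth (w0 :: (M ++ [wq])) u v + pth (w0 :: (P ++ [wq])) u v) := by
  refine isCyc_two h.chain_mid h'.chain_mid ?_
  have : ∀ L : List V, (w0 :: (L ++ [wq])).getLast (by simp) = wq := by
    intro L
    rw [List.getLast_cons (by simp), List.getLast_append_singleton]
  rw [this, this]

theorem pth_stretch (a2 : V) (A : List V) (w0 : V) (M : List V) (wq : V) (C : List V) (u v : V) :
    pth (a2 :: (A ++ w0 :: (M ++ wq :: C))) u v =
      pth (a2 :: (A ++ [w0])) u v + pth (w0 :: (M ++ [wq])) u v + pth (wq :: C) u v := by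
  have e1 : a2 :: (A ++ w0 :: (M ++ wq :: C)) = (a2 :: A) ++ w0 :: (M ++ wq :: C) := rfl
  have e2 : w0 :: (M ++ wq :: C) = (w0 :: M) ++ wq :: C := rfl
  rw [e1, pth_append, e2, pth_append (w0 :: M) wq C, ← add_assoc]
  rfl

theorem cyc_step (a2 : V) (A : List V) (w0 : V) (M : List V) (wq : V) (C P : List V) :
    pth (a2 :: (A ++ w0 :: (P ++ wq :: C))) =
      fun u v => pth (a2 :: (A ++ w0 :: (M ++ wq :: C))) u v +
        (pth (w0 :: (M ++ [wq])) u v + pth (w0 :: (P ++ [wq])) u v) := by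
  funext u v
  rw [pth_stretch, pth_stretch]
  have h : pth (w0 :: (M ++ [wq])) u v + pth (w0 :: (M ++ [wq])) u v = 0 :=
    CharTwo.add_self_eq_zero _
  linear_combination -h

end strc

section endl

variable {V : Type} [Fintype V] {G : SimpleGraph V} {s : (V → V → ZMod 2) → V → V → ZMod 2}
  (hs : Sys G s) {a1 a2 : V} {A : List V} {w0 : V} {M : List V} {wq : V}
    {C : List V} {P : List V}

include hs

open Classical in
/-- The parity argument at the left end of the stretch. -/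
theorem end_lemma (st : Str G a1 a2 A w0 M wq C) (st' : Str G a1 a2 A w0 P wq C)
    (hlen : A ≠ [] ∨ M ≠ [] ∨ C ≠ []) (hP : P ≠ [])
    (hdisj : ∀ v ∈ P, v ∉ A ++ w0 :: (M ++ wq :: C)) {cZ cP cZ' : V → V → ZMod 2}
    (hcZ : cZ = pth (a2 :: (A ++ w0 :: (M ++ wq :: C))))
    (hcP : cP = fun u v => pth (w0 :: (M ++ [wq])) u v + pth (w0 :: (P ++ [wq])) u v)
    (hcZ' : cZ' = pth (a2 :: (A ++ w0 :: (P ++ wq :: C))))
    (hb1 : s cP a1 a2 = 0) (hb2 : s cP a2 a1 = 0)
    (hf : ∀ f ∈ P.head?, s cZ w0 f = 0) :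
    (∀ v ∈ A, ∀ w, G.Adj v w → s cP v w = 0) ∧
    (∀ v ∈ M, ∀ w, G.Adj v w → s cZ' v w = 1) ∧
    (∀ w, G.Adj w0 w → cZ' w0 w = 0 → w ∉ P → (cZ w0 w = 0 → s cZ w0 w = 1) →
      s cZ' w0 w = 1) := by
  have hcycZ : IsCyc G cZ := by rw [hcZ]; exact st.cyc
  have hcycP : IsCyc G cP := by rw [hcP]; exact st.cyc_diff st'
  have hcycZ' : IsCyc G cZ' := by rw [hcZ']; exact st'.cyc
  have hsum : cZ' = fun u v => cZ u v + cP u v := by
    rw [hcZ', hcZ, hcP]
    exact cyc_step a2 A w0 M wq C P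
  have hsZ' : ∀ u v, G.Adj u v → s cZ' u v = s cZ u v + s cP u v := by
    intro u v huv
    rw [hsum]
    exact hs.add cZ cP hcycZ hcycP u v huv
  -- nodup facts
  have hnd := st.nodup
  have hnd' := st'.nodup
  have nA : ∀ v ∈ A, v ≠ w0 ∧ v ∉ M ∧ v ≠ wq ∧ v ∉ C := by
    intro v hv
    have h1 := (List.nodup_append.1 hnd).2.2 v hv
    refine ⟨h1 w0 (by simp), fun h2 => h1 v (by simp [h2]) rfl, h1 wq (by simp),
      fun h2 => h1 v (by simp [h2]) rfl⟩
  have nP : ∀ v ∈ P, v ∉ A ∧ v ≠ w0 ∧ v ∉ M ∧ v ≠ wq ∧ v ∉ C := by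
    intro v hv
    have := hdisj v hv
    simp only [List.mem_append, List.mem_cons, not_or] at this
    exact ⟨this.1, this.2.1, this.2.2.1, this.2.2.2.1, this.2.2.2.2⟩
  have hnd2 := (List.nodup_append.1 hnd).2.1
  have hnd3 := (List.nodup_cons.1 hnd2)
  have nw0 : w0 ∉ M ∧ w0 ≠ wq ∧ w0 ∉ C := by
    have := hnd3.1
    simp only [List.mem_append, List.mem_cons, not_or] at this
    exact this
  -- the neighbours
  obtain ⟨X', em, hel⟩ : ∃ X' em, a2 :: A = X' ++ [em] := by
    rcases List.eq_nil_or_concat (a2 :: A) with h | ⟨X, e, h⟩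
    · simp at h
    · exact ⟨X, e, by rw [h, List.concat_eq_append]⟩
  obtain ⟨g, M', hg⟩ : ∃ g M', M ++ [wq] = g :: M' := by
    cases M with
    | nil => exact ⟨wq, [], rfl⟩
    | cons m M => exact ⟨m, M ++ [wq], rfl⟩
  obtain ⟨f, P', hf'⟩ : ∃ f P', P = f :: P' := by
    cases P with
    | nil => exact absurd rfl hP
    | cons f P' => exact ⟨f, P', rfl⟩
  have hfP : f ∈ P := by rw [hf']; simp
  have hlZ := st.loc0 hel hg
  have hlZ' := st'.loc0 hel (M' := P' ++ [wq]) (by rw [hf']; rfl : P ++ [wq] = f :: (P' ++ [wq]))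
  rw [← hcZ] at hlZ
  rw [← hcZ'] at hlZ'
  have hlP : ∀ w, cP w0 w = (if w = g then 1 else 0) + (if w = f then 1 else 0) := by
    intro w
    rw [hcP]
    show pth (w0 :: (M ++ [wq])) w0 w + pth (w0 :: (P ++ [wq])) w0 w = _
    have h1 : w0 ∉ g :: M' := by
      rw [← hg]
      simp only [List.mem_append, List.mem_cons, List.not_mem_nil, or_false, not_or]
      exact ⟨nw0.1, nw0.2.1⟩
    have h2 : w0 ∉ f :: (P' ++ [wq]) := by
      have : f :: (P' ++ [wq]) = P ++ [wq] := by rw [hf']; rfl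
      rw [this]
      simp only [List.mem_append, List.mem_cons, List.not_mem_nil, or_false, not_or]
      exact ⟨fun h => (nP w0 h).2.1 rfl, nw0.2.1⟩
    rw [hg, pth_head h1, hf', List.cons_append, pth_head h2]
  have hem_g : em ≠ g := st.em_ne_g hlen hel hg
  have hemA : em = a2 ∨ em ∈ A := by
    have : em ∈ a2 :: A := by rw [hel]; simp
    simpa using this
  have hgM : g ∈ M ∨ g = wq := by
    have : g ∈ M ++ [wq] := by rw [hg]; simp
    simpa using this
  have ha2P : a2 ∉ P := fun h => hdisj a2 h st.a2_mem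
  have hem_f : em ≠ f := by
    rintro rfl
    rcases hemA with h | h
    · exact ha2P (h ▸ hfP)
    · exact (nP _ hfP).1 h
  have hg_f : g ≠ f := by
    rintro rfl
    rcases hgM with h | h
    · exact (nP _ hfP).2.2.1 h
    · exact (nP _ hfP).2.2.2.1 h
  have adjg : G.Adj w0 g := by
    refine infix_chain st.chain_mid ?_
    rw [hg]
    exact ⟨[], M', rfl⟩
  have adjf : G.Adj w0 f := by
    refine infix_chain st'.chain_mid ?_
    rw [hf']
    exact ⟨[], P' ++ [wq], rfl⟩
  have hch2 : (a2 :: (A ++ [w0])).IsChain G.Adj := by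
    obtain ⟨T, hT⟩ := st.head
    have h0 : (a2 :: (A ++ w0 :: (M ++ wq :: C))).IsChain G.Adj := by
      rw [hT]
      refine List.isChain_cons_cons.2 ⟨st.adj.symm, ?_⟩
      rw [← hT]
      exact st.chain
    refine chain_sub h0 ⟨[], M ++ wq :: C, by simp⟩
  have hinf : [em, w0] <:+: a2 :: (A ++ [w0]) := by
    have : a2 :: (A ++ [w0]) = X' ++ [em] ++ [w0] := by rw [← hel]; rfl
    rw [this]
    exact ⟨X', [], by simp⟩
  have adje : G.Adj w0 em := (infix_chain hch2 hinf).symm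
  -- (2)
  obtain ⟨L, hL⟩ : ∃ L, A ++ [w0] = a1 :: L := by
    obtain ⟨T, hT⟩ := st.head
    cases A with
    | nil =>
      simp only [List.nil_append, List.cons.injEq] at hT
      exact ⟨[], by rw [hT.1]; rfl⟩
    | cons a A =>
      simp only [List.cons_append, List.cons.injEq] at hT
      exact ⟨A ++ [w0], by rw [← hT.1]; rfl⟩
  have hdl : (a1 :: L).dropLast = A := by rw [← hL]; simp
  have hz1 : ∀ v ∈ A, ∀ w, cP v w = 0 := by
    intro v hv w
    have h1 := nA v hv
    rw [hcP]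
    show pth (w0 :: (M ++ [wq])) v w + pth (w0 :: (P ++ [wq])) v w = 0
    rw [pth_zero_left, pth_zero_left, add_zero]
    · simp only [List.mem_cons, List.mem_append, List.not_mem_nil, or_false, not_or]
      exact ⟨h1.1, fun h => (nP v h).1 hv, h1.2.2.1⟩
    · simp only [List.mem_cons, List.mem_append, List.not_mem_nil, or_false, not_or]
      exact ⟨h1.1, h1.2.1, h1.2.2.1⟩
  have hp1 := prop_path hs hcycP 0 L a2 a1 (by rw [← hL]; exact hch2)
    (by rw [hdl]; exact hz1) hb2 hb1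
  rw [hdl, ← hL] at hp1
  have hse : s cP w0 em = 0 := (hp1.2 em w0 hinf).2
  -- rotation
  obtain ⟨r1, r2⟩ := rotE hs hcycZ hcycP adje adjg adjf hem_g hem_f hg_f hlZ hlP
    (hf f (by rw [hf']; rfl)) hse
  have hZg : s cZ' w0 g = 1 := by rw [hsZ' w0 g adjg, r1]
  have hZg0 : cZ' w0 g = 0 := by
    rw [hlZ', if_neg hem_g.symm, if_neg hg_f, add_zero]
  have hZg' : s cZ' g w0 = 1 := by rw [flip_eq hs hcycZ' adjg hZg0, hZg]
  refine ⟨hp1.1, ?_, ?_⟩
  · have hdl2 : (g :: M').dropLast = M := by rw [← hg]; simp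
    have hz2 : ∀ v ∈ M, ∀ w, cZ' v w = 0 := by
      intro v hv w
      rw [hcZ']
      apply pth_zero_left
      have hvP : v ∉ P := fun h => (nP v h).2.2.1 hv
      have h1 : v ∉ A := fun h => (nA v h).2.1 hv
      have h2 : v ≠ w0 := by rintro rfl; exact nw0.1 hv
      have h3 : v ≠ wq ∧ v ∉ C := by
        have := (List.nodup_append.1 hnd3.2).2.2 v hv
        exact ⟨this wq (by simp), fun h => this v (by simp [h]) rfl⟩
      have h4 : v ∉ A ++ w0 :: (P ++ wq :: C) := by
        simp only [List.mem_append, List.mem_cons, not_or]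
        exact ⟨h1, h2, hvP, h3.1, h3.2⟩
      intro h5
      rcases List.mem_cons.1 h5 with h6 | h6
      · rw [h6] at h4
        exact h4 st'.a2_mem
      · exact h4 h6
    have hp2 := prop_path hs hcycZ' 1 M' w0 g (by rw [← hg]; exact st.chain_mid)
      (by rw [hdl2]; exact hz2) hZg hZg'
    rw [hdl2] at hp2
    exact hp2.1
  · intro w hw hw0 hwP hwd
    by_cases hwg : w = g
    · rw [hwg]; exact hZg
    · have hwf : w ≠ f := by rintro rfl; exact hwP hfP
      have hwe : w ≠ em := by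
        rintro rfl
        rw [hlZ', if_pos rfl, if_neg hwf] at hw0
        simp at hw0
      have h1 : cZ w0 w = 0 := by rw [hlZ, if_neg hwe, if_neg hwg, add_zero]
      rw [hsZ' w0 w hw, hwd h1, r2 w hw hwe hwg hwf (hwd h1), add_zero]

end endl

end Pool.Agent.Run7.h215
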