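import Pool.Agent.Run7.h215.T5d

/-!
T5, part e: the parity facts of a step; the edges of the new faces.
-/

set_option autoImplicit false

namespace Pool.Agent.Run7.h215

open List

section base

variable {V : Type}

theorem base_not_infix {a1 a2 : V} {zs T T' : List V} (hnd : zs.Nodup) (h1 : zs = a1 :: T)
    (h2 : zs = T' ++ [a2]) (h3 : 3 ≤ zs.length) : ¬ [a1, a2] <:+: zs ∧ ¬ [a2, a1] <:+: zs := by
  constructor
  · rintro ⟨X, Y, h⟩
    have e : X ++ [a1, a2] ++ Y = X ++ a1 :: (a2 :: Y) := by simp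
    rw [e] at h
    cases X with
    | nil =>
      rcases List.eq_nil_or_concat Y with hY | ⟨Y', y, hY⟩
      · rw [← h, hY] at h3
        simp at h3
      · rw [List.concat_eq_append] at hY
        rw [hY] at h
        have h4 : a1 :: a2 :: Y' ++ [y] = T' ++ [a2] := by rw [← h2, ← h]; rfl
        have h5 := (List.append_inj' h4 rfl).2
        simp only [List.cons.injEq, and_true] at h5
        rw [← h, h5] at hnd
        simp at hnd
    | cons x X =>
      rw [h1] at h
      simp only [List.cons_append, List.cons.injEq] at h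
      rw [h1, ← h.2] at hnd
      exact (List.nodup_cons.1 hnd).1 (by simp)
  · rintro ⟨X, Y, h⟩
    have e : X ++ [a2, a1] ++ Y = X ++ a2 :: (a1 :: Y) := by simp
    rw [e] at h
    cases X with
    | nil =>
      rw [h1] at h
      simp only [List.nil_append, List.cons.injEq] at h
      rw [h1, ← h.2] at hnd
      exact (List.nodup_cons.1 hnd).1 (by simp)
    | cons x X =>
      rw [h1] at h
      simp only [List.cons_append, List.cons.injEq] at h
      rw [h1, ← h.2] at hnd
      exact (List.nodup_cons.1 hnd).1 (by simp)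

/-- consecutive vertices of the contour -/
theorem cyc_one {a1 a2 : V} {zs T T' : List V} (hnd : zs.Nodup) (h1 : zs = a1 :: T)
    (h2 : zs = T' ++ [a2]) (h3 : 3 ≤ zs.length) {u v : V} (huv : [u, v] <:+: zs) :
    pth (a2 :: zs) u v = 1 ∧ pth (a2 :: zs) v u = 1 := by
  have h4 : pth (a2 :: zs) u v = 1 := by
    rw [cyc_eq h1, pth_infix hnd huv]
    have hb := base_not_infix hnd h1 h2 h3
    unfold ind
    rw [if_neg, zero_add]
    rintro (⟨rfl, rfl⟩ | ⟨rfl, rfl⟩)
    · exact hb.2 huv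
    · exact hb.1 huv
  exact ⟨h4, by rw [pth_symm]; exact h4⟩

end base

section par

variable {V : Type} [Fintype V] {G : SimpleGraph V} {s : (V → V → ZMod 2) → V → V → ZMod 2}
  (hs : Sys G s) {a1 a2 : V} {A : List V} {w0 : V} {M : List V} {wq : V}
    {C : List V} {P : List V}

omit [Fintype V] in
theorem Str.len3 (_st : Str G a1 a2 A w0 M wq C) (hlen : A ≠ [] ∨ M ≠ [] ∨ C ≠ []) :
    3 ≤ (A ++ w0 :: (M ++ wq :: C)).length := by
  simp only [List.length_append, List.length_cons]
  rcases hlen with h | h | h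
  · have := List.length_pos_iff.2 h
    omega
  · have := List.length_pos_iff.2 h
    omega
  · have := List.length_pos_iff.2 h
    omega

omit [Fintype V] in
theorem Str.base0 (st : Str G a1 a2 A w0 M wq C) (hlen : A ≠ [] ∨ M ≠ [] ∨ C ≠ []) :
    pth (w0 :: (M ++ [wq])) a1 a2 = 0 := by
  by_contra h
  obtain ⟨T, hT⟩ := st.head
  obtain ⟨T', hT'⟩ := st.last
  have hb := base_not_infix st.nodup hT hT' (st.len3 hlen)
  have h1 : (w0 :: (M ++ [wq])) <:+: A ++ w0 :: (M ++ wq :: C) := ⟨A, C, by simp⟩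
  rcases pth_ne_zero h with h2 | h2
  · exact hb.1 (h2.trans h1)
  · exact hb.2 (h2.trans h1)

include hs

open Classical in
/-- The parity facts of a step. -/
theorem step_par (st : Str G a1 a2 A w0 M wq C) (st' : Str G a1 a2 A w0 P wq C)
    (hlen : A ≠ [] ∨ M ≠ [] ∨ C ≠ []) (hP : P ≠ [])
    (hdisj : ∀ v ∈ P, v ∉ A ++ w0 :: (M ++ wq :: C)) {cZ cP cZ' : V → V → ZMod 2}
    (hcZ : cZ = pth (a2 :: (A ++ w0 :: (M ++ wq :: C))))
    (hcP : cP = fun u v => pth (w0 :: (M ++ [wq])) u v + pth (w0 :: (P ++ [wq])) u v)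
    (hcZ' : cZ' = pth (a2 :: (A ++ w0 :: (P ++ wq :: C))))
    (hb2 : s cP a2 a1 = 0)
    (hf : ∀ f ∈ P.head?, s cZ w0 f = 0) (hf' : ∀ f ∈ P.getLast?, s cZ wq f = 0) :
    (∀ v, v ∈ A ∨ v ∈ C → ∀ w, G.Adj v w → s cP v w = 0) ∧
    (∀ v ∈ M, ∀ w, G.Adj v w → s cZ' v w = 1) ∧
    (∀ z, z = w0 ∨ z = wq → ∀ w, G.Adj z w → cZ' z w = 0 → w ∉ P →
      (cZ z w = 0 → s cZ z w = 1) → s cZ' z w = 1) := by
  have hcycP : IsCyc G cP := by rw [hcP]; exact st.cyc_diff st'
  have hb1 : s cP a1 a2 = 0 := by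
    rw [← hb2]
    have h0 : cP a2 a1 = 0 := by
      rw [hcycP.symm, hcP]
      show pth (w0 :: (M ++ [wq])) a1 a2 + pth (w0 :: (P ++ [wq])) a1 a2 = 0
      rw [st.base0 hlen, st'.base0 (Or.inr (Or.inl hP)), add_zero]
    exact flip_eq hs hcycP st.adj.symm h0
  obtain ⟨T, hT⟩ := st.head
  obtain ⟨T', hT'⟩ := st.last
  obtain ⟨U, hU⟩ := st'.head
  obtain ⟨U', hU'⟩ := st'.last
  have e1 := end_lemma hs st st' hlen hP hdisj hcZ hcP hcZ' hb1 hb2 hf
  have hcZr : cZ = pth (a1 :: (C.reverse ++ wq :: (M.reverse ++ w0 :: A.reverse))) := by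
    rw [← rev_eq]
    funext u v
    rw [hcZ, cyc_rev hT hT']
  have hcZr' : cZ' = pth (a1 :: (C.reverse ++ wq :: (P.reverse ++ w0 :: A.reverse))) := by
    rw [← rev_eq]
    funext u v
    rw [hcZ', cyc_rev hU hU']
  have hcPr : cP = fun u v => pth (wq :: (M.reverse ++ [w0])) u v +
      pth (wq :: (P.reverse ++ [w0])) u v := by
    have hrev : ∀ L : List V, wq :: (L.reverse ++ [w0]) = (w0 :: (L ++ [wq])).reverse := by
      intro L; simp
    funext u v
    rw [hcP, hrev, hrev, pth_reverse, pth_reverse]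
  have e2 := end_lemma hs st.rev st'.rev (by
      rcases hlen with h | h | h
      · exact Or.inr (Or.inr (by simpa using h))
      · exact Or.inr (Or.inl (by simpa using h))
      · exact Or.inl (by simpa using h))
    (by simpa using hP) (by
      intro v hv h
      rw [List.mem_reverse] at hv
      rw [← rev_eq, List.mem_reverse] at h
      exact hdisj v hv h) hcZr hcPr hcZr' hb2 hb1 (by
        intro f hf1
        rw [List.head?_reverse] at hf1
        exact hf' f hf1)
  refine ⟨?_, e1.2.1, ?_⟩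
  · rintro v (hv | hv) w hw
    · exact e1.1 v hv w hw
    · exact e2.1 v (List.mem_reverse.2 hv) w hw
  · rintro z (rfl | rfl) w hw h0 hwP hd
    · exact e1.2.2 w hw h0 hwP hd
    · exact e2.2.2 w hw h0 (by rwa [List.mem_reverse]) hd

end par

section newE

variable {V : Type}

/-- the edges of the new faces -/
def NE (P : List V) (b : Bool) (w : V) (segs : List (Seg V)) (u v : V) : Prop :=
  ∃ f ∈ newFaces P b w segs, [u, v] <:+: f.wl :: (f.top ++ [f.wr])

theorem pair_three {u v a b c : V} :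
    [u, v] <:+: [a, b, c] ↔ (u = a ∧ v = b) ∨ (u = b ∧ v = c) := by
  simp [List.infix_cons_iff, List.cons_prefix_cons]

theorem NE_cons {P : List V} {b : Bool} {w : V} {sg : Seg V} {segs : List (Seg V)} {u v : V} :
    NE P b w (sg :: segs) u v ↔ [u, v] <:+: w :: (P ++ [sg.w]) ∨ NE P false sg.w segs u v := by
  unfold NE
  rw [newFaces_cons]
  simp only [List.mem_cons, exists_eq_or_imp]

theorem NE_nil {P : List V} {b : Bool} {w : V} {u v : V} : ¬ NE P b w [] u v := by
  rintro ⟨f, hf, -⟩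
  simp at hf

theorem NE_single (y : V) (u v : V) : ∀ (segs : List (Seg V)) (b : Bool) (w : V), segs ≠ [] →
    (NE [y] b w segs u v ∨ NE [y] b w segs v u ↔
      (u = y ∧ v ∈ w :: segs.map Seg.w) ∨ (v = y ∧ u ∈ w :: segs.map Seg.w)) := by
  intro segs
  induction segs with
  | nil => intro b w h; exact absurd rfl h
  | cons sg rest ih =>
    intro b w _
    rw [NE_cons, NE_cons]
    simp only [List.cons_append, List.nil_append, pair_three]
    by_cases hr : rest = []
    · subst hr
      have h1 : ∀ a b, ¬ NE [y] false sg.w [] a b := fun a b => NE_nil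
      simp only [h1, or_false, List.map_cons, List.map_nil, List.mem_cons, List.not_mem_nil]
      tauto
    · have h2 := ih false sg.w hr
      simp only [List.map_cons, List.mem_cons] at h2 ⊢
      tauto

open Classical in
theorem newE {G : SimpleGraph V} {P M : List V} {w0 wq : V} {segs : List (Seg V)}
    (hlen : P.length = 1 ∨ ∀ v ∈ P, ∀ u ∈ M, ¬ G.Adj v u) (hsegs : segs ≠ []) {att : V → Prop}
    (hatt : ∀ v, att v ↔ ∃ y ∈ P, G.Adj y v)
    (hw : segs.map Seg.w = M.filter (fun v => att v) ++ [wq]) (u v : V) :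
    NE P true w0 segs u v ∨ NE P true w0 segs v u ↔
      ([u, v] <:+: w0 :: (P ++ [wq]) ∨ [v, u] <:+: w0 :: (P ++ [wq])) ∨
      (u ∈ P ∧ v ∈ M ∧ G.Adj u v) ∨ (v ∈ P ∧ u ∈ M ∧ G.Adj v u) := by
  by_cases hP1 : P.length = 1
  · obtain ⟨y, rfl⟩ := List.length_eq_one_iff.1 hP1
    rw [NE_single y u v segs true w0 hsegs, hw]
    simp only [List.mem_cons, List.mem_append, List.mem_filter, List.not_mem_nil, or_false,
      exists_eq_left, decide_eq_true_eq, List.cons_append, List.nil_append, pair_three, hatt]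
    constructor
    · rintro (⟨rfl, h⟩ | ⟨rfl, h⟩)
      · rcases h with h | ⟨h1, h2⟩ | h
        · exact Or.inl (Or.inr (Or.inl ⟨h, rfl⟩))
        · exact Or.inr (Or.inl ⟨rfl, h1, h2⟩)
        · exact Or.inl (Or.inl (Or.inr ⟨rfl, h⟩))
      · rcases h with h | ⟨h1, h2⟩ | h
        · exact Or.inl (Or.inl (Or.inl ⟨h, rfl⟩))
        · exact Or.inr (Or.inr ⟨rfl, h1, h2⟩)
        · exact Or.inl (Or.inr (Or.inr ⟨rfl, h⟩))
    · rintro (((⟨h1, h2⟩ | ⟨h1, h2⟩) | (⟨h1, h2⟩ | ⟨h1, h2⟩)) | ⟨h1, h2, h3⟩ | ⟨h1, h2, h3⟩)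
      · exact Or.inr ⟨h2, Or.inl h1⟩
      · exact Or.inl ⟨h1, Or.inr (Or.inr h2)⟩
      · exact Or.inl ⟨h2, Or.inl h1⟩
      · exact Or.inr ⟨h1, Or.inr (Or.inr h2)⟩
      · subst h1
        exact Or.inl ⟨rfl, Or.inr (Or.inl ⟨h2, h3⟩)⟩
      · subst h1
        exact Or.inr ⟨rfl, Or.inr (Or.inl ⟨h2, h3⟩)⟩
  · have hlen' := hlen.resolve_left hP1
    have hfil : M.filter (fun v => decide (att v)) = [] := by
      rw [List.filter_eq_nil_iff]
      intro m hm
      simp only [decide_eq_true_eq, hatt]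
      rintro ⟨y, hy, hym⟩
      exact hlen' y hy m hm hym
    rw [hfil, List.nil_append] at hw
    obtain ⟨sg, rfl⟩ : ∃ sg, segs = [sg] := by
      have : segs.length = 1 := by
        have := congrArg List.length hw
        simpa using this
      exact List.length_eq_one_iff.1 this
    simp only [List.map_cons, List.map_nil, List.cons.injEq, and_true] at hw
    have h1 : ∀ x a b, ¬ NE P false x [] a b := fun x a b => NE_nil
    simp only [NE_cons, h1, or_false, hw]
    constructor
    · exact Or.inl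
    · rintro (h | ⟨h2, h3, h4⟩ | ⟨h2, h3, h4⟩)
      · exact h
      · exact absurd h4 (hlen' _ h2 _ h3)
      · exact absurd h4 (hlen' _ h2 _ h3)

end newE

end Pool.Agent.Run7.h215
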