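import Pool.Agent.Run7.h215.T5e

/-!
T5, part f: the invariant and the step.
-/

set_option autoImplicit false

namespace Pool.Agent.Run7.h215

open List

section replace

variable {V : Type} {G : SimpleGraph V} {a1 a2 : V} {A : List V} {w0 : V} {M : List V} {wq : V}
    {C : List V} {P : List V}

theorem Str.replace (st : Str G a1 a2 A w0 M wq C) (hPnd : P.Nodup)
    (hdisj : ∀ v ∈ P, v ∉ A ++ w0 :: (M ++ wq :: C))
    (hch : (w0 :: (P ++ [wq])).IsChain G.Adj) : Str G a1 a2 A w0 P wq C where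
  adj := st.adj
  nodup := by
    have ih := st.nodup
    have hP := hdisj
    simp only [List.nodup_append, List.nodup_cons, List.mem_append, List.mem_cons,
      not_or] at ih hP ⊢
    obtain ⟨i1, ⟨⟨i2, i3, i4⟩, i5, ⟨i6, i7⟩, i8⟩, i9⟩ := ih
    refine ⟨i1, ⟨⟨fun h => (hP _ h).2.1 rfl, i3, i4⟩, hPnd, ⟨i6, i7⟩, ?_⟩, ?_⟩
    · rintro v hv w (rfl | hw) rfl
      · exact (hP _ hv).2.2.2.1 rfl
      · exact (hP _ hv).2.2.2.2 hw
    · rintro v hv w (rfl | hw | rfl | hw) rfl
      · exact i9 _ hv _ (Or.inl rfl) rfl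
      · exact (hP _ hw).1 hv
      · exact i9 _ hv _ (Or.inr (Or.inr (Or.inl rfl))) rfl
      · exact i9 _ hv _ (Or.inr (Or.inr (Or.inr hw))) rfl
  chain := by
    have h := st.chain
    have e1 : w0 :: (M ++ wq :: C) = (w0 :: M) ++ wq :: C := rfl
    have e2 : w0 :: (P ++ wq :: C) = (w0 :: P) ++ wq :: C := rfl
    rw [List.isChain_split, e1] at h
    rw [List.isChain_split, e2]
    exact ⟨h.1, List.isChain_split.2 ⟨hch, (List.isChain_split.1 h.2).2⟩⟩
  head := by
    obtain ⟨T, hT⟩ := st.head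
    cases A with
    | nil =>
      simp only [List.nil_append, List.cons.injEq] at hT
      exact ⟨P ++ wq :: C, by rw [hT.1]; rfl⟩
    | cons a A =>
      simp only [List.cons_append, List.cons.injEq] at hT
      exact ⟨A ++ w0 :: (P ++ wq :: C), by rw [hT.1]; rfl⟩
  last := by
    obtain ⟨T, hT⟩ := st.last
    rcases List.eq_nil_or_concat C with hC | ⟨C', c, hC⟩
    · have h1 : A ++ w0 :: M ++ [wq] = T ++ [a2] := by rw [← hT, hC]; simp
      have h2 := (List.append_inj' h1 rfl).2
      simp only [List.cons.injEq, and_true] at h2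
      exact ⟨A ++ w0 :: P, by rw [hC, h2]; simp⟩
    · rw [List.concat_eq_append] at hC
      have h1 : A ++ w0 :: (M ++ wq :: C') ++ [c] = T ++ [a2] := by rw [← hT, hC]; simp
      have h2 := (List.append_inj' h1 rfl).2
      simp only [List.cons.injEq, and_true] at h2
      exact ⟨A ++ w0 :: (P ++ wq :: C'), by rw [hC, h2]; simp⟩

end replace

/-- The invariant. -/
structure Inv {V : Type} (G : SimpleGraph V)
    (s : (V → V → ZMod 2) → V → V → ZMod 2) (a1 a2 a3 : V) (F : List (Face V))
    (Z : List (V × Ty)) : Prop where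
  cb : CB a1 a2 F Z
  adj : G.Adj a1 a2
  chain : (Z.map Prod.fst).IsChain G.Adj
  bends : ∀ u v, BEdge a1 a2 F u v → BVert a1 a2 F u ∧ BVert a1 a2 F v
  bedge : ∀ u v, BVert a1 a2 F u → BVert a1 a2 F v →
    (G.Adj u v ↔ BEdge a1 a2 F u v ∨ BEdge a1 a2 F v u)
  lastD : 3 ≤ Z.length → ∀ e ∈ Z.getLast?, e.2 = Ty.D
  two : Z.length ≤ 2 → ∀ v, BVert a1 a2 F v → v = a1 ∨ v = a2
  b : ∀ v, BVert a1 a2 F v → v ∉ Z.map Prod.fst → ∀ u, ¬ BVert a1 a2 F u → ¬ G.Adj v u
  c : ∀ u, ¬ BVert a1 a2 F u → ∀ w, G.Adj u w → s (pth (a2 :: Z.map Prod.fst)) u w = 0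
  d : ∀ z ∈ Z.map Prod.fst, ∀ w, BVert a1 a2 F w → G.Adj z w →
    pth (a2 :: Z.map Prod.fst) z w = 0 → ¬ (z = a1 ∧ w = a2) → ¬ (z = a2 ∧ w = a1) →
    s (pth (a2 :: Z.map Prod.fst)) z w = 1
  J : ∀ e e', [e, e'] <:+: Z → e.1 ≠ a1 → e.2 = Ty.D ∨ e'.2 = Ty.U ∨ e.1 = a3 ∨
    ∃ u, ¬ BVert a1 a2 F u ∧ G.Adj e.1 u

/-- The new path. -/
structure Ear {V : Type} (G : SimpleGraph V) (S : V → Prop) (a3 w0 : V) (M : List V) (wq : V)
    (P : List V) : Prop where
  ne : P ≠ []
  nd : P.Nodup
  out : ∀ v ∈ P, ¬ S v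
  chain : (w0 :: (P ++ [wq])).IsChain G.Adj
  adj : ∀ v ∈ P, ∀ u, (S u ∨ u ∈ P) → G.Adj v u → [u, v] <:+: w0 :: (P ++ [wq]) ∨
    [v, u] <:+: w0 :: (P ++ [wq]) ∨ u ∈ M
  len : P.length = 1 ∨ ∀ v ∈ P, ∀ u ∈ M, ¬ G.Adj v u
  nbr : ∀ v ∈ P, v = a3 ∨ ∃ u, ¬ S u ∧ u ∉ P ∧ G.Adj v u

section step

variable {V : Type} [Fintype V] {G : SimpleGraph V} {s : (V → V → ZMod 2) → V → V → ZMod 2}
  (hs : Sys G s) {a1 a2 a3 : V}

include hs

open Classical in
/-- The step. -/
theorem inv_step (H0 : ∀ c, IsCyc G c → s c a2 a1 = 0) {F : List (Face V)}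
    {A : List (V × Ty)} {w0 : V} {t0 : Ty} {R : List (V × Ty)} {wq : V} {τ : Ty}
    {C : List (V × Ty)} (inv : Inv G s a1 a2 a3 F (A ++ (w0, t0) :: (R ++ (wq, τ) :: C)))
    (ha3 : ¬ BVert a1 a2 F a3) {P : List V}
    (ear : Ear G (BVert a1 a2 F) a3 w0 (R.map Prod.fst) wq P)
    (h6 : ∀ u, ¬ BVert a1 a2 F u → u ∉ P → ∀ w, G.Adj u w →
      s (fun u v => pth (w0 :: (R.map Prod.fst ++ [wq])) u v + pth (w0 :: (P ++ [wq])) u v) u w
        = 0) :
    ∃ segs : List (Seg V), segs ≠ [] ∧
      Inv G s a1 a2 a3 (newFaces P true w0 segs ++ F)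
        (A ++ (w0, t0) :: (pEnt P ++ (wq, Ty.D) :: C)) := by
  obtain ⟨M, hM⟩ : ∃ M, M = R.map Prod.fst := ⟨_, rfl⟩
  obtain ⟨A', hA'⟩ : ∃ A', A' = A.map Prod.fst := ⟨_, rfl⟩
  obtain ⟨C', hC'⟩ : ∃ C', C' = C.map Prod.fst := ⟨_, rfl⟩
  obtain ⟨att, hatt⟩ : ∃ att : V → Prop, ∀ v, att v ↔ ∃ y ∈ P, G.Adj y v := ⟨_, fun v => Iff.rfl⟩
  have hmap : (A ++ (w0, t0) :: (R ++ (wq, τ) :: C)).map Prod.fst =
      A' ++ w0 :: (M ++ wq :: C') := by rw [hM, hA', hC']; simp
  have hmap' : (A ++ (w0, t0) :: (pEnt P ++ (wq, Ty.D) :: C)).map Prod.fst =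
      A' ++ w0 :: (P ++ wq :: C') := by rw [hA', hC']; simp
  rw [← hM] at ear h6
  have hcbnd := inv.cb.nodup
  have hcbhead := inv.cb.head
  have hcblast := inv.cb.getLast
  have hchain := inv.chain
  have hb := inv.cb.bvert
  have hd := inv.d
  have hc := inv.c
  have hbb := inv.b
  rw [hmap] at hcbnd hcbhead hcblast hchain hb hd hc hbb
  have st : Str G a1 a2 A' w0 M wq C' := by
    refine ⟨hcbnd, hchain, ?_, ?_, inv.adj⟩
    · obtain ⟨T, hT, -⟩ := hcbhead
      exact ⟨T, hT⟩
    · obtain ⟨T, hT, -⟩ := hcblast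
      exact ⟨T, hT⟩
  have hdisj : ∀ v ∈ P, v ∉ A' ++ w0 :: (M ++ wq :: C') :=
    fun v hv hv' => ear.out v hv (hb v hv')
  have st' : Str G a1 a2 A' w0 P wq C' := st.replace ear.nd hdisj ear.chain
  obtain ⟨cZ, hcZ⟩ : ∃ c, c = pth (a2 :: (A' ++ w0 :: (M ++ wq :: C'))) := ⟨_, rfl⟩
  obtain ⟨cZ', hcZ'⟩ : ∃ c, c = pth (a2 :: (A' ++ w0 :: (P ++ wq :: C'))) := ⟨_, rfl⟩
  obtain ⟨cP, hcP⟩ : ∃ c : V → V → ZMod 2,
    c = fun u v => pth (w0 :: (M ++ [wq])) u v + pth (w0 :: (P ++ [wq])) u v := ⟨_, rfl⟩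
  rw [← hcZ] at hd hc
  rw [← hcP] at h6
  have hcycZ : IsCyc G cZ := by rw [hcZ]; exact st.cyc
  have hcycP : IsCyc G cP := by rw [hcP]; exact st.cyc_diff st'
  have hcycZ' : IsCyc G cZ' := by rw [hcZ']; exact st'.cyc
  have hsum : cZ' = fun u v => cZ u v + cP u v := by
    rw [hcZ', hcZ, hcP]
    exact cyc_step a2 A' w0 M wq C' P
  have hsZ' : ∀ u v, G.Adj u v → s cZ' u v = s cZ u v + s cP u v := by
    intro u v huv
    rw [hsum]
    exact hs.add cZ cP hcycZ hcycP u v huv
  -- nodup facts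
  have nA : ∀ v ∈ A', v ≠ w0 ∧ v ∉ M ∧ v ≠ wq ∧ v ∉ C' := by
    intro v hv
    have h1 := (List.nodup_append.1 st.nodup).2.2 v hv
    refine ⟨h1 w0 (by simp), fun h2 => h1 v (by simp [h2]) rfl, h1 wq (by simp),
      fun h2 => h1 v (by simp [h2]) rfl⟩
  have nC : ∀ v ∈ C', v ≠ w0 ∧ v ∉ M ∧ v ≠ wq ∧ v ∉ A' := by
    intro v hv
    have h1 := (List.nodup_append.1 st.rev.nodup).2.2 v (List.mem_reverse.2 hv)
    refine ⟨h1 w0 (by simp), fun h2 => h1 v (by simp [h2]) rfl, h1 wq (by simp),
      fun h2 => h1 v (by simp [h2]) rfl⟩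
  have nP : ∀ v ∈ P, v ∉ A' ∧ v ≠ w0 ∧ v ∉ M ∧ v ≠ wq ∧ v ∉ C' := by
    intro v hv
    have := hdisj v hv
    simp only [List.mem_append, List.mem_cons, not_or] at this
    exact ⟨this.1, this.2.1, this.2.2.1, this.2.2.2.1, this.2.2.2.2⟩
  have hnd3 := List.nodup_cons.1 (List.nodup_append.1 st.nodup).2.1
  have nw0 : w0 ∉ M ∧ w0 ≠ wq ∧ w0 ∉ C' := by
    have := hnd3.1
    simp only [List.mem_append, List.mem_cons, not_or] at this
    exact this
  have nwq : wq ∉ M := fun h => (List.nodup_append.1 hnd3.2).2.2 wq h wq (by simp) rfl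
  have memL : ∀ v, v ∈ w0 :: (P ++ [wq]) → v = w0 ∨ v ∈ P ∨ v = wq := by
    intro v hv
    simpa using hv
  -- vertices off the stretch are not attached
  have natt : ∀ z, (z ∈ A' ∨ z ∈ C') → ∀ v ∈ P, ¬ G.Adj z v := by
    intro z hz v hv hzv
    have hzP : z ∉ P := fun h => by
      rcases hz with h1 | h1
      · exact (nP z h).1 h1
      · exact (nP z h).2.2.2.2 h1
    have hz1 : z ≠ w0 ∧ z ≠ wq ∧ z ∉ M := by
      rcases hz with h1 | h1
      · exact ⟨(nA z h1).1, (nA z h1).2.2.1, (nA z h1).2.1⟩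
      · exact ⟨(nC z h1).1, (nC z h1).2.2.1, (nC z h1).2.1⟩
    have hSz : BVert a1 a2 F z := by
      apply hb
      simp only [List.mem_append, List.mem_cons]
      exact hz.elim Or.inl (fun h => Or.inr (Or.inr (Or.inr (Or.inr h))))
    have hzL : z ∉ w0 :: (P ++ [wq]) := fun h => by
      rcases memL z h with h | h | h
      · exact hz1.1 h
      · exact hzP h
      · exact hz1.2.1 h
    rcases ear.adj v hv z (Or.inl hSz) hzv.symm with h | h | h
    · exact hzL (mem_of_infix_pair h).1
    · exact hzL (mem_of_infix_pair h).2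
    · exact hz1.2.2 h
  -- (c)
  have hc' : ∀ u, ¬ BVert a1 a2 F u → u ∉ P → ∀ w, G.Adj u w → s cZ' u w = 0 := by
    intro u hu huP w hw
    rw [hsZ' u w hw, hc u hu w hw, h6 u hu huP w hw, add_zero]
  -- parity facts
  have hpar : (A' ≠ [] ∨ M ≠ [] ∨ C' ≠ []) →
      (∀ v, v ∈ A' ∨ v ∈ C' → ∀ w, G.Adj v w → s cP v w = 0) ∧
      (∀ v ∈ M, ∀ w, G.Adj v w → s cZ' v w = 1) ∧
      (∀ z, z = w0 ∨ z = wq → ∀ w, G.Adj z w → cZ' z w = 0 → w ∉ P →
        (cZ z w = 0 → s cZ z w = 1) → s cZ' z w = 1) := by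
    intro hlen
    have hsupp : ∀ z ∈ A' ++ w0 :: (M ++ wq :: C'), ∀ f ∈ P, G.Adj z f → s cZ z f = 0 := by
      intro z hz f hf hzf
      have h1 := hc f (ear.out f hf) z hzf.symm
      have h2 : cZ f z = 0 := by
        rw [hcZ]
        apply pth_zero_left
        intro h3
        rcases List.mem_cons.1 h3 with h4 | h4
        · rw [h4] at hf
          exact hdisj a2 hf st.a2_mem
        · exact hdisj f hf h4
      rw [flip_eq hs hcycZ hzf.symm h2, h1]
    refine step_par hs st st' hlen ear.ne hdisj hcZ hcP hcZ' (H0 cP hcycP) ?_ ?_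
    · intro f hf
      obtain ⟨P', hP'⟩ : ∃ P', P = f :: P' := by
        match P, hf with
        | a :: P', hf =>
          simp only [List.head?_cons, Option.mem_def, Option.some.injEq] at hf
          exact ⟨P', by rw [hf]⟩
      refine hsupp w0 (by simp) f (by rw [hP']; simp) ?_
      refine infix_chain ear.chain ?_
      rw [hP']
      exact ⟨[], P' ++ [wq], rfl⟩
    · intro f hf
      obtain ⟨P', hP'⟩ : ∃ P', P = P' ++ [f] := by
        rw [Option.mem_def, List.getLast?_eq_some_iff] at hf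
        exact hf
      refine hsupp wq (by simp) f (by rw [hP']; simp) ?_
      refine (infix_chain ear.chain ?_).symm
      rw [hP']
      exact ⟨w0 :: P', [], by simp⟩
  have hF3 : ∀ v ∈ M, ∀ w, G.Adj v w → s cZ' v w = 1 := by
    intro v hv
    exact (hpar (Or.inr (Or.inl (List.ne_nil_of_mem hv)))).2.1 v hv
  have hMz' : ∀ v ∈ M, v ∉ A' ++ w0 :: (P ++ wq :: C') := by
    intro v hv
    simp only [List.mem_append, List.mem_cons, not_or]
    exact ⟨fun h => (nA v h).2.1 hv, fun h => nw0.1 (h ▸ hv), fun h => (nP v h).2.2.1 hv,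
      fun h => nwq (h ▸ hv), fun h => (nC v h).2.1 hv⟩
  have hF4 : ∀ v ∈ M, ∀ u, ¬ BVert a1 a2 F u → u ∉ P → ¬ G.Adj v u := by
    intro v hv u hu huP hvu
    have h1 := hF3 v hv u hvu
    have h2 := hc' u hu huP v hvu.symm
    have h3 : cZ' u v = 0 := by
      rw [hcZ']
      apply pth_zero_right
      intro h4
      rcases List.mem_cons.1 h4 with h5 | h5
      · rw [h5] at hv
        exact hMz' a2 hv st'.a2_mem
      · exact hMz' v hv h5
    rw [flip_eq hs hcycZ' hvu.symm h3, h2] at h1
    exact zero_ne_one h1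
  -- segments
  have hbM : ∀ v ∈ M, BVert a1 a2 F v := fun v hv => hb v (by simp [hv])
  have hgood : ∀ e e', [e, e'] <:+: R ++ [(wq, τ)] → ¬ att e.1 →
      e.2 = Ty.D ∨ e'.2 = Ty.U := by
    intro e e' hee hna
    rw [hatt] at hna
    have h1 : e ∈ R := by
      have := pair_left hee
      rwa [List.dropLast_append_of_ne_nil (by simp), List.dropLast_singleton,
        List.append_nil] at this
    have h2 : e.1 ∈ M := by rw [hM]; exact List.mem_map.2 ⟨e, h1, rfl⟩
    have h3 : [e, e'] <:+: A ++ (w0, t0) :: (R ++ (wq, τ) :: C) := by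
      refine hee.trans ⟨A ++ [(w0, t0)], C, by simp⟩
    have h4 : e.1 ≠ a1 := by
      intro h
      have := st.a1_mem_left
      rw [← h] at this
      simp only [List.mem_append, List.mem_cons, List.not_mem_nil, or_false] at this
      rcases this with h5 | h5
      · exact (nA _ h5).2.1 h2
      · exact nw0.1 (h5 ▸ h2)
    rcases inv.J e e' h3 h4 with h | h | h | ⟨u, hu, hu'⟩
    · exact Or.inl h
    · exact Or.inr h
    · exact absurd (h ▸ hbM _ h2) ha3
    · exfalso
      by_cases huP : u ∈ P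
      · exact hna ⟨u, huP, hu'.symm⟩
      · exact hF4 _ h2 u hu huP hu'
  obtain ⟨segs, hs1, hs2, hs3⟩ := exists_segs att wq τ R hgood
  rw [← hM] at hs3
  have hlw : lastW w0 segs = wq := by
    obtain ⟨L, hL⟩ := flatMap_entries_eq (w := w0) hs1
    rw [hs2, List.map_append] at hL
    have := (List.append_inj' hL rfl).2
    simpa using this.symm
  have hslen : P.length = 1 ∨ segs.length = 1 := by
    rcases ear.len with h | h
    · exact Or.inl h
    · right
      have h1 : M.filter (fun v => decide (att v)) = [] := by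
        rw [List.filter_eq_nil_iff]
        intro m hm
        simp only [decide_eq_true_eq, hatt]
        rintro ⟨y, hy, hym⟩
        exact h y hy m hm hym
      rw [h1] at hs3
      have := congrArg List.length hs3
      simpa using this
  have hcb : CB a1 a2 (newFaces P true w0 segs ++ F)
      (A ++ (w0, t0) :: (pEnt P ++ (wq, Ty.D) :: C)) := by
    have h1 := CB.step F A w0 t0 segs C P (by
      rw [hs2]
      have : R ++ [(wq, τ)] ++ C = R ++ (wq, τ) :: C := by simp
      rw [this]
      exact inv.cb) hs1 ear.ne hslen ear.nd (by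
        intro v hv
        have h2 := ear.out v hv
        refine ⟨?_, ?_, ?_⟩
        · rintro rfl; exact h2 (Or.inl rfl)
        · rintro rfl; exact h2 (Or.inr (Or.inl rfl))
        · intro f hf hf'
          exact h2 (Or.inr (Or.inr ⟨f, hf, hf'⟩)))
    rw [hlw] at h1
    exact h1
  have hbv : ∀ v, BVert a1 a2 (newFaces P true w0 segs ++ F) v ↔ BVert a1 a2 F v ∨ v ∈ P :=
    bvert_step hs1
  have hbe : ∀ u v, BEdge a1 a2 (newFaces P true w0 segs ++ F) u v ↔
      BEdge a1 a2 F u v ∨ NE P true w0 segs u v := by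
    intro u v
    unfold BEdge NE
    simp only [List.mem_append]
    constructor
    · rintro (h | ⟨f, hf | hf, h⟩)
      · exact Or.inl (Or.inl h)
      · exact Or.inr ⟨f, hf, h⟩
      · exact Or.inl (Or.inr ⟨f, hf, h⟩)
    · rintro ((h | ⟨f, hf, h⟩) | ⟨f, hf, h⟩)
      · exact Or.inl h
      · exact Or.inr ⟨f, Or.inr hf, h⟩
      · exact Or.inr ⟨f, Or.inl hf, h⟩
  have hne := newE (segs := segs) (w0 := w0) ear.len hs1 hatt hs3
  have hLS : ∀ v, v ∈ w0 :: (P ++ [wq]) → BVert a1 a2 F v ∨ v ∈ P := by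
    intro v hv
    rcases memL v hv with rfl | h | rfl
    · exact Or.inl (hb _ (by simp))
    · exact Or.inr h
    · exact Or.inl (hb _ (by simp))
  have hlen3 : 3 ≤ (A' ++ w0 :: (P ++ wq :: C')).length :=
    st'.len3 (Or.inr (Or.inl ear.ne))
  have hone : ∀ u v, [u, v] <:+: w0 :: (P ++ [wq]) → cZ' u v = 1 ∧ cZ' v u = 1 := by
    intro u v huv
    obtain ⟨U, hU⟩ := st'.head
    obtain ⟨U', hU'⟩ := st'.last
    rw [hcZ']
    refine cyc_one st'.nodup hU hU' hlen3 (huv.trans ?_)
    exact ⟨A', C', by simp⟩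
  refine ⟨segs, hs1, hcb, inv.adj, ?_, ?_, ?_, ?_, ?_, ?_, ?_, ?_, ?_⟩
  · rw [hmap']; exact st'.chain
  · -- bends
    intro u v huv
    rw [hbv, hbv]
    rw [hbe] at huv
    rcases huv with huv | huv
    · have := inv.bends u v huv
      exact ⟨Or.inl this.1, Or.inl this.2⟩
    · rcases (hne u v).1 (Or.inl huv) with (h | h) | ⟨h1, h2, h3⟩ | ⟨h1, h2, h3⟩
      · exact ⟨hLS u (mem_of_infix_pair h).1, hLS v (mem_of_infix_pair h).2⟩
      · exact ⟨hLS u (mem_of_infix_pair h).2, hLS v (mem_of_infix_pair h).1⟩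
      · exact ⟨Or.inr h1, Or.inl (hbM v h2)⟩
      · exact ⟨Or.inl (hbM u h2), Or.inr h1⟩
  · -- bedge
    intro u v hu hv
    rw [hbv] at hu hv
    rw [hbe, hbe]
    have hrhs : ((BEdge a1 a2 F u v ∨ NE P true w0 segs u v) ∨
        (BEdge a1 a2 F v u ∨ NE P true w0 segs v u)) ↔
        (BEdge a1 a2 F u v ∨ BEdge a1 a2 F v u) ∨
          (NE P true w0 segs u v ∨ NE P true w0 segs v u) := or_or_or_comm
    rw [hrhs, hne u v]
    constructor
    · intro huv
      by_cases huP : u ∈ P
      · right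
        rcases ear.adj u huP v hv huv with h | h | h
        · exact Or.inl (Or.inr h)
        · exact Or.inl (Or.inl h)
        · exact Or.inr (Or.inl ⟨huP, h, huv⟩)
      · by_cases hvP : v ∈ P
        · right
          rcases ear.adj v hvP u hu huv.symm with h | h | h
          · exact Or.inl (Or.inl h)
          · exact Or.inl (Or.inr h)
          · exact Or.inr (Or.inr ⟨hvP, h, huv.symm⟩)
        · left
          exact (inv.bedge u v (hu.resolve_right huP) (hv.resolve_right hvP)).1 huv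
    · rintro ((h | h) | (h | h) | ⟨h1, h2, h3⟩ | ⟨h1, h2, h3⟩)
      · have := inv.bends u v h
        exact (inv.bedge u v this.1 this.2).2 (Or.inl h)
      · have := inv.bends v u h
        exact (inv.bedge u v this.2 this.1).2 (Or.inr h)
      · exact infix_chain ear.chain h
      · exact (infix_chain ear.chain h).symm
      · exact h3
      · exact h3.symm
  · -- lastD
    intro _ e he
    rcases List.eq_nil_or_concat C with hC | ⟨C0, c, hC⟩
    · rw [hC] at he
      have h1 : A ++ (w0, t0) :: (pEnt P ++ [(wq, Ty.D)]) =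
          (A ++ (w0, t0) :: pEnt P) ++ [(wq, Ty.D)] := by simp
      rw [h1, List.getLast?_append] at he
      simp only [List.getLast?_singleton, Option.some_or, Option.mem_def,
        Option.some.injEq] at he
      rw [← he]
    · rw [List.concat_eq_append] at hC
      rw [hC] at he
      have h1 : A ++ (w0, t0) :: (pEnt P ++ (wq, Ty.D) :: (C0 ++ [c])) =
          (A ++ (w0, t0) :: (pEnt P ++ (wq, Ty.D) :: C0)) ++ [c] := by simp
      rw [h1, List.getLast?_append] at he
      simp only [List.getLast?_singleton, Option.some_or, Option.mem_def,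
        Option.some.injEq] at he
      refine inv.lastD ?_ e ?_
      · rw [hC]
        simp only [List.length_append, List.length_cons]
        omega
      · have h2 : A ++ (w0, t0) :: (R ++ (wq, τ) :: C) =
          (A ++ (w0, t0) :: (R ++ (wq, τ) :: C0)) ++ [c] := by rw [hC]; simp
        rw [h2, List.getLast?_append, ← he]
        rfl
  · -- two
    intro h
    exfalso
    have h1 := congrArg List.length hmap'
    rw [List.length_map] at h1
    omega
  · -- b
    intro v hv hvz u hu huv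
    rw [hmap'] at hvz
    rw [hbv] at hv hu
    rw [not_or] at hu
    have hvP : v ∉ P := fun h => hvz (by simp [h])
    have hSv := hv.resolve_right hvP
    by_cases hvM : v ∈ M
    · exact hF4 v hvM u hu.1 hu.2 huv
    · refine hbb v hSv ?_ u hu.1 huv
      simp only [List.mem_append, List.mem_cons, not_or] at hvz ⊢
      exact ⟨hvz.1, hvz.2.1, hvM, hvz.2.2.2.1, hvz.2.2.2.2⟩
  · -- c
    intro u hu w hw
    rw [hbv, not_or] at hu
    rw [hmap', ← hcZ']
    exact hc' u hu.1 hu.2 w hw
  · -- d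
    intro z hz w hw hzw h0 hb1 hb2
    rw [hmap'] at hz h0 ⊢
    rw [hbv] at hw
    rw [← hcZ'] at h0 ⊢
    by_cases hzP : z ∈ P
    · rcases ear.adj z hzP w hw hzw with h | h | h
      · rw [(hone w z h).2] at h0
        exact absurd h0 one_ne_zero
      · rw [(hone z w h).1] at h0
        exact absurd h0 one_ne_zero
      · have h1 := hF3 w h z hzw.symm
        have h2 : cZ' w z = 0 := by rw [hcycZ'.symm, h0]
        rw [flip_eq hs hcycZ' hzw.symm h2, h1]
    · have hzz : z = w0 ∨ z = wq ∨ z ∈ A' ∨ z ∈ C' := by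
        simp only [List.mem_append, List.mem_cons] at hz
        rcases hz with h | h | h | h | h
        · exact Or.inr (Or.inr (Or.inl h))
        · exact Or.inl h
        · exact absurd h hzP
        · exact Or.inr (Or.inl h)
        · exact Or.inr (Or.inr (Or.inr h))
      have hzM : z ∉ M := fun h => hMz' z h hz
      have hzmem : z ∈ A' ++ w0 :: (M ++ wq :: C') := by
        simp only [List.mem_append, List.mem_cons]
        rcases hzz with h | h | h | h
        · exact Or.inr (Or.inl h)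
        · exact Or.inr (Or.inr (Or.inr (Or.inl h)))
        · exact Or.inl h
        · exact Or.inr (Or.inr (Or.inr (Or.inr h)))
      have hSz : BVert a1 a2 F z := hb z hzmem
      by_cases hwP : w ∈ P
      · rcases ear.adj w hwP z (Or.inl hSz) hzw.symm with h | h | h
        · rw [(hone z w h).1] at h0
          exact absurd h0 one_ne_zero
        · rw [(hone w z h).2] at h0
          exact absurd h0 one_ne_zero
        · exact absurd h hzM
      · have hSw := hw.resolve_right hwP
        by_cases hlen : A' ≠ [] ∨ M ≠ [] ∨ C' ≠ []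
        · obtain ⟨p1, p2, p3⟩ := hpar hlen
          have hdw : cZ z w = 0 → s cZ z w = 1 := fun h => hd z hzmem w hSw hzw h hb1 hb2
          rcases hzz with h | h | h
          · exact p3 z (Or.inl h) w hzw h0 hwP hdw
          · exact p3 z (Or.inr h) w hzw h0 hwP hdw
          · have h1 := p1 z h w hzw
            have h2 : cP z w = 0 := by
              rw [hcP]
              show pth (w0 :: (M ++ [wq])) z w + pth (w0 :: (P ++ [wq])) z w = 0
              have h3 : z ≠ w0 ∧ z ≠ wq := by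
                rcases h with h | h
                · exact ⟨(nA z h).1, (nA z h).2.2.1⟩
                · exact ⟨(nC z h).1, (nC z h).2.2.1⟩
              rw [pth_zero_left, pth_zero_left, add_zero]
              · simp only [List.mem_cons, List.mem_append, List.not_mem_nil, or_false, not_or]
                exact ⟨h3.1, hzP, h3.2⟩
              · simp only [List.mem_cons, List.mem_append, List.not_mem_nil, or_false, not_or]
                exact ⟨h3.1, hzM, h3.2⟩
            have h4 : cZ z w = 0 := by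
              rw [hsum] at h0
              have h5 : cZ z w + cP z w = 0 := h0
              rwa [h2, add_zero] at h5
            rw [hsZ' z w hzw, hdw h4, h1, add_zero]
        · exfalso
          push Not at hlen
          have h1 : (A ++ (w0, t0) :: (R ++ (wq, τ) :: C)).length ≤ 2 := by
            have := congrArg List.length hmap
            rw [List.length_map, hlen.1, hlen.2.1, hlen.2.2] at this
            rw [this]
            simp
          rcases inv.two h1 z hSz with rfl | rfl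
          · rcases inv.two h1 w hSw with rfl | rfl
            · exact G.loopless.irrefl _ hzw
            · exact hb1 ⟨rfl, rfl⟩
          · rcases inv.two h1 w hSw with rfl | rfl
            · exact hb2 ⟨rfl, rfl⟩
            · exact G.loopless.irrefl _ hzw
  · -- J
    intro e e' hee he1
    have hold : ∀ e e', [e, e'] <:+: A ++ (w0, t0) :: (R ++ (wq, τ) :: C) → e.1 ≠ a1 →
        (e.1 ∈ A' ∨ e.1 ∈ C') → e.2 = Ty.D ∨ e'.2 = Ty.U ∨ e.1 = a3 ∨
          ∃ u, ¬ BVert a1 a2 (newFaces P true w0 segs ++ F) u ∧ G.Adj e.1 u := by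
      intro e e' h1 h2 h3
      rcases inv.J e e' h1 h2 with h | h | h | ⟨u, hu, hu'⟩
      · exact Or.inl h
      · exact Or.inr (Or.inl h)
      · exact Or.inr (Or.inr (Or.inl h))
      · refine Or.inr (Or.inr (Or.inr ⟨u, ?_, hu'⟩))
        rw [hbv, not_or]
        exact ⟨hu, fun h => natt e.1 h3 u h hu'⟩
    rcases pair_append hee with h | h
    · have h1 : e ∈ A := by
        have := pair_left h
        rwa [List.dropLast_append_of_ne_nil (by simp), List.dropLast_singleton,
          List.append_nil] at this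
      refine hold e e' ?_ he1 (Or.inl (by rw [hA']; exact List.mem_map.2 ⟨e, h1, rfl⟩))
      exact h.trans ⟨[], R ++ (wq, τ) :: C, by simp⟩
    · obtain ⟨p, P', hP'⟩ : ∃ p P', P = p :: P' := by
        cases hPc : P with
        | nil => exact absurd hPc ear.ne
        | cons p P' => exact ⟨p, P', rfl⟩
      rw [List.infix_cons_iff] at h
      rcases h with h | h
      · rw [hP'] at h
        have h1 : pEnt (p :: P') = (p, Ty.U) :: P'.map (fun v => (v, Ty.H)) := rfl
        rw [h1, List.cons_append, List.cons_prefix_cons, List.cons_prefix_cons] at h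
        right; left
        rw [h.2.1]
      · rcases pair_append h with h | h
        · have h1 : e ∈ pEnt P := by
            have := pair_left h
            rwa [List.dropLast_append_of_ne_nil (by simp), List.dropLast_singleton,
              List.append_nil] at this
          have h2 : e.1 ∈ P := by
            have : e.1 ∈ (pEnt P).map Prod.fst := List.mem_map.2 ⟨e, h1, rfl⟩
            rwa [pEnt_map_fst] at this
          rcases ear.nbr e.1 h2 with h3 | ⟨u, hu1, hu2, hu3⟩
          · exact Or.inr (Or.inr (Or.inl h3))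
          · exact Or.inr (Or.inr (Or.inr ⟨u, by rw [hbv, not_or]; exact ⟨hu1, hu2⟩, hu3⟩))
        · rw [List.infix_cons_iff] at h
          rcases h with h | h
          · rw [List.cons_prefix_cons] at h
            left
            rw [h.1]
          · have h1 : e ∈ C := List.dropLast_subset _ (pair_left h)
            refine hold e e' ?_ he1 (Or.inr (by rw [hC']; exact List.mem_map.2 ⟨e, h1, rfl⟩))
            exact h.trans ⟨A ++ (w0, t0) :: (R ++ [(wq, τ)]), [], by simp⟩

end step

end Pool.Agent.Run7.h215
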