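import Pool.Agent.Run7.h215.T5f

/-!
T5, part g: construction of the ears; the final contour.
-/

set_option autoImplicit false

namespace Pool.Agent.Run7.h215

open List

theorem split_unique {α : Type*} {v : α} {X Y X' Y' : List α} (hn : (X ++ v :: Y).Nodup)
    (h : X ++ v :: Y = X' ++ v :: Y') : X = X' ∧ Y = Y' := by
  have h1 : v ∉ X := fun h => (List.nodup_append.1 hn).2.2 v h v (by simp) rfl
  have h2 : v ∉ Y := (List.nodup_cons.1 (List.nodup_append.1 hn).2.1).1
  have := (List.append_cons_inj_of_notMem h1 h2).1 h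
  exact ⟨this.1, this.2.2⟩

section nbr

variable {V : Type} [Fintype V] {G : SimpleGraph V}

omit [Fintype V] in
theorem nbr_of_connected {U : Set V} (h : (G.induce U).Connected) {v x : V} (hv : v ∈ U)
    (hx : x ∈ U) (hvx : v ≠ x) : ∃ u ∈ U, G.Adj v u := by
  have hr := h.preconnected ⟨v, hv⟩ ⟨x, hx⟩
  rw [SimpleGraph.reachable_iff_reflTransGen] at hr
  rcases Relation.ReflTransGen.cases_head hr with h1 | ⟨c, h1, -⟩
  · exact absurd (congrArg Subtype.val h1) hvx
  · exact ⟨c.1, c.2, h1⟩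

open Classical in
theorem exists_nbr (h3 : ThreeConnected G) (v : V) (N : Finset V) (hN : N.card ≤ 2) :
    ∃ u, G.Adj v u ∧ u ∉ N := by
  have h1 : (N.erase v).card ≤ 2 := (Finset.card_erase_le).trans hN
  have h2 := h3.2 (N.erase v) h1
  have h4 : ∃ x, x ∉ insert v (N.erase v) := by
    by_contra h
    push Not at h
    have h5 : (Finset.univ : Finset V) ⊆ insert v (N.erase v) := fun x _ => h x
    have h6 := Finset.card_le_card h5
    have h7 := Finset.card_insert_le v (N.erase v)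
    have h8 := h3.1
    rw [Finset.card_univ] at h6
    omega
  obtain ⟨x, hx⟩ := h4
  rw [Finset.mem_insert, not_or] at hx
  obtain ⟨u, hu, hvu⟩ := nbr_of_connected h2 (v := v) (x := x) (by simp) hx.2 (Ne.symm hx.1)
  refine ⟨u, hvu, fun h => ?_⟩
  have h9 : u ∉ N.erase v := hu
  exact h9 (Finset.mem_erase.2 ⟨hvu.ne', h⟩)

end nbr

section ears

variable {V : Type} [Fintype V] {G : SimpleGraph V} {s : (V → V → ZMod 2) → V → V → ZMod 2}
  {a1 a2 a3 : V} {F : List (Face V)} {Z : List (V × Ty)}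

omit [Fintype V] in
/-- A one-vertex ear. -/
theorem ear_one (inv : Inv G s a1 a2 a3 F Z) {y : V} (hy : ¬ BVert a1 a2 F y) {x x' : V}
    (hx : BVert a1 a2 F x) (hx' : BVert a1 a2 F x') (hxx : x ≠ x') (hyx : G.Adj y x)
    (hyx' : G.Adj y x') (hn : y = a3 ∨ ∃ u, ¬ BVert a1 a2 F u ∧ u ∉ [y] ∧ G.Adj y u) :
    ∃ (A : List (V × Ty)) (w0 : V) (t0 : Ty) (R : List (V × Ty)) (wq : V) (τ : Ty)
      (C : List (V × Ty)), Z = A ++ (w0, t0) :: (R ++ (wq, τ) :: C) ∧
      Ear G (BVert a1 a2 F) a3 w0 (R.map Prod.fst) wq [y] ∧ ∀ e ∈ A, ¬ G.Adj y e.1 := by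
  have hon : ∀ z, BVert a1 a2 F z → G.Adj y z → ∃ e ∈ Z, e.1 = z := by
    intro z hz hyz
    by_contra h
    refine inv.b z hz ?_ y hy hyz.symm
    intro h1
    obtain ⟨e, he, he'⟩ := List.mem_map.1 h1
    exact h ⟨e, he, he'⟩
  obtain ⟨e, he, rfl⟩ := hon x hx hyx
  obtain ⟨e', he', rfl⟩ := hon x' hx' hyx'
  obtain ⟨A, e0, R, e1, C, hZ, h0, h1, hA, hC⟩ := exists_stretch (p := fun e => G.Adj y e.1) he he'
    (fun h => hxx (by rw [h])) hyx hyx'
  refine ⟨A, e0.1, e0.2, R, e1.1, e1.2, C, hZ, ?_, hA⟩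
  refine ⟨by simp, by simp, by simpa using hy, ?_, ?_, Or.inl rfl, ?_⟩
  · exact List.isChain_cons_cons.2 ⟨h0.symm, List.isChain_cons_cons.2 ⟨h1,
      List.isChain_singleton _⟩⟩
  · intro v hv u hu hvu
    rw [List.mem_singleton] at hv
    subst hv
    have hSu : BVert a1 a2 F u := by
      rcases hu with h | h
      · exact h
      · rw [List.mem_singleton] at h
        rw [h] at hvu
        exact absurd hvu (G.loopless.irrefl _)
    obtain ⟨a, ha, rfl⟩ := hon u hSu hvu
    rw [hZ] at ha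
    simp only [List.mem_append, List.mem_cons] at ha
    rcases ha with ha | rfl | ha | rfl | ha
    · exact absurd hvu (hA a ha)
    · exact Or.inl ⟨[], [e1.1], rfl⟩
    · exact Or.inr (Or.inr (List.mem_map.2 ⟨a, ha, rfl⟩))
    · exact Or.inr (Or.inl ⟨[e0.1], [], rfl⟩)
    · exact absurd hvu (hC a ha)
  · intro v hv
    rw [List.mem_singleton] at hv
    subst hv
    exact hn

/-- An ear with two ends, when the attachments are in the right order. -/
theorem ear_two' (inv : Inv G s a1 a2 a3 F Z) {P : List V} (hnd : P.Nodup)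
    (hout : ∀ v ∈ P, ¬ BVert a1 a2 F v) (hch : P.IsChain G.Adj) {y y' : V} {M : List V}
    (hP : P = y :: (M ++ [y'])) {A : List (V × Ty)} {w0 : V} {t0 : Ty} {R : List (V × Ty)}
    {wq : V} {τ : Ty} {C : List (V × Ty)} (hZ : Z = A ++ (w0, t0) :: (R ++ (wq, τ) :: C))
    (h1 : ∀ t, BVert a1 a2 F t → (G.Adj y t ↔ t = w0))
    (h2 : ∀ t, BVert a1 a2 F t → (G.Adj y' t ↔ t = wq))
    (h3 : ∀ v ∈ M, ∀ t, BVert a1 a2 F t → ¬ G.Adj v t)
    (h4 : ∀ u ∈ P, ∀ v ∈ P, G.Adj u v → [u, v] <:+: P ∨ [v, u] <:+: P)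
    (h3c : ThreeConnected G) :
    Ear G (BVert a1 a2 F) a3 w0 (R.map Prod.fst) wq P := by
  have hmem : ∀ z ∈ Z.map Prod.fst, BVert a1 a2 F z := inv.cb.bvert
  have hznd : (Z.map Prod.fst).Nodup := inv.cb.nodup
  rw [hZ] at hmem hznd
  simp only [List.map_append, List.map_cons] at hmem hznd
  have hS0 : BVert a1 a2 F w0 := hmem w0 (by simp)
  have hSq : BVert a1 a2 F wq := hmem wq (by simp)
  have hyw : G.Adj y w0 := (h1 w0 hS0).2 rfl
  have hyw' : G.Adj y' wq := (h2 wq hSq).2 rfl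
  have hPL : P <:+: w0 :: (P ++ [wq]) := ⟨[w0], [wq], rfl⟩
  have hcase : ∀ v ∈ P, v = y ∨ v ∈ M ∨ v = y' := by
    intro v hv
    rw [hP] at hv
    simpa using hv
  have hLch : (w0 :: (P ++ [wq])).IsChain G.Adj := by
    have e1 : w0 :: (P ++ [wq]) = [w0] ++ y :: (M ++ [y', wq]) := by rw [hP]; simp
    have e2 : y :: (M ++ [y', wq]) = (y :: M) ++ y' :: [wq] := rfl
    rw [e1, List.isChain_split, e2]
    refine ⟨List.isChain_cons_cons.2 ⟨hyw.symm, List.isChain_singleton _⟩, ?_⟩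
    refine List.isChain_split.2 ⟨?_, List.isChain_cons_cons.2 ⟨hyw', List.isChain_singleton _⟩⟩
    have e3 : y :: M ++ [y'] = P := by rw [hP]; rfl
    rw [e3]
    exact hch
  have hadj : ∀ v ∈ P, ∀ u, (BVert a1 a2 F u ∨ u ∈ P) → G.Adj v u →
      [u, v] <:+: w0 :: (P ++ [wq]) ∨ [v, u] <:+: w0 :: (P ++ [wq]) := by
    intro v hv u hu hvu
    by_cases huP : u ∈ P
    · rcases h4 v hv u huP hvu with h | h
      · exact Or.inr (h.trans hPL)
      · exact Or.inl (h.trans hPL)
    · have hSu := hu.resolve_right huP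
      rcases hcase v hv with rfl | hM | rfl
      · left
        rw [(h1 u hSu).1 hvu, hP]
        exact ⟨[], M ++ [y'] ++ [wq], by simp⟩
      · exact absurd hvu (h3 v hM u hSu)
      · right
        rw [(h2 u hSu).1 hvu, hP]
        exact ⟨w0 :: y :: M, [], by simp⟩
  have hMR : ∀ v ∈ P, ∀ u ∈ R.map Prod.fst, ¬ G.Adj v u := by
    intro v hv u hu hvu
    have hSu : BVert a1 a2 F u := hmem u (by simp only [List.mem_append, List.mem_cons]; tauto)
    have hnd2 := List.nodup_cons.1 (List.nodup_append.1 hznd).2.1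
    have hu0 : u ≠ w0 := by
      rintro rfl
      exact hnd2.1 (by simp only [List.mem_append]; exact Or.inl hu)
    have huq : u ≠ wq := (List.nodup_append.1 hnd2.2).2.2 u hu wq (by simp)
    rcases hcase v hv with rfl | hM | rfl
    · exact hu0 ((h1 u hSu).1 hvu)
    · exact h3 v hM u hSu hvu
    · exact huq ((h2 u hSu).1 hvu)
  refine ⟨by rw [hP]; simp, hnd, hout, hLch, ?_, Or.inr hMR, ?_⟩
  · intro v hv u hu hvu
    rcases hadj v hv u hu hvu with h | h
    · exact Or.inl h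
    · exact Or.inr (Or.inl h)
  · intro v hv
    right
    classical
    have hLnd : (w0 :: (P ++ [wq])).Nodup := by
      have h0P : w0 ∉ P := fun h => hout _ h hS0
      have hqP : wq ∉ P := fun h => hout _ h hSq
      have h0q : w0 ≠ wq := by
        have hnd2 := List.nodup_cons.1 (List.nodup_append.1 hznd).2.1
        rintro rfl
        exact hnd2.1 (by simp)
      rw [List.nodup_cons, List.nodup_append]
      refine ⟨?_, hnd, List.nodup_singleton _, ?_⟩
      · simp only [List.mem_append, List.mem_singleton, not_or]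
        exact ⟨h0P, h0q⟩
      · intro a ha b hb hab
        rw [List.mem_singleton] at hb
        subst hb
        exact hqP (hab ▸ ha)
    -- predecessor and successor
    have hvL : v ∈ w0 :: (P ++ [wq]) := by simp [hv]
    obtain ⟨X, Y, hXY⟩ := List.append_of_mem hvL
    have hXne : X ≠ [] := by
      rintro rfl
      simp only [List.nil_append, List.cons.injEq] at hXY
      exact hout v hv (hXY.1 ▸ hS0)
    have hYne : Y ≠ [] := by
      rintro rfl
      have h5 : (w0 :: P) ++ [wq] = X ++ [v] := by rw [← hXY]; rfl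
      have h6 := (List.append_inj' h5 rfl).2
      simp only [List.cons.injEq, and_true] at h6
      exact hout v hv (h6 ▸ hSq)
    obtain ⟨q, Y', rfl⟩ : ∃ q Y', Y = q :: Y' := by
      cases Y with
      | nil => exact absurd rfl hYne
      | cons q Y' => exact ⟨q, Y', rfl⟩
    obtain ⟨X', p, rfl⟩ : ∃ X' p, X = X' ++ [p] := by
      rcases List.eq_nil_or_concat X with h | ⟨X', p, h⟩
      · exact absurd h hXne
      · exact ⟨X', p, by rw [h, List.concat_eq_append]⟩
    obtain ⟨u, hvu, huN⟩ := exists_nbr h3c v {p, q} (Finset.card_le_two)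
    simp only [Finset.mem_insert, Finset.mem_singleton, not_or] at huN
    have huniq1 : ∀ u, [u, v] <:+: w0 :: (P ++ [wq]) → u = p := by
      rintro u ⟨B, D, hBD⟩
      have h5 : (B ++ [u]) ++ v :: D = (X' ++ [p]) ++ v :: q :: Y' := by
        rw [← hXY, ← hBD]; simp
      have hn := hLnd
      rw [hXY] at hn
      have h6 : B ++ [u] = X' ++ [p] := by
        have hn2 : (B ++ [u] ++ v :: D).Nodup := by rw [h5]; exact hn
        exact (split_unique hn2 h5).1
      have h7 := (List.append_inj' h6 rfl).2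
      simpa using h7
    have huniq2 : ∀ u, [v, u] <:+: w0 :: (P ++ [wq]) → u = q := by
      rintro u ⟨B, D, hBD⟩
      have h5 : B ++ v :: (u :: D) = (X' ++ [p]) ++ v :: q :: Y' := by
        rw [← hXY, ← hBD]; simp
      have hn := hLnd
      rw [hXY] at hn
      have h6 : u :: D = q :: Y' := by
        have hn2 : (B ++ v :: (u :: D)).Nodup := by rw [h5]; exact hn
        exact (split_unique hn2 h5).2
      simp only [List.cons.injEq] at h6
      exact h6.1
    refine ⟨u, ?_, ?_, hvu⟩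
    · intro hSu
      rcases hadj v hv u (Or.inl hSu) hvu with h | h
      · exact huN.1 (huniq1 u h)
      · exact huN.2 (huniq2 u h)
    · intro huP
      rcases hadj v hv u (Or.inr huP) hvu with h | h
      · exact huN.1 (huniq1 u h)
      · exact huN.2 (huniq2 u h)

/-- An ear with two ends. -/
theorem ear_two (inv : Inv G s a1 a2 a3 F Z) {P : List V} (hnd : P.Nodup)
    (hout : ∀ v ∈ P, ¬ BVert a1 a2 F v) (hch : P.IsChain G.Adj) {y y' x x' : V} {M : List V}
    (hP : P = y :: (M ++ [y'])) (hx : BVert a1 a2 F x) (hx' : BVert a1 a2 F x') (hxx : x ≠ x')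
    (h1 : ∀ t, BVert a1 a2 F t → (G.Adj y t ↔ t = x))
    (h2 : ∀ t, BVert a1 a2 F t → (G.Adj y' t ↔ t = x'))
    (h3 : ∀ v ∈ M, ∀ t, BVert a1 a2 F t → ¬ G.Adj v t)
    (h4 : ∀ u ∈ P, ∀ v ∈ P, G.Adj u v → [u, v] <:+: P ∨ [v, u] <:+: P)
    (h3c : ThreeConnected G) :
    ∃ (A : List (V × Ty)) (w0 : V) (t0 : Ty) (R : List (V × Ty)) (wq : V) (τ : Ty)
      (C : List (V × Ty)) (P' : List V), Z = A ++ (w0, t0) :: (R ++ (wq, τ) :: C) ∧
      (∀ v, v ∈ P' ↔ v ∈ P) ∧
      Ear G (BVert a1 a2 F) a3 w0 (R.map Prod.fst) wq P' := by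
  have hon : ∀ z, BVert a1 a2 F z → (∃ v ∈ P, G.Adj v z) → ∃ e ∈ Z, e.1 = z := by
    rintro z hz ⟨v, hv, hvz⟩
    by_contra h
    refine inv.b z hz ?_ v (hout v hv) hvz.symm
    intro h1
    obtain ⟨e, he, he'⟩ := List.mem_map.1 h1
    exact h ⟨e, he, he'⟩
  obtain ⟨e, he, hex⟩ := hon x hx ⟨y, by rw [hP]; simp, (h1 x hx).2 rfl⟩
  obtain ⟨e', he', hex'⟩ := hon x' hx' ⟨y', by rw [hP]; simp, (h2 x' hx').2 rfl⟩
  obtain ⟨A, e0, R, e1, C, hZ, h5, h6, -, -⟩ :=
    exists_stretch (p := fun e => e.1 = x ∨ e.1 = x') he he'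
    (fun h => hxx (by rw [← hex, ← hex', h])) (Or.inl hex) (Or.inr hex')
  have hznd : (Z.map Prod.fst).Nodup := inv.cb.nodup
  rw [hZ] at hznd
  simp only [List.map_append, List.map_cons] at hznd
  have hne : e0.1 ≠ e1.1 := by
    have hnd2 := List.nodup_cons.1 (List.nodup_append.1 hznd).2.1
    intro h
    exact hnd2.1 (by rw [h]; simp)
  have hmain : (e0.1 = x ∧ e1.1 = x') ∨ (e0.1 = x' ∧ e1.1 = x) := by
    rcases h5 with h5 | h5 <;> rcases h6 with h6 | h6
    · exact absurd (h5.trans h6.symm) hne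
    · exact Or.inl ⟨h5, h6⟩
    · exact Or.inr ⟨h5, h6⟩
    · exact absurd (h5.trans h6.symm) hne
  rcases hmain with ⟨ha, hb⟩ | ⟨ha, hb⟩
  · refine ⟨A, e0.1, e0.2, R, e1.1, e1.2, C, P, hZ, fun v => Iff.rfl, ?_⟩
    refine ear_two' inv hnd hout hch hP hZ ?_ ?_ h3 h4 h3c
    · rw [ha]; exact h1
    · rw [hb]; exact h2
  · refine ⟨A, e0.1, e0.2, R, e1.1, e1.2, C, P.reverse, hZ, fun v => List.mem_reverse, ?_⟩
    refine ear_two' inv (List.nodup_reverse.2 hnd) (fun v hv => hout v (List.mem_reverse.1 hv)) ?_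
      (y := y') (y' := y) (M := M.reverse) (by rw [hP]; simp) hZ ?_ ?_ ?_ ?_ h3c
    · rw [List.isChain_reverse]
      exact hch.imp fun a b hab => hab.symm
    · rw [ha]; exact h2
    · rw [hb]; exact h1
    · intro v hv
      exact h3 v (List.mem_reverse.1 hv)
    · intro u hu v hv huv
      have hr : ∀ a b : V, [a, b] <:+: P → [b, a] <:+: P.reverse := by
        intro a b hab
        have : [b, a] = [a, b].reverse := rfl
        rw [this, List.reverse_infix]
        exact hab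
      rcases h4 u (List.mem_reverse.1 hu) v (List.mem_reverse.1 hv) huv with h | h
      · exact Or.inr (hr u v h)
      · exact Or.inl (hr v u h)

end ears

end Pool.Agent.Run7.h215
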