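import Pool.Agent.Run7.h215.T5g

/-!
T5, part h: the induction and the final contour.
-/

set_option autoImplicit false

namespace Pool.Agent.Run7.h215

open List

section base

variable {V : Type} [Fintype V] {G : SimpleGraph V} {s : (V → V → ZMod 2) → V → V → ZMod 2}
  (hs : Sys G s) {a1 a2 a3 : V}

include hs

theorem s_zero {u v : V} (h : G.Adj u v) : s (fun _ _ => 0) u v = 0 := by
  have hc : IsCyc G (fun _ _ => 0) := ⟨fun _ _ => rfl, fun _ _ _ => rfl, fun _ => by simp⟩
  have h1 := hs.add _ _ hc hc u v h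
  simp only [add_zero] at h1
  have h2 : s (fun _ _ => 0) u v + s (fun _ _ => 0) u v = 0 := CharTwo.add_self_eq_zero _
  rw [h1, h2]

theorem inv_base (hadj : G.Adj a1 a2) :
    Inv G s a1 a2 a3 [] [(a1, Ty.H), (a2, Ty.H)] where
  cb := CB.base hadj.ne
  adj := hadj
  chain := List.isChain_cons_cons.2 ⟨hadj, List.isChain_singleton _⟩
  bends := by
    rintro u v (⟨rfl, rfl⟩ | ⟨f, hf, -⟩)
    · exact ⟨Or.inl rfl, Or.inr (Or.inl rfl)⟩
    · simp at hf
  bedge := by
    have hv : ∀ v, BVert a1 a2 [] v → v = a1 ∨ v = a2 := by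
      rintro v (h | h | ⟨f, hf, -⟩)
      · exact Or.inl h
      · exact Or.inr h
      · simp at hf
    intro u v hu hv'
    constructor
    · intro h
      rcases hv u hu with rfl | rfl
      · rcases hv v hv' with rfl | rfl
        · exact absurd h (G.loopless.irrefl _)
        · exact Or.inl (Or.inl ⟨rfl, rfl⟩)
      · rcases hv v hv' with rfl | rfl
        · exact Or.inr (Or.inl ⟨rfl, rfl⟩)
        · exact absurd h (G.loopless.irrefl _)
    · rintro ((⟨rfl, rfl⟩ | ⟨f, hf, -⟩) | (⟨rfl, rfl⟩ | ⟨f, hf, -⟩))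
      · exact hadj
      · simp at hf
      · exact hadj.symm
      · simp at hf
  lastD := by
    intro h
    simp at h
  two := by
    rintro - v (h | h | ⟨f, hf, -⟩)
    · exact Or.inl h
    · exact Or.inr h
    · simp at hf
  b := by
    rintro v (rfl | rfl | ⟨f, hf, -⟩) h
    · simp at h
    · simp at h
    · simp at hf
  c := by
    intro u _ w hw
    have h1 : pth (a2 :: [(a1, Ty.H), (a2, Ty.H)].map Prod.fst) = fun _ _ => 0 := by
      funext x y
      show ind a2 a1 x y + (ind a1 a2 x y + 0) = 0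
      rw [ind_comm a1 a2, add_zero]
      exact CharTwo.add_self_eq_zero _
    rw [h1]
    exact s_zero hs hw
  d := by
    intro z hz w hw hzw _ h1 h2
    exfalso
    simp only [List.map_cons, List.map_nil, List.mem_cons, List.not_mem_nil, or_false] at hz
    have hw' : w = a1 ∨ w = a2 := by
      rcases hw with h | h | ⟨f, hf, -⟩
      · exact Or.inl h
      · exact Or.inr h
      · simp at hf
    rcases hz with rfl | rfl
    · rcases hw' with rfl | rfl
      · exact G.loopless.irrefl _ hzw
      · exact h1 ⟨rfl, rfl⟩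
    · rcases hw' with rfl | rfl
      · exact h2 ⟨rfl, rfl⟩
      · exact G.loopless.irrefl _ hzw
  J := by
    intro e e' h h1
    exfalso
    have h3 : [e, e'] = [(a1, Ty.H), (a2, Ty.H)] := h.eq_of_length (by simp)
    simp only [List.cons.injEq, and_true] at h3
    exact h1 (by rw [h3.1])

/-- (1): the new cycle does not separate the remaining vertices from the dart `a1 a3`. -/
theorem outer_zero (ha13 : G.Adj a1 a3) (H0' : ∀ c, IsCyc G c → s c a1 a3 = 0)
    {c : V → V → ZMod 2} (hc : IsCyc G c) {U : Set V} (hU : (G.induce U).Preconnected)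
    (h0 : ∀ v ∈ U, ∀ w, c v w = 0) (ha3 : a3 ∈ U) :
    ∀ v ∈ U, ∀ w, G.Adj v w → s c v w = 0 := by
  refine prop_conn hs hc hU h0 ha3 ha13.symm ?_
  rw [← flip_eq hs hc ha13.symm (h0 a3 ha3 a1)]
  exact H0' c hc

end base

section ind

variable {V : Type} [Fintype V] {G : SimpleGraph V} {s : (V → V → ZMod 2) → V → V → ZMod 2}
  {a1 a2 a3 : V}

theorem cycP {F : List (Face V)} {A : List (V × Ty)} {w0 : V} {t0 : Ty} {R : List (V × Ty)}
    {wq : V} {τ : Ty} {C : List (V × Ty)}
    (inv : Inv G s a1 a2 a3 F (A ++ (w0, t0) :: (R ++ (wq, τ) :: C))) {P : List V}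
    (ear : Ear G (BVert a1 a2 F) a3 w0 (R.map Prod.fst) wq P) :
    IsCyc G (fun u v => pth (w0 :: (R.map Prod.fst ++ [wq])) u v +
      pth (w0 :: (P ++ [wq])) u v) := by
  refine isCyc_two ?_ ear.chain ?_
  · refine chain_sub inv.chain ⟨A.map Prod.fst, C.map Prod.fst, by simp⟩
  · have : ∀ L : List V, (w0 :: (L ++ [wq])).getLast (by simp) = wq := by
      intro L
      rw [List.getLast_cons (by simp), List.getLast_append_singleton]
    rw [this, this]

omit [Fintype V] in
theorem cycP_zero {F : List (Face V)} {A : List (V × Ty)} {w0 : V} {t0 : Ty} {R : List (V × Ty)}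
    {wq : V} {τ : Ty} {C : List (V × Ty)}
    (inv : Inv G s a1 a2 a3 F (A ++ (w0, t0) :: (R ++ (wq, τ) :: C))) {P : List V} {u : V}
    (hu : ¬ BVert a1 a2 F u) (huP : u ∉ P) (v : V) :
    pth (w0 :: (R.map Prod.fst ++ [wq])) u v + pth (w0 :: (P ++ [wq])) u v = 0 := by
  have hb := inv.cb.bvert
  simp only [List.map_append, List.map_cons] at hb
  have h0 : u ≠ w0 := by rintro rfl; exact hu (hb _ (by simp))
  have hq : u ≠ wq := by rintro rfl; exact hu (hb _ (by simp))
  have hR : u ∉ R.map Prod.fst := fun h => hu (hb u (by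
    simp only [List.mem_append, List.mem_cons]
    exact Or.inr (Or.inr (Or.inl h))))
  rw [pth_zero_left, pth_zero_left, add_zero]
  · simp only [List.mem_cons, List.mem_append, List.not_mem_nil, or_false, not_or]
    exact ⟨h0, huP, hq⟩
  · simp only [List.mem_cons, List.mem_append, List.not_mem_nil, or_false, not_or]
    exact ⟨h0, hR, hq⟩

open Classical in
/-- The induction. -/
theorem main_ind (hs : Sys G s) (h3 : ThreeConnected G) (t4 : T4) (ha : G.Adj a1 a3)
    (H0 : ∀ c, IsCyc G c → s c a2 a1 = 0) (H0' : ∀ c, IsCyc G c → s c a1 a3 = 0) :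
    ∀ (n : ℕ) (F : List (Face V)) (Z : List (V × Ty)),
    (Finset.univ.filter (fun v => ¬ BVert a1 a2 F v)).card = n → Inv G s a1 a2 a3 F Z →
    ¬ BVert a1 a2 F a3 → (G.induce {v | ¬ BVert a1 a2 F v}).Connected →
    ∃ (F' : List (Face V)) (t0 : Ty) (wq : V) (C : List (V × Ty)),
      Inv G s a1 a2 a3 F' ((a1, t0) :: (pEnt [a3] ++ (wq, Ty.D) :: C)) ∧
      ∀ v, BVert a1 a2 F' v := by
  intro n
  induction n using Nat.strong_induction_on with
  | _ n ih =>
    intro F Z hn inv ha3 hconn
    by_cases hex : ∃ u, ¬ BVert a1 a2 F u ∧ u ≠ a3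
    · -- an ear from T4
      obtain ⟨S, hSdef⟩ : ∃ S : Finset V, S = Finset.univ.filter (fun v => BVert a1 a2 F v) :=
        ⟨_, rfl⟩
      have hS : ∀ v, v ∈ S ↔ BVert a1 a2 F v := by
        intro v; rw [hSdef]; simp
      have hset : {v | v ∉ S} = {v | ¬ BVert a1 a2 F v} := by
        ext v
        simp only [Set.mem_ofPred_eq, hS]
      have hcard : 2 ≤ S.card := by
        have h1 : ({a1, a2} : Finset V) ⊆ S := by
          intro v hv
          rw [Finset.mem_insert, Finset.mem_singleton] at hv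
          rw [hS]
          rcases hv with h | h
          · exact Or.inl h
          · exact Or.inr (Or.inl h)
        have h2 := Finset.card_le_card h1
        rwa [Finset.card_pair inv.adj.ne] at h2
      obtain ⟨P, hPne, hPnd, hPout, hPconn, hPch, hP⟩ := t4 V G h3 S a3 (by rwa [hS]) hcard
        (by rw [hset]; exact hconn)
        (by obtain ⟨u, hu, hu'⟩ := hex; exact ⟨u, by rwa [hS], hu'⟩)
      have hset2 : {v | v ∉ S ∧ v ∉ P} = {v | ¬ BVert a1 a2 F v ∧ v ∉ P} := by
        ext v
        simp only [Set.mem_ofPred_eq, hS]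
      rw [hset2] at hPconn
      have hout : ∀ v ∈ P, ¬ BVert a1 a2 F v := fun v hv => by
        rw [← hS]; exact (hPout v hv).1
      have ha3P : a3 ∉ P := fun h => (hPout a3 h).2 rfl
      have hear : ∃ (A : List (V × Ty)) (w0 : V) (t0 : Ty) (R : List (V × Ty)) (wq : V) (τ : Ty)
          (C : List (V × Ty)) (P' : List V), Z = A ++ (w0, t0) :: (R ++ (wq, τ) :: C) ∧
          (∀ v, v ∈ P' ↔ v ∈ P) ∧
          Ear G (BVert a1 a2 F) a3 w0 (R.map Prod.fst) wq P' := by
        rcases hP with ⟨y, hPy, x, hx, x', hx', hxx, hyx, hyx'⟩ |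
          ⟨y, y', M, x, x', hPy, hx, hx', hxx, h5, h6, h7, h8⟩
        · have hyP : y ∈ P := by rw [hPy]; simp
          obtain ⟨u, hu, hyu⟩ := nbr_of_connected hconn (v := y) (x := a3) (hout y hyP) ha3
            (fun h => ha3P (h ▸ hyP))
          obtain ⟨A, w0, t0, R, wq, τ, C, hZ, hE, -⟩ := ear_one inv (hout y hyP) ((hS x).1 hx)
            ((hS x').1 hx') hxx hyx hyx' (Or.inr ⟨u, hu, by simp [hyu.ne'], hyu⟩)
          exact ⟨A, w0, t0, R, wq, τ, C, [y], hZ, fun v => by rw [hPy], hE⟩
        · exact ear_two inv hPnd hout hPch hPy ((hS x).1 hx) ((hS x').1 hx') hxx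
            (fun t ht => h5 t ((hS t).2 ht)) (fun t ht => h6 t ((hS t).2 ht))
            (fun v hv t ht => h7 v hv t ((hS t).2 ht)) h8 h3
      obtain ⟨A, w0, t0, R, wq, τ, C, P', rfl, hPP, ear⟩ := hear
      have h6 : ∀ u, ¬ BVert a1 a2 F u → u ∉ P' → ∀ w, G.Adj u w →
          s (fun u v => pth (w0 :: (R.map Prod.fst ++ [wq])) u v +
            pth (w0 :: (P' ++ [wq])) u v) u w = 0 := by
        intro u hu huP w hw
        refine outer_zero hs ha H0' (cycP inv ear) hPconn.preconnected ?_ ⟨ha3, ha3P⟩ u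
          ⟨hu, fun h => huP ((hPP u).2 h)⟩ w hw
        intro v hv w'
        exact cycP_zero inv hv.1 (fun h => hv.2 ((hPP v).1 h)) w'
      obtain ⟨segs, hsegs, inv'⟩ := inv_step hs H0 inv ha3 ear h6
      have hbv : ∀ v, BVert a1 a2 (newFaces P' true w0 segs ++ F) v ↔ BVert a1 a2 F v ∨ v ∈ P' :=
        bvert_step hsegs
      refine ih _ ?_ _ _ rfl inv' ?_ ?_
      · rw [← hn]
        apply Finset.card_lt_card
        rw [Finset.ssubset_iff_of_subset]
        · obtain ⟨p, hp⟩ := List.exists_mem_of_ne_nil P' ear.ne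
          refine ⟨p, ?_, ?_⟩
          · simp only [Finset.mem_filter, Finset.mem_univ, true_and]
            exact ear.out p hp
          · simp only [Finset.mem_filter, Finset.mem_univ, true_and, not_not]
            rw [hbv]
            exact Or.inr hp
        · intro v hv
          simp only [Finset.mem_filter, Finset.mem_univ, true_and] at hv ⊢
          rw [hbv, not_or] at hv
          exact hv.1
      · rw [hbv, not_or, hPP]
        exact ⟨ha3, ha3P⟩
      · have hset3 : {v | ¬ BVert a1 a2 (newFaces P' true w0 segs ++ F) v} =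
            {v | ¬ BVert a1 a2 F v ∧ v ∉ P} := by
          ext v
          simp only [Set.mem_ofPred_eq, hbv, not_or, hPP]
        rw [hset3]
        exact hPconn
    · -- the last vertex
      push Not at hex
      obtain ⟨x, hx, -⟩ := exists_nbr h3 a3 ∅ (by simp)
      obtain ⟨x', hx', hxx⟩ := exists_nbr h3 a3 {x} (by simp)
      rw [Finset.mem_singleton] at hxx
      have hSn : ∀ z, G.Adj a3 z → BVert a1 a2 F z := by
        intro z hz
        by_contra h
        have := hex z h
        rw [this] at hz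
        exact G.loopless.irrefl _ hz
      obtain ⟨A, w0, t0, R, wq, τ, C, rfl, ear, hA⟩ := ear_one inv ha3 (hSn x hx) (hSn x' hx')
        (Ne.symm hxx) hx hx' (Or.inl rfl)
      have h6 : ∀ u, ¬ BVert a1 a2 F u → u ∉ [a3] → ∀ w, G.Adj u w →
          s (fun u v => pth (w0 :: (R.map Prod.fst ++ [wq])) u v +
            pth (w0 :: ([a3] ++ [wq])) u v) u w = 0 := by
        intro u hu huP
        exact absurd (hex u hu) (by simpa using huP)
      obtain ⟨segs, hsegs, inv'⟩ := inv_step hs H0 inv ha3 ear h6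
      have hbv : ∀ v, BVert a1 a2 (newFaces [a3] true w0 segs ++ F) v ↔
        BVert a1 a2 F v ∨ v ∈ [a3] := bvert_step hsegs
      obtain ⟨T, hT, -⟩ := inv.cb.head
      have hAnil : A = [] ∧ w0 = a1 := by
        cases A with
        | nil =>
          simp only [List.nil_append, List.map_cons, List.cons.injEq] at hT
          exact ⟨rfl, hT.1⟩
        | cons e A =>
          simp only [List.cons_append, List.map_cons, List.cons.injEq] at hT
          exact absurd (hT.1 ▸ ha.symm) (hA e (by simp))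
      obtain ⟨rfl, rfl⟩ := hAnil
      refine ⟨_, t0, wq, C, inv', fun v => ?_⟩
      rw [hbv]
      by_contra h
      rw [not_or] at h
      exact h.2 (by simpa using hex v h.1)

end ind

section final

variable {V : Type} [Fintype V] {G : SimpleGraph V} {s : (V → V → ZMod 2) → V → V → ZMod 2}
  {a1 a2 a3 : V}

omit [Fintype V] in
theorem all_D {T : List (V × Ty)} (h : ∀ e e', [e, e'] <:+: T → e.2 = Ty.D ∨ e'.2 = Ty.U)
    (hl : ∀ e ∈ T.getLast?, e.2 = Ty.D) : ∀ e ∈ T, e.2 = Ty.D := by
  induction T with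
  | nil => simp
  | cons e T ih =>
    match T, ih, h, hl with
    | [], _, _, hl =>
      intro a ha
      rw [List.mem_singleton] at ha
      subst ha
      exact hl a (by simp)
    | e' :: T, ih, h, hl =>
      have h1 := ih (fun a b hab => h a b (hab.trans (List.suffix_cons e _).isInfix))
        (fun a ha => hl a (by rwa [List.getLast?_cons_cons]))
      intro a ha
      rcases List.mem_cons.1 ha with rfl | ha
      · rcases h a e' ⟨[], T, rfl⟩ with h2 | h2
        · exact h2
        · rw [h1 e' (by simp)] at h2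
          cases h2
      · exact h1 a ha

omit [Fintype V] in
theorem zip_infix (l : List V) : ∀ x : V, ∀ p ∈ (x :: l).zip l, [p.1, p.2] <:+: x :: l := by
  induction l with
  | nil => intro x p hp; simp at hp
  | cons y l ih =>
    intro x p hp
    rw [List.zip_cons_cons, List.mem_cons] at hp
    rcases hp with rfl | hp
    · exact ⟨[], l, rfl⟩
    · exact (ih y p hp).trans (List.suffix_cons x _).isInfix

/-- All darts of the final contour have the same functional. -/
theorem final_darts (hs : Sys G s) {F : List (Face V)} {Z : List (V × Ty)}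
    (inv : Inv G s a1 a2 a3 F Z) (hall : ∀ v, BVert a1 a2 F v)
    (H0 : ∀ c, IsCyc G c → s c a2 a1 = 0) (H0' : ∀ c, IsCyc G c → s c a1 a3 = 0)
    {L : List V} (hZ : Z.map Prod.fst = a1 :: a3 :: L) (hL : L ≠ []) :
    (a2 :: Z.map Prod.fst).IsChain (fun x y => ∀ c, IsCyc G c → s c x y = 0) := by
  classical
  have hnd := inv.cb.nodup
  obtain ⟨T', hT', -⟩ := inv.cb.getLast
  have hchain := inv.chain
  have hd := inv.d
  rw [hZ] at hnd hT' hchain hd ⊢
  refine List.isChain_cons_cons.2 ⟨H0, ?_⟩
  refine chain_forward H0' ?_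
  rintro a b c ⟨X, Y, hXY⟩ hab c' hc'
  have hzs : a1 :: a3 :: L = (X ++ [a]) ++ b :: ([] ++ c :: Y) := by rw [← hXY]; simp
  have st : Str G a1 a2 (X ++ [a]) b [] c Y := by
    refine ⟨by rw [← hzs]; exact hnd, by rw [← hzs]; exact hchain, ⟨a3 :: L, hzs.symm⟩,
      ⟨T', by rw [← hzs]; exact hT'⟩, inv.adj⟩
  have hloc := st.loc0 (X' := a2 :: X) (em := a) (g := c) (M' := []) rfl rfl
  rw [← hzs] at hloc
  have hcyc : IsCyc G (pth (a2 :: a1 :: a3 :: L)) := by rw [hzs]; exact st.cyc
  have hinfab : [a, b] <:+: a1 :: a3 :: L := ⟨X, c :: Y, by rw [hzs]; simp⟩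
  have hinfbc : [b, c] <:+: a1 :: a3 :: L := ⟨X ++ [a], Y, by rw [hzs]; simp⟩
  have hadjab := infix_chain hchain hinfab
  have hadjbc := infix_chain hchain hinfbc
  have hlen : 3 ≤ (a1 :: a3 :: L).length := by
    have := List.length_pos_iff.2 hL
    simp only [List.length_cons]
    omega
  have hone := cyc_one hnd rfl hT' hlen hinfab
  have hne : a ≠ c := by
    have := hnd
    rw [hzs] at this
    exact (List.nodup_append.1 this).2.2 a (by simp) c (by simp)
  have hba1 : b ≠ a1 := by
    rintro rfl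
    have h1 := st.a1_mem_left
    have h2 := hnd
    rw [hzs] at h2
    have h3 : b ∉ X ++ [a] := fun h => (List.nodup_append.1 h2).2.2 b h b (by simp) rfl
    obtain ⟨U, hU⟩ := st.head
    cases X with
    | nil =>
      simp only [List.nil_append, List.cons_append, List.cons.injEq] at hU
      exact h3 (by simp [hU.1])
    | cons x X =>
      simp only [List.cons_append, List.cons.injEq] at hU
      exact h3 (by simp [hU.1])
  have hba2 : b ≠ a2 := st.w0_ne
  refine (rotF hs hcyc hadjab.symm hadjbc hne hloc ?_ ?_ hc').trans (hab c' hc')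
  · have h1 := hs.flip _ hcyc a b hadjab
    rw [hab _ hcyc, zero_add, hone.1] at h1
    exact h1
  · intro w hw hwa hwc
    refine hd b (hinfab.subset (by simp)) w (hall w) hw ?_ ?_ ?_
    · rw [hloc, if_neg hwa, if_neg hwc, add_zero]
    · rintro ⟨h, -⟩; exact hba1 h
    · rintro ⟨h, -⟩; exact hba2 h

end final

end Pool.Agent.Run7.h215
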