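import Pool.Agent.Run7.h215.CBBasic

/-!
# T6, part a: the labels of a building sequence
-/

set_option autoImplicit false

namespace Pool.Agent.Run7.h215

namespace T6

section
variable {V : Type*}

/-! ## positions -/

/-- the vertices of `L` have positions `k, k+1, …` -/
def PosL (ps : V → ℕ) : ℕ → List V → Prop
  | _, [] => True
  | k, v :: L => ps v = k ∧ PosL ps (k + 1) L

theorem posL_append {ps : V → ℕ} {k : ℕ} {A B : List V} :
    PosL ps k (A ++ B) ↔ PosL ps k A ∧ PosL ps (k + A.length) B := by
  induction A generalizing k with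
  | nil => simp [PosL]
  | cons v A ih =>
    simp only [List.cons_append, PosL, ih, List.length_cons, and_assoc]
    rw [show k + 1 + A.length = k + (A.length + 1) by omega]

theorem PosL.bounds {ps : V → ℕ} {k : ℕ} {L : List V} (h : PosL ps k L) {v : V} (hv : v ∈ L) :
    k ≤ ps v ∧ ps v < k + L.length := by
  induction L generalizing k with
  | nil => simp at hv
  | cons w L ih =>
    obtain ⟨h1, h2⟩ := h
    rw [List.mem_cons] at hv
    rw [List.length_cons]
    rcases hv with rfl | hv
    · omega
    · have := ih h2 hv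
      omega

theorem PosL.shift {ps ps' : V → ℕ} {k k' : ℕ} {L : List V} (h : PosL ps k L)
    (hs : ∀ v ∈ L, ∀ j, ps v = k + j → ps' v = k' + j) : PosL ps' k' L := by
  induction L generalizing k k' with
  | nil => trivial
  | cons w L ih =>
    obtain ⟨h1, h2⟩ := h
    refine ⟨hs w List.mem_cons_self 0 (by omega), ih h2 fun v hv j hj => ?_⟩
    have := hs v (List.mem_cons_of_mem _ hv) (j + 1) (by omega)
    omega

theorem posL_idxOf [DecidableEq V] {c : ℕ} {P : List V} (h : P.Nodup) :
    PosL (fun v => c + P.idxOf v) c P := by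
  induction P generalizing c with
  | nil => trivial
  | cons v P ih =>
    rw [List.nodup_cons] at h
    refine ⟨by simp, (ih (c := c + 1) h.2).shift fun w hw j hj => ?_⟩
    have hvw : w ≠ v := fun hvw => h.1 (hvw ▸ hw)
    rw [List.idxOf_cons_ne _ (Ne.symm hvw)]
    omega

/-! ## states and relations -/

/-- A state: positions of exits and label functions -/
structure St (V : Type*) where
  ps : V → ℕ
  Λ : List (V → Fin 3)

def le0 (s : St V) (a b : V) : Prop := s.ps a ≤ s.ps b ∧ ∀ ρ ∈ s.Λ, ρ b = 0 → ρ a = 0
def le1 (s : St V) (a b : V) : Prop := s.ps a ≤ s.ps b ∧ ∀ ρ ∈ s.Λ, ρ a = 1 → ρ b = 1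
def le2 (s : St V) (a b : V) : Prop := ∀ ρ ∈ s.Λ, ρ a = 2 → ρ b = 2
def st (s : St V) (m : Fin 3) (a b : V) : Prop := ∃ ρ ∈ s.Λ, ρ a = m ∧ ρ b ≠ m

structure FL (s : St V) (pend : V → V → Prop) (f : Face V) : Prop where
  left_const : ∀ v ∈ f.wl :: f.l, le0 s v f.wl ∧ le0 s f.wl v
  left_max : ∀ v ∈ f.r ++ f.wr :: f.top, le0 s f.wl v ∧ st s 0 f.wl v
  right_const : ∀ v ∈ f.r ++ [f.wr], le1 s v f.wr ∧ le1 s f.wr v
  right_max : ∀ v ∈ f.wl :: f.l ++ f.top, le1 s v f.wr ∧ st s 1 f.wr v
  top_const : ∀ v ∈ f.top, ∀ w ∈ f.top, le2 s v w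
  top_max : ∀ v ∈ f.top, ∀ w ∈ f.wl :: f.l ++ (f.r ++ [f.wr]), le2 s w v ∧ st s 2 v w
  left_mono : (f.wl :: f.l).IsChain (fun a b => le1 s a b ∧ st s 1 b a)
  right_mono : (f.r ++ [f.wr]).IsChain (fun a b => le0 s a b ∧ st s 0 a b)
  top_mono : f.top.IsChain (fun a b => le0 s a b ∧ (st s 0 a b ∨ pend a b))
  first_edge : f.first = true → ∀ y ∈ f.top.head?, le1 s f.wl y
  mid_left : f.first = false → ∀ y ∈ f.top, le1 s y f.wl ∧ st s 1 f.wl y
  last_edge : f.last = true → ∀ y ∈ f.top.getLast?, le0 s y f.wr
  mid_right : f.last = false → ∀ y ∈ f.top, le0 s f.wr y ∧ st s 0 f.wr y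

/-- all vertices of the face -/
def fv (f : Face V) : List V := f.wl :: f.l ++ (f.r ++ [f.wr]) ++ f.top

theorem FL.mono {s s' : St V} {pend pend' : V → V → Prop} {f : Face V} (h : FL s pend f)
    (h0 : ∀ a ∈ fv f, ∀ b ∈ fv f, le0 s a b → le0 s' a b)
    (h1 : ∀ a ∈ fv f, ∀ b ∈ fv f, le1 s a b → le1 s' a b)
    (h2 : ∀ a ∈ fv f, ∀ b ∈ fv f, le2 s a b → le2 s' a b)
    (h3 : ∀ m, ∀ a ∈ fv f, ∀ b ∈ fv f, st s m a b → st s' m a b)
    (h4 : ∀ a ∈ fv f, ∀ b ∈ fv f, pend a b → st s' 0 a b ∨ pend' a b) : FL s' pend' f := by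
  have mwl : f.wl ∈ fv f := by simp [fv]
  have mwr : f.wr ∈ fv f := by simp [fv]
  have ml : ∀ v ∈ f.wl :: f.l, v ∈ fv f := fun v hv => by
    simp only [fv, List.mem_append, List.mem_cons] at hv ⊢; tauto
  have mr : ∀ v ∈ f.r ++ [f.wr], v ∈ fv f := fun v hv => by
    simp only [fv, List.mem_append, List.mem_cons] at hv ⊢; tauto
  have mt : ∀ v ∈ f.top, v ∈ fv f := fun v hv => by
    simp only [fv, List.mem_append, List.mem_cons]; tauto
  refine ⟨?_, ?_, ?_, ?_, ?_, ?_, ?_, ?_, ?_, ?_, ?_, ?_, ?_⟩
  · intro v hv
    obtain ⟨i1, i2⟩ := h.left_const v hv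
    exact ⟨h0 _ (ml v hv) _ mwl i1, h0 _ mwl _ (ml v hv) i2⟩
  · intro v hv
    have hm : v ∈ fv f := by
      simp only [fv, List.mem_append, List.mem_cons] at hv ⊢; tauto
    obtain ⟨i1, i2⟩ := h.left_max v hv
    exact ⟨h0 _ mwl _ hm i1, h3 _ _ mwl _ hm i2⟩
  · intro v hv
    obtain ⟨i1, i2⟩ := h.right_const v hv
    exact ⟨h1 _ (mr v hv) _ mwr i1, h1 _ mwr _ (mr v hv) i2⟩
  · intro v hv
    have hm : v ∈ fv f := by
      simp only [fv, List.mem_append, List.mem_cons] at hv ⊢; tauto
    obtain ⟨i1, i2⟩ := h.right_max v hv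
    exact ⟨h1 _ hm _ mwr i1, h3 _ _ mwr _ hm i2⟩
  · intro v hv w hw
    exact h2 _ (mt v hv) _ (mt w hw) (h.top_const v hv w hw)
  · intro v hv w hw
    have hm : w ∈ fv f := by
      simp only [fv, List.mem_append, List.mem_cons] at hw ⊢; tauto
    obtain ⟨i1, i2⟩ := h.top_max v hv w hw
    exact ⟨h2 _ hm _ (mt v hv) i1, h3 _ _ (mt v hv) _ hm i2⟩
  · exact h.left_mono.imp_of_mem_imp fun a b ha hb hab =>
      ⟨h1 _ (ml a ha) _ (ml b hb) hab.1, h3 _ _ (ml b hb) _ (ml a ha) hab.2⟩
  · exact h.right_mono.imp_of_mem_imp fun a b ha hb hab =>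
      ⟨h0 _ (mr a ha) _ (mr b hb) hab.1, h3 _ _ (mr a ha) _ (mr b hb) hab.2⟩
  · refine h.top_mono.imp_of_mem_imp fun a b ha hb hab =>
      ⟨h0 _ (mt a ha) _ (mt b hb) hab.1, ?_⟩
    rcases hab.2 with h5 | h5
    · exact Or.inl (h3 _ _ (mt a ha) _ (mt b hb) h5)
    · exact h4 _ (mt a ha) _ (mt b hb) h5
  · intro hf y hy
    exact h1 _ mwl _ (mt y (List.mem_of_mem_head? hy)) (h.first_edge hf y hy)
  · intro hf y hy
    obtain ⟨i1, i2⟩ := h.mid_left hf y hy
    exact ⟨h1 _ (mt y hy) _ mwl i1, h3 _ _ mwl _ (mt y hy) i2⟩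
  · intro hf y hy
    exact h0 _ (mt y (List.mem_of_getLast? hy)) _ mwr (h.last_edge hf y hy)
  · intro hf y hy
    obtain ⟨i1, i2⟩ := h.mid_right hf y hy
    exact ⟨h0 _ mwr _ (mt y hy) i1, h3 _ _ mwr _ (mt y hy) i2⟩

/-! ## segments -/

/-- number of entries of a segment -/
def sn (s : Seg V) : ℕ := s.l.length + (s.r.length + 1)

theorem length_entries (s : Seg V) : s.entries.length = sn s := by
  have := congrArg List.length (Seg.entries_map_fst s)
  rw [List.length_map] at this
  rw [this]
  simp [sn]

/-- total number of entries -/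
def segLen (segs : List (Seg V)) : ℕ := (segs.flatMap Seg.entries).length

@[simp] theorem segLen_nil : segLen ([] : List (Seg V)) = 0 := rfl

@[simp] theorem segLen_cons (s : Seg V) (ss : List (Seg V)) :
    segLen (s :: ss) = sn s + segLen ss := by
  simp [segLen, length_entries]

@[simp] theorem segLen_append (s s' : List (Seg V)) : segLen (s ++ s') = segLen s + segLen s' := by
  simp [segLen]

theorem mem_newFaces {P : List V} {b : Bool} {w : V} {segs : List (Seg V)} {f : Face V}
    (hf : f ∈ newFaces P b w segs) : ∃ (pre : List (Seg V)) (s : Seg V) (post : List (Seg V)),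
      segs = pre ++ s :: post ∧
      f = ⟨lastW w pre, s.l, s.r, s.w, P, b && pre.isEmpty, post.isEmpty⟩ := by
  induction segs generalizing b w with
  | nil => simp at hf
  | cons s ss ih =>
    rw [newFaces_cons, List.mem_cons] at hf
    rcases hf with rfl | hf
    · exact ⟨[], s, ss, rfl, by simp⟩
    · obtain ⟨pre, s', post, h1, h2⟩ := ih hf
      exact ⟨s :: pre, s', post, by rw [h1]; rfl, by rw [h2]; simp⟩

/-- new offset of an old offset in the open stretch; `q = P.length + 1` -/
def neo (q : ℕ) : ℕ → List (Seg V) → ℕ → ℕ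
  | _, [], t => t + q
  | left, s :: ss, t =>
    if t ≤ s.l.length then left else
      if t < sn s then (if ss.isEmpty then q else 1)
      else neo q (if ss.isEmpty then q else 1) ss (t - sn s)

theorem neo_cons (q left : ℕ) (s : Seg V) (ss : List (Seg V)) (t : ℕ) :
    neo q left (s :: ss) t = if t ≤ s.l.length then left else
      if t < sn s then (if ss.isEmpty then q else 1)
      else neo q (if ss.isEmpty then q else 1) ss (t - sn s) := rfl

theorem neo_ge {q left : ℕ} (h1 : left ≤ 1) (h2 : 1 ≤ q) {segs : List (Seg V)} (t : ℕ)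
    (h : segs ≠ []) : left ≤ neo q left segs t := by
  induction segs generalizing left t with
  | nil => exact absurd rfl h
  | cons s ss ih =>
    rw [neo_cons]
    split_ifs with a1 a2 a3 a4
    · exact le_rfl
    · omega
    · omega
    · rw [List.isEmpty_iff] at a4
      subst a4
      simp only [neo]
      omega
    · have := ih (left := 1) le_rfl (t - sn s) (fun h => a4 (by simp [h]))
      omega

theorem neo_mono {q left : ℕ} (h1 : left ≤ 1) (h2 : 1 ≤ q) {segs : List (Seg V)}
    (h : segs ≠ []) {t t' : ℕ} (ht : t ≤ t') : neo q left segs t ≤ neo q left segs t' := by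
  induction segs generalizing left t t' with
  | nil => exact absurd rfl h
  | cons s ss ih =>
    rw [neo_cons, neo_cons]
    by_cases hss : ss = []
    · subst hss
      simp only [List.isEmpty_nil, if_true, neo]
      split_ifs <;> omega
    · have hemp : ss.isEmpty = false := by
        cases ss with
        | nil => exact absurd rfl hss
        | cons _ _ => rfl
      rw [hemp]
      simp only [Bool.false_eq_true, if_false]
      have g1 := neo_ge (left := 1) le_rfl h2 (t' - sn s) hss
      have g2 := fun hh => ih (left := 1) le_rfl hss (t := t - sn s) (t' := t' - sn s) hh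
      have g3 := g2 (by omega)
      split_ifs <;> omega

theorem neo_append (q left : ℕ) (pre : List (Seg V)) (s : Seg V) (post : List (Seg V)) (t : ℕ) :
    neo q left (pre ++ s :: post) (segLen pre + t) =
      neo q (if pre.isEmpty then left else 1) (s :: post) t := by
  induction pre generalizing left with
  | nil => simp
  | cons s' pre ih =>
    rw [List.cons_append, neo_cons, segLen_cons]
    have h1 : ¬ (sn s' + segLen pre + t ≤ s'.l.length) := by unfold sn; omega
    have h2 : ¬ (sn s' + segLen pre + t < sn s') := by omega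
    rw [if_neg h1, if_neg h2, show sn s' + segLen pre + t - sn s' = segLen pre + t by omega, ih]
    cases pre with
    | nil => simp
    | cons _ _ => simp

theorem neo_end (q left : ℕ) (segs : List (Seg V)) (t : ℕ) :
    neo q left segs (segLen segs + t) = t + q := by
  induction segs generalizing left with
  | nil => simp [neo]
  | cons s ss ih =>
    rw [neo_cons, segLen_cons]
    have h1 : ¬ (sn s + segLen ss + t ≤ s.l.length) := by unfold sn; omega
    have h2 : ¬ (sn s + segLen ss + t < sn s) := by omega
    rw [if_neg h1, if_neg h2, show sn s + segLen ss + t - sn s = segLen ss + t by omega, ih]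

theorem neo_zero (q left : ℕ) {segs : List (Seg V)} (h : segs ≠ []) : neo q left segs 0 = left := by
  cases segs with
  | nil => exact absurd rfl h
  | cons s ss => simp [neo]

/-- new position -/
def ne (k q : ℕ) (segs : List (Seg V)) (i : ℕ) : ℕ :=
  if i ≤ k then i else k + neo q 0 segs (i - k)

theorem ne_mono {k q : ℕ} (h2 : 1 ≤ q) {segs : List (Seg V)} (h : segs ≠ []) {i i' : ℕ}
    (hi : i ≤ i') : ne k q segs i ≤ ne k q segs i' := by
  unfold ne
  split_ifs with a b
  · exact hi
  · omega
  · omega
  · have := neo_mono (left := 0) (by omega) h2 h (t := i - k) (t' := i' - k) (by omega)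
    omega

theorem ne_le {k q : ℕ} {segs : List (Seg V)} {i : ℕ} (hi : i ≤ k) : ne k q segs i = i := by
  unfold ne; rw [if_pos hi]

theorem ne_end {k q : ℕ} {segs : List (Seg V)} (h : segs ≠ []) {i j : ℕ}
    (hi : i = k + segLen segs + j) : ne k q segs i = k + q + j := by
  have h1 : 1 ≤ segLen segs := by
    cases segs with
    | nil => exact absurd rfl h
    | cons s ss => rw [segLen_cons]; unfold sn; omega
  unfold ne
  rw [if_neg (by omega), show i - k = segLen segs + j by omega, neo_end]
  omega

/-- positions in the left part of a segment (including its left end) -/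
theorem ne_left {k q : ℕ} {pre : List (Seg V)} {s : Seg V} {post : List (Seg V)} {i : ℕ}
    (h1 : k + segLen pre ≤ i) (h2 : i ≤ k + segLen pre + s.l.length) :
    ne k q (pre ++ s :: post) i = k + (if pre.isEmpty then 0 else 1) := by
  unfold ne
  split_ifs with a b b
  · omega
  · cases pre with
    | nil => simp at b
    | cons s' pre => rw [segLen_cons] at h1; unfold sn at h1; omega
  · obtain ⟨t, rfl⟩ : ∃ t, i = k + segLen pre + t := ⟨i - (k + segLen pre), by omega⟩
    rw [show k + segLen pre + t - k = segLen pre + t by omega, neo_append, neo_cons,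
      if_pos (by omega), if_pos b]
  · obtain ⟨t, rfl⟩ : ∃ t, i = k + segLen pre + t := ⟨i - (k + segLen pre), by omega⟩
    rw [show k + segLen pre + t - k = segLen pre + t by omega, neo_append, neo_cons,
      if_pos (by omega), if_neg b]

theorem ne_right {k q : ℕ} {pre : List (Seg V)} {s : Seg V} {post : List (Seg V)} {i : ℕ}
    (h1 : k + segLen pre + s.l.length < i) (h2 : i ≤ k + segLen pre + sn s) :
    ne k q (pre ++ s :: post) i = k + (if post.isEmpty then q else 1) := by
  unfold ne
  rw [if_neg (by omega)]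
  obtain ⟨t, rfl⟩ : ∃ t, i = k + segLen pre + t := ⟨i - (k + segLen pre), by omega⟩
  rw [show k + segLen pre + t - k = segLen pre + t by omega, neo_append, neo_cons,
    if_neg (by omega)]
  split_ifs with a b b
  · rfl
  · rfl
  · rw [show t - sn s = 0 by omega]
    rw [List.isEmpty_iff] at b
    subst b
    simp [neo]
  · rw [show t - sn s = 0 by omega, neo_zero]
    intro h
    exact b (by simp [h])

/-- the split positions -/
def splits : ℕ → List (Seg V) → List ℕ
  | _, [] => []
  | k, s :: ss => (k + s.l.length) :: splits (k + sn s) ss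

theorem length_splits (k : ℕ) (segs : List (Seg V)) : (splits k segs).length = segs.length := by
  induction segs generalizing k with
  | nil => rfl
  | cons s ss ih => simp [splits, ih]

theorem splits_append (k : ℕ) (pre : List (Seg V)) (segs : List (Seg V)) :
    splits k (pre ++ segs) = splits k pre ++ splits (k + segLen pre) segs := by
  induction pre generalizing k with
  | nil => simp [splits]
  | cons s pre ih =>
    simp only [List.cons_append, splits, ih, segLen_cons]
    rw [show k + sn s + segLen pre = k + (sn s + segLen pre) by omega]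

theorem splits_bounds {k : ℕ} {segs : List (Seg V)} {sp : ℕ} (h : sp ∈ splits k segs) :
    k ≤ sp ∧ sp < k + segLen segs := by
  induction segs generalizing k with
  | nil => simp [splits] at h
  | cons s ss ih =>
    rw [splits, List.mem_cons] at h
    rw [segLen_cons]
    rcases h with rfl | h
    · unfold sn; omega
    · have := ih h; omega

/-- trichotomy of the split positions relative to a segment -/
theorem splits_tri {k : ℕ} {pre : List (Seg V)} {s : Seg V} {post : List (Seg V)} {sp : ℕ}
    (h : sp ∈ splits k (pre ++ s :: post)) :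
    sp < k + segLen pre ∨ sp = k + segLen pre + s.l.length ∨ k + segLen pre + sn s ≤ sp := by
  rw [splits_append, List.mem_append, splits, List.mem_cons] at h
  rcases h with h | h | h
  · left; exact (splits_bounds h).2
  · right; left; exact h
  · right; right; exact (splits_bounds h).1

theorem mem_splits {k : ℕ} {pre : List (Seg V)} {s : Seg V} {post : List (Seg V)} :
    k + segLen pre + s.l.length ∈ splits k (pre ++ s :: post) := by
  rw [splits_append, List.mem_append, splits]
  exact Or.inr List.mem_cons_self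

theorem exists_split_lt {k : ℕ} {pre : List (Seg V)} {s : Seg V} {post : List (Seg V)}
    (h : pre ≠ []) : ∃ sp ∈ splits k (pre ++ s :: post), sp < k + segLen pre := by
  cases pre with
  | nil => exact absurd rfl h
  | cons s' pre =>
    refine ⟨k + s'.l.length, by simp [splits], ?_⟩
    rw [segLen_cons]; unfold sn; omega

theorem exists_split_ge {k : ℕ} {pre : List (Seg V)} {s : Seg V} {post : List (Seg V)}
    (h : post ≠ []) : ∃ sp ∈ splits k (pre ++ s :: post), k + segLen pre + sn s ≤ sp := by
  cases post with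
  | nil => exact absurd rfl h
  | cons s' post =>
    refine ⟨k + segLen pre + sn s + s'.l.length, ?_, by omega⟩
    rw [splits_append, splits, splits]
    simp

end

end T6

end Pool.Agent.Run7.h215
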