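import Pool.Agent.Run7.h215.T6a

/-!
# T6, part b: the invariant of the labels
-/

set_option autoImplicit false

namespace Pool.Agent.Run7.h215

namespace T6

section
variable {V : Type*}

/-- every face vertex is a built vertex -/
theorem face_bvert {a1 a2 : V} {F : List (Face V)} {Z : List (V × Ty)} (h : CB a1 a2 F Z) :
    ∀ f ∈ F, ∀ v ∈ fv f, BVert a1 a2 F v := by
  induction h with
  | base h => intro f hf; simp at hf
  | step F A w0 t0 segs C P h1 h2 h3 h4 h5 h6 ih =>
    have hb := h1.bvert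
    intro f hf v hv
    rw [bvert_step h2]
    rw [List.mem_append] at hf
    rcases hf with hf | hf
    · obtain ⟨pre, s, post, rfl, rfl⟩ := mem_newFaces hf
      have hv' : v ∈ lastW w0 pre :: s.l ++ (s.r ++ [s.w]) ∨ v ∈ P := by
        simpa [fv, or_assoc] using hv
      rcases hv' with hv' | hv'
      · left
        apply hb
        have hl : lastW w0 pre ∈ w0 :: (pre.flatMap Seg.entries).map Prod.fst := by
          by_cases hp : pre = []
          · subst hp; simp
          · exact List.mem_cons_of_mem _ (lastW_mem hp)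
        simp only [List.map_append, List.map_cons, List.flatMap_append, List.flatMap_cons,
          Seg.entries_map_fst, List.mem_append, List.mem_cons] at hl hv' ⊢
        rcases hv' with (rfl | hv') | hv' | hv'
        · rcases hl with hl | hl
          · exact Or.inr (Or.inl hl)
          · exact Or.inr (Or.inr (Or.inl (Or.inl hl)))
        · tauto
        · tauto
        · tauto
      · exact Or.inr hv'
    · exact Or.inl (ih f hf v hv)

/-- admissible label pairs -/
def KR : Ty → Fin 3 → Fin 3 → Prop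
  | .D, i, j => i = j ∨ (i = 2 ∧ j = 1)
  | .U, i, j => i = j ∨ (i = 0 ∧ j = 2)
  | .H, i, j => i = j

theorem KR.refl (τ : Ty) (i : Fin 3) : KR τ i i := by
  cases τ <;> simp [KR]

theorem KR.zero {τ : Ty} {i j : Fin 3} (h : KR τ i j) (hj : j = 0) : i = 0 := by
  cases τ <;> simp only [KR] at h <;> rcases h with h | h <;> simp_all

theorem KR.one {τ : Ty} {i j : Fin 3} (h : KR τ i j) (hi : i = 1) : j = 1 := by
  cases τ <;> simp only [KR] at h <;> rcases h with h | h <;> simp_all

theorem KR.dzero {i j : Fin 3} (h : KR .D i j) (hi : i = 0) : j = 0 := by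
  simp only [KR] at h; rcases h with h | h <;> simp_all

theorem KR.uone {i j : Fin 3} (h : KR .U i j) (hj : j = 1) : i = 1 := by
  simp only [KR] at h; rcases h with h | h <;> simp_all

/-- the conditions at a contour edge `a b` of type `τ` -/
def Q (s : St V) (τ : Ty) (a b : V) : Prop :=
  (∀ ρ ∈ s.Λ, KR τ (ρ a) (ρ b)) ∧ (τ = .D → ∃ ρ ∈ s.Λ, ρ a = 2 ∧ ρ b = 1) ∧
    (τ = .U → ∃ ρ ∈ s.Λ, ρ a = 0 ∧ ρ b = 2)

def pend (s : St V) (Z : List (V × Ty)) (a b : V) : Prop :=
  (b, Ty.H) ∈ Z ∧ a ∈ Z.map Prod.fst ∧ s.ps b = s.ps a + 1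

structure Inv (F : List (Face V)) (Z : List (V × Ty)) (s : St V) : Prop where
  len : s.Λ.length = F.length
  pos : PosL s.ps 0 (Z.map Prod.fst)
  K : Z.IsChain (fun e e' => Q s e'.2 e.1 e'.1)
  fl : ∀ f ∈ F, FL s (pend s Z) f

theorem chain_entries {R : Ty → V → V → Prop} {w : V} {t : Ty} {L : List V}
    (h : ((w, t) :: L.map (fun v => (v, Ty.D))).IsChain (fun e e' => R e'.2 e.1 e'.1)) :
    (w :: L).IsChain (R .D) := by
  induction L generalizing w t with
  | nil => simp
  | cons v L ih =>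
    rw [List.map_cons, List.isChain_cons_cons] at h
    rw [List.isChain_cons_cons]
    exact ⟨h.1, ih h.2⟩

theorem chain_rent_cons {R : Ty → V → V → Prop} {w' : V} {x : Ty} {r : List V} {w : V}
    (h : ((w', x) :: rent .U r w).IsChain (fun e e' => R e'.2 e.1 e'.1)) :
    (w' :: (r ++ [w])).IsChain (R .U) := by
  induction r generalizing w' x with
  | nil =>
    simp only [rent, List.isChain_cons_cons, List.nil_append] at h ⊢
    simpa using h
  | cons v r ih =>
    simp only [rent, List.isChain_cons_cons, List.cons_append] at h ⊢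
    exact ⟨h.1, ih h.2⟩

theorem chain_rent {R : Ty → V → V → Prop} {x : Ty} {r : List V} {w : V}
    (h : (rent x r w).IsChain (fun e e' => R e'.2 e.1 e'.1)) : (r ++ [w]).IsChain (R .U) := by
  cases r with
  | nil => simp
  | cons v r =>
    rw [rent] at h
    exact chain_rent_cons h

theorem rel_of_posL {ps : V → ℕ} {k : ℕ} {L : List V} {R : V → V → Prop} (hp : PosL ps k L)
    (hc : L.IsChain R) (hr : ∀ a, R a a) (ht : ∀ a b c, R a b → R b c → R a c) :
    ∀ a ∈ L, ∀ b ∈ L, ps a ≤ ps b → R a b := by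
  have : Trans R R R := ⟨fun h1 h2 => ht _ _ _ h1 h2⟩
  have hpw := hc.pairwise
  clear hc
  induction L generalizing k with
  | nil => intro a ha; simp at ha
  | cons v L ih =>
    obtain ⟨h1, h2⟩ := hp
    rw [List.pairwise_cons] at hpw
    intro a ha b hb hab
    rw [List.mem_cons] at ha hb
    rcases ha with rfl | ha
    · rcases hb with rfl | hb
      · exact hr _
      · exact hpw.1 b hb
    · rcases hb with rfl | hb
      · have := (h2.bounds ha).1
        omega
      · exact ih h2 hpw.2 a ha b hb hab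

theorem Inv.pattern {F : List (Face V)} {Z : List (V × Ty)} {s : St V} (h : Inv F Z s) {a b : V}
    (ha : a ∈ Z.map Prod.fst) (hb : b ∈ Z.map Prod.fst) (hab : s.ps a ≤ s.ps b) {ρ : V → Fin 3}
    (hρ : ρ ∈ s.Λ) : (ρ b = 0 → ρ a = 0) ∧ (ρ a = 1 → ρ b = 1) := by
  refine rel_of_posL (R := fun a b => ∀ ρ ∈ s.Λ, (ρ b = 0 → ρ a = 0) ∧ (ρ a = 1 → ρ b = 1))
    h.pos ?_ (fun a ρ _ => ⟨id, id⟩) (fun a b c h1 h2 ρ hρ => ⟨fun h => (h1 ρ hρ).1 ((h2 ρ hρ).1 h),
      fun h => (h2 ρ hρ).2 ((h1 ρ hρ).2 h)⟩) a ha b hb hab ρ hρ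
  rw [List.isChain_map]
  exact h.K.imp fun e e' hQ ρ hρ => ⟨(hQ.1 ρ hρ).zero, (hQ.1 ρ hρ).one⟩

theorem mem_of_chain_left {R : V → V → Prop} {w : V} {L : List V} (hc : (w :: L).IsChain R)
    (hr : ∀ a, R a a) (ht : ∀ a b c, R a b → R b c → R a c) : ∀ v ∈ w :: L, R w v := by
  have : Trans R R R := ⟨fun h1 h2 => ht _ _ _ h1 h2⟩
  have hpw := hc.pairwise
  rw [List.pairwise_cons] at hpw
  intro v hv
  rw [List.mem_cons] at hv
  rcases hv with rfl | hv
  · exact hr _
  · exact hpw.1 v hv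

theorem mem_of_chain_right {R : V → V → Prop} {w : V} {L : List V} (hc : (L ++ [w]).IsChain R)
    (hr : ∀ a, R a a) (ht : ∀ a b c, R a b → R b c → R a c) : ∀ v ∈ L ++ [w], R v w := by
  have : Trans R R R := ⟨fun h1 h2 => ht _ _ _ h1 h2⟩
  have hpw := hc.pairwise
  rw [List.pairwise_append] at hpw
  intro v hv
  rw [List.mem_append, List.mem_singleton] at hv
  rcases hv with hv | rfl
  · exact hpw.2.2 v hv w (by simp)
  · exact hr _

theorem posL_chain {ps : V → ℕ} {k : ℕ} {L : List V} (h : PosL ps k L) :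
    L.IsChain (fun a b => ps b = ps a + 1) := by
  induction L generalizing k with
  | nil => simp
  | cons v L ih =>
    cases L with
    | nil => simp
    | cons w L =>
      rw [List.isChain_cons_cons]
      exact ⟨by rw [h.2.1, h.1], ih h.2⟩

theorem chain_tail_mem {p : V → Prop} {v : V} {L : List V} (h : ∀ b ∈ L, p b) :
    (v :: L).IsChain (fun _ b => p b) := by
  induction L generalizing v with
  | nil => simp
  | cons w L ih =>
    rw [List.isChain_cons_cons]
    exact ⟨h w List.mem_cons_self, ih fun b hb => h b (List.mem_cons_of_mem _ hb)⟩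

theorem isChain_and {R S : V → V → Prop} {L : List V} (h1 : L.IsChain R) (h2 : L.IsChain S) :
    L.IsChain (fun a b => R a b ∧ S a b) := by
  induction L with
  | nil => simp
  | cons v L ih =>
    cases L with
    | nil => simp
    | cons w L =>
      rw [List.isChain_cons_cons] at h1 h2 ⊢
      exact ⟨⟨h1.1, h2.1⟩, ih h1.2 h2.2⟩

end

section
variable {V : Type*} [DecidableEq V]

/-- new labels -/
def nlab (s : St V) (P : List V) (sp : ℕ) (v : V) : Fin 3 :=
  if v ∈ P then 2 else if s.ps v ≤ sp then 0 else 1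

def oval (w0 ws : V) (ρ : V → Fin 3) : Fin 3 :=
  if ρ ws = 0 then 0 else if ρ w0 = 1 then 1 else 2

/-- extended old labels -/
def olab (P : List V) (w0 ws : V) (ρ : V → Fin 3) (v : V) : Fin 3 :=
  if v ∈ P then oval w0 ws ρ else ρ v

/-- the new state -/
def nst (s : St V) (k : ℕ) (P : List V) (w0 : V) (segs : List (Seg V)) : St V where
  ps v := if v ∈ P then k + 1 + P.idxOf v else ne k (P.length + 1) segs (s.ps v)
  Λ := (splits k segs).map (nlab s P) ++ s.Λ.map (olab P w0 (lastW w0 segs))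

theorem nlab_mem (s : St V) {P : List V} {sp : ℕ} {v : V} (h : v ∈ P) : nlab s P sp v = 2 := by
  unfold nlab; rw [if_pos h]

theorem nlab_le (s : St V) {P : List V} {sp : ℕ} {v : V} (h : v ∉ P) (h1 : s.ps v ≤ sp) :
    nlab s P sp v = 0 := by
  unfold nlab; rw [if_neg h, if_pos h1]

theorem nlab_gt (s : St V) {P : List V} {sp : ℕ} {v : V} (h : v ∉ P) (h1 : sp < s.ps v) :
    nlab s P sp v = 1 := by
  unfold nlab; rw [if_neg h, if_neg (by omega)]

theorem olab_mem {P : List V} {w0 ws : V} {ρ : V → Fin 3} {v : V} (h : v ∈ P) :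
    olab P w0 ws ρ v = oval w0 ws ρ := by
  unfold olab; rw [if_pos h]

theorem olab_not {P : List V} {w0 ws : V} {ρ : V → Fin 3} {v : V} (h : v ∉ P) :
    olab P w0 ws ρ v = ρ v := by
  unfold olab; rw [if_neg h]

theorem nst_ps_mem (s : St V) {k : ℕ} {P : List V} {w0 : V} {segs : List (Seg V)} {v : V}
    (h : v ∈ P) : (nst s k P w0 segs).ps v = k + 1 + P.idxOf v := by
  simp only [nst, if_pos h]

theorem nst_ps_not (s : St V) {k : ℕ} {P : List V} {w0 : V} {segs : List (Seg V)} {v : V}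
    (h : v ∉ P) : (nst s k P w0 segs).ps v = ne k (P.length + 1) segs (s.ps v) := by
  simp only [nst, if_neg h]

/-- a statement about all labels of the new state -/
theorem nst_forall {s : St V} {k : ℕ} {P : List V} {w0 : V} {segs : List (Seg V)}
    {p : (V → Fin 3) → Prop} (h1 : ∀ sp ∈ splits k segs, p (nlab s P sp))
    (h2 : ∀ ρ ∈ s.Λ, p (olab P w0 (lastW w0 segs) ρ)) : ∀ ρ ∈ (nst s k P w0 segs).Λ, p ρ := by
  intro ρ hρ
  simp only [nst, List.mem_append, List.mem_map] at hρ
  rcases hρ with ⟨sp, h, rfl⟩ | ⟨ρ', h, rfl⟩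
  · exact h1 sp h
  · exact h2 ρ' h

theorem nst_mem_new {s : St V} {k : ℕ} {P : List V} {w0 : V} {segs : List (Seg V)} {sp : ℕ}
    (h : sp ∈ splits k segs) : nlab s P sp ∈ (nst s k P w0 segs).Λ := by
  simp only [nst, List.mem_append, List.mem_map]
  exact Or.inl ⟨sp, h, rfl⟩

theorem nst_mem_old {s : St V} {k : ℕ} {P : List V} {w0 : V} {segs : List (Seg V)}
    {ρ : V → Fin 3} (h : ρ ∈ s.Λ) : olab P w0 (lastW w0 segs) ρ ∈ (nst s k P w0 segs).Λ := by
  simp only [nst, List.mem_append, List.mem_map]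
  exact Or.inr ⟨ρ, h, rfl⟩

variable {s : St V} {k : ℕ} {P : List V} {w0 : V} {segs : List (Seg V)}

theorem le0_step (hs : segs ≠ []) {a b : V} (ha : a ∉ P) (hb : b ∉ P) (h : le0 s a b) :
    le0 (nst s k P w0 segs) a b := by
  refine ⟨?_, nst_forall (fun sp _ h0 => ?_) (fun ρ hρ h0 => ?_)⟩
  · rw [nst_ps_not s ha, nst_ps_not s hb]
    exact ne_mono (by omega) hs h.1
  · by_contra hne
    have h1 := h.1
    by_cases h2 : s.ps a ≤ sp
    · exact hne (nlab_le s ha h2)
    · rw [nlab_gt s hb (by omega)] at h0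
      exact absurd h0 (by decide)
  · rw [olab_not hb] at h0
    rw [olab_not ha]
    exact h.2 ρ hρ h0

theorem le1_step (hs : segs ≠ []) {a b : V} (ha : a ∉ P) (hb : b ∉ P) (h : le1 s a b) :
    le1 (nst s k P w0 segs) a b := by
  refine ⟨?_, nst_forall (fun sp _ h0 => ?_) (fun ρ hρ h0 => ?_)⟩
  · rw [nst_ps_not s ha, nst_ps_not s hb]
    exact ne_mono (by omega) hs h.1
  · by_contra hne
    have h1 := h.1
    by_cases h2 : s.ps a ≤ sp
    · rw [nlab_le s ha h2] at h0
      exact absurd h0 (by decide)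
    · exact hne (nlab_gt s hb (by omega))
  · rw [olab_not ha] at h0
    rw [olab_not hb]
    exact h.2 ρ hρ h0

theorem le2_step {a b : V} (ha : a ∉ P) (hb : b ∉ P) (h : le2 s a b) :
    le2 (nst s k P w0 segs) a b := by
  refine nst_forall (fun sp _ h0 => ?_) (fun ρ hρ h0 => ?_)
  · exfalso
    by_cases h2 : s.ps a ≤ sp
    · rw [nlab_le s ha h2] at h0; exact absurd h0 (by decide)
    · rw [nlab_gt s ha (by omega)] at h0; exact absurd h0 (by decide)
  · rw [olab_not ha] at h0
    rw [olab_not hb]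
    exact h ρ hρ h0

theorem st_step {m : Fin 3} {a b : V} (ha : a ∉ P) (hb : b ∉ P) (h : st s m a b) :
    st (nst s k P w0 segs) m a b := by
  obtain ⟨ρ, hρ, h1, h2⟩ := h
  exact ⟨_, nst_mem_old hρ, by rw [olab_not ha]; exact h1, by rw [olab_not hb]; exact h2⟩

/-- old contour edges away from the stretch -/
theorem Q_step {τ : Ty} {a b : V} (ha : a ∉ P) (hb : b ∉ P) (h : Q s τ a b)
    (hsep : ∀ sp ∈ splits k segs, (s.ps a ≤ sp ∧ s.ps b ≤ sp) ∨ (sp < s.ps a ∧ sp < s.ps b)) :
    Q (nst s k P w0 segs) τ a b := by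
  refine ⟨nst_forall (fun sp hsp => ?_) (fun ρ hρ => ?_), fun hτ => ?_, fun hτ => ?_⟩
  · rcases hsep sp hsp with ⟨h1, h2⟩ | ⟨h1, h2⟩
    · rw [nlab_le s ha h1, nlab_le s hb h2]; exact KR.refl _ _
    · rw [nlab_gt s ha h1, nlab_gt s hb h2]; exact KR.refl _ _
  · rw [olab_not ha, olab_not hb]
    exact h.1 ρ hρ
  · obtain ⟨ρ, hρ, h1, h2⟩ := h.2.1 hτ
    exact ⟨_, nst_mem_old hρ, by rw [olab_not ha]; exact h1, by rw [olab_not hb]; exact h2⟩
  · obtain ⟨ρ, hρ, h1, h2⟩ := h.2.2 hτ
    exact ⟨_, nst_mem_old hρ, by rw [olab_not ha]; exact h1, by rw [olab_not hb]; exact h2⟩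

end

end T6

end Pool.Agent.Run7.h215
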