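import Pool.Agent.Run7.h215.T6b

/-!
# T6, part c: the new faces and the step
-/

set_option autoImplicit false
set_option linter.unusedSectionVars false
set_option linter.unusedVariables false

namespace Pool.Agent.Run7.h215

namespace T6

section
variable {V : Type*} [DecidableEq V]

/-- Data of a new face: the segment `sg` between `wl` and `sg.w`, with `o` the position of `wl`. -/
structure NF (s : St V) (k : ℕ) (P : List V) (w0 : V) (pre : List (Seg V)) (sg : Seg V)
    (post : List (Seg V)) (wl : V) (Zv : List V) : Prop where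
  nodup : P.Nodup
  Pne : P ≠ []
  one : P.length = 1 ∨ (pre = [] ∧ post = [])
  pos : PosL s.ps (k + segLen pre) (wl :: sg.l ++ (sg.r ++ [sg.w]))
  notP : ∀ v ∈ Zv, v ∉ P
  sub : ∀ v ∈ wl :: sg.l ++ (sg.r ++ [sg.w]), v ∈ Zv
  w0m : w0 ∈ Zv
  w0p : s.ps w0 = k
  wsm : lastW w0 (pre ++ sg :: post) ∈ Zv
  wsp : s.ps (lastW w0 (pre ++ sg :: post)) = k + segLen (pre ++ sg :: post)
  pat : ∀ a ∈ Zv, ∀ b ∈ Zv, s.ps a ≤ s.ps b → ∀ ρ ∈ s.Λ, (ρ b = 0 → ρ a = 0) ∧ (ρ a = 1 → ρ b = 1)
  cl : (wl :: sg.l).IsChain (Q s .D)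
  cr : (sg.r ++ [sg.w]).IsChain (Q s .U)
  wl0 : pre = [] → wl = w0
  wr0 : post = [] → sg.w = lastW w0 (pre ++ sg :: post)

variable {s : St V} {k : ℕ} {P : List V} {w0 : V} {pre : List (Seg V)} {sg : Seg V}
    {post : List (Seg V)} {wl : V} {Zv : List V}

theorem oval_zero {w0 ws : V} {ρ : V → Fin 3} : oval w0 ws ρ = 0 ↔ ρ ws = 0 := by
  unfold oval; split_ifs <;> simp_all

theorem oval_one {w0 ws : V} {ρ : V → Fin 3} (h : oval w0 ws ρ = 1) : ρ w0 = 1 := by
  unfold oval at h; split_ifs at h <;> simp_all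

theorem NF.posl (h : NF s k P w0 pre sg post wl Zv) {v : V} (hv : v ∈ wl :: sg.l) :
    k + segLen pre ≤ s.ps v ∧ s.ps v ≤ k + segLen pre + sg.l.length := by
  have := (posL_append.1 h.pos).1.bounds hv
  rw [List.length_cons] at this
  omega

theorem NF.posr (h : NF s k P w0 pre sg post wl Zv) {v : V} (hv : v ∈ sg.r ++ [sg.w]) :
    k + segLen pre + sg.l.length < s.ps v ∧ s.ps v ≤ k + segLen pre + sn sg := by
  have := (posL_append.1 h.pos).2.bounds hv
  rw [List.length_cons, List.length_append, List.length_singleton] at this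
  unfold sn
  omega

theorem NF.ml (h : NF s k P w0 pre sg post wl Zv) {v : V} (hv : v ∈ wl :: sg.l) : v ∈ Zv :=
  h.sub v (List.mem_append.2 (Or.inl hv))

theorem NF.mr (h : NF s k P w0 pre sg post wl Zv) {v : V} (hv : v ∈ sg.r ++ [sg.w]) : v ∈ Zv :=
  h.sub v (List.mem_append.2 (Or.inr hv))

theorem NF.psl (h : NF s k P w0 pre sg post wl Zv) {v : V} (hv : v ∈ wl :: sg.l) :
    (nst s k P w0 (pre ++ sg :: post)).ps v = k + (if pre.isEmpty then 0 else 1) := by
  rw [nst_ps_not s (h.notP v (h.ml hv))]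
  exact ne_left (h.posl hv).1 (h.posl hv).2

theorem NF.psr (h : NF s k P w0 pre sg post wl Zv) {v : V} (hv : v ∈ sg.r ++ [sg.w]) :
    (nst s k P w0 (pre ++ sg :: post)).ps v = k + (if post.isEmpty then P.length + 1 else 1) := by
  rw [nst_ps_not s (h.notP v (h.mr hv))]
  exact ne_right (h.posr hv).1 (h.posr hv).2

theorem NF.psP (h : NF s k P w0 pre sg post wl Zv) {v : V} (hv : v ∈ P) :
    k + 1 ≤ (nst s k P w0 (pre ++ sg :: post)).ps v ∧
      (nst s k P w0 (pre ++ sg :: post)).ps v ≤ k + P.length := by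
  rw [nst_ps_mem s hv]
  have := List.idxOf_lt_length_of_mem hv
  omega

theorem ne_nil' : pre ++ sg :: post ≠ [] := by simp

theorem NF.Ppos (h : NF s k P w0 pre sg post wl Zv) : 1 ≤ P.length :=
  List.length_pos_iff.2 h.Pne

/-- label of the left part equal to that of `wl` for new labels -/
theorem NF.newl (h : NF s k P w0 pre sg post wl Zv) {v v' : V} (hv : v ∈ wl :: sg.l)
    (hv' : v' ∈ wl :: sg.l) {sp : ℕ} (hsp : sp ∈ splits k (pre ++ sg :: post)) :
    nlab s P sp v = nlab s P sp v' := by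
  have g1 := h.posl hv
  have g2 := h.posl hv'
  rcases splits_tri hsp with h1 | h1 | h1
  · rw [nlab_gt s (h.notP v (h.ml hv)) (by omega), nlab_gt s (h.notP v' (h.ml hv')) (by omega)]
  · rw [nlab_le s (h.notP v (h.ml hv)) (by omega), nlab_le s (h.notP v' (h.ml hv')) (by omega)]
  · unfold sn at h1
    rw [nlab_le s (h.notP v (h.ml hv)) (by omega), nlab_le s (h.notP v' (h.ml hv')) (by omega)]

theorem NF.newr (h : NF s k P w0 pre sg post wl Zv) {v v' : V} (hv : v ∈ sg.r ++ [sg.w])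
    (hv' : v' ∈ sg.r ++ [sg.w]) {sp : ℕ} (hsp : sp ∈ splits k (pre ++ sg :: post)) :
    nlab s P sp v = nlab s P sp v' := by
  have g1 := h.posr hv
  have g2 := h.posr hv'
  rcases splits_tri hsp with h1 | h1 | h1
  · rw [nlab_gt s (h.notP v (h.mr hv)) (by omega), nlab_gt s (h.notP v' (h.mr hv')) (by omega)]
  · rw [nlab_gt s (h.notP v (h.mr hv)) (by omega), nlab_gt s (h.notP v' (h.mr hv')) (by omega)]
  · rw [nlab_le s (h.notP v (h.mr hv)) (by omega), nlab_le s (h.notP v' (h.mr hv')) (by omega)]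

theorem nlab_ne_two (s : St V) {P : List V} {sp : ℕ} {v : V} (h : v ∉ P) :
    nlab s P sp v ≠ 2 := by
  unfold nlab; rw [if_neg h]; split_ifs <;> decide

theorem nlab_zero (s : St V) {P : List V} {sp : ℕ} {v : V} (h : v ∉ P) :
    nlab s P sp v = 0 ↔ s.ps v ≤ sp := by
  unfold nlab; rw [if_neg h]; split_ifs <;> simp_all

theorem nlab_one (s : St V) {P : List V} {sp : ℕ} {v : V} (h : v ∉ P) :
    nlab s P sp v = 1 ↔ sp < s.ps v := by
  unfold nlab; rw [if_neg h]; split_ifs <;> simp_all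

theorem NF.rd (h : NF s k P w0 pre sg post wl Zv) {v : V} (hv : v ∈ wl :: sg.l) :
    ∀ ρ ∈ s.Λ, ρ wl = 0 → ρ v = 0 := by
  refine mem_of_chain_left (R := fun a b => ∀ ρ ∈ s.Λ, ρ a = 0 → ρ b = 0)
    (h.cl.imp fun a b hab ρ hρ h0 => (hab.1 ρ hρ).dzero h0) (fun a ρ _ => id)
    (fun a b c h1 h2 ρ hρ h0 => h2 ρ hρ (h1 ρ hρ h0)) v hv

theorem NF.ru (h : NF s k P w0 pre sg post wl Zv) {v : V} (hv : v ∈ sg.r ++ [sg.w]) :
    ∀ ρ ∈ s.Λ, ρ sg.w = 1 → ρ v = 1 := by
  refine mem_of_chain_right (R := fun a b => ∀ ρ ∈ s.Λ, ρ b = 1 → ρ a = 1)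
    (h.cr.imp fun a b hab ρ hρ h0 => (hab.1 ρ hρ).uone h0) (fun a ρ _ => id)
    (fun a b c h1 h2 ρ hρ h0 => h1 ρ hρ (h2 ρ hρ h0)) v hv

theorem NF.wlm : wl ∈ wl :: sg.l := List.mem_cons_self
theorem NF.wrm : sg.w ∈ sg.r ++ [sg.w] := by simp

/-- le0 from the left part to another contour vertex of the face -/
theorem NF.fl (h : NF s k P w0 pre sg post wl Zv) {Z' : List (V × Ty)}
    (hZ' : ∀ a b, a ∈ P → b ∈ P.tail → (nst s k P w0 (pre ++ sg :: post)).ps b =
      (nst s k P w0 (pre ++ sg :: post)).ps a + 1 →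
      pend (nst s k P w0 (pre ++ sg :: post)) Z' a b) :
    FL (nst s k P w0 (pre ++ sg :: post)) (pend (nst s k P w0 (pre ++ sg :: post)) Z')
      ⟨wl, sg.l, sg.r, sg.w, P, pre.isEmpty, post.isEmpty⟩ := by
  have hwl : wl ∈ wl :: sg.l := List.mem_cons_self
  have hwr : sg.w ∈ sg.r ++ [sg.w] := by simp
  have hsp0 : k + segLen pre + sg.l.length ∈ splits k (pre ++ sg :: post) := mem_splits
  have pl : ∀ {v}, v ∈ wl :: sg.l → v ∉ P := fun hv => h.notP _ (h.ml hv)
  have pr : ∀ {v}, v ∈ sg.r ++ [sg.w] → v ∉ P := fun hv => h.notP _ (h.mr hv)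
  have sw : segLen (pre ++ sg :: post) = segLen pre + (sn sg + segLen post) := by simp
  -- order facts on the contour
  have wl_ws : s.ps wl ≤ s.ps (lastW w0 (pre ++ sg :: post)) := by
    have := h.posl hwl; rw [h.wsp, sw]; unfold sn; omega
  have w0_le : ∀ {v}, v ∈ wl :: sg.l ++ (sg.r ++ [sg.w]) → s.ps w0 ≤ s.ps v := fun hv => by
    rw [List.mem_append] at hv
    rw [h.w0p]
    rcases hv with hv | hv
    · have := h.posl hv; omega
    · have := h.posr hv; omega
  have le_ws : ∀ {v}, v ∈ wl :: sg.l ++ (sg.r ++ [sg.w]) →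
      s.ps v ≤ s.ps (lastW w0 (pre ++ sg :: post)) := fun hv => by
    rw [List.mem_append] at hv
    rw [h.wsp, sw]
    rcases hv with hv | hv
    · have := h.posl hv; unfold sn; omega
    · have := h.posr hv; omega
  have ml' : ∀ {v}, v ∈ wl :: sg.l → v ∈ wl :: sg.l ++ (sg.r ++ [sg.w]) :=
    fun hv => List.mem_append.2 (Or.inl hv)
  have mr' : ∀ {v}, v ∈ sg.r ++ [sg.w] → v ∈ wl :: sg.l ++ (sg.r ++ [sg.w]) :=
    fun hv => List.mem_append.2 (Or.inr hv)
  have one' : pre ≠ [] ∨ post ≠ [] → P.length = 1 := fun hh => by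
    rcases h.one with h1 | ⟨h1, h2⟩
    · exact h1
    · rcases hh with h3 | h3
      · exact absurd h1 h3
      · exact absurd h2 h3
  refine ⟨?_, ?_, ?_, ?_, ?_, ?_, ?_, ?_, ?_, ?_, ?_, ?_, ?_⟩
  · -- left_const
    intro v hv
    refine ⟨⟨?_, nst_forall (fun sp hsp h0 => ?_) (fun ρ hρ h0 => ?_)⟩,
      ⟨?_, nst_forall (fun sp hsp h0 => ?_) (fun ρ hρ h0 => ?_)⟩⟩
    · rw [h.psl hv, h.psl hwl]
    · rw [h.newl hv hwl hsp]; exact h0
    · rw [olab_not (pl hwl)] at h0
      rw [olab_not (pl hv)]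
      exact h.rd hv ρ hρ h0
    · rw [h.psl hv, h.psl hwl]
    · rw [h.newl hwl hv hsp]; exact h0
    · rw [olab_not (pl hv)] at h0
      rw [olab_not (pl hwl)]
      refine (h.pat wl (h.ml hwl) v (h.ml hv) ?_ ρ hρ).1 h0
      have g1 := h.posl hv
      have g2 := h.pos.1
      show s.ps wl ≤ s.ps v
      omega
  · -- left_max
    intro v hv
    simp only at hv
    show le0 _ wl v ∧ st _ 0 wl v
    have hv' : v ∈ sg.r ++ [sg.w] ∨ v ∈ P := by
      simp only [List.mem_append, List.mem_cons, List.not_mem_nil, or_false] at hv ⊢; tauto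
    rcases hv' with hv' | hv'
    · have g1 := h.posl hwl
      have g2 := h.posr hv'
      refine ⟨le0_step ne_nil' (pl hwl) (pr hv') ⟨by omega, fun ρ hρ =>
        (h.pat wl (h.ml hwl) v (h.mr hv') (by omega) ρ hρ).1⟩, ?_⟩
      refine ⟨_, nst_mem_new hsp0, nlab_le s (pl hwl) g1.2, ?_⟩
      rw [nlab_gt s (pr hv') g2.1]; decide
    · refine ⟨⟨?_, nst_forall (fun sp hsp h0 => ?_) (fun ρ hρ h0 => ?_)⟩, ?_⟩
      · have := h.psP hv'
        rw [h.psl hwl]
        split_ifs <;> omega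
      · rw [nlab_mem s hv'] at h0
        exact absurd h0 (by decide)
      · rw [olab_mem hv', oval_zero] at h0
        rw [olab_not (pl hwl)]
        exact (h.pat wl (h.ml hwl) _ h.wsm wl_ws ρ hρ).1 h0
      · refine ⟨_, nst_mem_new hsp0, nlab_le s (pl hwl) (h.posl hwl).2, ?_⟩
        rw [nlab_mem s hv']; decide
  · -- right_const
    intro v hv
    refine ⟨⟨?_, nst_forall (fun sp hsp h0 => ?_) (fun ρ hρ h0 => ?_)⟩,
      ⟨?_, nst_forall (fun sp hsp h0 => ?_) (fun ρ hρ h0 => ?_)⟩⟩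
    · simp only; rw [h.psr hv, h.psr hwr]
    · rw [h.newr hwr hv hsp]; exact h0
    · simp only at h0 ⊢
      rw [olab_not (pr hv)] at h0
      rw [olab_not (pr hwr)]
      refine (h.pat v (h.mr hv) sg.w (h.mr hwr) ?_ ρ hρ).2 h0
      have g1 := h.posr hv
      have g2 := (posL_append.1 h.pos).2
      rw [posL_append] at g2
      have g3 := g2.2.1
      simp only [List.length_cons] at g3
      unfold sn at g1
      omega
    · simp only; rw [h.psr hv, h.psr hwr]
    · simp only at h0 ⊢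
      rw [h.newr hv hwr hsp]; exact h0
    · simp only at h0 ⊢
      rw [olab_not (pr hwr)] at h0
      rw [olab_not (pr hv)]
      exact h.ru hv ρ hρ h0
  · -- right_max
    intro v hv
    simp only at hv ⊢
    rw [List.mem_append] at hv
    rcases hv with hv | hv
    · have g1 := h.posl hv
      have g2 := h.posr hwr
      refine ⟨le1_step ne_nil' (pl hv) (pr hwr) ⟨by omega, fun ρ hρ =>
        (h.pat v (h.ml hv) sg.w (h.mr hwr) (by omega) ρ hρ).2⟩, ?_⟩
      refine ⟨_, nst_mem_new hsp0, nlab_gt s (pr hwr) g2.1, ?_⟩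
      rw [nlab_le s (pl hv) g1.2]; decide
    · refine ⟨⟨?_, nst_forall (fun sp hsp h0 => ?_) (fun ρ hρ h0 => ?_)⟩, ?_⟩
      · have g1 := h.psP hv
        rw [h.psr hwr]
        by_cases hpost : post = []
        · subst hpost; simp only [List.isEmpty_nil, if_true]; omega
        · have := one' (Or.inr hpost)
          split_ifs <;> omega
      · rw [nlab_mem s hv] at h0
        exact absurd h0 (by decide)
      · rw [olab_mem hv] at h0
        rw [olab_not (pr hwr)]
        exact (h.pat w0 h.w0m sg.w (h.mr hwr) (w0_le (mr' hwr)) ρ hρ).2 (oval_one h0)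
      · refine ⟨_, nst_mem_new hsp0, nlab_gt s (pr hwr) (h.posr hwr).1, ?_⟩
        rw [nlab_mem s hv]; decide
  · -- top_const
    intro v hv w hw
    simp only at hv hw
    refine nst_forall (fun sp hsp h0 => nlab_mem s hw) (fun ρ hρ h0 => ?_)
    rw [olab_mem hv] at h0
    rw [olab_mem hw]; exact h0
  · -- top_max
    intro v hv w hw
    simp only at hv hw ⊢
    have hwP : w ∉ P := h.notP w (h.sub w hw)
    refine ⟨nst_forall (fun sp hsp h0 => nlab_mem s hv) (fun ρ hρ h0 => ?_), ?_⟩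
    · rw [olab_not hwP] at h0
      rw [olab_mem hv]
      unfold oval
      rw [if_neg, if_neg]
      · intro h1
        have := (h.pat w0 h.w0m w (h.sub w hw) (w0_le hw) ρ hρ).2 h1
        rw [h0] at this; exact absurd this (by decide)
      · intro h1
        have := (h.pat w (h.sub w hw) _ h.wsm (le_ws hw) ρ hρ).1 h1
        rw [h0] at this; exact absurd this (by decide)
    · exact ⟨_, nst_mem_new hsp0, nlab_mem s hv, nlab_ne_two s hwP⟩
  · -- left_mono
    refine h.cl.imp_of_mem_imp fun a b ha hb hab => ⟨⟨?_, nst_forall (fun sp hsp h0 => ?_)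
      (fun ρ hρ h0 => ?_)⟩, ?_⟩
    · rw [h.psl ha, h.psl hb]
    · rw [← h.newl ha hb hsp]; exact h0
    · rw [olab_not (pl ha)] at h0
      rw [olab_not (pl hb)]
      exact (hab.1 ρ hρ).one h0
    · obtain ⟨ρ, hρ, g1, g2⟩ := hab.2.1 rfl
      refine st_step (pl hb) (pl ha) ⟨ρ, hρ, g2, ?_⟩
      rw [g1]; decide
  · -- right_mono
    refine h.cr.imp_of_mem_imp fun a b ha hb hab => ⟨⟨?_, nst_forall (fun sp hsp h0 => ?_)
      (fun ρ hρ h0 => ?_)⟩, ?_⟩
    · rw [h.psr ha, h.psr hb]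
    · rw [h.newr ha hb hsp]; exact h0
    · rw [olab_not (pr hb)] at h0
      rw [olab_not (pr ha)]
      exact (hab.1 ρ hρ).zero h0
    · obtain ⟨ρ, hρ, g1, g2⟩ := hab.2.2 rfl
      refine st_step (pr ha) (pr hb) ⟨ρ, hρ, g1, ?_⟩
      rw [g2]; decide
  · -- top_mono
    simp only
    have c1 : P.IsChain (fun a b => (nst s k P w0 (pre ++ sg :: post)).ps b =
        (nst s k P w0 (pre ++ sg :: post)).ps a + 1) := by
      refine posL_chain (k := k + 1) ((posL_idxOf (c := k + 1) h.nodup).shift fun v hv j hj => ?_)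
      rw [nst_ps_mem s hv]; exact hj
    have c2 : P.IsChain (fun _ b => b ∈ P.tail) := by
      cases P with
      | nil => simp
      | cons v L => exact chain_tail_mem fun b hb => hb
    refine (isChain_and c1 c2).imp_of_mem_imp fun a b ha hb hab => ⟨⟨by omega, nst_forall
      (fun sp hsp h0 => ?_) (fun ρ hρ h0 => ?_)⟩, Or.inr (hZ' a b ha hab.2 hab.1)⟩
    · rw [nlab_mem s hb] at h0; exact absurd h0 (by decide)
    · rw [olab_mem hb] at h0; rw [olab_mem ha]; exact h0
  · -- first_edge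
    intro hf y hy
    simp only [List.isEmpty_iff] at hf hy
    have hyP := List.mem_of_mem_head? hy
    have hw := h.wl0 hf
    refine ⟨?_, nst_forall (fun sp hsp h0 => ?_) (fun ρ hρ h0 => ?_)⟩
    · have := h.psP hyP
      simp only
      rw [h.psl hwl]
      subst hf
      simp only [List.isEmpty_nil, if_true]
      omega
    · exfalso
      simp only at h0
      rw [nlab_one s (pl hwl)] at h0
      have g1 := splits_bounds hsp
      rw [hw, h.w0p] at h0
      omega
    · simp only at h0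
      rw [olab_not (pl hwl)] at h0
      rw [olab_mem hyP]
      unfold oval
      rw [hw] at h0
      rw [if_neg, if_pos h0]
      intro h1
      have := (h.pat w0 h.w0m _ h.wsm (by have g := wl_ws; rw [hw] at g; exact g) ρ hρ).1 h1
      rw [h0] at this; exact absurd this (by decide)
  · -- mid_left
    intro hf y hy
    simp only at hf hy ⊢
    have hpre : pre ≠ [] := by rintro rfl; simp at hf
    have h1P := one' (Or.inl hpre)
    refine ⟨⟨?_, nst_forall (fun sp hsp h0 => ?_) (fun ρ hρ h0 => ?_)⟩, ?_⟩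
    · have := h.psP hy
      rw [h.psl hwl, hf]
      simp only [Bool.false_eq_true, if_false]
      omega
    · rw [nlab_mem s hy] at h0; exact absurd h0 (by decide)
    · rw [olab_mem hy] at h0
      rw [olab_not (pl hwl)]
      exact (h.pat w0 h.w0m wl (h.ml hwl) (w0_le (ml' hwl)) ρ hρ).2 (oval_one h0)
    · obtain ⟨sp, hsp, hlt⟩ := exists_split_lt (k := k) (s := sg) (post := post) hpre
      refine ⟨_, nst_mem_new hsp, nlab_gt s (pl hwl) ?_, ?_⟩
      · have := h.posl hwl; omega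
      · rw [nlab_mem s hy]; decide
  · -- last_edge
    intro hf y hy
    simp only [List.isEmpty_iff] at hf hy ⊢
    have hyP := List.mem_of_getLast? hy
    have hw := h.wr0 hf
    refine ⟨?_, nst_forall (fun sp hsp h0 => ?_) (fun ρ hρ h0 => ?_)⟩
    · have := h.psP hyP
      rw [h.psr hwr]
      subst hf
      simp only [List.isEmpty_nil, if_true]
      omega
    · exfalso
      rw [nlab_zero s (pr hwr)] at h0
      have g1 := splits_bounds hsp
      rw [hw, h.wsp] at h0
      omega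
    · rw [olab_not (pr hwr), hw] at h0
      rw [olab_mem hyP, oval_zero]
      exact h0
  · -- mid_right
    intro hf y hy
    simp only at hf hy ⊢
    have hpost : post ≠ [] := by rintro rfl; simp at hf
    have h1P := one' (Or.inr hpost)
    refine ⟨⟨?_, nst_forall (fun sp hsp h0 => ?_) (fun ρ hρ h0 => ?_)⟩, ?_⟩
    · have := h.psP hy
      rw [h.psr hwr, hf]
      simp only [Bool.false_eq_true, if_false]
      omega
    · rw [nlab_mem s hy] at h0; exact absurd h0 (by decide)
    · rw [olab_mem hy, oval_zero] at h0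
      rw [olab_not (pr hwr)]
      exact (h.pat sg.w (h.mr hwr) _ h.wsm (le_ws (mr' hwr)) ρ hρ).1 h0
    · obtain ⟨sp, hsp, hlt⟩ := exists_split_ge (k := k) (pre := pre) (s := sg) hpost
      refine ⟨_, nst_mem_new hsp, nlab_le s (pr hwr) ?_, ?_⟩
      · have := h.posr hwr; omega
      · rw [nlab_mem s hy]; decide

end

end T6

end Pool.Agent.Run7.h215
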