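import Pool.Agent.Run7.h215.Iface

/-!
# T7b: the analytic estimate at nearly straight corners
-/

set_option autoImplicit false

namespace Pool.Agent.Run7.h215

namespace T7b

/-- The main estimate, left neighbour.  `Sh = S + 3κ(N-h)`; `N = R²`; `κ = cS/N`. -/
theorem left_est {S R h j u d Pv Tv Pa Ta κ Sh : ℝ} (hS : 10 ^ 6 ≤ S) (hR : 1 ≤ R)
    (hκ : κ = 1 / 10 ^ 8 * S / R ^ 2) (hSh : Sh = S + 3 * κ * (R ^ 2 - h))
    (hj : 0 ≤ j) (hd : 1 ≤ d) (hjd : 10 * j ≤ d) (hh0 : 0 ≤ h - j) (hhN : h ≤ R ^ 2)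
    (hu1 : |u| ≤ R ^ 2) (hu2 : |u - d| ≤ R ^ 2)
    (hPv : 2 * (S * h + 2 * κ * h ^ 2 - κ / 2 * (R ^ 2 - h) ^ 2 - κ / 2 * u ^ 2) +
      (2 * (1 / 4000) * S - 3 * (1 / 10 ^ 6) * S) ≤ Pv)
    (hTv : |Tv - 2 * (u * Sh)| ≤ 2 * (1 / 10 ^ 6) * S)
    (hPa : (Pa ≤ 2 * (S * (h - j) + 2 * κ * (h - j) ^ 2 - κ / 2 * (R ^ 2 - (h - j)) ^ 2 -
        κ / 2 * (u - d) ^ 2) + 3 * (1 / 10 ^ 6) * S) ∨
      (Pa ≤ 2 * (S * (h - j) + 2 * κ * (h - j) ^ 2 - κ / 2 * (R ^ 2 - (h - j)) ^ 2 -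
        κ / 2 * (u - d) ^ 2) + (2 * (1 / 4000) * S + 3 * (1 / 10 ^ 6) * S) ∧ 1 ≤ j))
    (hTa : |Ta - 2 * ((u - d) * (S + 3 * κ * (R ^ 2 - (h - j))))| ≤
      3 * (1 / 4000) * S + 8 * (1 / 10 ^ 6) * S) :
    0 < Tv - Ta ∧ (-(κ * u) / Sh + 1 / (2 * 10 ^ 6) / R) * (Tv - Ta) ≤ Pv - Pa := by
  have hS0 : 0 < S := by linarith
  have hR0 : 0 < R := by linarith
  have hR2 : 0 < R ^ 2 := by positivity
  have hκ0 : 0 < κ := by rw [hκ]; positivity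
  have hκR : κ * R ^ 2 = 1 / 10 ^ 8 * S := by rw [hκ]; field_simp
  have hShS : S ≤ Sh := by rw [hSh]; nlinarith
  have hSh0 : 0 < Sh := by linarith
  have hShS' : Sh ≤ S * (1 + 3 / 10 ^ 8) := by rw [hSh]; nlinarith
  -- A = κ u / Sh
  obtain ⟨A, hA⟩ : ∃ A, A = κ * u / Sh := ⟨_, rfl⟩
  have hASh : A * Sh = κ * u := by rw [hA]; field_simp
  have hκu : |κ * u| ≤ 1 / 10 ^ 8 * S := by
    rw [abs_mul, abs_of_pos hκ0]; nlinarith [mul_le_mul_of_nonneg_left hu1 hκ0.le]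
  have hκu2 : |κ * (u - d)| ≤ 1 / 10 ^ 8 * S := by
    rw [abs_mul, abs_of_pos hκ0]; nlinarith [mul_le_mul_of_nonneg_left hu2 hκ0.le]
  have hA1 : |A| ≤ 1 / 10 ^ 8 := by
    rw [hA, abs_div, abs_of_pos hSh0, div_le_iff₀ hSh0]
    nlinarith
  -- the horizontal difference
  obtain ⟨e, he⟩ : ∃ e, e = (Tv - Ta) - (2 * (Sh * d) - 6 * (κ * (u - d)) * j) := ⟨_, rfl⟩
  have heb : |e| ≤ 3 * (1 / 4000) * S + 10 * (1 / 10 ^ 6) * S := by
    have e1 : e = (Tv - 2 * (u * Sh)) -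
        (Ta - 2 * ((u - d) * (S + 3 * κ * (R ^ 2 - (h - j))))) := by
      rw [he, hSh]; ring
    rw [e1]
    have := abs_sub (Tv - 2 * (u * Sh)) (Ta - 2 * ((u - d) * (S + 3 * κ * (R ^ 2 - (h - j)))))
    linarith
  have hk1 : |6 * (κ * (u - d)) * j| ≤ 6 / 10 ^ 8 * S * j := by
    rw [abs_mul, abs_mul, abs_of_nonneg hj, abs_of_nonneg (by norm_num : (0:ℝ) ≤ 6)]
    nlinarith [mul_le_mul_of_nonneg_right hκu2 hj]
  have hDT : Tv - Ta = 2 * (Sh * d) - 6 * (κ * (u - d)) * j + e := by rw [he]; ring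
  have hSd : 0 < S * d := by positivity
  have hSjd : 10 * (S * j) ≤ S * d := by nlinarith
  have hSd' : S ≤ S * d := by nlinarith
  have hSj0 : 0 ≤ S * j := by positivity
  have b1 := abs_le.1 hk1
  have b2 := abs_le.1 heb
  have hShd : S * d ≤ Sh * d := mul_le_mul_of_nonneg_right hShS (by linarith)
  have hShd' : Sh * d ≤ S * d * (1 + 3 / 10 ^ 8) := by nlinarith
  have T1 : S * d ≤ Tv - Ta := by rw [hDT]; nlinarith
  have T2 : Tv - Ta ≤ 21 / 10 * (S * d) := by rw [hDT]; nlinarith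
  refine ⟨by linarith, ?_⟩
  -- vertical difference
  have hV : 2 * (S * j) - 2 * (κ * u * d) + κ * d ^ 2 ≤
      2 * (S * h + 2 * κ * h ^ 2 - κ / 2 * (R ^ 2 - h) ^ 2 - κ / 2 * u ^ 2) -
      2 * (S * (h - j) + 2 * κ * (h - j) ^ 2 - κ / 2 * (R ^ 2 - (h - j)) ^ 2 -
        κ / 2 * (u - d) ^ 2) := by
    have g1 : 0 ≤ κ * j * (h + (h - j)) := by
      apply mul_nonneg (mul_nonneg hκ0.le hj); linarith
    have g2 : 0 ≤ κ * j * (2 * (R ^ 2 - h) + j) := by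
      apply mul_nonneg (mul_nonneg hκ0.le hj); linarith
    nlinarith
  -- D
  have hD : 2 * (S * j) - 2 * (κ * u * d) + κ * d ^ 2 + (2 * (1 / 4000) * S - 6 * (1 / 10 ^ 6) * S) ≤
      Pv - Pa ∨ (2 * (S * j) - 2 * (κ * u * d) + κ * d ^ 2 - 6 * (1 / 10 ^ 6) * S ≤ Pv - Pa ∧
        1 ≤ j) := by
    rcases hPa with hPa | ⟨hPa, hj1⟩
    · left; linarith
    · right; exact ⟨by linarith, hj1⟩
  -- A * DT
  have hADT : A * (Tv - Ta) ≥ 2 * (κ * u * d) - 6 / 10 ^ 16 * (S * j) -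
      1 / 10 ^ 8 * (3 * (1 / 4000) * S + 10 * (1 / 10 ^ 6) * S) := by
    have e1 : A * (Tv - Ta) = 2 * (κ * u * d) - A * (6 * (κ * (u - d)) * j) + A * e := by
      rw [hDT]
      have : A * (2 * (Sh * d)) = 2 * (κ * u * d) := by
        rw [← hASh]; ring
      linear_combination this
    have m1 : |A * (6 * (κ * (u - d)) * j)| ≤ 1 / 10 ^ 8 * (6 / 10 ^ 8 * S * j) := by
      rw [abs_mul]; exact mul_le_mul hA1 hk1 (abs_nonneg _) (by norm_num)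
    have m2 : |A * e| ≤ 1 / 10 ^ 8 * (3 * (1 / 4000) * S + 10 * (1 / 10 ^ 6) * S) := by
      rw [abs_mul]; exact mul_le_mul hA1 heb (abs_nonneg _) (by norm_num)
    have m1' := (abs_le.1 m1).2
    have m2' := (abs_le.1 m2).1
    rw [e1]
    nlinarith
  have hmain : κ * d ^ 2 + 1 / 4000 * S ≤ (Pv - Pa) + A * (Tv - Ta) := by
    rcases hD with hD | ⟨hD, hj1⟩
    · nlinarith
    · have : S ≤ S * j := by nlinarith
      nlinarith
  have hamgm : 2 / 10 ^ 6 * (S * d) / R ≤ κ * d ^ 2 + 1 / 4000 * S := by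
    rw [div_le_iff₀ hR0]
    have e1 : (κ * d ^ 2 + 1 / 4000 * S) * R = S / R * (1 / 10 ^ 8 * d ^ 2 + 1 / 4000 * R ^ 2) := by
      rw [hκ]; field_simp
    have e2 : 2 / 10 ^ 6 * (S * d) = S / R * (2 / 10 ^ 6 * (d * R)) := by field_simp
    rw [e1, e2]
    apply mul_le_mul_of_nonneg_left _ (by positivity)
    nlinarith [sq_nonneg (d / 10 ^ 4 - R / 100), sq_nonneg (d - 100 * R)]
  have hneg : -(κ * u) / Sh = -A := by rw [hA]; ring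
  rw [hneg]
  have hμ : 1 / (2 * 10 ^ 6) / R * (Tv - Ta) ≤ 2 / 10 ^ 6 * (S * d) / R := by
    have : 1 / (2 * 10 ^ 6) / R * (Tv - Ta) = (1 / (2 * 10 ^ 6) * (Tv - Ta)) / R := by ring
    rw [this]
    apply div_le_div_of_nonneg_right _ hR0.le
    nlinarith
  nlinarith

end T7b

end Pool.Agent.Run7.h215
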