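import Pool.Agent.Run7.h215.T7b1

/-!
# T7b: chains and positions
-/

set_option autoImplicit false
set_option linter.unusedVariables false

namespace Pool.Agent.Run7.h215

namespace T7b

/-- right neighbour -/
theorem right_est {S R h j u d Pv Tv Pb Tb κ Sh : ℝ} (hS : 10 ^ 6 ≤ S) (hR : 1 ≤ R)
    (hκ : κ = 1 / 10 ^ 8 * S / R ^ 2) (hSh : Sh = S + 3 * κ * (R ^ 2 - h))
    (hj : 0 ≤ j) (hd : 1 ≤ d) (hjd : 10 * j ≤ d) (hh0 : 0 ≤ h - j) (hhN : h ≤ R ^ 2)
    (hu1 : |u| ≤ R ^ 2) (hu2 : |u + d| ≤ R ^ 2)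
    (hPv : 2 * (S * h + 2 * κ * h ^ 2 - κ / 2 * (R ^ 2 - h) ^ 2 - κ / 2 * u ^ 2) +
      (2 * (1 / 4000) * S - 3 * (1 / 10 ^ 6) * S) ≤ Pv)
    (hTv : |Tv - 2 * (u * Sh)| ≤ 2 * (1 / 10 ^ 6) * S)
    (hPb : (Pb ≤ 2 * (S * (h - j) + 2 * κ * (h - j) ^ 2 - κ / 2 * (R ^ 2 - (h - j)) ^ 2 -
        κ / 2 * (u + d) ^ 2) + 3 * (1 / 10 ^ 6) * S) ∨
      (Pb ≤ 2 * (S * (h - j) + 2 * κ * (h - j) ^ 2 - κ / 2 * (R ^ 2 - (h - j)) ^ 2 -
        κ / 2 * (u + d) ^ 2) + (2 * (1 / 4000) * S + 3 * (1 / 10 ^ 6) * S) ∧ 1 ≤ j))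
    (hTb : |Tb - 2 * ((u + d) * (S + 3 * κ * (R ^ 2 - (h - j))))| ≤
      3 * (1 / 4000) * S + 8 * (1 / 10 ^ 6) * S) :
    0 < Tb - Tv ∧ Pb - Pv ≤ (-(κ * u) / Sh - 1 / (2 * 10 ^ 6) / R) * (Tb - Tv) := by
  have key := left_est (S := S) (R := R) (h := h) (j := j) (u := -u) (d := d) (Pv := Pv)
    (Tv := -Tv) (Pa := Pb) (Ta := -Tb) (κ := κ) (Sh := Sh) hS hR hκ hSh hj hd hjd hh0 hhN
    (by rwa [abs_neg]) (by rw [show -u - d = -(u + d) by ring, abs_neg]; exact hu2)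
    (by rw [neg_sq]; exact hPv)
    (by rw [show -Tv - 2 * (-u * Sh) = -(Tv - 2 * (u * Sh)) by ring, abs_neg]; exact hTv)
    (by rw [show (-u - d) ^ 2 = (u + d) ^ 2 by ring]; exact hPb)
    (by
      rw [show -Tb - 2 * ((-u - d) * (S + 3 * κ * (R ^ 2 - (h - j)))) =
        -(Tb - 2 * ((u + d) * (S + 3 * κ * (R ^ 2 - (h - j))))) by ring, abs_neg]
      exact hTb)
  obtain ⟨k1, k2⟩ := key
  refine ⟨by linarith, ?_⟩
  have e : (-(κ * -u) / Sh + 1 / (2 * 10 ^ 6) / R) * (-Tv - -Tb) =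
      -((-(κ * u) / Sh - 1 / (2 * 10 ^ 6) / R) * (Tb - Tv)) := by ring
  rw [e] at k2
  linarith

/-- concave chains: general slopes -/
theorem chain_concave {α β : ℤ → ℤ} {N : ℤ} (h1 : ∀ u : ℤ, -N ≤ u → u < N → α u < α (u + 1))
    (h2 : ∀ u : ℤ, -N < u → u < N →
      (β (u + 1) - β u) * (α u - α (u - 1)) < (β u - β (u - 1)) * (α (u + 1) - α u))
    {k l : ℤ} (hk : -N ≤ k) (hkl : k ≤ l) (hl : l < N) :
    (β (l + 1) - β l) * (α (k + 1) - α k) ≤ (β (k + 1) - β k) * (α (l + 1) - α l) := by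
  induction l, hkl using Int.leInduction with
  | base => exact le_of_eq (by ring)
  | succ l hkl ih =>
    have i1 := ih (by omega)
    have i2 := h2 (l + 1) (by omega) hl
    rw [show l + 1 - 1 = l by ring] at i2
    have a1 := h1 l (by omega) (by omega)
    have a2 := h1 (l + 1) (by omega) hl
    have a3 := h1 k hk (by omega)
    have p1 : 0 < α (l + 1) - α l := by omega
    have p2 : 0 < α (l + 1 + 1) - α (l + 1) := by omega
    have p3 : 0 < α (k + 1) - α k := by omega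
    by_contra hc
    push Not at hc
    -- (b_k) a_{l+1} < b_{l+1} a_k
    have t1 := mul_lt_mul_of_pos_right hc p1
    have t2 := mul_lt_mul_of_pos_right i2 p3
    have t3 := mul_le_mul_of_nonneg_right i1 p2.le
    nlinarith

/-- average slope of a chain segment ending at `u` is at least the last slope -/
theorem chain_left {α β : ℤ → ℤ} {N : ℤ} (h1 : ∀ u : ℤ, -N ≤ u → u < N → α u < α (u + 1))
    (h2 : ∀ u : ℤ, -N < u → u < N →
      (β (u + 1) - β u) * (α u - α (u - 1)) < (β u - β (u - 1)) * (α (u + 1) - α u))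
    {k l : ℤ} (hk : -N ≤ k) (hkl : k ≤ l) (hl : l < N) :
    α k < α (l + 1) ∧ (β (l + 1) - β l) * (α (l + 1) - α k) ≤
      (β (l + 1) - β k) * (α (l + 1) - α l) := by
  -- downward induction on k
  obtain ⟨n, rfl⟩ : ∃ n : ℕ, k = l - n := ⟨(l - k).toNat, by omega⟩
  clear hkl
  induction n with
  | zero =>
    simp only [Nat.cast_zero, sub_zero] at hk ⊢
    exact ⟨h1 l hk hl, le_rfl⟩
  | succ n ih =>
    obtain ⟨i1, i2⟩ := ih (by push_cast at hk; omega)
    have a1 := h1 (l - (n + 1 : ℕ)) hk (by push_cast; omega)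
    have c1 := chain_concave h1 h2 hk (show l - ((n + 1 : ℕ) : ℤ) ≤ l by push_cast; omega) hl
    have e : l - ((n + 1 : ℕ) : ℤ) + 1 = l - n := by push_cast; ring
    rw [e] at a1 c1
    refine ⟨by omega, ?_⟩
    have e1 : (β (l + 1) - β l) * (α (l + 1) - α (l - ((n + 1 : ℕ) : ℤ))) =
      (β (l + 1) - β l) * (α (l + 1) - α (l - n)) +
      (β (l + 1) - β l) * (α (l - n) - α (l - ((n + 1 : ℕ) : ℤ))) := by ring
    have e2 : (β (l + 1) - β (l - ((n + 1 : ℕ) : ℤ))) * (α (l + 1) - α l) =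
      (β (l + 1) - β (l - n)) * (α (l + 1) - α l) +
      (β (l - n) - β (l - ((n + 1 : ℕ) : ℤ))) * (α (l + 1) - α l) := by ring
    rw [e1, e2]
    exact add_le_add i2 c1

/-- average slope of a chain segment starting at `u` is at most the first slope -/
theorem chain_right {α β : ℤ → ℤ} {N : ℤ} (h1 : ∀ u : ℤ, -N ≤ u → u < N → α u < α (u + 1))
    (h2 : ∀ u : ℤ, -N < u → u < N →
      (β (u + 1) - β u) * (α u - α (u - 1)) < (β u - β (u - 1)) * (α (u + 1) - α u))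
    {k l : ℤ} (hk : -N ≤ k) (hkl : k ≤ l) (hl : l < N) :
    α k < α (l + 1) ∧ (β (l + 1) - β k) * (α (k + 1) - α k) ≤
      (β (k + 1) - β k) * (α (l + 1) - α k) := by
  induction l, hkl using Int.leInduction with
  | base => exact ⟨h1 k hk hl, le_of_eq (by ring)⟩
  | succ l hkl ih =>
    obtain ⟨i1, i2⟩ := ih (by omega)
    have a1 := h1 (l + 1) (by omega) hl
    have c1 := chain_concave h1 h2 hk (show k ≤ l + 1 by omega) hl
    refine ⟨by omega, ?_⟩
    have e1 : (β (l + 1 + 1) - β k) * (α (k + 1) - α k) =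
      (β (l + 1) - β k) * (α (k + 1) - α k) +
      (β (l + 1 + 1) - β (l + 1)) * (α (k + 1) - α k) := by ring
    have e2 : (β (k + 1) - β k) * (α (l + 1 + 1) - α k) =
      (β (k + 1) - β k) * (α (l + 1) - α k) +
      (β (k + 1) - β k) * (α (l + 1 + 1) - α (l + 1)) := by ring
    rw [e1, e2]
    exact add_le_add i2 c1

/-- combination of the four cases -/
theorem combine {P P' T T' r μ a b a' b' : ℝ} (hT : 0 < T) (hT' : 0 < T') (hμ : 0 < μ)
    (ha : 0 < a) (ha' : 0 < a')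
    (hb : (r - μ / 2) * a ≤ b) (hb' : b' ≤ (r + μ / 2) * a')
    (hs : b' * a < b * a')
    (hL : (r + μ) * T ≤ P ∨ b * T ≤ P * a) (hR : P' ≤ (r - μ) * T' ∨ P' * a' ≤ b' * T') :
    0 < P * T' - P' * T := by
  rcases hL with hL | hL <;> rcases hR with hR | hR
  · have k1 := mul_le_mul_of_nonneg_right hL hT'.le
    have k2 := mul_le_mul_of_nonneg_right hR hT.le
    have k3 := mul_pos (mul_pos hμ hT) hT'
    nlinarith
  · -- P' ≤ (r + μ/2) T'
    have k0 : P' ≤ (r + μ / 2) * T' := by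
      have := mul_le_mul_of_nonneg_right hb' hT'.le
      have h3 : P' * a' ≤ ((r + μ / 2) * T') * a' := by nlinarith
      exact le_of_mul_le_mul_right h3 ha'
    have k1 := mul_le_mul_of_nonneg_right hL hT'.le
    have k2 := mul_le_mul_of_nonneg_right k0 hT.le
    have k3 := mul_pos (mul_pos hμ hT) hT'
    nlinarith
  · have k0 : (r - μ / 2) * T ≤ P := by
      have := mul_le_mul_of_nonneg_right hb hT.le
      have h3 : ((r - μ / 2) * T) * a ≤ P * a := by nlinarith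
      exact le_of_mul_le_mul_right h3 ha
    have k1 := mul_le_mul_of_nonneg_right k0 hT'.le
    have k2 := mul_le_mul_of_nonneg_right hR hT.le
    have k3 := mul_pos (mul_pos hμ hT) hT'
    nlinarith
  · have k1 := mul_le_mul_of_nonneg_right hL (mul_pos hT' ha').le
    have k2 := mul_le_mul_of_nonneg_right hR (mul_pos hT ha).le
    have k3 := mul_pos (mul_pos (sub_pos.2 hs) hT) hT'
    have k4 : 0 < (P * T' - P' * T) * (a * a') := by nlinarith
    exact (pos_iff_pos_of_mul_pos k4).2 (mul_pos ha ha')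

end T7b

end Pool.Agent.Run7.h215
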