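import Pool.Agent.Run7.h215.T7b2

/-!
# T7b: the positions
-/

set_option autoImplicit false
set_option linter.unusedVariables false

namespace Pool.Agent.Run7.h215

namespace T7b

/-- the perturbed coordinates -/
noncomputable def FF (S κ : ℝ) (y : Fin 3 → ℤ) (i : Fin 3) : ℝ :=
  S * y i + κ * (3 * (y i : ℝ) ^ 2 - ((y 0 : ℝ) ^ 2 + (y 1 : ℝ) ^ 2 + (y 2 : ℝ) ^ 2))

theorem FF_sum {S κ N : ℝ} {y : Fin 3 → ℤ} (hy : ((y 0 : ℝ) + y 1 + y 2 = N)) :
    FF S κ y 0 + FF S κ y 1 + FF S κ y 2 = S * N := by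
  unfold FF
  rw [← hy]
  ring

theorem sum_cyc {α : Type*} [AddCommMonoid α] (f : Fin 3 → α) (m : Fin 3) :
    f m + f (m + 1) + f (m + 2) = f 0 + f 1 + f 2 := by
  fin_cases m
  · rfl
  · show f 1 + f 2 + f 0 = _
    rw [add_comm, ← add_assoc]
  · show f 2 + f 0 + f 1 = _
    rw [add_assoc, add_comm]

theorem FF_eq {S κ N : ℝ} {y : Fin 3 → ℤ} (hy : ((y 0 : ℝ) + y 1 + y 2 = N)) (m : Fin 3) :
    FF S κ y m = S * y m + 2 * κ * (y m : ℝ) ^ 2 - κ / 2 * (N - y m) ^ 2 -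
      κ / 2 * (((y (m + 1) : ℤ) : ℝ) - y (m + 2)) ^ 2 := by
  have h1 := sum_cyc (fun i => (y i : ℝ)) m
  have h2 := sum_cyc (fun i => (y i : ℝ) ^ 2) m
  unfold FF
  rw [← h2, ← hy, ← h1]
  ring

theorem FF_sub {S κ N : ℝ} {y : Fin 3 → ℤ} (hy : ((y 0 : ℝ) + y 1 + y 2 = N)) (m : Fin 3) :
    FF S κ y (m + 1) - FF S κ y (m + 2) =
      (((y (m + 1) : ℤ) : ℝ) - y (m + 2)) * (S + 3 * κ * (N - y m)) := by
  have h1 := sum_cyc (fun i => (y i : ℝ)) m
  unfold FF
  rw [← hy, ← h1]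
  ring

/-- properties of the chain used at height `h` -/
structure ChainOK (s R κ Sh : ℝ) (n : ℤ) (α β : ℤ → ℤ) : Prop where
  mono : ∀ u : ℤ, -n ≤ u → u < n → α u < α (u + 1)
  conc : ∀ u : ℤ, -n < u → u < n →
      (β (u + 1) - β u) * (α u - α (u - 1)) < (β u - β (u - 1)) * (α (u + 1) - α u)
  near1 : ∀ u : ℤ, -n ≤ u → u ≤ n → |(α u : ℝ) - Sh * u| ≤ 1 / 10 ^ 6 * s
  near2 : ∀ u : ℤ, -n ≤ u → u ≤ n → |(β u : ℝ) + κ / 2 * (u : ℝ) ^ 2| ≤ 1 / 10 ^ 6 * s
  slope : ∀ u : ℤ, -n ≤ u → u < n →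
      |((β (u + 1) : ℝ) - β u) + κ * ((u : ℝ) + 1 / 2) / Sh * ((α (u + 1) : ℝ) - α u)|
        ≤ 1 / 10 ^ 7 / R * ((α (u + 1) : ℝ) - α u)

/-- properties of the position of a vertex -/
structure VQ (s κ : ℝ) (W Tr : ℤ) (α β : ℤ → ℤ → ℤ) (rC : ℤ → ℤ) (y : Fin 3 → ℤ)
    (t : Option (Fin 3)) (q : Fin 3 → ℤ) : Prop where
  sum : q 0 + q 1 + q 2 = W
  typed : ∀ m, t = some m → 2 * (1 / 4000) * s - 3 * (1 / 10 ^ 6) * s ≤ q m - 2 * FF s κ y m ∧
    q m - 2 * FF s κ y m ≤ 2 * (1 / 4000) * s + 3 * (1 / 10 ^ 6) * s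
  untyped : ∀ m, t ≠ some m → -(1 / 4000 * s + 3 * (1 / 10 ^ 6) * s) ≤ q m - 2 * FF s κ y m ∧
    q m - 2 * FF s κ y m ≤ 3 * (1 / 10 ^ 6) * s
  P : ∀ m, t = some m → q m = 2 * β (y m) (y (m + 1) - y (m + 2)) + 2 * rC (y m) + 2 * Tr
  T : ∀ m, t = some m → q (m + 1) - q (m + 2) = 2 * α (y m) (y (m + 1) - y (m + 2))

theorem VQ.abs {s κ : ℝ} {W Tr : ℤ} {α β : ℤ → ℤ → ℤ} {rC : ℤ → ℤ} {y : Fin 3 → ℤ}
    {t : Option (Fin 3)} {q : Fin 3 → ℤ} (h : VQ s κ W Tr α β rC y t q) (hs : 0 < s) (m : Fin 3) :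
    |q m - 2 * FF s κ y m| ≤ 2 * (1 / 4000) * s + 3 * (1 / 10 ^ 6) * s := by
  by_cases hm : t = some m
  · have := h.typed m hm
    rw [abs_le]; constructor <;> linarith
  · have := h.untyped m hm
    rw [abs_le]; constructor <;> linarith

theorem VQ.absT {s κ : ℝ} {W Tr : ℤ} {α β : ℤ → ℤ → ℤ} {rC : ℤ → ℤ} {y : Fin 3 → ℤ}
    {t : Option (Fin 3)} {q : Fin 3 → ℤ} (h : VQ s κ W Tr α β rC y t q) (hs : 0 < s) {i j : Fin 3}
    (hij : i ≠ j) :
    |(q i - q j : ℝ) - 2 * (FF s κ y i - FF s κ y j)| ≤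
      3 * (1 / 4000) * s + 8 * (1 / 10 ^ 6) * s := by
  by_cases hi : t = some i
  · have hj : t ≠ some j := by
      rw [hi]; intro h'; exact hij (Option.some.inj h')
    have h1 := h.typed i hi
    have h2 := h.untyped j hj
    rw [abs_le]; constructor <;> linarith
  · have h1 := h.untyped i hi
    by_cases hj : t = some j
    · have h2 := h.typed j hj
      rw [abs_le]; constructor <;> linarith
    · have h2 := h.untyped j hj
      rw [abs_le]; constructor <;> linarith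

theorem exists_vq {s κ R : ℝ} {S : ℕ} {n Tr : ℤ} (hsS : s = S) (hs : 10 ^ 6 ≤ s)
    (hTr : (Tr : ℝ) = 1 / 4000 * s)
    (α β : ℤ → ℤ → ℤ) (rC : ℤ → ℤ)
    (hrC : ∀ h : ℤ, |(rC h : ℝ) - (s * h + 2 * κ * (h : ℝ) ^ 2 - κ / 2 * ((n : ℝ) - h) ^ 2)| ≤ 1 / 2)
    (hch : ∀ h : ℤ, 0 ≤ h → h ≤ n →
      ChainOK s R κ (s + 3 * κ * ((n : ℝ) - h)) n (α h) (β h))
    (y : Fin 3 → ℤ) (hy0 : ∀ m, 0 ≤ y m) (hy : y 0 + y 1 + y 2 = n) (t : Option (Fin 3)) :
    ∃ q : Fin 3 → ℤ, VQ s κ (2 * S * n) Tr α β rC y t q := by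
  have hyR : (y 0 : ℝ) + y 1 + y 2 = n := by exact_mod_cast hy
  cases t with
  | none =>
    have r0 := abs_sub_round (2 * FF s κ y 0)
    have r1 := abs_sub_round (2 * FF s κ y 1)
    rw [abs_le] at r0 r1
    have hsum := FF_sum (S := s) (κ := κ) hyR
    have hW : ((2 * S * n : ℤ) : ℝ) = 2 * (s * n) := by push_cast; rw [hsS]; ring
    refine ⟨![round (2 * FF s κ y 0), round (2 * FF s κ y 1),
      2 * S * n - round (2 * FF s κ y 0) - round (2 * FF s κ y 1)], ?_, ?_, ?_, ?_, ?_⟩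
    · simp
    · intro m hm; simp at hm
    · intro m _
      fin_cases m
      · simp
        constructor <;> linarith
      · simp
        constructor <;> linarith
      · simp only [Fin.reduceFinMk, Matrix.cons_val, Int.cast_sub, hW]
        constructor <;> linarith
    · intro m hm; simp at hm
    · intro m hm; simp at hm
  | some m =>
    have hm1 : m + 1 ≠ m := by fin_cases m <;> decide
    have hm2 : m + 2 ≠ m := by fin_cases m <;> decide
    have hm12 : m + 1 ≠ m + 2 := by fin_cases m <;> decide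
    have hall : ∀ i : Fin 3, i = m ∨ i = m + 1 ∨ i = m + 2 := by
      intro i; fin_cases m <;> fin_cases i <;> decide
    set u : ℤ := y (m + 1) - y (m + 2) with hu
    set h : ℤ := y m with hh
    have hsc := sum_cyc y m
    have hn : h ≤ n := by have := hy0 (m + 1); have := hy0 (m + 2); omega
    have hun : -n ≤ u ∧ u ≤ n := by
      have h1 := hy0 (m + 1); have h2 := hy0 (m + 2); have h3 := hy0 m
      constructor <;> omega
    have hc := hch h (hy0 m) hn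
    have n1 := abs_le.1 (hc.near1 u hun.1 hun.2)
    have n2 := abs_le.1 (hc.near2 u hun.1 hun.2)
    have n3 := abs_le.1 (hrC h)
    have hFm := FF_eq (S := s) (κ := κ) hyR m
    have hFd := FF_sub (S := s) (κ := κ) hyR m
    have huR : ((y (m + 1) : ℤ) : ℝ) - y (m + 2) = u := by rw [hu]; push_cast; ring
    rw [huR] at hFm hFd
    have hFs := FF_sum (S := s) (κ := κ) hyR
    rw [← sum_cyc (fun i => FF s κ y i) m] at hFs
    rw [← hh] at hFm hFd
    set Fm := FF s κ y m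
    set F1 := FF s κ y (m + 1)
    set F2 := FF s κ y (m + 2)
    let q : Fin 3 → ℤ := fun i => if i = m then 2 * β h u + 2 * rC h + 2 * Tr
      else if i = m + 1 then S * n - β h u - rC h - Tr + α h u
      else S * n - β h u - rC h - Tr - α h u
    have q0 : q m = 2 * β h u + 2 * rC h + 2 * Tr := by simp [q]
    have q1 : q (m + 1) = S * n - β h u - rC h - Tr + α h u := by simp [q, hm1]
    have q2 : q (m + 2) = S * n - β h u - rC h - Tr - α h u := by simp [q, hm2, hm12.symm]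
    have hF1 : 2 * F1 = s * n - Fm + u * (s + 3 * κ * ((n : ℝ) - h)) := by linarith
    have hF2 : 2 * F2 = s * n - Fm - u * (s + 3 * κ * ((n : ℝ) - h)) := by linarith
    have q0R : (q m : ℝ) = 2 * β h u + 2 * rC h + 2 * Tr := by rw [q0]; push_cast; ring
    have q1R : (q (m + 1) : ℝ) = s * n - β h u - rC h - Tr + α h u := by
      rw [q1, hsS]; push_cast; ring
    have q2R : (q (m + 2) : ℝ) = s * n - β h u - rC h - Tr - α h u := by
      rw [q2, hsS]; push_cast; ring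
    have e1 : u * (s + 3 * κ * ((n : ℝ) - h)) = (s + 3 * κ * ((n : ℝ) - h)) * u := by ring
    rw [e1] at hF1 hF2
    refine ⟨q, ?_, ?_, ?_, ?_, ?_⟩
    · rw [← sum_cyc q m, q0, q1, q2]; ring
    · intro i hi
      obtain rfl : m = i := Option.some.inj hi
      rw [q0R, hTr]
      constructor <;> linarith
    · intro i hi
      have him : i ≠ m := fun h => hi (by rw [h])
      rcases hall i with rfl | rfl | rfl
      · exact absurd rfl him
      · rw [q1R, hTr]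
        constructor <;> linarith
      · rw [q2R, hTr]
        constructor <;> linarith
    · intro i hi
      obtain rfl : m = i := Option.some.inj hi
      exact q0
    · intro i hi
      obtain rfl : m = i := Option.some.inj hi
      rw [q1, q2]; ring

end T7b

end Pool.Agent.Run7.h215
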