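import Pool.Agent.Run7.h215.T7b3

/-!
# T7b: nearly straight corners and the theorem
-/

set_option autoImplicit false
set_option linter.unusedVariables false

namespace Pool.Agent.Run7.h215

namespace T7b

theorem two_om {V : Type*} {q : V → Fin 3 → ℤ} {W : ℤ} (hq : ∀ v, q v 0 + q v 1 + q v 2 = W)
    (m : Fin 3) (a v b : V) :
    2 * om q a v b =
      (q v m - q a m) * ((q b (m + 1) - q b (m + 2)) - (q v (m + 1) - q v (m + 2))) -
      (q b m - q v m) * ((q v (m + 1) - q v (m + 2)) - (q a (m + 1) - q a (m + 2))) := by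
  have ha := hq a
  have hv := hq v
  have hb := hq b
  have ea : q a 2 = W - q a 0 - q a 1 := by omega
  have ev : q v 2 = W - q v 0 - q v 1 := by omega
  have eb : q b 2 = W - q b 0 - q b 1 := by omega
  unfold om
  fin_cases m
  · show _ = (q v 0 - q a 0) * ((q b 1 - q b 2) - (q v 1 - q v 2)) -
      (q b 0 - q v 0) * ((q v 1 - q v 2) - (q a 1 - q a 2))
    rw [ea, ev, eb]; ring
  · show _ = (q v 1 - q a 1) * ((q b 2 - q b 0) - (q v 2 - q v 0)) -
      (q b 1 - q v 1) * ((q v 2 - q v 0) - (q a 2 - q a 0))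
    rw [ea, ev, eb]; ring
  · show _ = (q v 2 - q a 2) * ((q b 0 - q b 1) - (q v 0 - q v 1)) -
      (q b 2 - q v 2) * ((q v 0 - q v 1) - (q a 0 - q a 1))
    rw [ea, ev, eb]; ring

theorem ns_pos {s κ R : ℝ} {n W Tr : ℤ} (hs : 10 ^ 6 ≤ s) (hR : 1 ≤ R) (hn : (n : ℝ) = R ^ 2)
    (hκ : κ = 1 / 10 ^ 8 * s / R ^ 2) (α β : ℤ → ℤ → ℤ) (rC : ℤ → ℤ)
    (hch : ∀ h : ℤ, 0 ≤ h → h ≤ n →
      ChainOK s R κ (s + 3 * κ * ((n : ℝ) - h)) n (α h) (β h))
    (ya yv yb : Fin 3 → ℤ) (hya0 : ∀ m, 0 ≤ ya m) (hyv0 : ∀ m, 0 ≤ yv m) (hyb0 : ∀ m, 0 ≤ yb m)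
    (hya : ya 0 + ya 1 + ya 2 = n) (hyv : yv 0 + yv 1 + yv 2 = n) (hyb : yb 0 + yb 1 + yb 2 = n)
    (ta tv tb : Option (Fin 3)) (qa qv qb : Fin 3 → ℤ)
    (ha : VQ s κ W Tr α β rC ya ta qa) (hv : VQ s κ W Tr α β rC yv tv qv)
    (hb : VQ s κ W Tr α β rC yb tb qb) (m : Fin 3) (htv : tv = some m)
    (hja : ya m ≤ yv m) (hjb : yb m ≤ yv m)
    (h1 : 0 < (yv (m + 1) - yv (m + 2)) - (ya (m + 1) - ya (m + 2)))
    (h2 : 0 < (yb (m + 1) - yb (m + 2)) - (yv (m + 1) - yv (m + 2)))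
    (h3 : 10 * (yv m - ya m) ≤ (yv (m + 1) - yv (m + 2)) - (ya (m + 1) - ya (m + 2)))
    (h4 : 10 * (yv m - yb m) ≤ (yb (m + 1) - yb (m + 2)) - (yv (m + 1) - yv (m + 2))) :
    0 < (qv m - qa m) * ((qb (m + 1) - qb (m + 2)) - (qv (m + 1) - qv (m + 2))) -
      (qb m - qv m) * ((qv (m + 1) - qv (m + 2)) - (qa (m + 1) - qa (m + 2))) := by
  have hs0 : 0 < s := by linarith
  have hR0 : 0 < R := by linarith
  have hκ0 : 0 < κ := by rw [hκ]; positivity
  have hm12 : m + 1 ≠ m + 2 := by fin_cases m <;> decide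
  obtain ⟨h, hh⟩ : ∃ h, h = yv m := ⟨_, rfl⟩
  obtain ⟨u, hu⟩ : ∃ u, u = yv (m + 1) - yv (m + 2) := ⟨_, rfl⟩
  obtain ⟨ua, hua⟩ : ∃ u, u = ya (m + 1) - ya (m + 2) := ⟨_, rfl⟩
  obtain ⟨ub, hub⟩ : ∃ u, u = yb (m + 1) - yb (m + 2) := ⟨_, rfl⟩
  rw [← hu, ← hua] at h1 h3
  rw [← hu, ← hub] at h2 h4
  rw [← hh] at h3 h4 hja hjb
  have sa := sum_cyc ya m
  have sv := sum_cyc yv m
  have sb := sum_cyc yb m
  have a1 := hya0 (m + 1)
  have a2 := hya0 (m + 2)
  have a0 := hya0 m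
  have v1 := hyv0 (m + 1)
  have v2 := hyv0 (m + 2)
  have v0 := hyv0 m
  have b1 := hyb0 (m + 1)
  have b2 := hyb0 (m + 2)
  have b0 := hyb0 m
  have hhn : h ≤ n := by omega
  have hh0 : 0 ≤ h := by omega
  have uab : -n ≤ ua ∧ ua ≤ n := by constructor <;> omega
  have uvb : -n ≤ u ∧ u ≤ n := by constructor <;> omega
  have ubb : -n ≤ ub ∧ ub ≤ n := by constructor <;> omega
  have hc := hch h hh0 hhn
  -- real versions
  have hyvR : (yv 0 : ℝ) + yv 1 + yv 2 = R ^ 2 := by rw [← hn]; exact_mod_cast hyv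
  have hyaR : (ya 0 : ℝ) + ya 1 + ya 2 = R ^ 2 := by rw [← hn]; exact_mod_cast hya
  have hybR : (yb 0 : ℝ) + yb 1 + yb 2 = R ^ 2 := by rw [← hn]; exact_mod_cast hyb
  have huvR : ((yv (m + 1) : ℤ) : ℝ) - yv (m + 2) = u := by rw [hu]; push_cast; ring
  have huaR : ((ya (m + 1) : ℤ) : ℝ) - ya (m + 2) = ua := by rw [hua]; push_cast; ring
  have hubR : ((yb (m + 1) : ℤ) : ℝ) - yb (m + 2) = ub := by rw [hub]; push_cast; ring
  have Fv := FF_eq (S := s) (κ := κ) hyvR m
  have Fa := FF_eq (S := s) (κ := κ) hyaR m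
  have Fb := FF_eq (S := s) (κ := κ) hybR m
  have Gv := FF_sub (S := s) (κ := κ) hyvR m
  have Ga := FF_sub (S := s) (κ := κ) hyaR m
  have Gb := FF_sub (S := s) (κ := κ) hybR m
  rw [huvR, ← hh] at Fv Gv
  rw [huaR] at Fa Ga
  rw [hubR] at Fb Gb
  have tyv := hv.typed m htv
  have Ta := ha.absT hs0 hm12
  have Tb := hb.absT hs0 hm12
  have Pv := hv.P m htv
  have Tv := hv.T m htv
  rw [← hh, ← hu] at Pv Tv
  have TvR : (qv (m + 1) : ℝ) - qv (m + 2) = 2 * α h u := by exact_mod_cast Tv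
  have nv := hc.near1 u uvb.1 uvb.2
  have hnn : (n : ℝ) = R ^ 2 := hn
  rw [hnn] at hc nv
  have hTv : |((qv (m + 1) : ℝ) - qv (m + 2)) - 2 * (u * (s + 3 * κ * (R ^ 2 - h)))| ≤
      2 * (1 / 10 ^ 6) * s := by
    rw [TvR, show 2 * (α h u : ℝ) - 2 * (u * (s + 3 * κ * (R ^ 2 - h))) =
      2 * (α h u - (s + 3 * κ * (R ^ 2 - h)) * u) by ring, abs_mul, abs_two]
    linarith
  rw [Fv] at tyv
  rw [Ga] at Ta
  rw [Gb] at Tb
  obtain ⟨Sh, hSh⟩ : ∃ Sh, Sh = s + 3 * κ * (R ^ 2 - h) := ⟨_, rfl⟩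
  have hhR : (h : ℝ) ≤ R ^ 2 := by rw [← hn]; exact_mod_cast hhn
  have hShs : s ≤ Sh := by
    rw [hSh]
    have : 0 ≤ κ * (R ^ 2 - h) := mul_nonneg hκ0.le (by linarith)
    linarith
  have hSh0 : 0 < Sh := by linarith
  have huR : |(u : ℝ)| ≤ R ^ 2 := by
    rw [← hn, abs_le]; constructor
    · exact_mod_cast uvb.1
    · exact_mod_cast uvb.2
  have huaR' : |(ua : ℝ)| ≤ R ^ 2 := by
    rw [← hn, abs_le]; constructor
    · exact_mod_cast uab.1
    · exact_mod_cast uab.2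
  have hubR' : |(ub : ℝ)| ≤ R ^ 2 := by
    rw [← hn, abs_le]; constructor
    · exact_mod_cast ubb.1
    · exact_mod_cast ubb.2
  -- left
  have hL : 0 < ((qv (m + 1) : ℝ) - qv (m + 2)) - (qa (m + 1) - qa (m + 2)) ∧
      ((-(κ * u) / Sh + 1 / (2 * 10 ^ 6) / R) *
          (((qv (m + 1) : ℝ) - qv (m + 2)) - (qa (m + 1) - qa (m + 2))) ≤ qv m - qa m ∨
        ((β h u : ℝ) - β h (u - 1)) *
          (((qv (m + 1) : ℝ) - qv (m + 2)) - (qa (m + 1) - qa (m + 2))) ≤
          (qv m - qa m) * (α h u - α h (u - 1))) := by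
    by_cases hcase : ta = some m ∧ ya m = h
    · obtain ⟨hta, hyh⟩ := hcase
      have Pa := ha.P m hta
      have Ta' := ha.T m hta
      rw [hyh, ← hua] at Pa Ta'
      have hcl := chain_left (α := α h) (β := β h) (N := n) hc.mono hc.conc
        (k := ua) (l := u - 1) uab.1 (by omega) (by omega)
      rw [show u - 1 + 1 = u by ring] at hcl
      obtain ⟨c1, c2⟩ := hcl
      have PaR : (qa m : ℝ) = 2 * β h ua + 2 * rC h + 2 * Tr := by exact_mod_cast Pa
      have TaR : (qa (m + 1) : ℝ) - qa (m + 2) = 2 * α h ua := by exact_mod_cast Ta'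
      have PvR : (qv m : ℝ) = 2 * β h u + 2 * rC h + 2 * Tr := by exact_mod_cast Pv
      have c1R : (α h ua : ℝ) < α h u := by exact_mod_cast c1
      have c2R : ((β h u : ℝ) - β h (u - 1)) * (α h u - α h ua) ≤
        (β h u - β h ua) * (α h u - α h (u - 1)) := by exact_mod_cast c2
      rw [TaR, TvR, PaR, PvR]
      refine ⟨by linarith, Or.inr ?_⟩
      linarith
    · have hj0 : (0 : ℝ) ≤ (h : ℝ) - ya m := by
        have : (ya m : ℝ) ≤ h := by exact_mod_cast hja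
        linarith
      have hd1 : (1 : ℝ) ≤ (u : ℝ) - ua := by
        have : (1 : ℤ) ≤ u - ua := by omega
        exact_mod_cast this
      have hd2 : 10 * ((h : ℝ) - ya m) ≤ (u : ℝ) - ua := by exact_mod_cast h3
      have key := left_est (S := s) (R := R) (h := h) (j := (h : ℝ) - ya m) (u := u)
        (d := (u : ℝ) - ua) (Pv := qv m) (Tv := (qv (m + 1) : ℝ) - qv (m + 2)) (Pa := qa m)
        (Ta := (qa (m + 1) : ℝ) - qa (m + 2)) (κ := κ) (Sh := Sh) hs hR hκ hSh hj0 hd1 hd2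
        (by
          rw [sub_sub_cancel]
          exact_mod_cast a0) hhR huR
        (by rw [sub_sub_cancel]; exact huaR')
        (by linarith [tyv.1])
        (by rw [hSh]; exact hTv)
        (by
          rw [sub_sub_cancel, sub_sub_cancel]
          by_cases hta : ta = some m
          · right
            have t1 := (ha.typed m hta).2
            rw [Fa] at t1
            refine ⟨by linarith, ?_⟩
            have hne : ya m ≠ h := fun he => hcase ⟨hta, he⟩
            have : (1 : ℤ) ≤ h - ya m := by omega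
            exact_mod_cast this
          · left
            have t1 := (ha.untyped m hta).2
            rw [Fa] at t1
            linarith)
        (by
          rw [sub_sub_cancel, sub_sub_cancel]
          exact Ta)
      exact ⟨key.1, Or.inl key.2⟩
  -- right
  have hRr : 0 < ((qb (m + 1) : ℝ) - qb (m + 2)) - (qv (m + 1) - qv (m + 2)) ∧
      ((qb m : ℝ) - qv m ≤ (-(κ * u) / Sh - 1 / (2 * 10 ^ 6) / R) *
          (((qb (m + 1) : ℝ) - qb (m + 2)) - (qv (m + 1) - qv (m + 2))) ∨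
        ((qb m : ℝ) - qv m) * (α h (u + 1) - α h u) ≤ ((β h (u + 1) : ℝ) - β h u) *
          (((qb (m + 1) : ℝ) - qb (m + 2)) - (qv (m + 1) - qv (m + 2)))) := by
    by_cases hcase : tb = some m ∧ yb m = h
    · obtain ⟨htb, hyh⟩ := hcase
      have Pb := hb.P m htb
      have Tb' := hb.T m htb
      rw [hyh, ← hub] at Pb Tb'
      have hcl := chain_right (α := α h) (β := β h) (N := n) hc.mono hc.conc
        (k := u) (l := ub - 1) uvb.1 (by omega) (by omega)
      rw [show ub - 1 + 1 = ub by ring] at hcl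
      obtain ⟨c1, c2⟩ := hcl
      have PbR : (qb m : ℝ) = 2 * β h ub + 2 * rC h + 2 * Tr := by exact_mod_cast Pb
      have TbR : (qb (m + 1) : ℝ) - qb (m + 2) = 2 * α h ub := by exact_mod_cast Tb'
      have PvR : (qv m : ℝ) = 2 * β h u + 2 * rC h + 2 * Tr := by exact_mod_cast Pv
      have c1R : (α h u : ℝ) < α h ub := by exact_mod_cast c1
      have c2R : ((β h ub : ℝ) - β h u) * (α h (u + 1) - α h u) ≤
        (β h (u + 1) - β h u) * (α h ub - α h u) := by exact_mod_cast c2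
      rw [TbR, TvR, PbR, PvR]
      refine ⟨by linarith, Or.inr ?_⟩
      linarith
    · have hj0 : (0 : ℝ) ≤ (h : ℝ) - yb m := by
        have : (yb m : ℝ) ≤ h := by exact_mod_cast hjb
        linarith
      have hd1 : (1 : ℝ) ≤ (ub : ℝ) - u := by
        have : (1 : ℤ) ≤ ub - u := by omega
        exact_mod_cast this
      have hd2 : 10 * ((h : ℝ) - yb m) ≤ (ub : ℝ) - u := by exact_mod_cast h4
      have eu : (u : ℝ) + ((ub : ℝ) - u) = ub := by ring
      have key := right_est (S := s) (R := R) (h := h) (j := (h : ℝ) - yb m) (u := u)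
        (d := (ub : ℝ) - u) (Pv := qv m) (Tv := (qv (m + 1) : ℝ) - qv (m + 2)) (Pb := qb m)
        (Tb := (qb (m + 1) : ℝ) - qb (m + 2)) (κ := κ) (Sh := Sh) hs hR hκ hSh hj0 hd1 hd2
        (by
          rw [sub_sub_cancel]
          exact_mod_cast b0) hhR huR
        (by rw [eu]; exact hubR')
        (by linarith [tyv.1])
        (by rw [hSh]; exact hTv)
        (by
          rw [eu, sub_sub_cancel]
          by_cases htb : tb = some m
          · right
            have t1 := (hb.typed m htb).2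
            rw [Fb] at t1
            refine ⟨by linarith, ?_⟩
            have hne : yb m ≠ h := fun he => hcase ⟨htb, he⟩
            have : (1 : ℤ) ≤ h - yb m := by omega
            exact_mod_cast this
          · left
            have t1 := (hb.untyped m htb).2
            rw [Fb] at t1
            linarith)
        (by
          rw [eu, sub_sub_cancel]
          exact Tb)
      exact ⟨key.1, Or.inl key.2⟩
  -- slopes of the chain next to `u`
  have su1 : -n ≤ u - 1 := by omega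
  have su2 : u < n := by omega
  have sl1 := (abs_le.1 (hc.slope (u - 1) su1 (by omega))).1
  have sl2 := (abs_le.1 (hc.slope u uvb.1 su2)).2
  have m1 := hc.mono (u - 1) su1 (by omega)
  have m2 := hc.mono u uvb.1 su2
  have cc := hc.conc u (by omega) su2
  rw [show u - 1 + 1 = u by ring] at sl1 m1
  have m1R : (α h (u - 1) : ℝ) < α h u := by exact_mod_cast m1
  have m2R : (α h u : ℝ) < α h (u + 1) := by exact_mod_cast m2
  have ccR : ((β h (u + 1) : ℝ) - β h u) * (α h u - α h (u - 1)) <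
    (β h u - β h (u - 1)) * (α h (u + 1) - α h u) := by exact_mod_cast cc
  rw [← hSh] at sl1 sl2
  have hμ : (0 : ℝ) < 1 / (2 * 10 ^ 6) / R := by positivity
  have kSh : 0 < κ / Sh := div_pos hκ0 hSh0
  have hμ7 : 1 / 10 ^ 7 / R ≤ 1 / (2 * 10 ^ 6) / R / 2 := by
    rw [div_div _ R 2, div_div, div_div]
    apply div_le_div_of_nonneg_left (by norm_num) (by positivity)
    nlinarith
  have A0 : (0 : ℝ) < α h u - α h (u - 1) := by linarith
  have A1 : (0 : ℝ) < α h (u + 1) - α h u := by linarith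
  have hbL : (-(κ * u) / Sh - 1 / (2 * 10 ^ 6) / R / 2) * ((α h u : ℝ) - α h (u - 1)) ≤
      (β h u : ℝ) - β h (u - 1) := by
    have e1 : κ * (((u - 1 : ℤ) : ℝ) + 1 / 2) / Sh * ((α h u : ℝ) - α h (u - 1)) =
      κ * u / Sh * ((α h u : ℝ) - α h (u - 1)) -
        1 / 2 * ((κ / Sh) * ((α h u : ℝ) - α h (u - 1))) := by push_cast; ring
    rw [e1] at sl1
    have e2 := mul_pos kSh A0
    have e3 := mul_le_mul_of_nonneg_right hμ7 A0.le
    have e4 : (-(κ * u) / Sh - 1 / (2 * 10 ^ 6) / R / 2) * ((α h u : ℝ) - α h (u - 1)) =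
      -(κ * u / Sh * ((α h u : ℝ) - α h (u - 1))) -
        1 / (2 * 10 ^ 6) / R / 2 * ((α h u : ℝ) - α h (u - 1)) := by ring
    rw [e4]
    linarith
  have hbR : (β h (u + 1) : ℝ) - β h u ≤
      (-(κ * u) / Sh + 1 / (2 * 10 ^ 6) / R / 2) * ((α h (u + 1) : ℝ) - α h u) := by
    have e1 : κ * ((u : ℝ) + 1 / 2) / Sh * ((α h (u + 1) : ℝ) - α h u) =
      κ * u / Sh * ((α h (u + 1) : ℝ) - α h u) +
        1 / 2 * ((κ / Sh) * ((α h (u + 1) : ℝ) - α h u)) := by ring
    rw [e1] at sl2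
    have e2 := mul_pos kSh A1
    have e3 := mul_le_mul_of_nonneg_right hμ7 A1.le
    have e4 : (-(κ * u) / Sh + 1 / (2 * 10 ^ 6) / R / 2) * ((α h (u + 1) : ℝ) - α h u) =
      -(κ * u / Sh * ((α h (u + 1) : ℝ) - α h u)) +
        1 / (2 * 10 ^ 6) / R / 2 * ((α h (u + 1) : ℝ) - α h u) := by ring
    rw [e4]
    linarith
  have fin := combine hL.1 hRr.1 hμ A0 A1 hbL hbR ccR hL.2 hRr.2
  have : (0 : ℝ) < (((qv m - qa m) * ((qb (m + 1) - qb (m + 2)) - (qv (m + 1) - qv (m + 2))) -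
      (qb m - qv m) * ((qv (m + 1) - qv (m + 2)) - (qa (m + 1) - qa (m + 2))) : ℤ) : ℝ) := by
    push_cast
    exact fin
  exact_mod_cast this

end T7b

end Pool.Agent.Run7.h215
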